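import Pool.Agent.H53.SQ.Base

/-!
# Module ADDB: moving strands and arcs in `Add`

`X : List ((Bool ⊕ ℕ) × Bool)` is a list of strands with flags; `Xok ov X`: every strand of `X` is an
upward strand of the open diagram (any flag), or an upward piece of the arc with flag `!ov`.

PROOFS. All by induction on `X` (generalizing `P`/`Q`, `e`, `w`).
* `add_mvR`: `X = x :: X'`. If `x.1 = inl true`: use `Add.cross P (X'.map fst ++ R) x.2 _ _ h'` where
  `h'` is the induction hypothesis with `P' = P ++ [inl true]` (the list of strands does not change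
  when two `inl true` cross; `openCount P' = openCount P + 1`, `P'.length = P.length + 1`). If
  `x.1 = inr (2 * k)`, `x.2 = !ov`: use `Add.left` (the open strand moves right, i.e. the arc moves
  left; the sign is `!ov`, which is the flag) with `P' = P ++ [inr (2 * k)]`,
  `openCount P' = openCount P`; the open word does not change.
* `add_mvL`: the same; the last crossing of `mvL q (f :: D)` is `cross q (!f)`: for an arc use
  `Add.right` (sign `ov = !(!ov)`). Here the word is `mvL (q+1) D ++ ([cross q (!f)] ++ w)`.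
* `add_fw`: combine; `fw p (f :: D) m = cross p f :: (fw (p+1) D m ++ [cross p (!f)])`;
  for `X = []`: `m` times `Add.cross`.
* `arc_mvR`, `arc_mvL`: induction on `n`, with `Add.right` (sign `ov`), `Add.left` (sign `!ov`).
-/

namespace Pool.Agent.H53.SQ

theorem openCount_append (A B : List (Bool ⊕ ℕ)) :
    openCount (A ++ B) = openCount A + openCount B := by
  induction A with
  | nil => simp [openCount]
  | cons a A ih =>
    rcases a with b | k
    · simp only [List.cons_append, openCount, ih]
      omega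
    · simp only [List.cons_append, openCount, ih]

def Xok (ov : Bool) (X : List ((Bool ⊕ ℕ) × Bool)) : Prop :=
  ∀ x ∈ X, x.1 = Sum.inl true ∨ ∃ k : ℕ, x.1 = Sum.inr (2 * k) ∧ x.2 = !ov

def oflags (X : List ((Bool ⊕ ℕ) × Bool)) : List Bool :=
  (X.filter (fun x => x.1.isLeft)).map Prod.snd

theorem addb_oc_l (A : List (Bool ⊕ ℕ)) (d : Bool) :
    openCount (A ++ [Sum.inl d]) = openCount A + 1 := by
  rw [openCount_append]; rfl

theorem addb_oc_r (A : List (Bool ⊕ ℕ)) (k : ℕ) :
    openCount (A ++ [Sum.inr k]) = openCount A := by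
  rw [openCount_append]; rfl

theorem addb_len (A : List (Bool ⊕ ℕ)) (x : Bool ⊕ ℕ) : (A ++ [x]).length = A.length + 1 := by
  simp

theorem addb_ol (d f : Bool) (X : List ((Bool ⊕ ℕ) × Bool)) :
    oflags ((Sum.inl d, f) :: X) = f :: oflags X := by
  unfold oflags
  rw [List.filter_cons_of_pos (by rfl)]
  rfl

theorem addb_or (k : ℕ) (f : Bool) (X : List ((Bool ⊕ ℕ) × Bool)) :
    oflags ((Sum.inr k, f) :: X) = oflags X := by
  simp [oflags]

theorem addb_cases (ov : Bool) (x : (Bool ⊕ ℕ) × Bool) (X : List ((Bool ⊕ ℕ) × Bool))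
    (hX : Xok ov (x :: X)) :
    ((∃ f, x = (Sum.inl true, f)) ∨ ∃ k : ℕ, x = (Sum.inr (2 * k), !ov)) ∧ Xok ov X := by
  refine ⟨?_, fun y hy => hX y (List.mem_cons_of_mem _ hy)⟩
  rcases x with ⟨a, f⟩
  rcases hX (a, f) (by simp) with h | ⟨k, h, h'⟩
  · left
    exact ⟨f, by simp only at h; rw [h]⟩
  · right
    exact ⟨k, by simp only at h h'; rw [h, h']⟩

theorem add_mvR (ov : Bool) (P : List (Bool ⊕ ℕ)) (X : List ((Bool ⊕ ℕ) × Bool))
    (R : List (Bool ⊕ ℕ)) (e w : List Gen) (hX : Xok ov X)
    (h : Add ov (P ++ (X.map Prod.fst ++ Sum.inl true :: R)) e w) :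
    Add ov (P ++ Sum.inl true :: (X.map Prod.fst ++ R)) (mvR (openCount P) (oflags X) ++ e)
      (mvR P.length (X.map Prod.snd) ++ w) := by
  induction X generalizing P with
  | nil => simpa [oflags, mvR] using h
  | cons x X ih =>
    obtain ⟨hx, hX'⟩ := addb_cases ov x X hX
    rcases hx with ⟨f, rfl⟩ | ⟨k, rfl⟩
    · have h1 := ih (P ++ [Sum.inl true]) hX' (by simpa using h)
      rw [addb_oc_l, addb_len, List.append_assoc] at h1
      rw [addb_ol]
      simp only [List.map_cons, mvR, List.cons_append]
      exact Add.cross P (X.map Prod.fst ++ R) f _ _ h1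
    · have h1 := ih (P ++ [Sum.inr (2 * k)]) hX' (by simpa using h)
      rw [addb_oc_r, addb_len, List.append_assoc] at h1
      rw [addb_or]
      simp only [List.map_cons, mvR, List.cons_append]
      exact Add.left P (X.map Prod.fst ++ R) k _ _ h1

theorem add_mvL (ov : Bool) (Q : List (Bool ⊕ ℕ)) (X : List ((Bool ⊕ ℕ) × Bool))
    (R : List (Bool ⊕ ℕ)) (e w : List Gen) (hX : Xok ov X)
    (h : Add ov (Q ++ Sum.inl true :: (X.map Prod.fst ++ R)) e w) :
    Add ov (Q ++ (X.map Prod.fst ++ Sum.inl true :: R)) (mvL (openCount Q) (oflags X) ++ e)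
      (mvL Q.length (X.map Prod.snd) ++ w) := by
  induction X generalizing Q e w with
  | nil => simpa [oflags, mvL] using h
  | cons x X ih =>
    obtain ⟨hx, hX'⟩ := addb_cases ov x X hX
    rcases hx with ⟨f, rfl⟩ | ⟨k, rfl⟩
    · have h0 := Add.cross Q (X.map Prod.fst ++ R) (!f) _ _ h
      have h1 := ih (Q ++ [Sum.inl true]) _ _ hX' (by simpa using h0)
      rw [addb_oc_l, addb_len] at h1
      rw [addb_ol]
      simpa [mvL] using h1
    · have h0 := Add.right Q (X.map Prod.fst ++ R) k _ _ h
      have h1 := ih (Q ++ [Sum.inr (2 * k)]) _ _ hX' (by simpa using h0)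
      rw [addb_oc_r, addb_len] at h1
      rw [addb_or]
      simpa [mvL] using h1

theorem add_fw (ov : Bool) (P : List (Bool ⊕ ℕ)) (X : List ((Bool ⊕ ℕ) × Bool))
    (R : List (Bool ⊕ ℕ)) (m : ℕ) (e w : List Gen) (hX : Xok ov X)
    (h : Add ov (P ++ Sum.inl true :: (X.map Prod.fst ++ Sum.inl true :: R)) e w) :
    Add ov (P ++ Sum.inl true :: (X.map Prod.fst ++ Sum.inl true :: R))
      (fw (openCount P) (oflags X) m ++ e) (fw P.length (X.map Prod.snd) m ++ w) := by
  induction X generalizing P e w with
  | nil =>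
    simp only [List.map_nil, List.nil_append, oflags, List.filter_nil, fw] at h ⊢
    induction m with
    | zero => simpa using h
    | succ m ihm =>
      simp only [List.replicate_succ, List.cons_append]
      exact Add.cross P R true _ _ ihm
  | cons x X ih =>
    obtain ⟨hx, hX'⟩ := addb_cases ov x X hX
    rcases hx with ⟨f, rfl⟩ | ⟨k, rfl⟩
    · have h0 := Add.cross P (X.map Prod.fst ++ Sum.inl true :: R) (!f) _ _ h
      have h1 := ih (P ++ [Sum.inl true]) _ _ hX' (by simpa using h0)
      rw [addb_oc_l, addb_len, List.append_assoc] at h1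
      have h2 := Add.cross P (X.map Prod.fst ++ Sum.inl true :: R) f _ _ h1
      rw [addb_ol]
      simpa [fw] using h2
    · have h0 := Add.right P (X.map Prod.fst ++ Sum.inl true :: R) k _ _ h
      have h1 := ih (P ++ [Sum.inr (2 * k)]) _ _ hX' (by simpa using h0)
      rw [addb_oc_r, addb_len, List.append_assoc] at h1
      have h2 := Add.left P (X.map Prod.fst ++ Sum.inl true :: R) k _ _ h1
      rw [addb_or]
      simpa [fw] using h2

theorem arc_mvR (ov : Bool) (k n : ℕ) (Q R : List (Bool ⊕ ℕ)) (e w : List Gen)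
    (h : Add ov (Q ++ (List.replicate n (Sum.inl true) ++ Sum.inr (2 * k) :: R)) e w) :
    Add ov (Q ++ Sum.inr (2 * k) :: (List.replicate n (Sum.inl true) ++ R)) e
      (mvR Q.length (List.replicate n ov) ++ w) := by
  induction n generalizing Q with
  | zero => simpa [mvR] using h
  | succ n ih =>
    have h1 := ih (Q ++ [Sum.inl true]) (by simpa [List.replicate_succ] using h)
    rw [addb_len, List.append_assoc] at h1
    simp only [List.replicate_succ, mvR, List.cons_append]
    exact Add.right Q (List.replicate n (Sum.inl true) ++ R) k _ _ h1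

theorem arc_mvL (ov : Bool) (k n : ℕ) (Q R : List (Bool ⊕ ℕ)) (e w : List Gen)
    (h : Add ov (Q ++ Sum.inr (2 * k) :: (List.replicate n (Sum.inl true) ++ R)) e w) :
    Add ov (Q ++ (List.replicate n (Sum.inl true) ++ Sum.inr (2 * k) :: R)) e
      (mvL Q.length (List.replicate n ov) ++ w) := by
  induction n generalizing Q w with
  | zero => simpa [mvL] using h
  | succ n ih =>
    have h0 := Add.left Q (List.replicate n (Sum.inl true) ++ R) k _ _ h
    have h1 := ih (Q ++ [Sum.inl true]) _ (by simpa using h0)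
    rw [addb_len] at h1
    simpa [List.replicate_succ, mvL] using h1

end Pool.Agent.H53.SQ
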