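import Pool.Agent.H53.SQ.GRD

/-!
# Module ASMA: the letters of a contour word

PROOFS: inductions on `b`. A letter of `RC b ++ LC b` is `(inl v, s)` with `(v, s) ∈ gls b`, or `retL`/`topL` of
`inl g` with `g ∈ nms b`. `word_nodup`: prove together with the fact that the lists `gls b` and `nms b`
have no repetitions if `eps b` has none; e.g. the word is a permutation of
`(nms b).flatMap (fun g => [retL (inl g), topL (inl g)]) ++ (gls b).map (fun z => (inl z.1, z.2))`
(`word_perm`), and `gls b ++ nms b` is a sublist (up to permutation) of `eps b`.
`names_open`: `br`: `retL` (opening, `sd = true`) is before `topL` in `RC`; `bl`: `topL` (opening since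
`sd = false`) is before `retL` in `LC`; `jl`: `retL` (opening) in `RC`, `topL` in `LC`; `jr`: `topL` (opening)
in `RC`, `retL` in `LC`. For the names deeper in the bar: `RC c ++ LC c`, `RC r ++ LC r` are sublists of
`RC b ++ LC b`. `start_not_name`: the start is the arrival end of the first item, the names are the
other ends `(v, !s)` of `ch` items; all of them are different entries of `eps b`.
-/

namespace Pool.Agent.H53.SQ

variable {V : Type} {L : ℕ}

theorem word_perm (b : BT V) : (RC b ++ LC b : List (Lt V L)).Perm
    ((nms b).flatMap (fun g => [retL (Sum.inl g), topL (Sum.inl g)]) ++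
      (gls b).map (fun z => (Sum.inl z.1, z.2))) := by
  rw [← Multiset.coe_eq_coe, ← Multiset.coe_add, ← Multiset.coe_add]
  induction b with
  | nil => rfl
  | it v s r ih =>
    have hR : (((gls (BT.it v s r)).map (fun z => ((Sum.inl z.1, z.2) : Lt V L)) : List (Lt V L)) : Multiset (Lt V L)) =
        {((Sum.inl v, s) : Lt V L)} + (((gls r).map (fun z => ((Sum.inl z.1, z.2) : Lt V L)) : List (Lt V L)) : Multiset (Lt V L)) := by
      rw [gls, List.map_cons, ← Multiset.cons_coe, Multiset.singleton_add]
    have hN : nms (BT.it v s r) = nms r := rfl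
    rw [hR, hN]
    cases s
    · rw [RC_itL, LC_itL, ← Multiset.cons_coe, ← Multiset.singleton_add, add_assoc, ih]
      abel
    · rw [RC_itR, LC_itR, ← Multiset.coe_add, Multiset.coe_singleton, ← add_assoc, ih]
      abel
  | ch j v s c r ihc ihr =>
    have hR : (((gls (BT.ch j v s c r)).map (fun z => ((Sum.inl z.1, z.2) : Lt V L)) : List (Lt V L)) : Multiset (Lt V L)) =
        (((gls c).map (fun z => ((Sum.inl z.1, z.2) : Lt V L)) : List (Lt V L)) : Multiset (Lt V L)) +
        (((gls r).map (fun z => ((Sum.inl z.1, z.2) : Lt V L)) : List (Lt V L)) : Multiset (Lt V L)) := by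
      rw [gls, List.map_append, Multiset.coe_add]
    have hN : (((nms (BT.ch j v s c r)).flatMap (fun g => [(retL (Sum.inl g) : Lt V L), topL (Sum.inl g)]) : List (Lt V L)) : Multiset (Lt V L)) =
        {(retL (Sum.inl (v, !s)) : Lt V L)} + {(topL (Sum.inl (v, !s)) : Lt V L)} +
        (((nms c).flatMap (fun g => [(retL (Sum.inl g) : Lt V L), topL (Sum.inl g)]) : List (Lt V L)) : Multiset (Lt V L)) +
        (((nms r).flatMap (fun g => [(retL (Sum.inl g) : Lt V L), topL (Sum.inl g)]) : List (Lt V L)) : Multiset (Lt V L)) := by
      rw [nms, List.flatMap_cons, List.flatMap_append, ← Multiset.coe_add, ← Multiset.coe_add,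
        ← Multiset.cons_coe, Multiset.coe_singleton, ← Multiset.singleton_add]
      abel
    rw [hR, hN]
    have key : ({(retL (Sum.inl (v, !s)) : Lt V L)} + {(topL (Sum.inl (v, !s)) : Lt V L)} +
        (((nms c).flatMap (fun g => [(retL (Sum.inl g) : Lt V L), topL (Sum.inl g)]) : List (Lt V L)) : Multiset (Lt V L)) +
        (((nms r).flatMap (fun g => [(retL (Sum.inl g) : Lt V L), topL (Sum.inl g)]) : List (Lt V L)) : Multiset (Lt V L))) +
        ((((gls c).map (fun z => ((Sum.inl z.1, z.2) : Lt V L)) : List (Lt V L)) : Multiset (Lt V L)) +
        (((gls r).map (fun z => ((Sum.inl z.1, z.2) : Lt V L)) : List (Lt V L)) : Multiset (Lt V L))) =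
        {(retL (Sum.inl (v, !s)) : Lt V L)} + {(topL (Sum.inl (v, !s)) : Lt V L)} +
        (((RC c : List (Lt V L)) : Multiset (Lt V L)) + ((LC c : List (Lt V L)) : Multiset (Lt V L))) +
        (((RC r : List (Lt V L)) : Multiset (Lt V L)) + ((LC r : List (Lt V L)) : Multiset (Lt V L))) := by
      rw [ihc, ihr]
      abel
    rw [key]
    cases j <;> cases s
    · rw [RC_br, LC_br]
      simp only [← Multiset.cons_coe, ← Multiset.coe_add, ← Multiset.singleton_add, Bool.not_false]
      abel
    · rw [RC_bl, LC_bl]
      simp only [← Multiset.cons_coe, ← Multiset.coe_add, ← Multiset.singleton_add, Bool.not_true,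
        Multiset.coe_nil, add_zero]
      abel
    · rw [RC_jl, LC_jl]
      simp only [← Multiset.cons_coe, ← Multiset.coe_add, ← Multiset.singleton_add, Bool.not_false]
      abel
    · rw [RC_jr, LC_jr]
      simp only [← Multiset.cons_coe, ← Multiset.coe_add, ← Multiset.singleton_add, Bool.not_true,
        Multiset.coe_nil, add_zero]
      abel

private theorem ASMA_s1 {α : Type*} {a : α} {A : List α} (h : a ∈ A) : List.Sublist [a] A :=
  List.singleton_sublist.mpr h

theorem names_open (b : BT V) (g : V × Bool) (hg : g ∈ nms b) :
    List.Sublist [(Sum.inr (Sum.inl g), true), (Sum.inr (Sum.inl g), false)]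
      (RC b ++ LC b : List (Lt V L)) := by
  induction b with
  | nil => simp [nms] at hg
  | it v s r ih =>
    have hg' : g ∈ nms r := hg
    refine (ih hg').trans ?_
    cases s
    · rw [RC_itL, LC_itL, List.cons_append]
      exact List.sublist_cons_self _ _
    · rw [RC_itR, LC_itR, ← List.append_assoc]
      exact List.sublist_append_left _ _
  | ch j v s c r ihc ihr =>
    rw [nms, List.mem_cons, List.mem_append] at hg
    have hc : List.Sublist (RC c ++ LC c) (RC (BT.ch j v s c r) ++ LC (BT.ch j v s c r) : List (Lt V L)) := by
      cases j <;> cases s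
      · rw [RC_br, LC_br, List.cons_append, List.append_assoc]
        refine List.Sublist.cons _ ((List.Sublist.refl _).append ?_)
        rw [List.cons_append, List.append_assoc]
        exact List.Sublist.cons _ (List.sublist_append_left _ _)
      · rw [RC_bl, LC_bl]
        refine List.Sublist.trans ?_ (List.sublist_append_right _ _)
        refine List.Sublist.trans ?_ (List.sublist_append_right _ _)
        refine (List.Sublist.refl _).append ?_
        exact List.Sublist.cons _ (List.sublist_append_left _ _)
      · rw [RC_jl, LC_jl]
        refine List.Sublist.trans ?_ (List.sublist_append_right _ _)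
        refine List.Sublist.trans ?_ (List.sublist_append_right _ _)
        exact (List.Sublist.refl _).append (List.sublist_cons_self _ _)
      · rw [RC_jr, LC_jr, List.append_assoc]
        refine (List.Sublist.refl _).append ?_
        rw [List.cons_append, List.append_assoc]
        exact List.Sublist.cons _ (List.sublist_append_left _ _)
    have hr : List.Sublist (RC r ++ LC r) (RC (BT.ch j v s c r) ++ LC (BT.ch j v s c r) : List (Lt V L)) := by
      cases j <;> cases s
      · rw [RC_br, LC_br]
        refine List.Sublist.append ?_ (List.Sublist.refl _)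
        refine List.Sublist.cons _ ?_
        refine List.Sublist.trans ?_ (List.sublist_append_right _ _)
        exact List.Sublist.cons _ (List.sublist_append_right _ _)
      · rw [RC_bl, LC_bl]
        exact (List.Sublist.refl _).append (List.sublist_append_left _ _)
      · rw [RC_jl, LC_jl]
        refine List.Sublist.append ?_ (List.sublist_append_left _ _)
        exact List.sublist_cons_self _ _
      · rw [RC_jr, LC_jr]
        refine List.Sublist.append ?_ (List.sublist_append_left _ _)
        refine List.Sublist.trans ?_ (List.sublist_append_right _ _)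
        exact List.Sublist.cons _ (List.sublist_append_right _ _)
    rcases hg with hg | hg | hg
    · subst hg
      cases j <;> cases s
      · rw [RC_br, LC_br, List.cons_append]
        refine List.Sublist.cons_cons (retL (Sum.inl (v, true)) : Lt V L) ?_
        refine ASMA_s1 ?_
        change (topL (Sum.inl (v, true)) : Lt V L) ∈ _
        simp
      · rw [RC_bl, LC_bl]
        refine List.Sublist.trans ?_ (List.sublist_append_right _ _)
        refine List.Sublist.trans ?_ (List.sublist_append_right _ _)
        refine List.Sublist.trans ?_ (List.sublist_append_right _ _)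
        refine List.Sublist.cons_cons (topL (Sum.inl (v, false)) : Lt V L) ?_
        exact List.sublist_append_right (LC c) [(retL (Sum.inl (v, false)) : Lt V L)]
      · rw [RC_jl, LC_jl, List.cons_append]
        refine List.Sublist.cons_cons (retL (Sum.inl (v, true)) : Lt V L) ?_
        refine ASMA_s1 ?_
        change (topL (Sum.inl (v, true)) : Lt V L) ∈ _
        simp
      · rw [RC_jr, LC_jr, List.append_assoc, List.cons_append]
        refine List.Sublist.trans ?_ (List.sublist_append_right _ _)
        refine List.Sublist.cons_cons (topL (Sum.inl (v, false)) : Lt V L) ?_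
        refine ASMA_s1 ?_
        change (retL (Sum.inl (v, false)) : Lt V L) ∈ _
        simp
    · exact (ihc hg).trans hc
    · exact (ihr hg).trans hr

private theorem ASMA_le (b : BT V) :
    ((gls b : List (V × Bool)) : Multiset (V × Bool)) + ((nms b : List (V × Bool)) : Multiset (V × Bool)) ≤
      ((eps b : List (V × Bool)) : Multiset (V × Bool)) := by
  induction b with
  | nil => simp [gls, nms, eps]
  | it v s r ih =>
    rw [gls, nms, eps, ← Multiset.cons_coe, ← Multiset.cons_coe, Multiset.cons_add]
    exact Multiset.cons_le_cons _ ih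
  | ch j v s c r ihc ihr =>
    rw [gls, nms, eps, ← Multiset.cons_coe, ← Multiset.cons_coe, ← Multiset.cons_coe,
      ← Multiset.coe_add, ← Multiset.coe_add, ← Multiset.coe_add, Multiset.add_cons]
    refine le_trans (Multiset.cons_le_cons _ ?_) (Multiset.le_cons_self _ _)
    have : ((gls c : List (V × Bool)) : Multiset (V × Bool)) + ((gls r : List (V × Bool)) : Multiset (V × Bool)) +
        (((nms c : List (V × Bool)) : Multiset (V × Bool)) + ((nms r : List (V × Bool)) : Multiset (V × Bool))) =
        (((gls c : List (V × Bool)) : Multiset (V × Bool)) + ((nms c : List (V × Bool)) : Multiset (V × Bool))) +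
        (((gls r : List (V × Bool)) : Multiset (V × Bool)) + ((nms r : List (V × Bool)) : Multiset (V × Bool))) := by
      abel
    rw [this]
    exact add_le_add ihc ihr

private theorem ASMA_nd (b : BT V) (hb : (eps b).Nodup) : (gls b ++ nms b).Nodup := by
  have h := ASMA_le b
  have h2 : ((eps b : List (V × Bool)) : Multiset (V × Bool)).Nodup := Multiset.coe_nodup.mpr hb
  have h3 := Multiset.nodup_of_le h h2
  rw [Multiset.coe_add] at h3
  exact Multiset.coe_nodup.mp h3

theorem word_nodup (b : BT V) (hb : (eps b).Nodup) : (RC b ++ LC b : List (Lt V L)).Nodup := by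
  rw [(word_perm b).nodup_iff]
  obtain ⟨hg, hn, -⟩ := List.nodup_append.mp (ASMA_nd b hb)
  rw [List.nodup_append]
  refine ⟨?_, ?_, ?_⟩
  · rw [List.nodup_flatMap]
    refine ⟨?_, ?_⟩
    · intro g _
      simp [retL, topL]
    · refine hn.imp ?_
      intro a b hab
      simp only [Function.onFun, List.disjoint_left]
      intro x hx hy
      simp only [List.mem_cons, List.not_mem_nil, or_false, retL, topL] at hx hy
      apply hab
      rcases hx with rfl | rfl <;> rcases hy with h | h <;>
        exact Sum.inl.inj (Sum.inr.inj (congrArg Prod.fst h))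
  · refine hg.map ?_
    intro a b hab
    simp only [Prod.mk.injEq, Sum.inl.injEq] at hab
    exact Prod.ext hab.1 hab.2
  · intro x hx y hy hxy
    subst hxy
    rw [List.mem_flatMap] at hx
    rw [List.mem_map] at hy
    obtain ⟨g, _, hg⟩ := hx
    obtain ⟨z, _, hz⟩ := hy
    simp only [List.mem_cons, List.not_mem_nil, or_false, retL, topL] at hg
    rcases hg with h | h <;> · rw [← hz] at h; simp at h

theorem nms_sublist (b : BT V) : ∀ g ∈ nms b, g ∈ eps b := by
  intro g hg
  have h := Multiset.mem_of_le (ASMA_le b) (a := g)
  have : g ∈ ((gls b : List (V × Bool)) : Multiset (V × Bool)) + ((nms b : List (V × Bool)) : Multiset (V × Bool)) :=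
    Multiset.mem_add.mpr (Or.inr hg)
  exact h this

theorem nms_nodup (b : BT V) (hb : (eps b).Nodup) : (nms b).Nodup :=
  (List.nodup_append.mp (ASMA_nd b hb)).2.1

/-- the first end of a bar is not a name -/
theorem start_not_name (nu : Option (V × Bool) → Option (V × Bool)) (b : BT V) (g : V × Bool)
    (y : Option (V × Bool)) (h : Path nu b (some g) y) (hb : (eps b).Nodup) : g ∉ nms b := by
  cases b with
  | nil => simp [nms]
  | it v s r =>
    have hg : g = (v, s) := Option.some.inj h.1
    subst hg
    intro hm
    have h1 : (v, s) ∈ eps r := nms_sublist r _ hm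
    exact (List.nodup_cons.mp hb).1 h1
  | ch j v s c r =>
    have hg : g = (v, s) := Option.some.inj h.1
    subst hg
    rw [eps, List.nodup_cons, List.mem_cons, List.mem_append] at hb
    rw [nms, List.mem_cons, List.mem_append]
    rintro (h1 | h1 | h1)
    · have := congrArg Prod.snd h1
      cases s <;> simp at this
    · exact hb.1 (Or.inr (Or.inl (nms_sublist c _ h1)))
    · exact hb.1 (Or.inr (Or.inr (nms_sublist r _ h1)))

end Pool.Agent.H53.SQ
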