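import Pool.Agent.H53.SQ.Base

/-!
# Module CHK: noncrossing words in which every chord is opened first are correct expressions

PROOFS.
* `red_nocross`: induction on `Red l`. Let `l = A ++ i :: i :: B`. If `i = a` (or `i = b`): since
  `l.count i ≤ 2`, `i` does not occur in `A`, `B`; so the two occurrences of `i` in the sublist
  `[a, b, a, b]` are the two adjacent ones, and there is nothing between them (e.g. filter `l` by
  `· = a ∨ · = b`: the result is `replicate p b ++ [a, a] ++ replicate q b`, and `[a, b, a, b]` (resp.
  `[b, a, b, a]`) is not a sublist of it). If `i ≠ a, b`: filtering by `· ≠ i` shows that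
  `[a, b, a, b]` is a sublist of `A ++ B`.
* `chk_of_red`: generalize `W.map fst = l`, induction on `Red l`. Let `l = A ++ i :: i :: B`; then
  `W = A' ++ (i, x) :: (i, y) :: B'`, `W.map fst` counts `i` at most twice (`Nodup`), so by `hop` the two
  letters `(i, true), (i, false)` occur in this order, `x = true`, `y = false`. The word `A' ++ B'`
  satisfies the hypotheses (sublists avoiding `i`). Finally `chk [] (A' ++ B')` implies
  `chk [] (A' ++ (i, true) :: (i, false) :: B')` (induction on `A'`, any stack).
-/

namespace Pool.Agent.H53.SQ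

theorem chk_aux_three {ι : Type} [DecidableEq ι] (A B : List ι) (x y : ι) (hxy : x ≠ y)
    (hA : x ∉ A) (hB : x ∉ B) : ¬ List.Sublist [x, y, x] (A ++ x :: x :: B) := by
  intro h
  obtain ⟨l₁, l₂, h1, h2, h3⟩ := List.sublist_append_iff.mp h
  rcases l₁ with _ | ⟨z, l₁⟩
  · simp only [List.nil_append] at h1
    subst h1
    cases h3 with
    | cons _ h4 =>
      have h5 := h4.count_le x
      have h6 : B.count x = 0 := List.count_eq_zero.mpr hB
      have h7 : [x, y, x].count x ≥ 2 := by
        simp [List.count_cons]
      have h8 : (x :: B).count x = 1 := by simp [h6]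
      omega
    | cons_cons _ h4 =>
      cases h4 with
      | cons _ h5 => exact hB (h5.subset (by simp))
      | cons_cons _ h5 => exact hxy rfl
  · simp only [List.cons_append, List.cons.injEq] at h1
    have h4 : z ∈ A := h2.subset (by simp)
    rw [← h1.1] at h4
    exact hA h4

theorem chk_aux_count_cons {ι : Type} [DecidableEq ι] {A B : List ι} {i : ι}
    (hc : (A ++ i :: i :: B).count i ≤ 2) : i ∉ A ∧ i ∉ B := by
  simp only [List.count_append, List.count_cons_self] at hc
  constructor
  · rw [← List.count_eq_zero]; omega
  · rw [← List.count_eq_zero]; omega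

theorem chk_aux_count_le {ι : Type} [DecidableEq ι] (W : List (ι × Bool)) (hW : W.Nodup) (i : ι) :
    (W.map Prod.fst).count i ≤ 2 := by
  have h1 : (W.map Prod.fst).count i = (W.filter (fun z => z.1 = i)).length := by
    rw [List.count_eq_length_filter, List.filter_map, List.length_map]
    congr 1
  rw [h1, ← List.toFinset_card_of_nodup (hW.filter _)]
  calc (W.filter (fun z => z.1 = i)).toFinset.card ≤ ({(i, true), (i, false)} : Finset (ι × Bool)).card := by
        apply Finset.card_le_card
        rintro ⟨j, s⟩ hj
        simp only [List.mem_toFinset, List.mem_filter, decide_eq_true_eq] at hj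
        obtain ⟨-, rfl⟩ := hj
        cases s <;> simp
    _ ≤ 2 := Finset.card_le_two

theorem chk_aux_ins {ι : Type} (i : ι) (B : List (ι × Bool)) (A : List (ι × Bool)) (st : List ι)
    (h : chk st (A ++ B)) : chk st (A ++ (i, true) :: (i, false) :: B) := by
  induction A generalizing st with
  | nil =>
    simp only [List.nil_append] at h ⊢
    exact ⟨rfl, h⟩
  | cons z A ih =>
    rcases z with ⟨j, s⟩
    cases s
    · rcases st with _ | ⟨k, st⟩
      · simp [chk] at h
      · simp only [List.cons_append, chk] at h ⊢
        exact ⟨h.1, ih st h.2⟩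
    · simp only [List.cons_append, chk] at h ⊢
      exact ih _ h

theorem red_nocross {ι : Type} [DecidableEq ι] (l : List ι) (hr : Red l)
    (hc : ∀ i, l.count i ≤ 2) (a b : ι) (hab : a ≠ b) : ¬ List.Sublist [a, b, a, b] l := by
  induction hr with
  | nil => intro h; simp at h
  | ins A B i h ih =>
    intro hs
    have hAB : (∀ j, (A ++ B).count j ≤ 2) := by
      intro j
      refine le_trans ?_ (hc j)
      simp only [List.count_append, List.count_cons]
      omega
    by_cases hia : i = a
    · subst hia
      obtain ⟨h1, h2⟩ := chk_aux_count_cons (hc i)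
      refine chk_aux_three A B i b hab h1 h2 (List.Sublist.trans ?_ hs)
      exact List.Sublist.cons_cons _ (List.Sublist.cons_cons _ (List.Sublist.cons_cons _
        (List.nil_sublist _)))
    · by_cases hib : i = b
      · subst hib
        obtain ⟨h1, h2⟩ := chk_aux_count_cons (hc i)
        refine chk_aux_three A B i a (Ne.symm hab) h1 h2 (List.Sublist.trans ?_ hs)
        exact List.Sublist.cons _ (List.Sublist.refl _)
      · apply ih hAB
        have h3 := hs.filter (fun z => z ≠ i)
        have h4 : [a, b, a, b].filter (fun z => z ≠ i) = [a, b, a, b] := by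
          simp [Ne.symm hia, Ne.symm hib]
        rw [h4] at h3
        refine h3.trans ?_
        have h5 : (A ++ i :: i :: B).filter (fun z => z ≠ i) = (A ++ B).filter (fun z => z ≠ i) := by
          simp [List.filter_append]
        rw [h5]
        exact List.filter_sublist

theorem chk_of_red {ι : Type} [DecidableEq ι] (W : List (ι × Bool))
    (hr : Red (W.map Prod.fst)) (hnd : W.Nodup)
    (hop : ∀ i, i ∈ W.map Prod.fst → List.Sublist [(i, true), (i, false)] W) : chk [] W := by
  obtain ⟨l, hl⟩ : ∃ l, l = W.map Prod.fst := ⟨_, rfl⟩
  rw [← hl] at hr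
  induction hr generalizing W with
  | nil =>
    have h1 : W = [] := by
      rw [eq_comm, List.map_eq_nil_iff] at hl
      exact hl
    subst h1
    rfl
  | ins A B i h ih =>
    obtain ⟨A', R, rfl, hA, hR⟩ := List.map_eq_append_iff.mp hl.symm
    obtain ⟨⟨i₁, x⟩, R₁, rfl, hi1, hR1⟩ := List.map_eq_cons_iff.mp hR
    obtain ⟨⟨i₂, y⟩, B', rfl, hi2, hB⟩ := List.map_eq_cons_iff.mp hR1
    simp only at hi1 hi2
    rw [hi1, hi2] at hnd hop hl ⊢
    clear hi1 hi2 hR hR1
    subst hA
    subst hB
    have hcnt := chk_aux_count_le _ hnd i
    rw [← hl] at hcnt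
    obtain ⟨hiA, hiB⟩ := chk_aux_count_cons hcnt
    have hAx : ∀ t, (i, t) ∉ A' := fun t ht => hiA (List.mem_map.mpr ⟨_, ht, rfl⟩)
    have hBx : ∀ t, (i, t) ∉ B' := fun t ht => hiB (List.mem_map.mpr ⟨_, ht, rfl⟩)
    have hxy : x = true ∧ y = false := by
      have h1 := hop i (by rw [← hl]; simp)
      have h2 : x ≠ y := by
        rintro rfl
        have h3 := (List.nodup_append.mp hnd).2.1
        rw [List.nodup_cons] at h3
        exact h3.1 (by simp)
      by_contra hcon
      have h3 : x = false ∧ y = true := by
        revert hcon h2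
        cases x <;> cases y <;> simp
      obtain ⟨rfl, rfl⟩ := h3
      obtain ⟨l₁, l₂, h4, h5, h6⟩ := List.sublist_append_iff.mp h1
      rcases l₁ with _ | ⟨z, l₁⟩
      · simp only [List.nil_append] at h4
        subst h4
        cases h6 with
        | cons _ h7 =>
          cases h7 with
          | cons _ h8 => exact hBx true (h8.subset (by simp))
          | cons_cons _ h8 => exact hBx false (h8.subset (by simp))
      · simp only [List.cons_append, List.cons.injEq] at h4
        have h7 : z ∈ A' := h5.subset (by simp)
        rw [← h4.1] at h7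
        exact hAx _ h7
    obtain ⟨rfl, rfl⟩ := hxy
    apply chk_aux_ins
    have hsubl : List.Sublist (A' ++ B') (A' ++ (i, true) :: (i, false) :: B') :=
      List.Sublist.append (List.Sublist.refl _)
        (List.Sublist.cons _ (List.Sublist.cons _ (List.Sublist.refl _)))
    refine ih (A' ++ B') (hnd.sublist hsubl) ?_ (by rw [List.map_append])
    intro j hj
    have hji : j ≠ i := by
      rintro rfl
      rw [List.map_append, List.mem_append] at hj
      exact hj.elim hiA hiB
    have h1 := hop j (hsubl.map _ |>.subset hj)
    have h3 := h1.filter (fun z => z.1 ≠ i)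
    have h4 : [(j, true), (j, false)].filter (fun z => z.1 ≠ i) = [(j, true), (j, false)] := by
      simp [List.filter_cons, hji]
    rw [h4] at h3
    refine h3.trans ?_
    have h5 : (A' ++ (i, true) :: (i, false) :: B').filter (fun z => z.1 ≠ i) =
        (A' ++ B').filter (fun z => z.1 ≠ i) := by
      simp [List.filter_append, List.filter_cons]
    rw [h5]
    exact List.filter_sublist

end Pool.Agent.H53.SQ
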