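import Pool.Agent.H53.SQ.Base

/-!
# Module CYC: the circles of the permutation `nu` as plain bars

`Path nu (pl l) x y` says: `x, nu x, nu (nu x), ...` runs through the entries of `l` (as `some _`)
and then arrives at `y`.

PROOFS. `nu` is a permutation of a finite set.
* `cyc_s`: take the least `m ≥ 1` with `nu^m none = none`; `l` lists `nu^1 none, ..., nu^(m-1) none`, which
  are different from `none` and pairwise different (minimality, injectivity).
* `cyc_c`: take the least `m ≥ 1` with `nu^m (some z) = some z`; the points `nu^i (some z)`, `i < m`, are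
  pairwise different and not in `E` (since `E` is closed under `nu` and finite, it is closed under
  `nu.symm`, or: the cycle returns to `z`, so a point of it in `E` would give `z ∈ E`); in particular they
  are not `none`. `c` is the list of these points. For `w = nu^i (some z)` the list
  `l' = [nu^(i+1) .., ..., nu^(i+m-1) ..]` works.
-/

namespace Pool.Agent.H53.SQ

variable {V : Type}

theorem cyc_path (nu : Option (V × Bool) → Option (V × Bool)) :
    ∀ (n : ℕ) (x : Option (V × Bool)) (g : ℕ → V × Bool), (∀ i < n, nu^[i] x = some (g i)) →
      Path nu (pl ((List.range n).map g)) x (nu^[n] x) := by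
  intro n
  induction n with
  | zero =>
    intro x g _
    exact rfl
  | succ n ih =>
    intro x g hg
    have h0 : x = some (g 0) := hg 0 (Nat.succ_pos n)
    rw [List.range_succ_eq_map, List.map_cons, List.map_map]
    have h1 := ih (nu x) (g ∘ Nat.succ) (by
      intro i hi
      have h2 := hg (i + 1) (by omega)
      rw [Function.iterate_succ_apply] at h2
      exact h2)
    refine ⟨h0, ?_⟩
    rw [Function.iterate_succ_apply]
    have h3 : nu (some ((g 0).1, (g 0).2)) = nu x := by
      rw [h0]
    rw [h3]
    exact h1

theorem cyc_s [Finite V] (nu : Option (V × Bool) ≃ Option (V × Bool)) :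
    ∃ l : List (V × Bool), l.Nodup ∧ Path nu (pl l) (nu none) none := by
  rcases isEmpty_or_nonempty V with hV | hV
  · refine ⟨[], List.nodup_nil, ?_⟩
    change nu none = none
    cases hx : nu none with
    | none => rfl
    | some p => exact (hV.false p.1).elim
  have hp : 0 < Function.minimalPeriod nu none :=
    Function.minimalPeriod_pos_of_mem_periodicPts (Function.Injective.mem_periodicPts nu.injective none)
  obtain ⟨n, hn⟩ : ∃ n, Function.minimalPeriod nu none = n + 1 :=
    ⟨_, (Nat.succ_pred_eq_of_pos hp).symm⟩
  have hne : ∀ i : ℕ, ∃ g : V × Bool, i < n → nu^[i + 1] none = some g := by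
    intro i
    by_cases hi : i < n
    · cases hx : nu^[i + 1] none with
      | none =>
        exact absurd hx (Function.not_isPeriodicPt_of_pos_of_lt_minimalPeriod
          (Nat.succ_ne_zero i) (by omega))
      | some g => exact ⟨g, fun _ => rfl⟩
    · exact ⟨(hV.some, true), fun h => absurd h hi⟩
  choose g hg using hne
  refine ⟨(List.range n).map g, ?_, ?_⟩
  · refine List.Nodup.map_on ?_ List.nodup_range
    intro i hi j hj hij
    rw [List.mem_range] at hi hj
    have h1 : nu^[i + 1] none = nu^[j + 1] none := by
      rw [hg i hi, hg j hj, hij]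
    have h2 := Function.iterate_injOn_Iio_minimalPeriod (f := nu) (x := none)
      (show i + 1 < Function.minimalPeriod nu none by omega)
      (show j + 1 < Function.minimalPeriod nu none by omega) h1
    omega
  · have h1 := cyc_path nu n (nu none) g (by
      intro i hi
      rw [← Function.iterate_succ_apply]
      exact hg i hi)
    rw [← Function.iterate_succ_apply, ← Nat.add_one, ← hn, Function.iterate_minimalPeriod] at h1
    exact h1

theorem cyc_c [Finite V] (nu : Option (V × Bool) ≃ Option (V × Bool)) (z : V × Bool)
    (E : Set (Option (V × Bool))) (hE : ∀ x ∈ E, nu x ∈ E) (hn : none ∈ E) (hz : some z ∉ E) :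
    ∃ c : List (V × Bool), c.Nodup ∧ z ∈ c ∧ (∀ w ∈ c, some w ∉ E) ∧
      (∀ w ∈ c, ∃ w' ∈ c, nu (some w) = some w') ∧
      ∀ w ∈ c, ∃ l' : List (V × Bool), (w :: l').Perm c ∧
        Path nu (pl l') (nu (some w)) (some w) := by
  obtain ⟨k, hk⟩ : ∃ k, k = Function.minimalPeriod nu (some z) := ⟨_, rfl⟩
  have hp : 0 < k := by
    rw [hk]
    exact Function.minimalPeriod_pos_of_mem_periodicPts
      (Function.Injective.mem_periodicPts nu.injective (some z))
  have hper : nu^[k] (some z) = some z := by
    rw [hk]
    exact Function.iterate_minimalPeriod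
  have hEi : ∀ (j : ℕ) (x : Option (V × Bool)), x ∈ E → nu^[j] x ∈ E := by
    intro j
    induction j with
    | zero => intro x hx; exact hx
    | succ j ih =>
      intro x hx
      rw [Function.iterate_succ_apply]
      exact ih _ (hE x hx)
  have hnE : ∀ i : ℕ, nu^[i] (some z) ∉ E := by
    intro i hi
    have h1 := hEi (i * (k - 1)) _ hi
    rw [← Function.iterate_add_apply] at h1
    have h2 : i * (k - 1) + i = i * k := by
      obtain ⟨k', rfl⟩ : ∃ k', k = k' + 1 := ⟨k - 1, by omega⟩
      rw [Nat.add_sub_cancel]
      ring
    rw [h2] at h1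
    have h3 : nu^[i * k] (some z) = some z :=
      (Function.IsPeriodicPt.const_mul (show Function.IsPeriodicPt nu k (some z) from hper) i)
    rw [h3] at h1
    exact hz h1
  have hex : ∀ i : ℕ, ∃ g : V × Bool, nu^[i] (some z) = some g := by
    intro i
    cases hx : nu^[i] (some z) with
    | none => exact absurd (hx ▸ hn) (hnE i)
    | some g => exact ⟨g, rfl⟩
  choose g hg using hex
  have hmem : ∀ i : ℕ, g i ∈ (List.range k).map g := by
    intro i
    rw [List.mem_map]
    refine ⟨i % k, List.mem_range.mpr (Nat.mod_lt _ hp), ?_⟩
    have h1 : nu^[i % k] (some z) = nu^[i] (some z) := by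
      rw [hk]
      exact Function.iterate_mod_minimalPeriod_eq
    rw [hg, hg] at h1
    exact Option.some.inj h1
  have hinj : ∀ i < k, ∀ j < k, g i = g j → i = j := by
    intro i hi j hj hij
    have h1 : nu^[i] (some z) = nu^[j] (some z) := by
      rw [hg, hg, hij]
    exact Function.iterate_injOn_Iio_minimalPeriod (f := nu) (x := some z)
      (show i < Function.minimalPeriod nu (some z) by omega)
      (show j < Function.minimalPeriod nu (some z) by omega) h1
  have hnext : ∀ i : ℕ, nu (some (g i)) = some (g (i + 1)) := by
    intro i
    rw [← hg i, ← Function.iterate_succ_apply' nu i (some z), ← Nat.add_one, hg (i + 1)]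
  have hg0 : g 0 = z := by
    have h1 := hg 0
    exact (Option.some.inj h1).symm
  refine ⟨(List.range k).map g, ?_, ?_, ?_, ?_, ?_⟩
  · refine List.Nodup.map_on ?_ List.nodup_range
    intro i hi j hj hij
    rw [List.mem_range] at hi hj
    exact hinj i hi j hj hij
  · rw [← hg0]
    exact hmem 0
  · intro w hw
    rw [List.mem_map] at hw
    obtain ⟨i, -, rfl⟩ := hw
    rw [← hg i]
    exact hnE i
  · intro w hw
    rw [List.mem_map] at hw
    obtain ⟨i, -, rfl⟩ := hw
    exact ⟨g (i + 1), hmem (i + 1), hnext i⟩
  · intro w hw
    rw [List.mem_map] at hw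
    obtain ⟨i, -, rfl⟩ := hw
    refine ⟨(List.range (k - 1)).map (fun j => g (i + 1 + j)), ?_, ?_⟩
    · have h1 : g i :: (List.range (k - 1)).map (fun j => g (i + 1 + j)) =
          (List.range k).map (fun j => g (i + j)) := by
        obtain ⟨k', hk'⟩ : ∃ k', k = k' + 1 := ⟨k - 1, by omega⟩
        rw [hk', Nat.add_sub_cancel, List.range_succ_eq_map, List.map_cons, List.map_map]
        congr 1
        refine List.map_congr_left fun j _ => ?_
        change g (i + 1 + j) = g (i + (j + 1))
        congr 1
        omega
      rw [h1]
      have hnd : ((List.range k).map (fun j => g (i + j))).Nodup := by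
        refine List.Nodup.map_on ?_ List.nodup_range
        intro a ha b hb hab
        rw [List.mem_range] at ha hb
        have h2 : nu^[i] (nu^[a] (some z)) = nu^[i] (nu^[b] (some z)) := by
          rw [← Function.iterate_add_apply, ← Function.iterate_add_apply, hg, hg, hab]
        have h3 := (nu.injective.iterate i) h2
        rw [hg, hg] at h3
        exact hinj a ha b hb (Option.some.inj h3)
      refine (List.subperm_of_subset hnd ?_).perm_of_length_le ?_
      · intro x hx
        rw [List.mem_map] at hx
        obtain ⟨j, -, rfl⟩ := hx
        exact hmem _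
      · rw [List.length_map, List.length_map]
    · have h1 := cyc_path nu (k - 1) (nu (some (g i))) (fun j => g (i + 1 + j)) (by
        intro j _
        rw [hnext i, ← hg (i + 1), ← Function.iterate_add_apply, hg]
        congr 2
        omega)
      have h2 : nu^[k - 1] (nu (some (g i))) = some (g i) := by
        rw [← Function.iterate_succ_apply, ← Nat.add_one, Nat.sub_add_cancel hp, ← hg i,
          ← Function.iterate_add_apply, add_comm, Function.iterate_add_apply, hper]
      rw [h2] at h1
      exact h1

end Pool.Agent.H53.SQ
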