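import Pool.Agent.H53.SQ.MRG
import Pool.Agent.H53.SQ.CYC

/-!
# Module CMP: completing a component

`U` = ends used by earlier components. `clo U b`: the set `U ∪ eps b ∪ {none}` is closed under `nu`.

PROOF of `complete`: induction on the number of elements of `V × Bool` not in `eps b` (a finite type).
If for every `z ∈ eps b` also `(z.1, !z.2) ∈ eps b`, take `b' = b`. Otherwise take such a `z`; then
`z ∈ gls b` (`eps_cases`), and `z' = (z.1, !z.2)` is not in `eps b`, and not in `U` (otherwise
`z ∈ U` by `hU`). Apply `cyc_c` to `z'` and `E = {none} ∪ some '' (U ∪ eps b)`, then `merge_step`. The new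
bar has `eps b' ~ c ++ eps b`, and the hypotheses hold for it (`c` is disjoint from `U`, closed
under `nu`).
`eps_cases`, `path_start`, `path_next`: inductions on `b`.
-/

namespace Pool.Agent.H53.SQ

variable {V : Type} {L : ℕ}

theorem eps_cases (b : BT V) (z : V × Bool) (hz : z ∈ eps b) :
    z ∈ gls b ∨ (z.1, !z.2) ∈ eps b := by
  induction b with
  | nil => simp [eps] at hz
  | it v s r ih =>
    simp only [eps, List.mem_cons] at hz
    rcases hz with rfl | hz
    · left; simp [gls]
    · rcases ih hz with h | h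
      · left; simp [gls, h]
      · right; simp [eps, h]
  | ch j v s c r ihc ihr =>
    simp only [eps, List.mem_cons, List.mem_append] at hz
    rcases hz with rfl | rfl | hz | hz
    · right; simp [eps]
    · right; simp [eps]
    · rcases ihc hz with h | h
      · left; simp [gls, h]
      · right; simp [eps, h]
    · rcases ihr hz with h | h
      · left; simp [gls, h]
      · right; simp [eps, h]

/-- the first end of a nonempty bar -/
theorem path_start (nu : Option (V × Bool) → Option (V × Bool)) (b : BT V)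
    (x y : Option (V × Bool)) (h : Path nu b x y) :
    (b = BT.nil ∧ x = y) ∨ ∃ z ∈ eps b, x = some z := by
  cases b with
  | nil => exact Or.inl ⟨rfl, h⟩
  | it v s r => exact Or.inr ⟨(v, s), by simp [eps], h.1⟩
  | ch j v s c r => exact Or.inr ⟨(v, s), by simp [eps], h.1⟩

/-- a bar is closed under `nu` up to its end -/
theorem path_next (nu : Option (V × Bool) → Option (V × Bool)) (b : BT V)
    (x y : Option (V × Bool)) (h : Path nu b x y) (z : V × Bool) (hz : z ∈ eps b) :
    nu (some z) = y ∨ ∃ z' ∈ eps b, nu (some z) = some z' := by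
  induction b generalizing x y with
  | nil => simp [eps] at hz
  | it v s r ih =>
    obtain ⟨h1, h2⟩ := h
    simp only [eps, List.mem_cons] at hz
    rcases hz with rfl | hz
    · rcases path_start nu r _ _ h2 with ⟨_, h3⟩ | ⟨z', hz', h3⟩
      · exact Or.inl h3
      · exact Or.inr ⟨z', by simp [eps, hz'], h3⟩
    · rcases ih _ _ h2 hz with h3 | ⟨z', hz', h3⟩
      · exact Or.inl h3
      · exact Or.inr ⟨z', by simp [eps, hz'], h3⟩
  | ch j v s c r ihc ihr =>
    obtain ⟨h1, h2, h3⟩ := h
    have hr : nu (some (v, if j then !s else s)) = y ∨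
        ∃ z' ∈ eps (BT.ch j v s c r), nu (some (v, if j then !s else s)) = some z' := by
      rcases path_start nu r _ _ h2 with ⟨_, h4⟩ | ⟨z', hz', h4⟩
      · exact Or.inl h4
      · exact Or.inr ⟨z', by simp [eps, hz'], h4⟩
    have hc : nu (some (v, if j then s else !s)) = y ∨
        ∃ z' ∈ eps (BT.ch j v s c r), nu (some (v, if j then s else !s)) = some z' := by
      rcases path_start nu c _ _ h3 with ⟨_, h4⟩ | ⟨z', hz', h4⟩
      · exact Or.inr ⟨(v, !s), by simp [eps], h4⟩
      · exact Or.inr ⟨z', by simp [eps, hz'], h4⟩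
    simp only [eps, List.mem_cons, List.mem_append] at hz
    rcases hz with rfl | rfl | hz | hz
    · cases j
      · simpa using hr
      · simpa using hc
    · cases j
      · simpa using hc
      · simpa using hr
    · rcases ihc _ _ h3 hz with h4 | ⟨z', hz', h4⟩
      · exact Or.inr ⟨(v, !s), by simp [eps], h4⟩
      · exact Or.inr ⟨z', by simp [eps, hz'], h4⟩
    · rcases ihr _ _ h2 hz with h4 | ⟨z', hz', h4⟩
      · exact Or.inl h4
      · exact Or.inr ⟨z', by simp [eps, hz'], h4⟩

/-- `U ∪ eps b ∪ {none}` is closed under `nu` -/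
def Closed (nu : Option (V × Bool) → Option (V × Bool)) (U : Set (V × Bool)) (b : BT V) : Prop :=
  (nu none = none ∨ ∃ z', (z' ∈ U ∨ z' ∈ eps b) ∧ nu none = some z') ∧
    ∀ z, z ∈ U ∨ z ∈ eps b →
      nu (some z) = none ∨ ∃ z', (z' ∈ U ∨ z' ∈ eps b) ∧ nu (some z) = some z'

theorem CMP_aux [Finite V] (ctx : Option (Nm V L))
    (nu : Option (V × Bool) ≃ Option (V × Bool)) (U : Set (V × Bool))
    (hU : ∀ z ∈ U, (z.1, !z.2) ∈ U) (x y : Option (V × Bool)) (n : ℕ) :
    ∀ (b : BT V), Nat.card (V × Bool) - (eps b).length = n →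
    (hpath : Path nu b x y) → (hb : (eps b).Nodup) → (hR : Rho (wrd ctx b)) →
    (hdis : ∀ z ∈ eps b, z ∉ U) → (hcl : Closed nu U b) →
    ∃ b' : BT V, Path nu b' x y ∧ (eps b').Nodup ∧ Rho (wrd ctx b') ∧ (okJ b → okJ b') ∧
      (noJ b → noJ b') ∧ (∀ z ∈ eps b', z ∉ U) ∧ (∀ z ∈ eps b, z ∈ eps b') ∧
      (∀ z ∈ eps b', (z.1, !z.2) ∈ eps b') ∧ Closed nu U b' := by
  induction n using Nat.strong_induction_on with
  | _ n ih =>
    intro b hn hpath hb hR hdis hcl
    by_cases hall : ∀ z ∈ eps b, (z.1, !z.2) ∈ eps b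
    · exact ⟨b, hpath, hb, hR, id, id, hdis, fun z hz => hz, hall, hcl⟩
    · push Not at hall
      obtain ⟨z, hz, hz'⟩ := hall
      have hzg : z ∈ gls b := (eps_cases b z hz).resolve_right hz'
      have hz'U : (z.1, !z.2) ∉ U := by
        intro h
        have := hU _ h
        simp only [Bool.not_not] at this
        exact hdis z hz this
      let E : Set (Option (V × Bool)) := fun x => x = none ∨ ∃ w, (w ∈ U ∨ w ∈ eps b) ∧ x = some w
      have hE : ∀ x ∈ E, nu x ∈ E := by
        rintro x (rfl | ⟨w, hw, rfl⟩)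
        · rcases hcl.1 with h | ⟨w, hw, h⟩
          · exact Or.inl h
          · exact Or.inr ⟨w, hw, h⟩
        · rcases hcl.2 w hw with h | ⟨w', hw', h⟩
          · exact Or.inl h
          · exact Or.inr ⟨w', hw', h⟩
      have hnE : (none : Option (V × Bool)) ∈ E := Or.inl rfl
      have hzE : some (z.1, !z.2) ∉ E := by
        rintro (h | ⟨w, hw, h⟩)
        · exact absurd h (by simp)
        · rw [← Option.some_inj.mp h] at hw
          rcases hw with hw | hw
          · exact hz'U hw
          · exact hz' hw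
      obtain ⟨c, hcnd, hzc, hcE, hcnu, hccyc⟩ := cyc_c nu (z.1, !z.2) E hE hnE hzE
      have hcU : ∀ w ∈ c, w ∉ U := fun w hw h => hcE w hw (Or.inr ⟨w, Or.inl h, rfl⟩)
      have hcb : ∀ w ∈ c, w ∉ eps b := fun w hw h => hcE w hw (Or.inr ⟨w, Or.inr h, rfl⟩)
      obtain ⟨b', hp', hperm, hR', hok', hno'⟩ := merge_step ctx nu b x y c hpath hb hR hcnd hcb hccyc
        ⟨z, hzg, hzc⟩
      have hmem : ∀ w, w ∈ eps b' ↔ (w ∈ c ∨ w ∈ eps b) := by
        intro w
        rw [hperm.mem_iff, List.mem_append]
      have hnd' : (eps b').Nodup := by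
        rw [hperm.nodup_iff, List.nodup_append]
        refine ⟨hcnd, hb, ?_⟩
        rintro w hw w' hw' rfl
        exact hcb w hw hw'
      have hlen : (eps b').length = c.length + (eps b).length := by
        rw [hperm.length_eq, List.length_append]
      have hcpos : 0 < c.length := List.length_pos_of_mem hzc
      have hle : (eps b').length ≤ Nat.card (V × Bool) := by
        have := Fintype.ofFinite (V × Bool)
        rw [Nat.card_eq_fintype_card]
        exact hnd'.length_le_card
      obtain ⟨b'', q1, q2, q3, q4, q5, q6, q7, q8, q9⟩ := ih (Nat.card (V × Bool) - (eps b').length)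
        (by omega) b' rfl hp' hnd' hR' (by
          intro w hw
          rcases (hmem w).mp hw with h | h
          · exact hcU w h
          · exact hdis w h) (by
          refine ⟨?_, ?_⟩
          · rcases hcl.1 with h | ⟨w, hw, h⟩
            · exact Or.inl h
            · exact Or.inr ⟨w, hw.imp id (fun h' => (hmem w).mpr (Or.inr h')), h⟩
          · have haux : ∀ w, w ∈ U ∨ w ∈ eps b → nu (some w) = none ∨
                ∃ z', (z' ∈ U ∨ z' ∈ eps b') ∧ nu (some w) = some z' := by
              intro w hw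
              rcases hcl.2 w hw with h | ⟨w', hw', h⟩
              · exact Or.inl h
              · exact Or.inr ⟨w', hw'.imp id (fun h' => (hmem w').mpr (Or.inr h')), h⟩
            rintro w (hw | hw)
            · exact haux w (Or.inl hw)
            · rcases (hmem w).mp hw with h | h
              · obtain ⟨w', hw', h'⟩ := hcnu w h
                exact Or.inr ⟨w', Or.inr ((hmem w').mpr (Or.inl hw')), h'⟩
              · exact haux w (Or.inr h))
      exact ⟨b'', q1, q2, q3, q4 ∘ hok', q5 ∘ hno', q6,
        fun w hw => q7 w ((hmem w).mpr (Or.inr hw)), q8, q9⟩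

theorem complete [Finite V] (ctx : Option (Nm V L))
    (nu : Option (V × Bool) ≃ Option (V × Bool)) (U : Set (V × Bool))
    (hU : ∀ z ∈ U, (z.1, !z.2) ∈ U) (b : BT V) (x y : Option (V × Bool))
    (hpath : Path nu b x y) (hb : (eps b).Nodup) (hR : Rho (wrd ctx b))
    (hdis : ∀ z ∈ eps b, z ∉ U) (hcl : Closed nu U b) :
    ∃ b' : BT V, Path nu b' x y ∧ (eps b').Nodup ∧ Rho (wrd ctx b') ∧ (okJ b → okJ b') ∧
      (noJ b → noJ b') ∧ (∀ z ∈ eps b', z ∉ U) ∧ (∀ z ∈ eps b, z ∈ eps b') ∧
      (∀ z ∈ eps b', (z.1, !z.2) ∈ eps b') ∧ Closed nu U b' :=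
  CMP_aux ctx nu U hU x y _ b rfl hpath hb hR hdis hcl

end Pool.Agent.H53.SQ
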