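import Pool.Agent.H53.SQ.Base

/-!
# Module NCL: a closed walk that traverses every edge of a tree twice is noncrossing

PROOF of `red_of_chain`: induction on `K.length`, generalizing `l a K`. `K = []`: `l = []`, `Red.nil`.
Let `K.length = n + 1`. The list of the labels after the letters, `Af = l.map (·.2.2)`, has
`2 * (n + 1)` entries, and contains `a` (the last one, `Chain a l a`, `l ≠ []`), so its `toFinset` has
at least `n + 2` elements; hence some label `c` has `Af.count c = 1` (otherwise all counts are at
least 2 and `2 * (n + 2) ≤ 2 * (n + 1)`). The list of the labels before the letters is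
`a :: (Af without its last entry a)`, a rotation of `Af`, so `c` occurs there once, too. Let `(i, b, c)`
be the letter with the label `c` after it. Its partner in `hp` is `(i, c, b)`; `b ≠ c` (else both
letters would have the label `c` after them). Two cases:
(1) `(i, b, c)` is not the last letter: the next letter has the label `c` before it, so it is the
    partner: `l = A ++ (i, b, c) :: (i, c, b) :: B`, and `Chain a (A ++ B) a`. The letters of
    `A ++ B` are given by `K` without the chord `i`; the labels of `A ++ B` together with `a` are all
    the old ones except `c`. Induction and `Red.ins`.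
(2) `(i, b, c)` is the last letter: `c = a`, and the first letter has the label `a = c` before it, so
    it is the partner: `l = (i, a, b) :: (M ++ [(i, b, a)])`, `Chain b M b`. Induction for `M` (base
    point `b`), then `red_wrap`.
`red_wrap`: induction on `Red M`.
-/

namespace Pool.Agent.H53.SQ

theorem red_wrap {ι : Type} (i : ι) (M : List ι) (h : Red M) : Red (i :: (M ++ [i])) := by
  induction h with
  | nil => exact Red.ins [] [] i Red.nil
  | ins A B j h ih =>
    have h1 : i :: (A ++ j :: j :: B ++ [i]) = (i :: A) ++ j :: j :: (B ++ [i]) := by simp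
    rw [h1]
    exact Red.ins (i :: A) (B ++ [i]) j (by simpa using ih)

theorem ncl_perm {ι : Type} {a b : ℕ} {l : List (ι × ℕ × ℕ)} (h : Chain a l b) :
    a :: l.map (fun p => p.2.2) = l.map (fun p => p.2.1) ++ [b] := by
  induction h with
  | nil a => simp
  | cons i a b c l h ih => simp [ih]

theorem ncl_app {ι : Type} (A B : List (ι × ℕ × ℕ)) : ∀ (a b : ℕ), Chain a (A ++ B) b →
    ∃ m, Chain a A m ∧ Chain m B b := by
  induction A with
  | nil => intro a b h; exact ⟨a, Chain.nil a, h⟩
  | cons p A ih =>
    intro a b h
    cases h with
    | cons i a b' c l h =>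
      obtain ⟨m, h1, h2⟩ := ih _ _ h
      exact ⟨m, Chain.cons i a b' m A h1, h2⟩

theorem ncl_join {ι : Type} {a m b : ℕ} {A B : List (ι × ℕ × ℕ)} (h : Chain a A m) (h' : Chain m B b) :
    Chain a (A ++ B) b := by
  induction h with
  | nil a => exact h'
  | cons i a b c l h ih => exact Chain.cons i a b _ _ (ih h')

/-- the end of a chain is the start or a label after a letter -/
theorem ncl_last {ι : Type} {a b : ℕ} {l : List (ι × ℕ × ℕ)} (h : Chain a l b) :
    b ∈ insert a (l.map (fun p => p.2.2)).toFinset := by
  induction h with
  | nil a => simp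
  | cons i a b c l h ih =>
    simp only [Finset.mem_insert, List.mem_toFinset, List.map_cons, List.mem_cons] at ih ⊢
    tauto

def nclF {ι : Type} (K : List (ι × ℕ × ℕ)) : List (ι × ℕ × ℕ) :=
  K.flatMap fun k => [(k.1, k.2.1, k.2.2), (k.1, k.2.2, k.2.1)]

theorem nclF_len {ι : Type} (K : List (ι × ℕ × ℕ)) : (nclF K).length = 2 * K.length := by
  induction K with
  | nil => rfl
  | cons k K ih =>
    have : nclF (k :: K) = (k.1, k.2.1, k.2.2) :: (k.1, k.2.2, k.2.1) :: nclF K := rfl
    rw [this]
    simp only [List.length_cons, ih]
    ring

/-- removing a chord -/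
theorem nclF_rem {ι : Type} (K : List (ι × ℕ × ℕ)) (i : ι) (b c : ℕ) (h : (i, b, c) ∈ nclF K) :
    ∃ K', K'.length + 1 = K.length ∧ (nclF K).Perm ((i, b, c) :: (i, c, b) :: nclF K') ∧
      (K'.map Prod.fst).Sublist (K.map Prod.fst) := by
  unfold nclF at h
  rw [List.mem_flatMap] at h
  obtain ⟨k, hk, hk2⟩ := h
  obtain ⟨K1, K2, rfl⟩ := List.append_of_mem hk
  refine ⟨K1 ++ K2, by simp; omega, ?_, ?_⟩
  · have h1 : (nclF (K1 ++ k :: K2)).Perm ((k.1, k.2.1, k.2.2) :: (k.1, k.2.2, k.2.1) :: nclF (K1 ++ K2)) := by
      have h2 : nclF (K1 ++ k :: K2) = nclF K1 ++ ([(k.1, k.2.1, k.2.2), (k.1, k.2.2, k.2.1)] ++ nclF K2) := by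
        simp [nclF]
      have h3 : nclF (K1 ++ K2) = nclF K1 ++ nclF K2 := by simp [nclF]
      rw [h2, h3]
      have h4 : (nclF K1 ++ ([(k.1, k.2.1, k.2.2), (k.1, k.2.2, k.2.1)] ++ nclF K2)).Perm
          ([(k.1, k.2.1, k.2.2), (k.1, k.2.2, k.2.1)] ++ (nclF K1 ++ nclF K2)) := by
        rw [← List.append_assoc, ← List.append_assoc]
        exact List.Perm.append_right _ List.perm_append_comm
      simpa using h4
    refine h1.trans ?_
    simp only [List.mem_cons, List.not_mem_nil, or_false, Prod.mk.injEq] at hk2
    rcases hk2 with ⟨h5, h6, h7⟩ | ⟨h5, h6, h7⟩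
    · subst h5 h6 h7
      exact List.Perm.refl _
    · subst h5 h6 h7
      exact List.Perm.swap _ _ _
  · simp only [List.map_append, List.map_cons]
    exact List.Sublist.append_left (List.sublist_cons_self _ _) _

theorem nclF_symm {ι : Type} (K : List (ι × ℕ × ℕ)) (i : ι) (b c : ℕ) (h : (i, b, c) ∈ nclF K) :
    (i, c, b) ∈ nclF K := by
  obtain ⟨K', _, h2, _⟩ := nclF_rem K i b c h
  exact h2.symm.subset (by simp)

/-- a label with exactly one occurrence -/
theorem ncl_count (L : List ℕ) (n : ℕ) (h1 : L.length < 2 * n) (h2 : n ≤ L.toFinset.card) :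
    ∃ c ∈ L, L.count c = 1 := by
  by_contra hcon
  push Not at hcon
  have h3 : ∀ c ∈ L.toFinset, 2 ≤ L.count c := by
    intro c hc
    rw [List.mem_toFinset] at hc
    have h4 := hcon c hc
    have h5 := List.count_pos_iff.2 hc
    omega
  have h6 : L.toFinset.card * 2 ≤ ∑ c ∈ L.toFinset, L.count c := by
    have := Finset.sum_le_sum h3
    rwa [Finset.sum_const, smul_eq_mul] at this
  have h7 : ∑ c ∈ L.toFinset, L.count c = L.length := List.sum_toFinset_count_eq_length L
  omega

theorem red_of_chain {ι : Type} (K l : List (ι × ℕ × ℕ)) (a : ℕ)
    (hK : (K.map Prod.fst).Nodup)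
    (hp : l.Perm (K.flatMap fun k => [(k.1, k.2.1, k.2.2), (k.1, k.2.2, k.2.1)]))
    (hch : Chain a l a) (hcard : K.length + 1 ≤ (insert a (l.map (·.2.2)).toFinset).card) :
    Red (l.map Prod.fst) := by
  obtain ⟨n, hn⟩ : ∃ n, K.length = n := ⟨_, rfl⟩
  change l.Perm (nclF K) at hp
  induction n generalizing K l a with
  | zero =>
    have hK0 : K = [] := List.length_eq_zero_iff.1 hn
    subst hK0
    have : l = [] := List.Perm.eq_nil hp
    subst this
    exact Red.nil
  | succ n ih =>
    have hlen : l.length = 2 * (n + 1) := by rw [hp.length_eq, nclF_len, hn]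
    -- the end point is a label
    have hpe := ncl_perm hch
    have hane : a ∈ l.map (fun p => p.2.2) := by
      have h1 : l ≠ [] := by
        intro h
        rw [h] at hlen
        simp at hlen
      obtain ⟨l', p, rfl⟩ : ∃ l' p, l = l' ++ [p] := ⟨l.dropLast, l.getLast h1, (List.dropLast_append_getLast h1).symm⟩
      obtain ⟨m, _, h3⟩ := ncl_app _ _ _ _ hch
      cases h3 with
      | cons i _ b' c l h =>
        cases h
        simp
    rw [Finset.insert_eq_of_mem (List.mem_toFinset.2 hane), hn] at hcard
    obtain ⟨c, hc, hc1⟩ := ncl_count (l.map (fun p => p.2.2)) (n + 2) (by rw [List.length_map]; omega) hcard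
    have hc2 : (l.map (fun p => p.2.1)).count c = 1 := by
      have h1 := congrArg (List.count c) hpe
      rw [List.count_cons, List.count_append] at h1
      simp only [List.count_singleton] at h1
      omega
    obtain ⟨⟨i, b, c'⟩, hpl, hpc⟩ := List.mem_map.1 hc
    simp only at hpc
    subst hpc
    obtain ⟨A, B', rfl⟩ := List.append_of_mem hpl
    have hpart : (i, c', b) ∈ A ++ (i, b, c') :: B' := hp.symm.subset (nclF_symm K i b c' (hp.subset hpl))
    obtain ⟨K', hK1, hK2, hK3⟩ := nclF_rem K i b c' (hp.subset hpl)
    obtain ⟨m, hA, hB⟩ := ncl_app _ _ _ _ hch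
    cases hB with
    | cons _ _ _ _ _ hB =>
    cases B' with
    | nil =>
      cases hB
      -- the last letter
      cases A with
      | nil =>
        simp only [List.nil_append, List.length_cons, List.length_nil] at hlen
        omega
      | cons q M =>
        cases hA with
        | cons i' _ b' _ _ hM =>
        have hq : (i', a, b') = (i, a, b) := by
          simp only [List.cons_append, List.mem_cons] at hpart
          rcases hpart with h | h
          · exact h.symm
          · exfalso
            have h2 : a ∈ (M ++ [(i, b, a)]).map (fun p => p.2.1) := List.mem_map.2 ⟨_, h, rfl⟩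
            have h3 := List.count_pos_iff.2 h2
            simp only [List.cons_append, List.map_cons, List.count_cons_self] at hc2
            omega
        simp only [Prod.mk.injEq, true_and] at hq
        obtain ⟨rfl, rfl⟩ := hq
        have hl : ((i', a, b') :: M ++ [(i', b', a)]).Perm ((i', b', a) :: (i', a, b') :: M) := by
          refine List.perm_append_comm.trans ?_
          simp
        have hM' : M.Perm (nclF K') := (hl.symm.trans (hp.trans hK2)).cons_inv.cons_inv
        have hcard' : K'.length + 1 ≤ (insert b' (M.map (·.2.2)).toFinset).card := by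
          have h1 : (((i', a, b') :: M ++ [(i', b', a)]).map (fun p => p.2.2)).toFinset ⊆
              insert a (insert b' (M.map (·.2.2)).toFinset) := by
            intro z hz
            simp only [List.cons_append, List.map_cons, List.map_append, List.map_nil, List.mem_toFinset, List.mem_cons,
              List.mem_append, List.not_mem_nil, or_false, Finset.mem_insert] at hz ⊢
            tauto
          have h2 := Finset.card_le_card h1
          have h3 := Finset.card_insert_le a (insert b' (M.map (·.2.2)).toFinset)
          omega
        have h := ih K' M b' (hK3.nodup hK) hM hcard' (by omega) hM'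
        have h4 := red_wrap i' _ h
        simpa using h4
    | cons q B =>
      cases hB with
      | cons i' _ b' _ _ hB =>
      have hq : (i', c', b') = (i, c', b) := by
        have hc3 : (A.map (fun p => p.2.1)).count c' = 0 ∧ b ≠ c' ∧ (B.map (fun p => p.2.1)).count c' = 0 := by
          simp only [List.map_append, List.map_cons, List.count_append, List.count_cons, beq_iff_eq, if_true] at hc2
          by_cases hbc : b = c'
          · rw [if_pos hbc] at hc2
            omega
          · rw [if_neg hbc] at hc2
            exact ⟨by omega, hbc, by omega⟩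
        obtain ⟨h1, h2, h3⟩ := hc3
        rw [List.mem_append, List.mem_cons, List.mem_cons] at hpart
        rcases hpart with h | h | h | h
        · exfalso
          have h4 : c' ∈ A.map (fun p => p.2.1) := List.mem_map.2 ⟨_, h, rfl⟩
          have h5 := List.count_pos_iff.2 h4
          omega
        · exfalso
          simp only [Prod.mk.injEq, true_and] at h
          exact h2 h.2
        · exact h.symm
        · exfalso
          have h4 : c' ∈ B.map (fun p => p.2.1) := List.mem_map.2 ⟨_, h, rfl⟩
          have h5 := List.count_pos_iff.2 h4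
          omega
      simp only [Prod.mk.injEq, true_and] at hq
      obtain ⟨rfl, rfl⟩ := hq
      have hl : (A ++ (i', b', c') :: (i', c', b') :: B).Perm ((i', b', c') :: (i', c', b') :: (A ++ B)) := by
        have h1 : (A ++ (i', b', c') :: (i', c', b') :: B) = (A ++ [(i', b', c'), (i', c', b')]) ++ B := by simp
        have h2 : ((i', b', c') :: (i', c', b') :: (A ++ B)) = ([(i', b', c'), (i', c', b')] ++ A) ++ B := by simp
        rw [h1, h2]
        exact List.Perm.append_right _ List.perm_append_comm
      have hM' : (A ++ B).Perm (nclF K') := (hl.symm.trans (hp.trans hK2)).cons_inv.cons_inv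
      have hlast := ncl_last hA
      have hcard' : K'.length + 1 ≤ (insert a ((A ++ B).map (·.2.2)).toFinset).card := by
        have h1 : ((A ++ (i', b', c') :: (i', c', b') :: B).map (fun p => p.2.2)).toFinset ⊆
            insert c' (insert a ((A ++ B).map (·.2.2)).toFinset) := by
          intro z hz
          simp only [List.map_cons, List.map_append, List.mem_toFinset, List.mem_cons,
            List.mem_append, Finset.mem_insert] at hz hlast ⊢
          rcases hz with h | h | h | h
          · tauto
          · tauto
          · subst h
            tauto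
          · tauto
        have h2 := Finset.card_le_card h1
        have h3 := Finset.card_insert_le c' (insert a ((A ++ B).map (·.2.2)).toFinset)
        omega
      have h := ih K' (A ++ B) a (hK3.nodup hK) (ncl_join hA hB) hcard' (by omega) hM'
      rw [List.map_append] at h
      have h4 := Red.ins (A.map Prod.fst) (B.map Prod.fst) i' h
      simpa using h4

end Pool.Agent.H53.SQ
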