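import Pool.Agent.H53.SQ.CTR
import Pool.Agent.H53.SQ.ASMA
import Pool.Agent.H53.SQ.NCL
import Pool.Agent.H53.SQ.CHK
import Pool.Agent.H53.SQ.CMP

/-!
# Module ASM: the contour word of a complete component is a correct expression

PROOF. Let `ctx' = none` (open strand: `x = nu none`, `y = none`), or `ctx' = some g` (a root circle:
`x = y = some g`, `g.2 = true`). The labelled word `l` is `(lct b).1 ++ (lct b).2` resp.
`rL g :: ((lct b).1 ++ tL g :: (lct b).2)`; its ids are the ids of `W = wrd .. b`. It is a closed walk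
by `lct_chain`: from `r (nu none)` to `r none = ℓ none` to `ℓ (nu none) = r (nu none)`, resp. from
`ℓ g` to `r g` to `r g` to `ℓ g` to `ℓ g`. Let `vs` be the list (or finset) of the crossings with
`(v, false) ∈ gls b`; then also `(v, true) ∈ gls b`: `(v, true) ∈ eps b`, and it is not an end of a `ch`
item, since then `(v, false)` would occur twice in `eps b`. So `gls b` is a permutation of
`vs.flatMap (fun v => [(v, false), (v, true)])`, and with `lct_perm` and `Feq` the list `l` is a
permutation of the doubled list of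
`K = (nms b).map (fun g => (inr (inl g), ℓ g, r g)) ++ vs.map (fun v => (inl v, r (v,F), r (nu (v,F))))`
(and `(inr (inl g), ℓ g, r g)` for the root). `K.map fst` is `Nodup` (`nms b` is a sublist of `eps b`; the
root name is not in `nms b`: it is the first end of `b`, by `Path`, and `eps b` is `Nodup`).
`2 * #crossings = (eps b).length` and each crossing is either in `vs` or the crossing of exactly one
name, so `K.length = #crossings` (`+ 1`). By `lct_labels` and `hS` all elements of `S` are labels of the
walk (the labels `r none = ℓ none` etc. are, too), so `red_of_chain` applies: `Red (W.map fst)`.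
Then `chk_of_red`: `W.Nodup` (`word_nodup`: letters of generic items and names; from `eps b` `Nodup`), and
every id is opened first: for the names `names_open` (induction on `b`), for the root
`retL` (`sd = true`) is the first letter; for a generic crossing by `Rho` and `red_nocross` (each id
occurs at most twice), the second alternative of `Rho` is impossible.
-/

namespace Pool.Agent.H53.SQ

variable {V : Type} {L : ℕ}

theorem asm_chain_append {ι : Type} {a b c : ℕ} {l₁ l₂ : List (ι × ℕ × ℕ)} (h₁ : Chain a l₁ b)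
    (h₂ : Chain b l₂ c) : Chain a (l₁ ++ l₂) c := by
  induction h₁ with
  | nil a => simpa using h₂
  | cons i a b c l h ih => exact Chain.cons i a b _ _ (ih h₂)

theorem asm_chain_last {ι : Type} {a b : ℕ} {l : List (ι × ℕ × ℕ)} (h : Chain a l b) :
    b = a ∨ b ∈ l.map (·.2.2) := by
  induction h with
  | nil a => exact Or.inl rfl
  | cons i a b c l h ih =>
    rcases ih with h1 | h1
    · right; subst h1; simp
    · right; simp only [List.map_cons, List.mem_cons]; exact Or.inr h1

theorem asm_not_inj {z : V × Bool} : ((z.1, !z.2).1, !(z.1, !z.2).2) = z := by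
  rcases z with ⟨v, s⟩; simp

theorem asm_gls_flip (b : BT V) (hb : (eps b).Nodup) (z : V × Bool) (hz : z ∈ gls b)
    (h : (z.1, !z.2) ∈ eps b) : (z.1, !z.2) ∈ gls b := by
  induction b with
  | nil => simp [gls] at hz
  | it v s r ih =>
    simp only [eps, List.nodup_cons] at hb
    simp only [gls, List.mem_cons] at hz ⊢
    simp only [eps, List.mem_cons] at h
    rcases h with h | h
    · exact Or.inl h
    · rcases hz with hz | hz
      · right
        rcases eps_cases r _ h with h1 | h1
        · exact h1
        · rw [asm_not_inj] at h1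
          rw [hz] at h1
          exact absurd h1 hb.1
      · exact Or.inr (ih hb.2 hz h)
  | ch j v s c r ihc ihr =>
    simp only [eps, List.nodup_cons, List.mem_cons, List.mem_append, not_or,
      List.nodup_append] at hb
    obtain ⟨⟨-, hb1, hb2⟩, ⟨hb3, hb4⟩, hbc, hbr, hdis⟩ := hb
    simp only [gls, List.mem_append] at hz ⊢
    simp only [eps, List.mem_cons, List.mem_append] at h
    have key1 : (z.1, !z.2) = (v, s) → z = (v, !s) := by
      intro h1
      rw [← asm_not_inj (z := z), h1]
    have key2 : (z.1, !z.2) = (v, !s) → z = (v, s) := by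
      intro h1
      rw [← asm_not_inj (z := z), h1]
      simp
    rcases h with h | h | h | h
    · have h1 := key1 h
      rcases hz with hz | hz
      · exact absurd (h1 ▸ gls_subset_eps c _ hz) hb3
      · exact absurd (h1 ▸ gls_subset_eps r _ hz) hb4
    · have h1 := key2 h
      rcases hz with hz | hz
      · exact absurd (h1 ▸ gls_subset_eps c _ hz) hb1
      · exact absurd (h1 ▸ gls_subset_eps r _ hz) hb2
    · rcases hz with hz | hz
      · exact Or.inl (ihc hbc hz h)
      · rcases eps_cases c _ h with h1 | h1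
        · exact Or.inl h1
        · rw [asm_not_inj] at h1
          exact absurd rfl (hdis _ h1 _ (gls_subset_eps r _ hz))
    · rcases hz with hz | hz
      · rcases eps_cases r _ h with h1 | h1
        · exact Or.inr h1
        · rw [asm_not_inj] at h1
          exact absurd rfl (hdis _ (gls_subset_eps c _ hz) _ h1)
      · exact Or.inr (ihr hbr hz h)

theorem asm_len (b : BT V) : (eps b).length = 2 * (nms b).length + (gls b).length := by
  induction b with
  | nil => simp [eps, nms, gls]
  | it v s r ih => simp only [eps, nms, gls, List.length_cons, ih]; omega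
  | ch j v s c r ihc ihr =>
    simp only [eps, nms, gls, List.length_cons, List.length_append, ihc, ihr]; omega

theorem asm_gls_nodup (b : BT V) (hb : (eps b).Nodup) : (gls b).Nodup := by
  have h1 : (RC b ++ LC b : List (Lt V 0)).Nodup := word_nodup b hb
  have h2 := (word_perm (L := 0) b).nodup_iff.mp h1
  have h3 := (List.nodup_append.mp h2).2.1
  exact List.Nodup.of_map _ h3

/-- the crossings of the generic chords -/
def asmVs (b : BT V) : List V := ((gls b).filter (fun z => !z.2)).map Prod.fst

theorem asm_mem_vs (b : BT V) (v : V) : v ∈ asmVs b ↔ (v, false) ∈ gls b := by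
  unfold asmVs
  simp only [List.mem_map, List.mem_filter]
  constructor
  · rintro ⟨⟨u, s⟩, ⟨h1, h2⟩, h3⟩
    simp at h2 h3
    subst h2; subst h3; exact h1
  · intro h
    exact ⟨(v, false), ⟨h, by simp⟩, rfl⟩

theorem asm_vs_nodup (b : BT V) (hb : (eps b).Nodup) : (asmVs b).Nodup := by
  unfold asmVs
  refine List.Nodup.map_on ?_ ((asm_gls_nodup b hb).filter _)
  rintro ⟨u, s⟩ hx ⟨u', s'⟩ hy hxy
  simp only [List.mem_filter] at hx hy
  have h1 := hx.2
  have h2 := hy.2
  simp at h1 h2 hxy
  rw [h1, h2, hxy]

theorem asm_gls_perm [DecidableEq V] (b : BT V) (hb : (eps b).Nodup)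
    (hcl : ∀ z ∈ eps b, (z.1, !z.2) ∈ eps b) :
    (gls b).Perm ((asmVs b).flatMap (fun v => [(v, false), (v, true)])) := by
  rw [List.perm_ext_iff_of_nodup (asm_gls_nodup b hb)]
  · rintro ⟨v, s⟩
    simp only [List.mem_flatMap, asm_mem_vs]
    have key : ∀ s', (v, s') ∈ gls b → (v, !s') ∈ gls b := fun s' h =>
      asm_gls_flip b hb (v, s') h (hcl _ (gls_subset_eps b _ h))
    constructor
    · intro h
      refine ⟨v, ?_, ?_⟩
      · cases s
        · exact h
        · exact key true h
      · cases s <;> simp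
    · rintro ⟨u, hu, h⟩
      simp only [List.mem_cons, List.not_mem_nil, or_false, Prod.mk.injEq] at h
      rcases h with ⟨h1, h2⟩ | ⟨h1, h2⟩
      · subst h1; subst h2; exact hu
      · subst h1; subst h2; exact key false hu
  · rw [List.nodup_flatMap]
    refine ⟨fun x _ => by simp, ?_⟩
    refine (asm_vs_nodup b hb).imp ?_
    intro x y hxy
    simp only [Function.onFun, List.disjoint_left, List.mem_cons, List.not_mem_nil, or_false]
    rintro a (h1 | h1) (h2 | h2) <;> rw [h1] at h2 <;>
      simp only [Prod.mk.injEq, and_true, Bool.false_eq_true, Bool.true_eq_false, and_false] at h2 <;>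
      exact hxy h2

theorem asm_count [DecidableEq V] (b : BT V) (hb : (eps b).Nodup)
    (hcl : ∀ z ∈ eps b, (z.1, !z.2) ∈ eps b) :
    (nms b).length + (asmVs b).length = ((eps b).map Prod.fst).toFinset.card := by
  have h1 := asm_len b
  have h2 := (asm_gls_perm b hb hcl).length_eq
  rw [List.length_flatMap] at h2
  simp only [List.length_cons, List.length_nil, List.map_const', List.sum_replicate,
    smul_eq_mul] at h2
  have h3 : (eps b).toFinset = ((eps b).map Prod.fst).toFinset ×ˢ (Finset.univ : Finset Bool) := by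
    ext ⟨v, s⟩
    simp only [List.mem_toFinset, Finset.mem_product, Finset.mem_univ, and_true, List.mem_map]
    constructor
    · intro h
      exact ⟨(v, s), h, rfl⟩
    · rintro ⟨⟨u, t⟩, h4, h5⟩
      simp only at h5
      subst h5
      have h6 := hcl _ h4
      simp only at h6
      cases s <;> cases t <;> simp_all
  have h4 : (eps b).length = 2 * ((eps b).map Prod.fst).toFinset.card := by
    rw [← List.toFinset_card_of_nodup hb, h3, Finset.card_product]
    simp [mul_comm]
  omega

/-- the chords of a bar -/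
def asmK (L : ℕ) (nu : Option (V × Bool) → Option (V × Bool)) (ℓ r : Option (V × Bool) → ℕ)
    (b : BT V) : List (LLt V L) :=
  (nms b).map (fun g => (Sum.inr (Sum.inl g), ℓ (some g), r (some g))) ++
    (asmVs b).map (fun v => (Sum.inl v, r (some (v, false)), r (nu (some (v, false)))))

theorem asmK_length (nu : Option (V × Bool) → Option (V × Bool))
    (ℓ r : Option (V × Bool) → ℕ) (b : BT V) :
    (asmK L nu ℓ r b).length = (nms b).length + (asmVs b).length := by
  simp [asmK]

theorem asmK_fst (nu : Option (V × Bool) → Option (V × Bool))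
    (ℓ r : Option (V × Bool) → ℕ) (b : BT V) :
    (asmK L nu ℓ r b).map Prod.fst =
      (nms b).map (fun g => Sum.inr (Sum.inl g)) ++ (asmVs b).map Sum.inl := by
  simp [asmK, Function.comp_def]

theorem asmK_nodup (nu : Option (V × Bool) → Option (V × Bool))
    (ℓ r : Option (V × Bool) → ℕ) (b : BT V) (hb : (eps b).Nodup) :
    ((asmK L nu ℓ r b).map Prod.fst).Nodup := by
  rw [asmK_fst, List.nodup_append]
  refine ⟨?_, ?_, ?_⟩
  · refine (nms_nodup b hb).map ?_
    intro x y h
    simpa using h
  · exact (asm_vs_nodup b hb).map Sum.inl_injective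
  · intro x hx y hy
    simp only [List.mem_map] at hx hy
    obtain ⟨g, -, rfl⟩ := hx
    obtain ⟨v, -, rfl⟩ := hy
    simp

theorem asmK_perm [DecidableEq V] (nu : Option (V × Bool) → Option (V × Bool))
    (ℓ r : Option (V × Bool) → ℕ) (b : BT V) (hb : (eps b).Nodup)
    (hcl : ∀ z ∈ eps b, (z.1, !z.2) ∈ eps b) (hF : ∀ z ∈ eps b, Feq nu ℓ r z.1) :
    ((lct L nu ℓ r b).1 ++ (lct L nu ℓ r b).2).Perm
      ((asmK L nu ℓ r b).flatMap fun k => [(k.1, k.2.1, k.2.2), (k.1, k.2.2, k.2.1)]) := by
  refine (lct_perm L nu ℓ r b).trans ?_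
  unfold asmK
  rw [List.flatMap_append, List.flatMap_map, List.flatMap_map]
  refine List.Perm.append (List.Perm.refl _) ?_
  refine ((asm_gls_perm b hb hcl).map (gL L nu ℓ r)).trans ?_
  rw [List.map_flatMap]
  apply List.Perm.of_eq
  apply List.flatMap_congr
  intro v hv
  rw [asm_mem_vs] at hv
  obtain ⟨h1, h2, -, -⟩ := hF _ (gls_subset_eps b _ hv)
  simp only at h1 h2
  simp [gL, h1, h2]

theorem asm_count_le {ι : Type} [DecidableEq ι] (W : List (ι × Bool)) (hW : W.Nodup) (i : ι) :
    (W.map Prod.fst).count i ≤ 2 := by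
  have h1 : (W.map Prod.fst).count i = (W.filter (fun z => z.1 = i)).length := by
    rw [List.count_eq_length_filter, List.filter_map, List.length_map]
    congr 1
  rw [h1, ← List.toFinset_card_of_nodup (hW.filter _)]
  calc (W.filter (fun z => z.1 = i)).toFinset.card ≤ ({(i, true), (i, false)} : Finset (ι × Bool)).card := by
        apply Finset.card_le_card
        rintro ⟨j, s⟩ hj
        simp only [List.mem_toFinset, List.mem_filter, decide_eq_true_eq] at hj
        obtain ⟨-, rfl⟩ := hj
        cases s <;> simp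
    _ ≤ 2 := Finset.card_le_two

theorem asm_mem_names {b : BT V} {n : Nm V L} {x : Bool}
    (h : (Sum.inr n, x) ∈ (RC b ++ LC b : List (Lt V L))) : ∃ g ∈ nms b, n = Sum.inl g := by
  rw [(word_perm b).mem_iff, List.mem_append] at h
  rcases h with h | h
  · rw [List.mem_flatMap] at h
    obtain ⟨g, hg, h⟩ := h
    simp only [retL, topL, List.mem_cons, Prod.mk.injEq, Sum.inr.injEq, List.not_mem_nil,
      or_false] at h
    refine ⟨g, hg, ?_⟩
    rcases h with h | h <;> exact h.1
  · simp at h

/-- opening letters come first -/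
theorem asm_open [DecidableEq V] (b : BT V) (hb : (eps b).Nodup)
    (hcl : ∀ z ∈ eps b, (z.1, !z.2) ∈ eps b) (W : List (Lt V L)) (hr : Red (W.map Prod.fst))
    (hnd : W.Nodup) (hR : Rho W)
    (hsub : List.Sublist (RC b ++ LC b : List (Lt V L)) W) (v : V) (x : Bool)
    (h : (Sum.inl v, x) ∈ (RC b ++ LC b : List (Lt V L))) :
    List.Sublist [(Sum.inl v, true), (Sum.inl v, false)] W := by
  rw [mem_word_iff] at h
  have h2 : (v, !x) ∈ gls b := asm_gls_flip b hb (v, x) h (hcl _ (gls_subset_eps b _ h))
  have h3 : ∀ t, (Sum.inl v, t) ∈ W := by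
    intro t
    apply hsub.subset
    rw [mem_word_iff]
    cases t <;> cases x <;> assumption
  rcases hR v (h3 true) (h3 false) with h4 | ⟨n, h4 | h4⟩
  · exact h4
  · exact absurd h4 (red_nocross _ hr (asm_count_le W hnd) _ _ (by simp))
  · exact absurd h4 (red_nocross _ hr (asm_count_le W hnd) _ _ (by simp))

theorem comp_chk_open [DecidableEq V] (nu : Option (V × Bool) → Option (V × Bool))
    (ℓ r : Option (V × Bool) → ℕ) (b : BT V) (hpath : Path nu b (nu none) none)
    (hb : (eps b).Nodup) (hcl : ∀ z ∈ eps b, (z.1, !z.2) ∈ eps b)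
    (hR : Rho (wrd none b : List (Lt V L))) (hF : ∀ z ∈ eps b, Feq nu ℓ r z.1)
    (h5 : ℓ (nu none) = r (nu none) ∧ ℓ none = r none) (S : Finset ℕ)
    (hS : ∀ a ∈ S, ∃ x : Option (V × Bool), (x = none ∨ ∃ z ∈ eps b, x = some z) ∧
      (a = ℓ x ∨ a = r x))
    (hcard : ((eps b).map Prod.fst).toFinset.card + 1 ≤ S.card) :
    chk [] (wrd none b : List (Lt V L)) := by
  have hch := lct_chain L nu ℓ r b (nu none) none hpath hF
  obtain ⟨hc1, hc2⟩ := hch
  obtain ⟨h5a, h5b⟩ := h5
  have hchain : Chain (r (nu none)) ((lct L nu ℓ r b).1 ++ (lct L nu ℓ r b).2) (r (nu none)) := by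
    refine asm_chain_append hc1 ?_
    rw [← h5b, ← h5a]
    exact hc2
  have hids : ((lct L nu ℓ r b).1 ++ (lct L nu ℓ r b).2).map Prod.fst =
      (RC b ++ LC b : List (Lt V L)).map Prod.fst := by
    rw [List.map_append, List.map_append, (lct_ids L nu ℓ r b).1, (lct_ids L nu ℓ r b).2]
  have hlabel : ∀ a ∈ S, a ∈ insert (r (nu none))
      (((lct L nu ℓ r b).1 ++ (lct L nu ℓ r b).2).map (·.2.2)).toFinset := by
    have hnone : r none ∈ insert (r (nu none))
        (((lct L nu ℓ r b).1 ++ (lct L nu ℓ r b).2).map (·.2.2)).toFinset := by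
      rw [Finset.mem_insert, List.mem_toFinset, List.map_append, List.mem_append]
      rcases asm_chain_last hc1 with h | h
      · exact Or.inl h
      · exact Or.inr (Or.inl h)
    intro a ha
    obtain ⟨x, hx, hax⟩ := hS a ha
    rcases hx with rfl | ⟨z, hz, rfl⟩
    · rcases hax with rfl | rfl
      · rw [h5b]; exact hnone
      · exact hnone
    · rcases lct_labels L nu ℓ r b (nu none) none hpath hF z hz a hax with h | h | h | h | h
      · rw [Finset.mem_insert, List.mem_toFinset]
        exact Or.inr h
      · rw [h]; exact Finset.mem_insert_self _ _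
      · rw [h]; exact hnone
      · rw [h, h5b]; exact hnone
      · rw [h, h5a]; exact Finset.mem_insert_self _ _
  have hred := red_of_chain (asmK L nu ℓ r b) _ _ (asmK_nodup nu ℓ r b hb)
    (asmK_perm nu ℓ r b hb hcl hF) hchain (by
      rw [asmK_length, asm_count b hb hcl]
      exact hcard.trans (Finset.card_le_card hlabel))
  rw [hids] at hred
  have hnd : (RC b ++ LC b : List (Lt V L)).Nodup := word_nodup b hb
  refine chk_of_red _ hred hnd ?_
  intro i hi
  rw [List.mem_map] at hi
  obtain ⟨⟨i', x⟩, hx, rfl⟩ := hi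
  rcases i' with v | n
  · exact asm_open b hb hcl _ hred hnd hR (List.Sublist.refl _) v x hx
  · obtain ⟨g, hg, rfl⟩ := asm_mem_names hx
    exact names_open b g hg

theorem comp_chk_root [DecidableEq V] (nu : Option (V × Bool) → Option (V × Bool))
    (ℓ r : Option (V × Bool) → ℕ) (b : BT V) (g : V × Bool) (hg : g.2 = true)
    (hne : b ≠ BT.nil) (hpath : Path nu b (some g) (some g))
    (hb : (eps b).Nodup) (hcl : ∀ z ∈ eps b, (z.1, !z.2) ∈ eps b)
    (hR : Rho (wrd (some (Sum.inl g)) b : List (Lt V L))) (hF : ∀ z ∈ eps b, Feq nu ℓ r z.1)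
    (S : Finset ℕ)
    (hS : ∀ a ∈ S, ∃ z ∈ eps b, a = ℓ (some z) ∨ a = r (some z))
    (hcard : ((eps b).map Prod.fst).toFinset.card + 2 ≤ S.card) :
    chk [] (wrd (some (Sum.inl g)) b : List (Lt V L)) := by
  have hch := lct_chain L nu ℓ r b (some g) (some g) hpath hF
  obtain ⟨hc1, hc2⟩ := hch
  have hgn : g ∉ nms b := start_not_name nu b g (some g) hpath hb
  have hchain : Chain (ℓ (some g))
      (rL L ℓ r g :: ((lct L nu ℓ r b).1 ++ tL L ℓ r g :: (lct L nu ℓ r b).2)) (ℓ (some g)) := by
    refine Chain.cons _ _ _ _ _ (asm_chain_append hc1 ?_)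
    exact Chain.cons _ _ _ _ _ hc2
  have hW : (wrd (some (Sum.inl g)) b : List (Lt V L)) =
      (Sum.inr (Sum.inl g), true) :: (RC b ++ (Sum.inr (Sum.inl g), false) :: LC b) := by
    simp [wrd, retL, topL, sd, hg]
  have hids : (rL L ℓ r g :: ((lct L nu ℓ r b).1 ++ tL L ℓ r g :: (lct L nu ℓ r b).2)).map Prod.fst =
      (wrd (some (Sum.inl g)) b : List (Lt V L)).map Prod.fst := by
    rw [hW]
    simp only [List.map_cons, List.map_append, (lct_ids L nu ℓ r b).1, (lct_ids L nu ℓ r b).2]
    rfl
  have hlabel : ∀ a ∈ S, a ∈ insert (ℓ (some g))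
      ((rL L ℓ r g :: ((lct L nu ℓ r b).1 ++ tL L ℓ r g :: (lct L nu ℓ r b).2)).map
        (·.2.2)).toFinset := by
    intro a ha
    obtain ⟨z, hz, hax⟩ := hS a ha
    rw [Finset.mem_insert, List.mem_toFinset]
    simp only [List.map_cons, List.map_append, List.mem_cons, List.mem_append]
    rcases lct_labels L nu ℓ r b (some g) (some g) hpath hF z hz a hax with h | h | h | h | h
    · rw [List.map_append, List.mem_append] at h
      tauto
    · rw [h]; exact Or.inr (Or.inl rfl)
    · rw [h]; exact Or.inr (Or.inl rfl)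
    · exact Or.inl h
    · exact Or.inl h
  have hperm : (rL L ℓ r g :: ((lct L nu ℓ r b).1 ++ tL L ℓ r g :: (lct L nu ℓ r b).2)).Perm
      (((Sum.inr (Sum.inl g), ℓ (some g), r (some g)) :: asmK L nu ℓ r b).flatMap
        fun k => [(k.1, k.2.1, k.2.2), (k.1, k.2.2, k.2.1)]) := by
    rw [List.flatMap_cons]
    change (rL L ℓ r g :: ((lct L nu ℓ r b).1 ++ tL L ℓ r g :: (lct L nu ℓ r b).2)).Perm
      (rL L ℓ r g :: tL L ℓ r g :: _)
    refine List.Perm.cons _ ?_
    refine List.perm_middle.trans (List.Perm.cons _ ?_)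
    exact asmK_perm nu ℓ r b hb hcl hF
  have hKn : ((((Sum.inr (Sum.inl g), ℓ (some g), r (some g)) :: asmK L nu ℓ r b :
      List (LLt V L))).map Prod.fst).Nodup := by
    rw [List.map_cons, List.nodup_cons]
    refine ⟨?_, asmK_nodup nu ℓ r b hb⟩
    rw [asmK_fst, List.mem_append]
    rintro (h | h)
    · simp only [List.mem_map, Sum.inr.injEq, Sum.inl.injEq] at h
      obtain ⟨g', hg', rfl⟩ := h
      exact hgn hg'
    · simp at h
  have hred := red_of_chain ((Sum.inr (Sum.inl g), ℓ (some g), r (some g)) :: asmK L nu ℓ r b) _ _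
    hKn hperm hchain (by
      rw [List.length_cons, asmK_length, asm_count b hb hcl]
      exact hcard.trans (Finset.card_le_card hlabel))
  rw [hids] at hred
  have hnotmem : ∀ x, (Sum.inr (Sum.inl g), x) ∉ (RC b ++ LC b : List (Lt V L)) := by
    intro x hx
    obtain ⟨g', hg', h⟩ := asm_mem_names hx
    simp only [Sum.inl.injEq] at h
    rw [h] at hgn
    exact hgn hg'
  have hnd0 : (RC b ++ LC b : List (Lt V L)).Nodup := word_nodup b hb
  have hWperm : (wrd (some (Sum.inl g)) b : List (Lt V L)).Perm
      ((Sum.inr (Sum.inl g), true) :: (Sum.inr (Sum.inl g), false) :: (RC b ++ LC b)) := by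
    rw [hW]
    exact List.Perm.cons _ List.perm_middle
  have hnd : (wrd (some (Sum.inl g)) b : List (Lt V L)).Nodup := by
    rw [hWperm.nodup_iff, List.nodup_cons, List.nodup_cons]
    refine ⟨?_, hnotmem false, hnd0⟩
    rw [List.mem_cons]
    rintro (h | h)
    · simp at h
    · exact hnotmem true h
  have hsub : List.Sublist (RC b ++ LC b : List (Lt V L)) (wrd (some (Sum.inl g)) b) := by
    rw [hW]
    refine List.Sublist.cons _ ?_
    exact List.Sublist.append (List.Sublist.refl _) (List.Sublist.cons _ (List.Sublist.refl _))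
  refine chk_of_red _ hred hnd ?_
  intro i hi
  rw [List.mem_map] at hi
  obtain ⟨⟨i', x⟩, hx, rfl⟩ := hi
  rw [hWperm.mem_iff, List.mem_cons, List.mem_cons] at hx
  rcases i' with v | n
  · rcases hx with hx | hx | hx
    · simp at hx
    · simp at hx
    · exact asm_open b hb hcl _ hred hnd hR hsub v x hx
  · have hroot : List.Sublist [(Sum.inr (Sum.inl g), true), (Sum.inr (Sum.inl g), false)]
        (wrd (some (Sum.inl g)) b : List (Lt V L)) := by
      rw [hW]
      refine List.Sublist.cons_cons _ ?_
      rw [List.singleton_sublist]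
      simp
    rcases hx with hx | hx | hx
    · simp only [Prod.mk.injEq, Sum.inr.injEq] at hx
      rw [hx.1]; exact hroot
    · simp only [Prod.mk.injEq, Sum.inr.injEq] at hx
      rw [hx.1]; exact hroot
    · obtain ⟨g', hg', rfl⟩ := asm_mem_names hx
      exact (names_open b g' hg').trans hsub

end Pool.Agent.H53.SQ
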