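import Pool.Agent.H53.SQ.ADDB

/-!
# Module INSB: inserting a strand (the under-arc) into a word of bands

PROOFS.
* `add_wd`: induction on `β`; each letter `(i, D, m)` with `i + D.length + 1 < n` is handled by
  `add_fw` with `P = replicate i (inl true)`, `X = D.map (fun f => (inl true, f))`,
  `R = replicate (n - i - D.length - 2) (inl true) ++ R'`; here `oflags X = D = X.map snd`,
  `openCount P = i = P.length`.
* `add_ins`: induction on `β`. Letter `(i, D, m)`, `i + D.length + 1 < q + b`. Three cases as in
  the definition of `insL`.
  (1) `q ≤ i`: `P = replicate q (inl true) ++ inr 2 :: replicate (i - q) (inl true)`,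
      `openCount P = i`, `P.length = i + 1`, `X` as above.
  (2) `i < q ≤ i + 1 + D.length`: `P = replicate i (inl true)`, `X` is the list
      `D.map (inl true, ·)` with `(inr 2, true)` inserted at the index `q - i - 1`
      (`inr 2 = inr (2 * 1)`, flag `true = !false`);
      `oflags X = D`, `X.map snd = D.insertIdx (q - i - 1) true`.
  (3) `i + 1 + D.length < q`: `P = replicate i (inl true)`, the arc is in `R`.
* `goodL_ins`: case analysis on the definition of `insL`, `List.getElem_insertIdx`.
* `countP_wd`: a word `fw i D m` contains only crossings.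
-/

namespace Pool.Agent.H53.SQ

theorem INSB_rep {α : Type} (x : α) (i d r : ℕ) :
    List.replicate (i + d + 2 + r) x =
      List.replicate i x ++ x :: (List.replicate d x ++ x :: List.replicate r x) := by
  have : i + d + 2 + r = i + (1 + (d + (1 + r))) := by omega
  rw [this, List.replicate_add, List.replicate_add, List.replicate_add, List.replicate_add]
  rfl

theorem INSB_ocrep (n : ℕ) : openCount (List.replicate n (Sum.inl true)) = n := by
  induction n with
  | zero => rfl
  | succ n ih => rw [List.replicate_succ, openCount, ih]

theorem INSB_X (D : List Bool) :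
    (D.map (fun f => ((Sum.inl true : Bool ⊕ ℕ), f))).map Prod.fst =
      List.replicate D.length (Sum.inl true) ∧
    (D.map (fun f => ((Sum.inl true : Bool ⊕ ℕ), f))).map Prod.snd = D ∧
    oflags (D.map (fun f => ((Sum.inl true : Bool ⊕ ℕ), f))) = D ∧
    ∀ ov, Xok ov (D.map (fun f => ((Sum.inl true : Bool ⊕ ℕ), f))) := by
  refine ⟨?_, ?_, ?_, ?_⟩
  · induction D with
    | nil => rfl
    | cons f D ih => simp only [List.map_cons, ih, List.length_cons, List.replicate_succ]
  · simp [List.map_map, Function.comp_def]
  · rw [oflags, List.filter_eq_self.2]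
    · simp [List.map_map, Function.comp_def]
    · intro a ha
      rw [List.mem_map] at ha
      obtain ⟨f, _, rfl⟩ := ha
      rfl
  · intro ov x hx
    rw [List.mem_map] at hx
    obtain ⟨f, _, rfl⟩ := hx
    exact Or.inl rfl

theorem INSB_one (ov : Bool) (n i : ℕ) (D : List Bool) (m : ℕ) (hi : i + D.length + 1 < n)
    (R : List (Bool ⊕ ℕ)) (e w : List Gen)
    (h : Add ov (List.replicate n (Sum.inl true) ++ R) e w) :
    Add ov (List.replicate n (Sum.inl true) ++ R) (fw i D m ++ e) (fw i D m ++ w) := by
  obtain ⟨r, rfl⟩ : ∃ r, n = i + D.length + 2 + r := ⟨n - (i + D.length + 2), by omega⟩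
  obtain ⟨x1, x2, x3, x4⟩ := INSB_X D
  have := add_fw ov (List.replicate i (Sum.inl true)) (D.map (fun f => (Sum.inl true, f)))
    (List.replicate r (Sum.inl true) ++ R) m e w (x4 ov)
    (by rw [x1]; simpa [INSB_rep] using h)
  rw [x1, x2, x3, INSB_ocrep, List.length_replicate] at this
  simpa [INSB_rep] using this

theorem add_wd (ov : Bool) (n : ℕ) (β : List Ltr) (hβ : ∀ l ∈ β, l.1 + l.2.1.length + 1 < n)
    (R : List (Bool ⊕ ℕ)) (e w : List Gen)
    (h : Add ov (List.replicate n (Sum.inl true) ++ R) e w) :
    Add ov (List.replicate n (Sum.inl true) ++ R) (wd β ++ e) (wd β ++ w) := by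
  induction β with
  | nil => simpa [wd] using h
  | cons l β ih =>
    have h1 := INSB_one ov n l.1 l.2.1 l.2.2 (hβ l List.mem_cons_self) R _ _
      (ih (fun l' hl' => hβ l' (List.mem_cons_of_mem _ hl')))
    simpa [wd] using h1

theorem INSB_insertIdx {α : Type} (D : List α) (t : ℕ) (ht : t ≤ D.length) (x : α) :
    D.insertIdx t x = D.take t ++ x :: D.drop t := by
  induction D generalizing t with
  | nil =>
    have : t = 0 := by simpa using ht
    subst this; rfl
  | cons d D ih =>
    cases t with
    | zero => rfl
    | succ t =>
      rw [List.insertIdx_succ_cons, ih t (by simpa using ht)]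
      rfl

theorem INSB_ins1 (q b : ℕ) (l : Ltr) (hl : l.1 + l.2.1.length + 1 < q + b)
    (R : List (Bool ⊕ ℕ)) (e w : List Gen)
    (h : Add false (List.replicate q (Sum.inl true) ++
      Sum.inr 2 :: (List.replicate b (Sum.inl true) ++ R)) e w) :
    Add false (List.replicate q (Sum.inl true) ++
      Sum.inr 2 :: (List.replicate b (Sum.inl true) ++ R)) (fw l.1 l.2.1 l.2.2 ++ e)
      (fw (insL q l).1 (insL q l).2.1 (insL q l).2.2 ++ w) := by
  obtain ⟨i, D, m⟩ := l
  simp only at hl ⊢
  obtain ⟨x1, x2, x3, x4⟩ := INSB_X D
  by_cases h1 : q ≤ i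
  · have hins : insL q (i, D, m) = (i + 1, D, m) := by simp [insL, h1]
    rw [hins]
    obtain ⟨r, hr⟩ : ∃ r, b = (i - q) + D.length + 2 + r :=
      ⟨b - ((i - q) + D.length + 2), by omega⟩
    subst hr
    have := add_fw false (List.replicate q (Sum.inl true) ++ Sum.inr 2 ::
      List.replicate (i - q) (Sum.inl true)) (D.map (fun f => (Sum.inl true, f)))
      (List.replicate r (Sum.inl true) ++ R) m e w (x4 false)
      (by rw [x1]; simpa [INSB_rep] using h)
    rw [x1, x2, x3, openCount_append, openCount, INSB_ocrep, INSB_ocrep] at this
    have e1 : (List.replicate q (Sum.inl true : Bool ⊕ ℕ) ++ Sum.inr 2 ::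
      List.replicate (i - q) (Sum.inl true)).length = i + 1 := by
      simp; omega
    have e2 : q + (i - q) = i := by omega
    rw [e1, e2] at this
    simpa [INSB_rep] using this
  · by_cases h2 : q ≤ i + 1 + D.length
    · have hins : insL q (i, D, m) = (i, D.insertIdx (q - i - 1) true, m) := by
        simp [insL, h1, h2]
      rw [hins]
      obtain ⟨t, ht⟩ : ∃ t, t = q - i - 1 := ⟨_, rfl⟩
      rw [← ht]
      have hq : q = i + 1 + t := by omega
      have htD : t ≤ D.length := by omega
      obtain ⟨r, hr⟩ : ∃ r, b = (D.length - t) + 1 + r := ⟨b - ((D.length - t) + 1), by omega⟩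
      subst hr
      subst hq
      obtain ⟨y1, y2, y3, y4⟩ := INSB_X (D.take t)
      obtain ⟨z1, z2, z3, z4⟩ := INSB_X (D.drop t)
      have hX : Xok false ((D.take t).map (fun f => ((Sum.inl true : Bool ⊕ ℕ), f)) ++
          (Sum.inr 2, true) :: (D.drop t).map (fun f => (Sum.inl true, f))) := by
        intro x hx
        rw [List.mem_append, List.mem_cons] at hx
        rcases hx with hx | rfl | hx
        · exact y4 false x hx
        · exact Or.inr ⟨1, rfl, rfl⟩
        · exact z4 false x hx
      have := add_fw false (List.replicate i (Sum.inl true)) _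
        (List.replicate r (Sum.inl true) ++ R) m e w hX
        (by
          rw [List.map_append, List.map_cons, y1, z1]
          have e3 : (D.take t).length = t := by simp [htD]
          have e4 : (D.drop t).length = D.length - t := by simp
          rw [e3, e4]
          have e5 : List.replicate (i + 1 + t) (Sum.inl true : Bool ⊕ ℕ) =
            List.replicate i (Sum.inl true) ++ Sum.inl true :: List.replicate t (Sum.inl true) := by
            rw [show i + 1 + t = i + (1 + t) by omega, List.replicate_add, List.replicate_add]; rfl
          have e6 : List.replicate (D.length - t + 1 + r) (Sum.inl true : Bool ⊕ ℕ) =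
            List.replicate (D.length - t) (Sum.inl true) ++ Sum.inl true ::
              List.replicate r (Sum.inl true) := by
            rw [show D.length - t + 1 + r = (D.length - t) + (1 + r) by omega, List.replicate_add,
              List.replicate_add]; rfl
          rw [e5, e6] at h
          simpa using h)
      have hof : oflags ((D.take t).map (fun f => ((Sum.inl true : Bool ⊕ ℕ), f)) ++
          (Sum.inr 2, true) :: (D.drop t).map (fun f => (Sum.inl true, f))) = D := by
        rw [oflags] at y3 z3 ⊢
        rw [List.filter_append, List.filter_cons_of_neg (by simp), List.map_append, y3, z3,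
          List.take_append_drop]
      have hsn : ((D.take t).map (fun f => ((Sum.inl true : Bool ⊕ ℕ), f)) ++
          (Sum.inr 2, true) :: (D.drop t).map (fun f => (Sum.inl true, f))).map Prod.snd =
          D.insertIdx t true := by
        rw [List.map_append, List.map_cons, y2, z2, INSB_insertIdx D t htD]
      rw [hof, hsn, INSB_ocrep, List.length_replicate, List.map_append, List.map_cons, y1, z1] at this
      have e3 : (D.take t).length = t := by simp [htD]
      have e4 : (D.drop t).length = D.length - t := by simp
      rw [e3, e4] at this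
      have e5 : List.replicate (i + 1 + t) (Sum.inl true : Bool ⊕ ℕ) =
        List.replicate i (Sum.inl true) ++ Sum.inl true :: List.replicate t (Sum.inl true) := by
        rw [show i + 1 + t = i + (1 + t) by omega, List.replicate_add, List.replicate_add]; rfl
      have e6 : List.replicate (D.length - t + 1 + r) (Sum.inl true : Bool ⊕ ℕ) =
        List.replicate (D.length - t) (Sum.inl true) ++ Sum.inl true ::
          List.replicate r (Sum.inl true) := by
        rw [show D.length - t + 1 + r = (D.length - t) + (1 + r) by omega, List.replicate_add,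
          List.replicate_add]; rfl
      rw [e5, e6]
      simpa using this
    · have hins : insL q (i, D, m) = (i, D, m) := by simp [insL, h1, h2]
      rw [hins]
      obtain ⟨r, hr⟩ : ∃ r, q = i + D.length + 2 + r := ⟨q - (i + D.length + 2), by omega⟩
      subst hr
      exact INSB_one false (i + D.length + 2 + r) i D m (by omega) _ e w h

theorem add_ins (q b : ℕ) (β : List Ltr) (hβ : ∀ l ∈ β, l.1 + l.2.1.length + 1 < q + b)
    (R : List (Bool ⊕ ℕ)) (e w : List Gen)
    (h : Add false (List.replicate q (Sum.inl true) ++
      Sum.inr 2 :: (List.replicate b (Sum.inl true) ++ R)) e w) :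
    Add false (List.replicate q (Sum.inl true) ++
      Sum.inr 2 :: (List.replicate b (Sum.inl true) ++ R)) (wd β ++ e)
      (wd (β.map (insL q)) ++ w) := by
  induction β with
  | nil => simpa [wd] using h
  | cons l β ih =>
    have h1 := INSB_ins1 q b l (hβ l List.mem_cons_self) R _ _
      (ih (fun l' hl' => hβ l' (List.mem_cons_of_mem _ hl')))
    simpa [wd] using h1

theorem goodL_ins (n P q : ℕ) (l : Ltr) (h : goodL n P l) :
    goodL (n + 1) (if q ≤ P then P + 1 else P) (insL q l) := by
  obtain ⟨i, D, m⟩ := l
  obtain ⟨h0, h1⟩ := h
  simp only at h0 h1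
  by_cases c1 : q ≤ i
  · have hins : insL q (i, D, m) = (i + 1, D, m) := by simp [insL, c1]
    rw [hins]
    refine ⟨by simp only; omega, fun t ht => ?_⟩
    simp only at ht ⊢
    rw [h1 t ht, decide_eq_decide]
    split_ifs <;> omega
  · by_cases c2 : q ≤ i + 1 + D.length
    · have hins : insL q (i, D, m) = (i, D.insertIdx (q - i - 1) true, m) := by
        simp [insL, c1, c2]
      rw [hins]
      have hlen : (D.insertIdx (q - i - 1) true).length = D.length + 1 := by
        rw [List.length_insertIdx, if_pos (by omega)]
      refine ⟨by simp only [hlen]; omega, fun t ht => ?_⟩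
      simp only at ht ⊢
      rw [List.getElem_insertIdx]
      split_ifs with d1 d2 d3
      all_goals first
        | (rw [h1 t (by omega), decide_eq_decide]; done)
        | (rw [h1 t (by omega), decide_eq_decide]; omega)
        | (simp; done)
        | (simp; omega)
        | (rw [h1 (t - 1) (by omega), decide_eq_decide]; omega)
    · have hins : insL q (i, D, m) = (i, D, m) := by simp [insL, c1, c2]
      rw [hins]
      refine ⟨by simp only; omega, fun t ht => ?_⟩
      simp only at ht ⊢
      rw [h1 t ht, decide_eq_decide]
      split_ifs <;> omega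

theorem countP_fw (i : ℕ) (D : List Bool) (m : ℕ) :
    (fw i D m).countP Gen.isBorn = 0 ∧ (fw i D m).countP Gen.isDie = 0 := by
  induction D generalizing i with
  | nil => simp [fw, List.countP_replicate, Gen.isBorn, Gen.isDie]
  | cons f D ih =>
    simp [fw, Gen.isBorn, Gen.isDie, ih (i + 1)]

theorem countP_wd (β : List Ltr) :
    (wd β).countP Gen.isBorn = 0 ∧ (wd β).countP Gen.isDie = 0 := by
  induction β with
  | nil => simp [wd]
  | cons l β ih =>
    have h1 := countP_fw l.1 l.2.1 l.2.2
    simp only [wd, List.flatMap_cons, List.countP_append] at ih ⊢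
    omega

end Pool.Agent.H53.SQ
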