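import Pool.Agent.H53.SQ.CONV
import Pool.Agent.H53.SQ.INSB

/-!
# Module BIRA: conversion of a circle whose return strand is on the right

Let `p = vl C A`, `k` the new circle, `N = p + 1 + vl C B` (number of strands before the birth). We
apply `Step.pass false e`: both words arise from one open word `e` by adding an under-arc for `k`.
Facts for a list `A` with `pres C A` (and `C k = false`, so no item is named `k`):
`StU C k A = StC C k A = replicate (vl C A) (inl true)`, `A.flatMap (mkI C k) = replicate (vl C A) false`,
`scan C k 0 A = some 0`, `scan C k 3 A = some 3`, `alive k A = 0` (see `pres_facts`).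
Apply `conv` to the frontier after the birth; it gives `e'` with `countP isBorn = 0`,
`countP isDie = 1`.

* `birR_post`: frontier `A, up x, up k, ret k, B`; `conv` with `a = p + 1`, `b = vl C B`.
  `e = cups N ++ (wd β ++ (born (p+1) :: cross p true :: e'))`.
  First word: `add_cups`, `add_wd`, then `Add.acup₁ .. 0` at position `p + 1` (strands `inr 2, inr 1`),
  `Add.born` (`inr 2` becomes `inl true`), `Add.cross` at position `p`; the state is then
  `StU C k ms ++ replicate N (inl false)`.
  Second word: `add_cups_arc (p+1) (vl C B)`, `add_ins (p+1) (vl C B)`, `Add.born` (state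
  `replicate (p+1) .. ++ inr 2 :: ..`), `Add.cross` at `p`; note `fw p [] 1 = [cross p true]`.
* `birR_jump`: frontier `A, up k, up none, ret k, B`; `conv` with `a = p`, `b = 1 + vl C B`.
  `e = cups N ++ (wd β ++ (born p :: e'))`.
  First word: `Add.acup₁ .. 0` at position `p + 1` (state `.. inl true, inr 2, inr 1 ..`), then
  `Add.left` at position `p` with sign `!false = true` (state `.. inr 2, inl true, inr 1 ..`), `Add.born`.
  Second word: `add_cups_arc p (1 + vl C B)`, `add_ins p (1 + vl C B)`, `Add.born`.
-/

namespace Pool.Agent.H53.SQ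

variable {V : Type} [DecidableEq V]

theorem bira_rep {α : Type*} (n : ℕ) (a : α) (l : List α) :
    a :: (List.replicate n a ++ l) = List.replicate n a ++ a :: l := by
  induction n with
  | zero => rfl
  | succ n ih => rw [List.replicate_succ, List.cons_append, ih, List.cons_append]

theorem bira_repS {α : Type*} (n : ℕ) (a : α) (l : List α) :
    List.replicate (n + 1) a ++ l = List.replicate n a ++ a :: l := by
  rw [List.replicate_succ, List.cons_append, bira_rep]

theorem bira_open (n : ℕ) : openCount (List.replicate n (Sum.inl true)) = n := by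
  induction n with
  | zero => rfl
  | succ n ih => rw [List.replicate_succ, openCount, ih]

theorem bira_lb {ov : Bool} {n : ℕ} {B : List (Bool ⊕ ℕ)} {e w : List Gen}
    (h : Add ov (List.replicate n (Sum.inl true) ++ Sum.inl true :: B) e w) :
    Add ov (List.replicate n (Sum.inl true) ++ Sum.inr 2 :: B) (Gen.born n :: e) w := by
  have := Add.born (List.replicate n (Sum.inl true)) B 1 e w h
  rw [bira_open] at this
  exact this

theorem bira_lc {ov : Bool} {n : ℕ} {B : List (Bool ⊕ ℕ)} {s : Bool} {e w : List Gen}
    (h : Add ov (List.replicate n (Sum.inl true) ++ Sum.inl true :: Sum.inl true :: B) e w) :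
    Add ov (List.replicate n (Sum.inl true) ++ Sum.inl true :: Sum.inl true :: B)
      (Gen.cross n s :: e) (Gen.cross n s :: w) := by
  have := Add.cross (List.replicate n (Sum.inl true)) B s e w h
  rw [bira_open, List.length_replicate] at this
  exact this

theorem bira_step {N : ℕ} (β : List Ltr) (g e' : List Gen) (w w' : List Gen)
    (hg : g.countP Gen.isBorn = 1) (hgd : g.countP Gen.isDie = 0)
    (hb : e'.countP Gen.isBorn = 0) (hd : e'.countP Gen.isDie = 1)
    (h1 : Add false [] (cups N ++ (wd β ++ (g ++ e'))) w)
    (h2 : Add false [] (cups N ++ (wd β ++ (g ++ e'))) w') : Step w w' := by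
  refine Step.pass false _ w w' ?_ ?_ h1 h2
  · simp only [List.countP_append, (countP_cups N).1, (countP_wd β).1, hg, hb]
  · simp only [List.countP_append, (countP_cups N).2, (countP_wd β).2, hgd, hd]

theorem pres_facts {L : ℕ} (C : Nm V L → Bool) (k : Nm V L) (hk : C k = false)
    (A : List (MI V L)) (hA : pres C A) :
    StU C k A = List.replicate (vl C A) (Sum.inl true) ∧
    StC C k A = List.replicate (vl C A) (Sum.inl true) ∧
    A.flatMap (mkI C k) = List.replicate (vl C A) false ∧
    scan C k 0 A = some 0 ∧ scan C k 3 A = some 3 ∧ alive k A = 0 := by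
  induction A with
  | nil => exact ⟨rfl, rfl, rfl, rfl, rfl, rfl⟩
  | cons a A ih =>
    obtain ⟨h1, h2, h3, h4, h5, h6⟩ := ih (fun m hm => hA m (List.mem_cons_of_mem _ hm))
    have ha : ∀ n, a.nm = some n → C n = true ∧ n ≠ k := by
      intro n hn
      have h := hA a List.mem_cons_self n hn
      refine ⟨h, fun hnk => ?_⟩
      rw [hnk, hk] at h
      exact absurd h (by simp)
    have hvl : vl C (a :: A) = vis C a + vl C A := by simp [vl]
    have h1' : StU C k (a :: A) = lnU C k a ++ StU C k A := by simp [StU]
    have h2' : StC C k (a :: A) = lnC C k a ++ StC C k A := by simp [StC]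
    rw [hvl, h1', h2', List.flatMap_cons, h1, h2, h3, List.replicate_add, List.replicate_add]
    have key : lnU C k a = List.replicate (vis C a) (Sum.inl true) ∧
        lnC C k a = List.replicate (vis C a) (Sum.inl true) ∧
        mkI C k a = List.replicate (vis C a) false ∧ stp C k 0 a = some 0 ∧ stp C k 3 a = some 3 := by
      cases a with
      | up n x j =>
        cases n with
        | none => exact ⟨rfl, rfl, rfl, rfl, rfl⟩
        | some n =>
          obtain ⟨c1, c2⟩ := ha n rfl
          refine ⟨rfl, rfl, ?_, ?_, ?_⟩ <;> simp [mkI, stp, vis, c1, c2]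
      | ret n =>
        obtain ⟨c1, c2⟩ := ha n rfl
        refine ⟨?_, ?_, ?_, ?_, ?_⟩ <;> simp [lnU, lnC, mkI, stp, vis, c1, c2]
      | dead n =>
        obtain ⟨c1, c2⟩ := ha n rfl
        refine ⟨?_, ?_, ?_, ?_, ?_⟩ <;> simp [lnU, lnC, mkI, stp, vis, c1, c2]
      | sdead => exact ⟨rfl, rfl, rfl, rfl, rfl⟩
    obtain ⟨k1, k2, k3, k4, k5⟩ := key
    refine ⟨by rw [k1], by rw [k2], by rw [k3], ?_, ?_, ?_⟩
    · rw [scan, k4]; exact h4
    · rw [scan, k5]; exact h5
    · cases a with
      | up n x j =>
        cases n with
        | none => exact h6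
        | some n =>
          obtain ⟨_, c2⟩ := ha n rfl
          simp only [alive, if_neg c2]
          exact h6
      | ret n => exact h6
      | dead n => exact h6
      | sdead => exact h6

theorem bira_StU {L : ℕ} (C : Nm V L → Bool) (k : Nm V L) (A : List (MI V L)) (m : MI V L)
    (B : List (MI V L)) : StU C k (A ++ m :: B) = StU C k A ++ (lnU C k m ++ StU C k B) := by
  simp [StU]

theorem bira_StC {L : ℕ} (C : Nm V L → Bool) (k : Nm V L) (A : List (MI V L)) (m : MI V L)
    (B : List (MI V L)) : StC C k (A ++ m :: B) = StC C k A ++ (lnC C k m ++ StC C k B) := by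
  simp [StC]

theorem bira_StUc {L : ℕ} (C : Nm V L → Bool) (k : Nm V L) (m : MI V L)
    (B : List (MI V L)) : StU C k (m :: B) = lnU C k m ++ StU C k B := by
  simp [StU]

theorem bira_StCc {L : ℕ} (C : Nm V L → Bool) (k : Nm V L) (m : MI V L)
    (B : List (MI V L)) : StC C k (m :: B) = lnC C k m ++ StC C k B := by
  simp [StC]

theorem birR_post {O : Code V} (A B : List (MI V O.loops)) (x : Option (Nm V O.loops)) (v : V)
    (F : List (Nm V O.loops)) (T : List (Tok V O.loops)) (f : (Nm V O.loops → Bool) → List Gen)
    (h : MW O (A ++ MI.up x (Sum.inl (some (v, false))) 0 ::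
      MI.up (some (Sum.inl (v, true))) (Sum.inl (some (v, true))) 0 ::
        MI.ret (Sum.inl (v, true)) :: B) F T f)
    (C : Nm V O.loops → Bool) (hC : C (Sum.inl (v, true)) = false)
    (hF : ∀ n ∈ F, C n = false ∧ n ≠ Sum.inl (v, true)) (hA : pres C A) (hB : pres C B)
    (hx : ∀ n, x = some n → C n = true) (β : List Ltr)
    (hβ : ∀ l ∈ β, l.1 + l.2.1.length + 1 < vl C A + 1 + vl C B) :
    Step (clo (vl C A + 1 + vl C B)
        (wd β ++ (Gen.cup (vl C A + 1) true :: Gen.cross (vl C A) true :: f C)))
      (clo (vl C A + 1 + vl C B + 1) (wd (β.map (insL (vl C A + 1))) ++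
        (fw (vl C A) [] 1 ++ f (Function.update C (Sum.inl (v, true)) true)))) := by
  set k : Nm V O.loops := Sum.inl (v, true) with hk
  obtain ⟨a1, a2, a3, a4, a5, a6⟩ := pres_facts C k hC A hA
  obtain ⟨b1, b2, b3, b4, b5, b6⟩ := pres_facts C k hC B hB
  have hxk : ∀ n, x = some n → n ≠ k := by
    intro n hn hnk
    have := hx n hn
    rw [hnk, hC] at this
    exact absurd this (by simp)
  have hxm : mkI C k (MI.up x (Sum.inl (some (v, false))) 0) = [false] := by
    cases x with
    | none => rfl
    | some n => simp [mkI, hx n rfl, hxk n rfl]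
  have hxs : stp C k 0 (MI.up x (Sum.inl (some (v, false))) 0) = some 0 := by
    cases x with
    | none => rfl
    | some n => simp [stp, hxk n rfl]
  have hxa : ∀ l, alive k (MI.up x (Sum.inl (some (v, false))) 0 :: l) = alive k l := by
    intro l
    cases x with
    | none => rfl
    | some n => simp [alive, hxk n rfl]
  have s1 : ∀ y j, stp C k 0 (MI.up (some k) y j) = some 1 := by intro y j; simp [stp]
  have s2 : stp C k 1 (MI.ret k) = some 3 := by simp [stp]
  obtain ⟨e', e1, e2, e3, e4⟩ := conv h C k hC hF (by
      rw [scan_append, a4]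
      simp only [scan, hxs, s1, s2, b5, Option.bind_some]) (vl C A + 1) (vl C B) (by
      rw [List.flatMap_append, List.flatMap_cons, List.flatMap_cons, List.flatMap_cons, a3, b3, hxm,
        bira_repS]
      simp [mkI])
  have hal : alive k (A ++ MI.up x (Sum.inl (some (v, false))) 0 ::
      MI.up (some k) (Sum.inl (some (v, true))) 0 :: MI.ret k :: B) = 1 := by
    rw [alive_append, a6, hxa]
    have : ∀ y j l, alive k (MI.up (some k) y j :: MI.ret k :: l) = alive k l + 1 := by
      intro y j l; simp [alive]
    rw [this, b6]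
  rw [hal] at e2
  refine bira_step (N := vl C A + 1 + vl C B) β [Gen.born (vl C A + 1), Gen.cross (vl C A) true] e'
    _ _ rfl rfl e1 e2 ?_ ?_
  · have hw : clo (vl C A + 1 + vl C B)
        (wd β ++ (Gen.cup (vl C A + 1) true :: Gen.cross (vl C A) true :: f C)) =
        cups (vl C A + 1 + vl C B) ++ (wd β ++ (Gen.cup (vl C A + 1) true ::
          Gen.cross (vl C A) true :: (f C ++ caps (vl C A + 1 + vl C B)))) := by
      simp [clo]
    rw [hw]
    apply add_cups
    apply add_wd false _ β hβ
    have hs : List.replicate (vl C A + 1 + vl C B) (Sum.inl true : Bool ⊕ ℕ) =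
        List.replicate (vl C A + 1) (Sum.inl true) ++ List.replicate (vl C B) (Sum.inl true) :=
      List.replicate_add ..
    rw [hs, List.append_assoc]
    have hc := Add.acup₁ (ov := false) (List.replicate (vl C A + 1) (Sum.inl true))
      (List.replicate (vl C B) (Sum.inl true) ++
        List.replicate (vl C A + 1 + vl C B) (Sum.inl false)) 0
      ([Gen.born (vl C A + 1), Gen.cross (vl C A) true] ++ e')
      (Gen.cross (vl C A) true :: (f C ++ caps (vl C A + 1 + vl C B))) ?_
    · rw [List.length_replicate] at hc
      exact hc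
    · refine bira_lb ?_
      rw [bira_repS]
      refine bira_lc ?_
      rw [bira_StU, bira_StUc, bira_StUc, a1, b1] at e3
      simpa [lnU, hk] using e3
  · have hw : clo (vl C A + 1 + vl C B + 1) (wd (β.map (insL (vl C A + 1))) ++
        (fw (vl C A) [] 1 ++ f (Function.update C k true))) =
        cups (vl C A + 1 + vl C B + 1) ++ (wd (β.map (insL (vl C A + 1))) ++
          (Gen.cross (vl C A) true :: (f (Function.update C k true) ++
            caps (vl C A + 1 + vl C B + 1)))) := by
      simp [clo, fw]
    rw [hw]
    apply add_cups_arc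
    apply add_ins _ _ β hβ
    refine bira_lb ?_
    rw [bira_repS]
    refine bira_lc ?_
    rw [bira_StC, bira_StCc, bira_StCc, a2, b2] at e4
    simpa [lnC, hk] using e4

theorem birR_jump {O : Code V} (A B : List (MI V O.loops)) (v : V)
    (F : List (Nm V O.loops)) (T : List (Tok V O.loops)) (f : (Nm V O.loops → Bool) → List Gen)
    (h : MW O (A ++ MI.up (some (Sum.inl (v, true))) (Sum.inl (some (v, false))) 0 ::
      MI.up none (Sum.inl (some (v, true))) 0 :: MI.ret (Sum.inl (v, true)) :: B) F T f)
    (C : Nm V O.loops → Bool) (hC : C (Sum.inl (v, true)) = false)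
    (hF : ∀ n ∈ F, C n = false ∧ n ≠ Sum.inl (v, true)) (hA : pres C A) (hB : pres C B)
    (β : List Ltr) (hβ : ∀ l ∈ β, l.1 + l.2.1.length + 1 < vl C A + 1 + vl C B) :
    Step (clo (vl C A + 1 + vl C B)
        (wd β ++ (Gen.cup (vl C A + 1) true :: Gen.cross (vl C A) true :: f C)))
      (clo (vl C A + 1 + vl C B + 1) (wd (β.map (insL (vl C A))) ++
        f (Function.update C (Sum.inl (v, true)) true))) := by
  set k : Nm V O.loops := Sum.inl (v, true) with hk
  obtain ⟨a1, a2, a3, a4, a5, a6⟩ := pres_facts C k hC A hA
  obtain ⟨b1, b2, b3, b4, b5, b6⟩ := pres_facts C k hC B hB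
  have hN : vl C A + (1 + vl C B) = vl C A + 1 + vl C B := by omega
  have hrep : ∀ (y : Bool), List.replicate (1 + vl C B) (Sum.inl y : Bool ⊕ ℕ) =
      Sum.inl y :: List.replicate (vl C B) (Sum.inl y) := by
    intro y
    rw [Nat.add_comm, List.replicate_succ]
  have s1 : ∀ y j, stp C k 0 (MI.up (some k) y j) = some 1 := by intro y j; simp [stp]
  have s2 : stp C k 1 (MI.ret k) = some 3 := by simp [stp]
  have s3 : ∀ y j, stp C k 1 (MI.up none y j) = some 1 := fun _ _ => rfl
  obtain ⟨e', e1, e2, e3, e4⟩ := conv h C k hC hF (by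
      rw [scan_append, a4]
      simp only [scan, s1, s2, s3, b5, Option.bind_some]) (vl C A) (1 + vl C B) (by
      rw [List.flatMap_append, List.flatMap_cons, List.flatMap_cons, List.flatMap_cons, a3, b3]
      rw [Nat.add_comm 1, List.replicate_succ]
      simp [mkI])
  have hal : alive k (A ++ MI.up (some k) (Sum.inl (some (v, false))) 0 ::
      MI.up none (Sum.inl (some (v, true))) 0 :: MI.ret k :: B) = 1 := by
    rw [alive_append, a6]
    have : ∀ y j y' j' l, alive k (MI.up (some k) y j :: MI.up none y' j' :: MI.ret k :: l) =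
        alive k l + 1 := by
      intro y j y' j' l; simp [alive]
    rw [this, b6]
  rw [hal] at e2
  rw [hN] at e3 e4
  refine bira_step (N := vl C A + 1 + vl C B) β [Gen.born (vl C A)] e'
    _ _ rfl rfl e1 e2 ?_ ?_
  · have hw : clo (vl C A + 1 + vl C B)
        (wd β ++ (Gen.cup (vl C A + 1) true :: Gen.cross (vl C A) true :: f C)) =
        cups (vl C A + 1 + vl C B) ++ (wd β ++ (Gen.cup (vl C A + 1) true ::
          Gen.cross (vl C A) true :: (f C ++ caps (vl C A + 1 + vl C B)))) := by
      simp [clo]
    rw [hw]
    apply add_cups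
    apply add_wd false _ β hβ
    have hs : List.replicate (vl C A + 1 + vl C B) (Sum.inl true : Bool ⊕ ℕ) =
        List.replicate (vl C A + 1) (Sum.inl true) ++ List.replicate (vl C B) (Sum.inl true) :=
      List.replicate_add ..
    rw [hs, List.append_assoc]
    have hc := Add.acup₁ (ov := false) (List.replicate (vl C A + 1) (Sum.inl true))
      (List.replicate (vl C B) (Sum.inl true) ++
        List.replicate (vl C A + 1 + vl C B) (Sum.inl false)) 0
      ([Gen.born (vl C A)] ++ e')
      (Gen.cross (vl C A) true :: (f C ++ caps (vl C A + 1 + vl C B))) ?_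
    · rw [List.length_replicate] at hc
      exact hc
    · rw [bira_repS]
      have hl := Add.left (ov := false) (List.replicate (vl C A) (Sum.inl true))
        (Sum.inr 1 :: (List.replicate (vl C B) (Sum.inl true) ++
          List.replicate (vl C A + 1 + vl C B) (Sum.inl false))) 1
        ([Gen.born (vl C A)] ++ e') (f C ++ caps (vl C A + 1 + vl C B)) ?_
      · rw [List.length_replicate] at hl
        exact hl
      · refine bira_lb ?_
        rw [bira_StU, bira_StUc, bira_StUc, a1, b1] at e3
        simpa [lnU, hk] using e3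
  · have hw : clo (vl C A + 1 + vl C B + 1) (wd (β.map (insL (vl C A))) ++
        f (Function.update C k true)) =
        cups (vl C A + 1 + vl C B + 1) ++ (wd (β.map (insL (vl C A))) ++
          (f (Function.update C k true) ++ caps (vl C A + 1 + vl C B + 1))) := by
      simp [clo]
    rw [hw, ← hN]
    apply add_cups_arc
    apply add_ins _ _ β (by rw [hN]; exact hβ)
    refine bira_lb ?_
    rw [hN]
    rw [bira_StC, bira_StCc, bira_StCc, a2, b2] at e4
    simpa [lnC, hk, hrep] using e4

end Pool.Agent.H53.SQ
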