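import Pool.Agent.H53.SQ.BIRA

/-!
# Module BIRB: conversion of a circle whose return strand is on the left, and of a root circle

Let `p = vl C A`, `k` the new circle, `N = p + 1 + vl C B` (number of strands before the birth). We
apply `Step.pass false e`: both words arise from one open word `e` by adding an under-arc for `k`.
Facts for a list `A` with `pres C A` (and `C k = false`, so no item is named `k`):
`StU C k A = StC C k A = replicate (vl C A) (inl true)`, `A.flatMap (mkI C k) = replicate (vl C A) false`,
`scan C k 0 A = some 0`, `scan C k 3 A = some 3`, `alive k A = 0` (see `pres_facts`).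
Apply `conv` to the frontier after the birth; it gives `e'` with `countP isBorn = 0`,
`countP isDie = 1`.

* `birL_post`: frontier `A, ret k, up k, up x, B`; `conv` with `a = p`, `b = 1 + vl C B`.
  `e = cups N ++ (wd β ++ (born p :: cross p true :: e'))`.
  First word: `Add.acup₂ .. 0` at position `p` (strands `inr 1, inr 2`), `Add.born`, `Add.cross` (position
  `p + 1` in the word, `p` in `e`). Second word: `add_cups_arc p (1 + vl C B)`,
  `add_ins p (1 + vl C B)`, `Add.born`, `Add.cross` at `p`.
* `birL_jump`: frontier `A, ret k, up none, up k, B`; `conv` with `a = p + 1`, `b = vl C B`.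
  `e = cups N ++ (wd β ++ (born p :: cross p true :: e'))`.
  First word: as in `birL_post`. Second word: `add_cups_arc (p+1) (vl C B)`,
  `add_ins (p+1) (vl C B)`, `Add.left` at `p` (sign `true`; state `.. inr 2, inl true ..`), `Add.born`,
  `Add.cross` at `p`; note `fw p [] 2 = [cross p true, cross p true]`.
* `bir_fr`: frontier `up k, ret k, ms`; `conv` with `a = 0`, `b = vl C ms`;
  `e = cups (vl C ms) ++ (wd β ++ (born 0 :: e'))`; first word: `Add.acup₁ [] _ 0`, `Add.born`;
  second word: `add_cups_arc 0 (vl C ms)`, `add_ins 0 (vl C ms)`, `Add.born`.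
-/

namespace Pool.Agent.H53.SQ

variable {V : Type} [DecidableEq V]

theorem BIRB_rep {α : Type} (p q : ℕ) (x : α) (R : List α) :
    List.replicate p x ++ x :: (List.replicate q x ++ R) = List.replicate (p + 1 + q) x ++ R := by
  rw [List.replicate_add, List.replicate_add]
  simp

theorem BIRB_first (p q N : ℕ) (hN : N = p + 1 + q) (β : List Ltr)
    (hβ : ∀ l ∈ β, l.1 + l.2.1.length + 1 < N) (e' w' : List Gen)
    (h : Add false (List.replicate p (Sum.inl true) ++ (Sum.inr 1 :: Sum.inl true :: Sum.inl true ::
      (List.replicate q (Sum.inl true) ++ List.replicate N (Sum.inl false)))) e' w') :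
    Add false [] (cups N ++ (wd β ++ (Gen.born p :: Gen.cross p true :: e')))
      (cups N ++ (wd β ++ (Gen.cup p false :: Gen.cross (p + 1) true :: w'))) := by
  have h1 := Add.cross (ov := false) (List.replicate p (Sum.inl true) ++ [Sum.inr 1])
    (List.replicate q (Sum.inl true) ++ List.replicate N (Sum.inl false)) true e' w' (by simpa using h)
  have h2 := Add.born (ov := false) (List.replicate p (Sum.inl true) ++ [Sum.inr 1])
    (Sum.inl true :: (List.replicate q (Sum.inl true) ++ List.replicate N (Sum.inl false))) 1 _ _ h1
  have h3 := Add.acup₂ (ov := false) (List.replicate p (Sum.inl true))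
    (Sum.inl true :: (List.replicate q (Sum.inl true) ++ List.replicate N (Sum.inl false))) 0 _ _
    (by simpa using h2)
  have hoc : ∀ n : ℕ, openCount (List.replicate n (Sum.inl true)) = n := by
    intro n
    induction n with
    | zero => rfl
    | succ n ih => rw [List.replicate_succ, openCount, ih]
  have hoc1 : openCount (List.replicate p (Sum.inl true) ++ [Sum.inr 1]) = p := by
    rw [openCount_append, hoc]; rfl
  rw [BIRB_rep, ← hN] at h3
  have h4 := add_wd false N β hβ _ _ _ h3
  have h5 := add_cups false N _ _ h4
  simpa [hoc1, hoc] using h5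

theorem BIRB_openCount_replicate (n : ℕ) : openCount (List.replicate n (Sum.inl true)) = n := by
  induction n with
  | zero => rfl
  | succ n ih => rw [List.replicate_succ, openCount, ih]

theorem birL_post {O : Code V} (A B : List (MI V O.loops)) (x : Option (Nm V O.loops)) (v : V)
    (F : List (Nm V O.loops)) (T : List (Tok V O.loops)) (f : (Nm V O.loops → Bool) → List Gen)
    (h : MW O (A ++ MI.ret (Sum.inl (v, false)) ::
      MI.up (some (Sum.inl (v, false))) (Sum.inl (some (v, false))) 0 ::
        MI.up x (Sum.inl (some (v, true))) 0 :: B) F T f)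
    (C : Nm V O.loops → Bool) (hC : C (Sum.inl (v, false)) = false)
    (hF : ∀ n ∈ F, C n = false ∧ n ≠ Sum.inl (v, false)) (hA : pres C A) (hB : pres C B)
    (hx : ∀ n, x = some n → C n = true) (β : List Ltr)
    (hβ : ∀ l ∈ β, l.1 + l.2.1.length + 1 < vl C A + 1 + vl C B) :
    Step (clo (vl C A + 1 + vl C B)
        (wd β ++ (Gen.cup (vl C A) false :: Gen.cross (vl C A + 1) true :: f C)))
      (clo (vl C A + 1 + vl C B + 1) (wd (β.map (insL (vl C A))) ++
        (fw (vl C A) [] 1 ++ f (Function.update C (Sum.inl (v, false)) true)))) := by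
  obtain ⟨a1, a2, a3, a4, a5, a6⟩ := pres_facts C (Sum.inl (v, false)) hC A hA
  obtain ⟨b1, b2, b3, b4, b5, b6⟩ := pres_facts C (Sum.inl (v, false)) hC B hB
  set k : Nm V O.loops := Sum.inl (v, false) with hk
  set p := vl C A with hp
  set q := vl C B with hq
  have hxs : stp C k 3 (MI.up x (Sum.inl (some (v, true))) 0) = some 3 := by
    rcases x with _ | n
    · rfl
    · have hn : n ≠ k := by
        rintro rfl
        rw [hx _ rfl] at hC
        exact absurd hC (by simp)
      simp [stp, hn]
  have hxm : mkI C k (MI.up x (Sum.inl (some (v, true))) 0) = [false] := by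
    rcases x with _ | n
    · rfl
    · have hn : n ≠ k := by
        rintro rfl
        rw [hx _ rfl] at hC
        exact absurd hC (by simp)
      simp [mkI, hn, hx n rfl]
  have hxa : alive k (MI.up x (Sum.inl (some (v, true))) 0 :: B) = 0 := by
    rcases x with _ | n
    · simpa [alive] using b6
    · have hn : n ≠ k := by
        rintro rfl
        rw [hx _ rfl] at hC
        exact absurd hC (by simp)
      simpa [alive, hn] using b6
  obtain ⟨e', he1, he2, hU, hCc⟩ := conv h C k hC hF (by
      rw [scan_append, a4]
      simp only [Option.bind_some, scan]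
      have h1 : stp C k 0 (MI.ret k) = some 2 := by simp [stp]
      have h2 : stp C k 2 (MI.up (some k) (Sum.inl (some (v, false))) 0) = some 3 := by simp [stp]
      rw [h1]
      simp only [Option.bind_some]
      rw [h2]
      simp only [Option.bind_some]
      rw [hxs]
      simp only [Option.bind_some]
      exact b5) p (1 + q) (by
      rw [List.flatMap_append, a3, List.flatMap_cons, List.flatMap_cons, List.flatMap_cons, hxm, b3]
      simp [mkI, Nat.add_comm 1 q, List.replicate_succ])
  have hU' : StU C k (A ++ MI.ret k :: MI.up (some k) (Sum.inl (some (v, false))) 0 ::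
        MI.up x (Sum.inl (some (v, true))) 0 :: B) =
      List.replicate p (Sum.inl true) ++ (Sum.inr 1 :: Sum.inl true :: Sum.inl true ::
        List.replicate q (Sum.inl true)) := by
    unfold StU at a1 b1 ⊢
    rw [List.flatMap_append, a1, List.flatMap_cons, List.flatMap_cons, List.flatMap_cons, b1]
    simp [lnU]
  have hC' : StC C k (A ++ MI.ret k :: MI.up (some k) (Sum.inl (some (v, false))) 0 ::
        MI.up x (Sum.inl (some (v, true))) 0 :: B) =
      List.replicate p (Sum.inl true) ++ (Sum.inl true :: Sum.inl true ::
        List.replicate q (Sum.inl true)) := by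
    unfold StC at a2 b2 ⊢
    rw [List.flatMap_append, a2, List.flatMap_cons, List.flatMap_cons, List.flatMap_cons, b2]
    simp [lnC]
  rw [hU'] at hU
  rw [hC'] at hCc
  have hN : p + (1 + q) = p + 1 + q := by omega
  rw [hN] at hU hCc
  have hfirst := BIRB_first p q (p + 1 + q) rfl β hβ e' (f C ++ caps (p + 1 + q))
    (by simpa using hU)
  -- second word
  have s1 := Add.cross (ov := false) (List.replicate p (Sum.inl true))
    (List.replicate q (Sum.inl true) ++
      (List.replicate (1 + q) (Sum.inl false) ++ Sum.inr 1 :: List.replicate p (Sum.inl false))) true e'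
      (f (Function.update C k true) ++ caps (p + 1 + q + 1)) (by simpa using hCc)
  have s2 := Add.born (ov := false) (List.replicate p (Sum.inl true)) _ 1 _ _ s1
  have s3 := add_ins p (1 + q) β (fun l hl => by have := hβ l hl; omega)
    (List.replicate (1 + q) (Sum.inl false) ++ Sum.inr 1 :: List.replicate p (Sum.inl false)) _ _
    (by simpa [Nat.add_comm 1 q, List.replicate_succ] using s2)
  have s4 := add_cups_arc false p (1 + q) _ _ s3
  rw [hN] at s4
  refine Step.pass false (cups (p + 1 + q) ++ (wd β ++ (Gen.born p :: Gen.cross p true :: e'))) _ _ ?_ ?_ ?_ ?_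
  · simp [List.countP_append, List.countP_cons, Gen.isBorn, he1, (countP_cups _).1, (countP_wd _).1]
  · have : alive k (A ++ MI.ret k :: MI.up (some k) (Sum.inl (some (v, false))) 0 ::
        MI.up x (Sum.inl (some (v, true))) 0 :: B) = 1 := by
      rw [alive_append, a6]
      simp [alive, hxa]
    simp [List.countP_append, Gen.isDie, he2, (countP_cups _).2, (countP_wd _).2, this]
  · simpa [clo] using hfirst
  · simpa [clo, fw, BIRB_openCount_replicate, List.replicate_succ] using s4

theorem birL_jump {O : Code V} (A B : List (MI V O.loops)) (v : V)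
    (F : List (Nm V O.loops)) (T : List (Tok V O.loops)) (f : (Nm V O.loops → Bool) → List Gen)
    (h : MW O (A ++ MI.ret (Sum.inl (v, false)) :: MI.up none (Sum.inl (some (v, false))) 0 ::
      MI.up (some (Sum.inl (v, false))) (Sum.inl (some (v, true))) 0 :: B) F T f)
    (C : Nm V O.loops → Bool) (hC : C (Sum.inl (v, false)) = false)
    (hF : ∀ n ∈ F, C n = false ∧ n ≠ Sum.inl (v, false)) (hA : pres C A) (hB : pres C B)
    (β : List Ltr) (hβ : ∀ l ∈ β, l.1 + l.2.1.length + 1 < vl C A + 1 + vl C B) :
    Step (clo (vl C A + 1 + vl C B)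
        (wd β ++ (Gen.cup (vl C A) false :: Gen.cross (vl C A + 1) true :: f C)))
      (clo (vl C A + 1 + vl C B + 1) (wd (β.map (insL (vl C A + 1))) ++
        (fw (vl C A) [] 2 ++ f (Function.update C (Sum.inl (v, false)) true)))) := by
  obtain ⟨a1, a2, a3, a4, a5, a6⟩ := pres_facts C (Sum.inl (v, false)) hC A hA
  obtain ⟨b1, b2, b3, b4, b5, b6⟩ := pres_facts C (Sum.inl (v, false)) hC B hB
  set k : Nm V O.loops := Sum.inl (v, false) with hk
  set p := vl C A with hp
  set q := vl C B with hq
  obtain ⟨e', he1, he2, hU, hCc⟩ := conv h C k hC hF (by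
      rw [scan_append, a4]
      simp only [Option.bind_some, scan]
      have h1 : stp C k 0 (MI.ret k) = some 2 := by simp [stp]
      have h2 : stp C k 2 (MI.up none (Sum.inl (some (v, false))) 0) = some 2 := by simp [stp]
      have h3 : stp C k 2 (MI.up (some k) (Sum.inl (some (v, true))) 0) = some 3 := by simp [stp]
      rw [h1]
      simp only [Option.bind_some]
      rw [h2]
      simp only [Option.bind_some]
      rw [h3]
      simp only [Option.bind_some]
      exact b5) (p + 1) q (by
      rw [List.flatMap_append, a3, List.flatMap_cons, List.flatMap_cons, List.flatMap_cons, b3]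
      simp [mkI, List.replicate_add])
  have hU' : StU C k (A ++ MI.ret k :: MI.up none (Sum.inl (some (v, false))) 0 ::
        MI.up (some k) (Sum.inl (some (v, true))) 0 :: B) =
      List.replicate p (Sum.inl true) ++ (Sum.inr 1 :: Sum.inl true :: Sum.inl true ::
        List.replicate q (Sum.inl true)) := by
    unfold StU at a1 b1 ⊢
    rw [List.flatMap_append, a1, List.flatMap_cons, List.flatMap_cons, List.flatMap_cons, b1]
    simp [lnU]
  have hC' : StC C k (A ++ MI.ret k :: MI.up none (Sum.inl (some (v, false))) 0 ::
        MI.up (some k) (Sum.inl (some (v, true))) 0 :: B) =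
      List.replicate p (Sum.inl true) ++ (Sum.inl true :: Sum.inl true ::
        List.replicate q (Sum.inl true)) := by
    unfold StC at a2 b2 ⊢
    rw [List.flatMap_append, a2, List.flatMap_cons, List.flatMap_cons, List.flatMap_cons, b2]
    simp [lnC]
  rw [hU'] at hU
  rw [hC'] at hCc
  have hfirst := BIRB_first p q (p + 1 + q) rfl β hβ e' (f C ++ caps (p + 1 + q))
    (by simpa using hU)
  -- second word
  have s1 := Add.cross (ov := false) (List.replicate p (Sum.inl true))
    (List.replicate q (Sum.inl true) ++
      (List.replicate q (Sum.inl false) ++ Sum.inr 1 :: List.replicate (p + 1) (Sum.inl false))) true e'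
      (f (Function.update C k true) ++ caps (p + 1 + q + 1)) (by simpa using hCc)
  have s2 := Add.born (ov := false) (List.replicate p (Sum.inl true)) _ 1 _ _ s1
  have s2' := Add.left (ov := false) (List.replicate p (Sum.inl true)) _ 1 _ _ s2
  have s3 := add_ins (p + 1) q β (fun l hl => by have := hβ l hl; omega)
    (List.replicate q (Sum.inl false) ++ Sum.inr 1 :: List.replicate (p + 1) (Sum.inl false)) _ _
    (by simpa [List.replicate_add] using s2')
  have s4 := add_cups_arc false (p + 1) q _ _ s3
  refine Step.pass false (cups (p + 1 + q) ++ (wd β ++ (Gen.born p :: Gen.cross p true :: e'))) _ _ ?_ ?_ ?_ ?_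
  · simp [List.countP_append, List.countP_cons, Gen.isBorn, he1, (countP_cups _).1, (countP_wd _).1]
  · have : alive k (A ++ MI.ret k :: MI.up none (Sum.inl (some (v, false))) 0 ::
        MI.up (some k) (Sum.inl (some (v, true))) 0 :: B) = 1 := by
      rw [alive_append, a6]
      simp [alive, b6]
    simp [List.countP_append, Gen.isDie, he2, (countP_cups _).2, (countP_wd _).2, this]
  · simpa [clo] using hfirst
  · simpa [clo, fw, BIRB_openCount_replicate, List.replicate_succ] using s4

theorem bir_fr {O : Code V} (ms : List (MI V O.loops)) (n : Nm V O.loops)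
    (F : List (Nm V O.loops)) (T : List (Tok V O.loops)) (f : (Nm V O.loops → Bool) → List Gen)
    (h : MW O (MI.up (some n) (gap O n) (fpc n) :: MI.ret n :: ms) F T f)
    (C : Nm V O.loops → Bool) (hC : C n = false) (hF : ∀ n' ∈ F, C n' = false ∧ n' ≠ n)
    (hms : pres C ms) (β : List Ltr) (hβ : ∀ l ∈ β, l.1 + l.2.1.length + 1 < vl C ms) :
    Step (clo (vl C ms) (wd β ++ (Gen.cup 0 true :: f C)))
      (clo (vl C ms + 1) (wd (β.map (insL 0)) ++ f (Function.update C n true))) := by
  obtain ⟨b1, b2, b3, b4, b5, b6⟩ := pres_facts C n hC ms hms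
  set q := vl C ms with hq
  obtain ⟨e', he1, he2, hU, hCc⟩ := conv h C n hC hF (by
      simp only [scan]
      have h1 : stp C n 0 (MI.up (some n) (gap O n) (fpc n)) = some 1 := by simp [stp]
      have h2 : stp C n 1 (MI.ret n) = some 3 := by simp [stp]
      rw [h1]
      simp only [Option.bind_some]
      rw [h2]
      simp only [Option.bind_some]
      exact b5) 0 q (by
      rw [List.flatMap_cons, List.flatMap_cons, b3]
      simp [mkI])
  have hU' : StU C n (MI.up (some n) (gap O n) (fpc n) :: MI.ret n :: ms) =
      Sum.inl true :: Sum.inr 1 :: List.replicate q (Sum.inl true) := by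
    unfold StU at b1 ⊢
    rw [List.flatMap_cons, List.flatMap_cons, b1]
    simp [lnU]
  have hC' : StC C n (MI.up (some n) (gap O n) (fpc n) :: MI.ret n :: ms) =
      Sum.inl true :: List.replicate q (Sum.inl true) := by
    unfold StC at b2 ⊢
    rw [List.flatMap_cons, List.flatMap_cons, b2]
    simp [lnC]
  rw [hU'] at hU
  rw [hC'] at hCc
  have f1 := Add.born (ov := false) [] (Sum.inr 1 :: (List.replicate q (Sum.inl true) ++
    List.replicate q (Sum.inl false))) 1 e' (f C ++ caps q) (by simpa using hU)
  have f2 := Add.acup₁ (ov := false) [] (List.replicate q (Sum.inl true) ++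
    List.replicate q (Sum.inl false)) 0 _ _ (by simpa using f1)
  have f3 := add_wd false q β hβ _ _ _ f2
  have f4 := add_cups false q _ _ f3
  have s1 := Add.born (ov := false) [] (List.replicate q (Sum.inl true) ++
    (List.replicate q (Sum.inl false) ++ Sum.inr 1 :: List.replicate 0 (Sum.inl false))) 1 e'
    (f (Function.update C n true) ++ caps (0 + q + 1)) (by simpa using hCc)
  have s2 := add_ins 0 q β (fun l hl => by have := hβ l hl; omega)
    (List.replicate q (Sum.inl false) ++ Sum.inr 1 :: List.replicate 0 (Sum.inl false)) _ _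
    (by simpa using s1)
  have s3 := add_cups_arc false 0 q _ _ (by simpa using s2)
  refine Step.pass false (cups q ++ (wd β ++ (Gen.born 0 :: e'))) _ _ ?_ ?_ ?_ ?_
  · simp [List.countP_append, List.countP_cons, Gen.isBorn, he1, (countP_cups _).1, (countP_wd _).1]
  · have : alive n (MI.up (some n) (gap O n) (fpc n) :: MI.ret n :: ms) = 1 := by
      simp [alive, b6]
    simp [List.countP_append, Gen.isDie, he2, (countP_cups _).2, (countP_wd _).2, this]
  · simpa [clo, openCount] using f4
  · simpa [clo, openCount] using s3

end Pool.Agent.H53.SQ
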