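import Pool.Agent.H53.SQ.Base

/-!
# Module BRAA: conjugating the strand `P` to the last place (pure group theory)

`bw i D m` is the braid word of the band `fw i D m`; `Wp n P = σ_P σ_(P+1) ... σ_(n-2)`
(0-based indices). Write `j = i + 1 + D.length` for the right end of the band, `a(i,j)` for the value of
`aWord i j`, i.e. `(s_i ... s_(j-2)) s_(j-1) (s_i ... s_(j-2))⁻¹`.
If all flags are `true`, then `eval (bw i D m) = a(i,j) ^ m`. CLAIM (`band_conj`):
`W⁻¹ * eval (bw i D m) * W = a(i',j') ^ m` with `(i',j')` given by `tgt`: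
* `P > j`: `(i, j)`; all flags are `true`, all letters of `W` commute with all letters of the band.
* `P = j`: `(i, n-1)`; `s_j⁻¹ a(i,j) s_j = a(i,j+1)` because
  `s_j⁻¹ s_(j-1) s_j = s_(j-1) s_j s_(j-1)⁻¹` and `s_j` commutes with `s_i, ..., s_(j-2)`; iterate.
* `i < P < j`: `(i, j-1)`. The flag at `P` is `false`, all others are `true`:
  `eval (bw i D m) = X s_(P-1)⁻¹ Y s_(j-1)^m Y⁻¹ s_(P-1) X⁻¹`, `X = s_i ... s_(P-2)`, `Y = s_P ... s_(j-2)`.
  Show that it equals `W a(i,j-1)^m W⁻¹`: the letters `s_j, ..., s_(n-2)` of `W` commute with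
  `a(i,j-1)`; conjugation `t ↦ U t U⁻¹` by `U = s_P ... s_(j-1)` sends `s_t` to `s_(t+1)` for
  `P ≤ t ≤ j - 2`, fixes `s_t` for `t ≤ P - 2`, and sends `s_(P-1)` to `s_(P-1)⁻¹ s_P s_(P-1)`; finally
  `s_(P-1)` commutes with `s_(P+1), ..., s_(j-1)`.
* `P = i`: `(j-1, n-1)`: conjugating `a(i,j)` by `s_i ... s_(j-2)` gives `s_(j-1) = a(j-1,j)`, which
  commutes with `s_(j-1)`, and conjugating by `s_j ... s_(n-2)` gives `a(j-1,n-1)` as in the case `P = j`.
* `P < i`: `(i-1, j-1)`: `W⁻¹ s_t W = s_(t-1)` for `P < t ≤ n - 2`.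
It is convenient to prove first, by induction on the length, the formulas for the conjugation of a
single generator by `s_P ... s_(r-1)` (a product over `List.range`).
-/

namespace Pool.Agent.H53.SQ

/-- braid word of a band -/
def bw : ℕ → List Bool → ℕ → List (ℕ × Bool)
  | i, [], m => List.replicate m (i, true)
  | i, f :: D, m => (i, f) :: (bw (i + 1) D m ++ [(i, !f)])

def Wp (n P : ℕ) : List (ℕ × Bool) := (List.range (n - 1 - P)).map (fun t => (P + t, true))

/-- the ends of the band after moving the strand `P` to the last place -/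
def tgt (n P : ℕ) (i j : ℕ) : ℕ × ℕ :=
  if j < P then (i, j) else if j = P then (i, n - 1) else if i < P then (i, j - 1)
  else if i = P then (j - 1, n - 1) else (i - 1, j - 1)

theorem tgt_lt (n P i j : ℕ) (hP : P < n) (hij : i < j) (hj : j < n) :
    (tgt n P i j).1 < (tgt n P i j).2 ∧ (tgt n P i j).2 < n := by
  unfold tgt
  split_ifs <;> simp only <;> omega

section braa
variable {G : Type} [Group G] (s : ℕ → G)

lemma braa_eval_append (u v : List (ℕ × Bool)) : eval s (u ++ v) = eval s u * eval s v := by
  unfold eval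
  rw [List.map_append, List.prod_append]

lemma braa_eval_cons (p : ℕ × Bool) (v : List (ℕ × Bool)) :
    eval s (p :: v) = (if p.2 then s p.1 else (s p.1)⁻¹) * eval s v := by
  unfold eval
  rw [List.map_cons, List.prod_cons]

lemma braa_eval_nil : eval s [] = 1 := rfl

lemma braa_eval_single (p : ℕ × Bool) : eval s [p] = (if p.2 then s p.1 else (s p.1)⁻¹) := by
  rw [braa_eval_cons, braa_eval_nil, mul_one]

/-- `s_a s_(a+1) ... s_(a+k-1)` -/
def braaPr : ℕ → ℕ → G
  | _, 0 => 1
  | a, k + 1 => s a * braaPr (a + 1) k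

/-- the band generator of the strands `i`, `i + 1 + k` -/
def braaAw : ℕ → ℕ → G
  | i, 0 => s i
  | i, k + 1 => s i * braaAw (i + 1) k * (s i)⁻¹

lemma braa_pr_add (a k l : ℕ) : braaPr s a (k + l) = braaPr s a k * braaPr s (a + k) l := by
  induction k generalizing a with
  | zero => simp [braaPr]
  | succ k ih =>
    have h1 : k + 1 + l = (k + l) + 1 := by ring
    rw [h1]
    simp only [braaPr]
    rw [ih, mul_assoc]
    have h2 : a + 1 + k = a + (k + 1) := by ring
    rw [h2]

lemma braa_aw_eq (i k : ℕ) : braaAw s i k = braaPr s i k * s (i + k) * (braaPr s i k)⁻¹ := by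
  induction k generalizing i with
  | zero => simp [braaPr, braaAw]
  | succ k ih =>
    simp only [braaPr, braaAw]
    rw [ih]
    have h2 : i + 1 + k = i + (k + 1) := by ring
    rw [h2]
    group

lemma braa_eval_range (a k : ℕ) : eval s ((List.range k).map (fun t => (a + t, true))) = braaPr s a k := by
  induction k generalizing a with
  | zero => rfl
  | succ k ih =>
    rw [List.range_succ_eq_map, List.map_cons, braa_eval_cons, List.map_map]
    simp only [braaPr]
    rw [← ih (a + 1)]
    have : ((fun t => (a + t, true)) ∘ Nat.succ : ℕ → ℕ × Bool) = fun t => (a + 1 + t, true) := by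
      funext t
      simp only [Function.comp_apply, Prod.mk.injEq, and_true]
      omega
    rw [this]
    simp

lemma braa_eval_rev (a k : ℕ) : eval s ((List.range k).reverse.map (fun t => (a + t, false))) =
    (braaPr s a k)⁻¹ := by
  induction k generalizing a with
  | zero => simp [braaPr, eval]
  | succ k ih =>
    rw [List.range_succ_eq_map, List.reverse_cons, List.map_append, braa_eval_append]
    simp only [braaPr, mul_inv_rev]
    rw [← ih (a + 1)]
    rw [← List.map_reverse, List.map_map]
    have : ((fun t => (a + t, false)) ∘ Nat.succ : ℕ → ℕ × Bool) = fun t => (a + 1 + t, false) := by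
      funext t
      simp only [Function.comp_apply, Prod.mk.injEq, and_true]
      omega
    rw [this]
    simp [braa_eval_single]

lemma braa_eval_aWord (i j : ℕ) (h : i < j) : eval s (aWord i j) = braaAw s i (j - 1 - i) := by
  unfold aWord
  rw [braa_eval_append, braa_eval_append, braa_eval_range, braa_eval_rev, braa_aw_eq, braa_eval_single]
  have : i + (j - 1 - i) = j - 1 := by omega
  rw [this]
  rfl

lemma braa_eval_bw_nil (i m : ℕ) : eval s (bw i [] m) = s i ^ m := by
  unfold bw eval
  rw [List.map_replicate, List.prod_replicate]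
  rfl

lemma braa_eval_bw_cons (i m : ℕ) (f : Bool) (D : List Bool) : eval s (bw i (f :: D) m) =
    (if f then s i else (s i)⁻¹) * eval s (bw (i + 1) D m) * (if f then s i else (s i)⁻¹)⁻¹ := by
  rw [bw, braa_eval_cons, braa_eval_append, braa_eval_single]
  cases f <;> simp [mul_assoc]

/-- all flags `true` -/
lemma braa_bw_true (i m : ℕ) (D : List Bool) (hD : ∀ (t : ℕ) (h : t < D.length), D[t] = true) :
    eval s (bw i D m) = braaAw s i D.length ^ m := by
  induction D generalizing i with
  | nil => rw [braa_eval_bw_nil]; rfl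
  | cons f D ih =>
    have hf : f = true := hD 0 (by simp)
    subst hf
    rw [braa_eval_bw_cons, ih (i + 1) (by
      intro t h
      have := hD (t + 1) (by simpa using h)
      simpa using this)]
    simp only [List.length_cons, braaAw, if_true]
    rw [conj_pow]

variable (n : ℕ) (hcomm : ∀ i j, i + 2 ≤ j → j + 1 < n → s i * s j = s j * s i)
  (hbraid : ∀ i, i + 2 < n → s i * s (i + 1) * s i = s (i + 1) * s i * s (i + 1))

include hcomm in
lemma braa_comm_lt (t a k : ℕ) (h : t + 2 ≤ a) (hk : a + k < n) : Commute (s t) (braaPr s a k) := by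
  induction k generalizing a with
  | zero => exact Commute.one_right _
  | succ k ih =>
    exact Commute.mul_right (hcomm t a h (by omega)) (ih (a + 1) (by omega) (by omega))

include hcomm in
lemma braa_comm_gt (t a k : ℕ) (h : a + k + 1 ≤ t) (ht : t + 1 < n) : Commute (s t) (braaPr s a k) := by
  induction k generalizing a with
  | zero => exact Commute.one_right _
  | succ k ih =>
    exact Commute.mul_right (hcomm a t (by omega) ht).symm (ih (a + 1) (by omega))

include hcomm hbraid in
lemma braa_shift (P k t : ℕ) (h1 : P < t) (h2 : t < P + k) (hk : P + k < n) :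
    s t * braaPr s P k = braaPr s P k * s (t - 1) := by
  induction k generalizing P with
  | zero => omega
  | succ k ih =>
    by_cases ht : t = P + 1
    · subst ht
      obtain ⟨k, rfl⟩ : ∃ k', k = k' + 1 := ⟨k - 1, by omega⟩
      simp only [braaPr]
      have h3 := hbraid P (by omega)
      have h4 : Commute (s P) (braaPr s (P + 1 + 1) k) := braa_comm_lt s n hcomm P (P + 1 + 1) k (by omega) (by omega)
      have h5 : P + 1 - 1 = P := rfl
      rw [h5]
      calc s (P + 1) * (s P * (s (P + 1) * braaPr s (P + 1 + 1) k))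
          = (s (P + 1) * s P * s (P + 1)) * braaPr s (P + 1 + 1) k := by group
        _ = (s P * s (P + 1) * s P) * braaPr s (P + 1 + 1) k := by rw [h3]
        _ = s P * s (P + 1) * (s P * braaPr s (P + 1 + 1) k) := by group
        _ = s P * s (P + 1) * (braaPr s (P + 1 + 1) k * s P) := by rw [h4.eq]
        _ = s P * (s (P + 1) * braaPr s (P + 1 + 1) k) * s P := by group
    · simp only [braaPr]
      have h3 := ih (P + 1) (by omega) (by omega) (by omega)
      have h4 := hcomm P t (by omega) (by omega)
      rw [← mul_assoc, ← h4, mul_assoc, h3, mul_assoc]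

include hcomm hbraid in
/-- the main formula -/
lemma braa_F (i k : ℕ) (hk : i + 1 + k < n) :
    (braaPr s (i + 1) k)⁻¹ * s i * braaPr s (i + 1) k = braaAw s i k := by
  induction k generalizing i with
  | zero => simp [braaPr, braaAw]
  | succ k ih =>
    simp only [braaPr, braaAw]
    have h1 := ih (i + 1) (by omega)
    rw [← h1]
    have h3 := hbraid i (by omega)
    have h4 : Commute (s i) (braaPr s (i + 1 + 1) k) := braa_comm_lt s n hcomm i (i + 1 + 1) k (by omega) (by omega)
    have h5 : (s (i + 1))⁻¹ * s i * s (i + 1) = s i * s (i + 1) * (s i)⁻¹ := by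
      rw [eq_mul_inv_iff_mul_eq, mul_assoc, mul_assoc, inv_mul_eq_iff_eq_mul]
      rw [← mul_assoc, ← mul_assoc]
      exact h3
    have h6 : (braaPr s (i + 1 + 1) k)⁻¹ * s i = s i * (braaPr s (i + 1 + 1) k)⁻¹ := (h4.inv_right.eq).symm
    have h7 : (s i)⁻¹ * braaPr s (i + 1 + 1) k = braaPr s (i + 1 + 1) k * (s i)⁻¹ := h4.inv_left.eq
    calc (s (i + 1) * braaPr s (i + 1 + 1) k)⁻¹ * s i * (s (i + 1) * braaPr s (i + 1 + 1) k)
        = (braaPr s (i + 1 + 1) k)⁻¹ * ((s (i + 1))⁻¹ * s i * s (i + 1)) * braaPr s (i + 1 + 1) k := by group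
      _ = (braaPr s (i + 1 + 1) k)⁻¹ * (s i * s (i + 1) * (s i)⁻¹) * braaPr s (i + 1 + 1) k := by rw [h5]
      _ = ((braaPr s (i + 1 + 1) k)⁻¹ * s i) * s (i + 1) * ((s i)⁻¹ * braaPr s (i + 1 + 1) k) := by group
      _ = (s i * (braaPr s (i + 1 + 1) k)⁻¹) * s (i + 1) * (braaPr s (i + 1 + 1) k * (s i)⁻¹) := by rw [h6, h7]
      _ = s i * ((braaPr s (i + 1 + 1) k)⁻¹ * s (i + 1) * braaPr s (i + 1 + 1) k) * (s i)⁻¹ := by group

lemma braa_map_pr (φ : G →* G) (i k : ℕ) : φ (braaPr s i k) = braaPr (fun t => φ (s t)) i k := by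
  induction k generalizing i with
  | zero => simp [braaPr]
  | succ k ih => simp only [braaPr, map_mul, ih]

lemma braa_map_aw (φ : G →* G) (i k : ℕ) : φ (braaAw s i k) = braaAw (fun t => φ (s t)) i k := by
  induction k generalizing i with
  | zero => simp [braaAw]
  | succ k ih => simp only [braaAw, map_mul, map_inv, ih]

lemma braa_congr_pr (s' : ℕ → G) (i k : ℕ) (h : ∀ t, i ≤ t → t < i + k → s t = s' t) :
    braaPr s i k = braaPr s' i k := by
  induction k generalizing i with
  | zero => simp [braaPr]
  | succ k ih =>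
    simp only [braaPr]
    rw [h i (by omega) (by omega), ih (i + 1) (fun t h1 h2 => h t (by omega) (by omega))]

lemma braa_congr_aw (s' : ℕ → G) (i k : ℕ) (h : ∀ t, i ≤ t → t ≤ i + k → s t = s' t) :
    braaAw s i k = braaAw s' i k := by
  induction k generalizing i with
  | zero => simp [braaAw, h i le_rfl le_rfl]
  | succ k ih =>
    simp only [braaAw]
    rw [h i (by omega) (by omega), ih (i + 1) (fun t h1 h2 => h t (by omega) (by omega))]

lemma braa_shift_pr (i k : ℕ) : braaPr (fun t => s (t - 1)) (i + 1) k = braaPr s i k := by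
  induction k generalizing i with
  | zero => simp [braaPr]
  | succ k ih =>
    simp only [braaPr]
    rw [ih (i + 1)]
    rfl

lemma braa_shift_aw (i k : ℕ) : braaAw (fun t => s (t - 1)) (i + 1) k = braaAw s i k := by
  induction k generalizing i with
  | zero => simp [braaAw]
  | succ k ih =>
    simp only [braaAw]
    rw [ih (i + 1)]
    rfl

/-- conjugation -/
def braaPhi (P : ℕ) : G →* G := (MulAut.conj (braaPr s P (n - 1 - P))⁻¹).toMonoidHom

lemma braa_phi_apply (P : ℕ) (x : G) : braaPhi s n P x = (braaPr s P (n - 1 - P))⁻¹ * x * braaPr s P (n - 1 - P) := by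
  change (MulAut.conj (braaPr s P (n - 1 - P))⁻¹) x = _
  rw [MulAut.conj_apply, inv_inv]

include hcomm in
lemma braa_phi1 (P t : ℕ) (hP : P < n) (h : t + 2 ≤ P) : braaPhi s n P (s t) = s t := by
  rw [braa_phi_apply, mul_assoc, (braa_comm_lt s n hcomm t P (n - 1 - P) h (by omega)).eq, inv_mul_cancel_left]

include hcomm hbraid in
lemma braa_phi2 (P t : ℕ) (h : P < t) (ht : t + 1 < n) : braaPhi s n P (s t) = s (t - 1) := by
  rw [braa_phi_apply, mul_assoc, braa_shift s n hcomm hbraid P (n - 1 - P) t h (by omega) (by omega),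
    inv_mul_cancel_left]

include hcomm hbraid in
lemma braa_phi3 (i : ℕ) (h : i + 1 < n) : braaPhi s n (i + 1) (s i) = braaAw s i (n - 1 - (i + 1)) := by
  rw [braa_phi_apply, braa_F s n hcomm hbraid i _ (by omega)]

include hcomm in
lemma braa_caseA (P i k : ℕ) (hP : P < n) (h : i + 1 + k < P) : braaPhi s n P (braaAw s i k) = braaAw s i k := by
  rw [braa_map_aw]
  apply braa_congr_aw
  intro t h1 h2
  exact braa_phi1 s n hcomm P t hP (by omega)

include hcomm hbraid in
lemma braa_caseB (P k : ℕ) (hP : P < n) : ∀ i, i + 1 + k = P →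
    braaPhi s n P (braaAw s i k) = braaAw s i (n - 1 - 1 - i) := by
  induction k with
  | zero =>
    intro i hi
    have hi' : P = i + 1 := by omega
    subst hi'
    simp only [braaAw]
    rw [braa_phi3 s n hcomm hbraid i (by omega)]
    congr 1
    omega
  | succ k ih =>
    intro i hi
    simp only [braaAw, map_mul, map_inv]
    rw [ih (i + 1) (by omega), braa_phi1 s n hcomm P i hP (by omega)]
    have h1 : n - 1 - 1 - i = (n - 1 - 1 - (i + 1)) + 1 := by omega
    rw [h1]
    rfl

include hcomm hbraid in
lemma braa_caseC (P m : ℕ) (hP : P < n) (D : List Bool) : ∀ i, i < P → P ≤ i + D.length → i + 1 + D.length < n →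
    (∀ (t : ℕ) (h : t < D.length), D[t] = decide (i + 1 + t ≠ P)) →
    braaPhi s n P (eval s (bw i D m)) = braaAw s i (D.length - 1) ^ m := by
  induction D with
  | nil =>
    intro i h1 h2 h3 h4
    simp only [List.length_nil] at h2
    omega
  | cons f D ih =>
    intro i h1 h2 h3 h4
    simp only [List.length_cons] at h2 h3
    have hf : f = decide (i + 1 ≠ P) := by
      have := h4 0 (by simp)
      simpa using this
    have h4' : ∀ (t : ℕ) (h : t < D.length), D[t] = decide (i + 1 + 1 + t ≠ P) := by
      intro t h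
      have := h4 (t + 1) (by simpa using h)
      rw [List.getElem_cons_succ] at this
      rw [this]
      have e : i + 1 + (t + 1) = i + 1 + 1 + t := by ring
      rw [e]
    rw [braa_eval_bw_cons]
    by_cases hiP : i + 1 = P
    · subst hiP
      have hf' : f = false := by rw [hf]; simp
      subst hf'
      rw [braa_bw_true s (i + 1) m D (by
        intro t h
        rw [h4' t h]
        simp only [ne_eq, decide_eq_true_eq]
        omega)]
      simp only [Bool.false_eq_true, if_false, inv_inv, List.length_cons, Nat.add_sub_cancel]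
      have e1 : (s i)⁻¹ * braaAw s (i + 1) D.length ^ m * s i = ((s i)⁻¹ * braaAw s (i + 1) D.length * s i) ^ m := by
        have := conj_pow (a := (s i)⁻¹) (b := braaAw s (i + 1) D.length) (i := m)
        rw [inv_inv] at this
        exact this.symm
      rw [e1, map_pow]
      congr 1
      have hF := braa_F s n hcomm hbraid (i + 1) D.length (by omega)
      have hF' := braa_F s n hcomm hbraid i D.length (by omega)
      have hc := braa_comm_lt s n hcomm i (i + 1 + 1) D.length (by omega) (by omega)
      have hb := hbraid i (by omega)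
      have e2 : (s i)⁻¹ * s (i + 1) * s i = s (i + 1) * s i * (s (i + 1))⁻¹ := by
        rw [eq_mul_inv_iff_mul_eq, mul_assoc, mul_assoc, inv_mul_eq_iff_eq_mul]
        rw [← mul_assoc, ← mul_assoc]
        exact hb.symm
      have e3 : (s i)⁻¹ * braaAw s (i + 1) D.length * s i =
          (braaPr s (i + 1 + 1) D.length)⁻¹ * (s (i + 1) * s i * (s (i + 1))⁻¹) * braaPr s (i + 1 + 1) D.length := by
        rw [← hF, ← e2]
        have h6 : (s i)⁻¹ * (braaPr s (i + 1 + 1) D.length)⁻¹ = (braaPr s (i + 1 + 1) D.length)⁻¹ * (s i)⁻¹ :=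
          hc.inv_inv.eq
        have h7 : braaPr s (i + 1 + 1) D.length * s i = s i * braaPr s (i + 1 + 1) D.length := hc.eq.symm
        calc (s i)⁻¹ * ((braaPr s (i + 1 + 1) D.length)⁻¹ * s (i + 1) * braaPr s (i + 1 + 1) D.length) * s i
            = ((s i)⁻¹ * (braaPr s (i + 1 + 1) D.length)⁻¹) * s (i + 1) * (braaPr s (i + 1 + 1) D.length * s i) := by group
          _ = ((braaPr s (i + 1 + 1) D.length)⁻¹ * (s i)⁻¹) * s (i + 1) * (s i * braaPr s (i + 1 + 1) D.length) := by
            rw [h6, h7]
          _ = _ := by group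
      rw [e3, map_mul, map_mul, map_inv]
      have e4 : braaPhi s n (i + 1) (braaPr s (i + 1 + 1) D.length) = braaPr s (i + 1) D.length := by
        rw [braa_map_pr, ← braa_shift_pr s (i + 1) D.length]
        apply braa_congr_pr
        intro t ht1 ht2
        exact braa_phi2 s n hcomm hbraid (i + 1) t (by omega) (by omega)
      have e5 : braaPhi s n (i + 1) (s (i + 1) * s i * (s (i + 1))⁻¹) = s i := by
        rw [braa_phi_apply]
        obtain ⟨k, hk⟩ : ∃ k, n - 1 - (i + 1) = k + 1 := ⟨n - 1 - (i + 1) - 1, by omega⟩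
        rw [hk]
        simp only [braaPr]
        have hc2 := (braa_comm_lt s n hcomm i (i + 1 + 1) k (by omega) (by omega)).eq
        calc (s (i + 1) * braaPr s (i + 1 + 1) k)⁻¹ * (s (i + 1) * s i * (s (i + 1))⁻¹) *
              (s (i + 1) * braaPr s (i + 1 + 1) k)
            = (braaPr s (i + 1 + 1) k)⁻¹ * (s i * braaPr s (i + 1 + 1) k) := by group
          _ = s i := by rw [hc2, inv_mul_cancel_left]
      rw [e4, e5, hF']
    · have hf' : f = true := by rw [hf]; simp [hiP]
      subst hf'
      simp only [if_true, map_mul, map_inv]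
      rw [ih (i + 1) (by omega) (by omega) (by omega) h4', braa_phi1 s n hcomm P i hP (by omega), ← conj_pow]
      congr 1
      obtain ⟨k, hk⟩ : ∃ k, D.length = k + 1 := ⟨D.length - 1, by omega⟩
      simp only [List.length_cons, hk, Nat.add_sub_cancel]
      rfl

include hcomm hbraid in
lemma braa_caseD (P k : ℕ) (h : P + k + 1 < n) : braaPhi s n P (braaAw s P k) = braaAw s (P + k) (n - 1 - 1 - (P + k)) := by
  rw [braa_phi_apply, braa_aw_eq]
  have h1 : n - 1 - P = k + ((n - 1 - 1 - (P + k)) + 1) := by omega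
  rw [h1, braa_pr_add]
  have h2 := braa_F s n hcomm hbraid (P + k) (n - 1 - 1 - (P + k)) (by omega)
  rw [← h2]
  simp only [braaPr]
  group

include hcomm hbraid in
lemma braa_caseE (P i k : ℕ) (hi : P < i) (h : i + k + 1 < n) : braaPhi s n P (braaAw s i k) = braaAw s (i - 1) k := by
  obtain ⟨i, rfl⟩ : ∃ i', i = i' + 1 := ⟨i - 1, by omega⟩
  rw [braa_map_aw, Nat.add_sub_cancel, ← braa_shift_aw s i k]
  apply braa_congr_aw
  intro t h1 h2
  exact braa_phi2 s n hcomm hbraid P t (by omega) (by omega)

end braa

theorem band_conj {G : Type} [Group G] (s : ℕ → G) (n P : ℕ) (hP : P < n)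
    (hcomm : ∀ i j, i + 2 ≤ j → j + 1 < n → s i * s j = s j * s i)
    (hbraid : ∀ i, i + 2 < n → s i * s (i + 1) * s i = s (i + 1) * s i * s (i + 1))
    (l : Ltr) (hl : goodL n P l) :
    (eval s (Wp n P))⁻¹ * eval s (bw l.1 l.2.1 l.2.2) * eval s (Wp n P) =
      (eval s (aWord (tgt n P l.1 (l.1 + 1 + l.2.1.length)).1
        (tgt n P l.1 (l.1 + 1 + l.2.1.length)).2)) ^ l.2.2 := by
  obtain ⟨i, D, m⟩ := l
  obtain ⟨h1, h2⟩ := hl
  simp only at h1 h2 ⊢
  have hW : eval s (Wp n P) = braaPr s P (n - 1 - P) := braa_eval_range s P _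
  rw [hW, ← braa_phi_apply]
  have htl := tgt_lt n P i (i + 1 + D.length) hP (by omega) (by omega)
  rw [braa_eval_aWord s _ _ htl.1]
  have htrue : (P ≤ i ∨ i + 1 + D.length ≤ P) → eval s (bw i D m) = braaAw s i D.length ^ m := by
    intro hor
    apply braa_bw_true
    intro t ht
    rw [h2 t ht]
    simp only [ne_eq, decide_eq_true_eq]
    omega
  unfold tgt
  split_ifs with c1 c2 c3 c4
  · rw [htrue (Or.inr (by omega)), map_pow, braa_caseA s n hcomm P i D.length hP (by omega)]
    congr 2
    simp only
    omega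
  · rw [htrue (Or.inr (by omega)), map_pow, braa_caseB s n hcomm hbraid P D.length hP i (by omega)]
  · rw [braa_caseC s n hcomm hbraid P m hP D i c3 (by omega) (by omega) h2]
    congr 2
    simp only
    omega
  · subst c4
    rw [htrue (Or.inl le_rfl), map_pow, braa_caseD s n hcomm hbraid i D.length (by omega)]
    congr 2
    · simp only
      omega
    · simp only
      omega
  · rw [htrue (Or.inl (by omega)), map_pow, braa_caseE s n hcomm hbraid P i D.length (by omega) (by omega)]
    congr 2
    simp only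
    omega

end Pool.Agent.H53.SQ
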