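import Pool.Agent.H53.SQ.BRAA

/-!
# Module BRAB: the last step: a word of good bands is conjugate to a strongly quasipositive word

PROOF. Let `U = β.flatMap (fun l => bw l.1 l.2.1 l.2.2)`; then `clo n (wd β) = braidClosure n U`
(`fw i D m = (bw i D m).map (fun p => cross p.1 p.2)`). Put
`L = β.flatMap (fun l => replicate l.2.2 (tgt n P l.1 (l.1 + 1 + l.2.1.length)))`, `A = L.flatMap aWord`,
`W = Wp n P`, `W' = W.reverse.map (fun p => (p.1, !p.2))` (the inverse word). Then
`eval U = eval (W ++ A ++ W')` by `band_conj` in every group (multiplicativity of `eval`, induction on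
`β`), so `Step.braid` gives `braidClosure n U ~ braidClosure n (W ++ (A ++ W'))`; `Step.rot` gives
`braidClosure n ((A ++ W') ++ W)`, and `Step.braid` again gives `braidClosure n A`. All indices `p.1`
of the letters satisfy `p.1 + 1 < n`.
-/

namespace Pool.Agent.H53.SQ

theorem BRAB_eval_append {G : Type} [Group G] (s : ℕ → G) (u v : List (ℕ × Bool)) :
    eval s (u ++ v) = eval s u * eval s v := by
  simp [eval]

theorem BRAB_eval_inv {G : Type} [Group G] (s : ℕ → G) (u : List (ℕ × Bool)) :
    eval s (u.reverse.map (fun p => (p.1, !p.2))) = (eval s u)⁻¹ := by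
  induction u with
  | nil => simp [eval]
  | cons p u ih =>
    rw [List.reverse_cons, List.map_append, BRAB_eval_append, ih,
      show p :: u = [p] ++ u from rfl, BRAB_eval_append, mul_inv_rev]
    congr 1
    obtain ⟨i, t⟩ := p
    cases t <;> simp [eval]

theorem BRAB_fw (i : ℕ) (D : List Bool) (m : ℕ) :
    fw i D m = (bw i D m).map (fun p => Gen.cross p.1 p.2) := by
  induction D generalizing i with
  | nil => simp [fw, bw]
  | cons f D ih => simp [fw, bw, ih]

theorem BRAB_clo (n : ℕ) (β : List Ltr) :
    clo n (wd β) = braidClosure n (β.flatMap (fun l => bw l.1 l.2.1 l.2.2)) := by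
  have : wd β = (β.flatMap (fun l => bw l.1 l.2.1 l.2.2)).map (fun p => Gen.cross p.1 p.2) := by
    rw [wd, List.map_flatMap]
    congr 1
    funext l
    exact BRAB_fw _ _ _
  rw [clo, braidClosure, this, List.append_assoc]
  rfl

theorem BRAB_bw_idx (i : ℕ) (D : List Bool) (m n : ℕ) (h : i + D.length + 1 < n) :
    ∀ p ∈ bw i D m, p.1 + 1 < n := by
  induction D generalizing i with
  | nil =>
    intro p hp
    rw [bw, List.mem_replicate] at hp
    obtain ⟨-, rfl⟩ := hp
    simpa using h
  | cons f D ih =>
    intro p hp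
    simp only [List.length_cons] at h
    rw [bw, List.mem_cons, List.mem_append, List.mem_singleton] at hp
    rcases hp with rfl | hp | rfl
    · simp only; omega
    · exact ih (i + 1) (by omega) p hp
    · simp only; omega

theorem BRAB_Wp_idx (n P : ℕ) : ∀ p ∈ Wp n P, p.1 + 1 < n := by
  intro p hp
  rw [Wp, List.mem_map] at hp
  obtain ⟨t, ht, rfl⟩ := hp
  rw [List.mem_range] at ht
  simp only; omega

theorem BRAB_a_idx (i j n : ℕ) (hij : i < j) (hj : j < n) : ∀ p ∈ aWord i j, p.1 + 1 < n := by
  intro p hp
  rw [aWord, List.mem_append, List.mem_append, List.mem_map, List.mem_map,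
    List.mem_singleton] at hp
  rcases hp with (⟨t, ht, rfl⟩ | rfl) | ⟨t, ht, rfl⟩
  · rw [List.mem_range] at ht; simp only; omega
  · simp only; omega
  · rw [List.mem_reverse, List.mem_range] at ht; simp only; omega

theorem BRAB_pow {G : Type} [Group G] (s : ℕ → G) (w : List (ℕ × Bool)) (m : ℕ) :
    eval s ((List.replicate m w).flatMap id) = (eval s w) ^ m := by
  induction m with
  | zero => simp [eval]
  | succ m ih =>
    rw [List.replicate_succ, List.flatMap_cons, BRAB_eval_append, ih, pow_succ']
    rfl

theorem braid_fin (n P : ℕ) (hP : P < n) (β : List Ltr) (hβ : ∀ l ∈ β, goodL n P l) :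
    ∃ L : List (ℕ × ℕ), (∀ p ∈ L, p.1 < p.2 ∧ p.2 < n) ∧
      Iso (clo n (wd β)) (braidClosure n (L.flatMap fun p => aWord p.1 p.2)) := by
  have hL : ∀ p ∈ β.flatMap (fun l => List.replicate l.2.2
      (tgt n P l.1 (l.1 + 1 + l.2.1.length))), p.1 < p.2 ∧ p.2 < n := by
    intro p hp
    rw [List.mem_flatMap] at hp
    obtain ⟨l, hl, hp⟩ := hp
    rw [List.mem_replicate] at hp
    obtain ⟨-, rfl⟩ := hp
    exact tgt_lt n P _ _ hP (by omega) (by have := (hβ l hl).1; omega)
  refine ⟨_, hL, ?_⟩
  rw [BRAB_clo]
  set A := (β.flatMap (fun l => List.replicate l.2.2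
      (tgt n P l.1 (l.1 + 1 + l.2.1.length)))).flatMap (fun p => aWord p.1 p.2) with hA
  set U := β.flatMap (fun l => bw l.1 l.2.1 l.2.2) with hU
  set W := Wp n P with hW
  set W' := W.reverse.map (fun p => (p.1, !p.2)) with hW'
  have iU : ∀ p ∈ U, p.1 + 1 < n := by
    intro p hp
    rw [hU, List.mem_flatMap] at hp
    obtain ⟨l, hl, hp⟩ := hp
    exact BRAB_bw_idx _ _ _ n (hβ l hl).1 p hp
  have iA : ∀ p ∈ A, p.1 + 1 < n := by
    intro p hp
    rw [hA, List.mem_flatMap] at hp
    obtain ⟨l, hl, hp⟩ := hp
    exact BRAB_a_idx _ _ n (hL l hl).1 (hL l hl).2 p hp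
  have iW : ∀ p ∈ W, p.1 + 1 < n := BRAB_Wp_idx n P
  have iW' : ∀ p ∈ W', p.1 + 1 < n := by
    intro p hp
    rw [hW', List.mem_map] at hp
    obtain ⟨q, hq, rfl⟩ := hp
    exact iW q (List.mem_reverse.1 hq)
  have s1 : Step (braidClosure n U) (braidClosure n (W ++ (A ++ W'))) := by
    refine Step.braid n _ _ ⟨iU, ?_, ?_⟩
    · intro p hp
      rw [List.mem_append, List.mem_append] at hp
      rcases hp with hp | hp | hp
      · exact iW p hp
      · exact iA p hp
      · exact iW' p hp
    · intro G _ s hc hb
      have key : ∀ β' : List Ltr, (∀ l ∈ β', goodL n P l) →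
          (eval s W)⁻¹ * eval s (β'.flatMap (fun l => bw l.1 l.2.1 l.2.2)) * eval s W =
          eval s ((β'.flatMap (fun l => List.replicate l.2.2
            (tgt n P l.1 (l.1 + 1 + l.2.1.length)))).flatMap (fun p => aWord p.1 p.2)) := by
        intro β' h'
        induction β' with
        | nil => simp [eval]
        | cons l β' ih =>
          have h1 := band_conj s n P hP hc hb l (h' l List.mem_cons_self)
          have h2 := ih (fun l' hl' => h' l' (List.mem_cons_of_mem _ hl'))
          rw [List.flatMap_cons, List.flatMap_cons, List.flatMap_append, BRAB_eval_append,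
            BRAB_eval_append, ← h2]
          have h3 : eval s ((List.replicate l.2.2 (tgt n P l.1 (l.1 + 1 + l.2.1.length))).flatMap
              (fun p => aWord p.1 p.2)) = (eval s (aWord (tgt n P l.1 (l.1 + 1 + l.2.1.length)).1
                (tgt n P l.1 (l.1 + 1 + l.2.1.length)).2)) ^ l.2.2 := by
            rw [← BRAB_pow]
            congr 1
            induction l.2.2 with
            | zero => rfl
            | succ m ihm =>
              rw [List.replicate_succ, List.replicate_succ, List.flatMap_cons,
                List.flatMap_cons, ihm]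
              rfl
          rw [h3, ← h1, ← hW]
          group
      rw [BRAB_eval_append, BRAB_eval_append, hA, ← key β hβ, hW', BRAB_eval_inv, hU]
      group
  have s2 : Step (braidClosure n (W ++ (A ++ W'))) (braidClosure n ((A ++ W') ++ W)) := by
    refine Step.rot n _ _ ?_
    intro p hp
    rw [List.mem_append, List.mem_append] at hp
    rcases hp with hp | hp | hp
    · exact iW p hp
    · exact iA p hp
    · exact iW' p hp
  have s3 : Step (braidClosure n ((A ++ W') ++ W)) (braidClosure n A) := by
    refine Step.braid n _ _ ⟨?_, iA, ?_⟩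
    · intro p hp
      rw [List.mem_append, List.mem_append] at hp
      rcases hp with (hp | hp) | hp
      · exact iA p hp
      · exact iW' p hp
      · exact iW p hp
    · intro G _ s hc hb
      rw [BRAB_eval_append, BRAB_eval_append, hW', BRAB_eval_inv]
      group
  exact ((Relation.EqvGen.rel _ _ s1).trans _ _ _ (Relation.EqvGen.rel _ _ s2)).trans _ _ _
    (Relation.EqvGen.rel _ _ s3)

end Pool.Agent.H53.SQ
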