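import Pool.Agent.H53.SQ.Defs

/-!
Shared definitions of the proof (trees of bars, contour words, the relation `MW`).
Conventions: `false` = left, `true` = right.
-/

namespace Pool.Agent.H53.SQ

variable {V : Type} {L : ℕ}

/-! ### Bars -/

/-- A bar: a list of items from bottom to top. `it v s r`: the bar arrives at the crossing `v` on
the side `s` (and leaves it on the same side). `ch j v s c r`: at `v` (arrival on the side `s`) a
child bar `c` is born; `j = true` is a jump (the bar leaves on the other side `!s`, the child starts
on the side `s`), for `j = false` the bar leaves on the side `s` and the child starts on the side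
`!s`. In both cases the child ends by arriving at `(v, !s)`. -/
inductive BT (V : Type) : Type
  | nil : BT V
  | it (v : V) (s : Bool) (r : BT V) : BT V
  | ch (j : Bool) (v : V) (s : Bool) (c r : BT V) : BT V

/-- names of the circles: `Sum.inl g` is the circle which is cut open on the edge arriving at the
incoming end `g`, `Sum.inr i` is a circle without crossings -/
abbrev Nm (V : Type) (L : ℕ) := (V × Bool) ⊕ Fin L

/-- letters of the contour words: (identity of the chord, is it the opening letter) -/
abbrev Lt (V : Type) (L : ℕ) := (V ⊕ Nm V L) × Bool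

/-- side of the return strand of a circle -/
def sd : Nm V L → Bool
  | Sum.inl g => g.2
  | Sum.inr _ => true

def retL (n : Nm V L) : Lt V L := (Sum.inr n, sd n)

def topL (n : Nm V L) : Lt V L := (Sum.inr n, !sd n)

/-- right contour (from bottom to top) and left contour (from top to bottom) -/
def ct : BT V → List (Lt V L) × List (Lt V L)
  | .nil => ([], [])
  | .it v false r => ((Sum.inl v, false) :: (ct r).1, (ct r).2)
  | .it v true r => ((ct r).1, (ct r).2 ++ [(Sum.inl v, true)])
  | .ch false v false c r =>
      (retL (Sum.inl (v, true)) :: ((ct c).1 ++ topL (Sum.inl (v, true)) :: ((ct c).2 ++ (ct r).1)),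
        (ct r).2)
  | .ch false v true c r =>
      ((ct r).1,
        (ct r).2 ++ ((ct c).1 ++ topL (Sum.inl (v, false)) :: ((ct c).2 ++ [retL (Sum.inl (v, false))])))
  | .ch true v false c r =>
      (retL (Sum.inl (v, true)) :: (ct r).1,
        (ct r).2 ++ ((ct c).1 ++ topL (Sum.inl (v, true)) :: (ct c).2))
  | .ch true v true c r =>
      ((ct c).1 ++ topL (Sum.inl (v, false)) :: ((ct c).2 ++ (ct r).1),
        (ct r).2 ++ [retL (Sum.inl (v, false))])

def RC (b : BT V) : List (Lt V L) := (ct b).1

def LC (b : BT V) : List (Lt V L) := (ct b).2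

@[simp] theorem RC_nil : (RC (BT.nil : BT V) : List (Lt V L)) = [] := rfl
@[simp] theorem LC_nil : (LC (BT.nil : BT V) : List (Lt V L)) = [] := rfl
@[simp] theorem RC_itL (v : V) (r : BT V) :
    (RC (.it v false r) : List (Lt V L)) = (Sum.inl v, false) :: RC r := rfl
@[simp] theorem LC_itL (v : V) (r : BT V) : (LC (.it v false r) : List (Lt V L)) = LC r := rfl
@[simp] theorem RC_itR (v : V) (r : BT V) : (RC (.it v true r) : List (Lt V L)) = RC r := rfl
@[simp] theorem LC_itR (v : V) (r : BT V) :
    (LC (.it v true r) : List (Lt V L)) = LC r ++ [(Sum.inl v, true)] := rfl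
@[simp] theorem RC_br (v : V) (c r : BT V) : (RC (.ch false v false c r) : List (Lt V L)) =
    retL (Sum.inl (v, true)) :: (RC c ++ topL (Sum.inl (v, true)) :: (LC c ++ RC r)) := rfl
@[simp] theorem LC_br (v : V) (c r : BT V) :
    (LC (.ch false v false c r) : List (Lt V L)) = LC r := rfl
@[simp] theorem RC_bl (v : V) (c r : BT V) :
    (RC (.ch false v true c r) : List (Lt V L)) = RC r := rfl
@[simp] theorem LC_bl (v : V) (c r : BT V) : (LC (.ch false v true c r) : List (Lt V L)) =
    LC r ++ (RC c ++ topL (Sum.inl (v, false)) :: (LC c ++ [retL (Sum.inl (v, false))])) := rfl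
@[simp] theorem RC_jl (v : V) (c r : BT V) : (RC (.ch true v false c r) : List (Lt V L)) =
    retL (Sum.inl (v, true)) :: RC r := rfl
@[simp] theorem LC_jl (v : V) (c r : BT V) : (LC (.ch true v false c r) : List (Lt V L)) =
    LC r ++ (RC c ++ topL (Sum.inl (v, true)) :: LC c) := rfl
@[simp] theorem RC_jr (v : V) (c r : BT V) : (RC (.ch true v true c r) : List (Lt V L)) =
    RC c ++ topL (Sum.inl (v, false)) :: (LC c ++ RC r) := rfl
@[simp] theorem LC_jr (v : V) (c r : BT V) : (LC (.ch true v true c r) : List (Lt V L)) =
    LC r ++ [retL (Sum.inl (v, false))] := rfl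

/-- `Path nu b x y`: the bar `b` starts by arriving at the incoming end `x`, follows `nu`, and ends
by arriving at the incoming end `y` -/
def Path (nu : Option (V × Bool) → Option (V × Bool)) :
    BT V → Option (V × Bool) → Option (V × Bool) → Prop
  | .nil, x, y => x = y
  | .it v s r, x, y => x = some (v, s) ∧ Path nu r (nu (some (v, s))) y
  | .ch j v s c r, x, y => x = some (v, s) ∧ Path nu r (nu (some (v, if j then !s else s))) y ∧
      Path nu c (nu (some (v, if j then s else !s))) (some (v, !s))

/-- all the incoming ends met by a bar and its descendants -/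
def eps : BT V → List (V × Bool)
  | .nil => []
  | .it v s r => (v, s) :: eps r
  | .ch _ v s c r => (v, s) :: (v, !s) :: (eps c ++ eps r)

/-- the generic items -/
def gls : BT V → List (V × Bool)
  | .nil => []
  | .it v s r => (v, s) :: gls r
  | .ch _ _ _ c r => gls c ++ gls r

/-- the names of the descendants -/
def nms : BT V → List (V × Bool)
  | .nil => []
  | .it _ _ r => nms r
  | .ch _ v s c r => (v, !s) :: (nms c ++ nms r)

/-- no jumps -/
def noJ : BT V → Prop
  | .nil => True
  | .it _ _ r => noJ r
  | .ch j _ _ c r => j = false ∧ noJ c ∧ noJ r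

/-- no jumps in the children -/
def okJ : BT V → Prop
  | .nil => True
  | .it _ _ r => okJ r
  | .ch _ _ _ c r => noJ c ∧ okJ r

/-- plain bar -/
def pl : List (V × Bool) → BT V
  | [] => .nil
  | (v, s) :: l => .it v s (pl l)

/-- contour word of a root: `none` is the bar of the open strand, `some n` is the bar of a circle
with name `n` whose return strand is on the right -/
def wrd : Option (Nm V L) → BT V → List (Lt V L)
  | none, b => RC b ++ LC b
  | some n, b => retL n :: (RC b ++ topL n :: LC b)

/-- every generic chord is opened first or crosses a return chord -/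
def Rho (W : List (Lt V L)) : Prop :=
  ∀ v : V, (Sum.inl v, true) ∈ W → (Sum.inl v, false) ∈ W →
    List.Sublist [(Sum.inl v, true), (Sum.inl v, false)] W ∨
    ∃ n : Nm V L, List.Sublist [Sum.inl v, Sum.inr n, Sum.inl v, Sum.inr n] (W.map Prod.fst) ∨
      List.Sublist [Sum.inr n, Sum.inl v, Sum.inr n, Sum.inl v] (W.map Prod.fst)

/-- stack check: the letters are the parentheses of a correct expression -/
def chk {ι : Type} : List ι → List (ι × Bool) → Prop
  | st, [] => st = []
  | st, (i, true) :: w => chk (i :: st) w
  | [], (_, false) :: _ => False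
  | j :: st, (i, false) :: w => i = j ∧ chk st w

/-- reduction to the empty word by cancelling adjacent equal letters -/
inductive Red {ι : Type} : List ι → Prop
  | nil : Red []
  | ins (A B : List ι) (i : ι) (h : Red (A ++ B)) : Red (A ++ i :: i :: B)

/-- closed labelled walks; a letter is (identity, label before, label after) -/
inductive Chain {ι : Type} : ℕ → List (ι × ℕ × ℕ) → ℕ → Prop
  | nil (a : ℕ) : Chain a [] a
  | cons (i : ι) (a b c : ℕ) (l : List (ι × ℕ × ℕ)) (h : Chain b l c) : Chain a ((i, a, b) :: l) c

/-! ### Words -/

/-- a band: the strand number `i` moves right across strands with the flags `D` (over a strand with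
flag `true`, under a strand with flag `false`), crosses the next strand `m` times, and moves back -/
def fw : ℕ → List Bool → ℕ → List Gen
  | i, [], m => List.replicate m (Gen.cross i true)
  | i, f :: D, m => Gen.cross i f :: (fw (i + 1) D m ++ [Gen.cross i (!f)])

/-- the strand number `p` moves right across strands with the flags `D` -/
def mvR : ℕ → List Bool → List Gen
  | _, [] => []
  | p, f :: D => Gen.cross p f :: mvR (p + 1) D

/-- the strand number `q + D.length` moves left to position `q` -/
def mvL : ℕ → List Bool → List Gen
  | _, [] => []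
  | q, f :: D => mvL (q + 1) D ++ [Gen.cross q (!f)]

def cups (n : ℕ) : List Gen := (List.range n).map (fun i => Gen.cup i true)

def caps (n : ℕ) : List Gen := (List.range n).reverse.map Gen.cap

def clo (n : ℕ) (x : List Gen) : List Gen := cups n ++ (x ++ caps n)

/-- letters of band words: `(i, D, m)` stands for `fw i D m` -/
abbrev Ltr := ℕ × List Bool × ℕ

def wd (β : List Ltr) : List Gen := β.flatMap (fun l => fw l.1 l.2.1 l.2.2)

/-- insert a new strand at position `q`, over which the band passes -/
def insL (q : ℕ) (l : Ltr) : Ltr :=
  if q ≤ l.1 then (l.1 + 1, l.2.1, l.2.2)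
  else if q ≤ l.1 + 1 + l.2.1.length then (l.1, l.2.1.insertIdx (q - l.1 - 1) true, l.2.2)
  else l

/-- the band `l` lives on `n` strands, and passes over all strands except the strand `P` -/
def goodL (n P : ℕ) (l : Ltr) : Prop :=
  l.1 + l.2.1.length + 1 < n ∧ ∀ (t : ℕ) (h : t < l.2.1.length), l.2.1[t] = decide (l.1 + 1 + t ≠ P)

/-! ### The relation `MW` -/

/-- Items of a frontier, from left to right. `up n x j`: the upward strand of the circle `n` (of
the open strand if `n = none`), at the moment piece number `2 * j` of the edge `x`; `ret n`: the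
return strand of `n` (directed downwards; it is piece `1` of the edge `gap n`); `dead n`: the place
where the circle `n` was closed (a strand if the circle is converted), `sdead`: the place where the
open strand has ended (the overarc starts here). -/
inductive MI (V : Type) (L : ℕ) : Type
  | up (n : Option (Nm V L)) (x : Edge V L) (j : ℕ)
  | ret (n : Nm V L)
  | dead (n : Nm V L)
  | sdead

def MI.off : MI V L → Bool
  | .dead _ => true
  | .sdead => true
  | _ => false

/-- number of strands of an item if the circles in `C` are converted -/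
def vis (C : Nm V L → Bool) : MI V L → ℕ
  | .up _ _ _ => 1
  | .ret n => if C n then 0 else 1
  | .dead n => if C n then 1 else 0
  | .sdead => 1

def vl (C : Nm V L → Bool) (A : List (MI V L)) : ℕ := (A.map (vis C)).sum

/-- flags of the strands of dead items -/
def flags (C : Nm V L → Bool) : List (MI V L) → List Bool
  | [] => []
  | .dead n :: D => if C n then true :: flags C D else flags C D
  | .sdead :: D => false :: flags C D
  | _ :: D => flags C D

/-- the edge on which the circle `n` is cut -/
def gap (O : Code V) : Nm V O.loops → Edge V O.loops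
  | Sum.inl g => Sum.inl (O.nu.symm (some g))
  | Sum.inr i => Sum.inr i

/-- half the number of the first piece after the birth of a root circle -/
def fpc : Nm V L → ℕ
  | Sum.inl _ => 1
  | Sum.inr _ => 0

/-- the event at the birth of a root circle -/
def ftok (O : Code V) : Nm V O.loops → Tok V O.loops
  | Sum.inl g => Tok.bend (gap O (Sum.inl g)) 0
  | Sum.inr i => Tok.loop i

/-- `MW O ms F T f`: from the frontier `ms` the rest of the diagram can be drawn; `F` lists the
circles that will be born, `T` the events, and `f C` is the word if the circles in `C` are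
converted. -/
inductive MW (O : Code V) : List (MI V O.loops) → List (Nm V O.loops) → List (Tok V O.loops) →
    ((Nm V O.loops → Bool) → List Gen) → Prop
  | done (ms : List (MI V O.loops)) (h : ∀ m ∈ ms, m.off = true) : MW O ms [] [] (fun _ => [])
  | post (A D B : List (MI V O.loops)) (x y : Option (Nm V O.loops)) (a b : Option (V × Bool))
      (i j : ℕ) (v : V) (F : List (Nm V O.loops)) (T : List (Tok V O.loops))
      (f : (Nm V O.loops → Bool) → List Gen) (hD : ∀ m ∈ D, m.off = true)
      (ha : O.nu a = some (v, false)) (hb : O.nu b = some (v, true))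
      (h : MW O (A ++ MI.up x (Sum.inl (some (v, false))) 0 ::
        (D ++ MI.up y (Sum.inl (some (v, true))) 0 :: B)) F T f) :
      MW O (A ++ MI.up x (Sum.inl a) i :: (D ++ MI.up y (Sum.inl b) j :: B)) F (Tok.cross v :: T)
        (fun C => fw (vl C A) (flags C D) 1 ++ f C)
  /-- the crossing with a new circle whose return strand is on the right -/
  | bR (A B : List (MI V O.loops)) (x x₁ x₂ : Option (Nm V O.loops)) (a : Option (V × Bool))
      (j : ℕ) (v : V) (F : List (Nm V O.loops)) (T : List (Tok V O.loops))
      (f : (Nm V O.loops → Bool) → List Gen) (ha : O.nu a = some (v, false))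
      (hx : (x₁ = x ∧ x₂ = some (Sum.inl (v, true))) ∨
        (x = none ∧ x₁ = some (Sum.inl (v, true)) ∧ x₂ = none))
      (h : MW O (A ++ MI.up x₁ (Sum.inl (some (v, false))) 0 ::
        MI.up x₂ (Sum.inl (some (v, true))) 0 :: MI.ret (Sum.inl (v, true)) :: B) F T f) :
      MW O (A ++ MI.up x (Sum.inl a) j :: B) (Sum.inl (v, true) :: F)
        (Tok.bend (gap O (Sum.inl (v, true))) 0 :: Tok.cross v :: T)
        (fun C => Gen.cup (vl C A + 1) true :: Gen.cross (vl C A) true :: f C)
  /-- the crossing with a new circle whose return strand is on the left -/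
  | bL (A B : List (MI V O.loops)) (x x₁ x₂ : Option (Nm V O.loops)) (a : Option (V × Bool))
      (j : ℕ) (v : V) (F : List (Nm V O.loops)) (T : List (Tok V O.loops))
      (f : (Nm V O.loops → Bool) → List Gen) (ha : O.nu a = some (v, true))
      (hx : (x₁ = some (Sum.inl (v, false)) ∧ x₂ = x) ∨
        (x = none ∧ x₁ = none ∧ x₂ = some (Sum.inl (v, false))))
      (h : MW O (A ++ MI.ret (Sum.inl (v, false)) :: MI.up x₁ (Sum.inl (some (v, false))) 0 ::
        MI.up x₂ (Sum.inl (some (v, true))) 0 :: B) F T f) :
      MW O (A ++ MI.up x (Sum.inl a) j :: B) (Sum.inl (v, false) :: F)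
        (Tok.bend (gap O (Sum.inl (v, false))) 0 :: Tok.cross v :: T)
        (fun C => Gen.cup (vl C A) false :: Gen.cross (vl C A + 1) true :: f C)
  | capR (A D B : List (MI V O.loops)) (n : Nm V O.loops) (F : List (Nm V O.loops))
      (T : List (Tok V O.loops)) (f : (Nm V O.loops → Bool) → List Gen)
      (hD : ∀ m ∈ D, m.off = true) (h : MW O (A ++ MI.dead n :: (D ++ B)) F T f) :
      MW O (A ++ MI.up (some n) (gap O n) 0 :: (D ++ MI.ret n :: B)) F T
        (fun C => if C n then f C else
          mvR (vl C A) (flags C D) ++ Gen.cap (vl C A + (flags C D).length) :: f C)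
  | capL (A D B : List (MI V O.loops)) (n : Nm V O.loops) (F : List (Nm V O.loops))
      (T : List (Tok V O.loops)) (f : (Nm V O.loops → Bool) → List Gen)
      (hD : ∀ m ∈ D, m.off = true) (h : MW O (A ++ (D ++ MI.dead n :: B)) F T f) :
      MW O (A ++ MI.ret n :: (D ++ MI.up (some n) (gap O n) 0 :: B)) F T
        (fun C => if C n then f C else mvL (vl C A + 1) (flags C D) ++ Gen.cap (vl C A) :: f C)
  | dieS (A B : List (MI V O.loops)) (a : Option (V × Bool)) (j : ℕ) (F : List (Nm V O.loops))
      (T : List (Tok V O.loops)) (f : (Nm V O.loops → Bool) → List Gen) (ha : O.nu a = none)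
      (h : MW O (A ++ MI.sdead :: B) F T f) :
      MW O (A ++ MI.up none (Sum.inl a) j :: B) F (Tok.die :: T) f
  /-- birth of a root circle at the left end -/
  | fr (n : Nm V O.loops) (ms : List (MI V O.loops)) (F : List (Nm V O.loops))
      (T : List (Tok V O.loops)) (f : (Nm V O.loops → Bool) → List Gen)
      (h : MW O (MI.up (some n) (gap O n) (fpc n) :: MI.ret n :: ms) F T f) :
      MW O ms (n :: F) (ftok O n :: T) (fun C => Gen.cup 0 true :: f C)

end Pool.Agent.H53.SQ
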