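import Pool.Agent.H53.SQ.Base

/-!
Definitions for the conversion of a circle `k` (module CONV and the modules BIR..).
-/

namespace Pool.Agent.H53.SQ

variable {V : Type} [DecidableEq V] {L : ℕ}

/-- name of an item -/
def MI.nm : MI V L → Option (Nm V L)
  | .up n _ _ => n
  | .ret n => some n
  | .dead n => some n
  | .sdead => none

/-- strands of an item in the diagram in which the circles in `C` are converted; the arc is the
under-arc of the circle `k`, which is not converted -/
def lnU (C : Nm V L → Bool) (k : Nm V L) : MI V L → List (Bool ⊕ ℕ)
  | .up _ _ _ => [Sum.inl true]
  | .ret n => if n = k then [Sum.inr 1] else if C n then [] else [Sum.inl false]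
  | .dead n => if n = k then [] else if C n then [Sum.inl true] else []
  | .sdead => [Sum.inl true]

/-- the same if `k` is converted, too -/
def lnC (C : Nm V L → Bool) (k : Nm V L) : MI V L → List (Bool ⊕ ℕ)
  | .up _ _ _ => [Sum.inl true]
  | .ret n => if n = k then [] else if C n then [] else [Sum.inl false]
  | .dead n => if n = k then [Sum.inr 0] else if C n then [Sum.inl true] else []
  | .sdead => [Sum.inl true]

def StU (C : Nm V L → Bool) (k : Nm V L) (ms : List (MI V L)) : List (Bool ⊕ ℕ) :=
  ms.flatMap (lnU C k)

def StC (C : Nm V L → Bool) (k : Nm V L) (ms : List (MI V L)) : List (Bool ⊕ ℕ) :=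
  ms.flatMap (lnC C k)

/-- the final strands (converted circles, the open strand, `k`); `true` marks the strand `k` -/
def mkI (C : Nm V L → Bool) (k : Nm V L) : MI V L → List Bool
  | .up none _ _ => [false]
  | .up (some n) _ _ => if n = k then [true] else if C n then [false] else []
  | .ret _ => []
  | .dead n => if n = k then [true] else if C n then [false] else []
  | .sdead => [false]

/-- The automaton which checks that between `up k` and `ret k` (in either order) there are no
converted circles. States: `0` before `k`; `1` between `up k` and `ret k`; `2` between `ret k` and
`up k`; `3` after `k`. -/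
def stp (C : Nm V L → Bool) (k : Nm V L) : ℕ → MI V L → Option ℕ
  | 0, .up (some n) _ _ => if n = k then some 1 else some 0
  | 0, .ret n => if n = k then some 2 else some 0
  | 0, .dead n => if n = k then some 3 else some 0
  | 0, _ => some 0
  | 1, .up (some n) _ _ => if n = k then none else if C n then none else some 1
  | 1, .ret n => if n = k then some 3 else some 1
  | 1, .dead n => if n = k then none else if C n then none else some 1
  | 1, _ => some 1
  | 2, .up (some n) _ _ => if n = k then some 3 else if C n then none else some 2
  | 2, .ret n => if n = k then none else some 2
  | 2, .dead n => if n = k then none else if C n then none else some 2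
  | 2, _ => some 2
  | (s + 3), .up (some n) _ _ => if n = k then none else some (s + 3)
  | (s + 3), .ret n => if n = k then none else some (s + 3)
  | (s + 3), .dead n => if n = k then none else some (s + 3)
  | (s + 3), _ => some (s + 3)

def scan (C : Nm V L → Bool) (k : Nm V L) : ℕ → List (MI V L) → Option ℕ
  | s, [] => some s
  | s, m :: ms => (stp C k s m).bind (fun s' => scan C k s' ms)

/-- number of items `up k` -/
def alive (k : Nm V L) : List (MI V L) → ℕ
  | [] => 0
  | .up (some n) _ _ :: ms => if n = k then alive k ms + 1 else alive k ms
  | _ :: ms => alive k ms

/-- all names that occur are converted -/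
def pres (C : Nm V L → Bool) (ms : List (MI V L)) : Prop :=
  ∀ m ∈ ms, ∀ n, m.nm = some n → C n = true

/-- all strands; `true` marks the open strand -/
def smk (C : Nm V L → Bool) : MI V L → List Bool
  | .up none _ _ => [true]
  | .up (some _) _ _ => [false]
  | .ret n => if C n then [] else [false]
  | .dead n => if C n then [false] else []
  | .sdead => [true]

end Pool.Agent.H53.SQ
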