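import Pool.Agent.H53.SQ.BIRB

/-!
# Module CHN: converting all circles

PROOF: induction on `h`, generalizing `C β P Q`. General facts:
(i) `(ms.flatMap (smk C)).length = vl C ms`, so `vl C ms = P + 1 + Q`; `flatMap` is additive; a
    converted new name does not change `smk` on old items (`pres`).
(ii) for off items `D`: `D.flatMap (smk C) = (flags C D).map (!·)` and
    `vl C D = (flags C D).length`; so, if `ms = A ++ up x :: (D ++ up y :: B)`, reading the list
    `replicate P false ++ true :: replicate Q false` at the index `vl C A + 1 + t` gives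
    `(flags C D)[t] = decide (vl C A + 1 + t ≠ P)`.
The new list `smk` after a birth arises by inserting `false` at the index `q` (`chn_ins`).
-/

namespace Pool.Agent.H53.SQ

variable {V : Type} [DecidableEq V]

omit [DecidableEq V] in
theorem chn_len {L : ℕ} (C : Nm V L → Bool) (A : List (MI V L)) :
    (A.flatMap (smk C)).length = vl C A := by
  induction A with
  | nil => rfl
  | cons a A ih =>
    rw [List.flatMap_cons, List.length_append, ih]
    have h : (smk C a).length = vis C a := by
      cases a with
      | up n x j => cases n <;> rfl
      | ret n => simp only [smk, vis]; split_ifs <;> rfl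
      | dead n => simp only [smk, vis]; split_ifs <;> rfl
      | sdead => rfl
    rw [h]
    simp [vl]

omit [DecidableEq V] in
theorem chn_off {L : ℕ} (C : Nm V L → Bool) (D : List (MI V L)) (hD : ∀ m ∈ D, m.off = true) :
    D.flatMap (smk C) = (flags C D).map (fun b => !b) := by
  induction D with
  | nil => rfl
  | cons a D ih =>
    rw [List.flatMap_cons, ih (fun m hm => hD m (List.mem_cons_of_mem _ hm))]
    have ha := hD a List.mem_cons_self
    cases a with
    | up n x j => simp [MI.off] at ha
    | ret n => simp [MI.off] at ha
    | dead n =>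
      simp only [smk, flags]
      split_ifs <;> simp
    | sdead => simp [smk, flags]

theorem chn_upd {L : ℕ} (C : Nm V L → Bool) (k : Nm V L) (hk : C k = false) (A : List (MI V L))
    (hA : pres C A) : A.flatMap (smk (Function.update C k true)) = A.flatMap (smk C) := by
  induction A with
  | nil => rfl
  | cons a A ih =>
    rw [List.flatMap_cons, List.flatMap_cons, ih (fun m hm => hA m (List.mem_cons_of_mem _ hm))]
    congr 1
    have ha : ∀ n, a.nm = some n → n ≠ k := by
      intro n hn hnk
      have := hA a List.mem_cons_self n hn
      rw [hnk, hk] at this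
      exact absurd this (by simp)
    cases a with
    | up n x j => cases n <;> rfl
    | ret n => simp only [smk]; rw [Function.update_of_ne (ha n rfl)]
    | dead n => simp only [smk]; rw [Function.update_of_ne (ha n rfl)]
    | sdead => rfl

theorem chn_pres {L : ℕ} (C : Nm V L → Bool) (k : Nm V L) (A : List (MI V L))
    (hA : pres C A) : pres (Function.update C k true) A := by
  intro m hm n hn
  by_cases h : n = k
  · rw [h, Function.update_self]
  · rw [Function.update_of_ne h]
    exact hA m hm n hn

theorem chn_ins (X Y : List Bool) (P Q : ℕ)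
    (h : X ++ Y = List.replicate P false ++ true :: List.replicate Q false) :
    X ++ false :: Y = List.replicate (if X.length ≤ P then P + 1 else P) false ++
      true :: List.replicate (if X.length ≤ P then Q else Q + 1) false := by
  induction X generalizing P with
  | nil =>
    simp only [List.nil_append] at h
    subst h
    simp [List.replicate_succ]
  | cons a X ih =>
    cases P with
    | zero =>
      simp only [List.cons_append, List.replicate_zero, List.nil_append, List.cons.injEq] at h
      obtain ⟨h1, h2⟩ := h
      subst h1
      have h3 : X ++ false :: Y = List.replicate (Q + 1) false := by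
        rw [List.eq_replicate_iff]
        constructor
        · have := congrArg List.length h2
          simp at this
          simp
          omega
        · intro b hb
          have h4 : ∀ b ∈ X ++ Y, b = false := by
            rw [h2]
            intro b hb
            exact (List.mem_replicate.1 hb).2
          rcases List.mem_append.1 hb with hb | hb
          · exact h4 b (List.mem_append.2 (Or.inl hb))
          · rcases List.mem_cons.1 hb with hb | hb
            · exact hb
            · exact h4 b (List.mem_append.2 (Or.inr hb))
      simp [h3]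
    | succ P =>
      simp only [List.cons_append, List.replicate_succ, List.cons.injEq] at h
      obtain ⟨h1, h2⟩ := h
      have h3 := ih P h2
      subst h1
      rw [List.cons_append, h3]
      by_cases hq : X.length ≤ P
      · simp [hq, List.replicate_succ]
      · simp [hq, List.replicate_succ]

theorem chn_get (P Q i : ℕ) (hi : i < P + 1 + Q) :
    (List.replicate P false ++ true :: List.replicate Q false)[i]? = some (decide (i = P)) := by
  by_cases h1 : i < P
  · rw [List.getElem?_append_left (by simpa using h1)]
    rw [List.getElem?_replicate]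
    have : i ≠ P := by omega
    simp [h1, this]
  · rw [List.getElem?_append_right (by simpa using h1)]
    rw [List.length_replicate]
    by_cases h2 : i = P
    · subst h2
      simp
    · obtain ⟨r, hr⟩ : ∃ r, i - P = r + 1 := ⟨i - P - 1, by omega⟩
      rw [hr, List.getElem?_cons_succ, List.getElem?_replicate]
      have : r < Q := by omega
      simp [this, h2]

theorem chn_wd (β : List Ltr) (l : Ltr) : wd (β ++ [l]) = wd β ++ fw l.1 l.2.1 l.2.2 := by
  simp [wd]

omit [DecidableEq V] in
theorem chn_presA {L : ℕ} {C : Nm V L → Bool} {A B : List (MI V L)} (h : pres C (A ++ B)) :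
    pres C A ∧ pres C B :=
  ⟨fun m hm => h m (List.mem_append.2 (Or.inl hm)), fun m hm => h m (List.mem_append.2 (Or.inr hm))⟩

omit [DecidableEq V] in
theorem chn_presC {L : ℕ} {C : Nm V L → Bool} {a : MI V L} {B : List (MI V L)}
    (h : pres C (a :: B)) : (∀ n, a.nm = some n → C n = true) ∧ pres C B :=
  ⟨fun n hn => h a List.mem_cons_self n hn, fun m hm => h m (List.mem_cons_of_mem _ hm)⟩

omit [DecidableEq V] in
theorem chn_presA' {L : ℕ} {C : Nm V L → Bool} {A B : List (MI V L)} (hA : pres C A)
    (hB : pres C B) : pres C (A ++ B) := by
  intro m hm n hn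
  rcases List.mem_append.1 hm with hm | hm
  · exact hA m hm n hn
  · exact hB m hm n hn

omit [DecidableEq V] in
theorem chn_presC' {L : ℕ} {C : Nm V L → Bool} {a : MI V L} {B : List (MI V L)}
    (ha : ∀ n, a.nm = some n → C n = true) (hB : pres C B) : pres C (a :: B) := by
  intro m hm n hn
  rcases List.mem_cons.1 hm with hm | hm
  · subst hm
    exact ha n hn
  · exact hB m hm n hn

/-- the step common to all births -/
theorem chn_step {N P Q q : ℕ} {β : List Ltr} {X Y : List Bool} {w w' : List Gen}
    (hN : N = P + 1 + Q)
    (hs : X ++ Y = List.replicate P false ++ true :: List.replicate Q false) (hq : X.length = q)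
    (hβ : ∀ l ∈ β, goodL (P + 1 + Q) P l) (γ : List Ltr)
    (hγ : ∀ l ∈ γ, l.2.1 = [] ∧ l.1 + 1 < N + 1)
    (hst : Step (clo N (wd β ++ w)) (clo (N + 1) (wd (β.map (insL q)) ++ (wd γ ++ w'))))
    (ih : ∀ (β₁ : List Ltr) (P₁ Q₁ : ℕ),
      X ++ false :: Y = List.replicate P₁ false ++ true :: List.replicate Q₁ false →
      (∀ l ∈ β₁, goodL (P₁ + 1 + Q₁) P₁ l) →
      ∃ (n P' : ℕ) (β' : List Ltr), P' < n ∧ (∀ l ∈ β', goodL n P' l) ∧
        Iso (clo (P₁ + 1 + Q₁) (wd β₁ ++ w')) (clo n (wd β'))) :
    ∃ (n P' : ℕ) (β' : List Ltr), P' < n ∧ (∀ l ∈ β', goodL n P' l) ∧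
      Iso (clo (P + 1 + Q) (wd β ++ w)) (clo n (wd β')) := by
  subst hN
  have h1 := chn_ins X Y P Q hs
  rw [hq] at h1
  have hsum : (if q ≤ P then P + 1 else P) + 1 + (if q ≤ P then Q else Q + 1) = P + 1 + Q + 1 := by
    split_ifs <;> omega
  obtain ⟨n, P', β', hP', hβ', hI⟩ := ih (β.map (insL q) ++ γ) _ _ h1 (by
    rw [hsum]
    intro l hl
    rcases List.mem_append.1 hl with hl | hl
    · obtain ⟨l', hl', rfl⟩ := List.mem_map.1 hl
      exact goodL_ins _ _ _ _ (hβ l' hl')
    · obtain ⟨hl1, hl2⟩ := hγ l hl
      refine ⟨by rw [hl1]; simpa using hl2, ?_⟩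
      intro t ht
      rw [hl1] at ht
      exact absurd ht (by simp))
  refine ⟨n, P', β', hP', hβ', ?_⟩
  refine Relation.EqvGen.trans _ _ _ (Relation.EqvGen.rel _ _ hst) ?_
  rw [hsum] at hI
  have : wd (β.map (insL q) ++ γ) ++ w' = wd (β.map (insL q)) ++ (wd γ ++ w') := by
    simp [wd]
  rw [this] at hI
  exact hI

theorem chain {O : Code V} {ms : List (MI V O.loops)} {F : List (Nm V O.loops)}
    {T : List (Tok V O.loops)} {f : (Nm V O.loops → Bool) → List Gen} (h : MW O ms F T f)
    (C : Nm V O.loops → Bool) (β : List Ltr) (P Q : ℕ) (hp : pres C ms)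
    (hF : ∀ n ∈ F, C n = false) (hnd : F.Nodup)
    (hs : ms.flatMap (smk C) = List.replicate P false ++ true :: List.replicate Q false)
    (hβ : ∀ l ∈ β, goodL (P + 1 + Q) P l) :
    ∃ (n P' : ℕ) (β' : List Ltr), P' < n ∧ (∀ l ∈ β', goodL n P' l) ∧
      Iso (clo (P + 1 + Q) (wd β ++ f C)) (clo n (wd β')) := by
  induction h generalizing C β P Q with
  | done ms h =>
    refine ⟨P + 1 + Q, P, β, by omega, hβ, ?_⟩
    simp only [List.append_nil]
    exact Relation.EqvGen.refl _
  | post A D B x y a b i j v F T f hD ha hb h ih =>
    obtain ⟨pA, p1⟩ := chn_presA hp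
    obtain ⟨px, p2⟩ := chn_presC p1
    obtain ⟨pD, p3⟩ := chn_presA p2
    obtain ⟨py, pB⟩ := chn_presC p3
    have hlen : P + 1 + Q = vl C A + (1 + ((flags C D).length + (1 + vl C B))) := by
      have h1 := congrArg List.length hs
      rw [List.flatMap_append, List.flatMap_cons, List.flatMap_append, List.flatMap_cons,
        chn_off C D hD] at h1
      simp only [List.length_append, List.length_map, List.length_replicate, List.length_cons,
        chn_len] at h1
      have hx : (smk C (MI.up x (Sum.inl a) i)).length = 1 := by cases x <;> rfl
      have hy : (smk C (MI.up y (Sum.inl b) j)).length = 1 := by cases y <;> rfl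
      rw [hx, hy] at h1
      omega
    have hs' : (A ++ MI.up x (Sum.inl (some (v, false))) 0 ::
        (D ++ MI.up y (Sum.inl (some (v, true))) 0 :: B)).flatMap (smk C) =
        List.replicate P false ++ true :: List.replicate Q false := by
      rw [← hs]
      simp only [List.flatMap_append, List.flatMap_cons]
      congr 2
      · cases x <;> rfl
      · congr 1
        congr 1
        cases y <;> rfl
    obtain ⟨n, P', β', hP', hβ', hI⟩ := ih C (β ++ [(vl C A, flags C D, 1)]) P Q
      (chn_presA' pA (chn_presC' px (chn_presA' pD (chn_presC' py pB)))) hF hnd hs' (by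
        intro l hl
        rcases List.mem_append.1 hl with hl | hl
        · exact hβ l hl
        · rw [List.mem_singleton] at hl
          subst hl
          refine ⟨by simp only []; omega, ?_⟩
          intro t ht
          simp only [] at ht ⊢
          have h1 := chn_get P Q (vl C A + 1 + t) (by omega)
          rw [← hs, List.flatMap_append, List.flatMap_cons, List.flatMap_append,
            chn_off C D hD] at h1
          have hx : (smk C (MI.up x (Sum.inl a) i)).length = 1 := by cases x <;> rfl
          rw [List.getElem?_append_right (by rw [chn_len]; omega), chn_len,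
            List.getElem?_append_right (by rw [hx]; omega), hx,
            List.getElem?_append_left (by rw [List.length_map]; omega)] at h1
          have h2 : vl C A + 1 + t - vl C A - 1 = t := by omega
          rw [h2, List.getElem?_map, List.getElem?_eq_getElem ht] at h1
          simp only [Option.map_some, Option.some.injEq] at h1
          rw [show (decide (vl C A + 1 + t ≠ P)) = !(decide (vl C A + 1 + t = P)) from by simp,
            ← h1, Bool.not_not])
    refine ⟨n, P', β', hP', hβ', ?_⟩
    rw [chn_wd, List.append_assoc] at hI
    exact hI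
  | bR A B x x₁ x₂ a j v F T f ha hx h ih =>
    obtain ⟨pA, p1⟩ := chn_presA hp
    obtain ⟨px, pB⟩ := chn_presC p1
    set k : Nm V O.loops := Sum.inl (v, true) with hk
    have hCk : C k = false := hF k List.mem_cons_self
    have hnd' := List.nodup_cons.1 hnd
    have hF' : ∀ n ∈ F, C n = false ∧ n ≠ k := fun n hn =>
      ⟨hF n (List.mem_cons_of_mem _ hn), fun hnk => hnd'.1 (hnk ▸ hn)⟩
    have hF'' : ∀ n ∈ F, Function.update C k true n = false := fun n hn => by
      rw [Function.update_of_ne (hF' n hn).2]
      exact (hF' n hn).1
    have hkt : Function.update C k true k = true := Function.update_self ..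
    have hlen : vl C A + 1 + vl C B = P + 1 + Q := by
      have h1 := congrArg List.length hs
      rw [List.flatMap_append, List.flatMap_cons] at h1
      simp only [List.length_append, List.length_replicate, List.length_cons,
        chn_len] at h1
      have hx : (smk C (MI.up x (Sum.inl a) j)).length = 1 := by cases x <;> rfl
      rw [hx] at h1
      omega
    have hβ' : ∀ l ∈ β, l.1 + l.2.1.length + 1 < vl C A + 1 + vl C B := fun l hl => by
      rw [hlen]
      exact (hβ l hl).1
    rw [List.flatMap_append, List.flatMap_cons] at hs
    rcases hx with ⟨rfl, rfl⟩ | ⟨rfl, rfl, rfl⟩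
    · have hst := birR_post A B x₁ v F T f h C hCk hF' pA pB (fun n hn => px n hn) β hβ'
      refine chn_step (q := vl C A + 1) (X := A.flatMap (smk C) ++
        smk C (MI.up x₁ (Sum.inl a) j)) (Y := B.flatMap (smk C)) hlen
        (by rw [List.append_assoc]; exact hs) ?_ hβ [(vl C A, [], 1)] (by simp; omega) hst ?_
      · rw [List.length_append, chn_len]
        cases x₁ <;> rfl
      · intro β₁ P₁ Q₁ h1 h2
        refine ih (Function.update C k true) β₁ P₁ Q₁ ?_ hF'' hnd'.2 ?_ h2
        · refine chn_presA' (chn_pres C k A pA) (chn_presC' ?_ (chn_presC' ?_ (chn_presC' ?_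
            (chn_pres C k B pB))))
          · intro n hn
            exact chn_pres C k [MI.up x₁ (Sum.inl a) j] (chn_presC' px (fun _ hm => absurd hm List.not_mem_nil)) _ List.mem_cons_self n hn
          · intro n hn
            simp only [MI.nm, Option.some.injEq] at hn
            rw [← hn, hkt]
          · intro n hn
            simp only [MI.nm, Option.some.injEq] at hn
            rw [← hn, hkt]
        · rw [← h1]
          simp only [List.flatMap_append, List.flatMap_cons, chn_upd C k hCk A pA,
            chn_upd C k hCk B pB, List.append_assoc]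
          congr 1
          simp only [smk, hkt, if_true, List.nil_append, List.cons_append]
          cases x₁ <;> rfl
    · have hst := birR_jump A B v F T f h C hCk hF' pA pB β hβ'
      refine chn_step (q := vl C A) (X := A.flatMap (smk C))
        (Y := true :: B.flatMap (smk C)) hlen hs (chn_len C A) hβ [] (by simp)
        (by simpa [wd] using hst) ?_
      intro β₁ P₁ Q₁ h1 h2
      refine ih (Function.update C k true) β₁ P₁ Q₁ ?_ hF'' hnd'.2 ?_ h2
      · refine chn_presA' (chn_pres C k A pA) (chn_presC' ?_ (chn_presC' ?_ (chn_presC' ?_
          (chn_pres C k B pB))))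
        · intro n hn
          simp only [MI.nm, Option.some.injEq] at hn
          rw [← hn, hkt]
        · intro n hn
          simp [MI.nm] at hn
        · intro n hn
          simp only [MI.nm, Option.some.injEq] at hn
          rw [← hn, hkt]
      · rw [← h1]
        simp only [List.flatMap_append, List.flatMap_cons, chn_upd C k hCk A pA,
          chn_upd C k hCk B pB]
        congr 1
        simp only [smk, hkt, if_true, List.nil_append, List.cons_append]
  | bL A B x x₁ x₂ a j v F T f ha hx h ih =>
    obtain ⟨pA, p1⟩ := chn_presA hp
    obtain ⟨px, pB⟩ := chn_presC p1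
    set k : Nm V O.loops := Sum.inl (v, false) with hk
    have hCk : C k = false := hF k List.mem_cons_self
    have hnd' := List.nodup_cons.1 hnd
    have hF' : ∀ n ∈ F, C n = false ∧ n ≠ k := fun n hn =>
      ⟨hF n (List.mem_cons_of_mem _ hn), fun hnk => hnd'.1 (hnk ▸ hn)⟩
    have hF'' : ∀ n ∈ F, Function.update C k true n = false := fun n hn => by
      rw [Function.update_of_ne (hF' n hn).2]
      exact (hF' n hn).1
    have hkt : Function.update C k true k = true := Function.update_self ..
    have hlen : vl C A + 1 + vl C B = P + 1 + Q := by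
      have h1 := congrArg List.length hs
      rw [List.flatMap_append, List.flatMap_cons] at h1
      simp only [List.length_append, List.length_replicate, List.length_cons,
        chn_len] at h1
      have hx : (smk C (MI.up x (Sum.inl a) j)).length = 1 := by cases x <;> rfl
      rw [hx] at h1
      omega
    have hβ' : ∀ l ∈ β, l.1 + l.2.1.length + 1 < vl C A + 1 + vl C B := fun l hl => by
      rw [hlen]
      exact (hβ l hl).1
    rw [List.flatMap_append, List.flatMap_cons] at hs
    rcases hx with ⟨rfl, rfl⟩ | ⟨rfl, rfl, rfl⟩
    · have hst := birL_post A B x₂ v F T f h C hCk hF' pA pB (fun n hn => px n hn) β hβ'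
      refine chn_step (q := vl C A) (X := A.flatMap (smk C))
        (Y := smk C (MI.up x₂ (Sum.inl a) j) ++ B.flatMap (smk C)) hlen
        hs (chn_len C A) hβ [(vl C A, [], 1)] (by simp; omega) hst ?_
      intro β₁ P₁ Q₁ h1 h2
      refine ih (Function.update C k true) β₁ P₁ Q₁ ?_ hF'' hnd'.2 ?_ h2
      · refine chn_presA' (chn_pres C k A pA) (chn_presC' ?_ (chn_presC' ?_ (chn_presC' ?_
          (chn_pres C k B pB))))
        · intro n hn
          simp only [MI.nm, Option.some.injEq] at hn
          rw [← hn, hkt]
        · intro n hn
          simp only [MI.nm, Option.some.injEq] at hn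
          rw [← hn, hkt]
        · intro n hn
          exact chn_pres C k [MI.up x₂ (Sum.inl a) j] (chn_presC' px (fun _ hm => absurd hm List.not_mem_nil)) _ List.mem_cons_self n hn
      · rw [← h1]
        simp only [List.flatMap_append, List.flatMap_cons, chn_upd C k hCk A pA,
          chn_upd C k hCk B pB]
        congr 1
        simp only [smk, hkt, if_true, List.nil_append, List.cons_append]
        cases x₂ <;> rfl
    · have hst := birL_jump A B v F T f h C hCk hF' pA pB β hβ'
      refine chn_step (q := vl C A + 1) (X := A.flatMap (smk C) ++ [true])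
        (Y := B.flatMap (smk C)) hlen (by rw [List.append_assoc]; exact hs) ?_ hβ
        [(vl C A, [], 2)] (by simp; omega) hst ?_
      · rw [List.length_append, chn_len]
        rfl
      · intro β₁ P₁ Q₁ h1 h2
        refine ih (Function.update C k true) β₁ P₁ Q₁ ?_ hF'' hnd'.2 ?_ h2
        · refine chn_presA' (chn_pres C k A pA) (chn_presC' ?_ (chn_presC' ?_ (chn_presC' ?_
            (chn_pres C k B pB))))
          · intro n hn
            simp only [MI.nm, Option.some.injEq] at hn
            rw [← hn, hkt]
          · intro n hn
            simp [MI.nm] at hn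
          · intro n hn
            simp only [MI.nm, Option.some.injEq] at hn
            rw [← hn, hkt]
        · rw [← h1]
          simp only [List.flatMap_append, List.flatMap_cons, chn_upd C k hCk A pA,
            chn_upd C k hCk B pB, List.append_assoc]
          congr 1
          simp only [smk, hkt, if_true, List.nil_append, List.cons_append]
  | capR A D B n F T f hD h ih =>
    obtain ⟨pA, p1⟩ := chn_presA hp
    obtain ⟨pn, p2⟩ := chn_presC p1
    obtain ⟨pD, p3⟩ := chn_presA p2
    obtain ⟨_, pB⟩ := chn_presC p3
    have hCn : C n = true := pn n rfl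
    have hw : (if C n then f C else
        mvR (vl C A) (flags C D) ++ Gen.cap (vl C A + (flags C D).length) :: f C) = f C := by
      rw [hCn]; rfl
    simp only [hw]
    refine ih C β P Q (chn_presA' pA (chn_presC' (fun m hm => pn m hm) (chn_presA' pD pB))) hF hnd ?_ hβ
    rw [← hs]
    simp only [List.flatMap_append, List.flatMap_cons, smk, hCn, if_true, List.nil_append]
  | capL A D B n F T f hD h ih =>
    obtain ⟨pA, p1⟩ := chn_presA hp
    obtain ⟨pn, p2⟩ := chn_presC p1
    obtain ⟨pD, p3⟩ := chn_presA p2
    obtain ⟨_, pB⟩ := chn_presC p3
    have hCn : C n = true := pn n rfl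
    have hw : (if C n then f C else
        mvL (vl C A + 1) (flags C D) ++ Gen.cap (vl C A) :: f C) = f C := by
      rw [hCn]; rfl
    simp only [hw]
    refine ih C β P Q (chn_presA' pA (chn_presA' pD (chn_presC' (fun m hm => pn m hm) pB))) hF hnd ?_ hβ
    rw [← hs]
    simp only [List.flatMap_append, List.flatMap_cons, smk, hCn, if_true, List.nil_append]
  | dieS A B a j F T f ha h ih =>
    obtain ⟨pA, p1⟩ := chn_presA hp
    obtain ⟨_, pB⟩ := chn_presC p1
    refine ih C β P Q (chn_presA' pA (chn_presC' (fun m hm => by simp [MI.nm] at hm) pB)) hF hnd ?_ hβ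
    rw [← hs]
    simp only [List.flatMap_append, List.flatMap_cons, smk]
  | fr n ms F T f h ih =>
    have hCk : C n = false := hF n List.mem_cons_self
    have hnd' := List.nodup_cons.1 hnd
    have hF' : ∀ n' ∈ F, C n' = false ∧ n' ≠ n := fun n' hn =>
      ⟨hF n' (List.mem_cons_of_mem _ hn), fun hnk => hnd'.1 (hnk ▸ hn)⟩
    have hF'' : ∀ n' ∈ F, Function.update C n true n' = false := fun n' hn => by
      rw [Function.update_of_ne (hF' n' hn).2]
      exact (hF' n' hn).1
    have hkt : Function.update C n true n = true := Function.update_self ..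
    have hlen : vl C ms = P + 1 + Q := by
      have h1 := congrArg List.length hs
      simp only [List.length_append, List.length_replicate, List.length_cons, chn_len] at h1
      omega
    have hβ' : ∀ l ∈ β, l.1 + l.2.1.length + 1 < vl C ms := fun l hl => by
      rw [hlen]
      exact (hβ l hl).1
    have hst := bir_fr ms n F T f h C hCk hF' hp β hβ'
    refine chn_step (q := 0) (X := []) (Y := ms.flatMap (smk C)) hlen hs rfl hβ []
      (by simp) (by simpa [wd] using hst) ?_
    intro β₁ P₁ Q₁ h1 h2
    refine ih (Function.update C n true) β₁ P₁ Q₁ ?_ hF'' hnd'.2 ?_ h2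
    · refine chn_presC' ?_ (chn_presC' ?_ (chn_pres C n ms hp))
      · intro m hm
        simp only [MI.nm, Option.some.injEq] at hm
        rw [← hm, hkt]
      · intro m hm
        simp only [MI.nm, Option.some.injEq] at hm
        rw [← hm, hkt]
    · rw [← h1]
      simp only [List.flatMap_cons, chn_upd C n hCk ms hp]
      simp only [smk, hkt, if_true, List.nil_append, List.cons_append]

end Pool.Agent.H53.SQ
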