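import Pool.Agent.H53.SQ.CDefs
import Pool.Agent.H53.SQ.ADDB

/-!
# Module CONVA: facts about the strands of a frontier

PROOFS: inductions on the list (`List.flatMap_cons`, case analysis on the item, `split_ifs`,
`Function.update`). For the facts about `xU`, `xC` the items of `D` are `dead n` or `sdead`.
`scan_mono`: facts about `scan` used in the case `n = k` of `capR`/`capL` in `conv`.
* `scan_inv1`: if `scan C k 1 D = some s` and `D` is off, then `s = 1` and no item of `D` is a `dead n` with
  `n = k` or `C n`; so `flags C D = replicate _ false`, `StU C k D = replicate _ (inl true)`.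
* `scan_at_up`: if `scan C k 0 (A ++ up (some k) x j :: (D ++ ret k :: B)) = some 3` and `D` is off, then
  `scan C k 0 A = some 0`, `scan C k 1 D = some 1`, `scan C k 3 B = some 3` (look at the state after `A`:
  `0` is fine; from `1`, `3` the item `up k` gives `none`; from `2` it gives `3`, the items of `D` keep
  `3` or give `none`, and `ret k` gives `none`). States other than `0,1,2,3` do not occur
  (`scan` starting in `0`): prove `scan C k s A = some s' → s ≤ 3 → s' ≤ 3`.
* `scan_at_ret`: the mirror image.
-/

namespace Pool.Agent.H53.SQ

variable {V : Type} [DecidableEq V] {L : ℕ}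

theorem conva_StU_cons (C : Nm V L → Bool) (k : Nm V L) (m : MI V L) (A : List (MI V L)) :
    StU C k (m :: A) = lnU C k m ++ StU C k A := rfl

theorem conva_StC_cons (C : Nm V L → Bool) (k : Nm V L) (m : MI V L) (A : List (MI V L)) :
    StC C k (m :: A) = lnC C k m ++ StC C k A := rfl

omit [DecidableEq V] in
theorem conva_vl_cons (C : Nm V L → Bool) (m : MI V L) (A : List (MI V L)) :
    vl C (m :: A) = vis C m + vl C A := by
  simp [vl]

theorem length_StU (C : Nm V L → Bool) (k : Nm V L) (hk : C k = false)
    (A : List (MI V L)) : (StU C k A).length = vl C A := by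
  induction A with
  | nil => rfl
  | cons m A ih =>
    rw [conva_StU_cons, conva_vl_cons, List.length_append, ih]
    congr 1
    cases m with
    | up n x j => rfl
    | ret n =>
      simp only [lnU, vis]
      by_cases h : n = k
      · subst h; simp [hk]
      · simp only [if_neg h]
        cases C n <;> rfl
    | dead n =>
      simp only [lnU, vis]
      by_cases h : n = k
      · subst h; simp [hk]
      · simp only [if_neg h]
        cases C n <;> rfl
    | sdead => rfl

theorem length_StC (C : Nm V L → Bool) (k : Nm V L) (A : List (MI V L)) :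
    (StC C k A).length = vl (Function.update C k true) A := by
  induction A with
  | nil => rfl
  | cons m A ih =>
    rw [conva_StC_cons, conva_vl_cons, List.length_append, ih]
    congr 1
    cases m with
    | up n x j => rfl
    | ret n =>
      simp only [lnC, vis]
      by_cases h : n = k
      · subst h; simp
      · simp only [if_neg h, Function.update_of_ne h]
        cases C n <;> rfl
    | dead n =>
      simp only [lnC, vis]
      by_cases h : n = k
      · subst h; simp
      · simp only [if_neg h, Function.update_of_ne h]
        cases C n <;> rfl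
    | sdead => rfl

theorem openCount_StU (C : Nm V L → Bool) (k : Nm V L) (A : List (MI V L)) :
    openCount (StU C k A) = openCount (StC C k A) := by
  induction A with
  | nil => rfl
  | cons m A ih =>
    rw [conva_StU_cons, conva_StC_cons, openCount_append, openCount_append, ih]
    congr 1
    cases m with
    | up n x j => rfl
    | ret n =>
      simp only [lnU, lnC]
      by_cases h : n = k
      · simp only [if_pos h]; rfl
      · simp only [if_neg h]
    | dead n =>
      simp only [lnU, lnC]
      by_cases h : n = k
      · simp only [if_pos h]; rfl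
      · simp only [if_neg h]
    | sdead => rfl

theorem scan_append (C : Nm V L → Bool) (k : Nm V L) (s : ℕ) (A B : List (MI V L)) :
    scan C k s (A ++ B) = (scan C k s A).bind (fun s' => scan C k s' B) := by
  induction A generalizing s with
  | nil => rfl
  | cons m A ih =>
    show (stp C k s m).bind (fun s' => scan C k s' (A ++ B)) =
      ((stp C k s m).bind (fun s' => scan C k s' A)).bind (fun s' => scan C k s' B)
    rw [Option.bind_assoc]
    congr 1
    funext s'
    exact ih s'

theorem alive_append (k : Nm V L) (A B : List (MI V L)) :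
    alive k (A ++ B) = alive k A + alive k B := by
  induction A with
  | nil => simp [alive]
  | cons m A ih =>
    cases m with
    | up n x j =>
      cases n with
      | none => exact ih
      | some n =>
        rw [List.cons_append]
        simp only [alive, ih]
        split_ifs <;> omega
    | ret n => exact ih
    | dead n => exact ih
    | sdead => exact ih

def xU (C : Nm V L → Bool) (k : Nm V L) : MI V L → List ((Bool ⊕ ℕ) × Bool)
  | .dead n => if n = k then [] else if C n then [(Sum.inl true, true)] else []
  | .sdead => [(Sum.inl true, false)]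
  | _ => []

def xC (C : Nm V L → Bool) (k : Nm V L) : MI V L → List ((Bool ⊕ ℕ) × Bool)
  | .dead n => if n = k then [(Sum.inr 0, true)] else if C n then [(Sum.inl true, true)] else []
  | .sdead => [(Sum.inl true, false)]
  | _ => []

theorem conva_oflags_append (X Y : List ((Bool ⊕ ℕ) × Bool)) :
    oflags (X ++ Y) = oflags X ++ oflags Y := by
  simp [oflags]

theorem conva_Xok_append {ov : Bool} {X Y : List ((Bool ⊕ ℕ) × Bool)} (hX : Xok ov X)
    (hY : Xok ov Y) : Xok ov (X ++ Y) := by
  intro x hx
  rcases List.mem_append.1 hx with h | h
  · exact hX x h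
  · exact hY x h

theorem conva_Xok_nil {ov : Bool} : Xok ov [] := by
  intro x hx
  simp at hx

theorem conva_Xok_one {ov b : Bool} : Xok ov [(Sum.inl true, b)] := by
  intro x hx
  rw [List.mem_singleton] at hx
  subst hx
  exact Or.inl rfl

theorem xU_facts (C : Nm V L → Bool) (k : Nm V L) (hk : C k = false) (D : List (MI V L))
    (hD : ∀ m ∈ D, m.off = true) :
    (D.flatMap (xU C k)).map Prod.fst = StU C k D ∧
    (D.flatMap (xU C k)).map Prod.snd = flags C D ∧
    oflags (D.flatMap (xU C k)) = flags C D ∧ Xok false (D.flatMap (xU C k)) := by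
  induction D with
  | nil => exact ⟨rfl, rfl, rfl, conva_Xok_nil⟩
  | cons m D ih =>
    obtain ⟨h1, h2, h3, h4⟩ := ih fun e he => hD e (List.mem_cons_of_mem _ he)
    have hm := hD m List.mem_cons_self
    rw [List.flatMap_cons, List.map_append, List.map_append, conva_oflags_append, conva_StU_cons,
      h1, h2, h3]
    cases m with
    | up n x j => exact absurd hm (by simp [MI.off])
    | ret n => exact absurd hm (by simp [MI.off])
    | dead n =>
      simp only [xU, lnU, flags]
      by_cases h : n = k
      · subst h
        simp only [if_true, hk, Bool.false_eq_true, if_false, List.map_nil, List.nil_append]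
        refine ⟨?_, ?_, ?_, h4⟩ <;> trivial
      · simp only [if_neg h]
        cases hC : C n with
        | false =>
          simp only [Bool.false_eq_true, if_false, List.map_nil, List.nil_append]
          refine ⟨?_, ?_, ?_, h4⟩ <;> trivial
        | true =>
          simp only [if_true]
          exact ⟨rfl, rfl, rfl, conva_Xok_append conva_Xok_one h4⟩
    | sdead => exact ⟨rfl, rfl, rfl, conva_Xok_append conva_Xok_one h4⟩

theorem xC_facts (C : Nm V L → Bool) (k : Nm V L) (hk : C k = false) (D : List (MI V L))
    (hD : ∀ m ∈ D, m.off = true) :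
    (D.flatMap (xC C k)).map Prod.fst = StC C k D ∧
    (D.flatMap (xC C k)).map Prod.snd = flags (Function.update C k true) D ∧
    oflags (D.flatMap (xC C k)) = flags C D ∧ Xok false (D.flatMap (xC C k)) := by
  induction D with
  | nil => exact ⟨rfl, rfl, rfl, conva_Xok_nil⟩
  | cons m D ih =>
    obtain ⟨h1, h2, h3, h4⟩ := ih fun e he => hD e (List.mem_cons_of_mem _ he)
    have hm := hD m List.mem_cons_self
    rw [List.flatMap_cons, List.map_append, List.map_append, conva_oflags_append, conva_StC_cons,
      h1, h2, h3]
    cases m with
    | up n x j => exact absurd hm (by simp [MI.off])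
    | ret n => exact absurd hm (by simp [MI.off])
    | dead n =>
      simp only [xC, lnC, flags]
      by_cases h : n = k
      · subst h
        simp only [if_true, hk, Bool.false_eq_true, if_false, Function.update_self]
        refine ⟨rfl, rfl, rfl, conva_Xok_append ?_ h4⟩
        intro x hx
        rw [List.mem_singleton] at hx
        subst hx
        exact Or.inr ⟨0, rfl, rfl⟩
      · simp only [if_neg h, Function.update_of_ne h]
        cases hC : C n with
        | false =>
          simp only [Bool.false_eq_true, if_false, List.map_nil, List.nil_append]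
          refine ⟨?_, ?_, ?_, h4⟩ <;> trivial
        | true =>
          simp only [if_true]
          exact ⟨rfl, rfl, rfl, conva_Xok_append conva_Xok_one h4⟩
    | sdead => exact ⟨rfl, rfl, rfl, conva_Xok_append conva_Xok_one h4⟩

theorem conva_bind {α : Type} {o : Option α} {f : α → Option ℕ} {s' : ℕ} (h : o.bind f = some s') :
    ∃ a, o = some a ∧ f a = some s' := by
  cases o with
  | none => exact absurd h (by simp)
  | some a => exact ⟨a, rfl, h⟩

theorem conva_dead {C : Nm V L → Bool} {k n : Nm V L} {s s' : ℕ} (hs : s = 1 ∨ s = 2)
    (h : stp C k s (MI.dead n) = some s') : s' = s ∧ n ≠ k ∧ C n = false := by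
  rcases hs with rfl | rfl
  · simp only [stp] at h
    split_ifs at h with h1 h2
    simp only [Option.some.injEq] at h
    exact ⟨h.symm, h1, by simpa using h2⟩
  · simp only [stp] at h
    split_ifs at h with h1 h2
    simp only [Option.some.injEq] at h
    exact ⟨h.symm, h1, by simpa using h2⟩

theorem conva_inv (C : Nm V L → Bool) (k : Nm V L) (s s' : ℕ)
    (hs : s = 1 ∨ s = 2) (D : List (MI V L)) (hD : ∀ m ∈ D, m.off = true)
    (h : scan C k s D = some s') :
    s' = s ∧ flags C D = List.replicate (flags C D).length false ∧
      StU C k D = List.replicate (flags C D).length (Sum.inl true) ∧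
      (∀ t, t = 0 ∨ t = 3 → scan C k t D = some t) ∧ (MI.dead k ∉ D) := by
  induction D with
  | nil =>
    have h' : some s = some s' := h
    simp only [Option.some.injEq] at h'
    exact ⟨h'.symm, rfl, rfl, fun t _ => rfl, by simp⟩
  | cons m D ih =>
    have hD' : ∀ m ∈ D, m.off = true := fun e he => hD e (List.mem_cons_of_mem _ he)
    have hm := hD m List.mem_cons_self
    obtain ⟨a, ha, h2⟩ := conva_bind h
    cases m with
    | up n x j => exact absurd hm (by simp [MI.off])
    | ret n => exact absurd hm (by simp [MI.off])
    | dead n =>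
      obtain ⟨rfl, hnk, hCn⟩ := conva_dead hs ha
      obtain ⟨g1, g2, g3, g4, g5⟩ := ih hD' h2
      have hf : flags C (MI.dead n :: D) = flags C D := by
        simp only [flags, hCn, Bool.false_eq_true, if_false]
      refine ⟨g1, ?_, ?_, ?_, ?_⟩
      · rw [hf]; exact g2
      · rw [hf, conva_StU_cons]
        simp only [lnU, if_neg hnk, hCn, Bool.false_eq_true, if_false, List.nil_append]
        exact g3
      · intro t ht
        show (stp C k t (MI.dead n)).bind (fun s' => scan C k s' D) = some t
        have : stp C k t (MI.dead n) = some t := by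
          rcases ht with rfl | rfl
          · simp only [stp, if_neg hnk]
          · show stp C k (0 + 3) (MI.dead n) = some (0 + 3)
            simp only [stp, if_neg hnk]
        rw [this]
        exact g4 t ht
      · rw [List.mem_cons, not_or]
        refine ⟨fun h' => hnk ?_, g5⟩
        injection h' with h'
        exact h'.symm
    | sdead =>
      have has : a = s := by
        rcases hs with rfl | rfl <;> simp only [stp, Option.some.injEq] at ha <;> exact ha.symm
      subst has
      obtain ⟨g1, g2, g3, g4, g5⟩ := ih hD' h2
      have hf : flags C (MI.sdead :: D) = false :: flags C D := rfl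
      refine ⟨g1, ?_, ?_, ?_, ?_⟩
      · rw [hf, List.length_cons, List.replicate_succ, ← g2]
      · rw [hf, List.length_cons, List.replicate_succ, ← g3]
        rfl
      · intro t ht
        show (stp C k t MI.sdead).bind (fun s' => scan C k s' D) = some t
        have : stp C k t MI.sdead = some t := by
          rcases ht with rfl | rfl <;> rfl
        rw [this]
        exact g4 t ht
      · rw [List.mem_cons, not_or]
        exact ⟨by simp, g5⟩

theorem scan_inv (C : Nm V L → Bool) (k : Nm V L) (hk : C k = false) (s s' : ℕ)
    (hs : s = 1 ∨ s = 2) (D : List (MI V L)) (hD : ∀ m ∈ D, m.off = true)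
    (h : scan C k s D = some s') :
    s' = s ∧ flags C D = List.replicate (flags C D).length false ∧
      StU C k D = List.replicate (flags C D).length (Sum.inl true) ∧
      (∀ t, t = 0 ∨ t = 3 → scan C k t D = some t) ∧ (MI.dead k ∉ D) :=
  conva_inv C k s s' hs D hD h

theorem conva_stp_le (C : Nm V L → Bool) (k : Nm V L) (s s' : ℕ) (m : MI V L) (hs : s ≤ 3)
    (h : stp C k s m = some s') : s' ≤ 3 ∧ (s = 3 → s' = 3) := by
  obtain rfl | rfl | rfl | rfl : s = 0 ∨ s = 1 ∨ s = 2 ∨ s = 0 + 3 := by omega
  all_goals
    rcases m with ⟨_ | n, x, j⟩ | n | n | _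
    all_goals
      simp only [stp] at h
      repeat' split at h
      all_goals
        first
        | (simp only [Option.some.injEq] at h; subst h; omega)
        | (exact absurd h (by simp))

theorem conva_scan_le (C : Nm V L → Bool) (k : Nm V L) (A : List (MI V L)) : ∀ s s' : ℕ, s ≤ 3 →
    scan C k s A = some s' → s' ≤ 3 ∧ (s = 3 → s' = 3) := by
  induction A with
  | nil =>
    intro s s' hs h
    have h' : some s = some s' := h
    simp only [Option.some.injEq] at h'
    subst h'
    exact ⟨hs, fun h => h⟩
  | cons m A ih =>
    intro s s' hs h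
    obtain ⟨a, ha, h2⟩ := conva_bind h
    obtain ⟨h3, h4⟩ := conva_stp_le C k s a m hs ha
    obtain ⟨h5, h6⟩ := ih a s' h3 h2
    exact ⟨h5, fun h => h6 (h4 h)⟩

theorem scan_at_up (C : Nm V L → Bool) (k : Nm V L) (A D B : List (MI V L)) (x : Edge V L) (j : ℕ)
    (hD : ∀ m ∈ D, m.off = true)
    (h : scan C k 0 (A ++ MI.up (some k) x j :: (D ++ MI.ret k :: B)) = some 3) :
    scan C k 0 A = some 0 ∧ scan C k 1 D = some 1 ∧ scan C k 3 B = some 3 := by
  rw [scan_append] at h
  obtain ⟨a, ha, h⟩ := conva_bind h
  obtain ⟨ha3, -⟩ := conva_scan_le C k A 0 a (by omega) ha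
  obtain ⟨b, hb, h⟩ := conva_bind h
  rw [scan_append] at h
  obtain ⟨c, hc, h⟩ := conva_bind h
  obtain ⟨e, he, h⟩ := conva_bind h
  obtain rfl | rfl | rfl | rfl : a = 0 ∨ a = 1 ∨ a = 2 ∨ a = 0 + 3 := by omega
  · simp only [stp, if_true, Option.some.injEq] at hb
    subst hb
    obtain ⟨rfl, -⟩ := conva_inv C k 1 c (Or.inl rfl) D hD hc
    simp only [stp, if_true, Option.some.injEq] at he
    subst he
    exact ⟨ha, hc, h⟩
  · simp only [stp, if_true] at hb
    exact absurd hb (by simp)
  · simp only [stp, if_true, Option.some.injEq] at hb
    subst hb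
    obtain ⟨-, hc3⟩ := conva_scan_le C k D 3 c (by omega) hc
    obtain rfl := hc3 rfl
    have he' : stp C k (0 + 3) (MI.ret k) = some e := he
    simp only [stp, if_true] at he'
    exact absurd he' (by simp)
  · simp only [stp, if_true] at hb
    exact absurd hb (by simp)

theorem scan_at_ret (C : Nm V L → Bool) (k : Nm V L) (A D B : List (MI V L)) (x : Edge V L) (j : ℕ)
    (hD : ∀ m ∈ D, m.off = true)
    (h : scan C k 0 (A ++ MI.ret k :: (D ++ MI.up (some k) x j :: B)) = some 3) :
    scan C k 0 A = some 0 ∧ scan C k 2 D = some 2 ∧ scan C k 3 B = some 3 := by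
  rw [scan_append] at h
  obtain ⟨a, ha, h⟩ := conva_bind h
  obtain ⟨ha3, -⟩ := conva_scan_le C k A 0 a (by omega) ha
  obtain ⟨b, hb, h⟩ := conva_bind h
  rw [scan_append] at h
  obtain ⟨c, hc, h⟩ := conva_bind h
  obtain ⟨e, he, h⟩ := conva_bind h
  obtain rfl | rfl | rfl | rfl : a = 0 ∨ a = 1 ∨ a = 2 ∨ a = 0 + 3 := by omega
  · simp only [stp, if_true, Option.some.injEq] at hb
    subst hb
    obtain ⟨rfl, -⟩ := conva_inv C k 2 c (Or.inr rfl) D hD hc
    simp only [stp, if_true, Option.some.injEq] at he
    subst he
    exact ⟨ha, hc, h⟩
  · simp only [stp, if_true, Option.some.injEq] at hb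
    subst hb
    obtain ⟨-, hc3⟩ := conva_scan_le C k D 3 c (by omega) hc
    obtain rfl := hc3 rfl
    have he' : stp C k (0 + 3) (MI.up (some k) x j) = some e := he
    simp only [stp, if_true] at he'
    exact absurd he' (by simp)
  · simp only [stp, if_true] at hb
    exact absurd hb (by simp)
  · simp only [stp, if_true] at hb
    exact absurd hb (by simp)

end Pool.Agent.H53.SQ
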