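import Pool.Agent.H53.SQ.Base

/-!
# Module CUPC: the cups and caps of a closed braid

PROOFS. `cups (n+1) = cups n ++ [cup n true]` (`List.range_succ`), `caps (n+1) = cap n :: caps n`.
* `add_cups`: induction on `n`, generalizing `e w`. `cups (n+1) ++ e = cups n ++ (cup n true :: e)`;
  apply the induction hypothesis to `Add.cup (replicate n (inl true)) (replicate n (inl false)) true`
  (`replicate n x ++ x :: l = x :: replicate n x ++ l`, `openCount (replicate n (inl true)) = n`).
* `add_caps`: induction on `n`, `Add.cap (replicate n (inl true)) (replicate n (inl false)) true`.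
* `add_cups_arc a b`: induction on `b`. `b = 0`: the last cup of `cups (a+1)` is the arc:
  `Add.acup₁ (replicate a (inl true)) (replicate a (inl false)) 0`, then `add_cups a`.
  `b + 1`: the last cup of `cups (a+b+2)` (position `a+b+1` in `w`, position `a+b` in `e`) is
  `Add.cup (replicate a (inl true) ++ inr 2 :: replicate b (inl true)) (replicate b (inl false) ++ inr 1 :: ...)`.
* `add_caps_arc a b`: the same with `Add.acap₁ ... 0` and `Add.cap`.
-/

namespace Pool.Agent.H53.SQ

theorem CUPC_oc (n : ℕ) (l : List (Bool ⊕ ℕ)) :
    openCount (List.replicate n (Sum.inl true) ++ l) = n + openCount l := by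
  induction n with
  | zero => simp
  | succ n ih => rw [List.replicate_succ, List.cons_append, openCount, ih]; omega

theorem CUPC_cups_succ (n : ℕ) (l : List Gen) :
    cups (n + 1) ++ l = cups n ++ (Gen.cup n true :: l) := by
  simp [cups, List.range_succ]

theorem CUPC_caps_succ (n : ℕ) : caps (n + 1) = Gen.cap n :: caps n := by
  simp [caps, List.range_succ]

theorem CUPC_rep (n : ℕ) (x : Bool ⊕ ℕ) (l : List (Bool ⊕ ℕ)) :
    List.replicate (n + 1) x ++ l = List.replicate n x ++ x :: l := by
  rw [List.replicate_succ', List.append_assoc]; rfl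

theorem add_cups (ov : Bool) (n : ℕ) (e w : List Gen)
    (h : Add ov (List.replicate n (Sum.inl true) ++ List.replicate n (Sum.inl false)) e w) :
    Add ov [] (cups n ++ e) (cups n ++ w) := by
  induction n generalizing e w with
  | zero => simpa [cups] using h
  | succ n ih =>
    rw [CUPC_cups_succ, CUPC_cups_succ]
    apply ih
    have h1 := Add.cup (List.replicate n (Sum.inl true)) (List.replicate n (Sum.inl false)) true e w
      (by rw [CUPC_rep, List.replicate_succ] at h; exact h)
    have h2 := CUPC_oc n []
    rw [List.append_nil] at h2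
    rw [h2, List.length_replicate] at h1
    exact h1

theorem add_cups_arc (ov : Bool) (a b : ℕ) (e w : List Gen)
    (h : Add ov (List.replicate a (Sum.inl true) ++ Sum.inr 2 :: (List.replicate b (Sum.inl true) ++
      (List.replicate b (Sum.inl false) ++ Sum.inr 1 :: List.replicate a (Sum.inl false)))) e w) :
    Add ov [] (cups (a + b) ++ e) (cups (a + b + 1) ++ w) := by
  induction b generalizing e w with
  | zero =>
    rw [CUPC_cups_succ]
    apply add_cups
    have h1 := Add.acup₁ (List.replicate a (Sum.inl true)) (List.replicate a (Sum.inl false)) 0 e w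
      (by simpa using h)
    rw [List.length_replicate] at h1
    simpa using h1
  | succ b ih =>
    rw [← Nat.add_assoc, CUPC_cups_succ, CUPC_cups_succ]
    apply ih
    have h1 := Add.cup (List.replicate a (Sum.inl true) ++ Sum.inr 2 ::
      List.replicate b (Sum.inl true)) (List.replicate b (Sum.inl false) ++ Sum.inr 1 ::
        List.replicate a (Sum.inl false)) true e w
      (by
        rw [CUPC_rep b (Sum.inl true)] at h
        simpa [List.replicate_succ] using h)
    have h2 := CUPC_oc b []
    rw [List.append_nil] at h2
    rw [CUPC_oc, openCount, h2] at h1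
    have h3 : (List.replicate a (Sum.inl true) ++ (Sum.inr 2 : Bool ⊕ ℕ) ::
      List.replicate b (Sum.inl true)).length = a + b + 1 := by simp; omega
    rw [h3] at h1
    simpa [openCount] using h1

theorem add_caps (ov : Bool) (n : ℕ) :
    Add ov (List.replicate n (Sum.inl true) ++ List.replicate n (Sum.inl false)) (caps n)
      (caps n) := by
  induction n with
  | zero => simpa [caps] using Add.nil
  | succ n ih =>
    rw [CUPC_caps_succ]
    have h1 := Add.cap (List.replicate n (Sum.inl true)) (List.replicate n (Sum.inl false)) true _ _ ih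
    have h2 := CUPC_oc n []
    rw [List.append_nil] at h2
    rw [h2, List.length_replicate] at h1
    rw [CUPC_rep, List.replicate_succ]
    exact h1

theorem add_caps_arc (ov : Bool) (a b : ℕ) :
    Add ov (List.replicate a (Sum.inl true) ++ Sum.inr 0 :: (List.replicate b (Sum.inl true) ++
      (List.replicate b (Sum.inl false) ++ Sum.inr 1 :: List.replicate a (Sum.inl false))))
      (caps (a + b)) (caps (a + b + 1)) := by
  induction b with
  | zero =>
    rw [CUPC_caps_succ]
    have h1 := Add.acap₁ (List.replicate a (Sum.inl true)) (List.replicate a (Sum.inl false)) 0 _ _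
      (add_caps ov a)
    rw [List.length_replicate] at h1
    simpa using h1
  | succ b ih =>
    rw [← Nat.add_assoc, CUPC_caps_succ, CUPC_caps_succ (a + b + 1)]
    have h1 := Add.cap (ov := ov) (List.replicate a (Sum.inl true) ++ Sum.inr 0 ::
      List.replicate b (Sum.inl true)) (List.replicate b (Sum.inl false) ++ Sum.inr 1 ::
        List.replicate a (Sum.inl false)) true _ _ (by simpa using ih)
    have h2 := CUPC_oc b []
    rw [List.append_nil] at h2
    rw [CUPC_oc, openCount, h2] at h1
    have h3 : (List.replicate a (Sum.inl true) ++ (Sum.inr 0 : Bool ⊕ ℕ) ::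
      List.replicate b (Sum.inl true)).length = a + b + 1 := by simp; omega
    rw [h3] at h1
    rw [CUPC_rep b (Sum.inl true)]
    simpa [List.replicate_succ, openCount] using h1

theorem countP_cups (n : ℕ) :
    (cups n).countP Gen.isBorn = 0 ∧ (cups n).countP Gen.isDie = 0 := by
  constructor <;>
  · rw [List.countP_eq_zero]
    intro g hg
    rw [cups, List.mem_map] at hg
    obtain ⟨i, _, rfl⟩ := hg
    simp [Gen.isBorn, Gen.isDie]

theorem countP_caps (n : ℕ) :
    (caps n).countP Gen.isBorn = 0 ∧ (caps n).countP Gen.isDie = 0 := by
  constructor <;>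
  · rw [List.countP_eq_zero]
    intro g hg
    rw [caps, List.mem_map] at hg
    obtain ⟨i, _, rfl⟩ := hg
    simp [Gen.isBorn, Gen.isDie]

end Pool.Agent.H53.SQ
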