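import Pool.Agent.H53.SQ.CDefs
import Pool.Agent.H53.SQ.CONVA
import Pool.Agent.H53.SQ.CUPC

/-!
# Module CONV: the words `f C` and `f (C ∪ k)` are obtained from one open word by adding an under-arc

`C` = circles already converted, `k` = the circle which is being converted (not in `C`). All circles
born later (`F`) are neither in `C` nor equal to `k`. `a + b` = number of final strands without
`k`; `k` has `a` final strands to its left.

PROOF: induction on `h : MW O ms F T f`, generalizing nothing but the hypotheses on `F` and `ms`
(`C`, `k`, `a`, `b` are fixed). General facts (module CONVA):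
(i) `(StU C k A).length = vl C A` (uses `C k = false`) and
    `(StC C k A).length = vl (Function.update C k true) A`;
(ii) `openCount (StU C k A) = openCount (StC C k A) =: oc A`;
(iii) `scan C k s (A ++ B) = (scan C k s A).bind (fun s' => scan C k s' B)`, `alive` and `StU`, `StC`,
    `flatMap` are additive;
(iv) `xU_facts`, `xC_facts` for `XU = D.flatMap (xU C k)`, `XC = D.flatMap (xC C k)`.
Constructors (write `P = oc A`):
* `done`: all items are off, `f C = []`; `StU C k ms = replicate (a + b) (inl true)`,
  `StC C k ms = replicate a (inl true) ++ inr 0 :: replicate b (inl true)` (read off from the list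
  `ms.flatMap (mkI C k)`, since for off items `lnU`/`lnC` are functions of `mkI`); take
  `e = caps (a + b)`, `add_caps`, `add_caps_arc`, `alive k ms = 0`.
* `post`: `e = fw P (flags C D) 1 ++ e'`, `add_fw` with `XU`, `XC` (`alive`, `scan`, `mkI`, `StU`, `StC` of
  the old and of the new frontier are equal).
* `bR` with the new circle `n = inl (v, true)` (`n ≠ k`, `C n = false`):
  `e = cup (P+1) true :: cross P true :: e'`; `Add.cup (StU A ++ [inl true]) .. true`, then `Add.cross`.
  `bL` similar: `e = cup P false :: cross (P+1) true :: e'`. Invariants: `x₁, x₂` are `x` and `n`; `up n`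
  and `ret n` do not change `scan` (they are never a problem because `C n = false`, `n ≠ k`), `mkI` of
  them is empty; in the case `x = none` use that `up none` does nothing in `scan`.
* `capR` for `n`:
  - `n = k` (so `C n = false`, `update C k true n = true`): from `scan C k 0 ms = some 3` follows that
    `scan C k 0 A = some 0`, `scan C k 1 D = some 1` and `scan C k 3 B = some 3` (after `up k` from the
    state `2` we would be in state `3` and `ret k` would give `none`); so `D` contains no item named
    `k` and no `dead c` with `C c`, therefore `flags C D` consists of `false` only and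
    `StU C k D = replicate _ (inl true)`. `e = die P :: e'`. U: `Add.die`, `arc_mvR` (with
    `ov = false`, `k = 0`), `Add.acap₁ .. 0` (`inr 0 :: inr 1`). C: `Add.die` only. New frontier:
    `scan C k 0 (A ++ dead k :: (D ++ B)) = some 3`. `alive` decreases by one, matching `die`.
  - `n ≠ k`, `C n = true`: both words are `f C` (the circle is converted); nothing happens, the
    strands are the same (`up n` and `dead n` are both `inl true`, `ret n` is empty), `scan` is the same.
  - `n ≠ k`, `C n = false`: `e = mvR P (flags C D) ++ cap (P + (flags C D).length) :: e'`; `add_mvR` with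
    `XU`/`XC`, then `Add.cap .. true`.
* `capL` for `n`: mirror image; `n = k`: state `scan C k 0 A = some 0`, then `ret k` gives `2`,
  `scan C k 2 D = some 2`; `Add.die`, `arc_mvL`, `Add.acap₂ .. 0` (`inr 1 :: inr 0`);
  `n ≠ k`, `C n = false`: `e = mvL (P+1) (flags C D) ++ cap P :: e'`, `add_mvL` with
  `Q = StU A ++ [inl false]`, then `Add.cap .. false`.
* `dieS`: `up none` and `sdead` have the same strands, `mkI`, `scan`, `alive`; same `e`.
* `fr n` (`n ≠ k`, `C n = false`): `e = cup 0 true :: e'`, `Add.cup [] _ true`.
`countP`: crossings, cups and caps count `0`, `die` counts `1`.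
-/

namespace Pool.Agent.H53.SQ

variable {V : Type} [DecidableEq V]

section
variable {L : ℕ} (C : Nm V L → Bool) (k : Nm V L)

theorem CONV_stp_up (s : ℕ) (x : Option (Nm V L)) (e e' : Edge V L) (j j' : ℕ) :
    stp C k s (.up x e j) = stp C k s (.up x e' j') := by
  cases x <;> match s with
  | 0 => rfl
  | 1 => rfl
  | 2 => rfl
  | s + 3 => rfl

theorem CONV_stp_none (s : ℕ) (e : Edge V L) (j : ℕ) : stp C k s (.up none e j) = some s := by
  match s with
  | 0 => rfl
  | 1 => rfl
  | 2 => rfl
  | s + 3 => rfl

theorem CONV_stp_sdead (s : ℕ) : stp C k s (.sdead) = some s := by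
  match s with
  | 0 => rfl
  | 1 => rfl
  | 2 => rfl
  | s + 3 => rfl

theorem CONV_stp_new (s : ℕ) (n : Nm V L) (hn : n ≠ k) (hC : C n = false) (e : Edge V L) (j : ℕ) :
    stp C k s (.up (some n) e j) = some s := by
  match s with
  | 0 => simp [stp, hn]
  | 1 => simp [stp, hn, hC]
  | 2 => simp [stp, hn, hC]
  | s + 3 => simp [stp, hn]

theorem CONV_stp_ret (s : ℕ) (n : Nm V L) (hn : n ≠ k) : stp C k s (.ret n) = some s := by
  match s with
  | 0 => simp [stp, hn]
  | 1 => simp [stp, hn]
  | 2 => simp [stp, hn]
  | s + 3 => simp [stp, hn]

theorem CONV_stp_dead (s : ℕ) (n : Nm V L) (hn : n ≠ k) (e : Edge V L) (j : ℕ) :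
    stp C k s (.up (some n) e j) = stp C k s (.dead n) := by
  match s with
  | 0 => simp [stp, hn]
  | 1 => simp [stp, hn]
  | 2 => simp [stp, hn]
  | s + 3 => simp [stp, hn]

theorem CONV_StU_append (A B : List (MI V L)) : StU C k (A ++ B) = StU C k A ++ StU C k B := by
  simp [StU]

theorem CONV_StC_append (A B : List (MI V L)) : StC C k (A ++ B) = StC C k A ++ StC C k B := by
  simp [StC]

theorem CONV_StU_cons (m : MI V L) (B : List (MI V L)) :
    StU C k (m :: B) = lnU C k m ++ StU C k B := by
  simp [StU]

theorem CONV_StC_cons (m : MI V L) (B : List (MI V L)) :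
    StC C k (m :: B) = lnC C k m ++ StC C k B := by
  simp [StC]

theorem CONV_off (ms : List (MI V L)) (hoff : ∀ m ∈ ms, m.off = true) :
    StU C k ms = (ms.flatMap (mkI C k)).flatMap (fun t => if t then [] else [Sum.inl true]) ∧
    StC C k ms = (ms.flatMap (mkI C k)).flatMap
      (fun t => if t then [Sum.inr 0] else [Sum.inl true]) ∧ alive k ms = 0 := by
  induction ms with
  | nil => simp [StU, StC, alive]
  | cons m ms ih =>
    obtain ⟨h1, h2, h3⟩ := ih (fun m' hm' => hoff m' (List.mem_cons_of_mem _ hm'))
    have hm := hoff m List.mem_cons_self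
    rw [CONV_StU_cons, CONV_StC_cons, h1, h2]
    cases m with
    | up n x j => simp [MI.off] at hm
    | ret n => simp [MI.off] at hm
    | dead n =>
      refine ⟨?_, ?_, by simpa [alive] using h3⟩
      · by_cases hn : n = k
        · simp [lnU, mkI, hn]
        · by_cases hc : C n = true
          · simp [lnU, mkI, hn, hc]
          · simp [lnU, mkI, hn, hc]
      · by_cases hn : n = k
        · simp [lnC, mkI, hn]
        · by_cases hc : C n = true
          · simp [lnC, mkI, hn, hc]
          · simp [lnC, mkI, hn, hc]
    | sdead => exact ⟨by simp [lnU, mkI], by simp [lnC, mkI], by simpa [alive] using h3⟩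

theorem CONV_scan_congr (A B : List (MI V L)) (m m' : MI V L)
    (h : ∀ t, stp C k t m = stp C k t m') (s : ℕ) :
    scan C k s (A ++ m :: B) = scan C k s (A ++ m' :: B) := by
  simp only [scan_append, scan, h]

theorem CONV_scan_neutral (A B : List (MI V L)) (m : MI V L)
    (h : ∀ t, stp C k t m = some t) (s : ℕ) :
    scan C k s (A ++ m :: B) = scan C k s (A ++ B) := by
  simp only [scan_append, scan, h, Option.bind_some]

theorem CONV_mk_up (x : Option (Nm V L)) (e e' : Edge V L) (j j' : ℕ) :
    mkI C k (.up x e j) = mkI C k (.up x e' j') := by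
  cases x <;> rfl

theorem CONV_mk_new (n : Nm V L) (hn : n ≠ k) (hC : C n = false) (e : Edge V L) (j : ℕ) :
    mkI C k (.up (some n) e j) = [] := by
  simp [mkI, hn, hC]

theorem CONV_alive_up (x : Option (Nm V L)) (e e' : Edge V L) (j j' : ℕ) (l : List (MI V L)) :
    alive k (.up x e j :: l) = alive k (.up x e' j' :: l) := by
  cases x <;> rfl

theorem CONV_alive_cons (m : MI V L) (l : List (MI V L)) :
    alive k (m :: l) = alive k [m] + alive k l := by
  rw [← alive_append]; rfl

end


theorem CONV_oc (X : List ((Bool ⊕ ℕ) × Bool)) :
    openCount (X.map Prod.fst) = (oflags X).length := by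
  induction X with
  | nil => rfl
  | cons x X ih =>
    obtain ⟨z, t⟩ := x
    rcases z with z | z
    · simp only [oflags, List.length_map] at ih
      rw [List.map_cons, openCount, ih, oflags, List.length_map,
        List.filter_cons_of_pos (by rfl)]
      rfl
    · simp only [oflags, List.length_map] at ih
      rw [List.map_cons, openCount, ih, oflags, List.length_map,
        List.filter_cons_of_neg (by simp)]

theorem CONV_fm (a : ℕ) (g : Bool → List (Bool ⊕ ℕ)) (z : Bool ⊕ ℕ) (hg : g false = [z]) :
    (List.replicate a false).flatMap g = List.replicate a z := by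
  induction a with
  | zero => rfl
  | succ a ih => rw [List.replicate_succ, List.replicate_succ, List.flatMap_cons, ih, hg]; rfl

theorem CONV_countP_fw (i : ℕ) (D : List Bool) (m : ℕ) :
    (fw i D m).countP Gen.isBorn = 0 ∧ (fw i D m).countP Gen.isDie = 0 := by
  induction D generalizing i with
  | nil => simp [fw, List.countP_replicate, Gen.isBorn, Gen.isDie]
  | cons f D ih =>
    simp [fw, Gen.isBorn, Gen.isDie, ih (i + 1)]

theorem CONV_countP_mvR (i : ℕ) (D : List Bool) :
    (mvR i D).countP Gen.isBorn = 0 ∧ (mvR i D).countP Gen.isDie = 0 := by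
  induction D generalizing i with
  | nil => simp [mvR]
  | cons f D ih =>
    simp [mvR, Gen.isBorn, Gen.isDie, ih (i + 1)]

theorem CONV_countP_mvL (i : ℕ) (D : List Bool) :
    (mvL i D).countP Gen.isBorn = 0 ∧ (mvL i D).countP Gen.isDie = 0 := by
  induction D generalizing i with
  | nil => simp [mvL]
  | cons f D ih =>
    simp [mvL, Gen.isBorn, Gen.isDie, ih (i + 1)]

section
variable {L : ℕ} (C : Nm V L → Bool) (k : Nm V L)

theorem CONV_two (x x₁ x₂ : Option (Nm V L)) (n : Nm V L) (hn : n ≠ k) (hC : C n = false)
    (hx : (x₁ = x ∧ x₂ = some n) ∨ (x = none ∧ x₁ = some n ∧ x₂ = none) ∨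
      (x₁ = some n ∧ x₂ = x) ∨ (x = none ∧ x₁ = none ∧ x₂ = some n))
    (e₁ e₂ e : Edge V L) (j : ℕ) (A B : List (MI V L)) :
    (∀ s, scan C k s (A ++ .up x₁ e₁ 0 :: .up x₂ e₂ 0 :: B) =
      scan C k s (A ++ .up x e j :: B)) ∧
    (A ++ .up x₁ e₁ 0 :: .up x₂ e₂ 0 :: B).flatMap (mkI C k) =
      (A ++ .up x e j :: B).flatMap (mkI C k) ∧
    alive k (A ++ .up x₁ e₁ 0 :: .up x₂ e₂ 0 :: B) = alive k (A ++ .up x e j :: B) := by
  have hal : ∀ (e' : Edge V L) (l : List (MI V L)), alive k (.up (some n) e' 0 :: l) = alive k l := by
    intro e' l; simp [alive, hn]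
  rcases hx with ⟨rfl, rfl⟩ | ⟨rfl, rfl, rfl⟩ | ⟨rfl, rfl⟩ | ⟨rfl, rfl, rfl⟩
  · refine ⟨fun s => ?_, ?_, ?_⟩
    · have h1 := CONV_scan_neutral C k (A ++ [.up x₁ e₁ 0]) B (.up (some n) e₂ 0)
        (CONV_stp_new C k · n hn hC _ _) s
      rw [List.append_assoc, List.append_assoc] at h1
      exact h1.trans (CONV_scan_congr C k A B _ _ (CONV_stp_up C k · _ _ _ _ _) s)
    · simp only [List.flatMap_append, List.flatMap_cons, CONV_mk_new C k n hn hC, List.nil_append]
      rw [CONV_mk_up C k x₁ e₁ e 0 j]
    · simp only [alive_append]
      rw [CONV_alive_cons, hal, ← CONV_alive_cons, CONV_alive_up k x₁ e₁ e 0 j]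
  · refine ⟨fun s => ?_, ?_, ?_⟩
    · rw [CONV_scan_neutral C k A _ (.up (some n) e₁ 0) (CONV_stp_new C k · n hn hC _ _) s]
      exact CONV_scan_congr C k A B _ _ (CONV_stp_up C k · _ _ _ _ _) s
    · simp only [List.flatMap_append, List.flatMap_cons, CONV_mk_new C k n hn hC, List.nil_append]
      rw [CONV_mk_up C k none e₂ e 0 j]
    · simp only [alive_append]
      rw [hal, CONV_alive_up k none e₂ e 0 j]
  · refine ⟨fun s => ?_, ?_, ?_⟩
    · rw [CONV_scan_neutral C k A _ (.up (some n) e₁ 0) (CONV_stp_new C k · n hn hC _ _) s]
      exact CONV_scan_congr C k A B _ _ (CONV_stp_up C k · _ _ _ _ _) s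
    · simp only [List.flatMap_append, List.flatMap_cons, CONV_mk_new C k n hn hC, List.nil_append]
      rw [CONV_mk_up C k x₂ e₂ e 0 j]
    · simp only [alive_append]
      rw [hal, CONV_alive_up k x₂ e₂ e 0 j]
  · refine ⟨fun s => ?_, ?_, ?_⟩
    · have h1 := CONV_scan_neutral C k (A ++ [.up none e₁ 0]) B (.up (some n) e₂ 0)
        (CONV_stp_new C k · n hn hC _ _) s
      rw [List.append_assoc, List.append_assoc] at h1
      exact h1.trans (CONV_scan_congr C k A B _ _ (CONV_stp_up C k · _ _ _ _ _) s)
    · simp only [List.flatMap_append, List.flatMap_cons, CONV_mk_new C k n hn hC, List.nil_append]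
      rw [CONV_mk_up C k none e₁ e 0 j]
    · simp only [alive_append]
      rw [CONV_alive_cons, hal, ← CONV_alive_cons, CONV_alive_up k none e₁ e 0 j]

end

theorem conv {O : Code V} {ms : List (MI V O.loops)} {F : List (Nm V O.loops)}
    {T : List (Tok V O.loops)} {f : (Nm V O.loops → Bool) → List Gen} (h : MW O ms F T f)
    (C : Nm V O.loops → Bool) (k : Nm V O.loops) (hk : C k = false)
    (hF : ∀ n ∈ F, C n = false ∧ n ≠ k) (hs : scan C k 0 ms = some 3) (a b : ℕ)
    (hm : ms.flatMap (mkI C k) = List.replicate a false ++ true :: List.replicate b false) :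
    ∃ e : List Gen, e.countP Gen.isBorn = 0 ∧ e.countP Gen.isDie = alive k ms ∧
      Add false (StU C k ms ++ List.replicate (a + b) (Sum.inl false)) e (f C ++ caps (a + b)) ∧
      Add false (StC C k ms ++
        (List.replicate b (Sum.inl false) ++ Sum.inr 1 :: List.replicate a (Sum.inl false))) e
        (f (Function.update C k true) ++ caps (a + b + 1)) := by
  induction h with
  | done ms hoff =>
    obtain ⟨h1, h2, h3⟩ := CONV_off C k ms hoff
    refine ⟨caps (a + b), (countP_caps _).1, by rw [h3]; exact (countP_caps _).2, ?_, ?_⟩
    · rw [h1, hm, List.flatMap_append, List.flatMap_cons, CONV_fm a _ (Sum.inl true) rfl,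
        CONV_fm b _ (Sum.inl true) rfl]
      have e1 : List.replicate a (Sum.inl true : Bool ⊕ ℕ) ++ ((if true = true then [] else
          [Sum.inl true]) ++ List.replicate b (Sum.inl true)) =
          List.replicate (a + b) (Sum.inl true) := by
        rw [if_pos rfl, List.nil_append, List.replicate_add]
      rw [e1]
      exact add_caps false (a + b)
    · rw [h2, hm, List.flatMap_append, List.flatMap_cons, CONV_fm a _ (Sum.inl true) rfl,
        CONV_fm b _ (Sum.inl true) rfl]
      have := add_caps_arc false a b
      rw [List.append_assoc, if_pos rfl]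
      exact this
  | post A D B x y a' b' i j v F T f hD ha hb h ih =>
    obtain ⟨e, he1, he2, hU, hC⟩ := ih hF
      (by
        rw [← hs, CONV_scan_congr C k A _ _ (.up x (Sum.inl a') i) (CONV_stp_up C k · _ _ _ _ _)]
        have := CONV_scan_congr C k (A ++ .up x (Sum.inl a') i :: D) B
          (.up y (Sum.inl (some (v, true))) 0) (.up y (Sum.inl b') j)
          (CONV_stp_up C k · _ _ _ _ _) 0
        simpa using this)
      (by
        rw [← hm]
        simp only [List.flatMap_append, List.flatMap_cons]
        rw [CONV_mk_up C k x _ (Sum.inl a') _ i, CONV_mk_up C k y _ (Sum.inl b') _ j])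
    obtain ⟨u1, u2, u3, u4⟩ := xU_facts C k hk D hD
    obtain ⟨c1, c2, c3, c4⟩ := xC_facts C k hk D hD
    refine ⟨fw (openCount (StU C k A)) (flags C D) 1 ++ e, ?_, ?_, ?_, ?_⟩
    · rw [List.countP_append, (CONV_countP_fw _ _ _).1, he1]
    · rw [List.countP_append, (CONV_countP_fw _ _ _).2, he2, zero_add]
      simp only [alive_append]
      rw [CONV_alive_up k x _ (Sum.inl a') _ i, CONV_alive_cons k (.up x _ _),
        CONV_alive_cons k (.up x _ _) (D ++ _), alive_append, alive_append,
        CONV_alive_up k y _ (Sum.inl b') _ j]
    · have := add_fw false (StU C k A) (D.flatMap (xU C k))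
        (StU C k B ++ List.replicate (a + b) (Sum.inl false)) 1 e (f C ++ caps (a + b)) u4
        (by simpa [CONV_StU_append, CONV_StU_cons, lnU, u1] using hU)
      rw [u1, u2, u3, length_StU C k hk] at this
      simpa [CONV_StU_append, CONV_StU_cons, lnU] using this
    · have := add_fw false (StC C k A) (D.flatMap (xC C k))
        (StC C k B ++ (List.replicate b (Sum.inl false) ++ Sum.inr 1 ::
          List.replicate a (Sum.inl false))) 1 e
          (f (Function.update C k true) ++ caps (a + b + 1)) c4
        (by simpa [CONV_StC_append, CONV_StC_cons, lnC, c1] using hC)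
      rw [c1, c2, c3, length_StC C k, ← openCount_StU] at this
      simpa [CONV_StC_append, CONV_StC_cons, lnC] using this
  | bR A B x x₁ x₂ a' j v F T f ha hx h ih =>
    obtain ⟨hnC, hnk⟩ := hF (Sum.inl (v, true)) List.mem_cons_self
    have hx' : (x₁ = x ∧ x₂ = some (Sum.inl (v, true))) ∨
      (x = none ∧ x₁ = some (Sum.inl (v, true)) ∧ x₂ = none) ∨
      (x₁ = some (Sum.inl (v, true)) ∧ x₂ = x) ∨
      (x = none ∧ x₁ = none ∧ x₂ = some (Sum.inl (v, true))) := by tauto
    obtain ⟨k1, k2, k3⟩ := CONV_two C k x x₁ x₂ _ hnk hnC hx' (Sum.inl (some (v, false)))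
      (Sum.inl (some (v, true))) (Sum.inl a') j A B
    have r1 : ∀ s, scan C k s (A ++ .up x₁ (Sum.inl (some (v, false))) 0 ::
        .up x₂ (Sum.inl (some (v, true))) 0 :: .ret (Sum.inl (v, true)) :: B) =
        scan C k s (A ++ .up x₁ (Sum.inl (some (v, false))) 0 ::
          .up x₂ (Sum.inl (some (v, true))) 0 :: B) := by
      intro s
      have := CONV_scan_neutral C k (A ++ [.up x₁ (Sum.inl (some (v, false))) 0,
        .up x₂ (Sum.inl (some (v, true))) 0]) B (.ret (Sum.inl (v, true)))
        (CONV_stp_ret C k · _ hnk) s
      rw [List.append_assoc, List.append_assoc] at this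
      exact this
    obtain ⟨e, he1, he2, hU, hC⟩ := ih (fun n hn => hF n (List.mem_cons_of_mem _ hn))
      (by rw [r1, k1, hs])
      (by
        rw [← hm, ← k2]
        simp only [List.flatMap_append, List.flatMap_cons, mkI, List.nil_append])
    refine ⟨Gen.cup (openCount (StU C k A) + 1) true :: Gen.cross (openCount (StU C k A)) true :: e,
      ?_, ?_, ?_, ?_⟩
    · simpa [Gen.isBorn] using he1
    · rw [List.countP_cons_of_neg (by simp [Gen.isDie]), List.countP_cons_of_neg (by simp [Gen.isDie]),
        he2, ← k3]
      have : ∀ (y z : MI V O.loops), alive k (A ++ y :: z :: .ret (Sum.inl (v, true)) :: B) =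
          alive k (A ++ y :: z :: B) := by
        intro y z
        rw [alive_append, alive_append, CONV_alive_cons k y, CONV_alive_cons k z,
          CONV_alive_cons k y (z :: B), CONV_alive_cons k z B]
        rfl
      exact this _ _
    · have h1 := Add.cross (StU C k A) (Sum.inl false :: (StU C k B ++
        List.replicate (a + b) (Sum.inl false))) true e (f C ++ caps (a + b))
        (by simpa [CONV_StU_append, CONV_StU_cons, lnU, hnk, hnC] using hU)
      have h2 := Add.cup (StU C k A ++ [Sum.inl true]) (StU C k B ++
        List.replicate (a + b) (Sum.inl false)) true _ _ (by simpa using h1)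
      rw [length_StU C k hk, openCount_append, List.length_append, length_StU C k hk] at h2
      simpa [CONV_StU_append, CONV_StU_cons, lnU, openCount] using h2
    · have h1 := Add.cross (StC C k A) (Sum.inl false :: (StC C k B ++
        (List.replicate b (Sum.inl false) ++ Sum.inr 1 ::
          List.replicate a (Sum.inl false)))) true e
          (f (Function.update C k true) ++ caps (a + b + 1))
        (by simpa [CONV_StC_append, CONV_StC_cons, lnC, hnk, hnC] using hC)
      have h2 := Add.cup (StC C k A ++ [Sum.inl true]) (StC C k B ++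
        (List.replicate b (Sum.inl false) ++ Sum.inr 1 ::
          List.replicate a (Sum.inl false))) true _ _ (by simpa using h1)
      rw [length_StC C k, openCount_append, List.length_append, length_StC C k,
        ← openCount_StU] at h2
      simpa [CONV_StC_append, CONV_StC_cons, lnC, openCount] using h2
  | bL A B x x₁ x₂ a' j v F T f ha hx h ih =>
    obtain ⟨hnC, hnk⟩ := hF (Sum.inl (v, false)) List.mem_cons_self
    have hx' : (x₁ = x ∧ x₂ = some (Sum.inl (v, false))) ∨
      (x = none ∧ x₁ = some (Sum.inl (v, false)) ∧ x₂ = none) ∨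
      (x₁ = some (Sum.inl (v, false)) ∧ x₂ = x) ∨
      (x = none ∧ x₁ = none ∧ x₂ = some (Sum.inl (v, false))) := by tauto
    obtain ⟨k1, k2, k3⟩ := CONV_two C k x x₁ x₂ _ hnk hnC hx' (Sum.inl (some (v, false)))
      (Sum.inl (some (v, true))) (Sum.inl a') j A B
    have r1 := CONV_scan_neutral C k A (.up x₁ (Sum.inl (some (v, false))) 0 ::
        .up x₂ (Sum.inl (some (v, true))) 0 :: B) (.ret (Sum.inl (v, false)))
        (CONV_stp_ret C k · _ hnk)
    obtain ⟨e, he1, he2, hU, hC⟩ := ih (fun n hn => hF n (List.mem_cons_of_mem _ hn))
      (by rw [r1, k1, hs])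
      (by
        rw [← hm, ← k2]
        simp only [List.flatMap_append, List.flatMap_cons, mkI, List.nil_append])
    refine ⟨Gen.cup (openCount (StU C k A)) false :: Gen.cross (openCount (StU C k A) + 1) true :: e,
      ?_, ?_, ?_, ?_⟩
    · simpa [Gen.isBorn] using he1
    · rw [List.countP_cons_of_neg (by simp [Gen.isDie]), List.countP_cons_of_neg (by simp [Gen.isDie]),
        he2, ← k3, alive_append, alive_append]
      rfl
    · have h1 := Add.cross (StU C k A ++ [Sum.inl false]) (StU C k B ++
        List.replicate (a + b) (Sum.inl false)) true e (f C ++ caps (a + b))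
        (by simpa [CONV_StU_append, CONV_StU_cons, lnU, hnk, hnC] using hU)
      have h2 := Add.cup (StU C k A) (Sum.inl true :: (StU C k B ++
        List.replicate (a + b) (Sum.inl false))) false _ _ (by simpa using h1)
      rw [length_StU C k hk, openCount_append] at h2
      simpa [CONV_StU_append, CONV_StU_cons, lnU, openCount] using h2
    · have h1 := Add.cross (StC C k A ++ [Sum.inl false]) (StC C k B ++
        (List.replicate b (Sum.inl false) ++ Sum.inr 1 ::
          List.replicate a (Sum.inl false))) true e
          (f (Function.update C k true) ++ caps (a + b + 1))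
        (by simpa [CONV_StC_append, CONV_StC_cons, lnC, hnk, hnC] using hC)
      have h2 := Add.cup (StC C k A) (Sum.inl true :: (StC C k B ++
        (List.replicate b (Sum.inl false) ++ Sum.inr 1 ::
          List.replicate a (Sum.inl false)))) false _ _ (by simpa using h1)
      rw [length_StC C k, openCount_append, ← openCount_StU] at h2
      simpa [CONV_StC_append, CONV_StC_cons, lnC, openCount] using h2
  | capR A D B n F T f hD h ih =>
    by_cases hn : n = k
    · subst hn
      obtain ⟨s1, s2, s3⟩ := scan_at_up C n A D B _ _ hD hs
      obtain ⟨-, q2, q3, q4, q5⟩ := scan_inv C n hk 1 1 (Or.inl rfl) D hD s2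
      have hmD : D.flatMap (mkI C n) = (flags C D).map (fun _ => false) ∨ True := Or.inr trivial
      obtain ⟨e, he1, he2, hU, hC⟩ := ih hF
        (by
          rw [scan_append, s1]
          simp only [Option.bind_some, scan, stp, if_true]
          rw [scan_append, q4 3 (Or.inr rfl)]
          simpa using s3)
        (by
          rw [← hm]
          simp [List.flatMap_append, List.flatMap_cons, mkI])
      refine ⟨Gen.die (openCount (StU C n A)) :: e, ?_, ?_, ?_, ?_⟩
      · simpa [Gen.isBorn] using he1
      · rw [List.countP_cons_of_pos (by simp [Gen.isDie]), he2]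
        simp only [alive_append, alive, if_true]
        omega
      · have h1 := Add.acap₁ (StU C n A ++ StU C n D) (StU C n B ++
          List.replicate (a + b) (Sum.inl false)) 0 e (f C ++ caps (a + b))
          (by simpa [CONV_StU_append, CONV_StU_cons, lnU] using hU)
        have h2 := arc_mvR false 0 (flags C D).length (StU C n A) (Sum.inr 1 :: (StU C n B ++
          List.replicate (a + b) (Sum.inl false))) _ _ (by rw [← q3]; simpa using h1)
        have h3 := Add.die (StU C n A) _ _ _ h2
        rw [← q2, ← q3, length_StU C n hk] at h3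
        have q6 : (StU C n D).length = (flags C D).length := by rw [q3, List.length_replicate]
        simpa [CONV_StU_append, CONV_StU_cons, lnU, hk, length_StU C n hk A, q6] using h3
      · have h3 := Add.die (StC C n A) (StC C n D ++ (StC C n B ++
          (List.replicate b (Sum.inl false) ++ Sum.inr 1 ::
          List.replicate a (Sum.inl false)))) e (f (Function.update C n true) ++ caps (a + b + 1))
          (by simpa [CONV_StC_append, CONV_StC_cons, lnC] using hC)
        rw [← openCount_StU] at h3
        simpa [CONV_StC_append, CONV_StC_cons, lnC] using h3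
    · have hsc : scan C k 0 (A ++ MI.dead n :: (D ++ B)) = some 3 := by
        rw [← hs, CONV_scan_congr C k A _ _ _ (fun t => CONV_stp_dead C k t n hn (gap O n) 0)]
        have := CONV_scan_neutral C k (A ++ .dead n :: D) B (.ret n) (CONV_stp_ret C k · n hn) 0
        simpa using this.symm
      have hmk : (A ++ MI.dead n :: (D ++ B)).flatMap (mkI C k) =
          List.replicate a false ++ true :: List.replicate b false := by
        rw [← hm]
        simp [List.flatMap_append, List.flatMap_cons, mkI]
      obtain ⟨e, he1, he2, hU, hC⟩ := ih hF hsc hmk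
      have hal : alive k (A ++ MI.up (some n) (gap O n) 0 :: (D ++ MI.ret n :: B)) =
          alive k (A ++ MI.dead n :: (D ++ B)) := by
        simp only [alive_append, alive, if_neg hn]
      obtain ⟨u1, u2, u3, u4⟩ := xU_facts C k hk D hD
      obtain ⟨c1, c2, c3, c4⟩ := xC_facts C k hk D hD
      by_cases hnC : C n = true
      · refine ⟨e, he1, by rw [he2, hal], ?_, ?_⟩
        · simpa [CONV_StU_append, CONV_StU_cons, lnU, hn, hnC] using hU
        · simpa [CONV_StC_append, CONV_StC_cons, lnC, hn, hnC] using hC
      · refine ⟨mvR (openCount (StU C k A)) (flags C D) ++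
          Gen.cap (openCount (StU C k A) + (flags C D).length) :: e, ?_, ?_, ?_, ?_⟩
        · rw [List.countP_append, (CONV_countP_mvR _ _).1]
          simpa [Gen.isBorn] using he1
        · rw [List.countP_append, (CONV_countP_mvR _ _).2, hal, ← he2]
          simp [Gen.isDie]
        · have h1 := Add.cap (StU C k A ++ StU C k D) (StU C k B ++
            List.replicate (a + b) (Sum.inl false)) true e (f C ++ caps (a + b))
            (by simpa [CONV_StU_append, CONV_StU_cons, lnU, hn, hnC] using hU)
          have h2 := add_mvR false (StU C k A) (D.flatMap (xU C k)) (Sum.inl false ::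
            (StU C k B ++ List.replicate (a + b) (Sum.inl false))) _ _ u4
            (by rw [u1]; simpa using h1)
          have q1 : (StU C k D).length = (flags C D).length := by rw [← u1, ← u2]; simp
          have q2 : openCount (StU C k D) = (flags C D).length := by rw [← u1, CONV_oc, u3]
          rw [u1, u2, u3] at h2
          simp only [openCount_append, q2, List.length_append, q1, length_StU C k hk] at h2
          simpa [CONV_StU_append, CONV_StU_cons, lnU, hn, hnC] using h2
        · have h1 := Add.cap (StC C k A ++ StC C k D) (StC C k B ++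
            (List.replicate b (Sum.inl false) ++ Sum.inr 1 ::
              List.replicate a (Sum.inl false))) true e
              (f (Function.update C k true) ++ caps (a + b + 1))
            (by simpa [CONV_StC_append, CONV_StC_cons, lnC, hn, hnC] using hC)
          have h2 := add_mvR false (StC C k A) (D.flatMap (xC C k)) (Sum.inl false ::
            (StC C k B ++ (List.replicate b (Sum.inl false) ++ Sum.inr 1 ::
              List.replicate a (Sum.inl false)))) _ _ c4
            (by rw [c1]; simpa using h1)
          have q1 : (StC C k D).length = (flags (Function.update C k true) D).length := by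
            rw [← c1, ← c2]; simp
          have q2 : openCount (StC C k D) = (flags C D).length := by rw [← c1, CONV_oc, c3]
          rw [c1, c2, c3] at h2
          simp only [openCount_append, q2, List.length_append, q1, length_StC C k,
            ← openCount_StU C k A] at h2
          simpa [CONV_StC_append, CONV_StC_cons, lnC, hn, hnC] using h2
  | capL A D B n F T f hD h ih =>
    by_cases hn : n = k
    · subst hn
      obtain ⟨s1, s2, s3⟩ := scan_at_ret C n A D B _ _ hD hs
      obtain ⟨-, q2, q3, q4, q5⟩ := scan_inv C n hk 2 2 (Or.inr rfl) D hD s2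
      obtain ⟨e, he1, he2, hU, hC⟩ := ih hF
        (by
          rw [scan_append, s1, Option.bind_some, scan_append, q4 0 (Or.inl rfl), Option.bind_some]
          simp only [scan, stp, if_true, Option.bind_some]
          exact s3)
        (by
          rw [← hm]
          simp [List.flatMap_append, List.flatMap_cons, mkI])
      have q6 : (StU C n D).length = (flags C D).length := by rw [q3, List.length_replicate]
      refine ⟨Gen.die (openCount (StU C n A ++ Sum.inr 1 :: StU C n D)) :: e, ?_, ?_, ?_, ?_⟩
      · simpa [Gen.isBorn] using he1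
      · rw [List.countP_cons_of_pos (by simp [Gen.isDie]), he2]
        simp only [alive_append, alive, if_true]
        omega
      · have h1 := Add.acap₂ (StU C n A) (StU C n D ++ (StU C n B ++
          List.replicate (a + b) (Sum.inl false))) 0 e (f C ++ caps (a + b))
          (by simpa [CONV_StU_append, CONV_StU_cons, lnU] using hU)
        have h2 := arc_mvL false 0 (flags C D).length (StU C n A ++ [Sum.inr 1]) (StU C n B ++
          List.replicate (a + b) (Sum.inl false)) _ _ (by rw [← q3]; simpa using h1)
        have h3 := Add.die (StU C n A ++ Sum.inr 1 :: StU C n D) _ _ _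
          (by rw [q3]; simpa using h2)
        rw [← q2] at h3
        simp only [List.length_append, length_StU C n hk] at h3
        simpa [CONV_StU_append, CONV_StU_cons, lnU, hk, length_StU C n hk A] using h3
      · have h3 := Add.die (StC C n A ++ StC C n D) (StC C n B ++
          (List.replicate b (Sum.inl false) ++ Sum.inr 1 ::
          List.replicate a (Sum.inl false))) e (f (Function.update C n true) ++ caps (a + b + 1))
          (by simpa [CONV_StC_append, CONV_StC_cons, lnC] using hC)
        rw [openCount_append, ← openCount_StU, ← openCount_StU] at h3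
        have q7 : openCount (StU C n A ++ Sum.inr 1 :: StU C n D) =
            openCount (StU C n A) + openCount (StU C n D) := by
          rw [openCount_append]; rfl
        rw [q7]
        simpa [CONV_StC_append, CONV_StC_cons, lnC] using h3
    · have hsc : scan C k 0 (A ++ (D ++ MI.dead n :: B)) = some 3 := by
        rw [← hs, CONV_scan_neutral C k A _ _ (CONV_stp_ret C k · n hn)]
        have := CONV_scan_congr C k (A ++ D) B _ _ (fun t => CONV_stp_dead C k t n hn (gap O n) 0) 0
        simpa using this.symm
      have hmk : (A ++ (D ++ MI.dead n :: B)).flatMap (mkI C k) =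
          List.replicate a false ++ true :: List.replicate b false := by
        rw [← hm]
        simp [List.flatMap_append, List.flatMap_cons, mkI]
      obtain ⟨e, he1, he2, hU, hC⟩ := ih hF hsc hmk
      have hal : alive k (A ++ MI.ret n :: (D ++ MI.up (some n) (gap O n) 0 :: B)) =
          alive k (A ++ (D ++ MI.dead n :: B)) := by
        simp only [alive_append, alive, if_neg hn]
      obtain ⟨u1, u2, u3, u4⟩ := xU_facts C k hk D hD
      obtain ⟨c1, c2, c3, c4⟩ := xC_facts C k hk D hD
      by_cases hnC : C n = true
      · refine ⟨e, he1, by rw [he2, hal], ?_, ?_⟩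
        · simpa [CONV_StU_append, CONV_StU_cons, lnU, hn, hnC] using hU
        · simpa [CONV_StC_append, CONV_StC_cons, lnC, hn, hnC] using hC
      · refine ⟨mvL (openCount (StU C k A) + 1) (flags C D) ++
          Gen.cap (openCount (StU C k A)) :: e, ?_, ?_, ?_, ?_⟩
        · rw [List.countP_append, (CONV_countP_mvL _ _).1]
          simpa [Gen.isBorn] using he1
        · rw [List.countP_append, (CONV_countP_mvL _ _).2, hal, ← he2]
          simp [Gen.isDie]
        · have h1 := Add.cap (StU C k A) (StU C k D ++ (StU C k B ++
            List.replicate (a + b) (Sum.inl false))) false e (f C ++ caps (a + b))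
            (by simpa [CONV_StU_append, CONV_StU_cons, lnU, hn, hnC] using hU)
          have h2 := add_mvL false (StU C k A ++ [Sum.inl false]) (D.flatMap (xU C k))
            (StU C k B ++ List.replicate (a + b) (Sum.inl false)) _ _ u4
            (by rw [u1]; simpa using h1)
          rw [u1, u2, u3, openCount_append, List.length_append, length_StU C k hk] at h2
          simpa [CONV_StU_append, CONV_StU_cons, lnU, hn, hnC, openCount] using h2
        · have h1 := Add.cap (StC C k A) (StC C k D ++ (StC C k B ++
            (List.replicate b (Sum.inl false) ++ Sum.inr 1 ::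
              List.replicate a (Sum.inl false)))) false e
              (f (Function.update C k true) ++ caps (a + b + 1))
            (by simpa [CONV_StC_append, CONV_StC_cons, lnC, hn, hnC] using hC)
          have h2 := add_mvL false (StC C k A ++ [Sum.inl false]) (D.flatMap (xC C k))
            (StC C k B ++ (List.replicate b (Sum.inl false) ++ Sum.inr 1 ::
              List.replicate a (Sum.inl false))) _ _ c4
            (by rw [c1]; simpa using h1)
          rw [c1, c2, c3, openCount_append, List.length_append, length_StC C k,
            ← openCount_StU] at h2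
          simpa [CONV_StC_append, CONV_StC_cons, lnC, hn, hnC, openCount] using h2
  | dieS A B a' j F T f ha h ih =>
    obtain ⟨e, he1, he2, hU, hC⟩ := ih hF
      (by
        rw [← hs]
        exact CONV_scan_congr C k A B _ _
          (fun t => by rw [CONV_stp_none, CONV_stp_sdead]) 0)
      (by
        rw [← hm]
        simp only [List.flatMap_append, List.flatMap_cons, mkI])
    refine ⟨e, he1, ?_, ?_, ?_⟩
    · rw [he2, alive_append, alive_append]; rfl
    · simpa [CONV_StU_append, CONV_StU_cons, lnU] using hU
    · simpa [CONV_StC_append, CONV_StC_cons, lnC] using hC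
  | fr n ms F T f h ih =>
    obtain ⟨hnC, hnk⟩ := hF n List.mem_cons_self
    obtain ⟨e, he1, he2, hU, hC⟩ := ih (fun n' hn => hF n' (List.mem_cons_of_mem _ hn))
      (by
        rw [← hs]
        have h1 := CONV_scan_neutral C k [] (.ret n :: ms) (.up (some n) (gap O n) (fpc n))
          (CONV_stp_new C k · n hnk hnC _ _) 0
        have h2 := CONV_scan_neutral C k [] ms (.ret n) (CONV_stp_ret C k · n hnk) 0
        exact h1.trans h2)
      (by
        rw [← hm]
        simp [List.flatMap_cons, mkI, hnk, hnC])
    refine ⟨Gen.cup 0 true :: e, ?_, ?_, ?_, ?_⟩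
    · simpa [Gen.isBorn] using he1
    · rw [List.countP_cons_of_neg (by simp [Gen.isDie]), he2]
      simp [alive, hnk]
    · have h2 := Add.cup [] (StU C k ms ++ List.replicate (a + b) (Sum.inl false)) true e
        (f C ++ caps (a + b)) (by simpa [CONV_StU_cons, lnU, hnk, hnC] using hU)
      simpa [openCount] using h2
    · have h2 := Add.cup [] (StC C k ms ++ (List.replicate b (Sum.inl false) ++ Sum.inr 1 ::
          List.replicate a (Sum.inl false))) true e
        (f (Function.update C k true) ++ caps (a + b + 1))
        (by simpa [CONV_StC_cons, lnC, hnk, hnC] using hC)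
      simpa [openCount] using h2

end Pool.Agent.H53.SQ
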