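import Pool.Agent.H53.SQ.GRD

/-!
# Module CTR: the labelled contour

`lct nu ℓ r b` is `ct b` with the labels before and after each letter: the faces met when going around
the bar.

PROOFS: inductions on `b`.
* `lct_ids`: immediate.
* `lct_chain`: `it v false r'` (`x = some (v, false)`): the letter goes from `r (v,F)` to `r (nu (v,F))`, the
  rest starts there; `LC`: `ℓ (nu (v,F)) = ℓ (v,F)`. `it v true r'`: `RC` starts at `r (nu (v,T)) = r (v,T)`;
  `LC` ends in `ℓ (nu (v,T))`, then the letter to `ℓ (v,T)`.
  For `ch` with the name `g`: `ret : ℓ g → r g`, `top : r g → ℓ g`; the child goes from its start `x'` to `g`: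
  `RC c : r x' → r g`, `LC c : ℓ g → ℓ x'`.
  `br` (`g = (v,T)`, `x = (v,F)`, `x' = nu (v,T)`, rest from `nu (v,F)`): `r x = r (v,F) = ℓ (v,T) = ℓ g`, `ret`
  to `r g = r (v,T) = r (nu (v,T)) = r x'`, `RC c`, `top`, `LC c` to `ℓ x' = ℓ (nu (v,T)) = r (nu (v,F))`,
  `RC` of the rest. `LC`: `ℓ (nu (v,F)) = ℓ (v,F)`.
  `bl` (`g = (v,F)`, `x = (v,T)`, `x' = nu (v,F)`, rest from `nu (v,T)`): `r x = r (nu (v,T))`. `LC`: rest to
  `ℓ (nu (v,T)) = r (nu (v,F)) = r x'`, `RC c`, `top`, `LC c` to `ℓ x' = ℓ (nu (v,F)) = ℓ (v,F) = ℓ g`, `ret` to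
  `r g = r (v,F) = ℓ (v,T) = ℓ x`.
  `jl` (`g = (v,T)`, `x = (v,F)`, `x' = nu (v,F)`, rest from `nu (v,T)`): `r x = ℓ g`, `ret` to
  `r g = r (nu (v,T))`. `LC`: rest to `ℓ (nu (v,T)) = r (nu (v,F)) = r x'`, `RC c`, `top`, `LC c` to
  `ℓ x' = ℓ (v,F) = ℓ x`.
  `jr` (`g = (v,F)`, `x = (v,T)`, `x' = nu (v,T)`, rest from `nu (v,F)`): `r x = r (v,T) = r x'`, `RC c`, `top`,
  `LC c` to `ℓ x' = ℓ (nu (v,T)) = r (nu (v,F))`, rest. `LC`: rest to `ℓ (nu (v,F)) = ℓ (v,F) = ℓ g`, `ret` to
  `r g = r (v,F) = ℓ (v,T) = ℓ x`.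
* `lct_labels`: every end `z ∈ eps b` is the start `x` of a (sub)bar, or the name (= end) of a child;
  `r x` is the start of `RC`, `ℓ x` the end of `LC`, `r g, ℓ g` are labels of `top`. For the empty list a
  label is only a start/end label, so the claim is about the labels of the letters together with the
  four end labels `r x, r y, ℓ y, ℓ x`.
* `lct_perm`: each `ch` contributes `ret` and `top`.
-/

namespace Pool.Agent.H53.SQ

variable {V : Type}

abbrev LLt (V : Type) (L : ℕ) := (V ⊕ Nm V L) × ℕ × ℕ

section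
variable (L : ℕ) (nu : Option (V × Bool) → Option (V × Bool)) (ℓ r : Option (V × Bool) → ℕ)

def rL (g : V × Bool) : LLt V L := (Sum.inr (Sum.inl g), ℓ (some g), r (some g))

def tL (g : V × Bool) : LLt V L := (Sum.inr (Sum.inl g), r (some g), ℓ (some g))

/-- the letter of a generic item -/
def gL (z : V × Bool) : LLt V L :=
  if z.2 then (Sum.inl z.1, ℓ (nu (some z)), ℓ (some z))
  else (Sum.inl z.1, r (some z), r (nu (some z)))

def lct : BT V → List (LLt V L) × List (LLt V L)
  | .nil => ([], [])
  | .it v false q => (gL L nu ℓ r (v, false) :: (lct q).1, (lct q).2)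
  | .it v true q => ((lct q).1, (lct q).2 ++ [gL L nu ℓ r (v, true)])
  | .ch false v false c q =>
      (rL L ℓ r (v, true) :: ((lct c).1 ++ tL L ℓ r (v, true) :: ((lct c).2 ++ (lct q).1)),
        (lct q).2)
  | .ch false v true c q =>
      ((lct q).1,
        (lct q).2 ++ ((lct c).1 ++ tL L ℓ r (v, false) :: ((lct c).2 ++ [rL L ℓ r (v, false)])))
  | .ch true v false c q =>
      (rL L ℓ r (v, true) :: (lct q).1,
        (lct q).2 ++ ((lct c).1 ++ tL L ℓ r (v, true) :: (lct c).2))
  | .ch true v true c q =>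
      ((lct c).1 ++ tL L ℓ r (v, false) :: ((lct c).2 ++ (lct q).1),
        (lct q).2 ++ [rL L ℓ r (v, false)])

/-- the face equations at the crossing `v` -/
def Feq (v : V) : Prop :=
  r (some (v, false)) = ℓ (some (v, true)) ∧
    r (nu (some (v, false))) = ℓ (nu (some (v, true))) ∧
    ℓ (some (v, false)) = ℓ (nu (some (v, false))) ∧
    r (some (v, true)) = r (nu (some (v, true)))

theorem lct_ids (b : BT V) :
    (lct L nu ℓ r b).1.map Prod.fst = (RC b : List (Lt V L)).map Prod.fst ∧
      (lct L nu ℓ r b).2.map Prod.fst = (LC b : List (Lt V L)).map Prod.fst := by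
  induction b with
  | nil => simp [lct]
  | it v s q ih =>
    cases s
    · simp [lct, gL, ih]
    · simp [lct, gL, ih]
  | ch j v s c q ihc ihq =>
    cases j <;> cases s
    · simp [lct, rL, tL, retL, topL, ihc, ihq]
    · simp [lct, rL, tL, retL, topL, ihc, ihq]
    · simp [lct, rL, tL, retL, topL, ihc, ihq]
    · simp [lct, rL, tL, retL, topL, ihc, ihq]

theorem ctr_append {ι : Type} {a b c : ℕ} {A B : List (ι × ℕ × ℕ)} (h1 : Chain a A b)
    (h2 : Chain b B c) : Chain a (A ++ B) c := by
  induction h1 with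
  | nil a => simpa using h2
  | cons i a b' c' l h ih => exact Chain.cons i a b' _ _ (ih h2)

theorem ctr_end {ι : Type} {a c : ℕ} {A : List (ι × ℕ × ℕ)} (h : Chain a A c) :
    c = a ∨ c ∈ A.map (·.2.2) := by
  induction h with
  | nil a => exact Or.inl rfl
  | cons i a b c l h ih =>
    right
    rcases ih with ih | ih
    · simp [ih]
    · simp only [List.map_cons, List.mem_cons]
      exact Or.inr ih

theorem ctr_one {ι : Type} (i : ι) (a b : ℕ) : Chain a [(i, a, b)] b :=
  Chain.cons i a b b [] (Chain.nil b)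

theorem lct_chain (b : BT V) (x y : Option (V × Bool)) (h : Path nu b x y)
    (hF : ∀ z ∈ eps b, Feq nu ℓ r z.1) :
    Chain (r x) (lct L nu ℓ r b).1 (r y) ∧ Chain (ℓ y) (lct L nu ℓ r b).2 (ℓ x) := by
  induction b generalizing x y with
  | nil =>
    have h' : x = y := h
    subst h'
    exact ⟨Chain.nil _, Chain.nil _⟩
  | it v s q ih =>
    obtain ⟨rfl, hq⟩ := h
    obtain ⟨h1, h2⟩ := ih _ _ hq (fun z hz => hF z (List.mem_cons_of_mem _ hz))
    obtain ⟨f1, f2, f3, f4⟩ := hF (v, s) (by simp [eps])
    cases s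
    · refine ⟨?_, ?_⟩
      · simpa [lct, gL] using Chain.cons (Sum.inl v) _ _ _ _ h1
      · rw [f3]
        exact h2
    · refine ⟨?_, ?_⟩
      · rw [f4]
        exact h1
      · simpa [lct, gL] using ctr_append h2 (ctr_one (Sum.inl v) _ _)
  | ch j v s c q ihc ihq =>
    obtain ⟨rfl, hq, hc⟩ := h
    obtain ⟨f1, f2, f3, f4⟩ := hF (v, s) (by simp [eps])
    have hFq : ∀ z ∈ eps q, Feq nu ℓ r z.1 := fun z hz => hF z (by simp [eps, hz])
    have hFc : ∀ z ∈ eps c, Feq nu ℓ r z.1 := fun z hz => hF z (by simp [eps, hz])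
    cases j <;> cases s
    · simp only [Bool.false_eq_true, if_false, Bool.not_false] at hq hc
      obtain ⟨q1, q2⟩ := ihq _ _ hq hFq
      obtain ⟨c1, c2⟩ := ihc _ _ hc hFc
      refine ⟨?_, ?_⟩
      · simp only [lct, rL, tL]
        simp only at f1 f2 f3 f4
        rw [f1]
        refine Chain.cons _ _ _ _ _ ?_
        rw [f4]
        rw [← f4] at c1
        rw [f4] at c1
        refine ctr_append c1 ?_
        rw [← f4]
        refine Chain.cons _ _ _ _ _ ?_
        refine ctr_append c2 ?_
        rw [← f2]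
        exact q1
      · simp only [lct]
        rw [f3]
        exact q2
    · simp only [Bool.false_eq_true, if_false, Bool.not_true] at hq hc
      obtain ⟨q1, q2⟩ := ihq _ _ hq hFq
      obtain ⟨c1, c2⟩ := ihc _ _ hc hFc
      refine ⟨?_, ?_⟩
      · simp only [lct]
        rw [f4]
        exact q1
      · simp only [lct, rL, tL]
        refine ctr_append q2 ?_
        rw [← f2]
        refine ctr_append c1 ?_
        refine Chain.cons _ _ _ _ _ ?_
        refine ctr_append c2 ?_
        rw [← f3, ← f1]
        exact ctr_one _ _ _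
    · simp only [if_true, Bool.not_false] at hq hc
      obtain ⟨q1, q2⟩ := ihq _ _ hq hFq
      obtain ⟨c1, c2⟩ := ihc _ _ hc hFc
      refine ⟨?_, ?_⟩
      · simp only [lct, rL]
        rw [f1]
        refine Chain.cons _ _ _ _ _ ?_
        rw [f4]
        exact q1
      · simp only [lct, tL]
        refine ctr_append q2 ?_
        rw [← f2]
        refine ctr_append c1 ?_
        refine Chain.cons _ _ _ _ _ ?_
        rw [f3]
        exact c2
    · simp only [if_true, Bool.not_true] at hq hc
      obtain ⟨q1, q2⟩ := ihq _ _ hq hFq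
      obtain ⟨c1, c2⟩ := ihc _ _ hc hFc
      refine ⟨?_, ?_⟩
      · simp only [lct, tL]
        rw [f4]
        refine ctr_append c1 ?_
        refine Chain.cons _ _ _ _ _ ?_
        refine ctr_append c2 ?_
        rw [← f2]
        exact q1
      · simp only [lct, rL]
        refine ctr_append q2 ?_
        rw [← f3, ← f1]
        exact ctr_one _ _ _

theorem ctr_labels (b : BT V) (x y : Option (V × Bool)) (h : Path nu b x y)
    (hF : ∀ z ∈ eps b, Feq nu ℓ r z.1) (z : V × Bool) (hz : z ∈ eps b) (a : ℕ)
    (ha : a = ℓ (some z) ∨ a = r (some z)) :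
    a ∈ (lct L nu ℓ r b).1.map (·.2.2) ∨ a ∈ (lct L nu ℓ r b).2.map (·.2.2) ∨
      a = r x ∨ a = ℓ y := by
  have hch := lct_chain L nu ℓ r b x y h hF
  have hx : z = z → x = some z → a ∈ (lct L nu ℓ r b).1.map (·.2.2) ∨
      a ∈ (lct L nu ℓ r b).2.map (·.2.2) ∨ a = r x ∨ a = ℓ y := by
    intro _ hxz
    subst hxz
    rcases ha with rfl | rfl
    · rcases ctr_end hch.2 with h1 | h1
      · exact Or.inr (Or.inr (Or.inr h1))
      · exact Or.inr (Or.inl h1)
    · exact Or.inr (Or.inr (Or.inl rfl))
  induction b generalizing x y with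
  | nil => simp [eps] at hz
  | it v s q ih =>
    obtain ⟨rfl, hq⟩ := h
    have hFq : ∀ z ∈ eps q, Feq nu ℓ r z.1 := fun z hz => hF z (List.mem_cons_of_mem _ hz)
    have hq' := lct_chain L nu ℓ r q _ _ hq hFq
    obtain ⟨f1, f2, f3, f4⟩ := hF (v, s) (by simp [eps])
    rcases List.mem_cons.1 hz with rfl | hz
    · exact hx rfl rfl
    · have := ih _ _ hq hFq hz hq' (by
        intro _ he
        rcases ha with rfl | rfl
        · rcases ctr_end hq'.2 with h1 | h1
          · rw [he] at h1
            exact Or.inr (Or.inr (Or.inr h1))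
          · rw [he] at h1
            exact Or.inr (Or.inl h1)
        · exact Or.inr (Or.inr (Or.inl (by rw [he]))))
      cases s
      · rcases this with h1 | h1 | h1 | h1
        · left
          simp only [lct, List.map_cons, List.mem_cons]
          exact Or.inr h1
        · exact Or.inr (Or.inl h1)
        · left
          simp only [lct, List.map_cons, List.mem_cons]
          left
          simpa [gL] using h1
        · exact Or.inr (Or.inr (Or.inr h1))
      · rcases this with h1 | h1 | h1 | h1
        · exact Or.inl h1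
        · right; left
          simp only [lct, List.map_append, List.mem_append]
          exact Or.inl h1
        · right; right; left
          rw [h1]
          exact f4.symm
        · exact Or.inr (Or.inr (Or.inr h1))
  | ch j v s c q ihc ihq =>
    obtain ⟨rfl, hq, hc⟩ := h
    obtain ⟨f1, f2, f3, f4⟩ := hF (v, s) (by simp [eps])
    simp only at f1 f2 f3 f4
    have hFq : ∀ z ∈ eps q, Feq nu ℓ r z.1 := fun z hz => hF z (by simp [eps, hz])
    have hFc : ∀ z ∈ eps c, Feq nu ℓ r z.1 := fun z hz => hF z (by simp [eps, hz])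
    have hq' := lct_chain L nu ℓ r q _ _ hq hFq
    have hc' := lct_chain L nu ℓ r c _ _ hc hFc
    have keyx : ∀ (b : BT V) (x y : Option (V × Bool)),
        (Chain (r x) (lct L nu ℓ r b).1 (r y) ∧ Chain (ℓ y) (lct L nu ℓ r b).2 (ℓ x)) →
        (z = z → x = some z → a ∈ (lct L nu ℓ r b).1.map (·.2.2) ∨
          a ∈ (lct L nu ℓ r b).2.map (·.2.2) ∨ a = r x ∨ a = ℓ y) := by
      intro b x y hb _ he
      rcases ha with rfl | rfl
      · rcases ctr_end hb.2 with h1 | h1
        · rw [he] at h1
          exact Or.inr (Or.inr (Or.inr h1))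
        · rw [he] at h1
          exact Or.inr (Or.inl h1)
      · exact Or.inr (Or.inr (Or.inl (by rw [he])))
    have ihq' := fun hz => ihq _ _ hq hFq hz hq' (keyx _ _ _ hq')
    have ihc' := fun hz => ihc _ _ hc hFc hz hc' (keyx _ _ _ hc')
    have hq2 := ctr_end hq'.2
    have hc2 := ctr_end hc'.2
    have hz' : z = (v, s) ∨ z = (v, !s) ∨ z ∈ eps c ∨ z ∈ eps q := by
      simpa [eps] using hz
    clear hz hq hc hq' hc' ihq ihc keyx hch
    rcases hz' with rfl | rfl | hz | hz
    · exact hx rfl rfl
    · clear ihq' ihc' hx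
      cases j <;> cases s <;>
        simp only [lct, rL, tL, List.map_cons, List.map_append, List.mem_cons, List.mem_append,
          Bool.not_false, Bool.not_true, List.map_nil, List.not_mem_nil, or_false] at ha ⊢ <;>
        rcases ha with ha | ha <;> simp [ha]
    · have h0 := ihc' hz
      clear ihq' ihc' hx hF hFq hFc f1 f3 hc2 hz ha
      cases j <;> cases s <;>
        simp only [lct, rL, tL, List.map_cons, List.map_append, List.mem_cons, List.mem_append,
          Bool.not_false, Bool.not_true, Bool.false_eq_true, if_false, if_true,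
          List.map_nil, List.not_mem_nil, or_false] at h0 hq2 ⊢
      · rcases h0 with h0 | h0 | h0 | h0
        · tauto
        · tauto
        · rw [← f4] at h0; tauto
        · tauto
      · rcases h0 with h0 | h0 | h0 | h0
        · tauto
        · tauto
        · rw [f2] at h0
          rw [← h0] at hq2
          tauto
        · tauto
      · rcases h0 with h0 | h0 | h0 | h0
        · tauto
        · tauto
        · rw [f2] at h0
          rw [← h0] at hq2
          tauto
        · tauto
      · rcases h0 with h0 | h0 | h0 | h0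
        · tauto
        · tauto
        · rw [← f4] at h0; tauto
        · tauto
    · have h0 := ihq' hz
      clear ihq' ihc' hx hF hFq hFc f1 f3 hq2 hz ha
      cases j <;> cases s <;>
        simp only [lct, rL, tL, List.map_cons, List.map_append, List.mem_cons, List.mem_append,
          Bool.not_false, Bool.not_true, Bool.false_eq_true, if_false, if_true,
          List.map_nil, List.not_mem_nil, or_false] at h0 hc2 ⊢
      · rcases h0 with h0 | h0 | h0 | h0
        · tauto
        · tauto
        · rw [f2] at h0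
          rw [← h0] at hc2
          tauto
        · tauto
      · rcases h0 with h0 | h0 | h0 | h0
        · tauto
        · tauto
        · rw [← f4] at h0; tauto
        · tauto
      · rcases h0 with h0 | h0 | h0 | h0
        · tauto
        · tauto
        · rw [← f4] at h0; tauto
        · tauto
      · rcases h0 with h0 | h0 | h0 | h0
        · tauto
        · tauto
        · rw [f2] at h0
          rw [← h0] at hc2
          tauto
        · tauto

theorem lct_labels (b : BT V) (x y : Option (V × Bool)) (h : Path nu b x y)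
    (hF : ∀ z ∈ eps b, Feq nu ℓ r z.1) (z : V × Bool) (hz : z ∈ eps b) (a : ℕ)
    (ha : a = ℓ (some z) ∨ a = r (some z)) :
    a ∈ ((lct L nu ℓ r b).1 ++ (lct L nu ℓ r b).2).map (·.2.2) ∨
      a = r x ∨ a = r y ∨ a = ℓ y ∨ a = ℓ x := by
  have := ctr_labels L nu ℓ r b x y h hF z hz a ha
  rw [List.map_append, List.mem_append]
  tauto

theorem ctr_ms {α : Type} (R T C1 C2 Q1 Q2 F1 F2 G1 G2 W : Multiset α)
    (hc : C1 + C2 = F1 + G1) (hq : Q1 + Q2 = F2 + G2)
    (h : W = R + T + (C1 + C2) + (Q1 + Q2)) : W = R + T + (F1 + F2) + (G1 + G2) := by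
  rw [h, hc, hq]
  abel

theorem lct_perm (b : BT V) :
    ((lct L nu ℓ r b).1 ++ (lct L nu ℓ r b).2).Perm
      ((nms b).flatMap (fun g => [rL L ℓ r g, tL L ℓ r g]) ++ (gls b).map (gL L nu ℓ r)) := by
  induction b with
  | nil => simp [lct, nms, gls]
  | it v s q ih =>
    rw [← Multiset.coe_eq_coe] at ih ⊢
    cases s
    · simp only [lct, nms, gls, List.map_cons, ← Multiset.coe_add, ← Multiset.cons_coe] at ih ⊢
      rw [Multiset.cons_add, ih, Multiset.add_cons]
    · simp only [lct, nms, gls, List.map_cons, ← Multiset.coe_add, ← Multiset.cons_coe] at ih ⊢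
      rw [← add_assoc, ih, Multiset.add_cons, Multiset.coe_nil, Multiset.add_cons, add_zero]
  | ch j v s c q ihc ihq =>
    rw [← Multiset.coe_eq_coe] at ihc ihq ⊢
    cases j <;> cases s <;>
      simp only [lct, nms, gls, List.map_append, List.flatMap_cons,
        List.flatMap_append, ← Multiset.coe_add, ← Multiset.cons_coe, Multiset.coe_nil,
        ← Multiset.singleton_add, Bool.not_false, Bool.not_true, add_zero] at ihc ihq ⊢
    all_goals
      generalize ((lct L nu ℓ r c).1 : Multiset (LLt V L)) = C1 at *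
      generalize ((lct L nu ℓ r c).2 : Multiset (LLt V L)) = C2 at *
      generalize ((lct L nu ℓ r q).1 : Multiset (LLt V L)) = Q1 at *
      generalize ((lct L nu ℓ r q).2 : Multiset (LLt V L)) = Q2 at *
      exact ctr_ms _ _ _ _ _ _ _ _ _ _ _ ihc ihq (by abel)

end

end Pool.Agent.H53.SQ
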