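import Mathlib

/-!
# Weakly successively almost positive links are strongly quasipositive: definitions

Oriented link diagrams are written as words of elementary pieces, read from bottom to top
(diagrams in Morse position in which both strands of every crossing point upwards). Every oriented
diagram can be brought into this form by a planar isotopy: rotate every crossing, and turn the
diagram near the two endpoints of the overarc, until the strands there point upwards, then move the
local maxima and minima of the strands to different heights.

The relation `Iso` (generated by `Step`) occurs only in the conclusion of the theorem, so the only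
thing that matters is that every `Step` is an isotopy of links. (The Reidemeister moves are special
cases of `Step.pass`: erase the over-passage of the strand which is moved.)
-/

namespace Pool.Agent.H53.SQ

/-- Elementary pieces of an oriented diagram in Morse position. Strands at a level are numbered
`0, 1, 2, ...` from left to right.
* `cup i d`: a local minimum; it creates the strands number `i` and `i + 1`, the left one
  directed upwards iff `d = true`, the right one the other way;
* `cap i`: a local maximum, joining the strands number `i` and `i + 1` (of opposite directions);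
* `cross i s`: the strands number `i` and `i + 1`, both directed upwards, cross. If `s = true`, the
  strand that comes from the left passes over (a positive crossing), if `s = false` the strand that
  comes from the left passes under (a negative crossing);
* `born i`, `die i` occur only in open diagrams: an upwards directed strand, number `i`, starts
  (respectively ends) at this point of the plane. -/
inductive Gen : Type
  | cup (i : ℕ) (d : Bool)
  | cap (i : ℕ)
  | cross (i : ℕ) (s : Bool)
  | born (i : ℕ)
  | die (i : ℕ)
  deriving DecidableEq

/-- the piece is a starting point of an open strand -/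
def Gen.isBorn : Gen → Bool
  | Gen.born _ => true
  | _ => false

/-- the piece is a final point of an open strand -/
def Gen.isDie : Gen → Bool
  | Gen.die _ => true
  | _ => false

/-- Number of strands of the open diagram in a list of strands of which some (`Sum.inr k`) belong
to an added arc. -/
def openCount : List (Bool ⊕ ℕ) → ℕ
  | [] => 0
  | Sum.inl _ :: l => openCount l + 1
  | Sum.inr _ :: l => openCount l

/-- `Add ov st e w`: the word `w` arises from the word `e` by adding one arc which passes over
(`ov = true`) or under (`ov = false`) every strand that it crosses. The list `st` describes the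
strands of `w` at the bottom of the word: `Sum.inl d` is a strand of the open diagram `e`, directed
upwards iff `d = true`, and `Sum.inr k` is the piece number `k` of the added arc. The arc starts at
the endpoint `die` of the open diagram (piece `0`), its pieces with an even number are directed
upwards, the ones with an odd number downwards, and its last piece ends in the point `born`. -/
inductive Add (ov : Bool) : List (Bool ⊕ ℕ) → List Gen → List Gen → Prop
  | nil : Add ov [] [] []
  | cup (A B : List (Bool ⊕ ℕ)) (d : Bool) (e w : List Gen)
      (h : Add ov (A ++ Sum.inl d :: Sum.inl (!d) :: B) e w) :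
      Add ov (A ++ B) (Gen.cup (openCount A) d :: e) (Gen.cup A.length d :: w)
  | cap (A B : List (Bool ⊕ ℕ)) (d : Bool) (e w : List Gen) (h : Add ov (A ++ B) e w) :
      Add ov (A ++ Sum.inl d :: Sum.inl (!d) :: B) (Gen.cap (openCount A) :: e)
        (Gen.cap A.length :: w)
  | cross (A B : List (Bool ⊕ ℕ)) (s : Bool) (e w : List Gen)
      (h : Add ov (A ++ Sum.inl true :: Sum.inl true :: B) e w) :
      Add ov (A ++ Sum.inl true :: Sum.inl true :: B) (Gen.cross (openCount A) s :: e)
        (Gen.cross A.length s :: w)
  /-- the last piece of the arc runs into the starting point of the open strand -/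
  | born (A B : List (Bool ⊕ ℕ)) (k : ℕ) (e w : List Gen)
      (h : Add ov (A ++ Sum.inl true :: B) e w) :
      Add ov (A ++ Sum.inr (2 * k) :: B) (Gen.born (openCount A) :: e) w
  /-- the open strand ends and is continued by the first piece of the arc -/
  | die (A B : List (Bool ⊕ ℕ)) (e w : List Gen) (h : Add ov (A ++ Sum.inr 0 :: B) e w) :
      Add ov (A ++ Sum.inl true :: B) (Gen.die (openCount A) :: e) w
  /-- a local minimum of the arc -/
  | acup₁ (A B : List (Bool ⊕ ℕ)) (k : ℕ) (e w : List Gen)
      (h : Add ov (A ++ Sum.inr (2 * k + 2) :: Sum.inr (2 * k + 1) :: B) e w) :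
      Add ov (A ++ B) e (Gen.cup A.length true :: w)
  | acup₂ (A B : List (Bool ⊕ ℕ)) (k : ℕ) (e w : List Gen)
      (h : Add ov (A ++ Sum.inr (2 * k + 1) :: Sum.inr (2 * k + 2) :: B) e w) :
      Add ov (A ++ B) e (Gen.cup A.length false :: w)
  /-- a local maximum of the arc -/
  | acap₁ (A B : List (Bool ⊕ ℕ)) (k : ℕ) (e w : List Gen) (h : Add ov (A ++ B) e w) :
      Add ov (A ++ Sum.inr (2 * k) :: Sum.inr (2 * k + 1) :: B) e (Gen.cap A.length :: w)
  | acap₂ (A B : List (Bool ⊕ ℕ)) (k : ℕ) (e w : List Gen) (h : Add ov (A ++ B) e w) :
      Add ov (A ++ Sum.inr (2 * k + 1) :: Sum.inr (2 * k) :: B) e (Gen.cap A.length :: w)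
  /-- the arc crosses a strand of the open diagram from left to right -/
  | right (A B : List (Bool ⊕ ℕ)) (k : ℕ) (e w : List Gen)
      (h : Add ov (A ++ Sum.inl true :: Sum.inr (2 * k) :: B) e w) :
      Add ov (A ++ Sum.inr (2 * k) :: Sum.inl true :: B) e (Gen.cross A.length ov :: w)
  /-- the arc crosses a strand of the open diagram from right to left -/
  | left (A B : List (Bool ⊕ ℕ)) (k : ℕ) (e w : List Gen)
      (h : Add ov (A ++ Sum.inr (2 * k) :: Sum.inl true :: B) e w) :
      Add ov (A ++ Sum.inl true :: Sum.inr (2 * k) :: B) e (Gen.cross A.length (!ov) :: w)

/-- The combinatorial (signed Gauss) code of an open link diagram with exactly one open component.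
`V` is the set of crossings. At a crossing `v` (drawn with both strands upwards) there are two
incoming ends `(v, false)` (left) and `(v, true)` (right), and two outgoing ends, also called
`(v, false)` (left) and `(v, true)` (right); the incoming end `(v, false)` is connected through the
crossing with the outgoing end `(v, true)` and vice versa. `nu` sends every outgoing end, and the
starting point `none` of the open component, to the incoming end, or the final point `none` of the
open component, to which it is connected by an edge. `sgn v` says whether the crossing `v` is
positive, and `loops` is the number of the closed components without crossings. -/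
structure Code (V : Type) where
  nu : Option (V × Bool) ≃ Option (V × Bool)
  sgn : V → Bool
  loops : ℕ

/-- The edges of an open diagram: `Sum.inl x` is the edge that starts in the outgoing end (or
starting point) `x`, and `Sum.inr i` is the closed component number `i` without crossings. -/
abbrev Edge (V : Type) (L : ℕ) := Option (V × Bool) ⊕ Fin L

/-- Events of a drawing of a code; `bend x j` is the local minimum of the edge `x` between its
pieces number `2 * j + 1` and `2 * j + 2`. -/
inductive Tok (V : Type) (L : ℕ) : Type
  | cross (v : V)
  | loop (i : Fin L)
  | born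
  | die
  | bend (x : Edge V L) (j : ℕ)

/-- `Lab O st e t`: the word `e` draws a part of the open diagram with the code `O`; `st` is the
list of the strands at the bottom of `e`, where `(x, j)` stands for the piece number `j` of the
edge `x` (each edge is cut into pieces `0, 1, 2, ...` at its local maxima and minima, the pieces
with an even number are directed upwards and the ones with an odd number downwards), and `t` lists
the events that occur. -/
inductive Lab {V : Type} (O : Code V) :
    List (Edge V O.loops × ℕ) → List Gen → List (Tok V O.loops) → Prop
  | nil : Lab O [] [] []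
  | cup₁ (A B : List (Edge V O.loops × ℕ)) (x : Edge V O.loops) (j : ℕ) (e : List Gen)
      (t : List (Tok V O.loops)) (h : Lab O (A ++ (x, 2 * j + 2) :: (x, 2 * j + 1) :: B) e t) :
      Lab O (A ++ B) (Gen.cup A.length true :: e) (Tok.bend x j :: t)
  | cup₂ (A B : List (Edge V O.loops × ℕ)) (x : Edge V O.loops) (j : ℕ) (e : List Gen)
      (t : List (Tok V O.loops)) (h : Lab O (A ++ (x, 2 * j + 1) :: (x, 2 * j + 2) :: B) e t) :
      Lab O (A ++ B) (Gen.cup A.length false :: e) (Tok.bend x j :: t)
  | cap₁ (A B : List (Edge V O.loops × ℕ)) (x : Edge V O.loops) (j : ℕ) (e : List Gen)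
      (t : List (Tok V O.loops)) (h : Lab O (A ++ B) e t) :
      Lab O (A ++ (x, 2 * j) :: (x, 2 * j + 1) :: B) (Gen.cap A.length :: e) t
  | cap₂ (A B : List (Edge V O.loops × ℕ)) (x : Edge V O.loops) (j : ℕ) (e : List Gen)
      (t : List (Tok V O.loops)) (h : Lab O (A ++ B) e t) :
      Lab O (A ++ (x, 2 * j + 1) :: (x, 2 * j) :: B) (Gen.cap A.length :: e) t
  /-- the lowest point of a closed component without crossings -/
  | loop₁ (A B : List (Edge V O.loops × ℕ)) (i : Fin O.loops) (j : ℕ) (e : List Gen)
      (t : List (Tok V O.loops)) (h : Lab O (A ++ (Sum.inr i, 0) :: (Sum.inr i, 2 * j + 1) :: B) e t) :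
      Lab O (A ++ B) (Gen.cup A.length true :: e) (Tok.loop i :: t)
  | loop₂ (A B : List (Edge V O.loops × ℕ)) (i : Fin O.loops) (j : ℕ) (e : List Gen)
      (t : List (Tok V O.loops)) (h : Lab O (A ++ (Sum.inr i, 2 * j + 1) :: (Sum.inr i, 0) :: B) e t) :
      Lab O (A ++ B) (Gen.cup A.length false :: e) (Tok.loop i :: t)
  | cross (A B : List (Edge V O.loops × ℕ)) (v : V) (x y : Option (V × Bool)) (i j : ℕ)
      (e : List Gen) (t : List (Tok V O.loops))
      (hx : O.nu x = some (v, false)) (hy : O.nu y = some (v, true))
      (h : Lab O (A ++ (Sum.inl (some (v, false)), 0) :: (Sum.inl (some (v, true)), 0) :: B) e t) :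
      Lab O (A ++ (Sum.inl x, 2 * i) :: (Sum.inl y, 2 * j) :: B)
        (Gen.cross A.length (O.sgn v) :: e) (Tok.cross v :: t)
  | born (A B : List (Edge V O.loops × ℕ)) (e : List Gen) (t : List (Tok V O.loops))
      (h : Lab O (A ++ (Sum.inl none, 0) :: B) e t) :
      Lab O (A ++ B) (Gen.born A.length :: e) (Tok.born :: t)
  | die (A B : List (Edge V O.loops × ℕ)) (x : Option (V × Bool)) (j : ℕ) (e : List Gen)
      (t : List (Tok V O.loops)) (hx : O.nu x = none) (h : Lab O (A ++ B) e t) :
      Lab O (A ++ (Sum.inl x, 2 * j) :: B) (Gen.die A.length :: e) (Tok.die :: t)

/-- `Draws O e`: the word `e` is a planar open diagram whose code is `O`. -/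
def Draws {V : Type} (O : Code V) (e : List Gen) : Prop :=
  ∃ t, Lab O [] e t ∧ t.Nodup ∧ (∀ v, Tok.cross v ∈ t) ∧ (∀ i, Tok.loop i ∈ t) ∧
    Tok.born ∈ t ∧ Tok.die ∈ t

/-- `WSAP w`: the word `w` is a weakly successively almost positive diagram: it consists of an open
diagram all of whose crossings are positive, and of an arc that passes over everything it crosses
(so all negative crossings of `w` lie on one overarc). -/
def WSAP (w : List Gen) : Prop :=
  ∃ (m : ℕ) (O : Code (Fin m)) (e : List Gen), (∀ v, O.sgn v = true) ∧ Draws O e ∧ Add true [] e w

/-- The closure of a braid on `n` strands: `u` is a list of letters `(i, true)` (the Artin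
generator `σ_(i+1)`, the crossing of the strands number `i` and `i + 1`) and `(i, false)` (its
inverse). -/
def braidClosure (n : ℕ) (u : List (ℕ × Bool)) : List Gen :=
  (List.range n).map (fun i => Gen.cup i true) ++ u.map (fun p => Gen.cross p.1 p.2) ++
    (List.range n).reverse.map Gen.cap

/-- The value of a braid word in a group `G` with chosen elements `s 0, s 1, ...`. -/
def eval {G : Type} [Group G] (s : ℕ → G) (u : List (ℕ × Bool)) : G :=
  (u.map fun p => if p.2 then s p.1 else (s p.1)⁻¹).prod

/-- Two words represent the same element of the braid group `B_n`, which is the universal group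
with `n - 1` generators satisfying Artin's relations. -/
def BraidEq (n : ℕ) (u v : List (ℕ × Bool)) : Prop :=
  (∀ p ∈ u, p.1 + 1 < n) ∧ (∀ p ∈ v, p.1 + 1 < n) ∧
    ∀ (G : Type) [Group G] (s : ℕ → G),
      (∀ i j, i + 2 ≤ j → j + 1 < n → s i * s j = s j * s i) →
      (∀ i, i + 2 < n → s i * s (i + 1) * s i = s (i + 1) * s i * s (i + 1)) →
      eval s u = eval s v

/-- Elementary isotopies of links:
* `pass`: one arc of a diagram that passes over everything (or under everything) is replaced by
  another such arc with the same endpoints; here `e` is the rest of the diagram;
* `redraw`: the open diagrams `e` and `e'` have the same code, and both are closed by an arc that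
  passes over everything. Two such diagrams represent the same link: a connected planar diagram is
  determined by its code up to isotopy of the sphere, and components of the diagram that are not
  connected with the rest are split and can be moved anywhere below the overarc;
* `braid`: two words for the same braid have isotopic closures;
* `rot`: the closures of `u v` and `v u` are isotopic. -/
inductive Step : List Gen → List Gen → Prop
  | pass (ov : Bool) (e w w' : List Gen) (hb : e.countP Gen.isBorn = 1)
      (hd : e.countP Gen.isDie = 1)
      (h : Add ov [] e w) (h' : Add ov [] e w') : Step w w'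
  | redraw (m : ℕ) (O : Code (Fin m)) (e e' w w' : List Gen) (he : Draws O e) (he' : Draws O e')
      (h : Add true [] e w) (h' : Add true [] e' w') : Step w w'
  | braid (n : ℕ) (u v : List (ℕ × Bool)) (h : BraidEq n u v) : Step (braidClosure n u) (braidClosure n v)
  | rot (n : ℕ) (u v : List (ℕ × Bool)) (h : ∀ p ∈ u ++ v, p.1 + 1 < n) :
      Step (braidClosure n (u ++ v)) (braidClosure n (v ++ u))

/-- Diagrams connected by elementary isotopies represent the same link. -/
def Iso (w w' : List Gen) : Prop := Relation.EqvGen Step w w'

/-- The word `a_(i+1,j+1) = (σ_(i+1) ... σ_(j-1)) σ_j (σ_(i+1) ... σ_(j-1))⁻¹` for `i < j`. -/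
def aWord (i j : ℕ) : List (ℕ × Bool) :=
  (List.range (j - 1 - i)).map (fun t => (i + t, true)) ++ [(j - 1, true)] ++
    (List.range (j - 1 - i)).reverse.map (fun t => (i + t, false))

/-- `SQP w`: the link represented by `w` is the closure of a strongly quasipositive braid, that
is, of a product of the band generators `a_(i,j)`. -/
def SQP (w : List Gen) : Prop :=
  ∃ (n : ℕ) (L : List (ℕ × ℕ)), (∀ p ∈ L, p.1 < p.2 ∧ p.2 < n) ∧
    Iso w (braidClosure n (L.flatMap fun p => aWord p.1 p.2))

end Pool.Agent.H53.SQ
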