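import Pool.Agent.H53.SQ.Base

/-!
Definitions for the frontier argument (modules FROA, FRO, FRT, TOK).
-/

namespace Pool.Agent.H53.SQ

variable {V : Type} {L : ℕ}

inductive FI (V : Type) (L : ℕ) : Type
  | up (n : Option (Nm V L)) (x : Edge V L) (j : ℕ) (b : BT V)
  | ret (n : Nm V L)
  | dead (n : Nm V L)
  | sdead

def FI.er : FI V L → MI V L
  | .up n x j _ => .up n x j
  | .ret n => .ret n
  | .dead n => .dead n
  | .sdead => .sdead

def lw : FI V L → List (Lt V L)
  | .up none _ _ b => RC b ++ LC b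
  | .up (some n) _ _ b => RC b ++ topL n :: LC b
  | .ret n => [retL n]
  | .dead _ => []
  | .sdead => []

def wS : List (FI V L) → List (Lt V L)
  | [] => []
  | m :: S => wS S ++ lw m

def okI (O : Code V) : FI V O.loops → Prop
  | .up none x _ b => ∃ a, x = Sum.inl a ∧ Path O.nu b (O.nu a) none ∧ okJ b
  | .up (some (Sum.inl g)) x j b =>
      ∃ a, x = Sum.inl a ∧ Path O.nu b (O.nu a) (some g) ∧ noJ b ∧ (b = .nil → j = 0)
  | .up (some (Sum.inr i)) x j b => x = Sum.inr i ∧ j = 0 ∧ b = .nil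
  | _ => True

/-- events of a bar; a generic crossing is counted at its left item -/
def btoks (O : Code V) : BT V → List (Tok V O.loops)
  | .nil => []
  | .it v false r => Tok.cross v :: btoks O r
  | .it _ true r => btoks O r
  | .ch _ v s c r => Tok.bend (gap O (Sum.inl (v, !s))) 0 :: Tok.cross v :: (btoks O c ++ btoks O r)

def ftk (O : Code V) : FI V O.loops → List (Tok V O.loops)
  | .up none _ _ b => btoks O b ++ [Tok.die]
  | .up (some _) _ _ b => btoks O b
  | _ => []

def fnm : FI V L → List (Nm V L)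
  | .up _ _ _ b => (nms b).map Sum.inl
  | _ => []

structure Forest (O : Code V) (b₀ : BT V) (R : List ((V × Bool) × BT V)) : Prop where
  path₀ : Path O.nu b₀ (O.nu none) none
  okJ₀ : okJ b₀
  chk₀ : chk [] (wrd none b₀ : List (Lt V O.loops))
  path : ∀ r ∈ R, Path O.nu r.2 (some r.1) (some r.1)
  noJ : ∀ r ∈ R, noJ r.2
  ne : ∀ r ∈ R, r.2 ≠ BT.nil
  side : ∀ r ∈ R, r.1.2 = true
  chkR : ∀ r ∈ R, chk [] (wrd (some (Sum.inl r.1)) r.2 : List (Lt V O.loops))
  nodup : (eps b₀ ++ R.flatMap (fun r => eps r.2)).Nodup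
  all : ∀ z : V × Bool, z ∈ eps b₀ ++ R.flatMap (fun r => eps r.2)

/-- all names -/
def allN (O : Code V) (b₀ : BT V) (R : List ((V × Bool) × BT V)) : List (Nm V O.loops) :=
  (nms b₀).map Sum.inl ++ (R.flatMap (fun r => Sum.inl r.1 :: (nms r.2).map Sum.inl) ++
    (List.finRange O.loops).map Sum.inr)

/-- all events except `born` -/
def allT (O : Code V) (b₀ : BT V) (R : List ((V × Bool) × BT V)) : List (Tok V O.loops) :=
  Tok.die :: (btoks O b₀ ++ (R.flatMap (fun r => Tok.bend (gap O (Sum.inl r.1)) 0 :: btoks O r.2) ++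
    (List.finRange O.loops).map Tok.loop))

end Pool.Agent.H53.SQ
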