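import Pool.Agent.H53.SQ.FRO

/-!
# Module FRT: the whole drawing, starting from the open strand alone

`Forest O b₀ R`: `b₀` is the bar of the open strand, `R` the list of the root circles `(g, c)` (cut at the
incoming end `g = (v, true)`) of the other components of the diagram.

PROOF of `mw_of_forest`: consider the frontier `S` which consists of the items
`up (some n) (gap O n) (fpc n) b_n, ret n` for all root names `n` (`inl g` with bar `c` for
`(g, c) ∈ R`, and `inr i`, `i < O.loops`, with the bar `nil`), in some order, followed by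
`up none (inl none) 0 b₀`. `wS S = wrd none b₀ ++ (concatenation of the words wrd (some n) b_n, in
the reverse order)`, where `wrd (some (inr i)) nil = [retL, topL] = [(_, true), (_, false)]`;
`chk [] (W₁ ++ W₂)` holds if `chk [] W₁` and `chk [] W₂` (`chk_append`). `okI`: for `inl g`:
`gap O (inl g) = inl (O.nu.symm (some g))`, `O.nu (O.nu.symm (some g)) = some g`, `c ≠ nil`. Apply
`frontier`, then peel off the roots one after the other with `MW.fr` (induction on the list of the
root names). `F` and `T` as stated, up to permutation.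
-/

namespace Pool.Agent.H53.SQ

variable {V : Type}

theorem frt_chk {ι : Type} (B : List (ι × Bool)) (hB : chk [] B) (A : List (ι × Bool)) :
    ∀ st : List ι, chk st A → chk st (A ++ B) := by
  induction A with
  | nil =>
    intro st h
    have h' : st = [] := by
      cases st with
      | nil => rfl
      | cons a st => exact absurd h (by simp [chk])
    rw [h']
    exact hB
  | cons p A ih =>
    obtain ⟨i, s⟩ := p
    intro st h
    cases s with
    | true =>
      cases st with
      | nil => exact ih _ h
      | cons a st => exact ih _ h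
    | false =>
      cases st with
      | nil => exact absurd h (by simp [chk])
      | cons a st => exact ⟨h.1, ih _ h.2⟩

theorem chk_append {ι : Type} (A B : List (ι × Bool)) (hA : chk [] A) (hB : chk [] B) :
    chk [] (A ++ B) := frt_chk B hB A [] hA

/-- the two items of a root circle -/
def frtI (O : Code V) (p : Nm V O.loops × BT V) : List (FI V O.loops) :=
  [FI.up (some p.1) (gap O p.1) (fpc p.1) p.2, FI.ret p.1]

/-- the frontier after the births of the roots in `l` -/
def frtS (O : Code V) (b₀ : BT V) (l : List (Nm V O.loops × BT V)) : List (FI V O.loops) :=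
  l.flatMap (frtI O) ++ [FI.up none (Sum.inl none) 0 b₀]

theorem frtS_cons (O : Code V) (b₀ : BT V) (p : Nm V O.loops × BT V)
    (l : List (Nm V O.loops × BT V)) : frtS O b₀ (p :: l) =
      FI.up (some p.1) (gap O p.1) (fpc p.1) p.2 :: FI.ret p.1 :: frtS O b₀ l := by
  simp [frtS, frtI]

theorem frt_wS (O : Code V) (b₀ : BT V) (h₀ : chk [] (wrd none b₀ : List (Lt V O.loops)))
    (l : List (Nm V O.loops × BT V))
    (hl : ∀ p ∈ l, chk [] (wrd (some p.1) p.2 : List (Lt V O.loops))) :
    chk [] (wS (frtS O b₀ l)) := by
  induction l with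
  | nil =>
    have e : wS (frtS O b₀ []) = (wrd none b₀ : List (Lt V O.loops)) := by
      simp [frtS, wS, lw, wrd]
    rw [e]
    exact h₀
  | cons p l ih =>
    have e : wS (frtS O b₀ (p :: l)) = wS (frtS O b₀ l) ++ wrd (some p.1) p.2 := by
      rw [frtS_cons]
      simp [wS, lw, wrd]
    rw [e]
    exact chk_append _ _ (ih fun q hq => hl q (List.mem_cons_of_mem _ hq))
      (hl p List.mem_cons_self)

theorem frt_peel (O : Code V) (b₀ : BT V) (l : List (Nm V O.loops × BT V)) :
    ∀ (F : List (Nm V O.loops)) (T : List (Tok V O.loops))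
      (f : (Nm V O.loops → Bool) → List Gen), MW O ((frtS O b₀ l).map FI.er) F T f →
    ∃ (F' : List (Nm V O.loops)) (T' : List (Tok V O.loops))
      (f' : (Nm V O.loops → Bool) → List Gen), MW O [MI.up none (Sum.inl none) 0] F' T' f' ∧
      F'.Perm (l.map Prod.fst ++ F) ∧ T'.Perm (l.map (fun p => ftok O p.1) ++ T) := by
  induction l with
  | nil =>
    intro F T f h
    exact ⟨F, T, f, h, List.Perm.refl _, List.Perm.refl _⟩
  | cons p l ih =>
    intro F T f h
    rw [frtS_cons] at h
    have h1 := MW.fr p.1 ((frtS O b₀ l).map FI.er) F T f h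
    obtain ⟨F', T', f', h2, h3, h4⟩ := ih _ _ _ h1
    refine ⟨F', T', f', h2, h3.trans ?_, h4.trans ?_⟩
    · simpa using List.perm_middle
    · simpa using List.perm_middle

theorem frt_fnm (O : Code V) (b₀ : BT V) (l : List (Nm V O.loops × BT V)) :
    (frtS O b₀ l).flatMap fnm = l.flatMap (fun p => (nms p.2).map Sum.inl) ++
      (nms b₀).map Sum.inl := by
  induction l with
  | nil => simp [frtS, fnm]
  | cons p l ih =>
    rw [frtS_cons, List.flatMap_cons, List.flatMap_cons, ih]
    simp [fnm]

theorem frt_ftk (O : Code V) (b₀ : BT V) (l : List (Nm V O.loops × BT V)) :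
    (frtS O b₀ l).flatMap (ftk O) = l.flatMap (fun p => btoks O p.2) ++
      (btoks O b₀ ++ [Tok.die]) := by
  induction l with
  | nil => simp [frtS, ftk]
  | cons p l ih =>
    rw [frtS_cons, List.flatMap_cons, List.flatMap_cons, ih]
    simp [ftk]

/-- all roots with their bars -/
def frtL (O : Code V) (R : List ((V × Bool) × BT V)) : List (Nm V O.loops × BT V) :=
  R.map (fun r => (Sum.inl r.1, r.2)) ++ (List.finRange O.loops).map (fun i => (Sum.inr i, BT.nil))

theorem frt_mem {O : Code V} {R : List ((V × Bool) × BT V)} {p : Nm V O.loops × BT V}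
    (h : p ∈ frtL O R) : (∃ r ∈ R, p = (Sum.inl r.1, r.2)) ∨ ∃ i, p = (Sum.inr i, BT.nil) := by
  rcases List.mem_append.1 h with h1 | h1
  · obtain ⟨r, hr, e⟩ := List.mem_map.1 h1
    exact Or.inl ⟨r, hr, e.symm⟩
  · obtain ⟨i, _, e⟩ := List.mem_map.1 h1
    exact Or.inr ⟨i, e.symm⟩

theorem mw_of_forest {O : Code V} {b₀ : BT V} {R : List ((V × Bool) × BT V)}
    (h : Forest O b₀ R) :
    ∃ (F : List (Nm V O.loops)) (T : List (Tok V O.loops))
      (f : (Nm V O.loops → Bool) → List Gen), MW O [MI.up none (Sum.inl none) 0] F T f ∧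
      F.Perm (allN O b₀ R) ∧ T.Perm (allT O b₀ R) := by
  have hw : chk [] (wS (frtS O b₀ (frtL O R))) := by
    refine frt_wS O b₀ h.chk₀ _ ?_
    intro p hp
    rcases frt_mem hp with ⟨r, hr, e⟩ | ⟨i, e⟩
    · subst e
      exact h.chkR r hr
    · subst e
      have : (wrd (some (Sum.inr i)) BT.nil : List (Lt V O.loops)) =
          [(Sum.inr (Sum.inr i), true), (Sum.inr (Sum.inr i), false)] := by
        simp [wrd, retL, topL, sd]
      rw [this]
      simp [chk]
  have hok : ∀ m ∈ frtS O b₀ (frtL O R), okI O m := by
    intro m hm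
    rcases List.mem_append.1 hm with h1 | h1
    · obtain ⟨p, hp, hmp⟩ := List.mem_flatMap.1 h1
      have hm2 : m = FI.up (some p.1) (gap O p.1) (fpc p.1) p.2 ∨ m = FI.ret p.1 := by
        simpa [frtI] using hmp
      rcases hm2 with hm2 | hm2
      · rw [hm2]
        rcases frt_mem hp with ⟨r, hr, e⟩ | ⟨i, e⟩
        · subst e
          refine ⟨O.nu.symm (some r.1), rfl, ?_, h.noJ r hr, fun hb => absurd hb (h.ne r hr)⟩
          rw [Equiv.apply_symm_apply]
          exact h.path r hr
        · subst e
          exact ⟨rfl, rfl, rfl⟩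
      · rw [hm2]
        trivial
    · have h2 : m = FI.up none (Sum.inl none) 0 b₀ := by simpa using h1
      rw [h2]
      exact ⟨none, rfl, h.path₀, h.okJ₀⟩
  obtain ⟨F, T, f, h1, h2, h3⟩ := frontier O _ hok hw
  obtain ⟨F', T', f', h4, h5, h6⟩ := frt_peel O b₀ _ F T f h1
  refine ⟨F', T', f', h4, h5.trans ((h2.append_left _).trans ?_),
    h6.trans ((h3.append_left _).trans ?_)⟩
  · rw [frt_fnm]
    have e1 : (frtL O R).map Prod.fst = R.map (fun r => (Sum.inl r.1 : Nm V O.loops)) ++
        (List.finRange O.loops).map Sum.inr := by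
      simp [frtL, Function.comp_def]
    have e2 : (frtL O R).flatMap (fun p => (nms p.2).map (Sum.inl : V × Bool → Nm V O.loops)) =
        R.flatMap (fun r => (nms r.2).map Sum.inl) := by
      simp [frtL, List.flatMap_append, List.flatMap_map, nms]
    rw [e1, e2]
    have e3 := List.map_append_flatMap_perm R (fun r => (Sum.inl r.1 : Nm V O.loops))
      (fun r => (nms r.2).map Sum.inl)
    refine List.Perm.trans ?_ ((e3.append_right _).append_left _)
    generalize R.map (fun r => (Sum.inl r.1 : Nm V O.loops)) = a1
    generalize (List.finRange O.loops).map (Sum.inr : _ → Nm V O.loops) = a2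
    generalize R.flatMap (fun r => (nms r.2).map (Sum.inl : _ → Nm V O.loops)) = a3
    generalize (nms b₀).map (Sum.inl : _ → Nm V O.loops) = a4
    rw [← Multiset.coe_eq_coe]
    simp only [← Multiset.coe_add]
    abel
  · rw [frt_ftk]
    have e1 : (frtL O R).map (fun p => ftok O p.1) =
        R.map (fun r => (Tok.bend (gap O (Sum.inl r.1)) 0 : Tok V O.loops)) ++
        (List.finRange O.loops).map Tok.loop := by
      simp [frtL, Function.comp_def, ftok]
    have e2 : (frtL O R).flatMap (fun p => btoks O p.2) = R.flatMap (fun r => btoks O r.2) := by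
      simp [frtL, List.flatMap_append, List.flatMap_map, btoks]
    rw [e1, e2]
    have e3 := List.map_append_flatMap_perm R
      (fun r => (Tok.bend (gap O (Sum.inl r.1)) 0 : Tok V O.loops)) (fun r => btoks O r.2)
    refine List.Perm.trans ?_ ((((e3.append_right _).append_left _)).cons _)
    generalize R.map (fun r => (Tok.bend (gap O (Sum.inl r.1)) 0 : Tok V O.loops)) = a1
    generalize (List.finRange O.loops).map (Tok.loop : _ → Tok V O.loops) = a2
    generalize R.flatMap (fun r => btoks O r.2) = a3
    generalize btoks O b₀ = a4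
    rw [← Multiset.coe_eq_coe, ← Multiset.cons_coe, ← Multiset.singleton_add]
    simp only [← Multiset.coe_add, Multiset.coe_singleton]
    abel

end Pool.Agent.H53.SQ
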