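import Pool.Agent.H53.SQ.ADDB

/-!
# Module LABE: the unconverted word is the closure of an open drawing of the code by an overarc

PROOF of `labe`: induction on `h` (fixed `O`, `hpos`). Write `A' = A.flatMap lnS`, `A'' = A.flatMap lnL`.
Facts: `A'.length = vl (fun _ => false) A`, `openCount A' = A''.length`; for off items `D`:
`D.flatMap lnL = []`, and with `X = (D.flatMap lnS).map (fun y => (y, false))`:
`X.map snd = flags (fun _ => false) D`, `Xok true X` (all strands are `inr 0 = inr (2 * 0)`, flag
`false = !true`), `oflags X = []`.
* `done`: exactly one item is `sdead`, the others are `dead`, so the state is `[inr 0, inr 1]`: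
  `Add.acap₁ [] [] 0`, `e = []`, `Lab.nil`.
* `post`: `e = cross A''.length true :: e'` (`add_fw` with `m = 1`; `Lab.cross`, `O.sgn v = true`).
* `bR`: `e = cup (A''.length + 1) true :: cross A''.length true :: e'`; `Add.cup`, `Add.cross`;
  `Lab.cup₁ .. (x := gap ..) (j := 0)` then `Lab.cross` with `y = O.nu.symm (some (v, true))`, piece
  `2 * 1`. Note that `MI.ret n` is the piece `(gap O n, 1)`.
* `bL`: `e = cup A''.length false :: cross (A''.length + 1) true :: e'`; `Lab.cup₂`, `Lab.cross` with
  `x = O.nu.symm (some (v, false))`, piece `2 * 1`, at `A'' ++ [(gap, 1)]`.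
* `capR` (here `C n = false`): `add_mvR`, `Add.cap .. true`, `e = cap A''.length :: e'`, `Lab.cap₁ .. 0`.
* `capL`: `add_mvL` with `Q = A' ++ [inl false]`, `Add.cap .. false`, `Lab.cap₂ .. 0`.
* `dieS`: `Add.die`, `Lab.die`, `e = die A''.length :: e'`.
* `fr`: `Add.cup [] _ true`; `Lab.cup₁ [] ..` (for `inl g`, pieces `2` and `1`) or `Lab.loop₁ [] .. 0`
  (for `inr i`, pieces `0` and `1`); `e = cup 0 true :: e'`.
PROOF of `labe_fin`: `clo 1 x = cup 0 true :: (x ++ [cap 0])`; `Add.acup₁ [] [] 0`,
`Add.born [] [inr 1] 1`, `Lab.born [] []`.
-/

namespace Pool.Agent.H53.SQ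

variable {V : Type} {L : ℕ}

def lnS : MI V L → List (Bool ⊕ ℕ)
  | .up _ _ _ => [Sum.inl true]
  | .ret _ => [Sum.inl false]
  | .dead _ => []
  | .sdead => [Sum.inr 0]

def lnL (O : Code V) : MI V O.loops → List (Edge V O.loops × ℕ)
  | .up _ x j => [(x, 2 * j)]
  | .ret n => [(gap O n, 1)]
  | .dead _ => []
  | .sdead => []

def isS : MI V L → Bool
  | .up none _ _ => true
  | .sdead => true
  | _ => false

theorem labe_len (A : List (MI V L)) : (A.flatMap lnS).length = vl (fun _ => false) A := by
  induction A with
  | nil => rfl
  | cons m A ih =>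
    unfold vl at ih ⊢
    rw [List.flatMap_cons, List.length_append, ih, List.map_cons, List.sum_cons]
    cases m <;> simp [lnS, vis]

theorem labe_oc (O : Code V) (A : List (MI V O.loops)) :
    openCount (A.flatMap lnS) = (A.flatMap (lnL O)).length := by
  induction A with
  | nil => rfl
  | cons m A ih =>
    rw [List.flatMap_cons, openCount_append, ih, List.flatMap_cons, List.length_append]
    cases m <;> simp [lnS, lnL, openCount]

theorem labe_offL (O : Code V) (D : List (MI V O.loops)) (hD : ∀ m ∈ D, m.off = true) :
    D.flatMap (lnL O) = [] := by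
  induction D with
  | nil => rfl
  | cons m D ih =>
    rw [List.flatMap_cons, ih (fun m hm => hD m (List.mem_cons_of_mem _ hm))]
    have := hD m List.mem_cons_self
    cases m <;> simp [lnL, MI.off] at this ⊢

/-- the strands of a list of off items with flags -/
def labe_X (D : List (MI V L)) : List ((Bool ⊕ ℕ) × Bool) :=
  (D.flatMap lnS).map (fun y => (y, false))

theorem labe_Xfst (D : List (MI V L)) : (labe_X D).map Prod.fst = D.flatMap lnS := by
  unfold labe_X
  rw [List.map_map]
  have : (Prod.fst ∘ fun y : Bool ⊕ ℕ => (y, false)) = id := rfl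
  rw [this, List.map_id]

theorem labe_Xsnd (D : List (MI V L)) (hD : ∀ m ∈ D, m.off = true) :
    (labe_X D).map Prod.snd = flags (fun _ => false) D := by
  induction D with
  | nil => rfl
  | cons m D ih =>
    have ih := ih (fun m hm => hD m (List.mem_cons_of_mem _ hm))
    have h := hD m List.mem_cons_self
    unfold labe_X at ih ⊢
    rw [List.flatMap_cons, List.map_append, List.map_append, ih]
    cases m <;> simp [lnS, MI.off, flags] at h ⊢

theorem labe_Xmem (D : List (MI V L)) (hD : ∀ m ∈ D, m.off = true) :
    ∀ x ∈ labe_X D, x = (Sum.inr 0, false) := by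
  intro x hx
  unfold labe_X at hx
  rw [List.mem_map] at hx
  obtain ⟨y, hy, rfl⟩ := hx
  rw [List.mem_flatMap] at hy
  obtain ⟨m, hm, hy⟩ := hy
  have h := hD m hm
  cases m <;> simp [lnS, MI.off] at h hy
  rw [hy]

theorem labe_Xok (D : List (MI V L)) (hD : ∀ m ∈ D, m.off = true) : Xok true (labe_X D) := by
  intro x hx
  rw [labe_Xmem D hD x hx]
  exact Or.inr ⟨0, rfl, rfl⟩

theorem labe_Xof (D : List (MI V L)) (hD : ∀ m ∈ D, m.off = true) : oflags (labe_X D) = [] := by
  unfold oflags
  rw [List.filter_eq_nil_iff.2]
  · rfl
  · intro x hx
    rw [labe_Xmem D hD x hx]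
    simp

theorem labe_done (D : List (MI V L)) (hD : ∀ m ∈ D, m.off = true) :
    D.flatMap lnS = List.replicate (D.countP isS) (Sum.inr 0) := by
  induction D with
  | nil => rfl
  | cons m D ih =>
    have ih := ih (fun m hm => hD m (List.mem_cons_of_mem _ hm))
    have h := hD m List.mem_cons_self
    rw [List.flatMap_cons, ih, List.countP_cons]
    cases m <;> simp [lnS, MI.off, isS, List.replicate_succ] at h ⊢

theorem labe {O : Code V} (hpos : ∀ v, O.sgn v = true) {ms : List (MI V O.loops)}
    {F : List (Nm V O.loops)} {T : List (Tok V O.loops)} {f : (Nm V O.loops → Bool) → List Gen}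
    (h : MW O ms F T f) (hs : ms.countP isS = 1) :
    ∃ e : List Gen, Add true (ms.flatMap lnS ++ [Sum.inr 1]) e (f (fun _ => false) ++ [Gen.cap 0]) ∧
      Lab O (ms.flatMap (lnL O)) e T := by
  induction h with
  | done ms h =>
    refine ⟨[], ?_, ?_⟩
    · rw [labe_done ms h, hs]
      exact Add.acap₁ [] [] 0 [] [] Add.nil
    · rw [labe_offL O ms h]
      exact Lab.nil
  | post A D B x y a b i j v F T f hD ha hb h ih =>
    obtain ⟨e, h1, h2⟩ := ih (by
      simp only [List.countP_append, List.countP_cons] at hs ⊢
      cases x <;> cases y <;> simpa [isS] using hs)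
    have h3 := add_fw true (A.flatMap lnS) (labe_X D) (B.flatMap lnS ++ [Sum.inr 1]) 1 e
      (f (fun _ => false) ++ [Gen.cap 0]) (labe_Xok D hD) (by
        rw [labe_Xfst]
        simpa only [lnS, List.flatMap_append, List.flatMap_cons, List.append_assoc,
          List.cons_append, List.nil_append] using h1)
    rw [labe_Xfst, labe_Xsnd D hD, labe_Xof D hD, labe_len, labe_oc] at h3
    have h4 := Lab.cross (A.flatMap (lnL O)) (B.flatMap (lnL O)) v a b i j e T ha hb (by
        simpa only [lnL, labe_offL O D hD, List.flatMap_append, List.flatMap_cons,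
          List.append_assoc, List.cons_append, List.nil_append, mul_zero] using h2)
    rw [hpos] at h4
    refine ⟨Gen.cross (A.flatMap (lnL O)).length true :: e, ?_, ?_⟩
    · simpa only [lnS, List.flatMap_append, List.flatMap_cons, List.append_assoc,
        List.cons_append, List.nil_append, fw, List.replicate_one] using h3
    · simpa only [lnL, labe_offL O D hD, List.flatMap_append, List.flatMap_cons,
        List.append_assoc, List.cons_append, List.nil_append] using h4
  | bR A B x x₁ x₂ a j v F T f ha hx h ih =>
    obtain ⟨e, h1, h2⟩ := ih (by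
      simp only [List.countP_append, List.countP_cons] at hs ⊢
      rcases hx with ⟨rfl, rfl⟩ | ⟨rfl, rfl, rfl⟩
      · cases x₁ <;> simpa [isS] using hs
      · simpa [isS] using hs)
    have h3 := Add.cross (ov := true) (A.flatMap lnS)
      (Sum.inl false :: (B.flatMap lnS ++ [Sum.inr 1])) true e
      (f (fun _ => false) ++ [Gen.cap 0]) (by
        simpa only [lnS, List.flatMap_append, List.flatMap_cons, List.append_assoc,
          List.cons_append, List.nil_append] using h1)
    have h4 := Add.cup (ov := true) (A.flatMap lnS ++ [Sum.inl true])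
      (B.flatMap lnS ++ [Sum.inr 1]) true _ _ (by
        simpa only [List.append_assoc, List.cons_append, List.nil_append, Bool.not_true] using h3)
    rw [openCount_append, List.length_append, labe_len, labe_oc] at h4
    have h5 := Lab.cross (A.flatMap (lnL O)) ((gap O (Sum.inl (v, true)), 1) ::
        B.flatMap (lnL O)) v a (O.nu.symm (some (v, true))) j 1 e T ha
        (by rw [Equiv.apply_symm_apply]) (by
        simpa only [lnL, List.flatMap_append, List.flatMap_cons, List.append_assoc,
          List.cons_append, List.nil_append, mul_zero] using h2)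
    have h6 := Lab.cup₁ (A.flatMap (lnL O) ++ [(Sum.inl a, 2 * j)]) (B.flatMap (lnL O))
        (gap O (Sum.inl (v, true))) 0 _ _ (by
          simpa only [gap, List.append_assoc, List.cons_append, List.nil_append, mul_zero,
            zero_add, mul_one] using h5)
    rw [hpos, List.length_append] at h6
    refine ⟨Gen.cup ((A.flatMap (lnL O)).length + 1) true :: Gen.cross (A.flatMap (lnL O)).length true :: e,
      ?_, ?_⟩
    rotate_left
    · simpa only [lnL, List.flatMap_append, List.flatMap_cons,
        List.append_assoc, List.cons_append, List.nil_append, List.length_singleton] using h6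
    · simpa only [lnS, List.flatMap_append, List.flatMap_cons, List.append_assoc,
        List.cons_append, List.nil_append, List.length_singleton, openCount, zero_add] using h4
  | bL A B x x₁ x₂ a j v F T f ha hx h ih =>
    obtain ⟨e, h1, h2⟩ := ih (by
      simp only [List.countP_append, List.countP_cons] at hs ⊢
      rcases hx with ⟨rfl, rfl⟩ | ⟨rfl, rfl, rfl⟩
      · cases x₂ <;> simpa [isS] using hs
      · simpa [isS] using hs)
    have h3 := Add.cross (ov := true) (A.flatMap lnS ++ [Sum.inl false])
      (B.flatMap lnS ++ [Sum.inr 1]) true e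
      (f (fun _ => false) ++ [Gen.cap 0]) (by
        simpa only [lnS, List.flatMap_append, List.flatMap_cons, List.append_assoc,
          List.cons_append, List.nil_append] using h1)
    have h4 := Add.cup (ov := true) (A.flatMap lnS)
      (Sum.inl true :: (B.flatMap lnS ++ [Sum.inr 1])) false _ _ (by
        simpa only [List.append_assoc, List.cons_append, List.nil_append, Bool.not_false] using h3)
    rw [openCount_append, List.length_append, labe_len, labe_oc] at h4
    have h5 := Lab.cross (A.flatMap (lnL O) ++ [(gap O (Sum.inl (v, false)), 1)])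
        (B.flatMap (lnL O)) v (O.nu.symm (some (v, false))) a 1 j e T
        (by rw [Equiv.apply_symm_apply]) ha (by
        simpa only [lnL, List.flatMap_append, List.flatMap_cons, List.append_assoc,
          List.cons_append, List.nil_append, mul_zero] using h2)
    have h6 := Lab.cup₂ (A.flatMap (lnL O)) ((Sum.inl a, 2 * j) :: B.flatMap (lnL O))
        (gap O (Sum.inl (v, false))) 0 _ _ (by
          simpa only [gap, List.append_assoc, List.cons_append, List.nil_append, mul_zero,
            zero_add, mul_one] using h5)
    rw [hpos, List.length_append] at h6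
    refine ⟨Gen.cup (A.flatMap (lnL O)).length false :: Gen.cross ((A.flatMap (lnL O)).length + 1) true :: e,
      ?_, ?_⟩
    rotate_left
    · simpa only [lnL, List.flatMap_append, List.flatMap_cons,
        List.append_assoc, List.cons_append, List.nil_append, List.length_singleton] using h6
    · simpa only [lnS, List.flatMap_append, List.flatMap_cons, List.append_assoc,
        List.cons_append, List.nil_append, List.length_singleton, openCount, zero_add] using h4
  | capR A D B n F T f hD h ih =>
    obtain ⟨e, h1, h2⟩ := ih (by
      simp only [List.countP_append, List.countP_cons] at hs ⊢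
      simpa [isS] using hs)
    have h3 := Add.cap (ov := true) (A.flatMap lnS ++ D.flatMap lnS)
      (B.flatMap lnS ++ [Sum.inr 1]) true e (f (fun _ => false) ++ [Gen.cap 0]) (by
        simpa only [lnS, List.flatMap_append, List.flatMap_cons, List.append_assoc,
          List.cons_append, List.nil_append] using h1)
    have h4 := add_mvR true (A.flatMap lnS) (labe_X D) (Sum.inl false ::
      (B.flatMap lnS ++ [Sum.inr 1])) _ _ (labe_Xok D hD) (by
        rw [labe_Xfst]
        simpa only [List.append_assoc, Bool.not_true] using h3)
    have h7 : (D.flatMap lnS).length = (flags (fun _ => false) D).length := by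
      rw [← labe_Xsnd D hD, List.length_map, ← labe_Xfst, List.length_map]
    have h8 : openCount (D.flatMap lnS) = 0 := by
      rw [labe_oc, labe_offL O D hD]; rfl
    rw [labe_Xfst, labe_Xsnd D hD, labe_Xof D hD, openCount_append, List.length_append, labe_len,
      labe_oc, h7, h8] at h4
    have h5 := Lab.cap₁ (A.flatMap (lnL O)) (B.flatMap (lnL O)) (gap O n) 0 e _ (by
        simpa only [lnL, labe_offL O D hD, List.flatMap_append, List.flatMap_cons,
          List.append_assoc, List.cons_append, List.nil_append] using h2)
    refine ⟨Gen.cap (A.flatMap (lnL O)).length :: e,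
      ?_, ?_⟩
    rotate_left
    · simpa only [lnL, labe_offL O D hD, List.flatMap_append, List.flatMap_cons,
        List.append_assoc, List.cons_append, List.nil_append] using h5
    · simpa [lnS, List.flatMap_append, List.flatMap_cons, mvR, List.length_flatMap] using h4
  | capL A D B n F T f hD h ih =>
    obtain ⟨e, h1, h2⟩ := ih (by
      simp only [List.countP_append, List.countP_cons] at hs ⊢
      simpa [isS] using hs)
    have h3 := Add.cap (ov := true) (A.flatMap lnS)
      (D.flatMap lnS ++ (B.flatMap lnS ++ [Sum.inr 1])) false e
      (f (fun _ => false) ++ [Gen.cap 0]) (by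
        simpa only [lnS, List.flatMap_append, List.flatMap_cons, List.append_assoc,
          List.cons_append, List.nil_append] using h1)
    have h4 := add_mvL true (A.flatMap lnS ++ [Sum.inl false]) (labe_X D)
      (B.flatMap lnS ++ [Sum.inr 1]) _ _ (labe_Xok D hD) (by
        rw [labe_Xfst]
        simpa only [List.append_assoc, List.cons_append, List.nil_append, Bool.not_false] using h3)
    rw [labe_Xfst, labe_Xsnd D hD, labe_Xof D hD, openCount_append, List.length_append, labe_len,
      labe_oc] at h4
    have h5 := Lab.cap₂ (A.flatMap (lnL O)) (B.flatMap (lnL O)) (gap O n) 0 e _ (by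
        simpa only [lnL, labe_offL O D hD, List.flatMap_append, List.flatMap_cons,
          List.append_assoc, List.cons_append, List.nil_append] using h2)
    refine ⟨Gen.cap (A.flatMap (lnL O)).length :: e,
      ?_, ?_⟩
    rotate_left
    · simpa only [lnL, labe_offL O D hD, List.flatMap_append, List.flatMap_cons,
        List.append_assoc, List.cons_append, List.nil_append, mul_zero, zero_add] using h5
    · simpa [lnS, List.flatMap_append, List.flatMap_cons, mvL, List.length_flatMap] using h4
  | dieS A B a j F T f ha h ih =>
    obtain ⟨e, h1, h2⟩ := ih (by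
      simp only [List.countP_append, List.countP_cons] at hs ⊢
      simpa [isS] using hs)
    have h3 := Add.die (ov := true) (A.flatMap lnS)
      (B.flatMap lnS ++ [Sum.inr 1]) e (f (fun _ => false) ++ [Gen.cap 0]) (by
        simpa only [lnS, List.flatMap_append, List.flatMap_cons, List.append_assoc,
          List.cons_append, List.nil_append] using h1)
    rw [labe_oc] at h3
    have h5 := Lab.die (A.flatMap (lnL O)) (B.flatMap (lnL O)) a j e _ ha (by
        simpa only [lnL, List.flatMap_append, List.flatMap_cons,
          List.append_assoc, List.cons_append, List.nil_append] using h2)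
    refine ⟨Gen.die (A.flatMap (lnL O)).length :: e,
      ?_, ?_⟩
    rotate_left
    · simpa only [lnL, List.flatMap_append, List.flatMap_cons,
        List.append_assoc, List.cons_append, List.nil_append] using h5
    · simpa only [lnS, List.flatMap_append, List.flatMap_cons, List.append_assoc,
        List.cons_append, List.nil_append] using h3
  | fr n ms F T f h ih =>
    obtain ⟨e, h1, h2⟩ := ih (by
      simp only [List.countP_cons] at hs ⊢
      simpa [isS] using hs)
    have h3 := Add.cup (ov := true) []
      (ms.flatMap lnS ++ [Sum.inr 1]) true e (f (fun _ => false) ++ [Gen.cap 0]) (by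
        simpa only [lnS, List.flatMap_append, List.flatMap_cons, List.append_assoc,
          List.cons_append, List.nil_append, Bool.not_true] using h1)
    refine ⟨_, h3, ?_⟩
    rcases n with g | i
    · exact Lab.cup₁ [] (ms.flatMap (lnL O)) (gap O (Sum.inl g)) 0 e _ (by
          simpa only [lnL, fpc, List.flatMap_append, List.flatMap_cons,
          List.append_assoc, List.cons_append, List.nil_append] using h2)
    · exact Lab.loop₁ [] (ms.flatMap (lnL O)) i 0 e _ (by
          simpa only [lnL, fpc, gap, List.flatMap_append, List.flatMap_cons,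
          List.append_assoc, List.cons_append, List.nil_append] using h2)

theorem labe_fin {O : Code V} (hpos : ∀ v, O.sgn v = true)
    {F : List (Nm V O.loops)} {T : List (Tok V O.loops)} {f : (Nm V O.loops → Bool) → List Gen}
    (h : MW O [MI.up none (Sum.inl none) 0] F T f) :
    ∃ e : List Gen, Add true [] e (clo 1 (f (fun _ => false))) ∧ Lab O [] e (Tok.born :: T) := by
  obtain ⟨e, h1, h2⟩ := labe hpos h (by simp [isS])
  have h3 := Add.born (ov := true) [] [Sum.inr 1] 1 e _ (by simpa [lnS] using h1)
  have h4 := Add.acup₁ (ov := true) [] [] 0 _ _ h3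
  refine ⟨_, ?_, Lab.born [] [] e T (by simpa [lnL] using h2)⟩
  simpa [clo, cups, caps, openCount] using h4

end Pool.Agent.H53.SQ
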