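import Pool.Agent.H53.SQ.FDefs

/-!
# Module TOK: all events and names of a forest are different

PROOF of `forest_toks`: combinatorics of `E = eps b₀ ++ R.flatMap (fun r => eps r.2)` (`Nodup`,
contains all ends):
* `cross v` occurs once in `btoks b₀ ++ R.flatMap (btoks r.2)`: a crossing `v` is either the crossing of
  a `ch` item (then both ends `(v, _)` are used by this item and no other item has `v`), or both ends are
  ends of `it` items and `cross v` is counted at `it v false`.
* the names `(v, !s)` of the `ch` items and the names `g` of the roots are pairwise different: the former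
  are different elements of `E` (second entries of `ch` items); a root name `g` is the arrival end
  of the first item of its bar `c ≠ nil` (`Path .. (some g) ..`), so it occurs in `E` as a first entry of
  an item. Different roots have different first items. `gap O` is injective.
-/

namespace Pool.Agent.H53.SQ

variable {V : Type}

/-- the crossings counted at their left ends -/
def tok_crs (l : List (V × Bool)) : List V := (l.filter (fun z => !z.2)).map Prod.fst

theorem tok_crs_append (l m : List (V × Bool)) : tok_crs (l ++ m) = tok_crs l ++ tok_crs m := by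
  simp [tok_crs]

theorem tok_crs_pair (v : V) (s : Bool) (l : List (V × Bool)) :
    tok_crs ((v, s) :: (v, !s) :: l) = v :: tok_crs l := by
  cases s <;> simp [tok_crs]

theorem tok_crs_flatMap {ι : Type} (R : List ι) (f : ι → List (V × Bool)) :
    tok_crs (R.flatMap f) = R.flatMap (fun r => tok_crs (f r)) := by
  induction R with
  | nil => rfl
  | cons r R ih => rw [List.flatMap_cons, List.flatMap_cons, tok_crs_append, ih]

theorem tok_crs_nodup {l : List (V × Bool)} (h : l.Nodup) : (tok_crs l).Nodup := by
  unfold tok_crs
  apply List.Nodup.map_on _ (h.filter _)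
  intro x hx y hy hxy
  rw [List.mem_filter] at hx hy
  have h1 : x.2 = false := by simpa using hx.2
  have h2 : y.2 = false := by simpa using hy.2
  exact Prod.ext hxy (h1.trans h2.symm)

theorem tok_mem_crs {l : List (V × Bool)} {v : V} (h : (v, false) ∈ l) : v ∈ tok_crs l := by
  unfold tok_crs
  rw [List.mem_map]
  exact ⟨(v, false), List.mem_filter.2 ⟨h, rfl⟩, rfl⟩

theorem tok_nms_sub : ∀ b : BT V, List.Sublist (nms b) (eps b)
  | .nil => by simp [nms, eps]
  | .it v s r => by
    simp only [nms, eps]
    exact (tok_nms_sub r).cons _
  | .ch j v s c r => by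
    simp only [nms, eps]
    exact (((tok_nms_sub c).append (tok_nms_sub r)).cons_cons _).cons _

theorem tok_root_sub {nu : Option (V × Bool) → Option (V × Bool)} {b : BT V} {g : V × Bool}
    (hne : b ≠ BT.nil) (hp : Path nu b (some g) (some g)) :
    List.Sublist (g :: nms b) (eps b) := by
  cases b with
  | nil => exact absurd rfl hne
  | it v s r =>
    simp only [Path] at hp
    have h1 : g = (v, s) := by simpa using hp.1
    subst h1
    simp only [nms, eps]
    exact (tok_nms_sub r).cons_cons _
  | ch j v s c r =>
    simp only [Path] at hp
    have h1 : g = (v, s) := by simpa using hp.1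
    subst h1
    simp only [nms, eps]
    exact (((tok_nms_sub c).append (tok_nms_sub r)).cons_cons _).cons_cons _

theorem tok_flatMap_sub {ι α : Type} (R : List ι) (f g : ι → List α)
    (h : ∀ r ∈ R, List.Sublist (f r) (g r)) : List.Sublist (R.flatMap f) (R.flatMap g) := by
  induction R with
  | nil => simp
  | cons r R ih =>
    rw [List.flatMap_cons, List.flatMap_cons]
    exact (h r (List.mem_cons_self)).append (ih fun r' hr' => h r' (List.mem_cons_of_mem _ hr'))

/-- the event of a name -/
def tok_B (O : Code V) (g : V × Bool) : Tok V O.loops := Tok.bend (gap O (Sum.inl g)) 0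

theorem tok_B_inj (O : Code V) : Function.Injective (tok_B O) := by
  intro g g' h
  unfold tok_B at h
  simp only [gap, Tok.bend.injEq, Sum.inl.injEq, and_true] at h
  have := O.nu.symm.injective h
  simpa using this

theorem tok_btoks (O : Code V) : ∀ b : BT V,
    (btoks O b).Perm ((nms b).map (tok_B O) ++ (tok_crs (eps b)).map Tok.cross)
  | .nil => by simp [btoks, nms, eps, tok_crs]
  | .it v false r => by
    have ih := tok_btoks O r
    have e : tok_crs (eps (.it v false r)) = v :: tok_crs (eps r) := by simp [eps, tok_crs]
    rw [e]
    simp only [btoks, nms, List.map_cons]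
    refine (ih.cons _).trans ?_
    exact List.perm_middle.symm
  | .it v true r => by
    have ih := tok_btoks O r
    have e : tok_crs (eps (.it v true r)) = tok_crs (eps r) := by simp [eps, tok_crs]
    rw [e]
    simpa only [btoks, nms] using ih
  | .ch j v s c r => by
    have ihc := tok_btoks O c
    have ihr := tok_btoks O r
    have e : tok_crs (eps (.ch j v s c r)) = v :: (tok_crs (eps c) ++ tok_crs (eps r)) := by
      simp only [eps]
      rw [tok_crs_pair, tok_crs_append]
    rw [e]
    simp only [btoks, nms, List.map_cons, List.map_append]
    change (tok_B O (v, !s) :: Tok.cross v :: (btoks O c ++ btoks O r)).Perm _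
    refine List.Perm.cons _ ?_
    have h1 : (btoks O c ++ btoks O r).Perm
        ((nms c).map (tok_B O) ++ (tok_crs (eps c)).map Tok.cross ++
          ((nms r).map (tok_B O) ++ (tok_crs (eps r)).map Tok.cross)) := ihc.append ihr
    have h2 : ((nms c).map (tok_B O) ++ (tok_crs (eps c)).map Tok.cross ++
          ((nms r).map (tok_B O) ++ (tok_crs (eps r)).map Tok.cross)).Perm
        ((nms c).map (tok_B O) ++ (nms r).map (tok_B O) ++
          ((tok_crs (eps c)).map Tok.cross ++ (tok_crs (eps r)).map Tok.cross)) := by
      rw [List.append_assoc, List.append_assoc]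
      refine List.Perm.append_left _ ?_
      rw [← List.append_assoc, ← List.append_assoc]
      exact List.Perm.append_right _ List.perm_append_comm
    exact ((h1.trans h2).cons _).trans List.perm_middle.symm

theorem tok_swap {α : Type} (a b c d : List α) :
    (a ++ b ++ (c ++ d)).Perm (a ++ c ++ (b ++ d)) := by
  rw [List.append_assoc, List.append_assoc]
  refine List.Perm.append_left _ ?_
  rw [← List.append_assoc, ← List.append_assoc]
  exact List.Perm.append_right _ List.perm_append_comm

theorem tok_flat (O : Code V) (R : List ((V × Bool) × BT V)) :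
    (R.flatMap (fun r => Tok.bend (gap O (Sum.inl r.1)) 0 :: btoks O r.2)).Perm
      ((R.flatMap (fun r => r.1 :: nms r.2)).map (tok_B O) ++
        (R.flatMap (fun r => tok_crs (eps r.2))).map Tok.cross) := by
  induction R with
  | nil => simp
  | cons r R ih =>
    simp only [List.flatMap_cons, List.map_append, List.map_cons]
    change ((tok_B O r.1 :: btoks O r.2) ++ _).Perm _
    have h1 := (tok_btoks O r.2).append ih
    exact List.Perm.cons _ (h1.trans (tok_swap _ _ _ _))

theorem forest_toks {O : Code V} {b₀ : BT V} {R : List ((V × Bool) × BT V)}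
    (h : Forest O b₀ R) :
    (allN O b₀ R).Nodup ∧ (Tok.born :: allT O b₀ R).Nodup ∧
      (∀ v, Tok.cross v ∈ allT O b₀ R) ∧ (∀ i, Tok.loop i ∈ allT O b₀ R) := by
  -- the names
  set N : List (V × Bool) := nms b₀ ++ R.flatMap (fun r => r.1 :: nms r.2) with hN
  have hNsub : List.Sublist N (eps b₀ ++ R.flatMap (fun r => eps r.2)) := by
    refine (tok_nms_sub b₀).append (tok_flatMap_sub R _ _ fun r hr => ?_)
    exact tok_root_sub (h.ne r hr) (h.path r hr)
  have hNnd : N.Nodup := h.nodup.sublist hNsub
  -- the crossings
  set K : List V := tok_crs (eps b₀ ++ R.flatMap (fun r => eps r.2)) with hK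
  have hKnd : K.Nodup := tok_crs_nodup h.nodup
  have hKall : ∀ v, v ∈ K := fun v => tok_mem_crs (h.all (v, false))
  -- the events
  have hperm : (allT O b₀ R).Perm (Tok.die :: (N.map (tok_B O) ++ (K.map Tok.cross ++
      (List.finRange O.loops).map Tok.loop))) := by
    unfold allT
    refine List.Perm.cons _ ?_
    have h1 := (tok_btoks O b₀).append ((tok_flat O R).append_right
      ((List.finRange O.loops).map Tok.loop))
    refine h1.trans ?_
    rw [hN, hK, tok_crs_append, tok_crs_flatMap, List.map_append, List.map_append]
    simp only [List.append_assoc]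
    refine List.Perm.append_left _ ?_
    rw [← List.append_assoc, ← List.append_assoc (List.map (tok_B O) _)]
    exact List.Perm.append_right _ List.perm_append_comm
  refine ⟨?_, ?_, ?_, ?_⟩
  · have e : allN O b₀ R = N.map Sum.inl ++ (List.finRange O.loops).map Sum.inr := by
      unfold allN
      rw [hN, List.map_append, List.map_flatMap, List.append_assoc]
      simp only [List.map_cons]
    rw [e, List.nodup_append']
    refine ⟨hNnd.map Sum.inl_injective, (List.nodup_finRange _).map Sum.inr_injective, ?_⟩
    intro x hx hy
    rw [List.mem_map] at hx hy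
    obtain ⟨a, _, rfl⟩ := hx
    obtain ⟨b, _, hb⟩ := hy
    exact absurd hb (by simp)
  · rw [List.nodup_cons]
    constructor
    · intro hm
      rw [hperm.mem_iff] at hm
      simp [tok_B] at hm
    · rw [hperm.nodup_iff, List.nodup_cons]
      refine ⟨by simp [tok_B], ?_⟩
      rw [List.nodup_append']
      refine ⟨hNnd.map (tok_B_inj O), ?_, ?_⟩
      · rw [List.nodup_append']
        refine ⟨hKnd.map fun a b hab => by simpa using hab,
          (List.nodup_finRange _).map fun a b hab => by simpa using hab, ?_⟩
        intro x hx hy
        rw [List.mem_map] at hx hy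
        obtain ⟨a, _, rfl⟩ := hx
        obtain ⟨b, _, hb⟩ := hy
        exact absurd hb (by simp)
      · intro x hx hy
        rw [List.mem_map] at hx
        obtain ⟨a, _, rfl⟩ := hx
        simp [tok_B] at hy
  · intro v
    rw [hperm.mem_iff]
    simp [hKall v]
  · intro i
    rw [hperm.mem_iff]
    simp

end Pool.Agent.H53.SQ
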