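import Pool.Agent.H53.SQ.QAL
import Pool.Agent.H53.SQ.TOK
import Pool.Agent.H53.SQ.FRT
import Pool.Agent.H53.SQ.CHN
import Pool.Agent.H53.SQ.BRAB
import Pool.Agent.H53.SQ.LABE

/-!
# Module FIN: the final assembly

PROOF. `WSAP w` gives `m, O, e` with `Draws O e`, `Add true [] e w`. `forest_exists`, `mw_of_forest` give
`h : MW O [up none (inl none) 0] F T f`, with `F.Nodup`, and the facts about `T` by `forest_toks` (up to
permutation). `labe_fin` gives `e₁` with `Add true [] e₁ (clo 1 (f ∅))`, `Lab O [] e₁ (born :: T)`, so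
`Draws O e₁`, and `Step.redraw`: `w ~ clo 1 (f ∅)`. `chain` with `C = fun _ => false`, `β = []`, `P = Q = 0`;
`braid_fin`.
-/

namespace Pool.Agent.H53.SQ

theorem sqp_of_wsap (w : List Gen) (hw : WSAP w) : SQP w := by
  obtain ⟨m, O, e, hpos, hD, hA⟩ := hw
  obtain ⟨b₀, R, hF⟩ := forest_exists O e hD
  obtain ⟨F, T, f, h, hFp, hTp⟩ := mw_of_forest hF
  obtain ⟨h1, h2, h3, h4⟩ := forest_toks hF
  obtain ⟨e₁, hA₁, hL₁⟩ := labe_fin hpos h
  have hD₁ : Draws O e₁ := by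
    refine ⟨_, hL₁, ?_, ?_, ?_, ?_, ?_⟩
    · exact (List.Perm.nodup_iff (hTp.cons _)).2 h2
    · intro v; exact List.mem_cons_of_mem _ (hTp.mem_iff.2 (h3 v))
    · intro i; exact List.mem_cons_of_mem _ (hTp.mem_iff.2 (h4 i))
    · exact List.mem_cons_self
    · exact List.mem_cons_of_mem _ (hTp.mem_iff.2 List.mem_cons_self)
  have s1 : Iso w (clo 1 (f (fun _ => false))) :=
    Relation.EqvGen.rel _ _ (Step.redraw m O e e₁ _ _ hD hD₁ hA hA₁)
  obtain ⟨n, P', β', hP', hβ', s2⟩ := chain h (fun _ => false) [] 0 0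
    (by intro q hq n hn; simp at hq; subst hq; simp [MI.nm] at hn)
    (fun _ _ => rfl) (hFp.nodup_iff.2 h1) (by simp [smk]) (by simp)
  have s2' : Iso (clo 1 (f (fun _ => false))) (clo n (wd β')) := s2
  obtain ⟨L, hL, s3⟩ := braid_fin n P' hP' β' hβ'
  exact ⟨n, L, hL, (s1.trans _ _ _ s2').trans _ _ _ s3⟩

end Pool.Agent.H53.SQ
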