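import Pool.Agent.H53.SQ.FROA

/-!
# Module FRO: from trees of bars with correct contour words to `MW`

Frontier items `FI` carry the remaining bars. `wS S` is the word of the frontier, read from RIGHT to
LEFT (`wS (m :: S) = wS S ++ lw m`).

PROOF of `frontier`: strong induction on the measure `mu S = sum over the items up .. b of
(2 * size b + 1)` (`size` = number of items in all bars). `T`, `F` up to permutation.
1. If some item is `up n x j (ch ..)` (write `S = A ++ m :: B`): execute it. The word `wS` does not
   change (this is how `RC`, `LC` are defined): e.g. for `br` (`j = false`, `s = false`, child with the name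
   `n' = inl (v, true)`) `S' = A ++ up n (v,false) 0 r :: up n' (v,true) 0 c :: ret n' :: B`,
   `lw (ret n') ++ lw (up n' .. c) ++ lw (up n .. r)` (right to left!) equals `lw m`. Use `MW.bR` with
   `x₁ = n, x₂ = n'` (`br`), `MW.bR` with `x₁ = n', x₂ = none` (`jl`, only for `n = none` because of
   `okI`), `MW.bL` with `x₁ = n', x₂ = n` (`bl`), `MW.bL` with `x₁ = none, x₂ = n'` (`jr`).
   The edges: the item `m` is `up n (inl a) j (ch j' v s c r)` with `O.nu a = some (v, s)` by `Path`; the
   strand on the left starts at `some (v, false)`, the strand on the right at `some (v, true)`;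
   the bar of the parent continues at `nu (v, if j' then !s else s)`, the child at the other one.
2. If some item is `up none x j nil`: `x = inl a`, `O.nu a = none`: `MW.dieS`, new item `sdead`, same word.
3. Otherwise, if no item is alive (`up` or `ret`): `MW.done`. (All items `off`; `F = T = []`.)
4. (use `find_pair` of FROA) Otherwise every living item has an ACTIVE letter: for `up n x j (it v false r)` the letter
   `(inl v, false)`, which is the FIRST letter of `lw m` (it looks to the right), for
   `up n x j (it v true r)` the letter `(inl v, true)`, the LAST letter of `lw m` (it looks to the left),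
   for `up (some n) x j nil` the only letter `topL n`, for `ret n` the only letter `retL n`; a closing
   letter (second component `false`) looks right, an opening letter looks left.
   The leftmost living item looks right: otherwise its active letter, which is opening, would be
   the last letter of `wS S`, impossible (`chk_last`). The rightmost living item looks left: a closing
   letter cannot be the first letter of `wS S` (`chk_first`). So there are consecutive living items
   `m, m'` (`S = A ++ m :: (D ++ m' :: B)`, `D` off) such that `m` looks right and `m'` looks left. In the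
   word the active letters are adjacent: `wS S = U ++ (i', true) :: (i, false) :: U'` (first `m'`, then
   `m`); by `chk_adj` `i' = i` and `chk [] (U ++ U')`. Cases:
   - `i = inl v`: `m = up n (inl a) j (it v false r)`, `m' = up n' (inl b) j' (it v true r')`: `MW.post`,
     word `U ++ U'`, `T`: `cross v` is counted at the item `it v false` (`btoks`).
   - `i = inr n`: `m` is `up (some n) x 0 nil` with `topL n = (inr n, false)`, i.e. `sd n = true`, or
     `ret n` with `sd n = false`; `m'` is `ret n` with `sd n = true`, or `up (some n) x 0 nil` with
     `sd n = false`. So either `m = up (some n) .. nil`, `m' = ret n`: `MW.capR`, or `m = ret n`,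
     `m' = up (some n) .. nil`: `MW.capL`. The edge is `gap O n`: for `n = inl g`, `Path nil` gives
     `O.nu a = some g`; for `n = inr i` by `okI`. The piece is `0` by `okI`.
   The living items never have the form `up none .. nil` here (step 2).
-/

namespace Pool.Agent.H53.SQ

variable {V : Type} {L : ℕ}

/-- number of items of a bar -/
def fro_sz : BT V → ℕ
  | .nil => 0
  | .it _ _ r => fro_sz r + 1
  | .ch _ _ _ c r => fro_sz c + fro_sz r + 1

def fro_mi : FI V L → ℕ
  | .up _ _ _ b => 2 * fro_sz b + 1
  | _ => 0

def fro_mu (S : List (FI V L)) : ℕ := (S.map fro_mi).sum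

theorem fro_mu_append (A B : List (FI V L)) : fro_mu (A ++ B) = fro_mu A + fro_mu B := by
  simp [fro_mu]

theorem fro_mu_cons (m : FI V L) (B : List (FI V L)) : fro_mu (m :: B) = fro_mi m + fro_mu B := by
  simp [fro_mu]

/-- the conclusion -/
def fro_R (O : Code V) (S : List (FI V O.loops)) : Prop :=
  ∃ (F : List (Nm V O.loops)) (T : List (Tok V O.loops))
      (f : (Nm V O.loops → Bool) → List Gen), MW O (S.map FI.er) F T f ∧
      (F : Multiset (Nm V O.loops)) = (S.flatMap fnm : List _) ∧
      (T : Multiset (Tok V O.loops)) = (S.flatMap (ftk O) : List _)

theorem fro_off {m : FI V L} : m.er.off = m.off := by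
  cases m <;> rfl

theorem fro_offD {D : List (FI V L)} (hD : ∀ d ∈ D, d.off = true) :
    ∀ m ∈ D.map FI.er, m.off = true := by
  intro m hm
  obtain ⟨d, hd, rfl⟩ := List.mem_map.1 hm
  rw [fro_off]
  exact hD d hd

theorem fro_lw (n : Option (Nm V L)) (x x' : Edge V L) (j j' : ℕ) (b : BT V) :
    lw (.up n x j b) = lw (.up n x' j' b) := by
  cases n <;> rfl

theorem fro_wS_off {D : List (FI V L)} (hD : ∀ d ∈ D, d.off = true) : wS D = [] := by
  induction D with
  | nil => rfl
  | cons d D ih =>
    have h1 := ih fun e he => hD e (List.mem_cons_of_mem _ he)
    have h2 := hD d List.mem_cons_self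
    show wS D ++ lw d = []
    rw [h1]
    cases d with
    | up n x j b => exact absurd h2 (by simp [FI.off])
    | ret n => exact absurd h2 (by simp [FI.off])
    | dead n => rfl
    | sdead => rfl

/-- a bar in an `up` item, first item a crossing: the edge -/
theorem fro_it {O : Code V} {n : Option (Nm V O.loops)} {x : Edge V O.loops} {j : ℕ} {v : V}
    {s : Bool} {r : BT V} (h : okI O (.up n x j (.it v s r))) :
    ∃ a, x = Sum.inl a ∧ O.nu a = some (v, s) ∧ okI O (.up n (Sum.inl (some (v, s))) 0 r) := by
  rcases n with _ | (g | i)
  · obtain ⟨a, rfl, ⟨h1, h2⟩, h3⟩ := h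
    exact ⟨a, rfl, h1, _, rfl, h2, h3⟩
  · obtain ⟨a, rfl, ⟨h1, h2⟩, h3, _⟩ := h
    exact ⟨a, rfl, h1, _, rfl, h2, h3, fun _ => rfl⟩
  · exact absurd h.2.2 (by simp)

theorem fro_ch {O : Code V} {n : Option (Nm V O.loops)} {x : Edge V O.loops} {j : ℕ} {jj : Bool}
    {v : V} {s : Bool} {c r : BT V} (h : okI O (.up n x j (.ch jj v s c r))) :
    ∃ a, x = Sum.inl a ∧ O.nu a = some (v, s) ∧
      okI O (.up n (Sum.inl (some (v, if jj then !s else s))) 0 r) ∧
      okI O (.up (some (Sum.inl (v, !s))) (Sum.inl (some (v, if jj then s else !s))) 0 c) ∧
      (jj = true → n = none) := by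
  rcases n with _ | (g | i)
  · obtain ⟨a, rfl, ⟨h1, h2, h3⟩, h4, h5⟩ := h
    exact ⟨a, rfl, h1, ⟨_, rfl, h2, h5⟩, ⟨_, rfl, h3, h4, fun _ => rfl⟩, fun _ => rfl⟩
  · obtain ⟨a, rfl, ⟨h1, h2, h3⟩, ⟨h4, h5, h6⟩, _⟩ := h
    exact ⟨a, rfl, h1, ⟨_, rfl, h2, h6, fun _ => rfl⟩, ⟨_, rfl, h3, h5, fun _ => rfl⟩,
      fun h' => absurd (h4.symm.trans h') (by simp)⟩
  · exact absurd h.2.2 (by simp)

theorem fro_nil {O : Code V} {n : Nm V O.loops} {x : Edge V O.loops} {j : ℕ}
    (h : okI O (.up (some n) x j .nil)) : x = gap O n ∧ j = 0 := by
  rcases n with g | i
  · obtain ⟨a, rfl, h1, _, h3⟩ := h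
    refine ⟨?_, h3 rfl⟩
    have h1' : O.nu a = some g := h1
    show Sum.inl a = Sum.inl (O.nu.symm (some g))
    rw [← h1', Equiv.symm_apply_apply]
  · exact ⟨h.1, h.2.1⟩

theorem fro_none {O : Code V} {x : Edge V O.loops} {j : ℕ}
    (h : okI O (.up none x j .nil)) : ∃ a, x = Sum.inl a ∧ O.nu a = none := by
  obtain ⟨a, rfl, h1, _⟩ := h
  exact ⟨a, rfl, h1⟩

theorem fro_nm_append {β : Type} (g : FI V L → List β) (A B : List (FI V L)) :
    (((A ++ B).flatMap g : List β) : Multiset β) = (A.flatMap g : List β) + (B.flatMap g : List β) := by
  rw [List.flatMap_append, Multiset.coe_add]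

theorem fro_nm_cons {β : Type} (g : FI V L → List β) (m : FI V L) (B : List (FI V L)) :
    (((m :: B).flatMap g : List β) : Multiset β) = (g m : List β) + (B.flatMap g : List β) := by
  rw [List.flatMap_cons, Multiset.coe_add]

theorem fro_nm_off {D : List (FI V L)} (hD : ∀ d ∈ D, d.off = true) : D.flatMap fnm = [] := by
  rw [List.flatMap_eq_nil_iff]
  intro d hd
  have := hD d hd
  cases d <;> simp_all [FI.off, fnm]

theorem fro_tk_off {O : Code V} {D : List (FI V O.loops)} (hD : ∀ d ∈ D, d.off = true) :
    D.flatMap (ftk O) = [] := by
  rw [List.flatMap_eq_nil_iff]
  intro d hd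
  have := hD d hd
  cases d <;> simp_all [FI.off, ftk]

/-- events of an `up` item -/
theorem fro_ftk (O : Code V) (n : Option (Nm V O.loops)) (x : Edge V O.loops) (j : ℕ) (b : BT V) :
    ((ftk O (.up n x j b) : List (Tok V O.loops)) : Multiset (Tok V O.loops)) =
      ((btoks O b : List (Tok V O.loops)) : Multiset (Tok V O.loops)) +
      (if n.isNone then {Tok.die} else 0) := by
  cases n with
  | none =>
    rw [if_pos (by rfl)]
    show ((btoks O b ++ [Tok.die] : List (Tok V O.loops)) : Multiset (Tok V O.loops)) = _
    rw [← Multiset.coe_add, Multiset.coe_singleton]
  | some n => simp [ftk]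

theorem fro_mk {O : Code V} {S : List (FI V O.loops)} {ms : List (MI V O.loops)}
    {F : List (Nm V O.loops)} {T : List (Tok V O.loops)} {f : (Nm V O.loops → Bool) → List Gen}
    (hM : MW O ms F T f) (h : S.map FI.er = ms)
    (hF : (F : Multiset (Nm V O.loops)) = (S.flatMap fnm : List _))
    (hT : (T : Multiset (Tok V O.loops)) = (S.flatMap (ftk O) : List _)) : fro_R O S := by
  subst h
  exact ⟨_, _, _, hM, hF, hT⟩

/-- common arguments for the births -/
theorem fro_birth {O : Code V} {A B : List (FI V O.loops)} {n : Option (Nm V O.loops)}
    {x : Edge V O.loops} {j : ℕ} {jj : Bool} {v : V} {s : Bool} {c r : BT V}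
    {m1 m2 m3 : FI V O.loops} (x1 x2 : Edge V O.loops) (j1 j2 : ℕ)
    (hperm : [m1, m2, m3].Perm [.up n x1 j1 r, .up (some (Sum.inl (v, !s))) x2 j2 c,
      .ret (Sum.inl (v, !s))])
    {F : List (Nm V O.loops)} {T : List (Tok V O.loops)} {g : (Nm V O.loops → Bool) → List Gen}
    (hM : MW O (A.map FI.er ++ MI.up n x j :: B.map FI.er) (Sum.inl (v, !s) :: F)
        (Tok.bend (gap O (Sum.inl (v, !s))) 0 :: Tok.cross v :: T) g)
    (hF : (F : Multiset (Nm V O.loops)) = ((A ++ m1 :: m2 :: m3 :: B).flatMap fnm : List _))
    (hT : (T : Multiset (Tok V O.loops)) = ((A ++ m1 :: m2 :: m3 :: B).flatMap (ftk O) : List _)) :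
    fro_R O (A ++ FI.up n x j (.ch jj v s c r) :: B) := by
  have key : ∀ {β : Type} (g : FI V O.loops → List β),
      (((A ++ m1 :: m2 :: m3 :: B).flatMap g : List β) : Multiset β) =
        (A.flatMap g : List β) + ((g (.up n x1 j1 r) : List β) +
          ((g (.up (some (Sum.inl (v, !s))) x2 j2 c) : List β) + ((g (.ret (Sum.inl (v, !s))) : List β) +
            (B.flatMap g : List β)))) := by
    intro β g
    have h1 : ((A ++ m1 :: m2 :: m3 :: B).flatMap g).Perm
        ((A ++ FI.up n x1 j1 r :: FI.up (some (Sum.inl (v, !s))) x2 j2 c ::
          FI.ret (Sum.inl (v, !s)) :: B).flatMap g) := by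
      apply List.Perm.flatMap_right
      apply List.Perm.append_left
      exact hperm.append_right B
    rw [Multiset.coe_eq_coe.2 h1, fro_nm_append, fro_nm_cons, fro_nm_cons, fro_nm_cons]
  refine fro_mk hM (by simp [FI.er]) ?_ ?_
  · rw [← Multiset.cons_coe, hF, key, fro_nm_append, fro_nm_cons]
    simp only [fnm, nms, List.map_cons, List.map_append, ← Multiset.coe_add, ← Multiset.cons_coe,
      ← Multiset.singleton_add, Multiset.coe_nil]
    abel
  · rw [← Multiset.cons_coe, ← Multiset.cons_coe, hT, key, fro_nm_append, fro_nm_cons,
      fro_ftk, fro_ftk, fro_ftk]
    simp only [btoks, ftk, ← Multiset.coe_add, ← Multiset.cons_coe,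
      ← Multiset.singleton_add, Multiset.coe_nil, Option.isNone_some, Bool.false_eq_true, if_false]
    abel

theorem fro_main (O : Code V) : ∀ (N : ℕ) (S : List (FI V O.loops)), fro_mu S = N →
    (∀ m ∈ S, okI O m) → chk [] (wS S) → fro_R O S := by
  intro N
  induction N using Nat.strong_induction_on with
  | _ N ih =>
  intro S hN hok hw
  by_cases h1 : ∃ n x j jj v s c r, FI.up n x j (.ch jj v s c r) ∈ S
  · -- a birth
    obtain ⟨n, x, j, jj, v, s, c, r, hm⟩ := h1
    obtain ⟨A, B, rfl⟩ := List.append_of_mem hm
    obtain ⟨a, rfl, ha, ok1, ok2, hjj⟩ := fro_ch (hok _ hm)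
    have hokA : ∀ m ∈ A, okI O m := fun m hm => hok m (List.mem_append_left _ hm)
    have hokB : ∀ m ∈ B, okI O m := fun m hm =>
      hok m (List.mem_append_right _ (List.mem_cons_of_mem _ hm))
    rw [wS_append] at hw
    rw [fro_mu_append, fro_mu_cons] at hN
    simp only [fro_mi, fro_sz] at hN
    cases jj with
    | false =>
      cases s with
      | false =>
        simp only [Bool.false_eq_true, if_false, Bool.not_false] at ok1 ok2
        obtain ⟨F, T, f, hMW, hF, hT⟩ := ih _ (by
            rw [← hN, fro_mu_append, fro_mu_cons, fro_mu_cons, fro_mu_cons]
            simp only [fro_mi]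
            omega)
          (A ++ FI.up n (Sum.inl (some (v, false))) 0 r ::
            FI.up (some (Sum.inl (v, true))) (Sum.inl (some (v, true))) 0 c ::
            FI.ret (Sum.inl (v, true)) :: B) rfl
          (by
            intro m hm
            simp only [List.mem_append, List.mem_cons] at hm
            rcases hm with hm | rfl | rfl | rfl | hm
            · exact hokA m hm
            · exact ok1
            · exact ok2
            · trivial
            · exact hokB m hm)
          (by
            rw [wS_append]
            convert hw using 2
            simp only [wS, List.append_assoc]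
            congr 1
            cases n <;> simp [lw])
        have hM := MW.bR (A.map FI.er) (B.map FI.er) n n (some (Sum.inl (v, true))) a j v F T f ha
          (Or.inl ⟨rfl, rfl⟩) (by simpa [FI.er] using hMW)
        exact fro_birth (s := false) _ _ _ _ (List.Perm.refl _) hM hF hT
      | true =>
        simp only [Bool.false_eq_true, if_false, Bool.not_true] at ok1 ok2
        obtain ⟨F, T, f, hMW, hF, hT⟩ := ih _ (by
            rw [← hN, fro_mu_append, fro_mu_cons, fro_mu_cons, fro_mu_cons]
            simp only [fro_mi]
            omega)
          (A ++ FI.ret (Sum.inl (v, false)) ::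
            FI.up (some (Sum.inl (v, false))) (Sum.inl (some (v, false))) 0 c ::
            FI.up n (Sum.inl (some (v, true))) 0 r :: B) rfl
          (by
            intro m hm
            simp only [List.mem_append, List.mem_cons] at hm
            rcases hm with hm | rfl | rfl | rfl | hm
            · exact hokA m hm
            · trivial
            · exact ok2
            · exact ok1
            · exact hokB m hm)
          (by
            rw [wS_append]
            convert hw using 2
            simp only [wS, List.append_assoc]
            congr 1
            cases n <;> simp [lw])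
        have hM := MW.bL (A.map FI.er) (B.map FI.er) n (some (Sum.inl (v, false))) n a j v F T f ha
          (Or.inl ⟨rfl, rfl⟩) (by simpa [FI.er] using hMW)
        exact fro_birth (s := true) (Sum.inl (some (v, true))) (Sum.inl (some (v, false))) 0 0
          (List.reverse_perm _).symm hM hF hT
    | true =>
      obtain rfl := hjj rfl
      cases s with
      | false =>
        simp only [if_true, Bool.not_false] at ok1 ok2
        obtain ⟨F, T, f, hMW, hF, hT⟩ := ih _ (by
            rw [← hN, fro_mu_append, fro_mu_cons, fro_mu_cons, fro_mu_cons]
            simp only [fro_mi]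
            omega)
          (A ++ FI.up (some (Sum.inl (v, true))) (Sum.inl (some (v, false))) 0 c ::
            FI.up none (Sum.inl (some (v, true))) 0 r ::
            FI.ret (Sum.inl (v, true)) :: B) rfl
          (by
            intro m hm
            simp only [List.mem_append, List.mem_cons] at hm
            rcases hm with hm | rfl | rfl | rfl | hm
            · exact hokA m hm
            · exact ok2
            · exact ok1
            · trivial
            · exact hokB m hm)
          (by
            rw [wS_append]
            convert hw using 2
            simp only [wS, List.append_assoc]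
            congr 1
            simp [lw])
        have hM := MW.bR (A.map FI.er) (B.map FI.er) none (some (Sum.inl (v, true))) none a j v F T f ha
          (Or.inr ⟨rfl, rfl, rfl⟩) (by simpa [FI.er] using hMW)
        exact fro_birth (s := false) (Sum.inl (some (v, true))) (Sum.inl (some (v, false))) 0 0
          (List.Perm.swap _ _ _) hM hF hT
      | true =>
        simp only [if_true, Bool.not_true] at ok1 ok2
        obtain ⟨F, T, f, hMW, hF, hT⟩ := ih _ (by
            rw [← hN, fro_mu_append, fro_mu_cons, fro_mu_cons, fro_mu_cons]
            simp only [fro_mi]
            omega)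
          (A ++ FI.ret (Sum.inl (v, false)) ::
            FI.up none (Sum.inl (some (v, false))) 0 r ::
            FI.up (some (Sum.inl (v, false))) (Sum.inl (some (v, true))) 0 c :: B) rfl
          (by
            intro m hm
            simp only [List.mem_append, List.mem_cons] at hm
            rcases hm with hm | rfl | rfl | rfl | hm
            · exact hokA m hm
            · trivial
            · exact ok1
            · exact ok2
            · exact hokB m hm)
          (by
            rw [wS_append]
            convert hw using 2
            simp only [wS, List.append_assoc]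
            congr 1
            simp [lw])
        have hM := MW.bL (A.map FI.er) (B.map FI.er) none none (some (Sum.inl (v, false))) a j v F T f ha
          (Or.inr ⟨rfl, rfl, rfl⟩) (by simpa [FI.er] using hMW)
        refine fro_birth (s := true) (Sum.inl (some (v, false))) (Sum.inl (some (v, true))) 0 0
          ?_ hM hF hT
        exact (List.perm_append_comm (l₁ := [FI.ret (Sum.inl (v, false))])
            (l₂ := [FI.up none (Sum.inl (some (v, false))) 0 r,
              FI.up (some (Sum.inl (v, false))) (Sum.inl (some (v, true))) 0 c]))
  · by_cases h2 : ∃ x j, FI.up none x j .nil ∈ S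
    · -- the end of the open strand
      obtain ⟨x, j, hm⟩ := h2
      obtain ⟨A, B, rfl⟩ := List.append_of_mem hm
      obtain ⟨a, rfl, ha⟩ := fro_none (hok _ hm)
      rw [wS_append] at hw
      rw [fro_mu_append, fro_mu_cons] at hN
      simp only [fro_mi, fro_sz] at hN
      obtain ⟨F, T, f, hMW, hF, hT⟩ := ih _ (by
            rw [← hN, fro_mu_append, fro_mu_cons]
            simp only [fro_mi]
            omega)
          (A ++ FI.sdead :: B) rfl
          (by
            intro m hm
            simp only [List.mem_append, List.mem_cons] at hm
            rcases hm with hm | rfl | hm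
            · exact hok m (List.mem_append_left _ hm)
            · trivial
            · exact hok m (List.mem_append_right _ (List.mem_cons_of_mem _ hm)))
          (by
            rw [wS_append]
            exact hw)
      have hM := MW.dieS (A.map FI.er) (B.map FI.er) a j F T f ha (by simpa [FI.er] using hMW)
      refine fro_mk hM (by simp [FI.er]) ?_ ?_
      · rw [hF, fro_nm_append, fro_nm_cons, fro_nm_append, fro_nm_cons]
        rfl
      · rw [← Multiset.cons_coe, hT, fro_nm_append, fro_nm_cons, fro_nm_append, fro_nm_cons]
        simp only [ftk, btoks, List.nil_append, ← Multiset.cons_coe,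
          ← Multiset.singleton_add, Multiset.coe_nil]
        abel
    · by_cases h3 : ∃ m ∈ S, m.off = false
      · have hs : ∀ m ∈ S, m.off = false → (∃ i w, LookR m i w) ∨ (∃ i w, LookL m i w) := by
          intro m hm hoff
          cases m with
          | dead n => exact absurd hoff (by simp [FI.off])
          | sdead => exact absurd hoff (by simp [FI.off])
          | ret n =>
            cases hsd : sd n with
            | false => exact Or.inl ⟨_, _, LookR.ret n hsd⟩
            | true => exact Or.inr ⟨_, _, LookL.ret n hsd⟩
          | up n x j b =>
            cases b with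
            | nil =>
              cases n with
              | none => exact absurd ⟨x, j, hm⟩ h2
              | some n =>
                cases hsd : sd n with
                | false => exact Or.inr ⟨_, _, LookL.top n x j hsd⟩
                | true => exact Or.inl ⟨_, _, LookR.top n x j hsd⟩
            | it v s r =>
              cases s with
              | false => exact Or.inl ⟨_, _, LookR.it n x j v r⟩
              | true => exact Or.inr ⟨_, _, LookL.it n x j v r⟩
            | ch jj v s c r => exact absurd ⟨n, x, j, jj, v, s, c, r, hm⟩ h1
        obtain ⟨A, D, B, m, m', i, i', w, w', rfl, hD, hR, hL⟩ := find_pair S hw h3 hs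
        have hwS : wS (A ++ m :: (D ++ m' :: B)) =
            (wS B ++ w') ++ (i', true) :: (i, false) :: (w ++ wS A) := by
          rw [wS_append]
          show (wS (D ++ m' :: B) ++ lw m) ++ wS A = _
          rw [wS_append, fro_wS_off hD]
          show (((wS B ++ lw m') ++ []) ++ lw m) ++ wS A = _
          rw [lw_lookL m' i' w' hL, lw_lookR m i w hR]
          simp
        rw [hwS] at hw
        obtain ⟨hii, hw2⟩ := chk_adj _ _ _ _ _ hw
        have hm : okI O m := hok m (by simp)
        have hm' : okI O m' := hok m' (by simp)
        have hokA : ∀ e ∈ A, okI O e := fun e he => hok e (List.mem_append_left _ he)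
        have hokD : ∀ e ∈ D, okI O e := fun e he => hok e (by simp [he])
        have hokB : ∀ e ∈ B, okI O e := fun e he => hok e (by simp [he])
        rw [fro_mu_append, fro_mu_cons, fro_mu_append, fro_mu_cons] at hN
        have hDn := fro_nm_off hD
        have hDt := fro_tk_off (O := O) hD
        cases hR with
        | it n x j v r =>
          cases hL with
          | it n' x' j' v' r' =>
            obtain rfl : v' = v := Sum.inl.inj hii
            obtain ⟨a, rfl, ha, ok1⟩ := fro_it hm
            obtain ⟨b, rfl, hb, ok2⟩ := fro_it hm'
            simp only [fro_mi, fro_sz] at hN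
            obtain ⟨F, T, f, hMW, hF, hT⟩ := ih _ (by
                rw [← hN, fro_mu_append, fro_mu_cons, fro_mu_append, fro_mu_cons]
                simp only [fro_mi]
                omega)
              (A ++ FI.up n (Sum.inl (some (v', false))) 0 r ::
                (D ++ FI.up n' (Sum.inl (some (v', true))) 0 r' :: B)) rfl
              (by
                intro e he
                simp only [List.mem_append, List.mem_cons] at he
                rcases he with he | rfl | he | rfl | he
                · exact hokA e he
                · exact ok1
                · exact hokD e he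
                · exact ok2
                · exact hokB e he)
              (by
                rw [wS_append]
                show chk [] ((wS (D ++ _ :: B) ++ lw _) ++ wS A)
                rw [wS_append, fro_wS_off hD]
                show chk [] ((((wS B ++ lw _) ++ []) ++ lw _) ++ wS A)
                rw [fro_lw n' _ (Sum.inl b) 0 j', fro_lw n _ (Sum.inl a) 0 j]
                simpa using hw2)
            have hM := MW.post (A.map FI.er) (D.map FI.er) (B.map FI.er) n n' a b j j' v' F T f
              (fro_offD hD) ha hb (by simpa [FI.er] using hMW)
            refine fro_mk hM (by simp [FI.er]) ?_ ?_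
            · rw [hF]
              simp only [fro_nm_append, fro_nm_cons]
              rfl
            · rw [← Multiset.cons_coe, hT]
              simp only [fro_nm_append, fro_nm_cons, fro_ftk, btoks, ← Multiset.cons_coe,
                ← Multiset.singleton_add]
              abel
          | top n' x' j' h => exact absurd hii (by simp)
          | ret n' h => exact absurd hii (by simp)
        | top n x j hsd =>
          cases hL with
          | it n' x' j' v' r' => exact absurd hii (by simp)
          | top n' x' j' h =>
            obtain rfl : n' = n := Sum.inr.inj hii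
            exact absurd (hsd.symm.trans h) (by simp)
          | ret n' h =>
            obtain rfl : n' = n := Sum.inr.inj hii
            obtain ⟨rfl, rfl⟩ := fro_nil hm
            simp only [fro_mi, fro_sz] at hN
            obtain ⟨F, T, f, hMW, hF, hT⟩ := ih _ (by
                rw [← hN, fro_mu_append, fro_mu_cons, fro_mu_append]
                simp only [fro_mi]
                omega)
              (A ++ FI.dead n' :: (D ++ B)) rfl
              (by
                intro e he
                simp only [List.mem_append, List.mem_cons] at he
                rcases he with he | rfl | he | he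
                · exact hokA e he
                · trivial
                · exact hokD e he
                · exact hokB e he)
              (by
                rw [wS_append]
                show chk [] ((wS (D ++ B) ++ []) ++ wS A)
                rw [wS_append, fro_wS_off hD]
                simpa using hw2)
            have hM := MW.capR (A.map FI.er) (D.map FI.er) (B.map FI.er) n' F T f
              (fro_offD hD) (by simpa [FI.er] using hMW)
            refine fro_mk hM (by simp [FI.er]) ?_ ?_
            · rw [hF]
              simp only [fro_nm_append, fro_nm_cons]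
              simp [fnm, nms]
            · rw [hT]
              simp only [fro_nm_append, fro_nm_cons]
              simp [ftk, btoks]
        | ret n hsd =>
          cases hL with
          | it n' x' j' v' r' => exact absurd hii (by simp)
          | top n' x' j' h =>
            obtain rfl : n' = n := Sum.inr.inj hii
            obtain ⟨rfl, rfl⟩ := fro_nil hm'
            simp only [fro_mi, fro_sz] at hN
            obtain ⟨F, T, f, hMW, hF, hT⟩ := ih _ (by
                rw [← hN, fro_mu_append, fro_mu_append, fro_mu_cons]
                simp only [fro_mi]
                omega)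
              (A ++ (D ++ FI.dead n' :: B)) rfl
              (by
                intro e he
                simp only [List.mem_append, List.mem_cons] at he
                rcases he with he | he | rfl | he
                · exact hokA e he
                · exact hokD e he
                · trivial
                · exact hokB e he)
              (by
                rw [wS_append, wS_append, fro_wS_off hD]
                show chk [] (((wS B ++ []) ++ []) ++ wS A)
                simpa using hw2)
            have hM := MW.capL (A.map FI.er) (D.map FI.er) (B.map FI.er) n' F T f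
              (fro_offD hD) (by simpa [FI.er] using hMW)
            refine fro_mk hM (by simp [FI.er]) ?_ ?_
            · rw [hF]
              simp only [fro_nm_append, fro_nm_cons]
              simp [fnm, nms]
            · rw [hT]
              simp only [fro_nm_append, fro_nm_cons]
              simp [ftk, btoks]
          | ret n' h =>
            obtain rfl : n' = n := Sum.inr.inj hii
            exact absurd (hsd.symm.trans h) (by simp)
      · -- everything is finished
        have hall : ∀ m ∈ S, m.off = true := by
          intro m hm
          by_contra hc
          exact h3 ⟨m, hm, by simpa using hc⟩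
        refine fro_mk (MW.done _ (fro_offD hall)) rfl ?_ ?_
        · rw [fro_nm_off hall]
        · rw [fro_tk_off hall]

theorem frontier (O : Code V) (S : List (FI V O.loops)) (hok : ∀ m ∈ S, okI O m)
    (hw : chk [] (wS S)) :
    ∃ (F : List (Nm V O.loops)) (T : List (Tok V O.loops))
      (f : (Nm V O.loops → Bool) → List Gen), MW O (S.map FI.er) F T f ∧
      F.Perm (S.flatMap fnm) ∧ T.Perm (S.flatMap (ftk O)) := by
  obtain ⟨F, T, f, h, hF, hT⟩ := fro_main O _ S rfl hok hw
  exact ⟨F, T, f, h, Multiset.coe_eq_coe.1 hF, Multiset.coe_eq_coe.1 hT⟩

end Pool.Agent.H53.SQ
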