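import Pool.Agent.H53.SQ.FDefs

/-!
# Module FROA: the stack check, and two consecutive living items that look at each other

PROOFS. `chk_first`: by definition. `chk_last`, `chk_adj`: induction on `w`, `A`, for all stacks.
`find_pair`: the living items are `up ..` and `ret ..`, the others have the word `[]`. A living item is
called LEFT-looking if its word ends with an opening letter `(i, true)`, RIGHT-looking if its word
starts with a closing letter `(i, false)`. By `hs` every living item is one of the two, according to its
active letter: `up n x j (it v false r)` looks right (its word starts with `(inl v, false)`),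
`up n x j (it v true r)` looks left (its word ends with `(inl v, true)`), `up (some n) x j nil` has the
word `[topL n]`, `ret n` the word `[retL n]`. The leftmost living item does not look left: its last
letter is the last letter of `wS S` (`chk_last`). The rightmost living item does not look right
(`chk_first`). Hence somewhere there are consecutive living items `m, m'`, `m` looking right, `m'`
looking left. (E.g. take the first living item from the left which looks left, and the living item
before it.) `active m` says which form the item has.
-/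

namespace Pool.Agent.H53.SQ

variable {V : Type} {L : ℕ}

theorem chk_first {ι : Type} (i : ι) (w : List (ι × Bool)) : ¬ chk [] ((i, false) :: w) := by
  simp [chk]

theorem chk_last {ι : Type} (i : ι) (st : List ι) (w : List (ι × Bool)) :
    ¬ chk st (w ++ [(i, true)]) := by
  induction w generalizing st with
  | nil => simp [chk]
  | cons p w ih =>
    obtain ⟨j, b⟩ := p
    cases b with
    | true => simpa [chk] using ih (j :: st)
    | false =>
      cases st with
      | nil => simp [chk]
      | cons k st =>
        simp only [List.cons_append, chk]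
        exact fun h => ih st h.2

theorem chk_adj {ι : Type} (i j : ι) (st : List ι) (A B : List (ι × Bool))
    (h : chk st (A ++ (i, true) :: (j, false) :: B)) : i = j ∧ chk st (A ++ B) := by
  induction A generalizing st with
  | nil =>
    simp only [List.nil_append, chk] at h
    exact ⟨h.1.symm, h.2⟩
  | cons p A ih =>
    obtain ⟨k, b⟩ := p
    cases b with
    | true =>
      simp only [List.cons_append, chk] at h ⊢
      exact ih _ h
    | false =>
      cases st with
      | nil => simp [chk] at h
      | cons l st =>
        simp only [List.cons_append, chk] at h ⊢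
        obtain ⟨h1, h2⟩ := ih st h.2
        exact ⟨h1, h.1, h2⟩

theorem wS_append (A B : List (FI V L)) : wS (A ++ B) = wS B ++ wS A := by
  induction A with
  | nil => simp [wS]
  | cons m A ih => simp [wS, ih, List.append_assoc]

def FI.off : FI V L → Bool
  | .dead _ => true
  | .sdead => true
  | _ => false

/-- the item looks right, with the active (closing) letter `i` and the rest `w` of its word -/
inductive LookR : FI V L → (V ⊕ Nm V L) → List (Lt V L) → Prop
  | it (n : Option (Nm V L)) (x : Edge V L) (j : ℕ) (v : V) (r : BT V) :
      LookR (.up n x j (.it v false r)) (Sum.inl v) (lw (.up n x j r))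
  | top (n : Nm V L) (x : Edge V L) (j : ℕ) (h : sd n = true) :
      LookR (.up (some n) x j .nil) (Sum.inr n) []
  | ret (n : Nm V L) (h : sd n = false) : LookR (.ret n) (Sum.inr n) []

/-- the item looks left, with the active (opening) letter `i` and the rest `w` of its word -/
inductive LookL : FI V L → (V ⊕ Nm V L) → List (Lt V L) → Prop
  | it (n : Option (Nm V L)) (x : Edge V L) (j : ℕ) (v : V) (r : BT V) :
      LookL (.up n x j (.it v true r)) (Sum.inl v) (lw (.up n x j r))
  | top (n : Nm V L) (x : Edge V L) (j : ℕ) (h : sd n = false) :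
      LookL (.up (some n) x j .nil) (Sum.inr n) []
  | ret (n : Nm V L) (h : sd n = true) : LookL (.ret n) (Sum.inr n) []

theorem lw_lookR (m : FI V L) (i : V ⊕ Nm V L) (w : List (Lt V L)) (h : LookR m i w) :
    lw m = (i, false) :: w := by
  cases h with
  | it n x j v r => cases n <;> simp [lw]
  | top n x j h => simp [lw, topL, h]
  | ret n h => simp [lw, retL, h]

theorem lw_lookL (m : FI V L) (i : V ⊕ Nm V L) (w : List (Lt V L)) (h : LookL m i w) :
    lw m = w ++ [(i, true)] := by
  cases h with
  | it n x j v r => cases n <;> simp [lw]
  | top n x j h => simp [lw, topL, h]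
  | ret n h => simp [lw, retL, h]

theorem froa_wS_off (D : List (FI V L)) (h : ∀ d ∈ D, d.off = true) : wS D = [] := by
  induction D with
  | nil => rfl
  | cons d D ih =>
    have h1 := ih fun e he => h e (List.mem_cons_of_mem _ he)
    have h2 := h d List.mem_cons_self
    cases d with
    | up n x j b => simp [FI.off] at h2
    | ret n => simp [FI.off] at h2
    | dead n => simp [wS, lw, h1]
    | sdead => simp [wS, lw, h1]

theorem froa_split (S : List (FI V L))
    (hs : ∀ m ∈ S, m.off = false → (∃ i w, LookR m i w) ∨ (∃ i w, LookL m i w)) :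
    (∃ (A D B : List (FI V L)) (m m' : FI V L) (i i' : V ⊕ Nm V L) (w w' : List (Lt V L)),
      S = A ++ m :: (D ++ m' :: B) ∧ (∀ d ∈ D, d.off = true) ∧ LookR m i w ∧ LookL m' i' w') ∨
    (∀ d ∈ S, d.off = true) ∨
    (∃ (D B : List (FI V L)) (m' : FI V L) (i' : V ⊕ Nm V L) (w' : List (Lt V L)),
      S = D ++ m' :: B ∧ (∀ d ∈ D, d.off = true) ∧ LookL m' i' w') ∨
    (∃ (A D : List (FI V L)) (m : FI V L) (i : V ⊕ Nm V L) (w : List (Lt V L)),
      S = A ++ m :: D ∧ (∀ d ∈ D, d.off = true) ∧ LookR m i w) := by
  induction S with
  | nil => exact Or.inr (Or.inl (by simp))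
  | cons x T ih =>
    have ih := ih fun m hm => hs m (List.mem_cons_of_mem _ hm)
    rcases ih with ⟨A, D, B, m, m', i, i', w, w', rfl, hD, hR, hL⟩ | ih
    · exact Or.inl ⟨x :: A, D, B, m, m', i, i', w, w', rfl, hD, hR, hL⟩
    by_cases hx : x.off = true
    · right
      rcases ih with hT | ⟨D, B, m', i', w', rfl, hD, hL⟩ | ⟨A, D, m, i, w, rfl, hD, hR⟩
      · left
        intro d hd
        rcases List.mem_cons.1 hd with rfl | hd
        · exact hx
        · exact hT d hd
      · right; left
        refine ⟨x :: D, B, m', i', w', rfl, ?_, hL⟩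
        intro d hd
        rcases List.mem_cons.1 hd with rfl | hd
        · exact hx
        · exact hD d hd
      · right; right
        exact ⟨x :: A, D, m, i, w, rfl, hD, hR⟩
    · have hx' : x.off = false := by simpa using hx
      rcases hs x List.mem_cons_self hx' with ⟨i, w, hR⟩ | ⟨i, w, hL⟩
      · rcases ih with hT | ⟨D, B, m', i', w', rfl, hD, hL⟩ | ⟨A, D, m, i, w, rfl, hD, hR⟩
        · exact Or.inr (Or.inr (Or.inr ⟨[], T, x, i, w, rfl, hT, hR⟩))
        · exact Or.inl ⟨[], D, B, x, m', i, i', w, w', rfl, hD, hR, hL⟩
        · exact Or.inr (Or.inr (Or.inr ⟨x :: A, D, m, i, w, rfl, hD, hR⟩))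
      · exact Or.inr (Or.inr (Or.inl ⟨[], T, x, i, w, rfl, by simp, hL⟩))

theorem find_pair (S : List (FI V L)) (hw : chk [] (wS S)) (hl : ∃ m ∈ S, m.off = false)
    (hs : ∀ m ∈ S, m.off = false → (∃ i w, LookR m i w) ∨ (∃ i w, LookL m i w)) :
    ∃ (A D B : List (FI V L)) (m m' : FI V L) (i i' : V ⊕ Nm V L) (w w' : List (Lt V L)),
      S = A ++ m :: (D ++ m' :: B) ∧ (∀ d ∈ D, d.off = true) ∧ LookR m i w ∧ LookL m' i' w' := by
  rcases froa_split S hs with h | h | ⟨D, B, m', i', w', rfl, hD, hL⟩ | ⟨A, D, m, i, w, rfl, hD, hR⟩
  · exact h
  · obtain ⟨m, hm, hm'⟩ := hl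
    rw [h m hm] at hm'
    simp at hm'
  · exfalso
    rw [wS_append, froa_wS_off D hD, List.append_nil, wS, lw_lookL m' i' w' hL,
      ← List.append_assoc] at hw
    exact chk_last _ _ _ hw
  · exfalso
    rw [wS_append, wS, froa_wS_off D hD, List.nil_append, lw_lookR m i w hR,
      List.cons_append] at hw
    exact chk_first _ _ hw

end Pool.Agent.H53.SQ
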