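import Mathlib
import Pool.Agent.H53.SQ.Defs

/-! Part G1 of the proof for MP_41dcdb_gt: this file joins the modules Base, CDefs, FDefs, LABD, ADDB, CUPC, INSB, CONVA, CONV. -/

section S_Base

/-!
Shared definitions of the proof (trees of bars, contour words, the relation `MW`).
Conventions: `false` = left, `true` = right.
-/

namespace Pool.Agent.H53.SQ

variable {V : Type} {L : ℕ}

/-! ### Bars -/

/-- A bar: a list of items from bottom to top. `it v s r`: the bar arrives at the crossing `v` on
the side `s` (and leaves it on the same side). `ch j v s c r`: at `v` (arrival on the side `s`) a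
child bar `c` is born; `j = true` is a jump (the bar leaves on the other side `!s`, the child starts
on the side `s`), for `j = false` the bar leaves on the side `s` and the child starts on the side
`!s`. In both cases the child ends by arriving at `(v, !s)`. -/
inductive BT (V : Type) : Type
  | nil : BT V
  | it (v : V) (s : Bool) (r : BT V) : BT V
  | ch (j : Bool) (v : V) (s : Bool) (c r : BT V) : BT V

/-- names of the circles: `Sum.inl g` is the circle which is cut open on the edge arriving at the
incoming end `g`, `Sum.inr i` is a circle without crossings -/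
abbrev Nm (V : Type) (L : ℕ) := (V × Bool) ⊕ Fin L

/-- letters of the contour words: (identity of the chord, is it the opening letter) -/
abbrev Lt (V : Type) (L : ℕ) := (V ⊕ Nm V L) × Bool

/-- side of the return strand of a circle -/
def sd : Nm V L → Bool
  | Sum.inl g => g.2
  | Sum.inr _ => true

def retL (n : Nm V L) : Lt V L := (Sum.inr n, sd n)

def topL (n : Nm V L) : Lt V L := (Sum.inr n, !sd n)

/-- right contour (from bottom to top) and left contour (from top to bottom) -/
def ct : BT V → List (Lt V L) × List (Lt V L)
  | .nil => ([], [])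
  | .it v false r => ((Sum.inl v, false) :: (ct r).1, (ct r).2)
  | .it v true r => ((ct r).1, (ct r).2 ++ [(Sum.inl v, true)])
  | .ch false v false c r =>
      (retL (Sum.inl (v, true)) :: ((ct c).1 ++ topL (Sum.inl (v, true)) :: ((ct c).2 ++ (ct r).1)),
        (ct r).2)
  | .ch false v true c r =>
      ((ct r).1,
        (ct r).2 ++ ((ct c).1 ++ topL (Sum.inl (v, false)) :: ((ct c).2 ++ [retL (Sum.inl (v, false))])))
  | .ch true v false c r =>
      (retL (Sum.inl (v, true)) :: (ct r).1,
        (ct r).2 ++ ((ct c).1 ++ topL (Sum.inl (v, true)) :: (ct c).2))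
  | .ch true v true c r =>
      ((ct c).1 ++ topL (Sum.inl (v, false)) :: ((ct c).2 ++ (ct r).1),
        (ct r).2 ++ [retL (Sum.inl (v, false))])

def RC (b : BT V) : List (Lt V L) := (ct b).1

def LC (b : BT V) : List (Lt V L) := (ct b).2

@[simp] theorem RC_nil : (RC (BT.nil : BT V) : List (Lt V L)) = [] := rfl
@[simp] theorem LC_nil : (LC (BT.nil : BT V) : List (Lt V L)) = [] := rfl
@[simp] theorem RC_itL (v : V) (r : BT V) :
    (RC (.it v false r) : List (Lt V L)) = (Sum.inl v, false) :: RC r := rfl
@[simp] theorem LC_itL (v : V) (r : BT V) : (LC (.it v false r) : List (Lt V L)) = LC r := rfl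
@[simp] theorem RC_itR (v : V) (r : BT V) : (RC (.it v true r) : List (Lt V L)) = RC r := rfl
@[simp] theorem LC_itR (v : V) (r : BT V) :
    (LC (.it v true r) : List (Lt V L)) = LC r ++ [(Sum.inl v, true)] := rfl
@[simp] theorem RC_br (v : V) (c r : BT V) : (RC (.ch false v false c r) : List (Lt V L)) =
    retL (Sum.inl (v, true)) :: (RC c ++ topL (Sum.inl (v, true)) :: (LC c ++ RC r)) := rfl
@[simp] theorem LC_br (v : V) (c r : BT V) :
    (LC (.ch false v false c r) : List (Lt V L)) = LC r := rfl
@[simp] theorem RC_bl (v : V) (c r : BT V) :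
    (RC (.ch false v true c r) : List (Lt V L)) = RC r := rfl
@[simp] theorem LC_bl (v : V) (c r : BT V) : (LC (.ch false v true c r) : List (Lt V L)) =
    LC r ++ (RC c ++ topL (Sum.inl (v, false)) :: (LC c ++ [retL (Sum.inl (v, false))])) := rfl
@[simp] theorem RC_jl (v : V) (c r : BT V) : (RC (.ch true v false c r) : List (Lt V L)) =
    retL (Sum.inl (v, true)) :: RC r := rfl
@[simp] theorem LC_jl (v : V) (c r : BT V) : (LC (.ch true v false c r) : List (Lt V L)) =
    LC r ++ (RC c ++ topL (Sum.inl (v, true)) :: LC c) := rfl
@[simp] theorem RC_jr (v : V) (c r : BT V) : (RC (.ch true v true c r) : List (Lt V L)) =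
    RC c ++ topL (Sum.inl (v, false)) :: (LC c ++ RC r) := rfl
@[simp] theorem LC_jr (v : V) (c r : BT V) : (LC (.ch true v true c r) : List (Lt V L)) =
    LC r ++ [retL (Sum.inl (v, false))] := rfl

/-- `Path nu b x y`: the bar `b` starts by arriving at the incoming end `x`, follows `nu`, and ends
by arriving at the incoming end `y` -/
def Path (nu : Option (V × Bool) → Option (V × Bool)) :
    BT V → Option (V × Bool) → Option (V × Bool) → Prop
  | .nil, x, y => x = y
  | .it v s r, x, y => x = some (v, s) ∧ Path nu r (nu (some (v, s))) y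
  | .ch j v s c r, x, y => x = some (v, s) ∧ Path nu r (nu (some (v, if j then !s else s))) y ∧
      Path nu c (nu (some (v, if j then s else !s))) (some (v, !s))

/-- all the incoming ends met by a bar and its descendants -/
def eps : BT V → List (V × Bool)
  | .nil => []
  | .it v s r => (v, s) :: eps r
  | .ch _ v s c r => (v, s) :: (v, !s) :: (eps c ++ eps r)

/-- the generic items -/
def gls : BT V → List (V × Bool)
  | .nil => []
  | .it v s r => (v, s) :: gls r
  | .ch _ _ _ c r => gls c ++ gls r

/-- the names of the descendants -/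
def nms : BT V → List (V × Bool)
  | .nil => []
  | .it _ _ r => nms r
  | .ch _ v s c r => (v, !s) :: (nms c ++ nms r)

/-- no jumps -/
def noJ : BT V → Prop
  | .nil => True
  | .it _ _ r => noJ r
  | .ch j _ _ c r => j = false ∧ noJ c ∧ noJ r

/-- no jumps in the children -/
def okJ : BT V → Prop
  | .nil => True
  | .it _ _ r => okJ r
  | .ch _ _ _ c r => noJ c ∧ okJ r

/-- plain bar -/
def pl : List (V × Bool) → BT V
  | [] => .nil
  | (v, s) :: l => .it v s (pl l)

/-- contour word of a root: `none` is the bar of the open strand, `some n` is the bar of a circle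
with name `n` whose return strand is on the right -/
def wrd : Option (Nm V L) → BT V → List (Lt V L)
  | none, b => RC b ++ LC b
  | some n, b => retL n :: (RC b ++ topL n :: LC b)

/-- every generic chord is opened first or crosses a return chord -/
def Rho (W : List (Lt V L)) : Prop :=
  ∀ v : V, (Sum.inl v, true) ∈ W → (Sum.inl v, false) ∈ W →
    List.Sublist [(Sum.inl v, true), (Sum.inl v, false)] W ∨
    ∃ n : Nm V L, List.Sublist [Sum.inl v, Sum.inr n, Sum.inl v, Sum.inr n] (W.map Prod.fst) ∨
      List.Sublist [Sum.inr n, Sum.inl v, Sum.inr n, Sum.inl v] (W.map Prod.fst)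

/-- stack check: the letters are the parentheses of a correct expression -/
def chk {ι : Type} : List ι → List (ι × Bool) → Prop
  | st, [] => st = []
  | st, (i, true) :: w => chk (i :: st) w
  | [], (_, false) :: _ => False
  | j :: st, (i, false) :: w => i = j ∧ chk st w

/-- reduction to the empty word by cancelling adjacent equal letters -/
inductive Red {ι : Type} : List ι → Prop
  | nil : Red []
  | ins (A B : List ι) (i : ι) (h : Red (A ++ B)) : Red (A ++ i :: i :: B)

/-- closed labelled walks; a letter is (identity, label before, label after) -/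
inductive Chain {ι : Type} : ℕ → List (ι × ℕ × ℕ) → ℕ → Prop
  | nil (a : ℕ) : Chain a [] a
  | cons (i : ι) (a b c : ℕ) (l : List (ι × ℕ × ℕ)) (h : Chain b l c) : Chain a ((i, a, b) :: l) c

/-! ### Words -/

/-- a band: the strand number `i` moves right across strands with the flags `D` (over a strand with
flag `true`, under a strand with flag `false`), crosses the next strand `m` times, and moves back -/
def fw : ℕ → List Bool → ℕ → List Gen
  | i, [], m => List.replicate m (Gen.cross i true)
  | i, f :: D, m => Gen.cross i f :: (fw (i + 1) D m ++ [Gen.cross i (!f)])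

/-- the strand number `p` moves right across strands with the flags `D` -/
def mvR : ℕ → List Bool → List Gen
  | _, [] => []
  | p, f :: D => Gen.cross p f :: mvR (p + 1) D

/-- the strand number `q + D.length` moves left to position `q` -/
def mvL : ℕ → List Bool → List Gen
  | _, [] => []
  | q, f :: D => mvL (q + 1) D ++ [Gen.cross q (!f)]

def cups (n : ℕ) : List Gen := (List.range n).map (fun i => Gen.cup i true)

def caps (n : ℕ) : List Gen := (List.range n).reverse.map Gen.cap

def clo (n : ℕ) (x : List Gen) : List Gen := cups n ++ (x ++ caps n)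

/-- letters of band words: `(i, D, m)` stands for `fw i D m` -/
abbrev Ltr := ℕ × List Bool × ℕ

def wd (β : List Ltr) : List Gen := β.flatMap (fun l => fw l.1 l.2.1 l.2.2)

/-- insert a new strand at position `q`, over which the band passes -/
def insL (q : ℕ) (l : Ltr) : Ltr :=
  if q ≤ l.1 then (l.1 + 1, l.2.1, l.2.2)
  else if q ≤ l.1 + 1 + l.2.1.length then (l.1, l.2.1.insertIdx (q - l.1 - 1) true, l.2.2)
  else l

/-- the band `l` lives on `n` strands, and passes over all strands except the strand `P` -/
def goodL (n P : ℕ) (l : Ltr) : Prop :=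
  l.1 + l.2.1.length + 1 < n ∧ ∀ (t : ℕ) (h : t < l.2.1.length), l.2.1[t] = decide (l.1 + 1 + t ≠ P)

/-! ### The relation `MW` -/

/-- Items of a frontier, from left to right. `up n x j`: the upward strand of the circle `n` (of
the open strand if `n = none`), at the moment piece number `2 * j` of the edge `x`; `ret n`: the
return strand of `n` (directed downwards; it is piece `1` of the edge `gap n`); `dead n`: the place
where the circle `n` was closed (a strand if the circle is converted), `sdead`: the place where the
open strand has ended (the overarc starts here). -/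
inductive MI (V : Type) (L : ℕ) : Type
  | up (n : Option (Nm V L)) (x : Edge V L) (j : ℕ)
  | ret (n : Nm V L)
  | dead (n : Nm V L)
  | sdead

def MI.off : MI V L → Bool
  | .dead _ => true
  | .sdead => true
  | _ => false

/-- number of strands of an item if the circles in `C` are converted -/
def vis (C : Nm V L → Bool) : MI V L → ℕ
  | .up _ _ _ => 1
  | .ret n => if C n then 0 else 1
  | .dead n => if C n then 1 else 0
  | .sdead => 1

def vl (C : Nm V L → Bool) (A : List (MI V L)) : ℕ := (A.map (vis C)).sum

/-- flags of the strands of dead items -/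
def flags (C : Nm V L → Bool) : List (MI V L) → List Bool
  | [] => []
  | .dead n :: D => if C n then true :: flags C D else flags C D
  | .sdead :: D => false :: flags C D
  | _ :: D => flags C D

/-- the edge on which the circle `n` is cut -/
def gap (O : Code V) : Nm V O.loops → Edge V O.loops
  | Sum.inl g => Sum.inl (O.nu.symm (some g))
  | Sum.inr i => Sum.inr i

/-- half the number of the first piece after the birth of a root circle -/
def fpc : Nm V L → ℕ
  | Sum.inl _ => 1
  | Sum.inr _ => 0

/-- the event at the birth of a root circle -/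
def ftok (O : Code V) : Nm V O.loops → Tok V O.loops
  | Sum.inl g => Tok.bend (gap O (Sum.inl g)) 0
  | Sum.inr i => Tok.loop i

/-- `MW O ms F T f`: from the frontier `ms` the rest of the diagram can be drawn; `F` lists the
circles that will be born, `T` the events, and `f C` is the word if the circles in `C` are
converted. -/
inductive MW (O : Code V) : List (MI V O.loops) → List (Nm V O.loops) → List (Tok V O.loops) →
    ((Nm V O.loops → Bool) → List Gen) → Prop
  | done (ms : List (MI V O.loops)) (h : ∀ m ∈ ms, m.off = true) : MW O ms [] [] (fun _ => [])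
  | post (A D B : List (MI V O.loops)) (x y : Option (Nm V O.loops)) (a b : Option (V × Bool))
      (i j : ℕ) (v : V) (F : List (Nm V O.loops)) (T : List (Tok V O.loops))
      (f : (Nm V O.loops → Bool) → List Gen) (hD : ∀ m ∈ D, m.off = true)
      (ha : O.nu a = some (v, false)) (hb : O.nu b = some (v, true))
      (h : MW O (A ++ MI.up x (Sum.inl (some (v, false))) 0 ::
        (D ++ MI.up y (Sum.inl (some (v, true))) 0 :: B)) F T f) :
      MW O (A ++ MI.up x (Sum.inl a) i :: (D ++ MI.up y (Sum.inl b) j :: B)) F (Tok.cross v :: T)
        (fun C => fw (vl C A) (flags C D) 1 ++ f C)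
  /-- the crossing with a new circle whose return strand is on the right -/
  | bR (A B : List (MI V O.loops)) (x x₁ x₂ : Option (Nm V O.loops)) (a : Option (V × Bool))
      (j : ℕ) (v : V) (F : List (Nm V O.loops)) (T : List (Tok V O.loops))
      (f : (Nm V O.loops → Bool) → List Gen) (ha : O.nu a = some (v, false))
      (hx : (x₁ = x ∧ x₂ = some (Sum.inl (v, true))) ∨
        (x = none ∧ x₁ = some (Sum.inl (v, true)) ∧ x₂ = none))
      (h : MW O (A ++ MI.up x₁ (Sum.inl (some (v, false))) 0 ::
        MI.up x₂ (Sum.inl (some (v, true))) 0 :: MI.ret (Sum.inl (v, true)) :: B) F T f) :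
      MW O (A ++ MI.up x (Sum.inl a) j :: B) (Sum.inl (v, true) :: F)
        (Tok.bend (gap O (Sum.inl (v, true))) 0 :: Tok.cross v :: T)
        (fun C => Gen.cup (vl C A + 1) true :: Gen.cross (vl C A) true :: f C)
  /-- the crossing with a new circle whose return strand is on the left -/
  | bL (A B : List (MI V O.loops)) (x x₁ x₂ : Option (Nm V O.loops)) (a : Option (V × Bool))
      (j : ℕ) (v : V) (F : List (Nm V O.loops)) (T : List (Tok V O.loops))
      (f : (Nm V O.loops → Bool) → List Gen) (ha : O.nu a = some (v, true))
      (hx : (x₁ = some (Sum.inl (v, false)) ∧ x₂ = x) ∨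
        (x = none ∧ x₁ = none ∧ x₂ = some (Sum.inl (v, false))))
      (h : MW O (A ++ MI.ret (Sum.inl (v, false)) :: MI.up x₁ (Sum.inl (some (v, false))) 0 ::
        MI.up x₂ (Sum.inl (some (v, true))) 0 :: B) F T f) :
      MW O (A ++ MI.up x (Sum.inl a) j :: B) (Sum.inl (v, false) :: F)
        (Tok.bend (gap O (Sum.inl (v, false))) 0 :: Tok.cross v :: T)
        (fun C => Gen.cup (vl C A) false :: Gen.cross (vl C A + 1) true :: f C)
  | capR (A D B : List (MI V O.loops)) (n : Nm V O.loops) (F : List (Nm V O.loops))
      (T : List (Tok V O.loops)) (f : (Nm V O.loops → Bool) → List Gen)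
      (hD : ∀ m ∈ D, m.off = true) (h : MW O (A ++ MI.dead n :: (D ++ B)) F T f) :
      MW O (A ++ MI.up (some n) (gap O n) 0 :: (D ++ MI.ret n :: B)) F T
        (fun C => if C n then f C else
          mvR (vl C A) (flags C D) ++ Gen.cap (vl C A + (flags C D).length) :: f C)
  | capL (A D B : List (MI V O.loops)) (n : Nm V O.loops) (F : List (Nm V O.loops))
      (T : List (Tok V O.loops)) (f : (Nm V O.loops → Bool) → List Gen)
      (hD : ∀ m ∈ D, m.off = true) (h : MW O (A ++ (D ++ MI.dead n :: B)) F T f) :
      MW O (A ++ MI.ret n :: (D ++ MI.up (some n) (gap O n) 0 :: B)) F T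
        (fun C => if C n then f C else mvL (vl C A + 1) (flags C D) ++ Gen.cap (vl C A) :: f C)
  | dieS (A B : List (MI V O.loops)) (a : Option (V × Bool)) (j : ℕ) (F : List (Nm V O.loops))
      (T : List (Tok V O.loops)) (f : (Nm V O.loops → Bool) → List Gen) (ha : O.nu a = none)
      (h : MW O (A ++ MI.sdead :: B) F T f) :
      MW O (A ++ MI.up none (Sum.inl a) j :: B) F (Tok.die :: T) f
  /-- birth of a root circle at the left end -/
  | fr (n : Nm V O.loops) (ms : List (MI V O.loops)) (F : List (Nm V O.loops))
      (T : List (Tok V O.loops)) (f : (Nm V O.loops → Bool) → List Gen)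
      (h : MW O (MI.up (some n) (gap O n) (fpc n) :: MI.ret n :: ms) F T f) :
      MW O ms (n :: F) (ftok O n :: T) (fun C => Gen.cup 0 true :: f C)

end Pool.Agent.H53.SQ

end S_Base

section S_CDefs

/-!
Definitions for the conversion of a circle `k` (module CONV and the modules BIR..).
-/

namespace Pool.Agent.H53.SQ

variable {V : Type} [DecidableEq V] {L : ℕ}

/-- name of an item -/
def MI.nm : MI V L → Option (Nm V L)
  | .up n _ _ => n
  | .ret n => some n
  | .dead n => some n
  | .sdead => none

/-- strands of an item in the diagram in which the circles in `C` are converted; the arc is the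
under-arc of the circle `k`, which is not converted -/
def lnU (C : Nm V L → Bool) (k : Nm V L) : MI V L → List (Bool ⊕ ℕ)
  | .up _ _ _ => [Sum.inl true]
  | .ret n => if n = k then [Sum.inr 1] else if C n then [] else [Sum.inl false]
  | .dead n => if n = k then [] else if C n then [Sum.inl true] else []
  | .sdead => [Sum.inl true]

/-- the same if `k` is converted, too -/
def lnC (C : Nm V L → Bool) (k : Nm V L) : MI V L → List (Bool ⊕ ℕ)
  | .up _ _ _ => [Sum.inl true]
  | .ret n => if n = k then [] else if C n then [] else [Sum.inl false]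
  | .dead n => if n = k then [Sum.inr 0] else if C n then [Sum.inl true] else []
  | .sdead => [Sum.inl true]

def StU (C : Nm V L → Bool) (k : Nm V L) (ms : List (MI V L)) : List (Bool ⊕ ℕ) :=
  ms.flatMap (lnU C k)

def StC (C : Nm V L → Bool) (k : Nm V L) (ms : List (MI V L)) : List (Bool ⊕ ℕ) :=
  ms.flatMap (lnC C k)

/-- the final strands (converted circles, the open strand, `k`); `true` marks the strand `k` -/
def mkI (C : Nm V L → Bool) (k : Nm V L) : MI V L → List Bool
  | .up none _ _ => [false]
  | .up (some n) _ _ => if n = k then [true] else if C n then [false] else []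
  | .ret _ => []
  | .dead n => if n = k then [true] else if C n then [false] else []
  | .sdead => [false]

/-- The automaton which checks that between `up k` and `ret k` (in either order) there are no
converted circles. States: `0` before `k`; `1` between `up k` and `ret k`; `2` between `ret k` and
`up k`; `3` after `k`. -/
def stp (C : Nm V L → Bool) (k : Nm V L) : ℕ → MI V L → Option ℕ
  | 0, .up (some n) _ _ => if n = k then some 1 else some 0
  | 0, .ret n => if n = k then some 2 else some 0
  | 0, .dead n => if n = k then some 3 else some 0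
  | 0, _ => some 0
  | 1, .up (some n) _ _ => if n = k then none else if C n then none else some 1
  | 1, .ret n => if n = k then some 3 else some 1
  | 1, .dead n => if n = k then none else if C n then none else some 1
  | 1, _ => some 1
  | 2, .up (some n) _ _ => if n = k then some 3 else if C n then none else some 2
  | 2, .ret n => if n = k then none else some 2
  | 2, .dead n => if n = k then none else if C n then none else some 2
  | 2, _ => some 2
  | (s + 3), .up (some n) _ _ => if n = k then none else some (s + 3)
  | (s + 3), .ret n => if n = k then none else some (s + 3)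
  | (s + 3), .dead n => if n = k then none else some (s + 3)
  | (s + 3), _ => some (s + 3)

def scan (C : Nm V L → Bool) (k : Nm V L) : ℕ → List (MI V L) → Option ℕ
  | s, [] => some s
  | s, m :: ms => (stp C k s m).bind (fun s' => scan C k s' ms)

/-- number of items `up k` -/
def alive (k : Nm V L) : List (MI V L) → ℕ
  | [] => 0
  | .up (some n) _ _ :: ms => if n = k then alive k ms + 1 else alive k ms
  | _ :: ms => alive k ms

/-- all names that occur are converted -/
def pres (C : Nm V L → Bool) (ms : List (MI V L)) : Prop :=
  ∀ m ∈ ms, ∀ n, m.nm = some n → C n = true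

/-- all strands; `true` marks the open strand -/
def smk (C : Nm V L → Bool) : MI V L → List Bool
  | .up none _ _ => [true]
  | .up (some _) _ _ => [false]
  | .ret n => if C n then [] else [false]
  | .dead n => if C n then [false] else []
  | .sdead => [true]

end Pool.Agent.H53.SQ

end S_CDefs

section S_FDefs

/-!
Definitions for the frontier argument (modules FROA, FRO, FRT, TOK).
-/

namespace Pool.Agent.H53.SQ

variable {V : Type} {L : ℕ}

inductive FI (V : Type) (L : ℕ) : Type
  | up (n : Option (Nm V L)) (x : Edge V L) (j : ℕ) (b : BT V)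
  | ret (n : Nm V L)
  | dead (n : Nm V L)
  | sdead

def FI.er : FI V L → MI V L
  | .up n x j _ => .up n x j
  | .ret n => .ret n
  | .dead n => .dead n
  | .sdead => .sdead

def lw : FI V L → List (Lt V L)
  | .up none _ _ b => RC b ++ LC b
  | .up (some n) _ _ b => RC b ++ topL n :: LC b
  | .ret n => [retL n]
  | .dead _ => []
  | .sdead => []

def wS : List (FI V L) → List (Lt V L)
  | [] => []
  | m :: S => wS S ++ lw m

def okI (O : Code V) : FI V O.loops → Prop
  | .up none x _ b => ∃ a, x = Sum.inl a ∧ Path O.nu b (O.nu a) none ∧ okJ b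
  | .up (some (Sum.inl g)) x j b =>
      ∃ a, x = Sum.inl a ∧ Path O.nu b (O.nu a) (some g) ∧ noJ b ∧ (b = .nil → j = 0)
  | .up (some (Sum.inr i)) x j b => x = Sum.inr i ∧ j = 0 ∧ b = .nil
  | _ => True

/-- events of a bar; a generic crossing is counted at its left item -/
def btoks (O : Code V) : BT V → List (Tok V O.loops)
  | .nil => []
  | .it v false r => Tok.cross v :: btoks O r
  | .it _ true r => btoks O r
  | .ch _ v s c r => Tok.bend (gap O (Sum.inl (v, !s))) 0 :: Tok.cross v :: (btoks O c ++ btoks O r)

def ftk (O : Code V) : FI V O.loops → List (Tok V O.loops)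
  | .up none _ _ b => btoks O b ++ [Tok.die]
  | .up (some _) _ _ b => btoks O b
  | _ => []

def fnm : FI V L → List (Nm V L)
  | .up _ _ _ b => (nms b).map Sum.inl
  | _ => []

structure Forest (O : Code V) (b₀ : BT V) (R : List ((V × Bool) × BT V)) : Prop where
  path₀ : Path O.nu b₀ (O.nu none) none
  okJ₀ : okJ b₀
  chk₀ : chk [] (wrd none b₀ : List (Lt V O.loops))
  path : ∀ r ∈ R, Path O.nu r.2 (some r.1) (some r.1)
  noJ : ∀ r ∈ R, noJ r.2
  ne : ∀ r ∈ R, r.2 ≠ BT.nil
  side : ∀ r ∈ R, r.1.2 = true
  chkR : ∀ r ∈ R, chk [] (wrd (some (Sum.inl r.1)) r.2 : List (Lt V O.loops))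
  nodup : (eps b₀ ++ R.flatMap (fun r => eps r.2)).Nodup
  all : ∀ z : V × Bool, z ∈ eps b₀ ++ R.flatMap (fun r => eps r.2)

/-- all names -/
def allN (O : Code V) (b₀ : BT V) (R : List ((V × Bool) × BT V)) : List (Nm V O.loops) :=
  (nms b₀).map Sum.inl ++ (R.flatMap (fun r => Sum.inl r.1 :: (nms r.2).map Sum.inl) ++
    (List.finRange O.loops).map Sum.inr)

/-- all events except `born` -/
def allT (O : Code V) (b₀ : BT V) (R : List ((V × Bool) × BT V)) : List (Tok V O.loops) :=
  Tok.die :: (btoks O b₀ ++ (R.flatMap (fun r => Tok.bend (gap O (Sum.inl r.1)) 0 :: btoks O r.2) ++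
    (List.finRange O.loops).map Tok.loop))

end Pool.Agent.H53.SQ

end S_FDefs

section S_LABD

/-!
Definitions for the counting of faces (modules LABX, LABY, LABZ, LAB).
-/

namespace Pool.Agent.H53.SQ

variable {V : Type}

/-- labels of the gaps (`g`), of the sides of the edges near their starts (`oL`, `oR`) and near
their ends (`iL`, `iR`), and the set of the labels in use -/
structure Lbl (V : Type) where
  g : ℕ → ℕ
  oL : Option (V × Bool) → ℕ
  oR : Option (V × Bool) → ℕ
  iL : Option (V × Bool) → ℕ
  iR : Option (V × Bool) → ℕ
  S : Finset ℕ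

/-- left side of the strand number `i` with piece number `j` -/
def Lbl.sL (d : Lbl V) (i j : ℕ) : ℕ := if j % 2 = 0 then d.g i else d.g (i + 1)

def Lbl.sR (d : Lbl V) (i j : ℕ) : ℕ := if j % 2 = 0 then d.g (i + 1) else d.g i

/-- the end `x` has been processed; `c` = processed crossings, `f` = is the end `none` processed? -/
def Done (c : Finset V) (f : Bool) : Option (V × Bool) → Prop
  | none => f = true
  | some z => z.1 ∈ c

/-- recorded labels -/
def Lbl.Rec (d : Lbl V) (c : Finset V) (bo di : Bool) (a : ℕ) : Prop :=
  (∃ x, Done c bo x ∧ (a = d.oL x ∨ a = d.oR x)) ∨ (∃ y, Done c di y ∧ (a = d.iL y ∨ a = d.iR y))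

/-- The invariant. `q` = strands of the part at the current level (edge, piece number), `c` =
processed crossings of the part, `bo`, `di` = are the start and the end of the open strand processed
(and in the part)? -/
structure Inv (nu : Option (V × Bool) → Option (V × Bool)) (q : List (Option (V × Bool) × ℕ))
    (c : Finset V) (bo di : Bool) (d : Lbl V) : Prop where
  gS : ∀ i ≤ q.length, d.g i ∈ d.S
  oS : ∀ x, Done c bo x → d.oL x ∈ d.S ∧ d.oR x ∈ d.S
  iS : ∀ y, Done c di y → d.iL y ∈ d.S ∧ d.iR y ∈ d.S
  cov : ∀ a ∈ d.S, (∃ i ≤ q.length, a = d.g i) ∨ d.Rec c bo di a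
  outer : d.g 0 = d.g q.length
  feq : ∀ v ∈ c, d.iR (some (v, false)) = d.iL (some (v, true)) ∧
    d.oR (some (v, false)) = d.oL (some (v, true)) ∧
    d.iL (some (v, false)) = d.oL (some (v, false)) ∧
    d.iR (some (v, true)) = d.oR (some (v, true))
  die : di = true → d.iL none = d.iR none
  born : bo = true → d.oL none = d.oR none
  part : ∀ (i : ℕ) (h : i < q.length), q[i].2 % 2 = 0 →
    (Done c di (nu q[i].1) ∧ d.g i = d.iL (nu q[i].1) ∧ d.g (i + 1) = d.iR (nu q[i].1)) ∨
    ∃ (i' : ℕ) (h' : i' < q.length), q[i'].1 = q[i].1 ∧ q[i'].2 % 2 = 1 ∧ q[i].2 < q[i'].2 ∧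
      d.g (i' + 1) = d.g i ∧ d.g i' = d.g (i + 1)
  start : ∀ x, Done c bo x →
    (Done c di (nu x) ∧ d.oL x = d.iL (nu x) ∧ d.oR x = d.iR (nu x)) ∨
    ∃ (i' : ℕ) (h' : i' < q.length), q[i'].1 = x ∧ q[i'].2 % 2 = 1 ∧
      d.g (i' + 1) = d.oL x ∧ d.g i' = d.oR x
  count : 2 * c.card + q.length + 2 ≤ 2 * d.S.card + bo.toNat + di.toNat
  count0 : q = [] → (c.Nonempty ∨ bo = true ∨ di = true) →
    2 * c.card + 4 ≤ 2 * d.S.card + bo.toNat + di.toNat ∧ d.Rec c bo di (d.g 0)

end Pool.Agent.H53.SQ

end S_LABD

section S_ADDB

/-!
# Module ADDB: moving strands and arcs in `Add`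

`X : List ((Bool ⊕ ℕ) × Bool)` is a list of strands with flags; `Xok ov X`: every strand of `X` is an
upward strand of the open diagram (any flag), or an upward piece of the arc with flag `!ov`.

PROOFS. All by induction on `X` (generalizing `P`/`Q`, `e`, `w`).
* `add_mvR`: `X = x :: X'`. If `x.1 = inl true`: use `Add.cross P (X'.map fst ++ R) x.2 _ _ h'` where
  `h'` is the induction hypothesis with `P' = P ++ [inl true]` (the list of strands does not change
  when two `inl true` cross; `openCount P' = openCount P + 1`, `P'.length = P.length + 1`). If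
  `x.1 = inr (2 * k)`, `x.2 = !ov`: use `Add.left` (the open strand moves right, i.e. the arc moves
  left; the sign is `!ov`, which is the flag) with `P' = P ++ [inr (2 * k)]`,
  `openCount P' = openCount P`; the open word does not change.
* `add_mvL`: the same; the last crossing of `mvL q (f :: D)` is `cross q (!f)`: for an arc use
  `Add.right` (sign `ov = !(!ov)`). Here the word is `mvL (q+1) D ++ ([cross q (!f)] ++ w)`.
* `add_fw`: combine; `fw p (f :: D) m = cross p f :: (fw (p+1) D m ++ [cross p (!f)])`;
  for `X = []`: `m` times `Add.cross`.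
* `arc_mvR`, `arc_mvL`: induction on `n`, with `Add.right` (sign `ov`), `Add.left` (sign `!ov`).
-/

namespace Pool.Agent.H53.SQ

theorem openCount_append (A B : List (Bool ⊕ ℕ)) :
    openCount (A ++ B) = openCount A + openCount B := by
  induction A with
  | nil => simp [openCount]
  | cons a A ih =>
    rcases a with b | k
    · simp only [List.cons_append, openCount, ih]
      omega
    · simp only [List.cons_append, openCount, ih]

def Xok (ov : Bool) (X : List ((Bool ⊕ ℕ) × Bool)) : Prop :=
  ∀ x ∈ X, x.1 = Sum.inl true ∨ ∃ k : ℕ, x.1 = Sum.inr (2 * k) ∧ x.2 = !ov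

def oflags (X : List ((Bool ⊕ ℕ) × Bool)) : List Bool :=
  (X.filter (fun x => x.1.isLeft)).map Prod.snd

theorem addb_oc_l (A : List (Bool ⊕ ℕ)) (d : Bool) :
    openCount (A ++ [Sum.inl d]) = openCount A + 1 := by
  rw [openCount_append]; rfl

theorem addb_oc_r (A : List (Bool ⊕ ℕ)) (k : ℕ) :
    openCount (A ++ [Sum.inr k]) = openCount A := by
  rw [openCount_append]; rfl

theorem addb_len (A : List (Bool ⊕ ℕ)) (x : Bool ⊕ ℕ) : (A ++ [x]).length = A.length + 1 := by
  simp

theorem addb_ol (d f : Bool) (X : List ((Bool ⊕ ℕ) × Bool)) :
    oflags ((Sum.inl d, f) :: X) = f :: oflags X := by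
  unfold oflags
  rw [List.filter_cons_of_pos (by rfl)]
  rfl

theorem addb_or (k : ℕ) (f : Bool) (X : List ((Bool ⊕ ℕ) × Bool)) :
    oflags ((Sum.inr k, f) :: X) = oflags X := by
  simp [oflags]

theorem addb_cases (ov : Bool) (x : (Bool ⊕ ℕ) × Bool) (X : List ((Bool ⊕ ℕ) × Bool))
    (hX : Xok ov (x :: X)) :
    ((∃ f, x = (Sum.inl true, f)) ∨ ∃ k : ℕ, x = (Sum.inr (2 * k), !ov)) ∧ Xok ov X := by
  refine ⟨?_, fun y hy => hX y (List.mem_cons_of_mem _ hy)⟩
  rcases x with ⟨a, f⟩
  rcases hX (a, f) (by simp) with h | ⟨k, h, h'⟩
  · left
    exact ⟨f, by simp only at h; rw [h]⟩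
  · right
    exact ⟨k, by simp only at h h'; rw [h, h']⟩

theorem add_mvR (ov : Bool) (P : List (Bool ⊕ ℕ)) (X : List ((Bool ⊕ ℕ) × Bool))
    (R : List (Bool ⊕ ℕ)) (e w : List Gen) (hX : Xok ov X)
    (h : Add ov (P ++ (X.map Prod.fst ++ Sum.inl true :: R)) e w) :
    Add ov (P ++ Sum.inl true :: (X.map Prod.fst ++ R)) (mvR (openCount P) (oflags X) ++ e)
      (mvR P.length (X.map Prod.snd) ++ w) := by
  induction X generalizing P with
  | nil => simpa [oflags, mvR] using h
  | cons x X ih =>
    obtain ⟨hx, hX'⟩ := addb_cases ov x X hX
    rcases hx with ⟨f, rfl⟩ | ⟨k, rfl⟩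
    · have h1 := ih (P ++ [Sum.inl true]) hX' (by simpa using h)
      rw [addb_oc_l, addb_len, List.append_assoc] at h1
      rw [addb_ol]
      simp only [List.map_cons, mvR, List.cons_append]
      exact Add.cross P (X.map Prod.fst ++ R) f _ _ h1
    · have h1 := ih (P ++ [Sum.inr (2 * k)]) hX' (by simpa using h)
      rw [addb_oc_r, addb_len, List.append_assoc] at h1
      rw [addb_or]
      simp only [List.map_cons, mvR, List.cons_append]
      exact Add.left P (X.map Prod.fst ++ R) k _ _ h1

theorem add_mvL (ov : Bool) (Q : List (Bool ⊕ ℕ)) (X : List ((Bool ⊕ ℕ) × Bool))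
    (R : List (Bool ⊕ ℕ)) (e w : List Gen) (hX : Xok ov X)
    (h : Add ov (Q ++ Sum.inl true :: (X.map Prod.fst ++ R)) e w) :
    Add ov (Q ++ (X.map Prod.fst ++ Sum.inl true :: R)) (mvL (openCount Q) (oflags X) ++ e)
      (mvL Q.length (X.map Prod.snd) ++ w) := by
  induction X generalizing Q e w with
  | nil => simpa [oflags, mvL] using h
  | cons x X ih =>
    obtain ⟨hx, hX'⟩ := addb_cases ov x X hX
    rcases hx with ⟨f, rfl⟩ | ⟨k, rfl⟩
    · have h0 := Add.cross Q (X.map Prod.fst ++ R) (!f) _ _ h
      have h1 := ih (Q ++ [Sum.inl true]) _ _ hX' (by simpa using h0)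
      rw [addb_oc_l, addb_len] at h1
      rw [addb_ol]
      simpa [mvL] using h1
    · have h0 := Add.right Q (X.map Prod.fst ++ R) k _ _ h
      have h1 := ih (Q ++ [Sum.inr (2 * k)]) _ _ hX' (by simpa using h0)
      rw [addb_oc_r, addb_len] at h1
      rw [addb_or]
      simpa [mvL] using h1

theorem add_fw (ov : Bool) (P : List (Bool ⊕ ℕ)) (X : List ((Bool ⊕ ℕ) × Bool))
    (R : List (Bool ⊕ ℕ)) (m : ℕ) (e w : List Gen) (hX : Xok ov X)
    (h : Add ov (P ++ Sum.inl true :: (X.map Prod.fst ++ Sum.inl true :: R)) e w) :
    Add ov (P ++ Sum.inl true :: (X.map Prod.fst ++ Sum.inl true :: R))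
      (fw (openCount P) (oflags X) m ++ e) (fw P.length (X.map Prod.snd) m ++ w) := by
  induction X generalizing P e w with
  | nil =>
    simp only [List.map_nil, List.nil_append, oflags, List.filter_nil, fw] at h ⊢
    induction m with
    | zero => simpa using h
    | succ m ihm =>
      simp only [List.replicate_succ, List.cons_append]
      exact Add.cross P R true _ _ ihm
  | cons x X ih =>
    obtain ⟨hx, hX'⟩ := addb_cases ov x X hX
    rcases hx with ⟨f, rfl⟩ | ⟨k, rfl⟩
    · have h0 := Add.cross P (X.map Prod.fst ++ Sum.inl true :: R) (!f) _ _ h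
      have h1 := ih (P ++ [Sum.inl true]) _ _ hX' (by simpa using h0)
      rw [addb_oc_l, addb_len, List.append_assoc] at h1
      have h2 := Add.cross P (X.map Prod.fst ++ Sum.inl true :: R) f _ _ h1
      rw [addb_ol]
      simpa [fw] using h2
    · have h0 := Add.right P (X.map Prod.fst ++ Sum.inl true :: R) k _ _ h
      have h1 := ih (P ++ [Sum.inr (2 * k)]) _ _ hX' (by simpa using h0)
      rw [addb_oc_r, addb_len, List.append_assoc] at h1
      have h2 := Add.left P (X.map Prod.fst ++ Sum.inl true :: R) k _ _ h1
      rw [addb_or]
      simpa [fw] using h2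

theorem arc_mvR (ov : Bool) (k n : ℕ) (Q R : List (Bool ⊕ ℕ)) (e w : List Gen)
    (h : Add ov (Q ++ (List.replicate n (Sum.inl true) ++ Sum.inr (2 * k) :: R)) e w) :
    Add ov (Q ++ Sum.inr (2 * k) :: (List.replicate n (Sum.inl true) ++ R)) e
      (mvR Q.length (List.replicate n ov) ++ w) := by
  induction n generalizing Q with
  | zero => simpa [mvR] using h
  | succ n ih =>
    have h1 := ih (Q ++ [Sum.inl true]) (by simpa [List.replicate_succ] using h)
    rw [addb_len, List.append_assoc] at h1
    simp only [List.replicate_succ, mvR, List.cons_append]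
    exact Add.right Q (List.replicate n (Sum.inl true) ++ R) k _ _ h1

theorem arc_mvL (ov : Bool) (k n : ℕ) (Q R : List (Bool ⊕ ℕ)) (e w : List Gen)
    (h : Add ov (Q ++ Sum.inr (2 * k) :: (List.replicate n (Sum.inl true) ++ R)) e w) :
    Add ov (Q ++ (List.replicate n (Sum.inl true) ++ Sum.inr (2 * k) :: R)) e
      (mvL Q.length (List.replicate n ov) ++ w) := by
  induction n generalizing Q w with
  | zero => simpa [mvL] using h
  | succ n ih =>
    have h0 := Add.left Q (List.replicate n (Sum.inl true) ++ R) k _ _ h
    have h1 := ih (Q ++ [Sum.inl true]) _ (by simpa using h0)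
    rw [addb_len] at h1
    simpa [List.replicate_succ, mvL] using h1

end Pool.Agent.H53.SQ

end S_ADDB

section S_CUPC

/-!
# Module CUPC: the cups and caps of a closed braid

PROOFS. `cups (n+1) = cups n ++ [cup n true]` (`List.range_succ`), `caps (n+1) = cap n :: caps n`.
* `add_cups`: induction on `n`, generalizing `e w`. `cups (n+1) ++ e = cups n ++ (cup n true :: e)`;
  apply the induction hypothesis to `Add.cup (replicate n (inl true)) (replicate n (inl false)) true`
  (`replicate n x ++ x :: l = x :: replicate n x ++ l`, `openCount (replicate n (inl true)) = n`).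
* `add_caps`: induction on `n`, `Add.cap (replicate n (inl true)) (replicate n (inl false)) true`.
* `add_cups_arc a b`: induction on `b`. `b = 0`: the last cup of `cups (a+1)` is the arc:
  `Add.acup₁ (replicate a (inl true)) (replicate a (inl false)) 0`, then `add_cups a`.
  `b + 1`: the last cup of `cups (a+b+2)` (position `a+b+1` in `w`, position `a+b` in `e`) is
  `Add.cup (replicate a (inl true) ++ inr 2 :: replicate b (inl true)) (replicate b (inl false) ++ inr 1 :: ...)`.
* `add_caps_arc a b`: the same with `Add.acap₁ ... 0` and `Add.cap`.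
-/

namespace Pool.Agent.H53.SQ

theorem CUPC_oc (n : ℕ) (l : List (Bool ⊕ ℕ)) :
    openCount (List.replicate n (Sum.inl true) ++ l) = n + openCount l := by
  induction n with
  | zero => simp
  | succ n ih => rw [List.replicate_succ, List.cons_append, openCount, ih]; omega

theorem CUPC_cups_succ (n : ℕ) (l : List Gen) :
    cups (n + 1) ++ l = cups n ++ (Gen.cup n true :: l) := by
  simp [cups, List.range_succ]

theorem CUPC_caps_succ (n : ℕ) : caps (n + 1) = Gen.cap n :: caps n := by
  simp [caps, List.range_succ]

theorem CUPC_rep (n : ℕ) (x : Bool ⊕ ℕ) (l : List (Bool ⊕ ℕ)) :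
    List.replicate (n + 1) x ++ l = List.replicate n x ++ x :: l := by
  rw [List.replicate_succ', List.append_assoc]; rfl

theorem add_cups (ov : Bool) (n : ℕ) (e w : List Gen)
    (h : Add ov (List.replicate n (Sum.inl true) ++ List.replicate n (Sum.inl false)) e w) :
    Add ov [] (cups n ++ e) (cups n ++ w) := by
  induction n generalizing e w with
  | zero => simpa [cups] using h
  | succ n ih =>
    rw [CUPC_cups_succ, CUPC_cups_succ]
    apply ih
    have h1 := Add.cup (List.replicate n (Sum.inl true)) (List.replicate n (Sum.inl false)) true e w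
      (by rw [CUPC_rep, List.replicate_succ] at h; exact h)
    have h2 := CUPC_oc n []
    rw [List.append_nil] at h2
    rw [h2, List.length_replicate] at h1
    exact h1

theorem add_cups_arc (ov : Bool) (a b : ℕ) (e w : List Gen)
    (h : Add ov (List.replicate a (Sum.inl true) ++ Sum.inr 2 :: (List.replicate b (Sum.inl true) ++
      (List.replicate b (Sum.inl false) ++ Sum.inr 1 :: List.replicate a (Sum.inl false)))) e w) :
    Add ov [] (cups (a + b) ++ e) (cups (a + b + 1) ++ w) := by
  induction b generalizing e w with
  | zero =>
    rw [CUPC_cups_succ]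
    apply add_cups
    have h1 := Add.acup₁ (List.replicate a (Sum.inl true)) (List.replicate a (Sum.inl false)) 0 e w
      (by simpa using h)
    rw [List.length_replicate] at h1
    simpa using h1
  | succ b ih =>
    rw [← Nat.add_assoc, CUPC_cups_succ, CUPC_cups_succ]
    apply ih
    have h1 := Add.cup (List.replicate a (Sum.inl true) ++ Sum.inr 2 ::
      List.replicate b (Sum.inl true)) (List.replicate b (Sum.inl false) ++ Sum.inr 1 ::
        List.replicate a (Sum.inl false)) true e w
      (by
        rw [CUPC_rep b (Sum.inl true)] at h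
        simpa [List.replicate_succ] using h)
    have h2 := CUPC_oc b []
    rw [List.append_nil] at h2
    rw [CUPC_oc, openCount, h2] at h1
    have h3 : (List.replicate a (Sum.inl true) ++ (Sum.inr 2 : Bool ⊕ ℕ) ::
      List.replicate b (Sum.inl true)).length = a + b + 1 := by simp; omega
    rw [h3] at h1
    simpa [openCount] using h1

theorem add_caps (ov : Bool) (n : ℕ) :
    Add ov (List.replicate n (Sum.inl true) ++ List.replicate n (Sum.inl false)) (caps n)
      (caps n) := by
  induction n with
  | zero => simpa [caps] using Add.nil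
  | succ n ih =>
    rw [CUPC_caps_succ]
    have h1 := Add.cap (List.replicate n (Sum.inl true)) (List.replicate n (Sum.inl false)) true _ _ ih
    have h2 := CUPC_oc n []
    rw [List.append_nil] at h2
    rw [h2, List.length_replicate] at h1
    rw [CUPC_rep, List.replicate_succ]
    exact h1

theorem add_caps_arc (ov : Bool) (a b : ℕ) :
    Add ov (List.replicate a (Sum.inl true) ++ Sum.inr 0 :: (List.replicate b (Sum.inl true) ++
      (List.replicate b (Sum.inl false) ++ Sum.inr 1 :: List.replicate a (Sum.inl false))))
      (caps (a + b)) (caps (a + b + 1)) := by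
  induction b with
  | zero =>
    rw [CUPC_caps_succ]
    have h1 := Add.acap₁ (List.replicate a (Sum.inl true)) (List.replicate a (Sum.inl false)) 0 _ _
      (add_caps ov a)
    rw [List.length_replicate] at h1
    simpa using h1
  | succ b ih =>
    rw [← Nat.add_assoc, CUPC_caps_succ, CUPC_caps_succ (a + b + 1)]
    have h1 := Add.cap (ov := ov) (List.replicate a (Sum.inl true) ++ Sum.inr 0 ::
      List.replicate b (Sum.inl true)) (List.replicate b (Sum.inl false) ++ Sum.inr 1 ::
        List.replicate a (Sum.inl false)) true _ _ (by simpa using ih)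
    have h2 := CUPC_oc b []
    rw [List.append_nil] at h2
    rw [CUPC_oc, openCount, h2] at h1
    have h3 : (List.replicate a (Sum.inl true) ++ (Sum.inr 0 : Bool ⊕ ℕ) ::
      List.replicate b (Sum.inl true)).length = a + b + 1 := by simp; omega
    rw [h3] at h1
    rw [CUPC_rep b (Sum.inl true)]
    simpa [List.replicate_succ, openCount] using h1

theorem countP_cups (n : ℕ) :
    (cups n).countP Gen.isBorn = 0 ∧ (cups n).countP Gen.isDie = 0 := by
  constructor <;>
  · rw [List.countP_eq_zero]
    intro g hg
    rw [cups, List.mem_map] at hg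
    obtain ⟨i, _, rfl⟩ := hg
    simp [Gen.isBorn, Gen.isDie]

theorem countP_caps (n : ℕ) :
    (caps n).countP Gen.isBorn = 0 ∧ (caps n).countP Gen.isDie = 0 := by
  constructor <;>
  · rw [List.countP_eq_zero]
    intro g hg
    rw [caps, List.mem_map] at hg
    obtain ⟨i, _, rfl⟩ := hg
    simp [Gen.isBorn, Gen.isDie]

end Pool.Agent.H53.SQ

end S_CUPC

section S_INSB

/-!
# Module INSB: inserting a strand (the under-arc) into a word of bands

PROOFS.
* `add_wd`: induction on `β`; each letter `(i, D, m)` with `i + D.length + 1 < n` is handled by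
  `add_fw` with `P = replicate i (inl true)`, `X = D.map (fun f => (inl true, f))`,
  `R = replicate (n - i - D.length - 2) (inl true) ++ R'`; here `oflags X = D = X.map snd`,
  `openCount P = i = P.length`.
* `add_ins`: induction on `β`. Letter `(i, D, m)`, `i + D.length + 1 < q + b`. Three cases as in
  the definition of `insL`.
  (1) `q ≤ i`: `P = replicate q (inl true) ++ inr 2 :: replicate (i - q) (inl true)`,
      `openCount P = i`, `P.length = i + 1`, `X` as above.
  (2) `i < q ≤ i + 1 + D.length`: `P = replicate i (inl true)`, `X` is the list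
      `D.map (inl true, ·)` with `(inr 2, true)` inserted at the index `q - i - 1`
      (`inr 2 = inr (2 * 1)`, flag `true = !false`);
      `oflags X = D`, `X.map snd = D.insertIdx (q - i - 1) true`.
  (3) `i + 1 + D.length < q`: `P = replicate i (inl true)`, the arc is in `R`.
* `goodL_ins`: case analysis on the definition of `insL`, `List.getElem_insertIdx`.
* `countP_wd`: a word `fw i D m` contains only crossings.
-/

namespace Pool.Agent.H53.SQ

theorem INSB_rep {α : Type} (x : α) (i d r : ℕ) :
    List.replicate (i + d + 2 + r) x =
      List.replicate i x ++ x :: (List.replicate d x ++ x :: List.replicate r x) := by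
  have : i + d + 2 + r = i + (1 + (d + (1 + r))) := by omega
  rw [this, List.replicate_add, List.replicate_add, List.replicate_add, List.replicate_add]
  rfl

theorem INSB_ocrep (n : ℕ) : openCount (List.replicate n (Sum.inl true)) = n := by
  induction n with
  | zero => rfl
  | succ n ih => rw [List.replicate_succ, openCount, ih]

theorem INSB_X (D : List Bool) :
    (D.map (fun f => ((Sum.inl true : Bool ⊕ ℕ), f))).map Prod.fst =
      List.replicate D.length (Sum.inl true) ∧
    (D.map (fun f => ((Sum.inl true : Bool ⊕ ℕ), f))).map Prod.snd = D ∧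
    oflags (D.map (fun f => ((Sum.inl true : Bool ⊕ ℕ), f))) = D ∧
    ∀ ov, Xok ov (D.map (fun f => ((Sum.inl true : Bool ⊕ ℕ), f))) := by
  refine ⟨?_, ?_, ?_, ?_⟩
  · induction D with
    | nil => rfl
    | cons f D ih => simp only [List.map_cons, ih, List.length_cons, List.replicate_succ]
  · simp [List.map_map, Function.comp_def]
  · rw [oflags, List.filter_eq_self.2]
    · simp [List.map_map, Function.comp_def]
    · intro a ha
      rw [List.mem_map] at ha
      obtain ⟨f, _, rfl⟩ := ha
      rfl
  · intro ov x hx
    rw [List.mem_map] at hx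
    obtain ⟨f, _, rfl⟩ := hx
    exact Or.inl rfl

theorem INSB_one (ov : Bool) (n i : ℕ) (D : List Bool) (m : ℕ) (hi : i + D.length + 1 < n)
    (R : List (Bool ⊕ ℕ)) (e w : List Gen)
    (h : Add ov (List.replicate n (Sum.inl true) ++ R) e w) :
    Add ov (List.replicate n (Sum.inl true) ++ R) (fw i D m ++ e) (fw i D m ++ w) := by
  obtain ⟨r, rfl⟩ : ∃ r, n = i + D.length + 2 + r := ⟨n - (i + D.length + 2), by omega⟩
  obtain ⟨x1, x2, x3, x4⟩ := INSB_X D
  have := add_fw ov (List.replicate i (Sum.inl true)) (D.map (fun f => (Sum.inl true, f)))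
    (List.replicate r (Sum.inl true) ++ R) m e w (x4 ov)
    (by rw [x1]; simpa [INSB_rep] using h)
  rw [x1, x2, x3, INSB_ocrep, List.length_replicate] at this
  simpa [INSB_rep] using this

theorem add_wd (ov : Bool) (n : ℕ) (β : List Ltr) (hβ : ∀ l ∈ β, l.1 + l.2.1.length + 1 < n)
    (R : List (Bool ⊕ ℕ)) (e w : List Gen)
    (h : Add ov (List.replicate n (Sum.inl true) ++ R) e w) :
    Add ov (List.replicate n (Sum.inl true) ++ R) (wd β ++ e) (wd β ++ w) := by
  induction β with
  | nil => simpa [wd] using h
  | cons l β ih =>
    have h1 := INSB_one ov n l.1 l.2.1 l.2.2 (hβ l List.mem_cons_self) R _ _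
      (ih (fun l' hl' => hβ l' (List.mem_cons_of_mem _ hl')))
    simpa [wd] using h1

theorem INSB_insertIdx {α : Type} (D : List α) (t : ℕ) (ht : t ≤ D.length) (x : α) :
    D.insertIdx t x = D.take t ++ x :: D.drop t := by
  induction D generalizing t with
  | nil =>
    have : t = 0 := by simpa using ht
    subst this; rfl
  | cons d D ih =>
    cases t with
    | zero => rfl
    | succ t =>
      rw [List.insertIdx_succ_cons, ih t (by simpa using ht)]
      rfl

theorem INSB_ins1 (q b : ℕ) (l : Ltr) (hl : l.1 + l.2.1.length + 1 < q + b)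
    (R : List (Bool ⊕ ℕ)) (e w : List Gen)
    (h : Add false (List.replicate q (Sum.inl true) ++
      Sum.inr 2 :: (List.replicate b (Sum.inl true) ++ R)) e w) :
    Add false (List.replicate q (Sum.inl true) ++
      Sum.inr 2 :: (List.replicate b (Sum.inl true) ++ R)) (fw l.1 l.2.1 l.2.2 ++ e)
      (fw (insL q l).1 (insL q l).2.1 (insL q l).2.2 ++ w) := by
  obtain ⟨i, D, m⟩ := l
  simp only at hl ⊢
  obtain ⟨x1, x2, x3, x4⟩ := INSB_X D
  by_cases h1 : q ≤ i
  · have hins : insL q (i, D, m) = (i + 1, D, m) := by simp [insL, h1]
    rw [hins]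
    obtain ⟨r, hr⟩ : ∃ r, b = (i - q) + D.length + 2 + r :=
      ⟨b - ((i - q) + D.length + 2), by omega⟩
    subst hr
    have := add_fw false (List.replicate q (Sum.inl true) ++ Sum.inr 2 ::
      List.replicate (i - q) (Sum.inl true)) (D.map (fun f => (Sum.inl true, f)))
      (List.replicate r (Sum.inl true) ++ R) m e w (x4 false)
      (by rw [x1]; simpa [INSB_rep] using h)
    rw [x1, x2, x3, openCount_append, openCount, INSB_ocrep, INSB_ocrep] at this
    have e1 : (List.replicate q (Sum.inl true : Bool ⊕ ℕ) ++ Sum.inr 2 ::
      List.replicate (i - q) (Sum.inl true)).length = i + 1 := by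
      simp; omega
    have e2 : q + (i - q) = i := by omega
    rw [e1, e2] at this
    simpa [INSB_rep] using this
  · by_cases h2 : q ≤ i + 1 + D.length
    · have hins : insL q (i, D, m) = (i, D.insertIdx (q - i - 1) true, m) := by
        simp [insL, h1, h2]
      rw [hins]
      obtain ⟨t, ht⟩ : ∃ t, t = q - i - 1 := ⟨_, rfl⟩
      rw [← ht]
      have hq : q = i + 1 + t := by omega
      have htD : t ≤ D.length := by omega
      obtain ⟨r, hr⟩ : ∃ r, b = (D.length - t) + 1 + r := ⟨b - ((D.length - t) + 1), by omega⟩
      subst hr
      subst hq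
      obtain ⟨y1, y2, y3, y4⟩ := INSB_X (D.take t)
      obtain ⟨z1, z2, z3, z4⟩ := INSB_X (D.drop t)
      have hX : Xok false ((D.take t).map (fun f => ((Sum.inl true : Bool ⊕ ℕ), f)) ++
          (Sum.inr 2, true) :: (D.drop t).map (fun f => (Sum.inl true, f))) := by
        intro x hx
        rw [List.mem_append, List.mem_cons] at hx
        rcases hx with hx | rfl | hx
        · exact y4 false x hx
        · exact Or.inr ⟨1, rfl, rfl⟩
        · exact z4 false x hx
      have := add_fw false (List.replicate i (Sum.inl true)) _
        (List.replicate r (Sum.inl true) ++ R) m e w hX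
        (by
          rw [List.map_append, List.map_cons, y1, z1]
          have e3 : (D.take t).length = t := by simp [htD]
          have e4 : (D.drop t).length = D.length - t := by simp
          rw [e3, e4]
          have e5 : List.replicate (i + 1 + t) (Sum.inl true : Bool ⊕ ℕ) =
            List.replicate i (Sum.inl true) ++ Sum.inl true :: List.replicate t (Sum.inl true) := by
            rw [show i + 1 + t = i + (1 + t) by omega, List.replicate_add, List.replicate_add]; rfl
          have e6 : List.replicate (D.length - t + 1 + r) (Sum.inl true : Bool ⊕ ℕ) =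
            List.replicate (D.length - t) (Sum.inl true) ++ Sum.inl true ::
              List.replicate r (Sum.inl true) := by
            rw [show D.length - t + 1 + r = (D.length - t) + (1 + r) by omega, List.replicate_add,
              List.replicate_add]; rfl
          rw [e5, e6] at h
          simpa using h)
      have hof : oflags ((D.take t).map (fun f => ((Sum.inl true : Bool ⊕ ℕ), f)) ++
          (Sum.inr 2, true) :: (D.drop t).map (fun f => (Sum.inl true, f))) = D := by
        rw [oflags] at y3 z3 ⊢
        rw [List.filter_append, List.filter_cons_of_neg (by simp), List.map_append, y3, z3,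
          List.take_append_drop]
      have hsn : ((D.take t).map (fun f => ((Sum.inl true : Bool ⊕ ℕ), f)) ++
          (Sum.inr 2, true) :: (D.drop t).map (fun f => (Sum.inl true, f))).map Prod.snd =
          D.insertIdx t true := by
        rw [List.map_append, List.map_cons, y2, z2, INSB_insertIdx D t htD]
      rw [hof, hsn, INSB_ocrep, List.length_replicate, List.map_append, List.map_cons, y1, z1] at this
      have e3 : (D.take t).length = t := by simp [htD]
      have e4 : (D.drop t).length = D.length - t := by simp
      rw [e3, e4] at this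
      have e5 : List.replicate (i + 1 + t) (Sum.inl true : Bool ⊕ ℕ) =
        List.replicate i (Sum.inl true) ++ Sum.inl true :: List.replicate t (Sum.inl true) := by
        rw [show i + 1 + t = i + (1 + t) by omega, List.replicate_add, List.replicate_add]; rfl
      have e6 : List.replicate (D.length - t + 1 + r) (Sum.inl true : Bool ⊕ ℕ) =
        List.replicate (D.length - t) (Sum.inl true) ++ Sum.inl true ::
          List.replicate r (Sum.inl true) := by
        rw [show D.length - t + 1 + r = (D.length - t) + (1 + r) by omega, List.replicate_add,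
          List.replicate_add]; rfl
      rw [e5, e6]
      simpa using this
    · have hins : insL q (i, D, m) = (i, D, m) := by simp [insL, h1, h2]
      rw [hins]
      obtain ⟨r, hr⟩ : ∃ r, q = i + D.length + 2 + r := ⟨q - (i + D.length + 2), by omega⟩
      subst hr
      exact INSB_one false (i + D.length + 2 + r) i D m (by omega) _ e w h

theorem add_ins (q b : ℕ) (β : List Ltr) (hβ : ∀ l ∈ β, l.1 + l.2.1.length + 1 < q + b)
    (R : List (Bool ⊕ ℕ)) (e w : List Gen)
    (h : Add false (List.replicate q (Sum.inl true) ++
      Sum.inr 2 :: (List.replicate b (Sum.inl true) ++ R)) e w) :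
    Add false (List.replicate q (Sum.inl true) ++
      Sum.inr 2 :: (List.replicate b (Sum.inl true) ++ R)) (wd β ++ e)
      (wd (β.map (insL q)) ++ w) := by
  induction β with
  | nil => simpa [wd] using h
  | cons l β ih =>
    have h1 := INSB_ins1 q b l (hβ l List.mem_cons_self) R _ _
      (ih (fun l' hl' => hβ l' (List.mem_cons_of_mem _ hl')))
    simpa [wd] using h1

theorem goodL_ins (n P q : ℕ) (l : Ltr) (h : goodL n P l) :
    goodL (n + 1) (if q ≤ P then P + 1 else P) (insL q l) := by
  obtain ⟨i, D, m⟩ := l
  obtain ⟨h0, h1⟩ := h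
  simp only at h0 h1
  by_cases c1 : q ≤ i
  · have hins : insL q (i, D, m) = (i + 1, D, m) := by simp [insL, c1]
    rw [hins]
    refine ⟨by simp only; omega, fun t ht => ?_⟩
    simp only at ht ⊢
    rw [h1 t ht, decide_eq_decide]
    split_ifs <;> omega
  · by_cases c2 : q ≤ i + 1 + D.length
    · have hins : insL q (i, D, m) = (i, D.insertIdx (q - i - 1) true, m) := by
        simp [insL, c1, c2]
      rw [hins]
      have hlen : (D.insertIdx (q - i - 1) true).length = D.length + 1 := by
        rw [List.length_insertIdx, if_pos (by omega)]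
      refine ⟨by simp only [hlen]; omega, fun t ht => ?_⟩
      simp only at ht ⊢
      rw [List.getElem_insertIdx]
      split_ifs with d1 d2 d3
      all_goals first
        | (rw [h1 t (by omega), decide_eq_decide]; done)
        | (rw [h1 t (by omega), decide_eq_decide]; omega)
        | (simp; done)
        | (simp; omega)
        | (rw [h1 (t - 1) (by omega), decide_eq_decide]; omega)
    · have hins : insL q (i, D, m) = (i, D, m) := by simp [insL, c1, c2]
      rw [hins]
      refine ⟨by simp only; omega, fun t ht => ?_⟩
      simp only at ht ⊢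
      rw [h1 t ht, decide_eq_decide]
      split_ifs <;> omega

theorem countP_fw (i : ℕ) (D : List Bool) (m : ℕ) :
    (fw i D m).countP Gen.isBorn = 0 ∧ (fw i D m).countP Gen.isDie = 0 := by
  induction D generalizing i with
  | nil => simp [fw, List.countP_replicate, Gen.isBorn, Gen.isDie]
  | cons f D ih =>
    simp [fw, Gen.isBorn, Gen.isDie, ih (i + 1)]

theorem countP_wd (β : List Ltr) :
    (wd β).countP Gen.isBorn = 0 ∧ (wd β).countP Gen.isDie = 0 := by
  induction β with
  | nil => simp [wd]
  | cons l β ih =>
    have h1 := countP_fw l.1 l.2.1 l.2.2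
    simp only [wd, List.flatMap_cons, List.countP_append] at ih ⊢
    omega

end Pool.Agent.H53.SQ

end S_INSB

section S_CONVA

/-!
# Module CONVA: facts about the strands of a frontier

PROOFS: inductions on the list (`List.flatMap_cons`, case analysis on the item, `split_ifs`,
`Function.update`). For the facts about `xU`, `xC` the items of `D` are `dead n` or `sdead`.
`scan_mono`: facts about `scan` used in the case `n = k` of `capR`/`capL` in `conv`.
* `scan_inv1`: if `scan C k 1 D = some s` and `D` is off, then `s = 1` and no item of `D` is a `dead n` with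
  `n = k` or `C n`; so `flags C D = replicate _ false`, `StU C k D = replicate _ (inl true)`.
* `scan_at_up`: if `scan C k 0 (A ++ up (some k) x j :: (D ++ ret k :: B)) = some 3` and `D` is off, then
  `scan C k 0 A = some 0`, `scan C k 1 D = some 1`, `scan C k 3 B = some 3` (look at the state after `A`:
  `0` is fine; from `1`, `3` the item `up k` gives `none`; from `2` it gives `3`, the items of `D` keep
  `3` or give `none`, and `ret k` gives `none`). States other than `0,1,2,3` do not occur
  (`scan` starting in `0`): prove `scan C k s A = some s' → s ≤ 3 → s' ≤ 3`.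
* `scan_at_ret`: the mirror image.
-/

namespace Pool.Agent.H53.SQ

variable {V : Type} [DecidableEq V] {L : ℕ}

theorem conva_StU_cons (C : Nm V L → Bool) (k : Nm V L) (m : MI V L) (A : List (MI V L)) :
    StU C k (m :: A) = lnU C k m ++ StU C k A := rfl

theorem conva_StC_cons (C : Nm V L → Bool) (k : Nm V L) (m : MI V L) (A : List (MI V L)) :
    StC C k (m :: A) = lnC C k m ++ StC C k A := rfl

omit [DecidableEq V] in
theorem conva_vl_cons (C : Nm V L → Bool) (m : MI V L) (A : List (MI V L)) :
    vl C (m :: A) = vis C m + vl C A := by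
  simp [vl]

theorem length_StU (C : Nm V L → Bool) (k : Nm V L) (hk : C k = false)
    (A : List (MI V L)) : (StU C k A).length = vl C A := by
  induction A with
  | nil => rfl
  | cons m A ih =>
    rw [conva_StU_cons, conva_vl_cons, List.length_append, ih]
    congr 1
    cases m with
    | up n x j => rfl
    | ret n =>
      simp only [lnU, vis]
      by_cases h : n = k
      · subst h; simp [hk]
      · simp only [if_neg h]
        cases C n <;> rfl
    | dead n =>
      simp only [lnU, vis]
      by_cases h : n = k
      · subst h; simp [hk]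
      · simp only [if_neg h]
        cases C n <;> rfl
    | sdead => rfl

theorem length_StC (C : Nm V L → Bool) (k : Nm V L) (A : List (MI V L)) :
    (StC C k A).length = vl (Function.update C k true) A := by
  induction A with
  | nil => rfl
  | cons m A ih =>
    rw [conva_StC_cons, conva_vl_cons, List.length_append, ih]
    congr 1
    cases m with
    | up n x j => rfl
    | ret n =>
      simp only [lnC, vis]
      by_cases h : n = k
      · subst h; simp
      · simp only [if_neg h, Function.update_of_ne h]
        cases C n <;> rfl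
    | dead n =>
      simp only [lnC, vis]
      by_cases h : n = k
      · subst h; simp
      · simp only [if_neg h, Function.update_of_ne h]
        cases C n <;> rfl
    | sdead => rfl

theorem openCount_StU (C : Nm V L → Bool) (k : Nm V L) (A : List (MI V L)) :
    openCount (StU C k A) = openCount (StC C k A) := by
  induction A with
  | nil => rfl
  | cons m A ih =>
    rw [conva_StU_cons, conva_StC_cons, openCount_append, openCount_append, ih]
    congr 1
    cases m with
    | up n x j => rfl
    | ret n =>
      simp only [lnU, lnC]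
      by_cases h : n = k
      · simp only [if_pos h]; rfl
      · simp only [if_neg h]
    | dead n =>
      simp only [lnU, lnC]
      by_cases h : n = k
      · simp only [if_pos h]; rfl
      · simp only [if_neg h]
    | sdead => rfl

theorem scan_append (C : Nm V L → Bool) (k : Nm V L) (s : ℕ) (A B : List (MI V L)) :
    scan C k s (A ++ B) = (scan C k s A).bind (fun s' => scan C k s' B) := by
  induction A generalizing s with
  | nil => rfl
  | cons m A ih =>
    show (stp C k s m).bind (fun s' => scan C k s' (A ++ B)) =
      ((stp C k s m).bind (fun s' => scan C k s' A)).bind (fun s' => scan C k s' B)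
    rw [Option.bind_assoc]
    congr 1
    funext s'
    exact ih s'

theorem alive_append (k : Nm V L) (A B : List (MI V L)) :
    alive k (A ++ B) = alive k A + alive k B := by
  induction A with
  | nil => simp [alive]
  | cons m A ih =>
    cases m with
    | up n x j =>
      cases n with
      | none => exact ih
      | some n =>
        rw [List.cons_append]
        simp only [alive, ih]
        split_ifs <;> omega
    | ret n => exact ih
    | dead n => exact ih
    | sdead => exact ih

def xU (C : Nm V L → Bool) (k : Nm V L) : MI V L → List ((Bool ⊕ ℕ) × Bool)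
  | .dead n => if n = k then [] else if C n then [(Sum.inl true, true)] else []
  | .sdead => [(Sum.inl true, false)]
  | _ => []

def xC (C : Nm V L → Bool) (k : Nm V L) : MI V L → List ((Bool ⊕ ℕ) × Bool)
  | .dead n => if n = k then [(Sum.inr 0, true)] else if C n then [(Sum.inl true, true)] else []
  | .sdead => [(Sum.inl true, false)]
  | _ => []

theorem conva_oflags_append (X Y : List ((Bool ⊕ ℕ) × Bool)) :
    oflags (X ++ Y) = oflags X ++ oflags Y := by
  simp [oflags]

theorem conva_Xok_append {ov : Bool} {X Y : List ((Bool ⊕ ℕ) × Bool)} (hX : Xok ov X)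
    (hY : Xok ov Y) : Xok ov (X ++ Y) := by
  intro x hx
  rcases List.mem_append.1 hx with h | h
  · exact hX x h
  · exact hY x h

theorem conva_Xok_nil {ov : Bool} : Xok ov [] := by
  intro x hx
  simp at hx

theorem conva_Xok_one {ov b : Bool} : Xok ov [(Sum.inl true, b)] := by
  intro x hx
  rw [List.mem_singleton] at hx
  subst hx
  exact Or.inl rfl

theorem xU_facts (C : Nm V L → Bool) (k : Nm V L) (hk : C k = false) (D : List (MI V L))
    (hD : ∀ m ∈ D, m.off = true) :
    (D.flatMap (xU C k)).map Prod.fst = StU C k D ∧
    (D.flatMap (xU C k)).map Prod.snd = flags C D ∧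
    oflags (D.flatMap (xU C k)) = flags C D ∧ Xok false (D.flatMap (xU C k)) := by
  induction D with
  | nil => exact ⟨rfl, rfl, rfl, conva_Xok_nil⟩
  | cons m D ih =>
    obtain ⟨h1, h2, h3, h4⟩ := ih fun e he => hD e (List.mem_cons_of_mem _ he)
    have hm := hD m List.mem_cons_self
    rw [List.flatMap_cons, List.map_append, List.map_append, conva_oflags_append, conva_StU_cons,
      h1, h2, h3]
    cases m with
    | up n x j => exact absurd hm (by simp [MI.off])
    | ret n => exact absurd hm (by simp [MI.off])
    | dead n =>
      simp only [xU, lnU, flags]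
      by_cases h : n = k
      · subst h
        simp only [if_true, hk, Bool.false_eq_true, if_false, List.map_nil, List.nil_append]
        refine ⟨?_, ?_, ?_, h4⟩ <;> trivial
      · simp only [if_neg h]
        cases hC : C n with
        | false =>
          simp only [Bool.false_eq_true, if_false, List.map_nil, List.nil_append]
          refine ⟨?_, ?_, ?_, h4⟩ <;> trivial
        | true =>
          simp only [if_true]
          exact ⟨rfl, rfl, rfl, conva_Xok_append conva_Xok_one h4⟩
    | sdead => exact ⟨rfl, rfl, rfl, conva_Xok_append conva_Xok_one h4⟩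

theorem xC_facts (C : Nm V L → Bool) (k : Nm V L) (hk : C k = false) (D : List (MI V L))
    (hD : ∀ m ∈ D, m.off = true) :
    (D.flatMap (xC C k)).map Prod.fst = StC C k D ∧
    (D.flatMap (xC C k)).map Prod.snd = flags (Function.update C k true) D ∧
    oflags (D.flatMap (xC C k)) = flags C D ∧ Xok false (D.flatMap (xC C k)) := by
  induction D with
  | nil => exact ⟨rfl, rfl, rfl, conva_Xok_nil⟩
  | cons m D ih =>
    obtain ⟨h1, h2, h3, h4⟩ := ih fun e he => hD e (List.mem_cons_of_mem _ he)
    have hm := hD m List.mem_cons_self
    rw [List.flatMap_cons, List.map_append, List.map_append, conva_oflags_append, conva_StC_cons,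
      h1, h2, h3]
    cases m with
    | up n x j => exact absurd hm (by simp [MI.off])
    | ret n => exact absurd hm (by simp [MI.off])
    | dead n =>
      simp only [xC, lnC, flags]
      by_cases h : n = k
      · subst h
        simp only [if_true, hk, Bool.false_eq_true, if_false, Function.update_self]
        refine ⟨rfl, rfl, rfl, conva_Xok_append ?_ h4⟩
        intro x hx
        rw [List.mem_singleton] at hx
        subst hx
        exact Or.inr ⟨0, rfl, rfl⟩
      · simp only [if_neg h, Function.update_of_ne h]
        cases hC : C n with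
        | false =>
          simp only [Bool.false_eq_true, if_false, List.map_nil, List.nil_append]
          refine ⟨?_, ?_, ?_, h4⟩ <;> trivial
        | true =>
          simp only [if_true]
          exact ⟨rfl, rfl, rfl, conva_Xok_append conva_Xok_one h4⟩
    | sdead => exact ⟨rfl, rfl, rfl, conva_Xok_append conva_Xok_one h4⟩

theorem conva_bind {α : Type} {o : Option α} {f : α → Option ℕ} {s' : ℕ} (h : o.bind f = some s') :
    ∃ a, o = some a ∧ f a = some s' := by
  cases o with
  | none => exact absurd h (by simp)
  | some a => exact ⟨a, rfl, h⟩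

theorem conva_dead {C : Nm V L → Bool} {k n : Nm V L} {s s' : ℕ} (hs : s = 1 ∨ s = 2)
    (h : stp C k s (MI.dead n) = some s') : s' = s ∧ n ≠ k ∧ C n = false := by
  rcases hs with rfl | rfl
  · simp only [stp] at h
    split_ifs at h with h1 h2
    simp only [Option.some.injEq] at h
    exact ⟨h.symm, h1, by simpa using h2⟩
  · simp only [stp] at h
    split_ifs at h with h1 h2
    simp only [Option.some.injEq] at h
    exact ⟨h.symm, h1, by simpa using h2⟩

theorem conva_inv (C : Nm V L → Bool) (k : Nm V L) (s s' : ℕ)
    (hs : s = 1 ∨ s = 2) (D : List (MI V L)) (hD : ∀ m ∈ D, m.off = true)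
    (h : scan C k s D = some s') :
    s' = s ∧ flags C D = List.replicate (flags C D).length false ∧
      StU C k D = List.replicate (flags C D).length (Sum.inl true) ∧
      (∀ t, t = 0 ∨ t = 3 → scan C k t D = some t) ∧ (MI.dead k ∉ D) := by
  induction D with
  | nil =>
    have h' : some s = some s' := h
    simp only [Option.some.injEq] at h'
    exact ⟨h'.symm, rfl, rfl, fun t _ => rfl, by simp⟩
  | cons m D ih =>
    have hD' : ∀ m ∈ D, m.off = true := fun e he => hD e (List.mem_cons_of_mem _ he)
    have hm := hD m List.mem_cons_self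
    obtain ⟨a, ha, h2⟩ := conva_bind h
    cases m with
    | up n x j => exact absurd hm (by simp [MI.off])
    | ret n => exact absurd hm (by simp [MI.off])
    | dead n =>
      obtain ⟨rfl, hnk, hCn⟩ := conva_dead hs ha
      obtain ⟨g1, g2, g3, g4, g5⟩ := ih hD' h2
      have hf : flags C (MI.dead n :: D) = flags C D := by
        simp only [flags, hCn, Bool.false_eq_true, if_false]
      refine ⟨g1, ?_, ?_, ?_, ?_⟩
      · rw [hf]; exact g2
      · rw [hf, conva_StU_cons]
        simp only [lnU, if_neg hnk, hCn, Bool.false_eq_true, if_false, List.nil_append]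
        exact g3
      · intro t ht
        show (stp C k t (MI.dead n)).bind (fun s' => scan C k s' D) = some t
        have : stp C k t (MI.dead n) = some t := by
          rcases ht with rfl | rfl
          · simp only [stp, if_neg hnk]
          · show stp C k (0 + 3) (MI.dead n) = some (0 + 3)
            simp only [stp, if_neg hnk]
        rw [this]
        exact g4 t ht
      · rw [List.mem_cons, not_or]
        refine ⟨fun h' => hnk ?_, g5⟩
        injection h' with h'
        exact h'.symm
    | sdead =>
      have has : a = s := by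
        rcases hs with rfl | rfl <;> simp only [stp, Option.some.injEq] at ha <;> exact ha.symm
      subst has
      obtain ⟨g1, g2, g3, g4, g5⟩ := ih hD' h2
      have hf : flags C (MI.sdead :: D) = false :: flags C D := rfl
      refine ⟨g1, ?_, ?_, ?_, ?_⟩
      · rw [hf, List.length_cons, List.replicate_succ, ← g2]
      · rw [hf, List.length_cons, List.replicate_succ, ← g3]
        rfl
      · intro t ht
        show (stp C k t MI.sdead).bind (fun s' => scan C k s' D) = some t
        have : stp C k t MI.sdead = some t := by
          rcases ht with rfl | rfl <;> rfl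
        rw [this]
        exact g4 t ht
      · rw [List.mem_cons, not_or]
        exact ⟨by simp, g5⟩

theorem scan_inv (C : Nm V L → Bool) (k : Nm V L) (hk : C k = false) (s s' : ℕ)
    (hs : s = 1 ∨ s = 2) (D : List (MI V L)) (hD : ∀ m ∈ D, m.off = true)
    (h : scan C k s D = some s') :
    s' = s ∧ flags C D = List.replicate (flags C D).length false ∧
      StU C k D = List.replicate (flags C D).length (Sum.inl true) ∧
      (∀ t, t = 0 ∨ t = 3 → scan C k t D = some t) ∧ (MI.dead k ∉ D) :=
  conva_inv C k s s' hs D hD h

theorem conva_stp_le (C : Nm V L → Bool) (k : Nm V L) (s s' : ℕ) (m : MI V L) (hs : s ≤ 3)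
    (h : stp C k s m = some s') : s' ≤ 3 ∧ (s = 3 → s' = 3) := by
  obtain rfl | rfl | rfl | rfl : s = 0 ∨ s = 1 ∨ s = 2 ∨ s = 0 + 3 := by omega
  all_goals
    rcases m with ⟨_ | n, x, j⟩ | n | n | _
    all_goals
      simp only [stp] at h
      repeat' split at h
      all_goals
        first
        | (simp only [Option.some.injEq] at h; subst h; omega)
        | (exact absurd h (by simp))

theorem conva_scan_le (C : Nm V L → Bool) (k : Nm V L) (A : List (MI V L)) : ∀ s s' : ℕ, s ≤ 3 →
    scan C k s A = some s' → s' ≤ 3 ∧ (s = 3 → s' = 3) := by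
  induction A with
  | nil =>
    intro s s' hs h
    have h' : some s = some s' := h
    simp only [Option.some.injEq] at h'
    subst h'
    exact ⟨hs, fun h => h⟩
  | cons m A ih =>
    intro s s' hs h
    obtain ⟨a, ha, h2⟩ := conva_bind h
    obtain ⟨h3, h4⟩ := conva_stp_le C k s a m hs ha
    obtain ⟨h5, h6⟩ := ih a s' h3 h2
    exact ⟨h5, fun h => h6 (h4 h)⟩

theorem scan_at_up (C : Nm V L → Bool) (k : Nm V L) (A D B : List (MI V L)) (x : Edge V L) (j : ℕ)
    (hD : ∀ m ∈ D, m.off = true)
    (h : scan C k 0 (A ++ MI.up (some k) x j :: (D ++ MI.ret k :: B)) = some 3) :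
    scan C k 0 A = some 0 ∧ scan C k 1 D = some 1 ∧ scan C k 3 B = some 3 := by
  rw [scan_append] at h
  obtain ⟨a, ha, h⟩ := conva_bind h
  obtain ⟨ha3, -⟩ := conva_scan_le C k A 0 a (by omega) ha
  obtain ⟨b, hb, h⟩ := conva_bind h
  rw [scan_append] at h
  obtain ⟨c, hc, h⟩ := conva_bind h
  obtain ⟨e, he, h⟩ := conva_bind h
  obtain rfl | rfl | rfl | rfl : a = 0 ∨ a = 1 ∨ a = 2 ∨ a = 0 + 3 := by omega
  · simp only [stp, if_true, Option.some.injEq] at hb
    subst hb
    obtain ⟨rfl, -⟩ := conva_inv C k 1 c (Or.inl rfl) D hD hc
    simp only [stp, if_true, Option.some.injEq] at he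
    subst he
    exact ⟨ha, hc, h⟩
  · simp only [stp, if_true] at hb
    exact absurd hb (by simp)
  · simp only [stp, if_true, Option.some.injEq] at hb
    subst hb
    obtain ⟨-, hc3⟩ := conva_scan_le C k D 3 c (by omega) hc
    obtain rfl := hc3 rfl
    have he' : stp C k (0 + 3) (MI.ret k) = some e := he
    simp only [stp, if_true] at he'
    exact absurd he' (by simp)
  · simp only [stp, if_true] at hb
    exact absurd hb (by simp)

theorem scan_at_ret (C : Nm V L → Bool) (k : Nm V L) (A D B : List (MI V L)) (x : Edge V L) (j : ℕ)
    (hD : ∀ m ∈ D, m.off = true)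
    (h : scan C k 0 (A ++ MI.ret k :: (D ++ MI.up (some k) x j :: B)) = some 3) :
    scan C k 0 A = some 0 ∧ scan C k 2 D = some 2 ∧ scan C k 3 B = some 3 := by
  rw [scan_append] at h
  obtain ⟨a, ha, h⟩ := conva_bind h
  obtain ⟨ha3, -⟩ := conva_scan_le C k A 0 a (by omega) ha
  obtain ⟨b, hb, h⟩ := conva_bind h
  rw [scan_append] at h
  obtain ⟨c, hc, h⟩ := conva_bind h
  obtain ⟨e, he, h⟩ := conva_bind h
  obtain rfl | rfl | rfl | rfl : a = 0 ∨ a = 1 ∨ a = 2 ∨ a = 0 + 3 := by omega
  · simp only [stp, if_true, Option.some.injEq] at hb
    subst hb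
    obtain ⟨rfl, -⟩ := conva_inv C k 2 c (Or.inr rfl) D hD hc
    simp only [stp, if_true, Option.some.injEq] at he
    subst he
    exact ⟨ha, hc, h⟩
  · simp only [stp, if_true, Option.some.injEq] at hb
    subst hb
    obtain ⟨-, hc3⟩ := conva_scan_le C k D 3 c (by omega) hc
    obtain rfl := hc3 rfl
    have he' : stp C k (0 + 3) (MI.up (some k) x j) = some e := he
    simp only [stp, if_true] at he'
    exact absurd he' (by simp)
  · simp only [stp, if_true] at hb
    exact absurd hb (by simp)
  · simp only [stp, if_true] at hb
    exact absurd hb (by simp)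

end Pool.Agent.H53.SQ

end S_CONVA

section S_CONV

/-!
# Module CONV: the words `f C` and `f (C ∪ k)` are obtained from one open word by adding an under-arc

`C` = circles already converted, `k` = the circle which is being converted (not in `C`). All circles
born later (`F`) are neither in `C` nor equal to `k`. `a + b` = number of final strands without
`k`; `k` has `a` final strands to its left.

PROOF: induction on `h : MW O ms F T f`, generalizing nothing but the hypotheses on `F` and `ms`
(`C`, `k`, `a`, `b` are fixed). General facts (module CONVA):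
(i) `(StU C k A).length = vl C A` (uses `C k = false`) and
    `(StC C k A).length = vl (Function.update C k true) A`;
(ii) `openCount (StU C k A) = openCount (StC C k A) =: oc A`;
(iii) `scan C k s (A ++ B) = (scan C k s A).bind (fun s' => scan C k s' B)`, `alive` and `StU`, `StC`,
    `flatMap` are additive;
(iv) `xU_facts`, `xC_facts` for `XU = D.flatMap (xU C k)`, `XC = D.flatMap (xC C k)`.
Constructors (write `P = oc A`):
* `done`: all items are off, `f C = []`; `StU C k ms = replicate (a + b) (inl true)`,
  `StC C k ms = replicate a (inl true) ++ inr 0 :: replicate b (inl true)` (read off from the list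
  `ms.flatMap (mkI C k)`, since for off items `lnU`/`lnC` are functions of `mkI`); take
  `e = caps (a + b)`, `add_caps`, `add_caps_arc`, `alive k ms = 0`.
* `post`: `e = fw P (flags C D) 1 ++ e'`, `add_fw` with `XU`, `XC` (`alive`, `scan`, `mkI`, `StU`, `StC` of
  the old and of the new frontier are equal).
* `bR` with the new circle `n = inl (v, true)` (`n ≠ k`, `C n = false`):
  `e = cup (P+1) true :: cross P true :: e'`; `Add.cup (StU A ++ [inl true]) .. true`, then `Add.cross`.
  `bL` similar: `e = cup P false :: cross (P+1) true :: e'`. Invariants: `x₁, x₂` are `x` and `n`; `up n`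
  and `ret n` do not change `scan` (they are never a problem because `C n = false`, `n ≠ k`), `mkI` of
  them is empty; in the case `x = none` use that `up none` does nothing in `scan`.
* `capR` for `n`:
  - `n = k` (so `C n = false`, `update C k true n = true`): from `scan C k 0 ms = some 3` follows that
    `scan C k 0 A = some 0`, `scan C k 1 D = some 1` and `scan C k 3 B = some 3` (after `up k` from the
    state `2` we would be in state `3` and `ret k` would give `none`); so `D` contains no item named
    `k` and no `dead c` with `C c`, therefore `flags C D` consists of `false` only and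
    `StU C k D = replicate _ (inl true)`. `e = die P :: e'`. U: `Add.die`, `arc_mvR` (with
    `ov = false`, `k = 0`), `Add.acap₁ .. 0` (`inr 0 :: inr 1`). C: `Add.die` only. New frontier:
    `scan C k 0 (A ++ dead k :: (D ++ B)) = some 3`. `alive` decreases by one, matching `die`.
  - `n ≠ k`, `C n = true`: both words are `f C` (the circle is converted); nothing happens, the
    strands are the same (`up n` and `dead n` are both `inl true`, `ret n` is empty), `scan` is the same.
  - `n ≠ k`, `C n = false`: `e = mvR P (flags C D) ++ cap (P + (flags C D).length) :: e'`; `add_mvR` with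
    `XU`/`XC`, then `Add.cap .. true`.
* `capL` for `n`: mirror image; `n = k`: state `scan C k 0 A = some 0`, then `ret k` gives `2`,
  `scan C k 2 D = some 2`; `Add.die`, `arc_mvL`, `Add.acap₂ .. 0` (`inr 1 :: inr 0`);
  `n ≠ k`, `C n = false`: `e = mvL (P+1) (flags C D) ++ cap P :: e'`, `add_mvL` with
  `Q = StU A ++ [inl false]`, then `Add.cap .. false`.
* `dieS`: `up none` and `sdead` have the same strands, `mkI`, `scan`, `alive`; same `e`.
* `fr n` (`n ≠ k`, `C n = false`): `e = cup 0 true :: e'`, `Add.cup [] _ true`.
`countP`: crossings, cups and caps count `0`, `die` counts `1`.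
-/

namespace Pool.Agent.H53.SQ

variable {V : Type} [DecidableEq V]

section
variable {L : ℕ} (C : Nm V L → Bool) (k : Nm V L)

theorem CONV_stp_up (s : ℕ) (x : Option (Nm V L)) (e e' : Edge V L) (j j' : ℕ) :
    stp C k s (.up x e j) = stp C k s (.up x e' j') := by
  cases x <;> match s with
  | 0 => rfl
  | 1 => rfl
  | 2 => rfl
  | s + 3 => rfl

theorem CONV_stp_none (s : ℕ) (e : Edge V L) (j : ℕ) : stp C k s (.up none e j) = some s := by
  match s with
  | 0 => rfl
  | 1 => rfl
  | 2 => rfl
  | s + 3 => rfl

theorem CONV_stp_sdead (s : ℕ) : stp C k s (.sdead) = some s := by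
  match s with
  | 0 => rfl
  | 1 => rfl
  | 2 => rfl
  | s + 3 => rfl

theorem CONV_stp_new (s : ℕ) (n : Nm V L) (hn : n ≠ k) (hC : C n = false) (e : Edge V L) (j : ℕ) :
    stp C k s (.up (some n) e j) = some s := by
  match s with
  | 0 => simp [stp, hn]
  | 1 => simp [stp, hn, hC]
  | 2 => simp [stp, hn, hC]
  | s + 3 => simp [stp, hn]

theorem CONV_stp_ret (s : ℕ) (n : Nm V L) (hn : n ≠ k) : stp C k s (.ret n) = some s := by
  match s with
  | 0 => simp [stp, hn]
  | 1 => simp [stp, hn]
  | 2 => simp [stp, hn]
  | s + 3 => simp [stp, hn]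

theorem CONV_stp_dead (s : ℕ) (n : Nm V L) (hn : n ≠ k) (e : Edge V L) (j : ℕ) :
    stp C k s (.up (some n) e j) = stp C k s (.dead n) := by
  match s with
  | 0 => simp [stp, hn]
  | 1 => simp [stp, hn]
  | 2 => simp [stp, hn]
  | s + 3 => simp [stp, hn]

theorem CONV_StU_append (A B : List (MI V L)) : StU C k (A ++ B) = StU C k A ++ StU C k B := by
  simp [StU]

theorem CONV_StC_append (A B : List (MI V L)) : StC C k (A ++ B) = StC C k A ++ StC C k B := by
  simp [StC]

theorem CONV_StU_cons (m : MI V L) (B : List (MI V L)) :
    StU C k (m :: B) = lnU C k m ++ StU C k B := by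
  simp [StU]

theorem CONV_StC_cons (m : MI V L) (B : List (MI V L)) :
    StC C k (m :: B) = lnC C k m ++ StC C k B := by
  simp [StC]

theorem CONV_off (ms : List (MI V L)) (hoff : ∀ m ∈ ms, m.off = true) :
    StU C k ms = (ms.flatMap (mkI C k)).flatMap (fun t => if t then [] else [Sum.inl true]) ∧
    StC C k ms = (ms.flatMap (mkI C k)).flatMap
      (fun t => if t then [Sum.inr 0] else [Sum.inl true]) ∧ alive k ms = 0 := by
  induction ms with
  | nil => simp [StU, StC, alive]
  | cons m ms ih =>
    obtain ⟨h1, h2, h3⟩ := ih (fun m' hm' => hoff m' (List.mem_cons_of_mem _ hm'))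
    have hm := hoff m List.mem_cons_self
    rw [CONV_StU_cons, CONV_StC_cons, h1, h2]
    cases m with
    | up n x j => simp [MI.off] at hm
    | ret n => simp [MI.off] at hm
    | dead n =>
      refine ⟨?_, ?_, by simpa [alive] using h3⟩
      · by_cases hn : n = k
        · simp [lnU, mkI, hn]
        · by_cases hc : C n = true
          · simp [lnU, mkI, hn, hc]
          · simp [lnU, mkI, hn, hc]
      · by_cases hn : n = k
        · simp [lnC, mkI, hn]
        · by_cases hc : C n = true
          · simp [lnC, mkI, hn, hc]
          · simp [lnC, mkI, hn, hc]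
    | sdead => exact ⟨by simp [lnU, mkI], by simp [lnC, mkI], by simpa [alive] using h3⟩

theorem CONV_scan_congr (A B : List (MI V L)) (m m' : MI V L)
    (h : ∀ t, stp C k t m = stp C k t m') (s : ℕ) :
    scan C k s (A ++ m :: B) = scan C k s (A ++ m' :: B) := by
  simp only [scan_append, scan, h]

theorem CONV_scan_neutral (A B : List (MI V L)) (m : MI V L)
    (h : ∀ t, stp C k t m = some t) (s : ℕ) :
    scan C k s (A ++ m :: B) = scan C k s (A ++ B) := by
  simp only [scan_append, scan, h, Option.bind_some]

theorem CONV_mk_up (x : Option (Nm V L)) (e e' : Edge V L) (j j' : ℕ) :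
    mkI C k (.up x e j) = mkI C k (.up x e' j') := by
  cases x <;> rfl

theorem CONV_mk_new (n : Nm V L) (hn : n ≠ k) (hC : C n = false) (e : Edge V L) (j : ℕ) :
    mkI C k (.up (some n) e j) = [] := by
  simp [mkI, hn, hC]

theorem CONV_alive_up (x : Option (Nm V L)) (e e' : Edge V L) (j j' : ℕ) (l : List (MI V L)) :
    alive k (.up x e j :: l) = alive k (.up x e' j' :: l) := by
  cases x <;> rfl

theorem CONV_alive_cons (m : MI V L) (l : List (MI V L)) :
    alive k (m :: l) = alive k [m] + alive k l := by
  rw [← alive_append]; rfl

end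


theorem CONV_oc (X : List ((Bool ⊕ ℕ) × Bool)) :
    openCount (X.map Prod.fst) = (oflags X).length := by
  induction X with
  | nil => rfl
  | cons x X ih =>
    obtain ⟨z, t⟩ := x
    rcases z with z | z
    · simp only [oflags, List.length_map] at ih
      rw [List.map_cons, openCount, ih, oflags, List.length_map,
        List.filter_cons_of_pos (by rfl)]
      rfl
    · simp only [oflags, List.length_map] at ih
      rw [List.map_cons, openCount, ih, oflags, List.length_map,
        List.filter_cons_of_neg (by simp)]

theorem CONV_fm (a : ℕ) (g : Bool → List (Bool ⊕ ℕ)) (z : Bool ⊕ ℕ) (hg : g false = [z]) :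
    (List.replicate a false).flatMap g = List.replicate a z := by
  induction a with
  | zero => rfl
  | succ a ih => rw [List.replicate_succ, List.replicate_succ, List.flatMap_cons, ih, hg]; rfl

theorem CONV_countP_fw (i : ℕ) (D : List Bool) (m : ℕ) :
    (fw i D m).countP Gen.isBorn = 0 ∧ (fw i D m).countP Gen.isDie = 0 := by
  induction D generalizing i with
  | nil => simp [fw, List.countP_replicate, Gen.isBorn, Gen.isDie]
  | cons f D ih =>
    simp [fw, Gen.isBorn, Gen.isDie, ih (i + 1)]

theorem CONV_countP_mvR (i : ℕ) (D : List Bool) :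
    (mvR i D).countP Gen.isBorn = 0 ∧ (mvR i D).countP Gen.isDie = 0 := by
  induction D generalizing i with
  | nil => simp [mvR]
  | cons f D ih =>
    simp [mvR, Gen.isBorn, Gen.isDie, ih (i + 1)]

theorem CONV_countP_mvL (i : ℕ) (D : List Bool) :
    (mvL i D).countP Gen.isBorn = 0 ∧ (mvL i D).countP Gen.isDie = 0 := by
  induction D generalizing i with
  | nil => simp [mvL]
  | cons f D ih =>
    simp [mvL, Gen.isBorn, Gen.isDie, ih (i + 1)]

section
variable {L : ℕ} (C : Nm V L → Bool) (k : Nm V L)

theorem CONV_two (x x₁ x₂ : Option (Nm V L)) (n : Nm V L) (hn : n ≠ k) (hC : C n = false)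
    (hx : (x₁ = x ∧ x₂ = some n) ∨ (x = none ∧ x₁ = some n ∧ x₂ = none) ∨
      (x₁ = some n ∧ x₂ = x) ∨ (x = none ∧ x₁ = none ∧ x₂ = some n))
    (e₁ e₂ e : Edge V L) (j : ℕ) (A B : List (MI V L)) :
    (∀ s, scan C k s (A ++ .up x₁ e₁ 0 :: .up x₂ e₂ 0 :: B) =
      scan C k s (A ++ .up x e j :: B)) ∧
    (A ++ .up x₁ e₁ 0 :: .up x₂ e₂ 0 :: B).flatMap (mkI C k) =
      (A ++ .up x e j :: B).flatMap (mkI C k) ∧
    alive k (A ++ .up x₁ e₁ 0 :: .up x₂ e₂ 0 :: B) = alive k (A ++ .up x e j :: B) := by
  have hal : ∀ (e' : Edge V L) (l : List (MI V L)), alive k (.up (some n) e' 0 :: l) = alive k l := by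
    intro e' l; simp [alive, hn]
  rcases hx with ⟨rfl, rfl⟩ | ⟨rfl, rfl, rfl⟩ | ⟨rfl, rfl⟩ | ⟨rfl, rfl, rfl⟩
  · refine ⟨fun s => ?_, ?_, ?_⟩
    · have h1 := CONV_scan_neutral C k (A ++ [.up x₁ e₁ 0]) B (.up (some n) e₂ 0)
        (CONV_stp_new C k · n hn hC _ _) s
      rw [List.append_assoc, List.append_assoc] at h1
      exact h1.trans (CONV_scan_congr C k A B _ _ (CONV_stp_up C k · _ _ _ _ _) s)
    · simp only [List.flatMap_append, List.flatMap_cons, CONV_mk_new C k n hn hC, List.nil_append]
      rw [CONV_mk_up C k x₁ e₁ e 0 j]
    · simp only [alive_append]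
      rw [CONV_alive_cons, hal, ← CONV_alive_cons, CONV_alive_up k x₁ e₁ e 0 j]
  · refine ⟨fun s => ?_, ?_, ?_⟩
    · rw [CONV_scan_neutral C k A _ (.up (some n) e₁ 0) (CONV_stp_new C k · n hn hC _ _) s]
      exact CONV_scan_congr C k A B _ _ (CONV_stp_up C k · _ _ _ _ _) s
    · simp only [List.flatMap_append, List.flatMap_cons, CONV_mk_new C k n hn hC, List.nil_append]
      rw [CONV_mk_up C k none e₂ e 0 j]
    · simp only [alive_append]
      rw [hal, CONV_alive_up k none e₂ e 0 j]
  · refine ⟨fun s => ?_, ?_, ?_⟩
    · rw [CONV_scan_neutral C k A _ (.up (some n) e₁ 0) (CONV_stp_new C k · n hn hC _ _) s]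
      exact CONV_scan_congr C k A B _ _ (CONV_stp_up C k · _ _ _ _ _) s
    · simp only [List.flatMap_append, List.flatMap_cons, CONV_mk_new C k n hn hC, List.nil_append]
      rw [CONV_mk_up C k x₂ e₂ e 0 j]
    · simp only [alive_append]
      rw [hal, CONV_alive_up k x₂ e₂ e 0 j]
  · refine ⟨fun s => ?_, ?_, ?_⟩
    · have h1 := CONV_scan_neutral C k (A ++ [.up none e₁ 0]) B (.up (some n) e₂ 0)
        (CONV_stp_new C k · n hn hC _ _) s
      rw [List.append_assoc, List.append_assoc] at h1
      exact h1.trans (CONV_scan_congr C k A B _ _ (CONV_stp_up C k · _ _ _ _ _) s)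
    · simp only [List.flatMap_append, List.flatMap_cons, CONV_mk_new C k n hn hC, List.nil_append]
      rw [CONV_mk_up C k none e₁ e 0 j]
    · simp only [alive_append]
      rw [CONV_alive_cons, hal, ← CONV_alive_cons, CONV_alive_up k none e₁ e 0 j]

end

theorem conv {O : Code V} {ms : List (MI V O.loops)} {F : List (Nm V O.loops)}
    {T : List (Tok V O.loops)} {f : (Nm V O.loops → Bool) → List Gen} (h : MW O ms F T f)
    (C : Nm V O.loops → Bool) (k : Nm V O.loops) (hk : C k = false)
    (hF : ∀ n ∈ F, C n = false ∧ n ≠ k) (hs : scan C k 0 ms = some 3) (a b : ℕ)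
    (hm : ms.flatMap (mkI C k) = List.replicate a false ++ true :: List.replicate b false) :
    ∃ e : List Gen, e.countP Gen.isBorn = 0 ∧ e.countP Gen.isDie = alive k ms ∧
      Add false (StU C k ms ++ List.replicate (a + b) (Sum.inl false)) e (f C ++ caps (a + b)) ∧
      Add false (StC C k ms ++
        (List.replicate b (Sum.inl false) ++ Sum.inr 1 :: List.replicate a (Sum.inl false))) e
        (f (Function.update C k true) ++ caps (a + b + 1)) := by
  induction h with
  | done ms hoff =>
    obtain ⟨h1, h2, h3⟩ := CONV_off C k ms hoff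
    refine ⟨caps (a + b), (countP_caps _).1, by rw [h3]; exact (countP_caps _).2, ?_, ?_⟩
    · rw [h1, hm, List.flatMap_append, List.flatMap_cons, CONV_fm a _ (Sum.inl true) rfl,
        CONV_fm b _ (Sum.inl true) rfl]
      have e1 : List.replicate a (Sum.inl true : Bool ⊕ ℕ) ++ ((if true = true then [] else
          [Sum.inl true]) ++ List.replicate b (Sum.inl true)) =
          List.replicate (a + b) (Sum.inl true) := by
        rw [if_pos rfl, List.nil_append, List.replicate_add]
      rw [e1]
      exact add_caps false (a + b)
    · rw [h2, hm, List.flatMap_append, List.flatMap_cons, CONV_fm a _ (Sum.inl true) rfl,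
        CONV_fm b _ (Sum.inl true) rfl]
      have := add_caps_arc false a b
      rw [List.append_assoc, if_pos rfl]
      exact this
  | post A D B x y a' b' i j v F T f hD ha hb h ih =>
    obtain ⟨e, he1, he2, hU, hC⟩ := ih hF
      (by
        rw [← hs, CONV_scan_congr C k A _ _ (.up x (Sum.inl a') i) (CONV_stp_up C k · _ _ _ _ _)]
        have := CONV_scan_congr C k (A ++ .up x (Sum.inl a') i :: D) B
          (.up y (Sum.inl (some (v, true))) 0) (.up y (Sum.inl b') j)
          (CONV_stp_up C k · _ _ _ _ _) 0
        simpa using this)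
      (by
        rw [← hm]
        simp only [List.flatMap_append, List.flatMap_cons]
        rw [CONV_mk_up C k x _ (Sum.inl a') _ i, CONV_mk_up C k y _ (Sum.inl b') _ j])
    obtain ⟨u1, u2, u3, u4⟩ := xU_facts C k hk D hD
    obtain ⟨c1, c2, c3, c4⟩ := xC_facts C k hk D hD
    refine ⟨fw (openCount (StU C k A)) (flags C D) 1 ++ e, ?_, ?_, ?_, ?_⟩
    · rw [List.countP_append, (CONV_countP_fw _ _ _).1, he1]
    · rw [List.countP_append, (CONV_countP_fw _ _ _).2, he2, zero_add]
      simp only [alive_append]
      rw [CONV_alive_up k x _ (Sum.inl a') _ i, CONV_alive_cons k (.up x _ _),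
        CONV_alive_cons k (.up x _ _) (D ++ _), alive_append, alive_append,
        CONV_alive_up k y _ (Sum.inl b') _ j]
    · have := add_fw false (StU C k A) (D.flatMap (xU C k))
        (StU C k B ++ List.replicate (a + b) (Sum.inl false)) 1 e (f C ++ caps (a + b)) u4
        (by simpa [CONV_StU_append, CONV_StU_cons, lnU, u1] using hU)
      rw [u1, u2, u3, length_StU C k hk] at this
      simpa [CONV_StU_append, CONV_StU_cons, lnU] using this
    · have := add_fw false (StC C k A) (D.flatMap (xC C k))
        (StC C k B ++ (List.replicate b (Sum.inl false) ++ Sum.inr 1 ::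
          List.replicate a (Sum.inl false))) 1 e
          (f (Function.update C k true) ++ caps (a + b + 1)) c4
        (by simpa [CONV_StC_append, CONV_StC_cons, lnC, c1] using hC)
      rw [c1, c2, c3, length_StC C k, ← openCount_StU] at this
      simpa [CONV_StC_append, CONV_StC_cons, lnC] using this
  | bR A B x x₁ x₂ a' j v F T f ha hx h ih =>
    obtain ⟨hnC, hnk⟩ := hF (Sum.inl (v, true)) List.mem_cons_self
    have hx' : (x₁ = x ∧ x₂ = some (Sum.inl (v, true))) ∨
      (x = none ∧ x₁ = some (Sum.inl (v, true)) ∧ x₂ = none) ∨
      (x₁ = some (Sum.inl (v, true)) ∧ x₂ = x) ∨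
      (x = none ∧ x₁ = none ∧ x₂ = some (Sum.inl (v, true))) := by tauto
    obtain ⟨k1, k2, k3⟩ := CONV_two C k x x₁ x₂ _ hnk hnC hx' (Sum.inl (some (v, false)))
      (Sum.inl (some (v, true))) (Sum.inl a') j A B
    have r1 : ∀ s, scan C k s (A ++ .up x₁ (Sum.inl (some (v, false))) 0 ::
        .up x₂ (Sum.inl (some (v, true))) 0 :: .ret (Sum.inl (v, true)) :: B) =
        scan C k s (A ++ .up x₁ (Sum.inl (some (v, false))) 0 ::
          .up x₂ (Sum.inl (some (v, true))) 0 :: B) := by
      intro s
      have := CONV_scan_neutral C k (A ++ [.up x₁ (Sum.inl (some (v, false))) 0,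
        .up x₂ (Sum.inl (some (v, true))) 0]) B (.ret (Sum.inl (v, true)))
        (CONV_stp_ret C k · _ hnk) s
      rw [List.append_assoc, List.append_assoc] at this
      exact this
    obtain ⟨e, he1, he2, hU, hC⟩ := ih (fun n hn => hF n (List.mem_cons_of_mem _ hn))
      (by rw [r1, k1, hs])
      (by
        rw [← hm, ← k2]
        simp only [List.flatMap_append, List.flatMap_cons, mkI, List.nil_append])
    refine ⟨Gen.cup (openCount (StU C k A) + 1) true :: Gen.cross (openCount (StU C k A)) true :: e,
      ?_, ?_, ?_, ?_⟩
    · simpa [Gen.isBorn] using he1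
    · rw [List.countP_cons_of_neg (by simp [Gen.isDie]), List.countP_cons_of_neg (by simp [Gen.isDie]),
        he2, ← k3]
      have : ∀ (y z : MI V O.loops), alive k (A ++ y :: z :: .ret (Sum.inl (v, true)) :: B) =
          alive k (A ++ y :: z :: B) := by
        intro y z
        rw [alive_append, alive_append, CONV_alive_cons k y, CONV_alive_cons k z,
          CONV_alive_cons k y (z :: B), CONV_alive_cons k z B]
        rfl
      exact this _ _
    · have h1 := Add.cross (StU C k A) (Sum.inl false :: (StU C k B ++
        List.replicate (a + b) (Sum.inl false))) true e (f C ++ caps (a + b))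
        (by simpa [CONV_StU_append, CONV_StU_cons, lnU, hnk, hnC] using hU)
      have h2 := Add.cup (StU C k A ++ [Sum.inl true]) (StU C k B ++
        List.replicate (a + b) (Sum.inl false)) true _ _ (by simpa using h1)
      rw [length_StU C k hk, openCount_append, List.length_append, length_StU C k hk] at h2
      simpa [CONV_StU_append, CONV_StU_cons, lnU, openCount] using h2
    · have h1 := Add.cross (StC C k A) (Sum.inl false :: (StC C k B ++
        (List.replicate b (Sum.inl false) ++ Sum.inr 1 ::
          List.replicate a (Sum.inl false)))) true e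
          (f (Function.update C k true) ++ caps (a + b + 1))
        (by simpa [CONV_StC_append, CONV_StC_cons, lnC, hnk, hnC] using hC)
      have h2 := Add.cup (StC C k A ++ [Sum.inl true]) (StC C k B ++
        (List.replicate b (Sum.inl false) ++ Sum.inr 1 ::
          List.replicate a (Sum.inl false))) true _ _ (by simpa using h1)
      rw [length_StC C k, openCount_append, List.length_append, length_StC C k,
        ← openCount_StU] at h2
      simpa [CONV_StC_append, CONV_StC_cons, lnC, openCount] using h2
  | bL A B x x₁ x₂ a' j v F T f ha hx h ih =>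
    obtain ⟨hnC, hnk⟩ := hF (Sum.inl (v, false)) List.mem_cons_self
    have hx' : (x₁ = x ∧ x₂ = some (Sum.inl (v, false))) ∨
      (x = none ∧ x₁ = some (Sum.inl (v, false)) ∧ x₂ = none) ∨
      (x₁ = some (Sum.inl (v, false)) ∧ x₂ = x) ∨
      (x = none ∧ x₁ = none ∧ x₂ = some (Sum.inl (v, false))) := by tauto
    obtain ⟨k1, k2, k3⟩ := CONV_two C k x x₁ x₂ _ hnk hnC hx' (Sum.inl (some (v, false)))
      (Sum.inl (some (v, true))) (Sum.inl a') j A B
    have r1 := CONV_scan_neutral C k A (.up x₁ (Sum.inl (some (v, false))) 0 ::
        .up x₂ (Sum.inl (some (v, true))) 0 :: B) (.ret (Sum.inl (v, false)))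
        (CONV_stp_ret C k · _ hnk)
    obtain ⟨e, he1, he2, hU, hC⟩ := ih (fun n hn => hF n (List.mem_cons_of_mem _ hn))
      (by rw [r1, k1, hs])
      (by
        rw [← hm, ← k2]
        simp only [List.flatMap_append, List.flatMap_cons, mkI, List.nil_append])
    refine ⟨Gen.cup (openCount (StU C k A)) false :: Gen.cross (openCount (StU C k A) + 1) true :: e,
      ?_, ?_, ?_, ?_⟩
    · simpa [Gen.isBorn] using he1
    · rw [List.countP_cons_of_neg (by simp [Gen.isDie]), List.countP_cons_of_neg (by simp [Gen.isDie]),
        he2, ← k3, alive_append, alive_append]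
      rfl
    · have h1 := Add.cross (StU C k A ++ [Sum.inl false]) (StU C k B ++
        List.replicate (a + b) (Sum.inl false)) true e (f C ++ caps (a + b))
        (by simpa [CONV_StU_append, CONV_StU_cons, lnU, hnk, hnC] using hU)
      have h2 := Add.cup (StU C k A) (Sum.inl true :: (StU C k B ++
        List.replicate (a + b) (Sum.inl false))) false _ _ (by simpa using h1)
      rw [length_StU C k hk, openCount_append] at h2
      simpa [CONV_StU_append, CONV_StU_cons, lnU, openCount] using h2
    · have h1 := Add.cross (StC C k A ++ [Sum.inl false]) (StC C k B ++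
        (List.replicate b (Sum.inl false) ++ Sum.inr 1 ::
          List.replicate a (Sum.inl false))) true e
          (f (Function.update C k true) ++ caps (a + b + 1))
        (by simpa [CONV_StC_append, CONV_StC_cons, lnC, hnk, hnC] using hC)
      have h2 := Add.cup (StC C k A) (Sum.inl true :: (StC C k B ++
        (List.replicate b (Sum.inl false) ++ Sum.inr 1 ::
          List.replicate a (Sum.inl false)))) false _ _ (by simpa using h1)
      rw [length_StC C k, openCount_append, ← openCount_StU] at h2
      simpa [CONV_StC_append, CONV_StC_cons, lnC, openCount] using h2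
  | capR A D B n F T f hD h ih =>
    by_cases hn : n = k
    · subst hn
      obtain ⟨s1, s2, s3⟩ := scan_at_up C n A D B _ _ hD hs
      obtain ⟨-, q2, q3, q4, q5⟩ := scan_inv C n hk 1 1 (Or.inl rfl) D hD s2
      have hmD : D.flatMap (mkI C n) = (flags C D).map (fun _ => false) ∨ True := Or.inr trivial
      obtain ⟨e, he1, he2, hU, hC⟩ := ih hF
        (by
          rw [scan_append, s1]
          simp only [Option.bind_some, scan, stp, if_true]
          rw [scan_append, q4 3 (Or.inr rfl)]
          simpa using s3)
        (by
          rw [← hm]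
          simp [List.flatMap_append, List.flatMap_cons, mkI])
      refine ⟨Gen.die (openCount (StU C n A)) :: e, ?_, ?_, ?_, ?_⟩
      · simpa [Gen.isBorn] using he1
      · rw [List.countP_cons_of_pos (by simp [Gen.isDie]), he2]
        simp only [alive_append, alive, if_true]
        omega
      · have h1 := Add.acap₁ (StU C n A ++ StU C n D) (StU C n B ++
          List.replicate (a + b) (Sum.inl false)) 0 e (f C ++ caps (a + b))
          (by simpa [CONV_StU_append, CONV_StU_cons, lnU] using hU)
        have h2 := arc_mvR false 0 (flags C D).length (StU C n A) (Sum.inr 1 :: (StU C n B ++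
          List.replicate (a + b) (Sum.inl false))) _ _ (by rw [← q3]; simpa using h1)
        have h3 := Add.die (StU C n A) _ _ _ h2
        rw [← q2, ← q3, length_StU C n hk] at h3
        have q6 : (StU C n D).length = (flags C D).length := by rw [q3, List.length_replicate]
        simpa [CONV_StU_append, CONV_StU_cons, lnU, hk, length_StU C n hk A, q6] using h3
      · have h3 := Add.die (StC C n A) (StC C n D ++ (StC C n B ++
          (List.replicate b (Sum.inl false) ++ Sum.inr 1 ::
          List.replicate a (Sum.inl false)))) e (f (Function.update C n true) ++ caps (a + b + 1))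
          (by simpa [CONV_StC_append, CONV_StC_cons, lnC] using hC)
        rw [← openCount_StU] at h3
        simpa [CONV_StC_append, CONV_StC_cons, lnC] using h3
    · have hsc : scan C k 0 (A ++ MI.dead n :: (D ++ B)) = some 3 := by
        rw [← hs, CONV_scan_congr C k A _ _ _ (fun t => CONV_stp_dead C k t n hn (gap O n) 0)]
        have := CONV_scan_neutral C k (A ++ .dead n :: D) B (.ret n) (CONV_stp_ret C k · n hn) 0
        simpa using this.symm
      have hmk : (A ++ MI.dead n :: (D ++ B)).flatMap (mkI C k) =
          List.replicate a false ++ true :: List.replicate b false := by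
        rw [← hm]
        simp [List.flatMap_append, List.flatMap_cons, mkI]
      obtain ⟨e, he1, he2, hU, hC⟩ := ih hF hsc hmk
      have hal : alive k (A ++ MI.up (some n) (gap O n) 0 :: (D ++ MI.ret n :: B)) =
          alive k (A ++ MI.dead n :: (D ++ B)) := by
        simp only [alive_append, alive, if_neg hn]
      obtain ⟨u1, u2, u3, u4⟩ := xU_facts C k hk D hD
      obtain ⟨c1, c2, c3, c4⟩ := xC_facts C k hk D hD
      by_cases hnC : C n = true
      · refine ⟨e, he1, by rw [he2, hal], ?_, ?_⟩
        · simpa [CONV_StU_append, CONV_StU_cons, lnU, hn, hnC] using hU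
        · simpa [CONV_StC_append, CONV_StC_cons, lnC, hn, hnC] using hC
      · refine ⟨mvR (openCount (StU C k A)) (flags C D) ++
          Gen.cap (openCount (StU C k A) + (flags C D).length) :: e, ?_, ?_, ?_, ?_⟩
        · rw [List.countP_append, (CONV_countP_mvR _ _).1]
          simpa [Gen.isBorn] using he1
        · rw [List.countP_append, (CONV_countP_mvR _ _).2, hal, ← he2]
          simp [Gen.isDie]
        · have h1 := Add.cap (StU C k A ++ StU C k D) (StU C k B ++
            List.replicate (a + b) (Sum.inl false)) true e (f C ++ caps (a + b))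
            (by simpa [CONV_StU_append, CONV_StU_cons, lnU, hn, hnC] using hU)
          have h2 := add_mvR false (StU C k A) (D.flatMap (xU C k)) (Sum.inl false ::
            (StU C k B ++ List.replicate (a + b) (Sum.inl false))) _ _ u4
            (by rw [u1]; simpa using h1)
          have q1 : (StU C k D).length = (flags C D).length := by rw [← u1, ← u2]; simp
          have q2 : openCount (StU C k D) = (flags C D).length := by rw [← u1, CONV_oc, u3]
          rw [u1, u2, u3] at h2
          simp only [openCount_append, q2, List.length_append, q1, length_StU C k hk] at h2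
          simpa [CONV_StU_append, CONV_StU_cons, lnU, hn, hnC] using h2
        · have h1 := Add.cap (StC C k A ++ StC C k D) (StC C k B ++
            (List.replicate b (Sum.inl false) ++ Sum.inr 1 ::
              List.replicate a (Sum.inl false))) true e
              (f (Function.update C k true) ++ caps (a + b + 1))
            (by simpa [CONV_StC_append, CONV_StC_cons, lnC, hn, hnC] using hC)
          have h2 := add_mvR false (StC C k A) (D.flatMap (xC C k)) (Sum.inl false ::
            (StC C k B ++ (List.replicate b (Sum.inl false) ++ Sum.inr 1 ::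
              List.replicate a (Sum.inl false)))) _ _ c4
            (by rw [c1]; simpa using h1)
          have q1 : (StC C k D).length = (flags (Function.update C k true) D).length := by
            rw [← c1, ← c2]; simp
          have q2 : openCount (StC C k D) = (flags C D).length := by rw [← c1, CONV_oc, c3]
          rw [c1, c2, c3] at h2
          simp only [openCount_append, q2, List.length_append, q1, length_StC C k,
            ← openCount_StU C k A] at h2
          simpa [CONV_StC_append, CONV_StC_cons, lnC, hn, hnC] using h2
  | capL A D B n F T f hD h ih =>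
    by_cases hn : n = k
    · subst hn
      obtain ⟨s1, s2, s3⟩ := scan_at_ret C n A D B _ _ hD hs
      obtain ⟨-, q2, q3, q4, q5⟩ := scan_inv C n hk 2 2 (Or.inr rfl) D hD s2
      obtain ⟨e, he1, he2, hU, hC⟩ := ih hF
        (by
          rw [scan_append, s1, Option.bind_some, scan_append, q4 0 (Or.inl rfl), Option.bind_some]
          simp only [scan, stp, if_true, Option.bind_some]
          exact s3)
        (by
          rw [← hm]
          simp [List.flatMap_append, List.flatMap_cons, mkI])
      have q6 : (StU C n D).length = (flags C D).length := by rw [q3, List.length_replicate]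
      refine ⟨Gen.die (openCount (StU C n A ++ Sum.inr 1 :: StU C n D)) :: e, ?_, ?_, ?_, ?_⟩
      · simpa [Gen.isBorn] using he1
      · rw [List.countP_cons_of_pos (by simp [Gen.isDie]), he2]
        simp only [alive_append, alive, if_true]
        omega
      · have h1 := Add.acap₂ (StU C n A) (StU C n D ++ (StU C n B ++
          List.replicate (a + b) (Sum.inl false))) 0 e (f C ++ caps (a + b))
          (by simpa [CONV_StU_append, CONV_StU_cons, lnU] using hU)
        have h2 := arc_mvL false 0 (flags C D).length (StU C n A ++ [Sum.inr 1]) (StU C n B ++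
          List.replicate (a + b) (Sum.inl false)) _ _ (by rw [← q3]; simpa using h1)
        have h3 := Add.die (StU C n A ++ Sum.inr 1 :: StU C n D) _ _ _
          (by rw [q3]; simpa using h2)
        rw [← q2] at h3
        simp only [List.length_append, length_StU C n hk] at h3
        simpa [CONV_StU_append, CONV_StU_cons, lnU, hk, length_StU C n hk A] using h3
      · have h3 := Add.die (StC C n A ++ StC C n D) (StC C n B ++
          (List.replicate b (Sum.inl false) ++ Sum.inr 1 ::
          List.replicate a (Sum.inl false))) e (f (Function.update C n true) ++ caps (a + b + 1))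
          (by simpa [CONV_StC_append, CONV_StC_cons, lnC] using hC)
        rw [openCount_append, ← openCount_StU, ← openCount_StU] at h3
        have q7 : openCount (StU C n A ++ Sum.inr 1 :: StU C n D) =
            openCount (StU C n A) + openCount (StU C n D) := by
          rw [openCount_append]; rfl
        rw [q7]
        simpa [CONV_StC_append, CONV_StC_cons, lnC] using h3
    · have hsc : scan C k 0 (A ++ (D ++ MI.dead n :: B)) = some 3 := by
        rw [← hs, CONV_scan_neutral C k A _ _ (CONV_stp_ret C k · n hn)]
        have := CONV_scan_congr C k (A ++ D) B _ _ (fun t => CONV_stp_dead C k t n hn (gap O n) 0) 0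
        simpa using this.symm
      have hmk : (A ++ (D ++ MI.dead n :: B)).flatMap (mkI C k) =
          List.replicate a false ++ true :: List.replicate b false := by
        rw [← hm]
        simp [List.flatMap_append, List.flatMap_cons, mkI]
      obtain ⟨e, he1, he2, hU, hC⟩ := ih hF hsc hmk
      have hal : alive k (A ++ MI.ret n :: (D ++ MI.up (some n) (gap O n) 0 :: B)) =
          alive k (A ++ (D ++ MI.dead n :: B)) := by
        simp only [alive_append, alive, if_neg hn]
      obtain ⟨u1, u2, u3, u4⟩ := xU_facts C k hk D hD
      obtain ⟨c1, c2, c3, c4⟩ := xC_facts C k hk D hD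
      by_cases hnC : C n = true
      · refine ⟨e, he1, by rw [he2, hal], ?_, ?_⟩
        · simpa [CONV_StU_append, CONV_StU_cons, lnU, hn, hnC] using hU
        · simpa [CONV_StC_append, CONV_StC_cons, lnC, hn, hnC] using hC
      · refine ⟨mvL (openCount (StU C k A) + 1) (flags C D) ++
          Gen.cap (openCount (StU C k A)) :: e, ?_, ?_, ?_, ?_⟩
        · rw [List.countP_append, (CONV_countP_mvL _ _).1]
          simpa [Gen.isBorn] using he1
        · rw [List.countP_append, (CONV_countP_mvL _ _).2, hal, ← he2]
          simp [Gen.isDie]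
        · have h1 := Add.cap (StU C k A) (StU C k D ++ (StU C k B ++
            List.replicate (a + b) (Sum.inl false))) false e (f C ++ caps (a + b))
            (by simpa [CONV_StU_append, CONV_StU_cons, lnU, hn, hnC] using hU)
          have h2 := add_mvL false (StU C k A ++ [Sum.inl false]) (D.flatMap (xU C k))
            (StU C k B ++ List.replicate (a + b) (Sum.inl false)) _ _ u4
            (by rw [u1]; simpa using h1)
          rw [u1, u2, u3, openCount_append, List.length_append, length_StU C k hk] at h2
          simpa [CONV_StU_append, CONV_StU_cons, lnU, hn, hnC, openCount] using h2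
        · have h1 := Add.cap (StC C k A) (StC C k D ++ (StC C k B ++
            (List.replicate b (Sum.inl false) ++ Sum.inr 1 ::
              List.replicate a (Sum.inl false)))) false e
              (f (Function.update C k true) ++ caps (a + b + 1))
            (by simpa [CONV_StC_append, CONV_StC_cons, lnC, hn, hnC] using hC)
          have h2 := add_mvL false (StC C k A ++ [Sum.inl false]) (D.flatMap (xC C k))
            (StC C k B ++ (List.replicate b (Sum.inl false) ++ Sum.inr 1 ::
              List.replicate a (Sum.inl false))) _ _ c4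
            (by rw [c1]; simpa using h1)
          rw [c1, c2, c3, openCount_append, List.length_append, length_StC C k,
            ← openCount_StU] at h2
          simpa [CONV_StC_append, CONV_StC_cons, lnC, hn, hnC, openCount] using h2
  | dieS A B a' j F T f ha h ih =>
    obtain ⟨e, he1, he2, hU, hC⟩ := ih hF
      (by
        rw [← hs]
        exact CONV_scan_congr C k A B _ _
          (fun t => by rw [CONV_stp_none, CONV_stp_sdead]) 0)
      (by
        rw [← hm]
        simp only [List.flatMap_append, List.flatMap_cons, mkI])
    refine ⟨e, he1, ?_, ?_, ?_⟩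
    · rw [he2, alive_append, alive_append]; rfl
    · simpa [CONV_StU_append, CONV_StU_cons, lnU] using hU
    · simpa [CONV_StC_append, CONV_StC_cons, lnC] using hC
  | fr n ms F T f h ih =>
    obtain ⟨hnC, hnk⟩ := hF n List.mem_cons_self
    obtain ⟨e, he1, he2, hU, hC⟩ := ih (fun n' hn => hF n' (List.mem_cons_of_mem _ hn))
      (by
        rw [← hs]
        have h1 := CONV_scan_neutral C k [] (.ret n :: ms) (.up (some n) (gap O n) (fpc n))
          (CONV_stp_new C k · n hnk hnC _ _) 0
        have h2 := CONV_scan_neutral C k [] ms (.ret n) (CONV_stp_ret C k · n hnk) 0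
        exact h1.trans h2)
      (by
        rw [← hm]
        simp [List.flatMap_cons, mkI, hnk, hnC])
    refine ⟨Gen.cup 0 true :: e, ?_, ?_, ?_, ?_⟩
    · simpa [Gen.isBorn] using he1
    · rw [List.countP_cons_of_neg (by simp [Gen.isDie]), he2]
      simp [alive, hnk]
    · have h2 := Add.cup [] (StU C k ms ++ List.replicate (a + b) (Sum.inl false)) true e
        (f C ++ caps (a + b)) (by simpa [CONV_StU_cons, lnU, hnk, hnC] using hU)
      simpa [openCount] using h2
    · have h2 := Add.cup [] (StC C k ms ++ (List.replicate b (Sum.inl false) ++ Sum.inr 1 ::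
          List.replicate a (Sum.inl false))) true e
        (f (Function.update C k true) ++ caps (a + b + 1))
        (by simpa [CONV_StC_cons, lnC, hnk, hnC] using hC)
      simpa [openCount] using h2

end Pool.Agent.H53.SQ

end S_CONV
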