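import Mathlib
import Pool.Agent.H53.SQ.Defs
import Pool.Agent.H53.SQ.G1

/-! Part G2 of the proof for MP_41dcdb_gt: this file joins the modules BIRA, BIRB, CHN. -/

section S_BIRA

/-!
# Module BIRA: conversion of a circle whose return strand is on the right

Let `p = vl C A`, `k` the new circle, `N = p + 1 + vl C B` (number of strands before the birth). We
apply `Step.pass false e`: both words arise from one open word `e` by adding an under-arc for `k`.
Facts for a list `A` with `pres C A` (and `C k = false`, so no item is named `k`):
`StU C k A = StC C k A = replicate (vl C A) (inl true)`, `A.flatMap (mkI C k) = replicate (vl C A) false`,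
`scan C k 0 A = some 0`, `scan C k 3 A = some 3`, `alive k A = 0` (see `pres_facts`).
Apply `conv` to the frontier after the birth; it gives `e'` with `countP isBorn = 0`,
`countP isDie = 1`.

* `birR_post`: frontier `A, up x, up k, ret k, B`; `conv` with `a = p + 1`, `b = vl C B`.
  `e = cups N ++ (wd β ++ (born (p+1) :: cross p true :: e'))`.
  First word: `add_cups`, `add_wd`, then `Add.acup₁ .. 0` at position `p + 1` (strands `inr 2, inr 1`),
  `Add.born` (`inr 2` becomes `inl true`), `Add.cross` at position `p`; the state is then
  `StU C k ms ++ replicate N (inl false)`.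
  Second word: `add_cups_arc (p+1) (vl C B)`, `add_ins (p+1) (vl C B)`, `Add.born` (state
  `replicate (p+1) .. ++ inr 2 :: ..`), `Add.cross` at `p`; note `fw p [] 1 = [cross p true]`.
* `birR_jump`: frontier `A, up k, up none, ret k, B`; `conv` with `a = p`, `b = 1 + vl C B`.
  `e = cups N ++ (wd β ++ (born p :: e'))`.
  First word: `Add.acup₁ .. 0` at position `p + 1` (state `.. inl true, inr 2, inr 1 ..`), then
  `Add.left` at position `p` with sign `!false = true` (state `.. inr 2, inl true, inr 1 ..`), `Add.born`.
  Second word: `add_cups_arc p (1 + vl C B)`, `add_ins p (1 + vl C B)`, `Add.born`.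
-/

namespace Pool.Agent.H53.SQ

variable {V : Type} [DecidableEq V]

theorem bira_rep {α : Type*} (n : ℕ) (a : α) (l : List α) :
    a :: (List.replicate n a ++ l) = List.replicate n a ++ a :: l := by
  induction n with
  | zero => rfl
  | succ n ih => rw [List.replicate_succ, List.cons_append, ih, List.cons_append]

theorem bira_repS {α : Type*} (n : ℕ) (a : α) (l : List α) :
    List.replicate (n + 1) a ++ l = List.replicate n a ++ a :: l := by
  rw [List.replicate_succ, List.cons_append, bira_rep]

theorem bira_open (n : ℕ) : openCount (List.replicate n (Sum.inl true)) = n := by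
  induction n with
  | zero => rfl
  | succ n ih => rw [List.replicate_succ, openCount, ih]

theorem bira_lb {ov : Bool} {n : ℕ} {B : List (Bool ⊕ ℕ)} {e w : List Gen}
    (h : Add ov (List.replicate n (Sum.inl true) ++ Sum.inl true :: B) e w) :
    Add ov (List.replicate n (Sum.inl true) ++ Sum.inr 2 :: B) (Gen.born n :: e) w := by
  have := Add.born (List.replicate n (Sum.inl true)) B 1 e w h
  rw [bira_open] at this
  exact this

theorem bira_lc {ov : Bool} {n : ℕ} {B : List (Bool ⊕ ℕ)} {s : Bool} {e w : List Gen}
    (h : Add ov (List.replicate n (Sum.inl true) ++ Sum.inl true :: Sum.inl true :: B) e w) :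
    Add ov (List.replicate n (Sum.inl true) ++ Sum.inl true :: Sum.inl true :: B)
      (Gen.cross n s :: e) (Gen.cross n s :: w) := by
  have := Add.cross (List.replicate n (Sum.inl true)) B s e w h
  rw [bira_open, List.length_replicate] at this
  exact this

theorem bira_step {N : ℕ} (β : List Ltr) (g e' : List Gen) (w w' : List Gen)
    (hg : g.countP Gen.isBorn = 1) (hgd : g.countP Gen.isDie = 0)
    (hb : e'.countP Gen.isBorn = 0) (hd : e'.countP Gen.isDie = 1)
    (h1 : Add false [] (cups N ++ (wd β ++ (g ++ e'))) w)
    (h2 : Add false [] (cups N ++ (wd β ++ (g ++ e'))) w') : Step w w' := by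
  refine Step.pass false _ w w' ?_ ?_ h1 h2
  · simp only [List.countP_append, (countP_cups N).1, (countP_wd β).1, hg, hb]
  · simp only [List.countP_append, (countP_cups N).2, (countP_wd β).2, hgd, hd]

theorem pres_facts {L : ℕ} (C : Nm V L → Bool) (k : Nm V L) (hk : C k = false)
    (A : List (MI V L)) (hA : pres C A) :
    StU C k A = List.replicate (vl C A) (Sum.inl true) ∧
    StC C k A = List.replicate (vl C A) (Sum.inl true) ∧
    A.flatMap (mkI C k) = List.replicate (vl C A) false ∧
    scan C k 0 A = some 0 ∧ scan C k 3 A = some 3 ∧ alive k A = 0 := by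
  induction A with
  | nil => exact ⟨rfl, rfl, rfl, rfl, rfl, rfl⟩
  | cons a A ih =>
    obtain ⟨h1, h2, h3, h4, h5, h6⟩ := ih (fun m hm => hA m (List.mem_cons_of_mem _ hm))
    have ha : ∀ n, a.nm = some n → C n = true ∧ n ≠ k := by
      intro n hn
      have h := hA a List.mem_cons_self n hn
      refine ⟨h, fun hnk => ?_⟩
      rw [hnk, hk] at h
      exact absurd h (by simp)
    have hvl : vl C (a :: A) = vis C a + vl C A := by simp [vl]
    have h1' : StU C k (a :: A) = lnU C k a ++ StU C k A := by simp [StU]
    have h2' : StC C k (a :: A) = lnC C k a ++ StC C k A := by simp [StC]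
    rw [hvl, h1', h2', List.flatMap_cons, h1, h2, h3, List.replicate_add, List.replicate_add]
    have key : lnU C k a = List.replicate (vis C a) (Sum.inl true) ∧
        lnC C k a = List.replicate (vis C a) (Sum.inl true) ∧
        mkI C k a = List.replicate (vis C a) false ∧ stp C k 0 a = some 0 ∧ stp C k 3 a = some 3 := by
      cases a with
      | up n x j =>
        cases n with
        | none => exact ⟨rfl, rfl, rfl, rfl, rfl⟩
        | some n =>
          obtain ⟨c1, c2⟩ := ha n rfl
          refine ⟨rfl, rfl, ?_, ?_, ?_⟩ <;> simp [mkI, stp, vis, c1, c2]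
      | ret n =>
        obtain ⟨c1, c2⟩ := ha n rfl
        refine ⟨?_, ?_, ?_, ?_, ?_⟩ <;> simp [lnU, lnC, mkI, stp, vis, c1, c2]
      | dead n =>
        obtain ⟨c1, c2⟩ := ha n rfl
        refine ⟨?_, ?_, ?_, ?_, ?_⟩ <;> simp [lnU, lnC, mkI, stp, vis, c1, c2]
      | sdead => exact ⟨rfl, rfl, rfl, rfl, rfl⟩
    obtain ⟨k1, k2, k3, k4, k5⟩ := key
    refine ⟨by rw [k1], by rw [k2], by rw [k3], ?_, ?_, ?_⟩
    · rw [scan, k4]; exact h4
    · rw [scan, k5]; exact h5
    · cases a with
      | up n x j =>
        cases n with
        | none => exact h6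
        | some n =>
          obtain ⟨_, c2⟩ := ha n rfl
          simp only [alive, if_neg c2]
          exact h6
      | ret n => exact h6
      | dead n => exact h6
      | sdead => exact h6

theorem bira_StU {L : ℕ} (C : Nm V L → Bool) (k : Nm V L) (A : List (MI V L)) (m : MI V L)
    (B : List (MI V L)) : StU C k (A ++ m :: B) = StU C k A ++ (lnU C k m ++ StU C k B) := by
  simp [StU]

theorem bira_StC {L : ℕ} (C : Nm V L → Bool) (k : Nm V L) (A : List (MI V L)) (m : MI V L)
    (B : List (MI V L)) : StC C k (A ++ m :: B) = StC C k A ++ (lnC C k m ++ StC C k B) := by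
  simp [StC]

theorem bira_StUc {L : ℕ} (C : Nm V L → Bool) (k : Nm V L) (m : MI V L)
    (B : List (MI V L)) : StU C k (m :: B) = lnU C k m ++ StU C k B := by
  simp [StU]

theorem bira_StCc {L : ℕ} (C : Nm V L → Bool) (k : Nm V L) (m : MI V L)
    (B : List (MI V L)) : StC C k (m :: B) = lnC C k m ++ StC C k B := by
  simp [StC]

theorem birR_post {O : Code V} (A B : List (MI V O.loops)) (x : Option (Nm V O.loops)) (v : V)
    (F : List (Nm V O.loops)) (T : List (Tok V O.loops)) (f : (Nm V O.loops → Bool) → List Gen)
    (h : MW O (A ++ MI.up x (Sum.inl (some (v, false))) 0 ::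
      MI.up (some (Sum.inl (v, true))) (Sum.inl (some (v, true))) 0 ::
        MI.ret (Sum.inl (v, true)) :: B) F T f)
    (C : Nm V O.loops → Bool) (hC : C (Sum.inl (v, true)) = false)
    (hF : ∀ n ∈ F, C n = false ∧ n ≠ Sum.inl (v, true)) (hA : pres C A) (hB : pres C B)
    (hx : ∀ n, x = some n → C n = true) (β : List Ltr)
    (hβ : ∀ l ∈ β, l.1 + l.2.1.length + 1 < vl C A + 1 + vl C B) :
    Step (clo (vl C A + 1 + vl C B)
        (wd β ++ (Gen.cup (vl C A + 1) true :: Gen.cross (vl C A) true :: f C)))
      (clo (vl C A + 1 + vl C B + 1) (wd (β.map (insL (vl C A + 1))) ++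
        (fw (vl C A) [] 1 ++ f (Function.update C (Sum.inl (v, true)) true)))) := by
  set k : Nm V O.loops := Sum.inl (v, true) with hk
  obtain ⟨a1, a2, a3, a4, a5, a6⟩ := pres_facts C k hC A hA
  obtain ⟨b1, b2, b3, b4, b5, b6⟩ := pres_facts C k hC B hB
  have hxk : ∀ n, x = some n → n ≠ k := by
    intro n hn hnk
    have := hx n hn
    rw [hnk, hC] at this
    exact absurd this (by simp)
  have hxm : mkI C k (MI.up x (Sum.inl (some (v, false))) 0) = [false] := by
    cases x with
    | none => rfl
    | some n => simp [mkI, hx n rfl, hxk n rfl]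
  have hxs : stp C k 0 (MI.up x (Sum.inl (some (v, false))) 0) = some 0 := by
    cases x with
    | none => rfl
    | some n => simp [stp, hxk n rfl]
  have hxa : ∀ l, alive k (MI.up x (Sum.inl (some (v, false))) 0 :: l) = alive k l := by
    intro l
    cases x with
    | none => rfl
    | some n => simp [alive, hxk n rfl]
  have s1 : ∀ y j, stp C k 0 (MI.up (some k) y j) = some 1 := by intro y j; simp [stp]
  have s2 : stp C k 1 (MI.ret k) = some 3 := by simp [stp]
  obtain ⟨e', e1, e2, e3, e4⟩ := conv h C k hC hF (by
      rw [scan_append, a4]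
      simp only [scan, hxs, s1, s2, b5, Option.bind_some]) (vl C A + 1) (vl C B) (by
      rw [List.flatMap_append, List.flatMap_cons, List.flatMap_cons, List.flatMap_cons, a3, b3, hxm,
        bira_repS]
      simp [mkI])
  have hal : alive k (A ++ MI.up x (Sum.inl (some (v, false))) 0 ::
      MI.up (some k) (Sum.inl (some (v, true))) 0 :: MI.ret k :: B) = 1 := by
    rw [alive_append, a6, hxa]
    have : ∀ y j l, alive k (MI.up (some k) y j :: MI.ret k :: l) = alive k l + 1 := by
      intro y j l; simp [alive]
    rw [this, b6]
  rw [hal] at e2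
  refine bira_step (N := vl C A + 1 + vl C B) β [Gen.born (vl C A + 1), Gen.cross (vl C A) true] e'
    _ _ rfl rfl e1 e2 ?_ ?_
  · have hw : clo (vl C A + 1 + vl C B)
        (wd β ++ (Gen.cup (vl C A + 1) true :: Gen.cross (vl C A) true :: f C)) =
        cups (vl C A + 1 + vl C B) ++ (wd β ++ (Gen.cup (vl C A + 1) true ::
          Gen.cross (vl C A) true :: (f C ++ caps (vl C A + 1 + vl C B)))) := by
      simp [clo]
    rw [hw]
    apply add_cups
    apply add_wd false _ β hβ
    have hs : List.replicate (vl C A + 1 + vl C B) (Sum.inl true : Bool ⊕ ℕ) =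
        List.replicate (vl C A + 1) (Sum.inl true) ++ List.replicate (vl C B) (Sum.inl true) :=
      List.replicate_add ..
    rw [hs, List.append_assoc]
    have hc := Add.acup₁ (ov := false) (List.replicate (vl C A + 1) (Sum.inl true))
      (List.replicate (vl C B) (Sum.inl true) ++
        List.replicate (vl C A + 1 + vl C B) (Sum.inl false)) 0
      ([Gen.born (vl C A + 1), Gen.cross (vl C A) true] ++ e')
      (Gen.cross (vl C A) true :: (f C ++ caps (vl C A + 1 + vl C B))) ?_
    · rw [List.length_replicate] at hc
      exact hc
    · refine bira_lb ?_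
      rw [bira_repS]
      refine bira_lc ?_
      rw [bira_StU, bira_StUc, bira_StUc, a1, b1] at e3
      simpa [lnU, hk] using e3
  · have hw : clo (vl C A + 1 + vl C B + 1) (wd (β.map (insL (vl C A + 1))) ++
        (fw (vl C A) [] 1 ++ f (Function.update C k true))) =
        cups (vl C A + 1 + vl C B + 1) ++ (wd (β.map (insL (vl C A + 1))) ++
          (Gen.cross (vl C A) true :: (f (Function.update C k true) ++
            caps (vl C A + 1 + vl C B + 1)))) := by
      simp [clo, fw]
    rw [hw]
    apply add_cups_arc
    apply add_ins _ _ β hβ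
    refine bira_lb ?_
    rw [bira_repS]
    refine bira_lc ?_
    rw [bira_StC, bira_StCc, bira_StCc, a2, b2] at e4
    simpa [lnC, hk] using e4

theorem birR_jump {O : Code V} (A B : List (MI V O.loops)) (v : V)
    (F : List (Nm V O.loops)) (T : List (Tok V O.loops)) (f : (Nm V O.loops → Bool) → List Gen)
    (h : MW O (A ++ MI.up (some (Sum.inl (v, true))) (Sum.inl (some (v, false))) 0 ::
      MI.up none (Sum.inl (some (v, true))) 0 :: MI.ret (Sum.inl (v, true)) :: B) F T f)
    (C : Nm V O.loops → Bool) (hC : C (Sum.inl (v, true)) = false)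
    (hF : ∀ n ∈ F, C n = false ∧ n ≠ Sum.inl (v, true)) (hA : pres C A) (hB : pres C B)
    (β : List Ltr) (hβ : ∀ l ∈ β, l.1 + l.2.1.length + 1 < vl C A + 1 + vl C B) :
    Step (clo (vl C A + 1 + vl C B)
        (wd β ++ (Gen.cup (vl C A + 1) true :: Gen.cross (vl C A) true :: f C)))
      (clo (vl C A + 1 + vl C B + 1) (wd (β.map (insL (vl C A))) ++
        f (Function.update C (Sum.inl (v, true)) true))) := by
  set k : Nm V O.loops := Sum.inl (v, true) with hk
  obtain ⟨a1, a2, a3, a4, a5, a6⟩ := pres_facts C k hC A hA
  obtain ⟨b1, b2, b3, b4, b5, b6⟩ := pres_facts C k hC B hB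
  have hN : vl C A + (1 + vl C B) = vl C A + 1 + vl C B := by omega
  have hrep : ∀ (y : Bool), List.replicate (1 + vl C B) (Sum.inl y : Bool ⊕ ℕ) =
      Sum.inl y :: List.replicate (vl C B) (Sum.inl y) := by
    intro y
    rw [Nat.add_comm, List.replicate_succ]
  have s1 : ∀ y j, stp C k 0 (MI.up (some k) y j) = some 1 := by intro y j; simp [stp]
  have s2 : stp C k 1 (MI.ret k) = some 3 := by simp [stp]
  have s3 : ∀ y j, stp C k 1 (MI.up none y j) = some 1 := fun _ _ => rfl
  obtain ⟨e', e1, e2, e3, e4⟩ := conv h C k hC hF (by
      rw [scan_append, a4]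
      simp only [scan, s1, s2, s3, b5, Option.bind_some]) (vl C A) (1 + vl C B) (by
      rw [List.flatMap_append, List.flatMap_cons, List.flatMap_cons, List.flatMap_cons, a3, b3]
      rw [Nat.add_comm 1, List.replicate_succ]
      simp [mkI])
  have hal : alive k (A ++ MI.up (some k) (Sum.inl (some (v, false))) 0 ::
      MI.up none (Sum.inl (some (v, true))) 0 :: MI.ret k :: B) = 1 := by
    rw [alive_append, a6]
    have : ∀ y j y' j' l, alive k (MI.up (some k) y j :: MI.up none y' j' :: MI.ret k :: l) =
        alive k l + 1 := by
      intro y j y' j' l; simp [alive]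
    rw [this, b6]
  rw [hal] at e2
  rw [hN] at e3 e4
  refine bira_step (N := vl C A + 1 + vl C B) β [Gen.born (vl C A)] e'
    _ _ rfl rfl e1 e2 ?_ ?_
  · have hw : clo (vl C A + 1 + vl C B)
        (wd β ++ (Gen.cup (vl C A + 1) true :: Gen.cross (vl C A) true :: f C)) =
        cups (vl C A + 1 + vl C B) ++ (wd β ++ (Gen.cup (vl C A + 1) true ::
          Gen.cross (vl C A) true :: (f C ++ caps (vl C A + 1 + vl C B)))) := by
      simp [clo]
    rw [hw]
    apply add_cups
    apply add_wd false _ β hβ
    have hs : List.replicate (vl C A + 1 + vl C B) (Sum.inl true : Bool ⊕ ℕ) =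
        List.replicate (vl C A + 1) (Sum.inl true) ++ List.replicate (vl C B) (Sum.inl true) :=
      List.replicate_add ..
    rw [hs, List.append_assoc]
    have hc := Add.acup₁ (ov := false) (List.replicate (vl C A + 1) (Sum.inl true))
      (List.replicate (vl C B) (Sum.inl true) ++
        List.replicate (vl C A + 1 + vl C B) (Sum.inl false)) 0
      ([Gen.born (vl C A)] ++ e')
      (Gen.cross (vl C A) true :: (f C ++ caps (vl C A + 1 + vl C B))) ?_
    · rw [List.length_replicate] at hc
      exact hc
    · rw [bira_repS]
      have hl := Add.left (ov := false) (List.replicate (vl C A) (Sum.inl true))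
        (Sum.inr 1 :: (List.replicate (vl C B) (Sum.inl true) ++
          List.replicate (vl C A + 1 + vl C B) (Sum.inl false))) 1
        ([Gen.born (vl C A)] ++ e') (f C ++ caps (vl C A + 1 + vl C B)) ?_
      · rw [List.length_replicate] at hl
        exact hl
      · refine bira_lb ?_
        rw [bira_StU, bira_StUc, bira_StUc, a1, b1] at e3
        simpa [lnU, hk] using e3
  · have hw : clo (vl C A + 1 + vl C B + 1) (wd (β.map (insL (vl C A))) ++
        f (Function.update C k true)) =
        cups (vl C A + 1 + vl C B + 1) ++ (wd (β.map (insL (vl C A))) ++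
          (f (Function.update C k true) ++ caps (vl C A + 1 + vl C B + 1))) := by
      simp [clo]
    rw [hw, ← hN]
    apply add_cups_arc
    apply add_ins _ _ β (by rw [hN]; exact hβ)
    refine bira_lb ?_
    rw [hN]
    rw [bira_StC, bira_StCc, bira_StCc, a2, b2] at e4
    simpa [lnC, hk, hrep] using e4

end Pool.Agent.H53.SQ

end S_BIRA

section S_BIRB

/-!
# Module BIRB: conversion of a circle whose return strand is on the left, and of a root circle

Let `p = vl C A`, `k` the new circle, `N = p + 1 + vl C B` (number of strands before the birth). We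
apply `Step.pass false e`: both words arise from one open word `e` by adding an under-arc for `k`.
Facts for a list `A` with `pres C A` (and `C k = false`, so no item is named `k`):
`StU C k A = StC C k A = replicate (vl C A) (inl true)`, `A.flatMap (mkI C k) = replicate (vl C A) false`,
`scan C k 0 A = some 0`, `scan C k 3 A = some 3`, `alive k A = 0` (see `pres_facts`).
Apply `conv` to the frontier after the birth; it gives `e'` with `countP isBorn = 0`,
`countP isDie = 1`.

* `birL_post`: frontier `A, ret k, up k, up x, B`; `conv` with `a = p`, `b = 1 + vl C B`.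
  `e = cups N ++ (wd β ++ (born p :: cross p true :: e'))`.
  First word: `Add.acup₂ .. 0` at position `p` (strands `inr 1, inr 2`), `Add.born`, `Add.cross` (position
  `p + 1` in the word, `p` in `e`). Second word: `add_cups_arc p (1 + vl C B)`,
  `add_ins p (1 + vl C B)`, `Add.born`, `Add.cross` at `p`.
* `birL_jump`: frontier `A, ret k, up none, up k, B`; `conv` with `a = p + 1`, `b = vl C B`.
  `e = cups N ++ (wd β ++ (born p :: cross p true :: e'))`.
  First word: as in `birL_post`. Second word: `add_cups_arc (p+1) (vl C B)`,
  `add_ins (p+1) (vl C B)`, `Add.left` at `p` (sign `true`; state `.. inr 2, inl true ..`), `Add.born`,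
  `Add.cross` at `p`; note `fw p [] 2 = [cross p true, cross p true]`.
* `bir_fr`: frontier `up k, ret k, ms`; `conv` with `a = 0`, `b = vl C ms`;
  `e = cups (vl C ms) ++ (wd β ++ (born 0 :: e'))`; first word: `Add.acup₁ [] _ 0`, `Add.born`;
  second word: `add_cups_arc 0 (vl C ms)`, `add_ins 0 (vl C ms)`, `Add.born`.
-/

namespace Pool.Agent.H53.SQ

variable {V : Type} [DecidableEq V]

theorem BIRB_rep {α : Type} (p q : ℕ) (x : α) (R : List α) :
    List.replicate p x ++ x :: (List.replicate q x ++ R) = List.replicate (p + 1 + q) x ++ R := by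
  rw [List.replicate_add, List.replicate_add]
  simp

theorem BIRB_first (p q N : ℕ) (hN : N = p + 1 + q) (β : List Ltr)
    (hβ : ∀ l ∈ β, l.1 + l.2.1.length + 1 < N) (e' w' : List Gen)
    (h : Add false (List.replicate p (Sum.inl true) ++ (Sum.inr 1 :: Sum.inl true :: Sum.inl true ::
      (List.replicate q (Sum.inl true) ++ List.replicate N (Sum.inl false)))) e' w') :
    Add false [] (cups N ++ (wd β ++ (Gen.born p :: Gen.cross p true :: e')))
      (cups N ++ (wd β ++ (Gen.cup p false :: Gen.cross (p + 1) true :: w'))) := by
  have h1 := Add.cross (ov := false) (List.replicate p (Sum.inl true) ++ [Sum.inr 1])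
    (List.replicate q (Sum.inl true) ++ List.replicate N (Sum.inl false)) true e' w' (by simpa using h)
  have h2 := Add.born (ov := false) (List.replicate p (Sum.inl true) ++ [Sum.inr 1])
    (Sum.inl true :: (List.replicate q (Sum.inl true) ++ List.replicate N (Sum.inl false))) 1 _ _ h1
  have h3 := Add.acup₂ (ov := false) (List.replicate p (Sum.inl true))
    (Sum.inl true :: (List.replicate q (Sum.inl true) ++ List.replicate N (Sum.inl false))) 0 _ _
    (by simpa using h2)
  have hoc : ∀ n : ℕ, openCount (List.replicate n (Sum.inl true)) = n := by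
    intro n
    induction n with
    | zero => rfl
    | succ n ih => rw [List.replicate_succ, openCount, ih]
  have hoc1 : openCount (List.replicate p (Sum.inl true) ++ [Sum.inr 1]) = p := by
    rw [openCount_append, hoc]; rfl
  rw [BIRB_rep, ← hN] at h3
  have h4 := add_wd false N β hβ _ _ _ h3
  have h5 := add_cups false N _ _ h4
  simpa [hoc1, hoc] using h5

theorem BIRB_openCount_replicate (n : ℕ) : openCount (List.replicate n (Sum.inl true)) = n := by
  induction n with
  | zero => rfl
  | succ n ih => rw [List.replicate_succ, openCount, ih]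

theorem birL_post {O : Code V} (A B : List (MI V O.loops)) (x : Option (Nm V O.loops)) (v : V)
    (F : List (Nm V O.loops)) (T : List (Tok V O.loops)) (f : (Nm V O.loops → Bool) → List Gen)
    (h : MW O (A ++ MI.ret (Sum.inl (v, false)) ::
      MI.up (some (Sum.inl (v, false))) (Sum.inl (some (v, false))) 0 ::
        MI.up x (Sum.inl (some (v, true))) 0 :: B) F T f)
    (C : Nm V O.loops → Bool) (hC : C (Sum.inl (v, false)) = false)
    (hF : ∀ n ∈ F, C n = false ∧ n ≠ Sum.inl (v, false)) (hA : pres C A) (hB : pres C B)
    (hx : ∀ n, x = some n → C n = true) (β : List Ltr)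
    (hβ : ∀ l ∈ β, l.1 + l.2.1.length + 1 < vl C A + 1 + vl C B) :
    Step (clo (vl C A + 1 + vl C B)
        (wd β ++ (Gen.cup (vl C A) false :: Gen.cross (vl C A + 1) true :: f C)))
      (clo (vl C A + 1 + vl C B + 1) (wd (β.map (insL (vl C A))) ++
        (fw (vl C A) [] 1 ++ f (Function.update C (Sum.inl (v, false)) true)))) := by
  obtain ⟨a1, a2, a3, a4, a5, a6⟩ := pres_facts C (Sum.inl (v, false)) hC A hA
  obtain ⟨b1, b2, b3, b4, b5, b6⟩ := pres_facts C (Sum.inl (v, false)) hC B hB
  set k : Nm V O.loops := Sum.inl (v, false) with hk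
  set p := vl C A with hp
  set q := vl C B with hq
  have hxs : stp C k 3 (MI.up x (Sum.inl (some (v, true))) 0) = some 3 := by
    rcases x with _ | n
    · rfl
    · have hn : n ≠ k := by
        rintro rfl
        rw [hx _ rfl] at hC
        exact absurd hC (by simp)
      simp [stp, hn]
  have hxm : mkI C k (MI.up x (Sum.inl (some (v, true))) 0) = [false] := by
    rcases x with _ | n
    · rfl
    · have hn : n ≠ k := by
        rintro rfl
        rw [hx _ rfl] at hC
        exact absurd hC (by simp)
      simp [mkI, hn, hx n rfl]
  have hxa : alive k (MI.up x (Sum.inl (some (v, true))) 0 :: B) = 0 := by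
    rcases x with _ | n
    · simpa [alive] using b6
    · have hn : n ≠ k := by
        rintro rfl
        rw [hx _ rfl] at hC
        exact absurd hC (by simp)
      simpa [alive, hn] using b6
  obtain ⟨e', he1, he2, hU, hCc⟩ := conv h C k hC hF (by
      rw [scan_append, a4]
      simp only [Option.bind_some, scan]
      have h1 : stp C k 0 (MI.ret k) = some 2 := by simp [stp]
      have h2 : stp C k 2 (MI.up (some k) (Sum.inl (some (v, false))) 0) = some 3 := by simp [stp]
      rw [h1]
      simp only [Option.bind_some]
      rw [h2]
      simp only [Option.bind_some]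
      rw [hxs]
      simp only [Option.bind_some]
      exact b5) p (1 + q) (by
      rw [List.flatMap_append, a3, List.flatMap_cons, List.flatMap_cons, List.flatMap_cons, hxm, b3]
      simp [mkI, Nat.add_comm 1 q, List.replicate_succ])
  have hU' : StU C k (A ++ MI.ret k :: MI.up (some k) (Sum.inl (some (v, false))) 0 ::
        MI.up x (Sum.inl (some (v, true))) 0 :: B) =
      List.replicate p (Sum.inl true) ++ (Sum.inr 1 :: Sum.inl true :: Sum.inl true ::
        List.replicate q (Sum.inl true)) := by
    unfold StU at a1 b1 ⊢
    rw [List.flatMap_append, a1, List.flatMap_cons, List.flatMap_cons, List.flatMap_cons, b1]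
    simp [lnU]
  have hC' : StC C k (A ++ MI.ret k :: MI.up (some k) (Sum.inl (some (v, false))) 0 ::
        MI.up x (Sum.inl (some (v, true))) 0 :: B) =
      List.replicate p (Sum.inl true) ++ (Sum.inl true :: Sum.inl true ::
        List.replicate q (Sum.inl true)) := by
    unfold StC at a2 b2 ⊢
    rw [List.flatMap_append, a2, List.flatMap_cons, List.flatMap_cons, List.flatMap_cons, b2]
    simp [lnC]
  rw [hU'] at hU
  rw [hC'] at hCc
  have hN : p + (1 + q) = p + 1 + q := by omega
  rw [hN] at hU hCc
  have hfirst := BIRB_first p q (p + 1 + q) rfl β hβ e' (f C ++ caps (p + 1 + q))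
    (by simpa using hU)
  -- second word
  have s1 := Add.cross (ov := false) (List.replicate p (Sum.inl true))
    (List.replicate q (Sum.inl true) ++
      (List.replicate (1 + q) (Sum.inl false) ++ Sum.inr 1 :: List.replicate p (Sum.inl false))) true e'
      (f (Function.update C k true) ++ caps (p + 1 + q + 1)) (by simpa using hCc)
  have s2 := Add.born (ov := false) (List.replicate p (Sum.inl true)) _ 1 _ _ s1
  have s3 := add_ins p (1 + q) β (fun l hl => by have := hβ l hl; omega)
    (List.replicate (1 + q) (Sum.inl false) ++ Sum.inr 1 :: List.replicate p (Sum.inl false)) _ _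
    (by simpa [Nat.add_comm 1 q, List.replicate_succ] using s2)
  have s4 := add_cups_arc false p (1 + q) _ _ s3
  rw [hN] at s4
  refine Step.pass false (cups (p + 1 + q) ++ (wd β ++ (Gen.born p :: Gen.cross p true :: e'))) _ _ ?_ ?_ ?_ ?_
  · simp [List.countP_append, List.countP_cons, Gen.isBorn, he1, (countP_cups _).1, (countP_wd _).1]
  · have : alive k (A ++ MI.ret k :: MI.up (some k) (Sum.inl (some (v, false))) 0 ::
        MI.up x (Sum.inl (some (v, true))) 0 :: B) = 1 := by
      rw [alive_append, a6]
      simp [alive, hxa]
    simp [List.countP_append, Gen.isDie, he2, (countP_cups _).2, (countP_wd _).2, this]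
  · simpa [clo] using hfirst
  · simpa [clo, fw, BIRB_openCount_replicate, List.replicate_succ] using s4

theorem birL_jump {O : Code V} (A B : List (MI V O.loops)) (v : V)
    (F : List (Nm V O.loops)) (T : List (Tok V O.loops)) (f : (Nm V O.loops → Bool) → List Gen)
    (h : MW O (A ++ MI.ret (Sum.inl (v, false)) :: MI.up none (Sum.inl (some (v, false))) 0 ::
      MI.up (some (Sum.inl (v, false))) (Sum.inl (some (v, true))) 0 :: B) F T f)
    (C : Nm V O.loops → Bool) (hC : C (Sum.inl (v, false)) = false)
    (hF : ∀ n ∈ F, C n = false ∧ n ≠ Sum.inl (v, false)) (hA : pres C A) (hB : pres C B)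
    (β : List Ltr) (hβ : ∀ l ∈ β, l.1 + l.2.1.length + 1 < vl C A + 1 + vl C B) :
    Step (clo (vl C A + 1 + vl C B)
        (wd β ++ (Gen.cup (vl C A) false :: Gen.cross (vl C A + 1) true :: f C)))
      (clo (vl C A + 1 + vl C B + 1) (wd (β.map (insL (vl C A + 1))) ++
        (fw (vl C A) [] 2 ++ f (Function.update C (Sum.inl (v, false)) true)))) := by
  obtain ⟨a1, a2, a3, a4, a5, a6⟩ := pres_facts C (Sum.inl (v, false)) hC A hA
  obtain ⟨b1, b2, b3, b4, b5, b6⟩ := pres_facts C (Sum.inl (v, false)) hC B hB
  set k : Nm V O.loops := Sum.inl (v, false) with hk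
  set p := vl C A with hp
  set q := vl C B with hq
  obtain ⟨e', he1, he2, hU, hCc⟩ := conv h C k hC hF (by
      rw [scan_append, a4]
      simp only [Option.bind_some, scan]
      have h1 : stp C k 0 (MI.ret k) = some 2 := by simp [stp]
      have h2 : stp C k 2 (MI.up none (Sum.inl (some (v, false))) 0) = some 2 := by simp [stp]
      have h3 : stp C k 2 (MI.up (some k) (Sum.inl (some (v, true))) 0) = some 3 := by simp [stp]
      rw [h1]
      simp only [Option.bind_some]
      rw [h2]
      simp only [Option.bind_some]
      rw [h3]
      simp only [Option.bind_some]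
      exact b5) (p + 1) q (by
      rw [List.flatMap_append, a3, List.flatMap_cons, List.flatMap_cons, List.flatMap_cons, b3]
      simp [mkI, List.replicate_add])
  have hU' : StU C k (A ++ MI.ret k :: MI.up none (Sum.inl (some (v, false))) 0 ::
        MI.up (some k) (Sum.inl (some (v, true))) 0 :: B) =
      List.replicate p (Sum.inl true) ++ (Sum.inr 1 :: Sum.inl true :: Sum.inl true ::
        List.replicate q (Sum.inl true)) := by
    unfold StU at a1 b1 ⊢
    rw [List.flatMap_append, a1, List.flatMap_cons, List.flatMap_cons, List.flatMap_cons, b1]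
    simp [lnU]
  have hC' : StC C k (A ++ MI.ret k :: MI.up none (Sum.inl (some (v, false))) 0 ::
        MI.up (some k) (Sum.inl (some (v, true))) 0 :: B) =
      List.replicate p (Sum.inl true) ++ (Sum.inl true :: Sum.inl true ::
        List.replicate q (Sum.inl true)) := by
    unfold StC at a2 b2 ⊢
    rw [List.flatMap_append, a2, List.flatMap_cons, List.flatMap_cons, List.flatMap_cons, b2]
    simp [lnC]
  rw [hU'] at hU
  rw [hC'] at hCc
  have hfirst := BIRB_first p q (p + 1 + q) rfl β hβ e' (f C ++ caps (p + 1 + q))
    (by simpa using hU)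
  -- second word
  have s1 := Add.cross (ov := false) (List.replicate p (Sum.inl true))
    (List.replicate q (Sum.inl true) ++
      (List.replicate q (Sum.inl false) ++ Sum.inr 1 :: List.replicate (p + 1) (Sum.inl false))) true e'
      (f (Function.update C k true) ++ caps (p + 1 + q + 1)) (by simpa using hCc)
  have s2 := Add.born (ov := false) (List.replicate p (Sum.inl true)) _ 1 _ _ s1
  have s2' := Add.left (ov := false) (List.replicate p (Sum.inl true)) _ 1 _ _ s2
  have s3 := add_ins (p + 1) q β (fun l hl => by have := hβ l hl; omega)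
    (List.replicate q (Sum.inl false) ++ Sum.inr 1 :: List.replicate (p + 1) (Sum.inl false)) _ _
    (by simpa [List.replicate_add] using s2')
  have s4 := add_cups_arc false (p + 1) q _ _ s3
  refine Step.pass false (cups (p + 1 + q) ++ (wd β ++ (Gen.born p :: Gen.cross p true :: e'))) _ _ ?_ ?_ ?_ ?_
  · simp [List.countP_append, List.countP_cons, Gen.isBorn, he1, (countP_cups _).1, (countP_wd _).1]
  · have : alive k (A ++ MI.ret k :: MI.up none (Sum.inl (some (v, false))) 0 ::
        MI.up (some k) (Sum.inl (some (v, true))) 0 :: B) = 1 := by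
      rw [alive_append, a6]
      simp [alive, b6]
    simp [List.countP_append, Gen.isDie, he2, (countP_cups _).2, (countP_wd _).2, this]
  · simpa [clo] using hfirst
  · simpa [clo, fw, BIRB_openCount_replicate, List.replicate_succ] using s4

theorem bir_fr {O : Code V} (ms : List (MI V O.loops)) (n : Nm V O.loops)
    (F : List (Nm V O.loops)) (T : List (Tok V O.loops)) (f : (Nm V O.loops → Bool) → List Gen)
    (h : MW O (MI.up (some n) (gap O n) (fpc n) :: MI.ret n :: ms) F T f)
    (C : Nm V O.loops → Bool) (hC : C n = false) (hF : ∀ n' ∈ F, C n' = false ∧ n' ≠ n)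
    (hms : pres C ms) (β : List Ltr) (hβ : ∀ l ∈ β, l.1 + l.2.1.length + 1 < vl C ms) :
    Step (clo (vl C ms) (wd β ++ (Gen.cup 0 true :: f C)))
      (clo (vl C ms + 1) (wd (β.map (insL 0)) ++ f (Function.update C n true))) := by
  obtain ⟨b1, b2, b3, b4, b5, b6⟩ := pres_facts C n hC ms hms
  set q := vl C ms with hq
  obtain ⟨e', he1, he2, hU, hCc⟩ := conv h C n hC hF (by
      simp only [scan]
      have h1 : stp C n 0 (MI.up (some n) (gap O n) (fpc n)) = some 1 := by simp [stp]
      have h2 : stp C n 1 (MI.ret n) = some 3 := by simp [stp]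
      rw [h1]
      simp only [Option.bind_some]
      rw [h2]
      simp only [Option.bind_some]
      exact b5) 0 q (by
      rw [List.flatMap_cons, List.flatMap_cons, b3]
      simp [mkI])
  have hU' : StU C n (MI.up (some n) (gap O n) (fpc n) :: MI.ret n :: ms) =
      Sum.inl true :: Sum.inr 1 :: List.replicate q (Sum.inl true) := by
    unfold StU at b1 ⊢
    rw [List.flatMap_cons, List.flatMap_cons, b1]
    simp [lnU]
  have hC' : StC C n (MI.up (some n) (gap O n) (fpc n) :: MI.ret n :: ms) =
      Sum.inl true :: List.replicate q (Sum.inl true) := by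
    unfold StC at b2 ⊢
    rw [List.flatMap_cons, List.flatMap_cons, b2]
    simp [lnC]
  rw [hU'] at hU
  rw [hC'] at hCc
  have f1 := Add.born (ov := false) [] (Sum.inr 1 :: (List.replicate q (Sum.inl true) ++
    List.replicate q (Sum.inl false))) 1 e' (f C ++ caps q) (by simpa using hU)
  have f2 := Add.acup₁ (ov := false) [] (List.replicate q (Sum.inl true) ++
    List.replicate q (Sum.inl false)) 0 _ _ (by simpa using f1)
  have f3 := add_wd false q β hβ _ _ _ f2
  have f4 := add_cups false q _ _ f3
  have s1 := Add.born (ov := false) [] (List.replicate q (Sum.inl true) ++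
    (List.replicate q (Sum.inl false) ++ Sum.inr 1 :: List.replicate 0 (Sum.inl false))) 1 e'
    (f (Function.update C n true) ++ caps (0 + q + 1)) (by simpa using hCc)
  have s2 := add_ins 0 q β (fun l hl => by have := hβ l hl; omega)
    (List.replicate q (Sum.inl false) ++ Sum.inr 1 :: List.replicate 0 (Sum.inl false)) _ _
    (by simpa using s1)
  have s3 := add_cups_arc false 0 q _ _ (by simpa using s2)
  refine Step.pass false (cups q ++ (wd β ++ (Gen.born 0 :: e'))) _ _ ?_ ?_ ?_ ?_
  · simp [List.countP_append, List.countP_cons, Gen.isBorn, he1, (countP_cups _).1, (countP_wd _).1]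
  · have : alive n (MI.up (some n) (gap O n) (fpc n) :: MI.ret n :: ms) = 1 := by
      simp [alive, b6]
    simp [List.countP_append, Gen.isDie, he2, (countP_cups _).2, (countP_wd _).2, this]
  · simpa [clo, openCount] using f4
  · simpa [clo, openCount] using s3

end Pool.Agent.H53.SQ

end S_BIRB

section S_CHN

/-!
# Module CHN: converting all circles

PROOF: induction on `h`, generalizing `C β P Q`. General facts:
(i) `(ms.flatMap (smk C)).length = vl C ms`, so `vl C ms = P + 1 + Q`; `flatMap` is additive; a
    converted new name does not change `smk` on old items (`pres`).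
(ii) for off items `D`: `D.flatMap (smk C) = (flags C D).map (!·)` and
    `vl C D = (flags C D).length`; so, if `ms = A ++ up x :: (D ++ up y :: B)`, reading the list
    `replicate P false ++ true :: replicate Q false` at the index `vl C A + 1 + t` gives
    `(flags C D)[t] = decide (vl C A + 1 + t ≠ P)`.
The new list `smk` after a birth arises by inserting `false` at the index `q` (`chn_ins`).
-/

namespace Pool.Agent.H53.SQ

variable {V : Type} [DecidableEq V]

omit [DecidableEq V] in
theorem chn_len {L : ℕ} (C : Nm V L → Bool) (A : List (MI V L)) :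
    (A.flatMap (smk C)).length = vl C A := by
  induction A with
  | nil => rfl
  | cons a A ih =>
    rw [List.flatMap_cons, List.length_append, ih]
    have h : (smk C a).length = vis C a := by
      cases a with
      | up n x j => cases n <;> rfl
      | ret n => simp only [smk, vis]; split_ifs <;> rfl
      | dead n => simp only [smk, vis]; split_ifs <;> rfl
      | sdead => rfl
    rw [h]
    simp [vl]

omit [DecidableEq V] in
theorem chn_off {L : ℕ} (C : Nm V L → Bool) (D : List (MI V L)) (hD : ∀ m ∈ D, m.off = true) :
    D.flatMap (smk C) = (flags C D).map (fun b => !b) := by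
  induction D with
  | nil => rfl
  | cons a D ih =>
    rw [List.flatMap_cons, ih (fun m hm => hD m (List.mem_cons_of_mem _ hm))]
    have ha := hD a List.mem_cons_self
    cases a with
    | up n x j => simp [MI.off] at ha
    | ret n => simp [MI.off] at ha
    | dead n =>
      simp only [smk, flags]
      split_ifs <;> simp
    | sdead => simp [smk, flags]

theorem chn_upd {L : ℕ} (C : Nm V L → Bool) (k : Nm V L) (hk : C k = false) (A : List (MI V L))
    (hA : pres C A) : A.flatMap (smk (Function.update C k true)) = A.flatMap (smk C) := by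
  induction A with
  | nil => rfl
  | cons a A ih =>
    rw [List.flatMap_cons, List.flatMap_cons, ih (fun m hm => hA m (List.mem_cons_of_mem _ hm))]
    congr 1
    have ha : ∀ n, a.nm = some n → n ≠ k := by
      intro n hn hnk
      have := hA a List.mem_cons_self n hn
      rw [hnk, hk] at this
      exact absurd this (by simp)
    cases a with
    | up n x j => cases n <;> rfl
    | ret n => simp only [smk]; rw [Function.update_of_ne (ha n rfl)]
    | dead n => simp only [smk]; rw [Function.update_of_ne (ha n rfl)]
    | sdead => rfl

theorem chn_pres {L : ℕ} (C : Nm V L → Bool) (k : Nm V L) (A : List (MI V L))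
    (hA : pres C A) : pres (Function.update C k true) A := by
  intro m hm n hn
  by_cases h : n = k
  · rw [h, Function.update_self]
  · rw [Function.update_of_ne h]
    exact hA m hm n hn

theorem chn_ins (X Y : List Bool) (P Q : ℕ)
    (h : X ++ Y = List.replicate P false ++ true :: List.replicate Q false) :
    X ++ false :: Y = List.replicate (if X.length ≤ P then P + 1 else P) false ++
      true :: List.replicate (if X.length ≤ P then Q else Q + 1) false := by
  induction X generalizing P with
  | nil =>
    simp only [List.nil_append] at h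
    subst h
    simp [List.replicate_succ]
  | cons a X ih =>
    cases P with
    | zero =>
      simp only [List.cons_append, List.replicate_zero, List.nil_append, List.cons.injEq] at h
      obtain ⟨h1, h2⟩ := h
      subst h1
      have h3 : X ++ false :: Y = List.replicate (Q + 1) false := by
        rw [List.eq_replicate_iff]
        constructor
        · have := congrArg List.length h2
          simp at this
          simp
          omega
        · intro b hb
          have h4 : ∀ b ∈ X ++ Y, b = false := by
            rw [h2]
            intro b hb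
            exact (List.mem_replicate.1 hb).2
          rcases List.mem_append.1 hb with hb | hb
          · exact h4 b (List.mem_append.2 (Or.inl hb))
          · rcases List.mem_cons.1 hb with hb | hb
            · exact hb
            · exact h4 b (List.mem_append.2 (Or.inr hb))
      simp [h3]
    | succ P =>
      simp only [List.cons_append, List.replicate_succ, List.cons.injEq] at h
      obtain ⟨h1, h2⟩ := h
      have h3 := ih P h2
      subst h1
      rw [List.cons_append, h3]
      by_cases hq : X.length ≤ P
      · simp [hq, List.replicate_succ]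
      · simp [hq, List.replicate_succ]

theorem chn_get (P Q i : ℕ) (hi : i < P + 1 + Q) :
    (List.replicate P false ++ true :: List.replicate Q false)[i]? = some (decide (i = P)) := by
  by_cases h1 : i < P
  · rw [List.getElem?_append_left (by simpa using h1)]
    rw [List.getElem?_replicate]
    have : i ≠ P := by omega
    simp [h1, this]
  · rw [List.getElem?_append_right (by simpa using h1)]
    rw [List.length_replicate]
    by_cases h2 : i = P
    · subst h2
      simp
    · obtain ⟨r, hr⟩ : ∃ r, i - P = r + 1 := ⟨i - P - 1, by omega⟩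
      rw [hr, List.getElem?_cons_succ, List.getElem?_replicate]
      have : r < Q := by omega
      simp [this, h2]

theorem chn_wd (β : List Ltr) (l : Ltr) : wd (β ++ [l]) = wd β ++ fw l.1 l.2.1 l.2.2 := by
  simp [wd]

omit [DecidableEq V] in
theorem chn_presA {L : ℕ} {C : Nm V L → Bool} {A B : List (MI V L)} (h : pres C (A ++ B)) :
    pres C A ∧ pres C B :=
  ⟨fun m hm => h m (List.mem_append.2 (Or.inl hm)), fun m hm => h m (List.mem_append.2 (Or.inr hm))⟩

omit [DecidableEq V] in
theorem chn_presC {L : ℕ} {C : Nm V L → Bool} {a : MI V L} {B : List (MI V L)}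
    (h : pres C (a :: B)) : (∀ n, a.nm = some n → C n = true) ∧ pres C B :=
  ⟨fun n hn => h a List.mem_cons_self n hn, fun m hm => h m (List.mem_cons_of_mem _ hm)⟩

omit [DecidableEq V] in
theorem chn_presA' {L : ℕ} {C : Nm V L → Bool} {A B : List (MI V L)} (hA : pres C A)
    (hB : pres C B) : pres C (A ++ B) := by
  intro m hm n hn
  rcases List.mem_append.1 hm with hm | hm
  · exact hA m hm n hn
  · exact hB m hm n hn

omit [DecidableEq V] in
theorem chn_presC' {L : ℕ} {C : Nm V L → Bool} {a : MI V L} {B : List (MI V L)}
    (ha : ∀ n, a.nm = some n → C n = true) (hB : pres C B) : pres C (a :: B) := by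
  intro m hm n hn
  rcases List.mem_cons.1 hm with hm | hm
  · subst hm
    exact ha n hn
  · exact hB m hm n hn

/-- the step common to all births -/
theorem chn_step {N P Q q : ℕ} {β : List Ltr} {X Y : List Bool} {w w' : List Gen}
    (hN : N = P + 1 + Q)
    (hs : X ++ Y = List.replicate P false ++ true :: List.replicate Q false) (hq : X.length = q)
    (hβ : ∀ l ∈ β, goodL (P + 1 + Q) P l) (γ : List Ltr)
    (hγ : ∀ l ∈ γ, l.2.1 = [] ∧ l.1 + 1 < N + 1)
    (hst : Step (clo N (wd β ++ w)) (clo (N + 1) (wd (β.map (insL q)) ++ (wd γ ++ w'))))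
    (ih : ∀ (β₁ : List Ltr) (P₁ Q₁ : ℕ),
      X ++ false :: Y = List.replicate P₁ false ++ true :: List.replicate Q₁ false →
      (∀ l ∈ β₁, goodL (P₁ + 1 + Q₁) P₁ l) →
      ∃ (n P' : ℕ) (β' : List Ltr), P' < n ∧ (∀ l ∈ β', goodL n P' l) ∧
        Iso (clo (P₁ + 1 + Q₁) (wd β₁ ++ w')) (clo n (wd β'))) :
    ∃ (n P' : ℕ) (β' : List Ltr), P' < n ∧ (∀ l ∈ β', goodL n P' l) ∧
      Iso (clo (P + 1 + Q) (wd β ++ w)) (clo n (wd β')) := by
  subst hN
  have h1 := chn_ins X Y P Q hs
  rw [hq] at h1
  have hsum : (if q ≤ P then P + 1 else P) + 1 + (if q ≤ P then Q else Q + 1) = P + 1 + Q + 1 := by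
    split_ifs <;> omega
  obtain ⟨n, P', β', hP', hβ', hI⟩ := ih (β.map (insL q) ++ γ) _ _ h1 (by
    rw [hsum]
    intro l hl
    rcases List.mem_append.1 hl with hl | hl
    · obtain ⟨l', hl', rfl⟩ := List.mem_map.1 hl
      exact goodL_ins _ _ _ _ (hβ l' hl')
    · obtain ⟨hl1, hl2⟩ := hγ l hl
      refine ⟨by rw [hl1]; simpa using hl2, ?_⟩
      intro t ht
      rw [hl1] at ht
      exact absurd ht (by simp))
  refine ⟨n, P', β', hP', hβ', ?_⟩
  refine Relation.EqvGen.trans _ _ _ (Relation.EqvGen.rel _ _ hst) ?_
  rw [hsum] at hI
  have : wd (β.map (insL q) ++ γ) ++ w' = wd (β.map (insL q)) ++ (wd γ ++ w') := by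
    simp [wd]
  rw [this] at hI
  exact hI

theorem chain {O : Code V} {ms : List (MI V O.loops)} {F : List (Nm V O.loops)}
    {T : List (Tok V O.loops)} {f : (Nm V O.loops → Bool) → List Gen} (h : MW O ms F T f)
    (C : Nm V O.loops → Bool) (β : List Ltr) (P Q : ℕ) (hp : pres C ms)
    (hF : ∀ n ∈ F, C n = false) (hnd : F.Nodup)
    (hs : ms.flatMap (smk C) = List.replicate P false ++ true :: List.replicate Q false)
    (hβ : ∀ l ∈ β, goodL (P + 1 + Q) P l) :
    ∃ (n P' : ℕ) (β' : List Ltr), P' < n ∧ (∀ l ∈ β', goodL n P' l) ∧
      Iso (clo (P + 1 + Q) (wd β ++ f C)) (clo n (wd β')) := by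
  induction h generalizing C β P Q with
  | done ms h =>
    refine ⟨P + 1 + Q, P, β, by omega, hβ, ?_⟩
    simp only [List.append_nil]
    exact Relation.EqvGen.refl _
  | post A D B x y a b i j v F T f hD ha hb h ih =>
    obtain ⟨pA, p1⟩ := chn_presA hp
    obtain ⟨px, p2⟩ := chn_presC p1
    obtain ⟨pD, p3⟩ := chn_presA p2
    obtain ⟨py, pB⟩ := chn_presC p3
    have hlen : P + 1 + Q = vl C A + (1 + ((flags C D).length + (1 + vl C B))) := by
      have h1 := congrArg List.length hs
      rw [List.flatMap_append, List.flatMap_cons, List.flatMap_append, List.flatMap_cons,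
        chn_off C D hD] at h1
      simp only [List.length_append, List.length_map, List.length_replicate, List.length_cons,
        chn_len] at h1
      have hx : (smk C (MI.up x (Sum.inl a) i)).length = 1 := by cases x <;> rfl
      have hy : (smk C (MI.up y (Sum.inl b) j)).length = 1 := by cases y <;> rfl
      rw [hx, hy] at h1
      omega
    have hs' : (A ++ MI.up x (Sum.inl (some (v, false))) 0 ::
        (D ++ MI.up y (Sum.inl (some (v, true))) 0 :: B)).flatMap (smk C) =
        List.replicate P false ++ true :: List.replicate Q false := by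
      rw [← hs]
      simp only [List.flatMap_append, List.flatMap_cons]
      congr 2
      · cases x <;> rfl
      · congr 1
        congr 1
        cases y <;> rfl
    obtain ⟨n, P', β', hP', hβ', hI⟩ := ih C (β ++ [(vl C A, flags C D, 1)]) P Q
      (chn_presA' pA (chn_presC' px (chn_presA' pD (chn_presC' py pB)))) hF hnd hs' (by
        intro l hl
        rcases List.mem_append.1 hl with hl | hl
        · exact hβ l hl
        · rw [List.mem_singleton] at hl
          subst hl
          refine ⟨by simp only []; omega, ?_⟩
          intro t ht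
          simp only [] at ht ⊢
          have h1 := chn_get P Q (vl C A + 1 + t) (by omega)
          rw [← hs, List.flatMap_append, List.flatMap_cons, List.flatMap_append,
            chn_off C D hD] at h1
          have hx : (smk C (MI.up x (Sum.inl a) i)).length = 1 := by cases x <;> rfl
          rw [List.getElem?_append_right (by rw [chn_len]; omega), chn_len,
            List.getElem?_append_right (by rw [hx]; omega), hx,
            List.getElem?_append_left (by rw [List.length_map]; omega)] at h1
          have h2 : vl C A + 1 + t - vl C A - 1 = t := by omega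
          rw [h2, List.getElem?_map, List.getElem?_eq_getElem ht] at h1
          simp only [Option.map_some, Option.some.injEq] at h1
          rw [show (decide (vl C A + 1 + t ≠ P)) = !(decide (vl C A + 1 + t = P)) from by simp,
            ← h1, Bool.not_not])
    refine ⟨n, P', β', hP', hβ', ?_⟩
    rw [chn_wd, List.append_assoc] at hI
    exact hI
  | bR A B x x₁ x₂ a j v F T f ha hx h ih =>
    obtain ⟨pA, p1⟩ := chn_presA hp
    obtain ⟨px, pB⟩ := chn_presC p1
    set k : Nm V O.loops := Sum.inl (v, true) with hk
    have hCk : C k = false := hF k List.mem_cons_self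
    have hnd' := List.nodup_cons.1 hnd
    have hF' : ∀ n ∈ F, C n = false ∧ n ≠ k := fun n hn =>
      ⟨hF n (List.mem_cons_of_mem _ hn), fun hnk => hnd'.1 (hnk ▸ hn)⟩
    have hF'' : ∀ n ∈ F, Function.update C k true n = false := fun n hn => by
      rw [Function.update_of_ne (hF' n hn).2]
      exact (hF' n hn).1
    have hkt : Function.update C k true k = true := Function.update_self ..
    have hlen : vl C A + 1 + vl C B = P + 1 + Q := by
      have h1 := congrArg List.length hs
      rw [List.flatMap_append, List.flatMap_cons] at h1
      simp only [List.length_append, List.length_replicate, List.length_cons,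
        chn_len] at h1
      have hx : (smk C (MI.up x (Sum.inl a) j)).length = 1 := by cases x <;> rfl
      rw [hx] at h1
      omega
    have hβ' : ∀ l ∈ β, l.1 + l.2.1.length + 1 < vl C A + 1 + vl C B := fun l hl => by
      rw [hlen]
      exact (hβ l hl).1
    rw [List.flatMap_append, List.flatMap_cons] at hs
    rcases hx with ⟨rfl, rfl⟩ | ⟨rfl, rfl, rfl⟩
    · have hst := birR_post A B x₁ v F T f h C hCk hF' pA pB (fun n hn => px n hn) β hβ'
      refine chn_step (q := vl C A + 1) (X := A.flatMap (smk C) ++
        smk C (MI.up x₁ (Sum.inl a) j)) (Y := B.flatMap (smk C)) hlen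
        (by rw [List.append_assoc]; exact hs) ?_ hβ [(vl C A, [], 1)] (by simp; omega) hst ?_
      · rw [List.length_append, chn_len]
        cases x₁ <;> rfl
      · intro β₁ P₁ Q₁ h1 h2
        refine ih (Function.update C k true) β₁ P₁ Q₁ ?_ hF'' hnd'.2 ?_ h2
        · refine chn_presA' (chn_pres C k A pA) (chn_presC' ?_ (chn_presC' ?_ (chn_presC' ?_
            (chn_pres C k B pB))))
          · intro n hn
            exact chn_pres C k [MI.up x₁ (Sum.inl a) j] (chn_presC' px (fun _ hm => absurd hm List.not_mem_nil)) _ List.mem_cons_self n hn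
          · intro n hn
            simp only [MI.nm, Option.some.injEq] at hn
            rw [← hn, hkt]
          · intro n hn
            simp only [MI.nm, Option.some.injEq] at hn
            rw [← hn, hkt]
        · rw [← h1]
          simp only [List.flatMap_append, List.flatMap_cons, chn_upd C k hCk A pA,
            chn_upd C k hCk B pB, List.append_assoc]
          congr 1
          simp only [smk, hkt, if_true, List.nil_append, List.cons_append]
          cases x₁ <;> rfl
    · have hst := birR_jump A B v F T f h C hCk hF' pA pB β hβ'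
      refine chn_step (q := vl C A) (X := A.flatMap (smk C))
        (Y := true :: B.flatMap (smk C)) hlen hs (chn_len C A) hβ [] (by simp)
        (by simpa [wd] using hst) ?_
      intro β₁ P₁ Q₁ h1 h2
      refine ih (Function.update C k true) β₁ P₁ Q₁ ?_ hF'' hnd'.2 ?_ h2
      · refine chn_presA' (chn_pres C k A pA) (chn_presC' ?_ (chn_presC' ?_ (chn_presC' ?_
          (chn_pres C k B pB))))
        · intro n hn
          simp only [MI.nm, Option.some.injEq] at hn
          rw [← hn, hkt]
        · intro n hn
          simp [MI.nm] at hn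
        · intro n hn
          simp only [MI.nm, Option.some.injEq] at hn
          rw [← hn, hkt]
      · rw [← h1]
        simp only [List.flatMap_append, List.flatMap_cons, chn_upd C k hCk A pA,
          chn_upd C k hCk B pB]
        congr 1
        simp only [smk, hkt, if_true, List.nil_append, List.cons_append]
  | bL A B x x₁ x₂ a j v F T f ha hx h ih =>
    obtain ⟨pA, p1⟩ := chn_presA hp
    obtain ⟨px, pB⟩ := chn_presC p1
    set k : Nm V O.loops := Sum.inl (v, false) with hk
    have hCk : C k = false := hF k List.mem_cons_self
    have hnd' := List.nodup_cons.1 hnd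
    have hF' : ∀ n ∈ F, C n = false ∧ n ≠ k := fun n hn =>
      ⟨hF n (List.mem_cons_of_mem _ hn), fun hnk => hnd'.1 (hnk ▸ hn)⟩
    have hF'' : ∀ n ∈ F, Function.update C k true n = false := fun n hn => by
      rw [Function.update_of_ne (hF' n hn).2]
      exact (hF' n hn).1
    have hkt : Function.update C k true k = true := Function.update_self ..
    have hlen : vl C A + 1 + vl C B = P + 1 + Q := by
      have h1 := congrArg List.length hs
      rw [List.flatMap_append, List.flatMap_cons] at h1
      simp only [List.length_append, List.length_replicate, List.length_cons,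
        chn_len] at h1
      have hx : (smk C (MI.up x (Sum.inl a) j)).length = 1 := by cases x <;> rfl
      rw [hx] at h1
      omega
    have hβ' : ∀ l ∈ β, l.1 + l.2.1.length + 1 < vl C A + 1 + vl C B := fun l hl => by
      rw [hlen]
      exact (hβ l hl).1
    rw [List.flatMap_append, List.flatMap_cons] at hs
    rcases hx with ⟨rfl, rfl⟩ | ⟨rfl, rfl, rfl⟩
    · have hst := birL_post A B x₂ v F T f h C hCk hF' pA pB (fun n hn => px n hn) β hβ'
      refine chn_step (q := vl C A) (X := A.flatMap (smk C))
        (Y := smk C (MI.up x₂ (Sum.inl a) j) ++ B.flatMap (smk C)) hlen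
        hs (chn_len C A) hβ [(vl C A, [], 1)] (by simp; omega) hst ?_
      intro β₁ P₁ Q₁ h1 h2
      refine ih (Function.update C k true) β₁ P₁ Q₁ ?_ hF'' hnd'.2 ?_ h2
      · refine chn_presA' (chn_pres C k A pA) (chn_presC' ?_ (chn_presC' ?_ (chn_presC' ?_
          (chn_pres C k B pB))))
        · intro n hn
          simp only [MI.nm, Option.some.injEq] at hn
          rw [← hn, hkt]
        · intro n hn
          simp only [MI.nm, Option.some.injEq] at hn
          rw [← hn, hkt]
        · intro n hn
          exact chn_pres C k [MI.up x₂ (Sum.inl a) j] (chn_presC' px (fun _ hm => absurd hm List.not_mem_nil)) _ List.mem_cons_self n hn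
      · rw [← h1]
        simp only [List.flatMap_append, List.flatMap_cons, chn_upd C k hCk A pA,
          chn_upd C k hCk B pB]
        congr 1
        simp only [smk, hkt, if_true, List.nil_append, List.cons_append]
        cases x₂ <;> rfl
    · have hst := birL_jump A B v F T f h C hCk hF' pA pB β hβ'
      refine chn_step (q := vl C A + 1) (X := A.flatMap (smk C) ++ [true])
        (Y := B.flatMap (smk C)) hlen (by rw [List.append_assoc]; exact hs) ?_ hβ
        [(vl C A, [], 2)] (by simp; omega) hst ?_
      · rw [List.length_append, chn_len]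
        rfl
      · intro β₁ P₁ Q₁ h1 h2
        refine ih (Function.update C k true) β₁ P₁ Q₁ ?_ hF'' hnd'.2 ?_ h2
        · refine chn_presA' (chn_pres C k A pA) (chn_presC' ?_ (chn_presC' ?_ (chn_presC' ?_
            (chn_pres C k B pB))))
          · intro n hn
            simp only [MI.nm, Option.some.injEq] at hn
            rw [← hn, hkt]
          · intro n hn
            simp [MI.nm] at hn
          · intro n hn
            simp only [MI.nm, Option.some.injEq] at hn
            rw [← hn, hkt]
        · rw [← h1]
          simp only [List.flatMap_append, List.flatMap_cons, chn_upd C k hCk A pA,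
            chn_upd C k hCk B pB, List.append_assoc]
          congr 1
          simp only [smk, hkt, if_true, List.nil_append, List.cons_append]
  | capR A D B n F T f hD h ih =>
    obtain ⟨pA, p1⟩ := chn_presA hp
    obtain ⟨pn, p2⟩ := chn_presC p1
    obtain ⟨pD, p3⟩ := chn_presA p2
    obtain ⟨_, pB⟩ := chn_presC p3
    have hCn : C n = true := pn n rfl
    have hw : (if C n then f C else
        mvR (vl C A) (flags C D) ++ Gen.cap (vl C A + (flags C D).length) :: f C) = f C := by
      rw [hCn]; rfl
    simp only [hw]
    refine ih C β P Q (chn_presA' pA (chn_presC' (fun m hm => pn m hm) (chn_presA' pD pB))) hF hnd ?_ hβ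
    rw [← hs]
    simp only [List.flatMap_append, List.flatMap_cons, smk, hCn, if_true, List.nil_append]
  | capL A D B n F T f hD h ih =>
    obtain ⟨pA, p1⟩ := chn_presA hp
    obtain ⟨pn, p2⟩ := chn_presC p1
    obtain ⟨pD, p3⟩ := chn_presA p2
    obtain ⟨_, pB⟩ := chn_presC p3
    have hCn : C n = true := pn n rfl
    have hw : (if C n then f C else
        mvL (vl C A + 1) (flags C D) ++ Gen.cap (vl C A) :: f C) = f C := by
      rw [hCn]; rfl
    simp only [hw]
    refine ih C β P Q (chn_presA' pA (chn_presA' pD (chn_presC' (fun m hm => pn m hm) pB))) hF hnd ?_ hβ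
    rw [← hs]
    simp only [List.flatMap_append, List.flatMap_cons, smk, hCn, if_true, List.nil_append]
  | dieS A B a j F T f ha h ih =>
    obtain ⟨pA, p1⟩ := chn_presA hp
    obtain ⟨_, pB⟩ := chn_presC p1
    refine ih C β P Q (chn_presA' pA (chn_presC' (fun m hm => by simp [MI.nm] at hm) pB)) hF hnd ?_ hβ
    rw [← hs]
    simp only [List.flatMap_append, List.flatMap_cons, smk]
  | fr n ms F T f h ih =>
    have hCk : C n = false := hF n List.mem_cons_self
    have hnd' := List.nodup_cons.1 hnd
    have hF' : ∀ n' ∈ F, C n' = false ∧ n' ≠ n := fun n' hn =>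
      ⟨hF n' (List.mem_cons_of_mem _ hn), fun hnk => hnd'.1 (hnk ▸ hn)⟩
    have hF'' : ∀ n' ∈ F, Function.update C n true n' = false := fun n' hn => by
      rw [Function.update_of_ne (hF' n' hn).2]
      exact (hF' n' hn).1
    have hkt : Function.update C n true n = true := Function.update_self ..
    have hlen : vl C ms = P + 1 + Q := by
      have h1 := congrArg List.length hs
      simp only [List.length_append, List.length_replicate, List.length_cons, chn_len] at h1
      omega
    have hβ' : ∀ l ∈ β, l.1 + l.2.1.length + 1 < vl C ms := fun l hl => by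
      rw [hlen]
      exact (hβ l hl).1
    have hst := bir_fr ms n F T f h C hCk hF' hp β hβ'
    refine chn_step (q := 0) (X := []) (Y := ms.flatMap (smk C)) hlen hs rfl hβ []
      (by simp) (by simpa [wd] using hst) ?_
    intro β₁ P₁ Q₁ h1 h2
    refine ih (Function.update C n true) β₁ P₁ Q₁ ?_ hF'' hnd'.2 ?_ h2
    · refine chn_presC' ?_ (chn_presC' ?_ (chn_pres C n ms hp))
      · intro m hm
        simp only [MI.nm, Option.some.injEq] at hm
        rw [← hm, hkt]
      · intro m hm
        simp only [MI.nm, Option.some.injEq] at hm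
        rw [← hm, hkt]
    · rw [← h1]
      simp only [List.flatMap_cons, chn_upd C n hCk ms hp]
      simp only [smk, hkt, if_true, List.nil_append, List.cons_append]

end Pool.Agent.H53.SQ

end S_CHN
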