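import Mathlib
import Pool.Agent.H53.SQ.Defs
import Pool.Agent.H53.SQ.G1

/-! Part G3 of the proof for MP_41dcdb_gt: this file joins the modules BRAA, BRAB, LABE. -/

section S_BRAA

/-!
# Module BRAA: conjugating the strand `P` to the last place (pure group theory)

`bw i D m` is the braid word of the band `fw i D m`; `Wp n P = σ_P σ_(P+1) ... σ_(n-2)`
(0-based indices). Write `j = i + 1 + D.length` for the right end of the band, `a(i,j)` for the value of
`aWord i j`, i.e. `(s_i ... s_(j-2)) s_(j-1) (s_i ... s_(j-2))⁻¹`.
If all flags are `true`, then `eval (bw i D m) = a(i,j) ^ m`. CLAIM (`band_conj`):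
`W⁻¹ * eval (bw i D m) * W = a(i',j') ^ m` with `(i',j')` given by `tgt`:
* `P > j`: `(i, j)`; all flags are `true`, all letters of `W` commute with all letters of the band.
* `P = j`: `(i, n-1)`; `s_j⁻¹ a(i,j) s_j = a(i,j+1)` because
  `s_j⁻¹ s_(j-1) s_j = s_(j-1) s_j s_(j-1)⁻¹` and `s_j` commutes with `s_i, ..., s_(j-2)`; iterate.
* `i < P < j`: `(i, j-1)`. The flag at `P` is `false`, all others are `true`:
  `eval (bw i D m) = X s_(P-1)⁻¹ Y s_(j-1)^m Y⁻¹ s_(P-1) X⁻¹`, `X = s_i ... s_(P-2)`, `Y = s_P ... s_(j-2)`.
  Show that it equals `W a(i,j-1)^m W⁻¹`: the letters `s_j, ..., s_(n-2)` of `W` commute with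
  `a(i,j-1)`; conjugation `t ↦ U t U⁻¹` by `U = s_P ... s_(j-1)` sends `s_t` to `s_(t+1)` for
  `P ≤ t ≤ j - 2`, fixes `s_t` for `t ≤ P - 2`, and sends `s_(P-1)` to `s_(P-1)⁻¹ s_P s_(P-1)`; finally
  `s_(P-1)` commutes with `s_(P+1), ..., s_(j-1)`.
* `P = i`: `(j-1, n-1)`: conjugating `a(i,j)` by `s_i ... s_(j-2)` gives `s_(j-1) = a(j-1,j)`, which
  commutes with `s_(j-1)`, and conjugating by `s_j ... s_(n-2)` gives `a(j-1,n-1)` as in the case `P = j`.
* `P < i`: `(i-1, j-1)`: `W⁻¹ s_t W = s_(t-1)` for `P < t ≤ n - 2`.
It is convenient to prove first, by induction on the length, the formulas for the conjugation of a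
single generator by `s_P ... s_(r-1)` (a product over `List.range`).
-/

namespace Pool.Agent.H53.SQ

/-- braid word of a band -/
def bw : ℕ → List Bool → ℕ → List (ℕ × Bool)
  | i, [], m => List.replicate m (i, true)
  | i, f :: D, m => (i, f) :: (bw (i + 1) D m ++ [(i, !f)])

def Wp (n P : ℕ) : List (ℕ × Bool) := (List.range (n - 1 - P)).map (fun t => (P + t, true))

/-- the ends of the band after moving the strand `P` to the last place -/
def tgt (n P : ℕ) (i j : ℕ) : ℕ × ℕ :=
  if j < P then (i, j) else if j = P then (i, n - 1) else if i < P then (i, j - 1)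
  else if i = P then (j - 1, n - 1) else (i - 1, j - 1)

theorem tgt_lt (n P i j : ℕ) (hP : P < n) (hij : i < j) (hj : j < n) :
    (tgt n P i j).1 < (tgt n P i j).2 ∧ (tgt n P i j).2 < n := by
  unfold tgt
  split_ifs <;> simp only <;> omega

section braa
variable {G : Type} [Group G] (s : ℕ → G)

lemma braa_eval_append (u v : List (ℕ × Bool)) : eval s (u ++ v) = eval s u * eval s v := by
  unfold eval
  rw [List.map_append, List.prod_append]

lemma braa_eval_cons (p : ℕ × Bool) (v : List (ℕ × Bool)) :
    eval s (p :: v) = (if p.2 then s p.1 else (s p.1)⁻¹) * eval s v := by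
  unfold eval
  rw [List.map_cons, List.prod_cons]

lemma braa_eval_nil : eval s [] = 1 := rfl

lemma braa_eval_single (p : ℕ × Bool) : eval s [p] = (if p.2 then s p.1 else (s p.1)⁻¹) := by
  rw [braa_eval_cons, braa_eval_nil, mul_one]

/-- `s_a s_(a+1) ... s_(a+k-1)` -/
def braaPr : ℕ → ℕ → G
  | _, 0 => 1
  | a, k + 1 => s a * braaPr (a + 1) k

/-- the band generator of the strands `i`, `i + 1 + k` -/
def braaAw : ℕ → ℕ → G
  | i, 0 => s i
  | i, k + 1 => s i * braaAw (i + 1) k * (s i)⁻¹

lemma braa_pr_add (a k l : ℕ) : braaPr s a (k + l) = braaPr s a k * braaPr s (a + k) l := by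
  induction k generalizing a with
  | zero => simp [braaPr]
  | succ k ih =>
    have h1 : k + 1 + l = (k + l) + 1 := by ring
    rw [h1]
    simp only [braaPr]
    rw [ih, mul_assoc]
    have h2 : a + 1 + k = a + (k + 1) := by ring
    rw [h2]

lemma braa_aw_eq (i k : ℕ) : braaAw s i k = braaPr s i k * s (i + k) * (braaPr s i k)⁻¹ := by
  induction k generalizing i with
  | zero => simp [braaPr, braaAw]
  | succ k ih =>
    simp only [braaPr, braaAw]
    rw [ih]
    have h2 : i + 1 + k = i + (k + 1) := by ring
    rw [h2]
    group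

lemma braa_eval_range (a k : ℕ) : eval s ((List.range k).map (fun t => (a + t, true))) = braaPr s a k := by
  induction k generalizing a with
  | zero => rfl
  | succ k ih =>
    rw [List.range_succ_eq_map, List.map_cons, braa_eval_cons, List.map_map]
    simp only [braaPr]
    rw [← ih (a + 1)]
    have : ((fun t => (a + t, true)) ∘ Nat.succ : ℕ → ℕ × Bool) = fun t => (a + 1 + t, true) := by
      funext t
      simp only [Function.comp_apply, Prod.mk.injEq, and_true]
      omega
    rw [this]
    simp

lemma braa_eval_rev (a k : ℕ) : eval s ((List.range k).reverse.map (fun t => (a + t, false))) =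
    (braaPr s a k)⁻¹ := by
  induction k generalizing a with
  | zero => simp [braaPr, eval]
  | succ k ih =>
    rw [List.range_succ_eq_map, List.reverse_cons, List.map_append, braa_eval_append]
    simp only [braaPr, mul_inv_rev]
    rw [← ih (a + 1)]
    rw [← List.map_reverse, List.map_map]
    have : ((fun t => (a + t, false)) ∘ Nat.succ : ℕ → ℕ × Bool) = fun t => (a + 1 + t, false) := by
      funext t
      simp only [Function.comp_apply, Prod.mk.injEq, and_true]
      omega
    rw [this]
    simp [braa_eval_single]

lemma braa_eval_aWord (i j : ℕ) (h : i < j) : eval s (aWord i j) = braaAw s i (j - 1 - i) := by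
  unfold aWord
  rw [braa_eval_append, braa_eval_append, braa_eval_range, braa_eval_rev, braa_aw_eq, braa_eval_single]
  have : i + (j - 1 - i) = j - 1 := by omega
  rw [this]
  rfl

lemma braa_eval_bw_nil (i m : ℕ) : eval s (bw i [] m) = s i ^ m := by
  unfold bw eval
  rw [List.map_replicate, List.prod_replicate]
  rfl

lemma braa_eval_bw_cons (i m : ℕ) (f : Bool) (D : List Bool) : eval s (bw i (f :: D) m) =
    (if f then s i else (s i)⁻¹) * eval s (bw (i + 1) D m) * (if f then s i else (s i)⁻¹)⁻¹ := by
  rw [bw, braa_eval_cons, braa_eval_append, braa_eval_single]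
  cases f <;> simp [mul_assoc]

/-- all flags `true` -/
lemma braa_bw_true (i m : ℕ) (D : List Bool) (hD : ∀ (t : ℕ) (h : t < D.length), D[t] = true) :
    eval s (bw i D m) = braaAw s i D.length ^ m := by
  induction D generalizing i with
  | nil => rw [braa_eval_bw_nil]; rfl
  | cons f D ih =>
    have hf : f = true := hD 0 (by simp)
    subst hf
    rw [braa_eval_bw_cons, ih (i + 1) (by
      intro t h
      have := hD (t + 1) (by simpa using h)
      simpa using this)]
    simp only [List.length_cons, braaAw, if_true]
    rw [conj_pow]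

variable (n : ℕ) (hcomm : ∀ i j, i + 2 ≤ j → j + 1 < n → s i * s j = s j * s i)
  (hbraid : ∀ i, i + 2 < n → s i * s (i + 1) * s i = s (i + 1) * s i * s (i + 1))

include hcomm in
lemma braa_comm_lt (t a k : ℕ) (h : t + 2 ≤ a) (hk : a + k < n) : Commute (s t) (braaPr s a k) := by
  induction k generalizing a with
  | zero => exact Commute.one_right _
  | succ k ih =>
    exact Commute.mul_right (hcomm t a h (by omega)) (ih (a + 1) (by omega) (by omega))

include hcomm in
lemma braa_comm_gt (t a k : ℕ) (h : a + k + 1 ≤ t) (ht : t + 1 < n) : Commute (s t) (braaPr s a k) := by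
  induction k generalizing a with
  | zero => exact Commute.one_right _
  | succ k ih =>
    exact Commute.mul_right (hcomm a t (by omega) ht).symm (ih (a + 1) (by omega))

include hcomm hbraid in
lemma braa_shift (P k t : ℕ) (h1 : P < t) (h2 : t < P + k) (hk : P + k < n) :
    s t * braaPr s P k = braaPr s P k * s (t - 1) := by
  induction k generalizing P with
  | zero => omega
  | succ k ih =>
    by_cases ht : t = P + 1
    · subst ht
      obtain ⟨k, rfl⟩ : ∃ k', k = k' + 1 := ⟨k - 1, by omega⟩
      simp only [braaPr]
      have h3 := hbraid P (by omega)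
      have h4 : Commute (s P) (braaPr s (P + 1 + 1) k) := braa_comm_lt s n hcomm P (P + 1 + 1) k (by omega) (by omega)
      have h5 : P + 1 - 1 = P := rfl
      rw [h5]
      calc s (P + 1) * (s P * (s (P + 1) * braaPr s (P + 1 + 1) k))
          = (s (P + 1) * s P * s (P + 1)) * braaPr s (P + 1 + 1) k := by group
        _ = (s P * s (P + 1) * s P) * braaPr s (P + 1 + 1) k := by rw [h3]
        _ = s P * s (P + 1) * (s P * braaPr s (P + 1 + 1) k) := by group
        _ = s P * s (P + 1) * (braaPr s (P + 1 + 1) k * s P) := by rw [h4.eq]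
        _ = s P * (s (P + 1) * braaPr s (P + 1 + 1) k) * s P := by group
    · simp only [braaPr]
      have h3 := ih (P + 1) (by omega) (by omega) (by omega)
      have h4 := hcomm P t (by omega) (by omega)
      rw [← mul_assoc, ← h4, mul_assoc, h3, mul_assoc]

include hcomm hbraid in
/-- the main formula -/
lemma braa_F (i k : ℕ) (hk : i + 1 + k < n) :
    (braaPr s (i + 1) k)⁻¹ * s i * braaPr s (i + 1) k = braaAw s i k := by
  induction k generalizing i with
  | zero => simp [braaPr, braaAw]
  | succ k ih =>
    simp only [braaPr, braaAw]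
    have h1 := ih (i + 1) (by omega)
    rw [← h1]
    have h3 := hbraid i (by omega)
    have h4 : Commute (s i) (braaPr s (i + 1 + 1) k) := braa_comm_lt s n hcomm i (i + 1 + 1) k (by omega) (by omega)
    have h5 : (s (i + 1))⁻¹ * s i * s (i + 1) = s i * s (i + 1) * (s i)⁻¹ := by
      rw [eq_mul_inv_iff_mul_eq, mul_assoc, mul_assoc, inv_mul_eq_iff_eq_mul]
      rw [← mul_assoc, ← mul_assoc]
      exact h3
    have h6 : (braaPr s (i + 1 + 1) k)⁻¹ * s i = s i * (braaPr s (i + 1 + 1) k)⁻¹ := (h4.inv_right.eq).symm
    have h7 : (s i)⁻¹ * braaPr s (i + 1 + 1) k = braaPr s (i + 1 + 1) k * (s i)⁻¹ := h4.inv_left.eq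
    calc (s (i + 1) * braaPr s (i + 1 + 1) k)⁻¹ * s i * (s (i + 1) * braaPr s (i + 1 + 1) k)
        = (braaPr s (i + 1 + 1) k)⁻¹ * ((s (i + 1))⁻¹ * s i * s (i + 1)) * braaPr s (i + 1 + 1) k := by group
      _ = (braaPr s (i + 1 + 1) k)⁻¹ * (s i * s (i + 1) * (s i)⁻¹) * braaPr s (i + 1 + 1) k := by rw [h5]
      _ = ((braaPr s (i + 1 + 1) k)⁻¹ * s i) * s (i + 1) * ((s i)⁻¹ * braaPr s (i + 1 + 1) k) := by group
      _ = (s i * (braaPr s (i + 1 + 1) k)⁻¹) * s (i + 1) * (braaPr s (i + 1 + 1) k * (s i)⁻¹) := by rw [h6, h7]
      _ = s i * ((braaPr s (i + 1 + 1) k)⁻¹ * s (i + 1) * braaPr s (i + 1 + 1) k) * (s i)⁻¹ := by group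

lemma braa_map_pr (φ : G →* G) (i k : ℕ) : φ (braaPr s i k) = braaPr (fun t => φ (s t)) i k := by
  induction k generalizing i with
  | zero => simp [braaPr]
  | succ k ih => simp only [braaPr, map_mul, ih]

lemma braa_map_aw (φ : G →* G) (i k : ℕ) : φ (braaAw s i k) = braaAw (fun t => φ (s t)) i k := by
  induction k generalizing i with
  | zero => simp [braaAw]
  | succ k ih => simp only [braaAw, map_mul, map_inv, ih]

lemma braa_congr_pr (s' : ℕ → G) (i k : ℕ) (h : ∀ t, i ≤ t → t < i + k → s t = s' t) :
    braaPr s i k = braaPr s' i k := by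
  induction k generalizing i with
  | zero => simp [braaPr]
  | succ k ih =>
    simp only [braaPr]
    rw [h i (by omega) (by omega), ih (i + 1) (fun t h1 h2 => h t (by omega) (by omega))]

lemma braa_congr_aw (s' : ℕ → G) (i k : ℕ) (h : ∀ t, i ≤ t → t ≤ i + k → s t = s' t) :
    braaAw s i k = braaAw s' i k := by
  induction k generalizing i with
  | zero => simp [braaAw, h i le_rfl le_rfl]
  | succ k ih =>
    simp only [braaAw]
    rw [h i (by omega) (by omega), ih (i + 1) (fun t h1 h2 => h t (by omega) (by omega))]

lemma braa_shift_pr (i k : ℕ) : braaPr (fun t => s (t - 1)) (i + 1) k = braaPr s i k := by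
  induction k generalizing i with
  | zero => simp [braaPr]
  | succ k ih =>
    simp only [braaPr]
    rw [ih (i + 1)]
    rfl

lemma braa_shift_aw (i k : ℕ) : braaAw (fun t => s (t - 1)) (i + 1) k = braaAw s i k := by
  induction k generalizing i with
  | zero => simp [braaAw]
  | succ k ih =>
    simp only [braaAw]
    rw [ih (i + 1)]
    rfl

/-- conjugation -/
def braaPhi (P : ℕ) : G →* G := (MulAut.conj (braaPr s P (n - 1 - P))⁻¹).toMonoidHom

lemma braa_phi_apply (P : ℕ) (x : G) : braaPhi s n P x = (braaPr s P (n - 1 - P))⁻¹ * x * braaPr s P (n - 1 - P) := by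
  change (MulAut.conj (braaPr s P (n - 1 - P))⁻¹) x = _
  rw [MulAut.conj_apply, inv_inv]

include hcomm in
lemma braa_phi1 (P t : ℕ) (hP : P < n) (h : t + 2 ≤ P) : braaPhi s n P (s t) = s t := by
  rw [braa_phi_apply, mul_assoc, (braa_comm_lt s n hcomm t P (n - 1 - P) h (by omega)).eq, inv_mul_cancel_left]

include hcomm hbraid in
lemma braa_phi2 (P t : ℕ) (h : P < t) (ht : t + 1 < n) : braaPhi s n P (s t) = s (t - 1) := by
  rw [braa_phi_apply, mul_assoc, braa_shift s n hcomm hbraid P (n - 1 - P) t h (by omega) (by omega),
    inv_mul_cancel_left]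

include hcomm hbraid in
lemma braa_phi3 (i : ℕ) (h : i + 1 < n) : braaPhi s n (i + 1) (s i) = braaAw s i (n - 1 - (i + 1)) := by
  rw [braa_phi_apply, braa_F s n hcomm hbraid i _ (by omega)]

include hcomm in
lemma braa_caseA (P i k : ℕ) (hP : P < n) (h : i + 1 + k < P) : braaPhi s n P (braaAw s i k) = braaAw s i k := by
  rw [braa_map_aw]
  apply braa_congr_aw
  intro t h1 h2
  exact braa_phi1 s n hcomm P t hP (by omega)

include hcomm hbraid in
lemma braa_caseB (P k : ℕ) (hP : P < n) : ∀ i, i + 1 + k = P →
    braaPhi s n P (braaAw s i k) = braaAw s i (n - 1 - 1 - i) := by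
  induction k with
  | zero =>
    intro i hi
    have hi' : P = i + 1 := by omega
    subst hi'
    simp only [braaAw]
    rw [braa_phi3 s n hcomm hbraid i (by omega)]
    congr 1
    omega
  | succ k ih =>
    intro i hi
    simp only [braaAw, map_mul, map_inv]
    rw [ih (i + 1) (by omega), braa_phi1 s n hcomm P i hP (by omega)]
    have h1 : n - 1 - 1 - i = (n - 1 - 1 - (i + 1)) + 1 := by omega
    rw [h1]
    rfl

include hcomm hbraid in
lemma braa_caseC (P m : ℕ) (hP : P < n) (D : List Bool) : ∀ i, i < P → P ≤ i + D.length → i + 1 + D.length < n →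
    (∀ (t : ℕ) (h : t < D.length), D[t] = decide (i + 1 + t ≠ P)) →
    braaPhi s n P (eval s (bw i D m)) = braaAw s i (D.length - 1) ^ m := by
  induction D with
  | nil =>
    intro i h1 h2 h3 h4
    simp only [List.length_nil] at h2
    omega
  | cons f D ih =>
    intro i h1 h2 h3 h4
    simp only [List.length_cons] at h2 h3
    have hf : f = decide (i + 1 ≠ P) := by
      have := h4 0 (by simp)
      simpa using this
    have h4' : ∀ (t : ℕ) (h : t < D.length), D[t] = decide (i + 1 + 1 + t ≠ P) := by
      intro t h
      have := h4 (t + 1) (by simpa using h)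
      rw [List.getElem_cons_succ] at this
      rw [this]
      have e : i + 1 + (t + 1) = i + 1 + 1 + t := by ring
      rw [e]
    rw [braa_eval_bw_cons]
    by_cases hiP : i + 1 = P
    · subst hiP
      have hf' : f = false := by rw [hf]; simp
      subst hf'
      rw [braa_bw_true s (i + 1) m D (by
        intro t h
        rw [h4' t h]
        simp only [ne_eq, decide_eq_true_eq]
        omega)]
      simp only [Bool.false_eq_true, if_false, inv_inv, List.length_cons, Nat.add_sub_cancel]
      have e1 : (s i)⁻¹ * braaAw s (i + 1) D.length ^ m * s i = ((s i)⁻¹ * braaAw s (i + 1) D.length * s i) ^ m := by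
        have := conj_pow (a := (s i)⁻¹) (b := braaAw s (i + 1) D.length) (i := m)
        rw [inv_inv] at this
        exact this.symm
      rw [e1, map_pow]
      congr 1
      have hF := braa_F s n hcomm hbraid (i + 1) D.length (by omega)
      have hF' := braa_F s n hcomm hbraid i D.length (by omega)
      have hc := braa_comm_lt s n hcomm i (i + 1 + 1) D.length (by omega) (by omega)
      have hb := hbraid i (by omega)
      have e2 : (s i)⁻¹ * s (i + 1) * s i = s (i + 1) * s i * (s (i + 1))⁻¹ := by
        rw [eq_mul_inv_iff_mul_eq, mul_assoc, mul_assoc, inv_mul_eq_iff_eq_mul]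
        rw [← mul_assoc, ← mul_assoc]
        exact hb.symm
      have e3 : (s i)⁻¹ * braaAw s (i + 1) D.length * s i =
          (braaPr s (i + 1 + 1) D.length)⁻¹ * (s (i + 1) * s i * (s (i + 1))⁻¹) * braaPr s (i + 1 + 1) D.length := by
        rw [← hF, ← e2]
        have h6 : (s i)⁻¹ * (braaPr s (i + 1 + 1) D.length)⁻¹ = (braaPr s (i + 1 + 1) D.length)⁻¹ * (s i)⁻¹ :=
          hc.inv_inv.eq
        have h7 : braaPr s (i + 1 + 1) D.length * s i = s i * braaPr s (i + 1 + 1) D.length := hc.eq.symm
        calc (s i)⁻¹ * ((braaPr s (i + 1 + 1) D.length)⁻¹ * s (i + 1) * braaPr s (i + 1 + 1) D.length) * s i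
            = ((s i)⁻¹ * (braaPr s (i + 1 + 1) D.length)⁻¹) * s (i + 1) * (braaPr s (i + 1 + 1) D.length * s i) := by group
          _ = ((braaPr s (i + 1 + 1) D.length)⁻¹ * (s i)⁻¹) * s (i + 1) * (s i * braaPr s (i + 1 + 1) D.length) := by
            rw [h6, h7]
          _ = _ := by group
      rw [e3, map_mul, map_mul, map_inv]
      have e4 : braaPhi s n (i + 1) (braaPr s (i + 1 + 1) D.length) = braaPr s (i + 1) D.length := by
        rw [braa_map_pr, ← braa_shift_pr s (i + 1) D.length]
        apply braa_congr_pr
        intro t ht1 ht2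
        exact braa_phi2 s n hcomm hbraid (i + 1) t (by omega) (by omega)
      have e5 : braaPhi s n (i + 1) (s (i + 1) * s i * (s (i + 1))⁻¹) = s i := by
        rw [braa_phi_apply]
        obtain ⟨k, hk⟩ : ∃ k, n - 1 - (i + 1) = k + 1 := ⟨n - 1 - (i + 1) - 1, by omega⟩
        rw [hk]
        simp only [braaPr]
        have hc2 := (braa_comm_lt s n hcomm i (i + 1 + 1) k (by omega) (by omega)).eq
        calc (s (i + 1) * braaPr s (i + 1 + 1) k)⁻¹ * (s (i + 1) * s i * (s (i + 1))⁻¹) *
              (s (i + 1) * braaPr s (i + 1 + 1) k)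
            = (braaPr s (i + 1 + 1) k)⁻¹ * (s i * braaPr s (i + 1 + 1) k) := by group
          _ = s i := by rw [hc2, inv_mul_cancel_left]
      rw [e4, e5, hF']
    · have hf' : f = true := by rw [hf]; simp [hiP]
      subst hf'
      simp only [if_true, map_mul, map_inv]
      rw [ih (i + 1) (by omega) (by omega) (by omega) h4', braa_phi1 s n hcomm P i hP (by omega), ← conj_pow]
      congr 1
      obtain ⟨k, hk⟩ : ∃ k, D.length = k + 1 := ⟨D.length - 1, by omega⟩
      simp only [List.length_cons, hk, Nat.add_sub_cancel]
      rfl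

include hcomm hbraid in
lemma braa_caseD (P k : ℕ) (h : P + k + 1 < n) : braaPhi s n P (braaAw s P k) = braaAw s (P + k) (n - 1 - 1 - (P + k)) := by
  rw [braa_phi_apply, braa_aw_eq]
  have h1 : n - 1 - P = k + ((n - 1 - 1 - (P + k)) + 1) := by omega
  rw [h1, braa_pr_add]
  have h2 := braa_F s n hcomm hbraid (P + k) (n - 1 - 1 - (P + k)) (by omega)
  rw [← h2]
  simp only [braaPr]
  group

include hcomm hbraid in
lemma braa_caseE (P i k : ℕ) (hi : P < i) (h : i + k + 1 < n) : braaPhi s n P (braaAw s i k) = braaAw s (i - 1) k := by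
  obtain ⟨i, rfl⟩ : ∃ i', i = i' + 1 := ⟨i - 1, by omega⟩
  rw [braa_map_aw, Nat.add_sub_cancel, ← braa_shift_aw s i k]
  apply braa_congr_aw
  intro t h1 h2
  exact braa_phi2 s n hcomm hbraid P t (by omega) (by omega)

end braa

theorem band_conj {G : Type} [Group G] (s : ℕ → G) (n P : ℕ) (hP : P < n)
    (hcomm : ∀ i j, i + 2 ≤ j → j + 1 < n → s i * s j = s j * s i)
    (hbraid : ∀ i, i + 2 < n → s i * s (i + 1) * s i = s (i + 1) * s i * s (i + 1))
    (l : Ltr) (hl : goodL n P l) :
    (eval s (Wp n P))⁻¹ * eval s (bw l.1 l.2.1 l.2.2) * eval s (Wp n P) =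
      (eval s (aWord (tgt n P l.1 (l.1 + 1 + l.2.1.length)).1
        (tgt n P l.1 (l.1 + 1 + l.2.1.length)).2)) ^ l.2.2 := by
  obtain ⟨i, D, m⟩ := l
  obtain ⟨h1, h2⟩ := hl
  simp only at h1 h2 ⊢
  have hW : eval s (Wp n P) = braaPr s P (n - 1 - P) := braa_eval_range s P _
  rw [hW, ← braa_phi_apply]
  have htl := tgt_lt n P i (i + 1 + D.length) hP (by omega) (by omega)
  rw [braa_eval_aWord s _ _ htl.1]
  have htrue : (P ≤ i ∨ i + 1 + D.length ≤ P) → eval s (bw i D m) = braaAw s i D.length ^ m := by
    intro hor
    apply braa_bw_true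
    intro t ht
    rw [h2 t ht]
    simp only [ne_eq, decide_eq_true_eq]
    omega
  unfold tgt
  split_ifs with c1 c2 c3 c4
  · rw [htrue (Or.inr (by omega)), map_pow, braa_caseA s n hcomm P i D.length hP (by omega)]
    congr 2
    simp only
    omega
  · rw [htrue (Or.inr (by omega)), map_pow, braa_caseB s n hcomm hbraid P D.length hP i (by omega)]
  · rw [braa_caseC s n hcomm hbraid P m hP D i c3 (by omega) (by omega) h2]
    congr 2
    simp only
    omega
  · subst c4
    rw [htrue (Or.inl le_rfl), map_pow, braa_caseD s n hcomm hbraid i D.length (by omega)]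
    congr 2
    · simp only
      omega
    · simp only
      omega
  · rw [htrue (Or.inl (by omega)), map_pow, braa_caseE s n hcomm hbraid P i D.length (by omega) (by omega)]
    congr 2
    simp only
    omega

end Pool.Agent.H53.SQ

end S_BRAA

section S_BRAB

/-!
# Module BRAB: the last step: a word of good bands is conjugate to a strongly quasipositive word

PROOF. Let `U = β.flatMap (fun l => bw l.1 l.2.1 l.2.2)`; then `clo n (wd β) = braidClosure n U`
(`fw i D m = (bw i D m).map (fun p => cross p.1 p.2)`). Put
`L = β.flatMap (fun l => replicate l.2.2 (tgt n P l.1 (l.1 + 1 + l.2.1.length)))`, `A = L.flatMap aWord`,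
`W = Wp n P`, `W' = W.reverse.map (fun p => (p.1, !p.2))` (the inverse word). Then
`eval U = eval (W ++ A ++ W')` by `band_conj` in every group (multiplicativity of `eval`, induction on
`β`), so `Step.braid` gives `braidClosure n U ~ braidClosure n (W ++ (A ++ W'))`; `Step.rot` gives
`braidClosure n ((A ++ W') ++ W)`, and `Step.braid` again gives `braidClosure n A`. All indices `p.1`
of the letters satisfy `p.1 + 1 < n`.
-/

namespace Pool.Agent.H53.SQ

theorem BRAB_eval_append {G : Type} [Group G] (s : ℕ → G) (u v : List (ℕ × Bool)) :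
    eval s (u ++ v) = eval s u * eval s v := by
  simp [eval]

theorem BRAB_eval_inv {G : Type} [Group G] (s : ℕ → G) (u : List (ℕ × Bool)) :
    eval s (u.reverse.map (fun p => (p.1, !p.2))) = (eval s u)⁻¹ := by
  induction u with
  | nil => simp [eval]
  | cons p u ih =>
    rw [List.reverse_cons, List.map_append, BRAB_eval_append, ih,
      show p :: u = [p] ++ u from rfl, BRAB_eval_append, mul_inv_rev]
    congr 1
    obtain ⟨i, t⟩ := p
    cases t <;> simp [eval]

theorem BRAB_fw (i : ℕ) (D : List Bool) (m : ℕ) :
    fw i D m = (bw i D m).map (fun p => Gen.cross p.1 p.2) := by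
  induction D generalizing i with
  | nil => simp [fw, bw]
  | cons f D ih => simp [fw, bw, ih]

theorem BRAB_clo (n : ℕ) (β : List Ltr) :
    clo n (wd β) = braidClosure n (β.flatMap (fun l => bw l.1 l.2.1 l.2.2)) := by
  have : wd β = (β.flatMap (fun l => bw l.1 l.2.1 l.2.2)).map (fun p => Gen.cross p.1 p.2) := by
    rw [wd, List.map_flatMap]
    congr 1
    funext l
    exact BRAB_fw _ _ _
  rw [clo, braidClosure, this, List.append_assoc]
  rfl

theorem BRAB_bw_idx (i : ℕ) (D : List Bool) (m n : ℕ) (h : i + D.length + 1 < n) :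
    ∀ p ∈ bw i D m, p.1 + 1 < n := by
  induction D generalizing i with
  | nil =>
    intro p hp
    rw [bw, List.mem_replicate] at hp
    obtain ⟨-, rfl⟩ := hp
    simpa using h
  | cons f D ih =>
    intro p hp
    simp only [List.length_cons] at h
    rw [bw, List.mem_cons, List.mem_append, List.mem_singleton] at hp
    rcases hp with rfl | hp | rfl
    · simp only; omega
    · exact ih (i + 1) (by omega) p hp
    · simp only; omega

theorem BRAB_Wp_idx (n P : ℕ) : ∀ p ∈ Wp n P, p.1 + 1 < n := by
  intro p hp
  rw [Wp, List.mem_map] at hp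
  obtain ⟨t, ht, rfl⟩ := hp
  rw [List.mem_range] at ht
  simp only; omega

theorem BRAB_a_idx (i j n : ℕ) (hij : i < j) (hj : j < n) : ∀ p ∈ aWord i j, p.1 + 1 < n := by
  intro p hp
  rw [aWord, List.mem_append, List.mem_append, List.mem_map, List.mem_map,
    List.mem_singleton] at hp
  rcases hp with (⟨t, ht, rfl⟩ | rfl) | ⟨t, ht, rfl⟩
  · rw [List.mem_range] at ht; simp only; omega
  · simp only; omega
  · rw [List.mem_reverse, List.mem_range] at ht; simp only; omega

theorem BRAB_pow {G : Type} [Group G] (s : ℕ → G) (w : List (ℕ × Bool)) (m : ℕ) :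
    eval s ((List.replicate m w).flatMap id) = (eval s w) ^ m := by
  induction m with
  | zero => simp [eval]
  | succ m ih =>
    rw [List.replicate_succ, List.flatMap_cons, BRAB_eval_append, ih, pow_succ']
    rfl

theorem braid_fin (n P : ℕ) (hP : P < n) (β : List Ltr) (hβ : ∀ l ∈ β, goodL n P l) :
    ∃ L : List (ℕ × ℕ), (∀ p ∈ L, p.1 < p.2 ∧ p.2 < n) ∧
      Iso (clo n (wd β)) (braidClosure n (L.flatMap fun p => aWord p.1 p.2)) := by
  have hL : ∀ p ∈ β.flatMap (fun l => List.replicate l.2.2
      (tgt n P l.1 (l.1 + 1 + l.2.1.length))), p.1 < p.2 ∧ p.2 < n := by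
    intro p hp
    rw [List.mem_flatMap] at hp
    obtain ⟨l, hl, hp⟩ := hp
    rw [List.mem_replicate] at hp
    obtain ⟨-, rfl⟩ := hp
    exact tgt_lt n P _ _ hP (by omega) (by have := (hβ l hl).1; omega)
  refine ⟨_, hL, ?_⟩
  rw [BRAB_clo]
  set A := (β.flatMap (fun l => List.replicate l.2.2
      (tgt n P l.1 (l.1 + 1 + l.2.1.length)))).flatMap (fun p => aWord p.1 p.2) with hA
  set U := β.flatMap (fun l => bw l.1 l.2.1 l.2.2) with hU
  set W := Wp n P with hW
  set W' := W.reverse.map (fun p => (p.1, !p.2)) with hW'
  have iU : ∀ p ∈ U, p.1 + 1 < n := by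
    intro p hp
    rw [hU, List.mem_flatMap] at hp
    obtain ⟨l, hl, hp⟩ := hp
    exact BRAB_bw_idx _ _ _ n (hβ l hl).1 p hp
  have iA : ∀ p ∈ A, p.1 + 1 < n := by
    intro p hp
    rw [hA, List.mem_flatMap] at hp
    obtain ⟨l, hl, hp⟩ := hp
    exact BRAB_a_idx _ _ n (hL l hl).1 (hL l hl).2 p hp
  have iW : ∀ p ∈ W, p.1 + 1 < n := BRAB_Wp_idx n P
  have iW' : ∀ p ∈ W', p.1 + 1 < n := by
    intro p hp
    rw [hW', List.mem_map] at hp
    obtain ⟨q, hq, rfl⟩ := hp
    exact iW q (List.mem_reverse.1 hq)
  have s1 : Step (braidClosure n U) (braidClosure n (W ++ (A ++ W'))) := by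
    refine Step.braid n _ _ ⟨iU, ?_, ?_⟩
    · intro p hp
      rw [List.mem_append, List.mem_append] at hp
      rcases hp with hp | hp | hp
      · exact iW p hp
      · exact iA p hp
      · exact iW' p hp
    · intro G _ s hc hb
      have key : ∀ β' : List Ltr, (∀ l ∈ β', goodL n P l) →
          (eval s W)⁻¹ * eval s (β'.flatMap (fun l => bw l.1 l.2.1 l.2.2)) * eval s W =
          eval s ((β'.flatMap (fun l => List.replicate l.2.2
            (tgt n P l.1 (l.1 + 1 + l.2.1.length)))).flatMap (fun p => aWord p.1 p.2)) := by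
        intro β' h'
        induction β' with
        | nil => simp [eval]
        | cons l β' ih =>
          have h1 := band_conj s n P hP hc hb l (h' l List.mem_cons_self)
          have h2 := ih (fun l' hl' => h' l' (List.mem_cons_of_mem _ hl'))
          rw [List.flatMap_cons, List.flatMap_cons, List.flatMap_append, BRAB_eval_append,
            BRAB_eval_append, ← h2]
          have h3 : eval s ((List.replicate l.2.2 (tgt n P l.1 (l.1 + 1 + l.2.1.length))).flatMap
              (fun p => aWord p.1 p.2)) = (eval s (aWord (tgt n P l.1 (l.1 + 1 + l.2.1.length)).1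
                (tgt n P l.1 (l.1 + 1 + l.2.1.length)).2)) ^ l.2.2 := by
            rw [← BRAB_pow]
            congr 1
            induction l.2.2 with
            | zero => rfl
            | succ m ihm =>
              rw [List.replicate_succ, List.replicate_succ, List.flatMap_cons,
                List.flatMap_cons, ihm]
              rfl
          rw [h3, ← h1, ← hW]
          group
      rw [BRAB_eval_append, BRAB_eval_append, hA, ← key β hβ, hW', BRAB_eval_inv, hU]
      group
  have s2 : Step (braidClosure n (W ++ (A ++ W'))) (braidClosure n ((A ++ W') ++ W)) := by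
    refine Step.rot n _ _ ?_
    intro p hp
    rw [List.mem_append, List.mem_append] at hp
    rcases hp with hp | hp | hp
    · exact iW p hp
    · exact iA p hp
    · exact iW' p hp
  have s3 : Step (braidClosure n ((A ++ W') ++ W)) (braidClosure n A) := by
    refine Step.braid n _ _ ⟨?_, iA, ?_⟩
    · intro p hp
      rw [List.mem_append, List.mem_append] at hp
      rcases hp with (hp | hp) | hp
      · exact iA p hp
      · exact iW' p hp
      · exact iW p hp
    · intro G _ s hc hb
      rw [BRAB_eval_append, BRAB_eval_append, hW', BRAB_eval_inv]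
      group
  exact ((Relation.EqvGen.rel _ _ s1).trans _ _ _ (Relation.EqvGen.rel _ _ s2)).trans _ _ _
    (Relation.EqvGen.rel _ _ s3)

end Pool.Agent.H53.SQ

end S_BRAB

section S_LABE

/-!
# Module LABE: the unconverted word is the closure of an open drawing of the code by an overarc

PROOF of `labe`: induction on `h` (fixed `O`, `hpos`). Write `A' = A.flatMap lnS`, `A'' = A.flatMap lnL`.
Facts: `A'.length = vl (fun _ => false) A`, `openCount A' = A''.length`; for off items `D`:
`D.flatMap lnL = []`, and with `X = (D.flatMap lnS).map (fun y => (y, false))`: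
`X.map snd = flags (fun _ => false) D`, `Xok true X` (all strands are `inr 0 = inr (2 * 0)`, flag
`false = !true`), `oflags X = []`.
* `done`: exactly one item is `sdead`, the others are `dead`, so the state is `[inr 0, inr 1]`:
  `Add.acap₁ [] [] 0`, `e = []`, `Lab.nil`.
* `post`: `e = cross A''.length true :: e'` (`add_fw` with `m = 1`; `Lab.cross`, `O.sgn v = true`).
* `bR`: `e = cup (A''.length + 1) true :: cross A''.length true :: e'`; `Add.cup`, `Add.cross`;
  `Lab.cup₁ .. (x := gap ..) (j := 0)` then `Lab.cross` with `y = O.nu.symm (some (v, true))`, piece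
  `2 * 1`. Note that `MI.ret n` is the piece `(gap O n, 1)`.
* `bL`: `e = cup A''.length false :: cross (A''.length + 1) true :: e'`; `Lab.cup₂`, `Lab.cross` with
  `x = O.nu.symm (some (v, false))`, piece `2 * 1`, at `A'' ++ [(gap, 1)]`.
* `capR` (here `C n = false`): `add_mvR`, `Add.cap .. true`, `e = cap A''.length :: e'`, `Lab.cap₁ .. 0`.
* `capL`: `add_mvL` with `Q = A' ++ [inl false]`, `Add.cap .. false`, `Lab.cap₂ .. 0`.
* `dieS`: `Add.die`, `Lab.die`, `e = die A''.length :: e'`.
* `fr`: `Add.cup [] _ true`; `Lab.cup₁ [] ..` (for `inl g`, pieces `2` and `1`) or `Lab.loop₁ [] .. 0`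
  (for `inr i`, pieces `0` and `1`); `e = cup 0 true :: e'`.
PROOF of `labe_fin`: `clo 1 x = cup 0 true :: (x ++ [cap 0])`; `Add.acup₁ [] [] 0`,
`Add.born [] [inr 1] 1`, `Lab.born [] []`.
-/

namespace Pool.Agent.H53.SQ

variable {V : Type} {L : ℕ}

def lnS : MI V L → List (Bool ⊕ ℕ)
  | .up _ _ _ => [Sum.inl true]
  | .ret _ => [Sum.inl false]
  | .dead _ => []
  | .sdead => [Sum.inr 0]

def lnL (O : Code V) : MI V O.loops → List (Edge V O.loops × ℕ)
  | .up _ x j => [(x, 2 * j)]
  | .ret n => [(gap O n, 1)]
  | .dead _ => []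
  | .sdead => []

def isS : MI V L → Bool
  | .up none _ _ => true
  | .sdead => true
  | _ => false

theorem labe_len (A : List (MI V L)) : (A.flatMap lnS).length = vl (fun _ => false) A := by
  induction A with
  | nil => rfl
  | cons m A ih =>
    unfold vl at ih ⊢
    rw [List.flatMap_cons, List.length_append, ih, List.map_cons, List.sum_cons]
    cases m <;> simp [lnS, vis]

theorem labe_oc (O : Code V) (A : List (MI V O.loops)) :
    openCount (A.flatMap lnS) = (A.flatMap (lnL O)).length := by
  induction A with
  | nil => rfl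
  | cons m A ih =>
    rw [List.flatMap_cons, openCount_append, ih, List.flatMap_cons, List.length_append]
    cases m <;> simp [lnS, lnL, openCount]

theorem labe_offL (O : Code V) (D : List (MI V O.loops)) (hD : ∀ m ∈ D, m.off = true) :
    D.flatMap (lnL O) = [] := by
  induction D with
  | nil => rfl
  | cons m D ih =>
    rw [List.flatMap_cons, ih (fun m hm => hD m (List.mem_cons_of_mem _ hm))]
    have := hD m List.mem_cons_self
    cases m <;> simp [lnL, MI.off] at this ⊢

/-- the strands of a list of off items with flags -/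
def labe_X (D : List (MI V L)) : List ((Bool ⊕ ℕ) × Bool) :=
  (D.flatMap lnS).map (fun y => (y, false))

theorem labe_Xfst (D : List (MI V L)) : (labe_X D).map Prod.fst = D.flatMap lnS := by
  unfold labe_X
  rw [List.map_map]
  have : (Prod.fst ∘ fun y : Bool ⊕ ℕ => (y, false)) = id := rfl
  rw [this, List.map_id]

theorem labe_Xsnd (D : List (MI V L)) (hD : ∀ m ∈ D, m.off = true) :
    (labe_X D).map Prod.snd = flags (fun _ => false) D := by
  induction D with
  | nil => rfl
  | cons m D ih =>
    have ih := ih (fun m hm => hD m (List.mem_cons_of_mem _ hm))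
    have h := hD m List.mem_cons_self
    unfold labe_X at ih ⊢
    rw [List.flatMap_cons, List.map_append, List.map_append, ih]
    cases m <;> simp [lnS, MI.off, flags] at h ⊢

theorem labe_Xmem (D : List (MI V L)) (hD : ∀ m ∈ D, m.off = true) :
    ∀ x ∈ labe_X D, x = (Sum.inr 0, false) := by
  intro x hx
  unfold labe_X at hx
  rw [List.mem_map] at hx
  obtain ⟨y, hy, rfl⟩ := hx
  rw [List.mem_flatMap] at hy
  obtain ⟨m, hm, hy⟩ := hy
  have h := hD m hm
  cases m <;> simp [lnS, MI.off] at h hy
  rw [hy]

theorem labe_Xok (D : List (MI V L)) (hD : ∀ m ∈ D, m.off = true) : Xok true (labe_X D) := by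
  intro x hx
  rw [labe_Xmem D hD x hx]
  exact Or.inr ⟨0, rfl, rfl⟩

theorem labe_Xof (D : List (MI V L)) (hD : ∀ m ∈ D, m.off = true) : oflags (labe_X D) = [] := by
  unfold oflags
  rw [List.filter_eq_nil_iff.2]
  · rfl
  · intro x hx
    rw [labe_Xmem D hD x hx]
    simp

theorem labe_done (D : List (MI V L)) (hD : ∀ m ∈ D, m.off = true) :
    D.flatMap lnS = List.replicate (D.countP isS) (Sum.inr 0) := by
  induction D with
  | nil => rfl
  | cons m D ih =>
    have ih := ih (fun m hm => hD m (List.mem_cons_of_mem _ hm))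
    have h := hD m List.mem_cons_self
    rw [List.flatMap_cons, ih, List.countP_cons]
    cases m <;> simp [lnS, MI.off, isS, List.replicate_succ] at h ⊢

theorem labe {O : Code V} (hpos : ∀ v, O.sgn v = true) {ms : List (MI V O.loops)}
    {F : List (Nm V O.loops)} {T : List (Tok V O.loops)} {f : (Nm V O.loops → Bool) → List Gen}
    (h : MW O ms F T f) (hs : ms.countP isS = 1) :
    ∃ e : List Gen, Add true (ms.flatMap lnS ++ [Sum.inr 1]) e (f (fun _ => false) ++ [Gen.cap 0]) ∧
      Lab O (ms.flatMap (lnL O)) e T := by
  induction h with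
  | done ms h =>
    refine ⟨[], ?_, ?_⟩
    · rw [labe_done ms h, hs]
      exact Add.acap₁ [] [] 0 [] [] Add.nil
    · rw [labe_offL O ms h]
      exact Lab.nil
  | post A D B x y a b i j v F T f hD ha hb h ih =>
    obtain ⟨e, h1, h2⟩ := ih (by
      simp only [List.countP_append, List.countP_cons] at hs ⊢
      cases x <;> cases y <;> simpa [isS] using hs)
    have h3 := add_fw true (A.flatMap lnS) (labe_X D) (B.flatMap lnS ++ [Sum.inr 1]) 1 e
      (f (fun _ => false) ++ [Gen.cap 0]) (labe_Xok D hD) (by
        rw [labe_Xfst]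
        simpa only [lnS, List.flatMap_append, List.flatMap_cons, List.append_assoc,
          List.cons_append, List.nil_append] using h1)
    rw [labe_Xfst, labe_Xsnd D hD, labe_Xof D hD, labe_len, labe_oc] at h3
    have h4 := Lab.cross (A.flatMap (lnL O)) (B.flatMap (lnL O)) v a b i j e T ha hb (by
        simpa only [lnL, labe_offL O D hD, List.flatMap_append, List.flatMap_cons,
          List.append_assoc, List.cons_append, List.nil_append, mul_zero] using h2)
    rw [hpos] at h4
    refine ⟨Gen.cross (A.flatMap (lnL O)).length true :: e, ?_, ?_⟩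
    · simpa only [lnS, List.flatMap_append, List.flatMap_cons, List.append_assoc,
        List.cons_append, List.nil_append, fw, List.replicate_one] using h3
    · simpa only [lnL, labe_offL O D hD, List.flatMap_append, List.flatMap_cons,
        List.append_assoc, List.cons_append, List.nil_append] using h4
  | bR A B x x₁ x₂ a j v F T f ha hx h ih =>
    obtain ⟨e, h1, h2⟩ := ih (by
      simp only [List.countP_append, List.countP_cons] at hs ⊢
      rcases hx with ⟨rfl, rfl⟩ | ⟨rfl, rfl, rfl⟩
      · cases x₁ <;> simpa [isS] using hs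
      · simpa [isS] using hs)
    have h3 := Add.cross (ov := true) (A.flatMap lnS)
      (Sum.inl false :: (B.flatMap lnS ++ [Sum.inr 1])) true e
      (f (fun _ => false) ++ [Gen.cap 0]) (by
        simpa only [lnS, List.flatMap_append, List.flatMap_cons, List.append_assoc,
          List.cons_append, List.nil_append] using h1)
    have h4 := Add.cup (ov := true) (A.flatMap lnS ++ [Sum.inl true])
      (B.flatMap lnS ++ [Sum.inr 1]) true _ _ (by
        simpa only [List.append_assoc, List.cons_append, List.nil_append, Bool.not_true] using h3)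
    rw [openCount_append, List.length_append, labe_len, labe_oc] at h4
    have h5 := Lab.cross (A.flatMap (lnL O)) ((gap O (Sum.inl (v, true)), 1) ::
        B.flatMap (lnL O)) v a (O.nu.symm (some (v, true))) j 1 e T ha
        (by rw [Equiv.apply_symm_apply]) (by
        simpa only [lnL, List.flatMap_append, List.flatMap_cons, List.append_assoc,
          List.cons_append, List.nil_append, mul_zero] using h2)
    have h6 := Lab.cup₁ (A.flatMap (lnL O) ++ [(Sum.inl a, 2 * j)]) (B.flatMap (lnL O))
        (gap O (Sum.inl (v, true))) 0 _ _ (by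
          simpa only [gap, List.append_assoc, List.cons_append, List.nil_append, mul_zero,
            zero_add, mul_one] using h5)
    rw [hpos, List.length_append] at h6
    refine ⟨Gen.cup ((A.flatMap (lnL O)).length + 1) true :: Gen.cross (A.flatMap (lnL O)).length true :: e,
      ?_, ?_⟩
    rotate_left
    · simpa only [lnL, List.flatMap_append, List.flatMap_cons,
        List.append_assoc, List.cons_append, List.nil_append, List.length_singleton] using h6
    · simpa only [lnS, List.flatMap_append, List.flatMap_cons, List.append_assoc,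
        List.cons_append, List.nil_append, List.length_singleton, openCount, zero_add] using h4
  | bL A B x x₁ x₂ a j v F T f ha hx h ih =>
    obtain ⟨e, h1, h2⟩ := ih (by
      simp only [List.countP_append, List.countP_cons] at hs ⊢
      rcases hx with ⟨rfl, rfl⟩ | ⟨rfl, rfl, rfl⟩
      · cases x₂ <;> simpa [isS] using hs
      · simpa [isS] using hs)
    have h3 := Add.cross (ov := true) (A.flatMap lnS ++ [Sum.inl false])
      (B.flatMap lnS ++ [Sum.inr 1]) true e
      (f (fun _ => false) ++ [Gen.cap 0]) (by
        simpa only [lnS, List.flatMap_append, List.flatMap_cons, List.append_assoc,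
          List.cons_append, List.nil_append] using h1)
    have h4 := Add.cup (ov := true) (A.flatMap lnS)
      (Sum.inl true :: (B.flatMap lnS ++ [Sum.inr 1])) false _ _ (by
        simpa only [List.append_assoc, List.cons_append, List.nil_append, Bool.not_false] using h3)
    rw [openCount_append, List.length_append, labe_len, labe_oc] at h4
    have h5 := Lab.cross (A.flatMap (lnL O) ++ [(gap O (Sum.inl (v, false)), 1)])
        (B.flatMap (lnL O)) v (O.nu.symm (some (v, false))) a 1 j e T
        (by rw [Equiv.apply_symm_apply]) ha (by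
        simpa only [lnL, List.flatMap_append, List.flatMap_cons, List.append_assoc,
          List.cons_append, List.nil_append, mul_zero] using h2)
    have h6 := Lab.cup₂ (A.flatMap (lnL O)) ((Sum.inl a, 2 * j) :: B.flatMap (lnL O))
        (gap O (Sum.inl (v, false))) 0 _ _ (by
          simpa only [gap, List.append_assoc, List.cons_append, List.nil_append, mul_zero,
            zero_add, mul_one] using h5)
    rw [hpos, List.length_append] at h6
    refine ⟨Gen.cup (A.flatMap (lnL O)).length false :: Gen.cross ((A.flatMap (lnL O)).length + 1) true :: e,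
      ?_, ?_⟩
    rotate_left
    · simpa only [lnL, List.flatMap_append, List.flatMap_cons,
        List.append_assoc, List.cons_append, List.nil_append, List.length_singleton] using h6
    · simpa only [lnS, List.flatMap_append, List.flatMap_cons, List.append_assoc,
        List.cons_append, List.nil_append, List.length_singleton, openCount, zero_add] using h4
  | capR A D B n F T f hD h ih =>
    obtain ⟨e, h1, h2⟩ := ih (by
      simp only [List.countP_append, List.countP_cons] at hs ⊢
      simpa [isS] using hs)
    have h3 := Add.cap (ov := true) (A.flatMap lnS ++ D.flatMap lnS)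
      (B.flatMap lnS ++ [Sum.inr 1]) true e (f (fun _ => false) ++ [Gen.cap 0]) (by
        simpa only [lnS, List.flatMap_append, List.flatMap_cons, List.append_assoc,
          List.cons_append, List.nil_append] using h1)
    have h4 := add_mvR true (A.flatMap lnS) (labe_X D) (Sum.inl false ::
      (B.flatMap lnS ++ [Sum.inr 1])) _ _ (labe_Xok D hD) (by
        rw [labe_Xfst]
        simpa only [List.append_assoc, Bool.not_true] using h3)
    have h7 : (D.flatMap lnS).length = (flags (fun _ => false) D).length := by
      rw [← labe_Xsnd D hD, List.length_map, ← labe_Xfst, List.length_map]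
    have h8 : openCount (D.flatMap lnS) = 0 := by
      rw [labe_oc, labe_offL O D hD]; rfl
    rw [labe_Xfst, labe_Xsnd D hD, labe_Xof D hD, openCount_append, List.length_append, labe_len,
      labe_oc, h7, h8] at h4
    have h5 := Lab.cap₁ (A.flatMap (lnL O)) (B.flatMap (lnL O)) (gap O n) 0 e _ (by
        simpa only [lnL, labe_offL O D hD, List.flatMap_append, List.flatMap_cons,
          List.append_assoc, List.cons_append, List.nil_append] using h2)
    refine ⟨Gen.cap (A.flatMap (lnL O)).length :: e,
      ?_, ?_⟩
    rotate_left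
    · simpa only [lnL, labe_offL O D hD, List.flatMap_append, List.flatMap_cons,
        List.append_assoc, List.cons_append, List.nil_append] using h5
    · simpa [lnS, List.flatMap_append, List.flatMap_cons, mvR, List.length_flatMap] using h4
  | capL A D B n F T f hD h ih =>
    obtain ⟨e, h1, h2⟩ := ih (by
      simp only [List.countP_append, List.countP_cons] at hs ⊢
      simpa [isS] using hs)
    have h3 := Add.cap (ov := true) (A.flatMap lnS)
      (D.flatMap lnS ++ (B.flatMap lnS ++ [Sum.inr 1])) false e
      (f (fun _ => false) ++ [Gen.cap 0]) (by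
        simpa only [lnS, List.flatMap_append, List.flatMap_cons, List.append_assoc,
          List.cons_append, List.nil_append] using h1)
    have h4 := add_mvL true (A.flatMap lnS ++ [Sum.inl false]) (labe_X D)
      (B.flatMap lnS ++ [Sum.inr 1]) _ _ (labe_Xok D hD) (by
        rw [labe_Xfst]
        simpa only [List.append_assoc, List.cons_append, List.nil_append, Bool.not_false] using h3)
    rw [labe_Xfst, labe_Xsnd D hD, labe_Xof D hD, openCount_append, List.length_append, labe_len,
      labe_oc] at h4
    have h5 := Lab.cap₂ (A.flatMap (lnL O)) (B.flatMap (lnL O)) (gap O n) 0 e _ (by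
        simpa only [lnL, labe_offL O D hD, List.flatMap_append, List.flatMap_cons,
          List.append_assoc, List.cons_append, List.nil_append] using h2)
    refine ⟨Gen.cap (A.flatMap (lnL O)).length :: e,
      ?_, ?_⟩
    rotate_left
    · simpa only [lnL, labe_offL O D hD, List.flatMap_append, List.flatMap_cons,
        List.append_assoc, List.cons_append, List.nil_append, mul_zero, zero_add] using h5
    · simpa [lnS, List.flatMap_append, List.flatMap_cons, mvL, List.length_flatMap] using h4
  | dieS A B a j F T f ha h ih =>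
    obtain ⟨e, h1, h2⟩ := ih (by
      simp only [List.countP_append, List.countP_cons] at hs ⊢
      simpa [isS] using hs)
    have h3 := Add.die (ov := true) (A.flatMap lnS)
      (B.flatMap lnS ++ [Sum.inr 1]) e (f (fun _ => false) ++ [Gen.cap 0]) (by
        simpa only [lnS, List.flatMap_append, List.flatMap_cons, List.append_assoc,
          List.cons_append, List.nil_append] using h1)
    rw [labe_oc] at h3
    have h5 := Lab.die (A.flatMap (lnL O)) (B.flatMap (lnL O)) a j e _ ha (by
        simpa only [lnL, List.flatMap_append, List.flatMap_cons,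
          List.append_assoc, List.cons_append, List.nil_append] using h2)
    refine ⟨Gen.die (A.flatMap (lnL O)).length :: e,
      ?_, ?_⟩
    rotate_left
    · simpa only [lnL, List.flatMap_append, List.flatMap_cons,
        List.append_assoc, List.cons_append, List.nil_append] using h5
    · simpa only [lnS, List.flatMap_append, List.flatMap_cons, List.append_assoc,
        List.cons_append, List.nil_append] using h3
  | fr n ms F T f h ih =>
    obtain ⟨e, h1, h2⟩ := ih (by
      simp only [List.countP_cons] at hs ⊢
      simpa [isS] using hs)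
    have h3 := Add.cup (ov := true) []
      (ms.flatMap lnS ++ [Sum.inr 1]) true e (f (fun _ => false) ++ [Gen.cap 0]) (by
        simpa only [lnS, List.flatMap_append, List.flatMap_cons, List.append_assoc,
          List.cons_append, List.nil_append, Bool.not_true] using h1)
    refine ⟨_, h3, ?_⟩
    rcases n with g | i
    · exact Lab.cup₁ [] (ms.flatMap (lnL O)) (gap O (Sum.inl g)) 0 e _ (by
          simpa only [lnL, fpc, List.flatMap_append, List.flatMap_cons,
          List.append_assoc, List.cons_append, List.nil_append] using h2)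
    · exact Lab.loop₁ [] (ms.flatMap (lnL O)) i 0 e _ (by
          simpa only [lnL, fpc, gap, List.flatMap_append, List.flatMap_cons,
          List.append_assoc, List.cons_append, List.nil_append] using h2)

theorem labe_fin {O : Code V} (hpos : ∀ v, O.sgn v = true)
    {F : List (Nm V O.loops)} {T : List (Tok V O.loops)} {f : (Nm V O.loops → Bool) → List Gen}
    (h : MW O [MI.up none (Sum.inl none) 0] F T f) :
    ∃ e : List Gen, Add true [] e (clo 1 (f (fun _ => false))) ∧ Lab O [] e (Tok.born :: T) := by
  obtain ⟨e, h1, h2⟩ := labe hpos h (by simp [isS])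
  have h3 := Add.born (ov := true) [] [Sum.inr 1] 1 e _ (by simpa [lnS] using h1)
  have h4 := Add.acup₁ (ov := true) [] [] 0 _ _ h3
  refine ⟨_, ?_, Lab.born [] [] e T (by simpa [lnL] using h2)⟩
  simpa [clo, cups, caps, openCount] using h4

end Pool.Agent.H53.SQ

end S_LABE
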