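import Mathlib
import Pool.Agent.H53.SQ.Defs
import Pool.Agent.H53.SQ.G1

/-! Part G4 of the proof for MP_41dcdb_gt: this file joins the modules FROA, FRO, FRT, TOK. -/

section S_FROA

/-!
# Module FROA: the stack check, and two consecutive living items that look at each other

PROOFS. `chk_first`: by definition. `chk_last`, `chk_adj`: induction on `w`, `A`, for all stacks.
`find_pair`: the living items are `up ..` and `ret ..`, the others have the word `[]`. A living item is
called LEFT-looking if its word ends with an opening letter `(i, true)`, RIGHT-looking if its word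
starts with a closing letter `(i, false)`. By `hs` every living item is one of the two, according to its
active letter: `up n x j (it v false r)` looks right (its word starts with `(inl v, false)`),
`up n x j (it v true r)` looks left (its word ends with `(inl v, true)`), `up (some n) x j nil` has the
word `[topL n]`, `ret n` the word `[retL n]`. The leftmost living item does not look left: its last
letter is the last letter of `wS S` (`chk_last`). The rightmost living item does not look right
(`chk_first`). Hence somewhere there are consecutive living items `m, m'`, `m` looking right, `m'`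
looking left. (E.g. take the first living item from the left which looks left, and the living item
before it.) `active m` says which form the item has.
-/

namespace Pool.Agent.H53.SQ

variable {V : Type} {L : ℕ}

theorem chk_first {ι : Type} (i : ι) (w : List (ι × Bool)) : ¬ chk [] ((i, false) :: w) := by
  simp [chk]

theorem chk_last {ι : Type} (i : ι) (st : List ι) (w : List (ι × Bool)) :
    ¬ chk st (w ++ [(i, true)]) := by
  induction w generalizing st with
  | nil => simp [chk]
  | cons p w ih =>
    obtain ⟨j, b⟩ := p
    cases b with
    | true => simpa [chk] using ih (j :: st)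
    | false =>
      cases st with
      | nil => simp [chk]
      | cons k st =>
        simp only [List.cons_append, chk]
        exact fun h => ih st h.2

theorem chk_adj {ι : Type} (i j : ι) (st : List ι) (A B : List (ι × Bool))
    (h : chk st (A ++ (i, true) :: (j, false) :: B)) : i = j ∧ chk st (A ++ B) := by
  induction A generalizing st with
  | nil =>
    simp only [List.nil_append, chk] at h
    exact ⟨h.1.symm, h.2⟩
  | cons p A ih =>
    obtain ⟨k, b⟩ := p
    cases b with
    | true =>
      simp only [List.cons_append, chk] at h ⊢
      exact ih _ h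
    | false =>
      cases st with
      | nil => simp [chk] at h
      | cons l st =>
        simp only [List.cons_append, chk] at h ⊢
        obtain ⟨h1, h2⟩ := ih st h.2
        exact ⟨h1, h.1, h2⟩

theorem wS_append (A B : List (FI V L)) : wS (A ++ B) = wS B ++ wS A := by
  induction A with
  | nil => simp [wS]
  | cons m A ih => simp [wS, ih, List.append_assoc]

def FI.off : FI V L → Bool
  | .dead _ => true
  | .sdead => true
  | _ => false

/-- the item looks right, with the active (closing) letter `i` and the rest `w` of its word -/
inductive LookR : FI V L → (V ⊕ Nm V L) → List (Lt V L) → Prop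
  | it (n : Option (Nm V L)) (x : Edge V L) (j : ℕ) (v : V) (r : BT V) :
      LookR (.up n x j (.it v false r)) (Sum.inl v) (lw (.up n x j r))
  | top (n : Nm V L) (x : Edge V L) (j : ℕ) (h : sd n = true) :
      LookR (.up (some n) x j .nil) (Sum.inr n) []
  | ret (n : Nm V L) (h : sd n = false) : LookR (.ret n) (Sum.inr n) []

/-- the item looks left, with the active (opening) letter `i` and the rest `w` of its word -/
inductive LookL : FI V L → (V ⊕ Nm V L) → List (Lt V L) → Prop
  | it (n : Option (Nm V L)) (x : Edge V L) (j : ℕ) (v : V) (r : BT V) :
      LookL (.up n x j (.it v true r)) (Sum.inl v) (lw (.up n x j r))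
  | top (n : Nm V L) (x : Edge V L) (j : ℕ) (h : sd n = false) :
      LookL (.up (some n) x j .nil) (Sum.inr n) []
  | ret (n : Nm V L) (h : sd n = true) : LookL (.ret n) (Sum.inr n) []

theorem lw_lookR (m : FI V L) (i : V ⊕ Nm V L) (w : List (Lt V L)) (h : LookR m i w) :
    lw m = (i, false) :: w := by
  cases h with
  | it n x j v r => cases n <;> simp [lw]
  | top n x j h => simp [lw, topL, h]
  | ret n h => simp [lw, retL, h]

theorem lw_lookL (m : FI V L) (i : V ⊕ Nm V L) (w : List (Lt V L)) (h : LookL m i w) :
    lw m = w ++ [(i, true)] := by
  cases h with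
  | it n x j v r => cases n <;> simp [lw]
  | top n x j h => simp [lw, topL, h]
  | ret n h => simp [lw, retL, h]

theorem froa_wS_off (D : List (FI V L)) (h : ∀ d ∈ D, d.off = true) : wS D = [] := by
  induction D with
  | nil => rfl
  | cons d D ih =>
    have h1 := ih fun e he => h e (List.mem_cons_of_mem _ he)
    have h2 := h d List.mem_cons_self
    cases d with
    | up n x j b => simp [FI.off] at h2
    | ret n => simp [FI.off] at h2
    | dead n => simp [wS, lw, h1]
    | sdead => simp [wS, lw, h1]

theorem froa_split (S : List (FI V L))
    (hs : ∀ m ∈ S, m.off = false → (∃ i w, LookR m i w) ∨ (∃ i w, LookL m i w)) :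
    (∃ (A D B : List (FI V L)) (m m' : FI V L) (i i' : V ⊕ Nm V L) (w w' : List (Lt V L)),
      S = A ++ m :: (D ++ m' :: B) ∧ (∀ d ∈ D, d.off = true) ∧ LookR m i w ∧ LookL m' i' w') ∨
    (∀ d ∈ S, d.off = true) ∨
    (∃ (D B : List (FI V L)) (m' : FI V L) (i' : V ⊕ Nm V L) (w' : List (Lt V L)),
      S = D ++ m' :: B ∧ (∀ d ∈ D, d.off = true) ∧ LookL m' i' w') ∨
    (∃ (A D : List (FI V L)) (m : FI V L) (i : V ⊕ Nm V L) (w : List (Lt V L)),
      S = A ++ m :: D ∧ (∀ d ∈ D, d.off = true) ∧ LookR m i w) := by
  induction S with
  | nil => exact Or.inr (Or.inl (by simp))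
  | cons x T ih =>
    have ih := ih fun m hm => hs m (List.mem_cons_of_mem _ hm)
    rcases ih with ⟨A, D, B, m, m', i, i', w, w', rfl, hD, hR, hL⟩ | ih
    · exact Or.inl ⟨x :: A, D, B, m, m', i, i', w, w', rfl, hD, hR, hL⟩
    by_cases hx : x.off = true
    · right
      rcases ih with hT | ⟨D, B, m', i', w', rfl, hD, hL⟩ | ⟨A, D, m, i, w, rfl, hD, hR⟩
      · left
        intro d hd
        rcases List.mem_cons.1 hd with rfl | hd
        · exact hx
        · exact hT d hd
      · right; left
        refine ⟨x :: D, B, m', i', w', rfl, ?_, hL⟩
        intro d hd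
        rcases List.mem_cons.1 hd with rfl | hd
        · exact hx
        · exact hD d hd
      · right; right
        exact ⟨x :: A, D, m, i, w, rfl, hD, hR⟩
    · have hx' : x.off = false := by simpa using hx
      rcases hs x List.mem_cons_self hx' with ⟨i, w, hR⟩ | ⟨i, w, hL⟩
      · rcases ih with hT | ⟨D, B, m', i', w', rfl, hD, hL⟩ | ⟨A, D, m, i, w, rfl, hD, hR⟩
        · exact Or.inr (Or.inr (Or.inr ⟨[], T, x, i, w, rfl, hT, hR⟩))
        · exact Or.inl ⟨[], D, B, x, m', i, i', w, w', rfl, hD, hR, hL⟩
        · exact Or.inr (Or.inr (Or.inr ⟨x :: A, D, m, i, w, rfl, hD, hR⟩))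
      · exact Or.inr (Or.inr (Or.inl ⟨[], T, x, i, w, rfl, by simp, hL⟩))

theorem find_pair (S : List (FI V L)) (hw : chk [] (wS S)) (hl : ∃ m ∈ S, m.off = false)
    (hs : ∀ m ∈ S, m.off = false → (∃ i w, LookR m i w) ∨ (∃ i w, LookL m i w)) :
    ∃ (A D B : List (FI V L)) (m m' : FI V L) (i i' : V ⊕ Nm V L) (w w' : List (Lt V L)),
      S = A ++ m :: (D ++ m' :: B) ∧ (∀ d ∈ D, d.off = true) ∧ LookR m i w ∧ LookL m' i' w' := by
  rcases froa_split S hs with h | h | ⟨D, B, m', i', w', rfl, hD, hL⟩ | ⟨A, D, m, i, w, rfl, hD, hR⟩
  · exact h
  · obtain ⟨m, hm, hm'⟩ := hl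
    rw [h m hm] at hm'
    simp at hm'
  · exfalso
    rw [wS_append, froa_wS_off D hD, List.append_nil, wS, lw_lookL m' i' w' hL,
      ← List.append_assoc] at hw
    exact chk_last _ _ _ hw
  · exfalso
    rw [wS_append, wS, froa_wS_off D hD, List.nil_append, lw_lookR m i w hR,
      List.cons_append] at hw
    exact chk_first _ _ hw

end Pool.Agent.H53.SQ

end S_FROA

section S_FRO

/-!
# Module FRO: from trees of bars with correct contour words to `MW`

Frontier items `FI` carry the remaining bars. `wS S` is the word of the frontier, read from RIGHT to
LEFT (`wS (m :: S) = wS S ++ lw m`).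

PROOF of `frontier`: strong induction on the measure `mu S = sum over the items up .. b of
(2 * size b + 1)` (`size` = number of items in all bars). `T`, `F` up to permutation.
1. If some item is `up n x j (ch ..)` (write `S = A ++ m :: B`): execute it. The word `wS` does not
   change (this is how `RC`, `LC` are defined): e.g. for `br` (`j = false`, `s = false`, child with the name
   `n' = inl (v, true)`) `S' = A ++ up n (v,false) 0 r :: up n' (v,true) 0 c :: ret n' :: B`,
   `lw (ret n') ++ lw (up n' .. c) ++ lw (up n .. r)` (right to left!) equals `lw m`. Use `MW.bR` with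
   `x₁ = n, x₂ = n'` (`br`), `MW.bR` with `x₁ = n', x₂ = none` (`jl`, only for `n = none` because of
   `okI`), `MW.bL` with `x₁ = n', x₂ = n` (`bl`), `MW.bL` with `x₁ = none, x₂ = n'` (`jr`).
   The edges: the item `m` is `up n (inl a) j (ch j' v s c r)` with `O.nu a = some (v, s)` by `Path`; the
   strand on the left starts at `some (v, false)`, the strand on the right at `some (v, true)`;
   the bar of the parent continues at `nu (v, if j' then !s else s)`, the child at the other one.
2. If some item is `up none x j nil`: `x = inl a`, `O.nu a = none`: `MW.dieS`, new item `sdead`, same word.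
3. Otherwise, if no item is alive (`up` or `ret`): `MW.done`. (All items `off`; `F = T = []`.)
4. (use `find_pair` of FROA) Otherwise every living item has an ACTIVE letter: for `up n x j (it v false r)` the letter
   `(inl v, false)`, which is the FIRST letter of `lw m` (it looks to the right), for
   `up n x j (it v true r)` the letter `(inl v, true)`, the LAST letter of `lw m` (it looks to the left),
   for `up (some n) x j nil` the only letter `topL n`, for `ret n` the only letter `retL n`; a closing
   letter (second component `false`) looks right, an opening letter looks left.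
   The leftmost living item looks right: otherwise its active letter, which is opening, would be
   the last letter of `wS S`, impossible (`chk_last`). The rightmost living item looks left: a closing
   letter cannot be the first letter of `wS S` (`chk_first`). So there are consecutive living items
   `m, m'` (`S = A ++ m :: (D ++ m' :: B)`, `D` off) such that `m` looks right and `m'` looks left. In the
   word the active letters are adjacent: `wS S = U ++ (i', true) :: (i, false) :: U'` (first `m'`, then
   `m`); by `chk_adj` `i' = i` and `chk [] (U ++ U')`. Cases: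
   - `i = inl v`: `m = up n (inl a) j (it v false r)`, `m' = up n' (inl b) j' (it v true r')`: `MW.post`,
     word `U ++ U'`, `T`: `cross v` is counted at the item `it v false` (`btoks`).
   - `i = inr n`: `m` is `up (some n) x 0 nil` with `topL n = (inr n, false)`, i.e. `sd n = true`, or
     `ret n` with `sd n = false`; `m'` is `ret n` with `sd n = true`, or `up (some n) x 0 nil` with
     `sd n = false`. So either `m = up (some n) .. nil`, `m' = ret n`: `MW.capR`, or `m = ret n`,
     `m' = up (some n) .. nil`: `MW.capL`. The edge is `gap O n`: for `n = inl g`, `Path nil` gives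
     `O.nu a = some g`; for `n = inr i` by `okI`. The piece is `0` by `okI`.
   The living items never have the form `up none .. nil` here (step 2).
-/

namespace Pool.Agent.H53.SQ

variable {V : Type} {L : ℕ}

/-- number of items of a bar -/
def fro_sz : BT V → ℕ
  | .nil => 0
  | .it _ _ r => fro_sz r + 1
  | .ch _ _ _ c r => fro_sz c + fro_sz r + 1

def fro_mi : FI V L → ℕ
  | .up _ _ _ b => 2 * fro_sz b + 1
  | _ => 0

def fro_mu (S : List (FI V L)) : ℕ := (S.map fro_mi).sum

theorem fro_mu_append (A B : List (FI V L)) : fro_mu (A ++ B) = fro_mu A + fro_mu B := by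
  simp [fro_mu]

theorem fro_mu_cons (m : FI V L) (B : List (FI V L)) : fro_mu (m :: B) = fro_mi m + fro_mu B := by
  simp [fro_mu]

/-- the conclusion -/
def fro_R (O : Code V) (S : List (FI V O.loops)) : Prop :=
  ∃ (F : List (Nm V O.loops)) (T : List (Tok V O.loops))
      (f : (Nm V O.loops → Bool) → List Gen), MW O (S.map FI.er) F T f ∧
      (F : Multiset (Nm V O.loops)) = (S.flatMap fnm : List _) ∧
      (T : Multiset (Tok V O.loops)) = (S.flatMap (ftk O) : List _)

theorem fro_off {m : FI V L} : m.er.off = m.off := by
  cases m <;> rfl

theorem fro_offD {D : List (FI V L)} (hD : ∀ d ∈ D, d.off = true) :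
    ∀ m ∈ D.map FI.er, m.off = true := by
  intro m hm
  obtain ⟨d, hd, rfl⟩ := List.mem_map.1 hm
  rw [fro_off]
  exact hD d hd

theorem fro_lw (n : Option (Nm V L)) (x x' : Edge V L) (j j' : ℕ) (b : BT V) :
    lw (.up n x j b) = lw (.up n x' j' b) := by
  cases n <;> rfl

theorem fro_wS_off {D : List (FI V L)} (hD : ∀ d ∈ D, d.off = true) : wS D = [] := by
  induction D with
  | nil => rfl
  | cons d D ih =>
    have h1 := ih fun e he => hD e (List.mem_cons_of_mem _ he)
    have h2 := hD d List.mem_cons_self
    show wS D ++ lw d = []
    rw [h1]
    cases d with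
    | up n x j b => exact absurd h2 (by simp [FI.off])
    | ret n => exact absurd h2 (by simp [FI.off])
    | dead n => rfl
    | sdead => rfl

/-- a bar in an `up` item, first item a crossing: the edge -/
theorem fro_it {O : Code V} {n : Option (Nm V O.loops)} {x : Edge V O.loops} {j : ℕ} {v : V}
    {s : Bool} {r : BT V} (h : okI O (.up n x j (.it v s r))) :
    ∃ a, x = Sum.inl a ∧ O.nu a = some (v, s) ∧ okI O (.up n (Sum.inl (some (v, s))) 0 r) := by
  rcases n with _ | (g | i)
  · obtain ⟨a, rfl, ⟨h1, h2⟩, h3⟩ := h
    exact ⟨a, rfl, h1, _, rfl, h2, h3⟩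
  · obtain ⟨a, rfl, ⟨h1, h2⟩, h3, _⟩ := h
    exact ⟨a, rfl, h1, _, rfl, h2, h3, fun _ => rfl⟩
  · exact absurd h.2.2 (by simp)

theorem fro_ch {O : Code V} {n : Option (Nm V O.loops)} {x : Edge V O.loops} {j : ℕ} {jj : Bool}
    {v : V} {s : Bool} {c r : BT V} (h : okI O (.up n x j (.ch jj v s c r))) :
    ∃ a, x = Sum.inl a ∧ O.nu a = some (v, s) ∧
      okI O (.up n (Sum.inl (some (v, if jj then !s else s))) 0 r) ∧
      okI O (.up (some (Sum.inl (v, !s))) (Sum.inl (some (v, if jj then s else !s))) 0 c) ∧
      (jj = true → n = none) := by
  rcases n with _ | (g | i)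
  · obtain ⟨a, rfl, ⟨h1, h2, h3⟩, h4, h5⟩ := h
    exact ⟨a, rfl, h1, ⟨_, rfl, h2, h5⟩, ⟨_, rfl, h3, h4, fun _ => rfl⟩, fun _ => rfl⟩
  · obtain ⟨a, rfl, ⟨h1, h2, h3⟩, ⟨h4, h5, h6⟩, _⟩ := h
    exact ⟨a, rfl, h1, ⟨_, rfl, h2, h6, fun _ => rfl⟩, ⟨_, rfl, h3, h5, fun _ => rfl⟩,
      fun h' => absurd (h4.symm.trans h') (by simp)⟩
  · exact absurd h.2.2 (by simp)

theorem fro_nil {O : Code V} {n : Nm V O.loops} {x : Edge V O.loops} {j : ℕ}
    (h : okI O (.up (some n) x j .nil)) : x = gap O n ∧ j = 0 := by
  rcases n with g | i
  · obtain ⟨a, rfl, h1, _, h3⟩ := h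
    refine ⟨?_, h3 rfl⟩
    have h1' : O.nu a = some g := h1
    show Sum.inl a = Sum.inl (O.nu.symm (some g))
    rw [← h1', Equiv.symm_apply_apply]
  · exact ⟨h.1, h.2.1⟩

theorem fro_none {O : Code V} {x : Edge V O.loops} {j : ℕ}
    (h : okI O (.up none x j .nil)) : ∃ a, x = Sum.inl a ∧ O.nu a = none := by
  obtain ⟨a, rfl, h1, _⟩ := h
  exact ⟨a, rfl, h1⟩

theorem fro_nm_append {β : Type} (g : FI V L → List β) (A B : List (FI V L)) :
    (((A ++ B).flatMap g : List β) : Multiset β) = (A.flatMap g : List β) + (B.flatMap g : List β) := by
  rw [List.flatMap_append, Multiset.coe_add]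

theorem fro_nm_cons {β : Type} (g : FI V L → List β) (m : FI V L) (B : List (FI V L)) :
    (((m :: B).flatMap g : List β) : Multiset β) = (g m : List β) + (B.flatMap g : List β) := by
  rw [List.flatMap_cons, Multiset.coe_add]

theorem fro_nm_off {D : List (FI V L)} (hD : ∀ d ∈ D, d.off = true) : D.flatMap fnm = [] := by
  rw [List.flatMap_eq_nil_iff]
  intro d hd
  have := hD d hd
  cases d <;> simp_all [FI.off, fnm]

theorem fro_tk_off {O : Code V} {D : List (FI V O.loops)} (hD : ∀ d ∈ D, d.off = true) :
    D.flatMap (ftk O) = [] := by
  rw [List.flatMap_eq_nil_iff]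
  intro d hd
  have := hD d hd
  cases d <;> simp_all [FI.off, ftk]

/-- events of an `up` item -/
theorem fro_ftk (O : Code V) (n : Option (Nm V O.loops)) (x : Edge V O.loops) (j : ℕ) (b : BT V) :
    ((ftk O (.up n x j b) : List (Tok V O.loops)) : Multiset (Tok V O.loops)) =
      ((btoks O b : List (Tok V O.loops)) : Multiset (Tok V O.loops)) +
      (if n.isNone then {Tok.die} else 0) := by
  cases n with
  | none =>
    rw [if_pos (by rfl)]
    show ((btoks O b ++ [Tok.die] : List (Tok V O.loops)) : Multiset (Tok V O.loops)) = _
    rw [← Multiset.coe_add, Multiset.coe_singleton]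
  | some n => simp [ftk]

theorem fro_mk {O : Code V} {S : List (FI V O.loops)} {ms : List (MI V O.loops)}
    {F : List (Nm V O.loops)} {T : List (Tok V O.loops)} {f : (Nm V O.loops → Bool) → List Gen}
    (hM : MW O ms F T f) (h : S.map FI.er = ms)
    (hF : (F : Multiset (Nm V O.loops)) = (S.flatMap fnm : List _))
    (hT : (T : Multiset (Tok V O.loops)) = (S.flatMap (ftk O) : List _)) : fro_R O S := by
  subst h
  exact ⟨_, _, _, hM, hF, hT⟩

/-- common arguments for the births -/
theorem fro_birth {O : Code V} {A B : List (FI V O.loops)} {n : Option (Nm V O.loops)}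
    {x : Edge V O.loops} {j : ℕ} {jj : Bool} {v : V} {s : Bool} {c r : BT V}
    {m1 m2 m3 : FI V O.loops} (x1 x2 : Edge V O.loops) (j1 j2 : ℕ)
    (hperm : [m1, m2, m3].Perm [.up n x1 j1 r, .up (some (Sum.inl (v, !s))) x2 j2 c,
      .ret (Sum.inl (v, !s))])
    {F : List (Nm V O.loops)} {T : List (Tok V O.loops)} {g : (Nm V O.loops → Bool) → List Gen}
    (hM : MW O (A.map FI.er ++ MI.up n x j :: B.map FI.er) (Sum.inl (v, !s) :: F)
        (Tok.bend (gap O (Sum.inl (v, !s))) 0 :: Tok.cross v :: T) g)
    (hF : (F : Multiset (Nm V O.loops)) = ((A ++ m1 :: m2 :: m3 :: B).flatMap fnm : List _))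
    (hT : (T : Multiset (Tok V O.loops)) = ((A ++ m1 :: m2 :: m3 :: B).flatMap (ftk O) : List _)) :
    fro_R O (A ++ FI.up n x j (.ch jj v s c r) :: B) := by
  have key : ∀ {β : Type} (g : FI V O.loops → List β),
      (((A ++ m1 :: m2 :: m3 :: B).flatMap g : List β) : Multiset β) =
        (A.flatMap g : List β) + ((g (.up n x1 j1 r) : List β) +
          ((g (.up (some (Sum.inl (v, !s))) x2 j2 c) : List β) + ((g (.ret (Sum.inl (v, !s))) : List β) +
            (B.flatMap g : List β)))) := by
    intro β g
    have h1 : ((A ++ m1 :: m2 :: m3 :: B).flatMap g).Perm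
        ((A ++ FI.up n x1 j1 r :: FI.up (some (Sum.inl (v, !s))) x2 j2 c ::
          FI.ret (Sum.inl (v, !s)) :: B).flatMap g) := by
      apply List.Perm.flatMap_right
      apply List.Perm.append_left
      exact hperm.append_right B
    rw [Multiset.coe_eq_coe.2 h1, fro_nm_append, fro_nm_cons, fro_nm_cons, fro_nm_cons]
  refine fro_mk hM (by simp [FI.er]) ?_ ?_
  · rw [← Multiset.cons_coe, hF, key, fro_nm_append, fro_nm_cons]
    simp only [fnm, nms, List.map_cons, List.map_append, ← Multiset.coe_add, ← Multiset.cons_coe,
      ← Multiset.singleton_add, Multiset.coe_nil]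
    abel
  · rw [← Multiset.cons_coe, ← Multiset.cons_coe, hT, key, fro_nm_append, fro_nm_cons,
      fro_ftk, fro_ftk, fro_ftk]
    simp only [btoks, ftk, ← Multiset.coe_add, ← Multiset.cons_coe,
      ← Multiset.singleton_add, Multiset.coe_nil, Option.isNone_some, Bool.false_eq_true, if_false]
    abel

theorem fro_main (O : Code V) : ∀ (N : ℕ) (S : List (FI V O.loops)), fro_mu S = N →
    (∀ m ∈ S, okI O m) → chk [] (wS S) → fro_R O S := by
  intro N
  induction N using Nat.strong_induction_on with
  | _ N ih =>
  intro S hN hok hw
  by_cases h1 : ∃ n x j jj v s c r, FI.up n x j (.ch jj v s c r) ∈ S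
  · -- a birth
    obtain ⟨n, x, j, jj, v, s, c, r, hm⟩ := h1
    obtain ⟨A, B, rfl⟩ := List.append_of_mem hm
    obtain ⟨a, rfl, ha, ok1, ok2, hjj⟩ := fro_ch (hok _ hm)
    have hokA : ∀ m ∈ A, okI O m := fun m hm => hok m (List.mem_append_left _ hm)
    have hokB : ∀ m ∈ B, okI O m := fun m hm =>
      hok m (List.mem_append_right _ (List.mem_cons_of_mem _ hm))
    rw [wS_append] at hw
    rw [fro_mu_append, fro_mu_cons] at hN
    simp only [fro_mi, fro_sz] at hN
    cases jj with
    | false =>
      cases s with
      | false =>
        simp only [Bool.false_eq_true, if_false, Bool.not_false] at ok1 ok2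
        obtain ⟨F, T, f, hMW, hF, hT⟩ := ih _ (by
            rw [← hN, fro_mu_append, fro_mu_cons, fro_mu_cons, fro_mu_cons]
            simp only [fro_mi]
            omega)
          (A ++ FI.up n (Sum.inl (some (v, false))) 0 r ::
            FI.up (some (Sum.inl (v, true))) (Sum.inl (some (v, true))) 0 c ::
            FI.ret (Sum.inl (v, true)) :: B) rfl
          (by
            intro m hm
            simp only [List.mem_append, List.mem_cons] at hm
            rcases hm with hm | rfl | rfl | rfl | hm
            · exact hokA m hm
            · exact ok1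
            · exact ok2
            · trivial
            · exact hokB m hm)
          (by
            rw [wS_append]
            convert hw using 2
            simp only [wS, List.append_assoc]
            congr 1
            cases n <;> simp [lw])
        have hM := MW.bR (A.map FI.er) (B.map FI.er) n n (some (Sum.inl (v, true))) a j v F T f ha
          (Or.inl ⟨rfl, rfl⟩) (by simpa [FI.er] using hMW)
        exact fro_birth (s := false) _ _ _ _ (List.Perm.refl _) hM hF hT
      | true =>
        simp only [Bool.false_eq_true, if_false, Bool.not_true] at ok1 ok2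
        obtain ⟨F, T, f, hMW, hF, hT⟩ := ih _ (by
            rw [← hN, fro_mu_append, fro_mu_cons, fro_mu_cons, fro_mu_cons]
            simp only [fro_mi]
            omega)
          (A ++ FI.ret (Sum.inl (v, false)) ::
            FI.up (some (Sum.inl (v, false))) (Sum.inl (some (v, false))) 0 c ::
            FI.up n (Sum.inl (some (v, true))) 0 r :: B) rfl
          (by
            intro m hm
            simp only [List.mem_append, List.mem_cons] at hm
            rcases hm with hm | rfl | rfl | rfl | hm
            · exact hokA m hm
            · trivial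
            · exact ok2
            · exact ok1
            · exact hokB m hm)
          (by
            rw [wS_append]
            convert hw using 2
            simp only [wS, List.append_assoc]
            congr 1
            cases n <;> simp [lw])
        have hM := MW.bL (A.map FI.er) (B.map FI.er) n (some (Sum.inl (v, false))) n a j v F T f ha
          (Or.inl ⟨rfl, rfl⟩) (by simpa [FI.er] using hMW)
        exact fro_birth (s := true) (Sum.inl (some (v, true))) (Sum.inl (some (v, false))) 0 0
          (List.reverse_perm _).symm hM hF hT
    | true =>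
      obtain rfl := hjj rfl
      cases s with
      | false =>
        simp only [if_true, Bool.not_false] at ok1 ok2
        obtain ⟨F, T, f, hMW, hF, hT⟩ := ih _ (by
            rw [← hN, fro_mu_append, fro_mu_cons, fro_mu_cons, fro_mu_cons]
            simp only [fro_mi]
            omega)
          (A ++ FI.up (some (Sum.inl (v, true))) (Sum.inl (some (v, false))) 0 c ::
            FI.up none (Sum.inl (some (v, true))) 0 r ::
            FI.ret (Sum.inl (v, true)) :: B) rfl
          (by
            intro m hm
            simp only [List.mem_append, List.mem_cons] at hm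
            rcases hm with hm | rfl | rfl | rfl | hm
            · exact hokA m hm
            · exact ok2
            · exact ok1
            · trivial
            · exact hokB m hm)
          (by
            rw [wS_append]
            convert hw using 2
            simp only [wS, List.append_assoc]
            congr 1
            simp [lw])
        have hM := MW.bR (A.map FI.er) (B.map FI.er) none (some (Sum.inl (v, true))) none a j v F T f ha
          (Or.inr ⟨rfl, rfl, rfl⟩) (by simpa [FI.er] using hMW)
        exact fro_birth (s := false) (Sum.inl (some (v, true))) (Sum.inl (some (v, false))) 0 0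
          (List.Perm.swap _ _ _) hM hF hT
      | true =>
        simp only [if_true, Bool.not_true] at ok1 ok2
        obtain ⟨F, T, f, hMW, hF, hT⟩ := ih _ (by
            rw [← hN, fro_mu_append, fro_mu_cons, fro_mu_cons, fro_mu_cons]
            simp only [fro_mi]
            omega)
          (A ++ FI.ret (Sum.inl (v, false)) ::
            FI.up none (Sum.inl (some (v, false))) 0 r ::
            FI.up (some (Sum.inl (v, false))) (Sum.inl (some (v, true))) 0 c :: B) rfl
          (by
            intro m hm
            simp only [List.mem_append, List.mem_cons] at hm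
            rcases hm with hm | rfl | rfl | rfl | hm
            · exact hokA m hm
            · trivial
            · exact ok1
            · exact ok2
            · exact hokB m hm)
          (by
            rw [wS_append]
            convert hw using 2
            simp only [wS, List.append_assoc]
            congr 1
            simp [lw])
        have hM := MW.bL (A.map FI.er) (B.map FI.er) none none (some (Sum.inl (v, false))) a j v F T f ha
          (Or.inr ⟨rfl, rfl, rfl⟩) (by simpa [FI.er] using hMW)
        refine fro_birth (s := true) (Sum.inl (some (v, false))) (Sum.inl (some (v, true))) 0 0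
          ?_ hM hF hT
        exact (List.perm_append_comm (l₁ := [FI.ret (Sum.inl (v, false))])
            (l₂ := [FI.up none (Sum.inl (some (v, false))) 0 r,
              FI.up (some (Sum.inl (v, false))) (Sum.inl (some (v, true))) 0 c]))
  · by_cases h2 : ∃ x j, FI.up none x j .nil ∈ S
    · -- the end of the open strand
      obtain ⟨x, j, hm⟩ := h2
      obtain ⟨A, B, rfl⟩ := List.append_of_mem hm
      obtain ⟨a, rfl, ha⟩ := fro_none (hok _ hm)
      rw [wS_append] at hw
      rw [fro_mu_append, fro_mu_cons] at hN
      simp only [fro_mi, fro_sz] at hN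
      obtain ⟨F, T, f, hMW, hF, hT⟩ := ih _ (by
            rw [← hN, fro_mu_append, fro_mu_cons]
            simp only [fro_mi]
            omega)
          (A ++ FI.sdead :: B) rfl
          (by
            intro m hm
            simp only [List.mem_append, List.mem_cons] at hm
            rcases hm with hm | rfl | hm
            · exact hok m (List.mem_append_left _ hm)
            · trivial
            · exact hok m (List.mem_append_right _ (List.mem_cons_of_mem _ hm)))
          (by
            rw [wS_append]
            exact hw)
      have hM := MW.dieS (A.map FI.er) (B.map FI.er) a j F T f ha (by simpa [FI.er] using hMW)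
      refine fro_mk hM (by simp [FI.er]) ?_ ?_
      · rw [hF, fro_nm_append, fro_nm_cons, fro_nm_append, fro_nm_cons]
        rfl
      · rw [← Multiset.cons_coe, hT, fro_nm_append, fro_nm_cons, fro_nm_append, fro_nm_cons]
        simp only [ftk, btoks, List.nil_append, ← Multiset.cons_coe,
          ← Multiset.singleton_add, Multiset.coe_nil]
        abel
    · by_cases h3 : ∃ m ∈ S, m.off = false
      · have hs : ∀ m ∈ S, m.off = false → (∃ i w, LookR m i w) ∨ (∃ i w, LookL m i w) := by
          intro m hm hoff
          cases m with
          | dead n => exact absurd hoff (by simp [FI.off])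
          | sdead => exact absurd hoff (by simp [FI.off])
          | ret n =>
            cases hsd : sd n with
            | false => exact Or.inl ⟨_, _, LookR.ret n hsd⟩
            | true => exact Or.inr ⟨_, _, LookL.ret n hsd⟩
          | up n x j b =>
            cases b with
            | nil =>
              cases n with
              | none => exact absurd ⟨x, j, hm⟩ h2
              | some n =>
                cases hsd : sd n with
                | false => exact Or.inr ⟨_, _, LookL.top n x j hsd⟩
                | true => exact Or.inl ⟨_, _, LookR.top n x j hsd⟩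
            | it v s r =>
              cases s with
              | false => exact Or.inl ⟨_, _, LookR.it n x j v r⟩
              | true => exact Or.inr ⟨_, _, LookL.it n x j v r⟩
            | ch jj v s c r => exact absurd ⟨n, x, j, jj, v, s, c, r, hm⟩ h1
        obtain ⟨A, D, B, m, m', i, i', w, w', rfl, hD, hR, hL⟩ := find_pair S hw h3 hs
        have hwS : wS (A ++ m :: (D ++ m' :: B)) =
            (wS B ++ w') ++ (i', true) :: (i, false) :: (w ++ wS A) := by
          rw [wS_append]
          show (wS (D ++ m' :: B) ++ lw m) ++ wS A = _
          rw [wS_append, fro_wS_off hD]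
          show (((wS B ++ lw m') ++ []) ++ lw m) ++ wS A = _
          rw [lw_lookL m' i' w' hL, lw_lookR m i w hR]
          simp
        rw [hwS] at hw
        obtain ⟨hii, hw2⟩ := chk_adj _ _ _ _ _ hw
        have hm : okI O m := hok m (by simp)
        have hm' : okI O m' := hok m' (by simp)
        have hokA : ∀ e ∈ A, okI O e := fun e he => hok e (List.mem_append_left _ he)
        have hokD : ∀ e ∈ D, okI O e := fun e he => hok e (by simp [he])
        have hokB : ∀ e ∈ B, okI O e := fun e he => hok e (by simp [he])
        rw [fro_mu_append, fro_mu_cons, fro_mu_append, fro_mu_cons] at hN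
        have hDn := fro_nm_off hD
        have hDt := fro_tk_off (O := O) hD
        cases hR with
        | it n x j v r =>
          cases hL with
          | it n' x' j' v' r' =>
            obtain rfl : v' = v := Sum.inl.inj hii
            obtain ⟨a, rfl, ha, ok1⟩ := fro_it hm
            obtain ⟨b, rfl, hb, ok2⟩ := fro_it hm'
            simp only [fro_mi, fro_sz] at hN
            obtain ⟨F, T, f, hMW, hF, hT⟩ := ih _ (by
                rw [← hN, fro_mu_append, fro_mu_cons, fro_mu_append, fro_mu_cons]
                simp only [fro_mi]
                omega)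
              (A ++ FI.up n (Sum.inl (some (v', false))) 0 r ::
                (D ++ FI.up n' (Sum.inl (some (v', true))) 0 r' :: B)) rfl
              (by
                intro e he
                simp only [List.mem_append, List.mem_cons] at he
                rcases he with he | rfl | he | rfl | he
                · exact hokA e he
                · exact ok1
                · exact hokD e he
                · exact ok2
                · exact hokB e he)
              (by
                rw [wS_append]
                show chk [] ((wS (D ++ _ :: B) ++ lw _) ++ wS A)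
                rw [wS_append, fro_wS_off hD]
                show chk [] ((((wS B ++ lw _) ++ []) ++ lw _) ++ wS A)
                rw [fro_lw n' _ (Sum.inl b) 0 j', fro_lw n _ (Sum.inl a) 0 j]
                simpa using hw2)
            have hM := MW.post (A.map FI.er) (D.map FI.er) (B.map FI.er) n n' a b j j' v' F T f
              (fro_offD hD) ha hb (by simpa [FI.er] using hMW)
            refine fro_mk hM (by simp [FI.er]) ?_ ?_
            · rw [hF]
              simp only [fro_nm_append, fro_nm_cons]
              rfl
            · rw [← Multiset.cons_coe, hT]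
              simp only [fro_nm_append, fro_nm_cons, fro_ftk, btoks, ← Multiset.cons_coe,
                ← Multiset.singleton_add]
              abel
          | top n' x' j' h => exact absurd hii (by simp)
          | ret n' h => exact absurd hii (by simp)
        | top n x j hsd =>
          cases hL with
          | it n' x' j' v' r' => exact absurd hii (by simp)
          | top n' x' j' h =>
            obtain rfl : n' = n := Sum.inr.inj hii
            exact absurd (hsd.symm.trans h) (by simp)
          | ret n' h =>
            obtain rfl : n' = n := Sum.inr.inj hii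
            obtain ⟨rfl, rfl⟩ := fro_nil hm
            simp only [fro_mi, fro_sz] at hN
            obtain ⟨F, T, f, hMW, hF, hT⟩ := ih _ (by
                rw [← hN, fro_mu_append, fro_mu_cons, fro_mu_append]
                simp only [fro_mi]
                omega)
              (A ++ FI.dead n' :: (D ++ B)) rfl
              (by
                intro e he
                simp only [List.mem_append, List.mem_cons] at he
                rcases he with he | rfl | he | he
                · exact hokA e he
                · trivial
                · exact hokD e he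
                · exact hokB e he)
              (by
                rw [wS_append]
                show chk [] ((wS (D ++ B) ++ []) ++ wS A)
                rw [wS_append, fro_wS_off hD]
                simpa using hw2)
            have hM := MW.capR (A.map FI.er) (D.map FI.er) (B.map FI.er) n' F T f
              (fro_offD hD) (by simpa [FI.er] using hMW)
            refine fro_mk hM (by simp [FI.er]) ?_ ?_
            · rw [hF]
              simp only [fro_nm_append, fro_nm_cons]
              simp [fnm, nms]
            · rw [hT]
              simp only [fro_nm_append, fro_nm_cons]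
              simp [ftk, btoks]
        | ret n hsd =>
          cases hL with
          | it n' x' j' v' r' => exact absurd hii (by simp)
          | top n' x' j' h =>
            obtain rfl : n' = n := Sum.inr.inj hii
            obtain ⟨rfl, rfl⟩ := fro_nil hm'
            simp only [fro_mi, fro_sz] at hN
            obtain ⟨F, T, f, hMW, hF, hT⟩ := ih _ (by
                rw [← hN, fro_mu_append, fro_mu_append, fro_mu_cons]
                simp only [fro_mi]
                omega)
              (A ++ (D ++ FI.dead n' :: B)) rfl
              (by
                intro e he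
                simp only [List.mem_append, List.mem_cons] at he
                rcases he with he | he | rfl | he
                · exact hokA e he
                · exact hokD e he
                · trivial
                · exact hokB e he)
              (by
                rw [wS_append, wS_append, fro_wS_off hD]
                show chk [] (((wS B ++ []) ++ []) ++ wS A)
                simpa using hw2)
            have hM := MW.capL (A.map FI.er) (D.map FI.er) (B.map FI.er) n' F T f
              (fro_offD hD) (by simpa [FI.er] using hMW)
            refine fro_mk hM (by simp [FI.er]) ?_ ?_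
            · rw [hF]
              simp only [fro_nm_append, fro_nm_cons]
              simp [fnm, nms]
            · rw [hT]
              simp only [fro_nm_append, fro_nm_cons]
              simp [ftk, btoks]
          | ret n' h =>
            obtain rfl : n' = n := Sum.inr.inj hii
            exact absurd (hsd.symm.trans h) (by simp)
      · -- everything is finished
        have hall : ∀ m ∈ S, m.off = true := by
          intro m hm
          by_contra hc
          exact h3 ⟨m, hm, by simpa using hc⟩
        refine fro_mk (MW.done _ (fro_offD hall)) rfl ?_ ?_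
        · rw [fro_nm_off hall]
        · rw [fro_tk_off hall]

theorem frontier (O : Code V) (S : List (FI V O.loops)) (hok : ∀ m ∈ S, okI O m)
    (hw : chk [] (wS S)) :
    ∃ (F : List (Nm V O.loops)) (T : List (Tok V O.loops))
      (f : (Nm V O.loops → Bool) → List Gen), MW O (S.map FI.er) F T f ∧
      F.Perm (S.flatMap fnm) ∧ T.Perm (S.flatMap (ftk O)) := by
  obtain ⟨F, T, f, h, hF, hT⟩ := fro_main O _ S rfl hok hw
  exact ⟨F, T, f, h, Multiset.coe_eq_coe.1 hF, Multiset.coe_eq_coe.1 hT⟩

end Pool.Agent.H53.SQ

end S_FRO

section S_FRT

/-!
# Module FRT: the whole drawing, starting from the open strand alone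

`Forest O b₀ R`: `b₀` is the bar of the open strand, `R` the list of the root circles `(g, c)` (cut at the
incoming end `g = (v, true)`) of the other components of the diagram.

PROOF of `mw_of_forest`: consider the frontier `S` which consists of the items
`up (some n) (gap O n) (fpc n) b_n, ret n` for all root names `n` (`inl g` with bar `c` for
`(g, c) ∈ R`, and `inr i`, `i < O.loops`, with the bar `nil`), in some order, followed by
`up none (inl none) 0 b₀`. `wS S = wrd none b₀ ++ (concatenation of the words wrd (some n) b_n, in
the reverse order)`, where `wrd (some (inr i)) nil = [retL, topL] = [(_, true), (_, false)]`;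
`chk [] (W₁ ++ W₂)` holds if `chk [] W₁` and `chk [] W₂` (`chk_append`). `okI`: for `inl g`:
`gap O (inl g) = inl (O.nu.symm (some g))`, `O.nu (O.nu.symm (some g)) = some g`, `c ≠ nil`. Apply
`frontier`, then peel off the roots one after the other with `MW.fr` (induction on the list of the
root names). `F` and `T` as stated, up to permutation.
-/

namespace Pool.Agent.H53.SQ

variable {V : Type}

theorem frt_chk {ι : Type} (B : List (ι × Bool)) (hB : chk [] B) (A : List (ι × Bool)) :
    ∀ st : List ι, chk st A → chk st (A ++ B) := by
  induction A with
  | nil =>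
    intro st h
    have h' : st = [] := by
      cases st with
      | nil => rfl
      | cons a st => exact absurd h (by simp [chk])
    rw [h']
    exact hB
  | cons p A ih =>
    obtain ⟨i, s⟩ := p
    intro st h
    cases s with
    | true =>
      cases st with
      | nil => exact ih _ h
      | cons a st => exact ih _ h
    | false =>
      cases st with
      | nil => exact absurd h (by simp [chk])
      | cons a st => exact ⟨h.1, ih _ h.2⟩

theorem chk_append {ι : Type} (A B : List (ι × Bool)) (hA : chk [] A) (hB : chk [] B) :
    chk [] (A ++ B) := frt_chk B hB A [] hA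

/-- the two items of a root circle -/
def frtI (O : Code V) (p : Nm V O.loops × BT V) : List (FI V O.loops) :=
  [FI.up (some p.1) (gap O p.1) (fpc p.1) p.2, FI.ret p.1]

/-- the frontier after the births of the roots in `l` -/
def frtS (O : Code V) (b₀ : BT V) (l : List (Nm V O.loops × BT V)) : List (FI V O.loops) :=
  l.flatMap (frtI O) ++ [FI.up none (Sum.inl none) 0 b₀]

theorem frtS_cons (O : Code V) (b₀ : BT V) (p : Nm V O.loops × BT V)
    (l : List (Nm V O.loops × BT V)) : frtS O b₀ (p :: l) =
      FI.up (some p.1) (gap O p.1) (fpc p.1) p.2 :: FI.ret p.1 :: frtS O b₀ l := by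
  simp [frtS, frtI]

theorem frt_wS (O : Code V) (b₀ : BT V) (h₀ : chk [] (wrd none b₀ : List (Lt V O.loops)))
    (l : List (Nm V O.loops × BT V))
    (hl : ∀ p ∈ l, chk [] (wrd (some p.1) p.2 : List (Lt V O.loops))) :
    chk [] (wS (frtS O b₀ l)) := by
  induction l with
  | nil =>
    have e : wS (frtS O b₀ []) = (wrd none b₀ : List (Lt V O.loops)) := by
      simp [frtS, wS, lw, wrd]
    rw [e]
    exact h₀
  | cons p l ih =>
    have e : wS (frtS O b₀ (p :: l)) = wS (frtS O b₀ l) ++ wrd (some p.1) p.2 := by
      rw [frtS_cons]
      simp [wS, lw, wrd]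
    rw [e]
    exact chk_append _ _ (ih fun q hq => hl q (List.mem_cons_of_mem _ hq))
      (hl p List.mem_cons_self)

theorem frt_peel (O : Code V) (b₀ : BT V) (l : List (Nm V O.loops × BT V)) :
    ∀ (F : List (Nm V O.loops)) (T : List (Tok V O.loops))
      (f : (Nm V O.loops → Bool) → List Gen), MW O ((frtS O b₀ l).map FI.er) F T f →
    ∃ (F' : List (Nm V O.loops)) (T' : List (Tok V O.loops))
      (f' : (Nm V O.loops → Bool) → List Gen), MW O [MI.up none (Sum.inl none) 0] F' T' f' ∧
      F'.Perm (l.map Prod.fst ++ F) ∧ T'.Perm (l.map (fun p => ftok O p.1) ++ T) := by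
  induction l with
  | nil =>
    intro F T f h
    exact ⟨F, T, f, h, List.Perm.refl _, List.Perm.refl _⟩
  | cons p l ih =>
    intro F T f h
    rw [frtS_cons] at h
    have h1 := MW.fr p.1 ((frtS O b₀ l).map FI.er) F T f h
    obtain ⟨F', T', f', h2, h3, h4⟩ := ih _ _ _ h1
    refine ⟨F', T', f', h2, h3.trans ?_, h4.trans ?_⟩
    · simpa using List.perm_middle
    · simpa using List.perm_middle

theorem frt_fnm (O : Code V) (b₀ : BT V) (l : List (Nm V O.loops × BT V)) :
    (frtS O b₀ l).flatMap fnm = l.flatMap (fun p => (nms p.2).map Sum.inl) ++
      (nms b₀).map Sum.inl := by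
  induction l with
  | nil => simp [frtS, fnm]
  | cons p l ih =>
    rw [frtS_cons, List.flatMap_cons, List.flatMap_cons, ih]
    simp [fnm]

theorem frt_ftk (O : Code V) (b₀ : BT V) (l : List (Nm V O.loops × BT V)) :
    (frtS O b₀ l).flatMap (ftk O) = l.flatMap (fun p => btoks O p.2) ++
      (btoks O b₀ ++ [Tok.die]) := by
  induction l with
  | nil => simp [frtS, ftk]
  | cons p l ih =>
    rw [frtS_cons, List.flatMap_cons, List.flatMap_cons, ih]
    simp [ftk]

/-- all roots with their bars -/
def frtL (O : Code V) (R : List ((V × Bool) × BT V)) : List (Nm V O.loops × BT V) :=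
  R.map (fun r => (Sum.inl r.1, r.2)) ++ (List.finRange O.loops).map (fun i => (Sum.inr i, BT.nil))

theorem frt_mem {O : Code V} {R : List ((V × Bool) × BT V)} {p : Nm V O.loops × BT V}
    (h : p ∈ frtL O R) : (∃ r ∈ R, p = (Sum.inl r.1, r.2)) ∨ ∃ i, p = (Sum.inr i, BT.nil) := by
  rcases List.mem_append.1 h with h1 | h1
  · obtain ⟨r, hr, e⟩ := List.mem_map.1 h1
    exact Or.inl ⟨r, hr, e.symm⟩
  · obtain ⟨i, _, e⟩ := List.mem_map.1 h1
    exact Or.inr ⟨i, e.symm⟩

theorem mw_of_forest {O : Code V} {b₀ : BT V} {R : List ((V × Bool) × BT V)}
    (h : Forest O b₀ R) :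
    ∃ (F : List (Nm V O.loops)) (T : List (Tok V O.loops))
      (f : (Nm V O.loops → Bool) → List Gen), MW O [MI.up none (Sum.inl none) 0] F T f ∧
      F.Perm (allN O b₀ R) ∧ T.Perm (allT O b₀ R) := by
  have hw : chk [] (wS (frtS O b₀ (frtL O R))) := by
    refine frt_wS O b₀ h.chk₀ _ ?_
    intro p hp
    rcases frt_mem hp with ⟨r, hr, e⟩ | ⟨i, e⟩
    · subst e
      exact h.chkR r hr
    · subst e
      have : (wrd (some (Sum.inr i)) BT.nil : List (Lt V O.loops)) =
          [(Sum.inr (Sum.inr i), true), (Sum.inr (Sum.inr i), false)] := by
        simp [wrd, retL, topL, sd]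
      rw [this]
      simp [chk]
  have hok : ∀ m ∈ frtS O b₀ (frtL O R), okI O m := by
    intro m hm
    rcases List.mem_append.1 hm with h1 | h1
    · obtain ⟨p, hp, hmp⟩ := List.mem_flatMap.1 h1
      have hm2 : m = FI.up (some p.1) (gap O p.1) (fpc p.1) p.2 ∨ m = FI.ret p.1 := by
        simpa [frtI] using hmp
      rcases hm2 with hm2 | hm2
      · rw [hm2]
        rcases frt_mem hp with ⟨r, hr, e⟩ | ⟨i, e⟩
        · subst e
          refine ⟨O.nu.symm (some r.1), rfl, ?_, h.noJ r hr, fun hb => absurd hb (h.ne r hr)⟩
          rw [Equiv.apply_symm_apply]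
          exact h.path r hr
        · subst e
          exact ⟨rfl, rfl, rfl⟩
      · rw [hm2]
        trivial
    · have h2 : m = FI.up none (Sum.inl none) 0 b₀ := by simpa using h1
      rw [h2]
      exact ⟨none, rfl, h.path₀, h.okJ₀⟩
  obtain ⟨F, T, f, h1, h2, h3⟩ := frontier O _ hok hw
  obtain ⟨F', T', f', h4, h5, h6⟩ := frt_peel O b₀ _ F T f h1
  refine ⟨F', T', f', h4, h5.trans ((h2.append_left _).trans ?_),
    h6.trans ((h3.append_left _).trans ?_)⟩
  · rw [frt_fnm]
    have e1 : (frtL O R).map Prod.fst = R.map (fun r => (Sum.inl r.1 : Nm V O.loops)) ++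
        (List.finRange O.loops).map Sum.inr := by
      simp [frtL, Function.comp_def]
    have e2 : (frtL O R).flatMap (fun p => (nms p.2).map (Sum.inl : V × Bool → Nm V O.loops)) =
        R.flatMap (fun r => (nms r.2).map Sum.inl) := by
      simp [frtL, List.flatMap_append, List.flatMap_map, nms]
    rw [e1, e2]
    have e3 := List.map_append_flatMap_perm R (fun r => (Sum.inl r.1 : Nm V O.loops))
      (fun r => (nms r.2).map Sum.inl)
    refine List.Perm.trans ?_ ((e3.append_right _).append_left _)
    generalize R.map (fun r => (Sum.inl r.1 : Nm V O.loops)) = a1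
    generalize (List.finRange O.loops).map (Sum.inr : _ → Nm V O.loops) = a2
    generalize R.flatMap (fun r => (nms r.2).map (Sum.inl : _ → Nm V O.loops)) = a3
    generalize (nms b₀).map (Sum.inl : _ → Nm V O.loops) = a4
    rw [← Multiset.coe_eq_coe]
    simp only [← Multiset.coe_add]
    abel
  · rw [frt_ftk]
    have e1 : (frtL O R).map (fun p => ftok O p.1) =
        R.map (fun r => (Tok.bend (gap O (Sum.inl r.1)) 0 : Tok V O.loops)) ++
        (List.finRange O.loops).map Tok.loop := by
      simp [frtL, Function.comp_def, ftok]
    have e2 : (frtL O R).flatMap (fun p => btoks O p.2) = R.flatMap (fun r => btoks O r.2) := by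
      simp [frtL, List.flatMap_append, List.flatMap_map, btoks]
    rw [e1, e2]
    have e3 := List.map_append_flatMap_perm R
      (fun r => (Tok.bend (gap O (Sum.inl r.1)) 0 : Tok V O.loops)) (fun r => btoks O r.2)
    refine List.Perm.trans ?_ ((((e3.append_right _).append_left _)).cons _)
    generalize R.map (fun r => (Tok.bend (gap O (Sum.inl r.1)) 0 : Tok V O.loops)) = a1
    generalize (List.finRange O.loops).map (Tok.loop : _ → Tok V O.loops) = a2
    generalize R.flatMap (fun r => btoks O r.2) = a3
    generalize btoks O b₀ = a4
    rw [← Multiset.coe_eq_coe, ← Multiset.cons_coe, ← Multiset.singleton_add]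
    simp only [← Multiset.coe_add, Multiset.coe_singleton]
    abel

end Pool.Agent.H53.SQ

end S_FRT

section S_TOK

/-!
# Module TOK: all events and names of a forest are different

PROOF of `forest_toks`: combinatorics of `E = eps b₀ ++ R.flatMap (fun r => eps r.2)` (`Nodup`,
contains all ends):
* `cross v` occurs once in `btoks b₀ ++ R.flatMap (btoks r.2)`: a crossing `v` is either the crossing of
  a `ch` item (then both ends `(v, _)` are used by this item and no other item has `v`), or both ends are
  ends of `it` items and `cross v` is counted at `it v false`.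
* the names `(v, !s)` of the `ch` items and the names `g` of the roots are pairwise different: the former
  are different elements of `E` (second entries of `ch` items); a root name `g` is the arrival end
  of the first item of its bar `c ≠ nil` (`Path .. (some g) ..`), so it occurs in `E` as a first entry of
  an item. Different roots have different first items. `gap O` is injective.
-/

namespace Pool.Agent.H53.SQ

variable {V : Type}

/-- the crossings counted at their left ends -/
def tok_crs (l : List (V × Bool)) : List V := (l.filter (fun z => !z.2)).map Prod.fst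

theorem tok_crs_append (l m : List (V × Bool)) : tok_crs (l ++ m) = tok_crs l ++ tok_crs m := by
  simp [tok_crs]

theorem tok_crs_pair (v : V) (s : Bool) (l : List (V × Bool)) :
    tok_crs ((v, s) :: (v, !s) :: l) = v :: tok_crs l := by
  cases s <;> simp [tok_crs]

theorem tok_crs_flatMap {ι : Type} (R : List ι) (f : ι → List (V × Bool)) :
    tok_crs (R.flatMap f) = R.flatMap (fun r => tok_crs (f r)) := by
  induction R with
  | nil => rfl
  | cons r R ih => rw [List.flatMap_cons, List.flatMap_cons, tok_crs_append, ih]

theorem tok_crs_nodup {l : List (V × Bool)} (h : l.Nodup) : (tok_crs l).Nodup := by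
  unfold tok_crs
  apply List.Nodup.map_on _ (h.filter _)
  intro x hx y hy hxy
  rw [List.mem_filter] at hx hy
  have h1 : x.2 = false := by simpa using hx.2
  have h2 : y.2 = false := by simpa using hy.2
  exact Prod.ext hxy (h1.trans h2.symm)

theorem tok_mem_crs {l : List (V × Bool)} {v : V} (h : (v, false) ∈ l) : v ∈ tok_crs l := by
  unfold tok_crs
  rw [List.mem_map]
  exact ⟨(v, false), List.mem_filter.2 ⟨h, rfl⟩, rfl⟩

theorem tok_nms_sub : ∀ b : BT V, List.Sublist (nms b) (eps b)
  | .nil => by simp [nms, eps]
  | .it v s r => by
    simp only [nms, eps]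
    exact (tok_nms_sub r).cons _
  | .ch j v s c r => by
    simp only [nms, eps]
    exact (((tok_nms_sub c).append (tok_nms_sub r)).cons_cons _).cons _

theorem tok_root_sub {nu : Option (V × Bool) → Option (V × Bool)} {b : BT V} {g : V × Bool}
    (hne : b ≠ BT.nil) (hp : Path nu b (some g) (some g)) :
    List.Sublist (g :: nms b) (eps b) := by
  cases b with
  | nil => exact absurd rfl hne
  | it v s r =>
    simp only [Path] at hp
    have h1 : g = (v, s) := by simpa using hp.1
    subst h1
    simp only [nms, eps]
    exact (tok_nms_sub r).cons_cons _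
  | ch j v s c r =>
    simp only [Path] at hp
    have h1 : g = (v, s) := by simpa using hp.1
    subst h1
    simp only [nms, eps]
    exact (((tok_nms_sub c).append (tok_nms_sub r)).cons_cons _).cons_cons _

theorem tok_flatMap_sub {ι α : Type} (R : List ι) (f g : ι → List α)
    (h : ∀ r ∈ R, List.Sublist (f r) (g r)) : List.Sublist (R.flatMap f) (R.flatMap g) := by
  induction R with
  | nil => simp
  | cons r R ih =>
    rw [List.flatMap_cons, List.flatMap_cons]
    exact (h r (List.mem_cons_self)).append (ih fun r' hr' => h r' (List.mem_cons_of_mem _ hr'))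

/-- the event of a name -/
def tok_B (O : Code V) (g : V × Bool) : Tok V O.loops := Tok.bend (gap O (Sum.inl g)) 0

theorem tok_B_inj (O : Code V) : Function.Injective (tok_B O) := by
  intro g g' h
  unfold tok_B at h
  simp only [gap, Tok.bend.injEq, Sum.inl.injEq, and_true] at h
  have := O.nu.symm.injective h
  simpa using this

theorem tok_btoks (O : Code V) : ∀ b : BT V,
    (btoks O b).Perm ((nms b).map (tok_B O) ++ (tok_crs (eps b)).map Tok.cross)
  | .nil => by simp [btoks, nms, eps, tok_crs]
  | .it v false r => by
    have ih := tok_btoks O r
    have e : tok_crs (eps (.it v false r)) = v :: tok_crs (eps r) := by simp [eps, tok_crs]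
    rw [e]
    simp only [btoks, nms, List.map_cons]
    refine (ih.cons _).trans ?_
    exact List.perm_middle.symm
  | .it v true r => by
    have ih := tok_btoks O r
    have e : tok_crs (eps (.it v true r)) = tok_crs (eps r) := by simp [eps, tok_crs]
    rw [e]
    simpa only [btoks, nms] using ih
  | .ch j v s c r => by
    have ihc := tok_btoks O c
    have ihr := tok_btoks O r
    have e : tok_crs (eps (.ch j v s c r)) = v :: (tok_crs (eps c) ++ tok_crs (eps r)) := by
      simp only [eps]
      rw [tok_crs_pair, tok_crs_append]
    rw [e]
    simp only [btoks, nms, List.map_cons, List.map_append]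
    change (tok_B O (v, !s) :: Tok.cross v :: (btoks O c ++ btoks O r)).Perm _
    refine List.Perm.cons _ ?_
    have h1 : (btoks O c ++ btoks O r).Perm
        ((nms c).map (tok_B O) ++ (tok_crs (eps c)).map Tok.cross ++
          ((nms r).map (tok_B O) ++ (tok_crs (eps r)).map Tok.cross)) := ihc.append ihr
    have h2 : ((nms c).map (tok_B O) ++ (tok_crs (eps c)).map Tok.cross ++
          ((nms r).map (tok_B O) ++ (tok_crs (eps r)).map Tok.cross)).Perm
        ((nms c).map (tok_B O) ++ (nms r).map (tok_B O) ++
          ((tok_crs (eps c)).map Tok.cross ++ (tok_crs (eps r)).map Tok.cross)) := by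
      rw [List.append_assoc, List.append_assoc]
      refine List.Perm.append_left _ ?_
      rw [← List.append_assoc, ← List.append_assoc]
      exact List.Perm.append_right _ List.perm_append_comm
    exact ((h1.trans h2).cons _).trans List.perm_middle.symm

theorem tok_swap {α : Type} (a b c d : List α) :
    (a ++ b ++ (c ++ d)).Perm (a ++ c ++ (b ++ d)) := by
  rw [List.append_assoc, List.append_assoc]
  refine List.Perm.append_left _ ?_
  rw [← List.append_assoc, ← List.append_assoc]
  exact List.Perm.append_right _ List.perm_append_comm

theorem tok_flat (O : Code V) (R : List ((V × Bool) × BT V)) :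
    (R.flatMap (fun r => Tok.bend (gap O (Sum.inl r.1)) 0 :: btoks O r.2)).Perm
      ((R.flatMap (fun r => r.1 :: nms r.2)).map (tok_B O) ++
        (R.flatMap (fun r => tok_crs (eps r.2))).map Tok.cross) := by
  induction R with
  | nil => simp
  | cons r R ih =>
    simp only [List.flatMap_cons, List.map_append, List.map_cons]
    change ((tok_B O r.1 :: btoks O r.2) ++ _).Perm _
    have h1 := (tok_btoks O r.2).append ih
    exact List.Perm.cons _ (h1.trans (tok_swap _ _ _ _))

theorem forest_toks {O : Code V} {b₀ : BT V} {R : List ((V × Bool) × BT V)}
    (h : Forest O b₀ R) :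
    (allN O b₀ R).Nodup ∧ (Tok.born :: allT O b₀ R).Nodup ∧
      (∀ v, Tok.cross v ∈ allT O b₀ R) ∧ (∀ i, Tok.loop i ∈ allT O b₀ R) := by
  -- the names
  set N : List (V × Bool) := nms b₀ ++ R.flatMap (fun r => r.1 :: nms r.2) with hN
  have hNsub : List.Sublist N (eps b₀ ++ R.flatMap (fun r => eps r.2)) := by
    refine (tok_nms_sub b₀).append (tok_flatMap_sub R _ _ fun r hr => ?_)
    exact tok_root_sub (h.ne r hr) (h.path r hr)
  have hNnd : N.Nodup := h.nodup.sublist hNsub
  -- the crossings
  set K : List V := tok_crs (eps b₀ ++ R.flatMap (fun r => eps r.2)) with hK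
  have hKnd : K.Nodup := tok_crs_nodup h.nodup
  have hKall : ∀ v, v ∈ K := fun v => tok_mem_crs (h.all (v, false))
  -- the events
  have hperm : (allT O b₀ R).Perm (Tok.die :: (N.map (tok_B O) ++ (K.map Tok.cross ++
      (List.finRange O.loops).map Tok.loop))) := by
    unfold allT
    refine List.Perm.cons _ ?_
    have h1 := (tok_btoks O b₀).append ((tok_flat O R).append_right
      ((List.finRange O.loops).map Tok.loop))
    refine h1.trans ?_
    rw [hN, hK, tok_crs_append, tok_crs_flatMap, List.map_append, List.map_append]
    simp only [List.append_assoc]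
    refine List.Perm.append_left _ ?_
    rw [← List.append_assoc, ← List.append_assoc (List.map (tok_B O) _)]
    exact List.Perm.append_right _ List.perm_append_comm
  refine ⟨?_, ?_, ?_, ?_⟩
  · have e : allN O b₀ R = N.map Sum.inl ++ (List.finRange O.loops).map Sum.inr := by
      unfold allN
      rw [hN, List.map_append, List.map_flatMap, List.append_assoc]
      simp only [List.map_cons]
    rw [e, List.nodup_append']
    refine ⟨hNnd.map Sum.inl_injective, (List.nodup_finRange _).map Sum.inr_injective, ?_⟩
    intro x hx hy
    rw [List.mem_map] at hx hy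
    obtain ⟨a, _, rfl⟩ := hx
    obtain ⟨b, _, hb⟩ := hy
    exact absurd hb (by simp)
  · rw [List.nodup_cons]
    constructor
    · intro hm
      rw [hperm.mem_iff] at hm
      simp [tok_B] at hm
    · rw [hperm.nodup_iff, List.nodup_cons]
      refine ⟨by simp [tok_B], ?_⟩
      rw [List.nodup_append']
      refine ⟨hNnd.map (tok_B_inj O), ?_, ?_⟩
      · rw [List.nodup_append']
        refine ⟨hKnd.map fun a b hab => by simpa using hab,
          (List.nodup_finRange _).map fun a b hab => by simpa using hab, ?_⟩
        intro x hx hy
        rw [List.mem_map] at hx hy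
        obtain ⟨a, _, rfl⟩ := hx
        obtain ⟨b, _, hb⟩ := hy
        exact absurd hb (by simp)
      · intro x hx hy
        rw [List.mem_map] at hx
        obtain ⟨a, _, rfl⟩ := hx
        simp [tok_B] at hy
  · intro v
    rw [hperm.mem_iff]
    simp [hKall v]
  · intro i
    rw [hperm.mem_iff]
    simp

end Pool.Agent.H53.SQ

end S_TOK
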