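import Mathlib
import Pool.Agent.H53.SQ.Defs
import Pool.Agent.H53.SQ.G1

/-! Part G5 of the proof for MP_41dcdb_gt: this file joins the modules NCL, CHK, CYC, GRD, REPL, MRG, CMP. -/

section S_NCL

/-!
# Module NCL: a closed walk that traverses every edge of a tree twice is noncrossing

PROOF of `red_of_chain`: induction on `K.length`, generalizing `l a K`. `K = []`: `l = []`, `Red.nil`.
Let `K.length = n + 1`. The list of the labels after the letters, `Af = l.map (·.2.2)`, has
`2 * (n + 1)` entries, and contains `a` (the last one, `Chain a l a`, `l ≠ []`), so its `toFinset` has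
at least `n + 2` elements; hence some label `c` has `Af.count c = 1` (otherwise all counts are at
least 2 and `2 * (n + 2) ≤ 2 * (n + 1)`). The list of the labels before the letters is
`a :: (Af without its last entry a)`, a rotation of `Af`, so `c` occurs there once, too. Let `(i, b, c)`
be the letter with the label `c` after it. Its partner in `hp` is `(i, c, b)`; `b ≠ c` (else both
letters would have the label `c` after them). Two cases:
(1) `(i, b, c)` is not the last letter: the next letter has the label `c` before it, so it is the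
    partner: `l = A ++ (i, b, c) :: (i, c, b) :: B`, and `Chain a (A ++ B) a`. The letters of
    `A ++ B` are given by `K` without the chord `i`; the labels of `A ++ B` together with `a` are all
    the old ones except `c`. Induction and `Red.ins`.
(2) `(i, b, c)` is the last letter: `c = a`, and the first letter has the label `a = c` before it, so
    it is the partner: `l = (i, a, b) :: (M ++ [(i, b, a)])`, `Chain b M b`. Induction for `M` (base
    point `b`), then `red_wrap`.
`red_wrap`: induction on `Red M`.
-/

namespace Pool.Agent.H53.SQ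

theorem red_wrap {ι : Type} (i : ι) (M : List ι) (h : Red M) : Red (i :: (M ++ [i])) := by
  induction h with
  | nil => exact Red.ins [] [] i Red.nil
  | ins A B j h ih =>
    have h1 : i :: (A ++ j :: j :: B ++ [i]) = (i :: A) ++ j :: j :: (B ++ [i]) := by simp
    rw [h1]
    exact Red.ins (i :: A) (B ++ [i]) j (by simpa using ih)

theorem ncl_perm {ι : Type} {a b : ℕ} {l : List (ι × ℕ × ℕ)} (h : Chain a l b) :
    a :: l.map (fun p => p.2.2) = l.map (fun p => p.2.1) ++ [b] := by
  induction h with
  | nil a => simp
  | cons i a b c l h ih => simp [ih]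

theorem ncl_app {ι : Type} (A B : List (ι × ℕ × ℕ)) : ∀ (a b : ℕ), Chain a (A ++ B) b →
    ∃ m, Chain a A m ∧ Chain m B b := by
  induction A with
  | nil => intro a b h; exact ⟨a, Chain.nil a, h⟩
  | cons p A ih =>
    intro a b h
    cases h with
    | cons i a b' c l h =>
      obtain ⟨m, h1, h2⟩ := ih _ _ h
      exact ⟨m, Chain.cons i a b' m A h1, h2⟩

theorem ncl_join {ι : Type} {a m b : ℕ} {A B : List (ι × ℕ × ℕ)} (h : Chain a A m) (h' : Chain m B b) :
    Chain a (A ++ B) b := by
  induction h with
  | nil a => exact h'
  | cons i a b c l h ih => exact Chain.cons i a b _ _ (ih h')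

/-- the end of a chain is the start or a label after a letter -/
theorem ncl_last {ι : Type} {a b : ℕ} {l : List (ι × ℕ × ℕ)} (h : Chain a l b) :
    b ∈ insert a (l.map (fun p => p.2.2)).toFinset := by
  induction h with
  | nil a => simp
  | cons i a b c l h ih =>
    simp only [Finset.mem_insert, List.mem_toFinset, List.map_cons, List.mem_cons] at ih ⊢
    tauto

def nclF {ι : Type} (K : List (ι × ℕ × ℕ)) : List (ι × ℕ × ℕ) :=
  K.flatMap fun k => [(k.1, k.2.1, k.2.2), (k.1, k.2.2, k.2.1)]

theorem nclF_len {ι : Type} (K : List (ι × ℕ × ℕ)) : (nclF K).length = 2 * K.length := by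
  induction K with
  | nil => rfl
  | cons k K ih =>
    have : nclF (k :: K) = (k.1, k.2.1, k.2.2) :: (k.1, k.2.2, k.2.1) :: nclF K := rfl
    rw [this]
    simp only [List.length_cons, ih]
    ring

/-- removing a chord -/
theorem nclF_rem {ι : Type} (K : List (ι × ℕ × ℕ)) (i : ι) (b c : ℕ) (h : (i, b, c) ∈ nclF K) :
    ∃ K', K'.length + 1 = K.length ∧ (nclF K).Perm ((i, b, c) :: (i, c, b) :: nclF K') ∧
      (K'.map Prod.fst).Sublist (K.map Prod.fst) := by
  unfold nclF at h
  rw [List.mem_flatMap] at h
  obtain ⟨k, hk, hk2⟩ := h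
  obtain ⟨K1, K2, rfl⟩ := List.append_of_mem hk
  refine ⟨K1 ++ K2, by simp; omega, ?_, ?_⟩
  · have h1 : (nclF (K1 ++ k :: K2)).Perm ((k.1, k.2.1, k.2.2) :: (k.1, k.2.2, k.2.1) :: nclF (K1 ++ K2)) := by
      have h2 : nclF (K1 ++ k :: K2) = nclF K1 ++ ([(k.1, k.2.1, k.2.2), (k.1, k.2.2, k.2.1)] ++ nclF K2) := by
        simp [nclF]
      have h3 : nclF (K1 ++ K2) = nclF K1 ++ nclF K2 := by simp [nclF]
      rw [h2, h3]
      have h4 : (nclF K1 ++ ([(k.1, k.2.1, k.2.2), (k.1, k.2.2, k.2.1)] ++ nclF K2)).Perm
          ([(k.1, k.2.1, k.2.2), (k.1, k.2.2, k.2.1)] ++ (nclF K1 ++ nclF K2)) := by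
        rw [← List.append_assoc, ← List.append_assoc]
        exact List.Perm.append_right _ List.perm_append_comm
      simpa using h4
    refine h1.trans ?_
    simp only [List.mem_cons, List.not_mem_nil, or_false, Prod.mk.injEq] at hk2
    rcases hk2 with ⟨h5, h6, h7⟩ | ⟨h5, h6, h7⟩
    · subst h5 h6 h7
      exact List.Perm.refl _
    · subst h5 h6 h7
      exact List.Perm.swap _ _ _
  · simp only [List.map_append, List.map_cons]
    exact List.Sublist.append_left (List.sublist_cons_self _ _) _

theorem nclF_symm {ι : Type} (K : List (ι × ℕ × ℕ)) (i : ι) (b c : ℕ) (h : (i, b, c) ∈ nclF K) :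
    (i, c, b) ∈ nclF K := by
  obtain ⟨K', _, h2, _⟩ := nclF_rem K i b c h
  exact h2.symm.subset (by simp)

/-- a label with exactly one occurrence -/
theorem ncl_count (L : List ℕ) (n : ℕ) (h1 : L.length < 2 * n) (h2 : n ≤ L.toFinset.card) :
    ∃ c ∈ L, L.count c = 1 := by
  by_contra hcon
  push Not at hcon
  have h3 : ∀ c ∈ L.toFinset, 2 ≤ L.count c := by
    intro c hc
    rw [List.mem_toFinset] at hc
    have h4 := hcon c hc
    have h5 := List.count_pos_iff.2 hc
    omega
  have h6 : L.toFinset.card * 2 ≤ ∑ c ∈ L.toFinset, L.count c := by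
    have := Finset.sum_le_sum h3
    rwa [Finset.sum_const, smul_eq_mul] at this
  have h7 : ∑ c ∈ L.toFinset, L.count c = L.length := List.sum_toFinset_count_eq_length L
  omega

theorem red_of_chain {ι : Type} (K l : List (ι × ℕ × ℕ)) (a : ℕ)
    (hK : (K.map Prod.fst).Nodup)
    (hp : l.Perm (K.flatMap fun k => [(k.1, k.2.1, k.2.2), (k.1, k.2.2, k.2.1)]))
    (hch : Chain a l a) (hcard : K.length + 1 ≤ (insert a (l.map (·.2.2)).toFinset).card) :
    Red (l.map Prod.fst) := by
  obtain ⟨n, hn⟩ : ∃ n, K.length = n := ⟨_, rfl⟩
  change l.Perm (nclF K) at hp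
  induction n generalizing K l a with
  | zero =>
    have hK0 : K = [] := List.length_eq_zero_iff.1 hn
    subst hK0
    have : l = [] := List.Perm.eq_nil hp
    subst this
    exact Red.nil
  | succ n ih =>
    have hlen : l.length = 2 * (n + 1) := by rw [hp.length_eq, nclF_len, hn]
    -- the end point is a label
    have hpe := ncl_perm hch
    have hane : a ∈ l.map (fun p => p.2.2) := by
      have h1 : l ≠ [] := by
        intro h
        rw [h] at hlen
        simp at hlen
      obtain ⟨l', p, rfl⟩ : ∃ l' p, l = l' ++ [p] := ⟨l.dropLast, l.getLast h1, (List.dropLast_append_getLast h1).symm⟩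
      obtain ⟨m, _, h3⟩ := ncl_app _ _ _ _ hch
      cases h3 with
      | cons i _ b' c l h =>
        cases h
        simp
    rw [Finset.insert_eq_of_mem (List.mem_toFinset.2 hane), hn] at hcard
    obtain ⟨c, hc, hc1⟩ := ncl_count (l.map (fun p => p.2.2)) (n + 2) (by rw [List.length_map]; omega) hcard
    have hc2 : (l.map (fun p => p.2.1)).count c = 1 := by
      have h1 := congrArg (List.count c) hpe
      rw [List.count_cons, List.count_append] at h1
      simp only [List.count_singleton] at h1
      omega
    obtain ⟨⟨i, b, c'⟩, hpl, hpc⟩ := List.mem_map.1 hc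
    simp only at hpc
    subst hpc
    obtain ⟨A, B', rfl⟩ := List.append_of_mem hpl
    have hpart : (i, c', b) ∈ A ++ (i, b, c') :: B' := hp.symm.subset (nclF_symm K i b c' (hp.subset hpl))
    obtain ⟨K', hK1, hK2, hK3⟩ := nclF_rem K i b c' (hp.subset hpl)
    obtain ⟨m, hA, hB⟩ := ncl_app _ _ _ _ hch
    cases hB with
    | cons _ _ _ _ _ hB =>
    cases B' with
    | nil =>
      cases hB
      -- the last letter
      cases A with
      | nil =>
        simp only [List.nil_append, List.length_cons, List.length_nil] at hlen
        omega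
      | cons q M =>
        cases hA with
        | cons i' _ b' _ _ hM =>
        have hq : (i', a, b') = (i, a, b) := by
          simp only [List.cons_append, List.mem_cons] at hpart
          rcases hpart with h | h
          · exact h.symm
          · exfalso
            have h2 : a ∈ (M ++ [(i, b, a)]).map (fun p => p.2.1) := List.mem_map.2 ⟨_, h, rfl⟩
            have h3 := List.count_pos_iff.2 h2
            simp only [List.cons_append, List.map_cons, List.count_cons_self] at hc2
            omega
        simp only [Prod.mk.injEq, true_and] at hq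
        obtain ⟨rfl, rfl⟩ := hq
        have hl : ((i', a, b') :: M ++ [(i', b', a)]).Perm ((i', b', a) :: (i', a, b') :: M) := by
          refine List.perm_append_comm.trans ?_
          simp
        have hM' : M.Perm (nclF K') := (hl.symm.trans (hp.trans hK2)).cons_inv.cons_inv
        have hcard' : K'.length + 1 ≤ (insert b' (M.map (·.2.2)).toFinset).card := by
          have h1 : (((i', a, b') :: M ++ [(i', b', a)]).map (fun p => p.2.2)).toFinset ⊆
              insert a (insert b' (M.map (·.2.2)).toFinset) := by
            intro z hz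
            simp only [List.cons_append, List.map_cons, List.map_append, List.map_nil, List.mem_toFinset, List.mem_cons,
              List.mem_append, List.not_mem_nil, or_false, Finset.mem_insert] at hz ⊢
            tauto
          have h2 := Finset.card_le_card h1
          have h3 := Finset.card_insert_le a (insert b' (M.map (·.2.2)).toFinset)
          omega
        have h := ih K' M b' (hK3.nodup hK) hM hcard' (by omega) hM'
        have h4 := red_wrap i' _ h
        simpa using h4
    | cons q B =>
      cases hB with
      | cons i' _ b' _ _ hB =>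
      have hq : (i', c', b') = (i, c', b) := by
        have hc3 : (A.map (fun p => p.2.1)).count c' = 0 ∧ b ≠ c' ∧ (B.map (fun p => p.2.1)).count c' = 0 := by
          simp only [List.map_append, List.map_cons, List.count_append, List.count_cons, beq_iff_eq, if_true] at hc2
          by_cases hbc : b = c'
          · rw [if_pos hbc] at hc2
            omega
          · rw [if_neg hbc] at hc2
            exact ⟨by omega, hbc, by omega⟩
        obtain ⟨h1, h2, h3⟩ := hc3
        rw [List.mem_append, List.mem_cons, List.mem_cons] at hpart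
        rcases hpart with h | h | h | h
        · exfalso
          have h4 : c' ∈ A.map (fun p => p.2.1) := List.mem_map.2 ⟨_, h, rfl⟩
          have h5 := List.count_pos_iff.2 h4
          omega
        · exfalso
          simp only [Prod.mk.injEq, true_and] at h
          exact h2 h.2
        · exact h.symm
        · exfalso
          have h4 : c' ∈ B.map (fun p => p.2.1) := List.mem_map.2 ⟨_, h, rfl⟩
          have h5 := List.count_pos_iff.2 h4
          omega
      simp only [Prod.mk.injEq, true_and] at hq
      obtain ⟨rfl, rfl⟩ := hq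
      have hl : (A ++ (i', b', c') :: (i', c', b') :: B).Perm ((i', b', c') :: (i', c', b') :: (A ++ B)) := by
        have h1 : (A ++ (i', b', c') :: (i', c', b') :: B) = (A ++ [(i', b', c'), (i', c', b')]) ++ B := by simp
        have h2 : ((i', b', c') :: (i', c', b') :: (A ++ B)) = ([(i', b', c'), (i', c', b')] ++ A) ++ B := by simp
        rw [h1, h2]
        exact List.Perm.append_right _ List.perm_append_comm
      have hM' : (A ++ B).Perm (nclF K') := (hl.symm.trans (hp.trans hK2)).cons_inv.cons_inv
      have hlast := ncl_last hA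
      have hcard' : K'.length + 1 ≤ (insert a ((A ++ B).map (·.2.2)).toFinset).card := by
        have h1 : ((A ++ (i', b', c') :: (i', c', b') :: B).map (fun p => p.2.2)).toFinset ⊆
            insert c' (insert a ((A ++ B).map (·.2.2)).toFinset) := by
          intro z hz
          simp only [List.map_cons, List.map_append, List.mem_toFinset, List.mem_cons,
            List.mem_append, Finset.mem_insert] at hz hlast ⊢
          rcases hz with h | h | h | h
          · tauto
          · tauto
          · subst h
            tauto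
          · tauto
        have h2 := Finset.card_le_card h1
        have h3 := Finset.card_insert_le c' (insert a ((A ++ B).map (·.2.2)).toFinset)
        omega
      have h := ih K' (A ++ B) a (hK3.nodup hK) (ncl_join hA hB) hcard' (by omega) hM'
      rw [List.map_append] at h
      have h4 := Red.ins (A.map Prod.fst) (B.map Prod.fst) i' h
      simpa using h4

end Pool.Agent.H53.SQ

end S_NCL

section S_CHK

/-!
# Module CHK: noncrossing words in which every chord is opened first are correct expressions

PROOFS.
* `red_nocross`: induction on `Red l`. Let `l = A ++ i :: i :: B`. If `i = a` (or `i = b`): since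
  `l.count i ≤ 2`, `i` does not occur in `A`, `B`; so the two occurrences of `i` in the sublist
  `[a, b, a, b]` are the two adjacent ones, and there is nothing between them (e.g. filter `l` by
  `· = a ∨ · = b`: the result is `replicate p b ++ [a, a] ++ replicate q b`, and `[a, b, a, b]` (resp.
  `[b, a, b, a]`) is not a sublist of it). If `i ≠ a, b`: filtering by `· ≠ i` shows that
  `[a, b, a, b]` is a sublist of `A ++ B`.
* `chk_of_red`: generalize `W.map fst = l`, induction on `Red l`. Let `l = A ++ i :: i :: B`; then
  `W = A' ++ (i, x) :: (i, y) :: B'`, `W.map fst` counts `i` at most twice (`Nodup`), so by `hop` the two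
  letters `(i, true), (i, false)` occur in this order, `x = true`, `y = false`. The word `A' ++ B'`
  satisfies the hypotheses (sublists avoiding `i`). Finally `chk [] (A' ++ B')` implies
  `chk [] (A' ++ (i, true) :: (i, false) :: B')` (induction on `A'`, any stack).
-/

namespace Pool.Agent.H53.SQ

theorem chk_aux_three {ι : Type} [DecidableEq ι] (A B : List ι) (x y : ι) (hxy : x ≠ y)
    (hA : x ∉ A) (hB : x ∉ B) : ¬ List.Sublist [x, y, x] (A ++ x :: x :: B) := by
  intro h
  obtain ⟨l₁, l₂, h1, h2, h3⟩ := List.sublist_append_iff.mp h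
  rcases l₁ with _ | ⟨z, l₁⟩
  · simp only [List.nil_append] at h1
    subst h1
    cases h3 with
    | cons _ h4 =>
      have h5 := h4.count_le x
      have h6 : B.count x = 0 := List.count_eq_zero.mpr hB
      have h7 : [x, y, x].count x ≥ 2 := by
        simp [List.count_cons]
      have h8 : (x :: B).count x = 1 := by simp [h6]
      omega
    | cons_cons _ h4 =>
      cases h4 with
      | cons _ h5 => exact hB (h5.subset (by simp))
      | cons_cons _ h5 => exact hxy rfl
  · simp only [List.cons_append, List.cons.injEq] at h1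
    have h4 : z ∈ A := h2.subset (by simp)
    rw [← h1.1] at h4
    exact hA h4

theorem chk_aux_count_cons {ι : Type} [DecidableEq ι] {A B : List ι} {i : ι}
    (hc : (A ++ i :: i :: B).count i ≤ 2) : i ∉ A ∧ i ∉ B := by
  simp only [List.count_append, List.count_cons_self] at hc
  constructor
  · rw [← List.count_eq_zero]; omega
  · rw [← List.count_eq_zero]; omega

theorem chk_aux_count_le {ι : Type} [DecidableEq ι] (W : List (ι × Bool)) (hW : W.Nodup) (i : ι) :
    (W.map Prod.fst).count i ≤ 2 := by
  have h1 : (W.map Prod.fst).count i = (W.filter (fun z => z.1 = i)).length := by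
    rw [List.count_eq_length_filter, List.filter_map, List.length_map]
    congr 1
  rw [h1, ← List.toFinset_card_of_nodup (hW.filter _)]
  calc (W.filter (fun z => z.1 = i)).toFinset.card ≤ ({(i, true), (i, false)} : Finset (ι × Bool)).card := by
        apply Finset.card_le_card
        rintro ⟨j, s⟩ hj
        simp only [List.mem_toFinset, List.mem_filter, decide_eq_true_eq] at hj
        obtain ⟨-, rfl⟩ := hj
        cases s <;> simp
    _ ≤ 2 := Finset.card_le_two

theorem chk_aux_ins {ι : Type} (i : ι) (B : List (ι × Bool)) (A : List (ι × Bool)) (st : List ι)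
    (h : chk st (A ++ B)) : chk st (A ++ (i, true) :: (i, false) :: B) := by
  induction A generalizing st with
  | nil =>
    simp only [List.nil_append] at h ⊢
    exact ⟨rfl, h⟩
  | cons z A ih =>
    rcases z with ⟨j, s⟩
    cases s
    · rcases st with _ | ⟨k, st⟩
      · simp [chk] at h
      · simp only [List.cons_append, chk] at h ⊢
        exact ⟨h.1, ih st h.2⟩
    · simp only [List.cons_append, chk] at h ⊢
      exact ih _ h

theorem red_nocross {ι : Type} [DecidableEq ι] (l : List ι) (hr : Red l)
    (hc : ∀ i, l.count i ≤ 2) (a b : ι) (hab : a ≠ b) : ¬ List.Sublist [a, b, a, b] l := by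
  induction hr with
  | nil => intro h; simp at h
  | ins A B i h ih =>
    intro hs
    have hAB : (∀ j, (A ++ B).count j ≤ 2) := by
      intro j
      refine le_trans ?_ (hc j)
      simp only [List.count_append, List.count_cons]
      omega
    by_cases hia : i = a
    · subst hia
      obtain ⟨h1, h2⟩ := chk_aux_count_cons (hc i)
      refine chk_aux_three A B i b hab h1 h2 (List.Sublist.trans ?_ hs)
      exact List.Sublist.cons_cons _ (List.Sublist.cons_cons _ (List.Sublist.cons_cons _
        (List.nil_sublist _)))
    · by_cases hib : i = b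
      · subst hib
        obtain ⟨h1, h2⟩ := chk_aux_count_cons (hc i)
        refine chk_aux_three A B i a (Ne.symm hab) h1 h2 (List.Sublist.trans ?_ hs)
        exact List.Sublist.cons _ (List.Sublist.refl _)
      · apply ih hAB
        have h3 := hs.filter (fun z => z ≠ i)
        have h4 : [a, b, a, b].filter (fun z => z ≠ i) = [a, b, a, b] := by
          simp [Ne.symm hia, Ne.symm hib]
        rw [h4] at h3
        refine h3.trans ?_
        have h5 : (A ++ i :: i :: B).filter (fun z => z ≠ i) = (A ++ B).filter (fun z => z ≠ i) := by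
          simp [List.filter_append]
        rw [h5]
        exact List.filter_sublist

theorem chk_of_red {ι : Type} [DecidableEq ι] (W : List (ι × Bool))
    (hr : Red (W.map Prod.fst)) (hnd : W.Nodup)
    (hop : ∀ i, i ∈ W.map Prod.fst → List.Sublist [(i, true), (i, false)] W) : chk [] W := by
  obtain ⟨l, hl⟩ : ∃ l, l = W.map Prod.fst := ⟨_, rfl⟩
  rw [← hl] at hr
  induction hr generalizing W with
  | nil =>
    have h1 : W = [] := by
      rw [eq_comm, List.map_eq_nil_iff] at hl
      exact hl
    subst h1
    rfl
  | ins A B i h ih =>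
    obtain ⟨A', R, rfl, hA, hR⟩ := List.map_eq_append_iff.mp hl.symm
    obtain ⟨⟨i₁, x⟩, R₁, rfl, hi1, hR1⟩ := List.map_eq_cons_iff.mp hR
    obtain ⟨⟨i₂, y⟩, B', rfl, hi2, hB⟩ := List.map_eq_cons_iff.mp hR1
    simp only at hi1 hi2
    rw [hi1, hi2] at hnd hop hl ⊢
    clear hi1 hi2 hR hR1
    subst hA
    subst hB
    have hcnt := chk_aux_count_le _ hnd i
    rw [← hl] at hcnt
    obtain ⟨hiA, hiB⟩ := chk_aux_count_cons hcnt
    have hAx : ∀ t, (i, t) ∉ A' := fun t ht => hiA (List.mem_map.mpr ⟨_, ht, rfl⟩)
    have hBx : ∀ t, (i, t) ∉ B' := fun t ht => hiB (List.mem_map.mpr ⟨_, ht, rfl⟩)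
    have hxy : x = true ∧ y = false := by
      have h1 := hop i (by rw [← hl]; simp)
      have h2 : x ≠ y := by
        rintro rfl
        have h3 := (List.nodup_append.mp hnd).2.1
        rw [List.nodup_cons] at h3
        exact h3.1 (by simp)
      by_contra hcon
      have h3 : x = false ∧ y = true := by
        revert hcon h2
        cases x <;> cases y <;> simp
      obtain ⟨rfl, rfl⟩ := h3
      obtain ⟨l₁, l₂, h4, h5, h6⟩ := List.sublist_append_iff.mp h1
      rcases l₁ with _ | ⟨z, l₁⟩
      · simp only [List.nil_append] at h4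
        subst h4
        cases h6 with
        | cons _ h7 =>
          cases h7 with
          | cons _ h8 => exact hBx true (h8.subset (by simp))
          | cons_cons _ h8 => exact hBx false (h8.subset (by simp))
      · simp only [List.cons_append, List.cons.injEq] at h4
        have h7 : z ∈ A' := h5.subset (by simp)
        rw [← h4.1] at h7
        exact hAx _ h7
    obtain ⟨rfl, rfl⟩ := hxy
    apply chk_aux_ins
    have hsubl : List.Sublist (A' ++ B') (A' ++ (i, true) :: (i, false) :: B') :=
      List.Sublist.append (List.Sublist.refl _)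
        (List.Sublist.cons _ (List.Sublist.cons _ (List.Sublist.refl _)))
    refine ih (A' ++ B') (hnd.sublist hsubl) ?_ (by rw [List.map_append])
    intro j hj
    have hji : j ≠ i := by
      rintro rfl
      rw [List.map_append, List.mem_append] at hj
      exact hj.elim hiA hiB
    have h1 := hop j (hsubl.map _ |>.subset hj)
    have h3 := h1.filter (fun z => z.1 ≠ i)
    have h4 : [(j, true), (j, false)].filter (fun z => z.1 ≠ i) = [(j, true), (j, false)] := by
      simp [List.filter_cons, hji]
    rw [h4] at h3
    refine h3.trans ?_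
    have h5 : (A' ++ (i, true) :: (i, false) :: B').filter (fun z => z.1 ≠ i) =
        (A' ++ B').filter (fun z => z.1 ≠ i) := by
      simp [List.filter_append, List.filter_cons]
    rw [h5]
    exact List.filter_sublist

end Pool.Agent.H53.SQ

end S_CHK

section S_CYC

/-!
# Module CYC: the circles of the permutation `nu` as plain bars

`Path nu (pl l) x y` says: `x, nu x, nu (nu x), ...` runs through the entries of `l` (as `some _`)
and then arrives at `y`.

PROOFS. `nu` is a permutation of a finite set.
* `cyc_s`: take the least `m ≥ 1` with `nu^m none = none`; `l` lists `nu^1 none, ..., nu^(m-1) none`, which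
  are different from `none` and pairwise different (minimality, injectivity).
* `cyc_c`: take the least `m ≥ 1` with `nu^m (some z) = some z`; the points `nu^i (some z)`, `i < m`, are
  pairwise different and not in `E` (since `E` is closed under `nu` and finite, it is closed under
  `nu.symm`, or: the cycle returns to `z`, so a point of it in `E` would give `z ∈ E`); in particular they
  are not `none`. `c` is the list of these points. For `w = nu^i (some z)` the list
  `l' = [nu^(i+1) .., ..., nu^(i+m-1) ..]` works.
-/

namespace Pool.Agent.H53.SQ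

variable {V : Type}

theorem cyc_path (nu : Option (V × Bool) → Option (V × Bool)) :
    ∀ (n : ℕ) (x : Option (V × Bool)) (g : ℕ → V × Bool), (∀ i < n, nu^[i] x = some (g i)) →
      Path nu (pl ((List.range n).map g)) x (nu^[n] x) := by
  intro n
  induction n with
  | zero =>
    intro x g _
    exact rfl
  | succ n ih =>
    intro x g hg
    have h0 : x = some (g 0) := hg 0 (Nat.succ_pos n)
    rw [List.range_succ_eq_map, List.map_cons, List.map_map]
    have h1 := ih (nu x) (g ∘ Nat.succ) (by
      intro i hi
      have h2 := hg (i + 1) (by omega)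
      rw [Function.iterate_succ_apply] at h2
      exact h2)
    refine ⟨h0, ?_⟩
    rw [Function.iterate_succ_apply]
    have h3 : nu (some ((g 0).1, (g 0).2)) = nu x := by
      rw [h0]
    rw [h3]
    exact h1

theorem cyc_s [Finite V] (nu : Option (V × Bool) ≃ Option (V × Bool)) :
    ∃ l : List (V × Bool), l.Nodup ∧ Path nu (pl l) (nu none) none := by
  rcases isEmpty_or_nonempty V with hV | hV
  · refine ⟨[], List.nodup_nil, ?_⟩
    change nu none = none
    cases hx : nu none with
    | none => rfl
    | some p => exact (hV.false p.1).elim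
  have hp : 0 < Function.minimalPeriod nu none :=
    Function.minimalPeriod_pos_of_mem_periodicPts (Function.Injective.mem_periodicPts nu.injective none)
  obtain ⟨n, hn⟩ : ∃ n, Function.minimalPeriod nu none = n + 1 :=
    ⟨_, (Nat.succ_pred_eq_of_pos hp).symm⟩
  have hne : ∀ i : ℕ, ∃ g : V × Bool, i < n → nu^[i + 1] none = some g := by
    intro i
    by_cases hi : i < n
    · cases hx : nu^[i + 1] none with
      | none =>
        exact absurd hx (Function.not_isPeriodicPt_of_pos_of_lt_minimalPeriod
          (Nat.succ_ne_zero i) (by omega))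
      | some g => exact ⟨g, fun _ => rfl⟩
    · exact ⟨(hV.some, true), fun h => absurd h hi⟩
  choose g hg using hne
  refine ⟨(List.range n).map g, ?_, ?_⟩
  · refine List.Nodup.map_on ?_ List.nodup_range
    intro i hi j hj hij
    rw [List.mem_range] at hi hj
    have h1 : nu^[i + 1] none = nu^[j + 1] none := by
      rw [hg i hi, hg j hj, hij]
    have h2 := Function.iterate_injOn_Iio_minimalPeriod (f := nu) (x := none)
      (show i + 1 < Function.minimalPeriod nu none by omega)
      (show j + 1 < Function.minimalPeriod nu none by omega) h1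
    omega
  · have h1 := cyc_path nu n (nu none) g (by
      intro i hi
      rw [← Function.iterate_succ_apply]
      exact hg i hi)
    rw [← Function.iterate_succ_apply, ← Nat.add_one, ← hn, Function.iterate_minimalPeriod] at h1
    exact h1

theorem cyc_c [Finite V] (nu : Option (V × Bool) ≃ Option (V × Bool)) (z : V × Bool)
    (E : Set (Option (V × Bool))) (hE : ∀ x ∈ E, nu x ∈ E) (hn : none ∈ E) (hz : some z ∉ E) :
    ∃ c : List (V × Bool), c.Nodup ∧ z ∈ c ∧ (∀ w ∈ c, some w ∉ E) ∧
      (∀ w ∈ c, ∃ w' ∈ c, nu (some w) = some w') ∧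
      ∀ w ∈ c, ∃ l' : List (V × Bool), (w :: l').Perm c ∧
        Path nu (pl l') (nu (some w)) (some w) := by
  obtain ⟨k, hk⟩ : ∃ k, k = Function.minimalPeriod nu (some z) := ⟨_, rfl⟩
  have hp : 0 < k := by
    rw [hk]
    exact Function.minimalPeriod_pos_of_mem_periodicPts
      (Function.Injective.mem_periodicPts nu.injective (some z))
  have hper : nu^[k] (some z) = some z := by
    rw [hk]
    exact Function.iterate_minimalPeriod
  have hEi : ∀ (j : ℕ) (x : Option (V × Bool)), x ∈ E → nu^[j] x ∈ E := by
    intro j
    induction j with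
    | zero => intro x hx; exact hx
    | succ j ih =>
      intro x hx
      rw [Function.iterate_succ_apply]
      exact ih _ (hE x hx)
  have hnE : ∀ i : ℕ, nu^[i] (some z) ∉ E := by
    intro i hi
    have h1 := hEi (i * (k - 1)) _ hi
    rw [← Function.iterate_add_apply] at h1
    have h2 : i * (k - 1) + i = i * k := by
      obtain ⟨k', rfl⟩ : ∃ k', k = k' + 1 := ⟨k - 1, by omega⟩
      rw [Nat.add_sub_cancel]
      ring
    rw [h2] at h1
    have h3 : nu^[i * k] (some z) = some z :=
      (Function.IsPeriodicPt.const_mul (show Function.IsPeriodicPt nu k (some z) from hper) i)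
    rw [h3] at h1
    exact hz h1
  have hex : ∀ i : ℕ, ∃ g : V × Bool, nu^[i] (some z) = some g := by
    intro i
    cases hx : nu^[i] (some z) with
    | none => exact absurd (hx ▸ hn) (hnE i)
    | some g => exact ⟨g, rfl⟩
  choose g hg using hex
  have hmem : ∀ i : ℕ, g i ∈ (List.range k).map g := by
    intro i
    rw [List.mem_map]
    refine ⟨i % k, List.mem_range.mpr (Nat.mod_lt _ hp), ?_⟩
    have h1 : nu^[i % k] (some z) = nu^[i] (some z) := by
      rw [hk]
      exact Function.iterate_mod_minimalPeriod_eq
    rw [hg, hg] at h1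
    exact Option.some.inj h1
  have hinj : ∀ i < k, ∀ j < k, g i = g j → i = j := by
    intro i hi j hj hij
    have h1 : nu^[i] (some z) = nu^[j] (some z) := by
      rw [hg, hg, hij]
    exact Function.iterate_injOn_Iio_minimalPeriod (f := nu) (x := some z)
      (show i < Function.minimalPeriod nu (some z) by omega)
      (show j < Function.minimalPeriod nu (some z) by omega) h1
  have hnext : ∀ i : ℕ, nu (some (g i)) = some (g (i + 1)) := by
    intro i
    rw [← hg i, ← Function.iterate_succ_apply' nu i (some z), ← Nat.add_one, hg (i + 1)]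
  have hg0 : g 0 = z := by
    have h1 := hg 0
    exact (Option.some.inj h1).symm
  refine ⟨(List.range k).map g, ?_, ?_, ?_, ?_, ?_⟩
  · refine List.Nodup.map_on ?_ List.nodup_range
    intro i hi j hj hij
    rw [List.mem_range] at hi hj
    exact hinj i hi j hj hij
  · rw [← hg0]
    exact hmem 0
  · intro w hw
    rw [List.mem_map] at hw
    obtain ⟨i, -, rfl⟩ := hw
    rw [← hg i]
    exact hnE i
  · intro w hw
    rw [List.mem_map] at hw
    obtain ⟨i, -, rfl⟩ := hw
    exact ⟨g (i + 1), hmem (i + 1), hnext i⟩
  · intro w hw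
    rw [List.mem_map] at hw
    obtain ⟨i, -, rfl⟩ := hw
    refine ⟨(List.range (k - 1)).map (fun j => g (i + 1 + j)), ?_, ?_⟩
    · have h1 : g i :: (List.range (k - 1)).map (fun j => g (i + 1 + j)) =
          (List.range k).map (fun j => g (i + j)) := by
        obtain ⟨k', hk'⟩ : ∃ k', k = k' + 1 := ⟨k - 1, by omega⟩
        rw [hk', Nat.add_sub_cancel, List.range_succ_eq_map, List.map_cons, List.map_map]
        congr 1
        refine List.map_congr_left fun j _ => ?_
        change g (i + 1 + j) = g (i + (j + 1))
        congr 1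
        omega
      rw [h1]
      have hnd : ((List.range k).map (fun j => g (i + j))).Nodup := by
        refine List.Nodup.map_on ?_ List.nodup_range
        intro a ha b hb hab
        rw [List.mem_range] at ha hb
        have h2 : nu^[i] (nu^[a] (some z)) = nu^[i] (nu^[b] (some z)) := by
          rw [← Function.iterate_add_apply, ← Function.iterate_add_apply, hg, hg, hab]
        have h3 := (nu.injective.iterate i) h2
        rw [hg, hg] at h3
        exact hinj a ha b hb (Option.some.inj h3)
      refine (List.subperm_of_subset hnd ?_).perm_of_length_le ?_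
      · intro x hx
        rw [List.mem_map] at hx
        obtain ⟨j, -, rfl⟩ := hx
        exact hmem _
      · rw [List.length_map, List.length_map]
    · have h1 := cyc_path nu (k - 1) (nu (some (g i))) (fun j => g (i + 1 + j)) (by
        intro j _
        rw [hnext i, ← hg (i + 1), ← Function.iterate_add_apply, hg]
        congr 2
        omega)
      have h2 : nu^[k - 1] (nu (some (g i))) = some (g i) := by
        rw [← Function.iterate_succ_apply, ← Nat.add_one, Nat.sub_add_cancel hp, ← hg i,
          ← Function.iterate_add_apply, add_comm, Function.iterate_add_apply, hper]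
      rw [h2] at h1
      exact h1

end Pool.Agent.H53.SQ

end S_CYC

section S_GRD

/-!
# Module GRD: the greedy bar of the open strand

PROOF: strong induction on `l.length`. `l = []`: `b = nil`. `l = (v, s) :: l'`.
* If `(v, !s) ∈ l'`: `l' = l₁ ++ (v, !s) :: l₂`, let `b₂` be the bar for `l₂`,
  `b = ch true v s (pl l₁) b₂`. `eps (pl l₁) = l₁`, `noJ (pl l₁)`. A path of `pl ((v,s) :: l₁ ++ (v,!s) :: l₂)`
  splits at `(v, !s)`.
  `Rho`: let `u` be a crossing with both letters in the word `W` of `b`. The letters of `W` are the ones of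
  `RC (pl l₁)` (only letters `(inl _, false)`), of `LC (pl l₁)` (only letters `(inl _, true)`), of `RC b₂`,
  `LC b₂`, and `retL n, topL n`, `n = inl (v, !s)`. With `c = pl l₁`:
  `s = false` (`jl`): `W = [ret] RC b₂ LC b₂ RC c [top] LC c`;
  `s = true` (`jr`):  `W = RC c [top] LC c RC b₂ LC b₂ [ret]`.
  (a) both letters in the child: `(inl u, false) ∈ RC c`, `(inl u, true) ∈ LC c`: the ids contain
      `ret, u, top, u` (`jl`) or `u, top, u, ret` (`jr`).
  (b) both letters in `RC b₂ ++ LC b₂`: induction hypothesis (`RC b₂ ++ LC b₂` is a sublist of `W`).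
  (c) `(inl u, false) ∈ RC c` and `(inl u, true)` in the word of `b₂`: for `jl` opening first; for `jr` the
      ids contain `u, top, u, ret`.
  (d) `(inl u, true) ∈ LC c` and `(inl u, false)` in the word of `b₂`: for `jl` the ids contain
      `ret, u, top, u`; for `jr` opening first.
* Otherwise `b = it v s b'` with the bar `b'` for `l'`; the letter of the partner of `v` does not occur in
  the word of `b'` (its generic items are in `eps b'`, a permutation of `l'`), so `Rho` follows from the
  induction hypothesis (`RC b' ++ LC b'` is a sublist).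
Useful lemma: `(inl u, t) ∈ RC b ∨ (inl u, t) ∈ LC b ↔ (u, t) ∈ gls b`, and `gls b ⊆ eps b`.
-/

namespace Pool.Agent.H53.SQ

variable {V : Type}

theorem mem_word_iff {L : ℕ} (b : BT V) (u : V) (t : Bool) :
    ((Sum.inl u, t) ∈ (RC b ++ LC b : List (Lt V L))) ↔ (u, t) ∈ gls b := by
  induction b with
  | nil => simp [gls]
  | it v s r ih =>
    rw [List.mem_append] at ih
    cases s
    · rw [RC_itL, LC_itL, List.mem_append, List.mem_cons, or_assoc, ih, gls, List.mem_cons]
      simp
    · rw [RC_itR, LC_itR, List.mem_append, List.mem_append, List.mem_singleton, ← or_assoc, ih, gls,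
        List.mem_cons, or_comm]
      simp
  | ch j v s c r ihc ihr =>
    rw [List.mem_append] at ihc ihr
    have hg : (u, t) ∈ gls (BT.ch j v s c r) ↔
        ((Sum.inl u, t) ∈ (RC c : List (Lt V L)) ∨ (Sum.inl u, t) ∈ (LC c : List (Lt V L))) ∨
        ((Sum.inl u, t) ∈ (RC r : List (Lt V L)) ∨ (Sum.inl u, t) ∈ (LC r : List (Lt V L))) := by
      rw [ihc, ihr, gls, List.mem_append]
    rw [hg]
    cases j <;> cases s
    · rw [RC_br, LC_br]
      simp only [List.mem_append, List.mem_cons, retL, topL, Prod.mk.injEq, reduceCtorEq, false_and,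
        false_or]
      tauto
    · rw [RC_bl, LC_bl]
      simp only [List.mem_append, List.mem_cons, retL, topL, Prod.mk.injEq, reduceCtorEq, false_and,
        false_or, List.not_mem_nil, or_false]
      tauto
    · rw [RC_jl, LC_jl]
      simp only [List.mem_append, List.mem_cons, retL, topL, Prod.mk.injEq, reduceCtorEq, false_and,
        false_or]
      tauto
    · rw [RC_jr, LC_jr]
      simp only [List.mem_append, List.mem_cons, retL, topL, Prod.mk.injEq, reduceCtorEq, false_and,
        false_or, List.not_mem_nil, or_false]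
      tauto

theorem gls_subset_eps (b : BT V) : ∀ z ∈ gls b, z ∈ eps b := by
  induction b with
  | nil => intro z hz; exact hz
  | it v s r ih =>
    intro z hz
    rw [gls, List.mem_cons] at hz
    rw [eps, List.mem_cons]
    rcases hz with h | h
    · exact Or.inl h
    · exact Or.inr (ih z h)
  | ch j v s c r ihc ihr =>
    intro z hz
    rw [gls, List.mem_append] at hz
    rw [eps, List.mem_cons, List.mem_cons, List.mem_append]
    rcases hz with h | h
    · exact Or.inr (Or.inr (Or.inl (ihc z h)))
    · exact Or.inr (Or.inr (Or.inr (ihr z h)))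

theorem eps_pl (l : List (V × Bool)) : eps (pl l) = l := by
  induction l with
  | nil => rfl
  | cons a l ih =>
    obtain ⟨v, s⟩ := a
    rw [pl, eps, ih]

theorem noJ_pl (l : List (V × Bool)) : noJ (pl l) := by
  induction l with
  | nil => trivial
  | cons a l ih =>
    obtain ⟨v, s⟩ := a
    rw [pl, noJ]
    exact ih

private def GRD_C {L : ℕ} (W : List (Lt V L)) (v : V) : Prop :=
  List.Sublist [(Sum.inl v, true), (Sum.inl v, false)] W ∨
    ∃ n : Nm V L, List.Sublist [Sum.inl v, Sum.inr n, Sum.inl v, Sum.inr n] (W.map Prod.fst) ∨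
      List.Sublist [Sum.inr n, Sum.inl v, Sum.inr n, Sum.inl v] (W.map Prod.fst)

private theorem GRD_mono {L : ℕ} {W W' : List (Lt V L)} (h : List.Sublist W' W) {v : V} (hc : GRD_C W' v) :
    GRD_C W v := by
  rcases hc with h1 | ⟨n, h1 | h1⟩
  · exact Or.inl (h1.trans h)
  · exact Or.inr ⟨n, Or.inl (h1.trans (h.map _))⟩
  · exact Or.inr ⟨n, Or.inr (h1.trans (h.map _))⟩

private theorem GRD_path_pl (nu : Option (V × Bool) → Option (V × Bool)) (l₁ l₂ : List (V × Bool))
    (w : V × Bool) (x y : Option (V × Bool)) (h : Path nu (pl (l₁ ++ w :: l₂)) x y) :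
    Path nu (pl l₁) x (some w) ∧ Path nu (pl l₂) (nu (some w)) y := by
  induction l₁ generalizing x with
  | nil =>
    obtain ⟨v, s⟩ := w
    simp only [List.nil_append, pl, Path] at h ⊢
    exact h
  | cons a l ih =>
    obtain ⟨v, s⟩ := a
    simp only [List.cons_append, pl, Path] at h ⊢
    obtain ⟨h1, h2⟩ := h
    obtain ⟨h3, h4⟩ := ih _ h2
    exact ⟨⟨h1, h3⟩, h4⟩

private theorem GRD_RC_pl {L : ℕ} (l : List (V × Bool)) (u : V) :
    (Sum.inl u, true) ∉ (RC (pl l) : List (Lt V L)) := by
  induction l with
  | nil => simp [pl]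
  | cons a l ih =>
    obtain ⟨v, s⟩ := a
    cases s
    · rw [pl, RC_itL, List.mem_cons]
      simp [ih]
    · rw [pl, RC_itR]
      exact ih

private theorem GRD_LC_pl {L : ℕ} (l : List (V × Bool)) (u : V) :
    (Sum.inl u, false) ∉ (LC (pl l) : List (Lt V L)) := by
  induction l with
  | nil => simp [pl]
  | cons a l ih =>
    obtain ⟨v, s⟩ := a
    cases s
    · rw [pl, LC_itL]
      exact ih
    · rw [pl, LC_itR, List.mem_append]
      simp [ih]

private theorem GRD_s1 {α : Type*} {a : α} {A : List α} (h : a ∈ A) : List.Sublist [a] A :=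
  List.singleton_sublist.mpr h

private theorem GRD_fst {L : ℕ} {a : Lt V L} {A : List (Lt V L)} (h : a ∈ A) :
    List.Sublist [a.1] (A.map Prod.fst) :=
  List.singleton_sublist.mpr (List.mem_map_of_mem h)

private theorem GRD_jl {L : ℕ} (v : V) (l₁ : List (V × Bool)) (r : BT V)
    (hr : Rho (wrd none r : List (Lt V L))) :
    Rho (wrd none (.ch true v false (pl l₁) r) : List (Lt V L)) := by
  intro u h1 h2
  change GRD_C _ u
  simp only [wrd, RC_jl, LC_jl] at h1 h2 ⊢
  have hW : (retL (Sum.inl (v, true)) :: RC r ++ (LC r ++ (RC (pl l₁) ++ topL (Sum.inl (v, true)) :: LC (pl l₁))) :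
      List (Lt V L)) = [retL (Sum.inl (v, true))] ++ ((RC r ++ LC r) ++ (RC (pl l₁) ++
        ([topL (Sum.inl (v, true))] ++ LC (pl l₁)))) := by
    simp [List.append_assoc]
  rw [hW] at h1 h2 ⊢
  have e1 : (Sum.inl u, true) ∈ (RC r ++ LC r : List (Lt V L)) ∨ (Sum.inl u, true) ∈ (LC (pl l₁) : List (Lt V L)) := by
    have := GRD_RC_pl (L := L) l₁ u
    rcases List.mem_append.mp h1 with h | h
    · simp [retL] at h
    rcases List.mem_append.mp h with h | h
    · exact Or.inl h
    rcases List.mem_append.mp h with h | h
    · exact absurd h this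
    rcases List.mem_append.mp h with h | h
    · simp [topL] at h
    · exact Or.inr h
  have e2 : (Sum.inl u, false) ∈ (RC r ++ LC r : List (Lt V L)) ∨ (Sum.inl u, false) ∈ (RC (pl l₁) : List (Lt V L)) := by
    have := GRD_LC_pl (L := L) l₁ u
    rcases List.mem_append.mp h2 with h | h
    · simp [retL] at h
    rcases List.mem_append.mp h with h | h
    · exact Or.inl h
    rcases List.mem_append.mp h with h | h
    · exact Or.inr h
    rcases List.mem_append.mp h with h | h
    · simp [topL] at h
    · exact absurd h this
  rcases e1 with e1 | e1 <;> rcases e2 with e2 | e2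
  · refine GRD_mono ?_ (hr u e1 e2)
    simp only [wrd]
    exact (List.sublist_append_left _ _).trans (List.sublist_append_right _ _)
  · refine Or.inl ?_
    have : List.Sublist ([(Sum.inl u, true)] ++ [(Sum.inl u, false)])
        ((RC r ++ LC r) ++ (RC (pl l₁) ++ ([topL (Sum.inl (v, true))] ++ LC (pl l₁))) : List (Lt V L)) :=
      (GRD_s1 e1).append ((GRD_s1 e2).trans (List.sublist_append_left _ _))
    exact this.trans (List.sublist_append_right _ _)
  · refine Or.inr ⟨Sum.inl (v, true), Or.inr ?_⟩
    have : List.Sublist ([Sum.inr (Sum.inl (v, true))] ++ ([Sum.inl u] ++ (([] : List (V ⊕ Nm V L)) ++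
        ([Sum.inr (Sum.inl (v, true))] ++ [Sum.inl u]))))
        (List.map Prod.fst [retL (Sum.inl (v, true))] ++ (List.map Prod.fst (RC r ++ LC r) ++
          (List.map Prod.fst (RC (pl l₁)) ++ (List.map Prod.fst [topL (Sum.inl (v, true))] ++
            List.map Prod.fst (LC (pl l₁)))))) :=
      (List.Sublist.refl _).append ((GRD_fst e2).append ((List.nil_sublist _).append
        ((List.Sublist.refl _).append (GRD_fst e1))))
    simp only [List.map_append, List.append_assoc] at this ⊢
    exact this
  · refine Or.inr ⟨Sum.inl (v, true), Or.inr ?_⟩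
    have : List.Sublist ([Sum.inr (Sum.inl (v, true))] ++ (([] : List (V ⊕ Nm V L)) ++ ([Sum.inl u] ++
        ([Sum.inr (Sum.inl (v, true))] ++ [Sum.inl u]))))
        (List.map Prod.fst [retL (Sum.inl (v, true))] ++ (List.map Prod.fst (RC r ++ LC r) ++
          (List.map Prod.fst (RC (pl l₁)) ++ (List.map Prod.fst [topL (Sum.inl (v, true))] ++
            List.map Prod.fst (LC (pl l₁)))))) :=
      (List.Sublist.refl _).append ((List.nil_sublist _).append ((GRD_fst e2).append
        ((List.Sublist.refl _).append (GRD_fst e1))))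
    simp only [List.map_append, List.append_assoc] at this ⊢
    exact this

private theorem GRD_jr {L : ℕ} (v : V) (l₁ : List (V × Bool)) (r : BT V)
    (hr : Rho (wrd none r : List (Lt V L))) :
    Rho (wrd none (.ch true v true (pl l₁) r) : List (Lt V L)) := by
  intro u h1 h2
  change GRD_C _ u
  simp only [wrd, RC_jr, LC_jr] at h1 h2 ⊢
  have hW : (RC (pl l₁) ++ topL (Sum.inl (v, false)) :: (LC (pl l₁) ++ RC r) ++ (LC r ++ [retL (Sum.inl (v, false))]) :
      List (Lt V L)) = RC (pl l₁) ++ ([topL (Sum.inl (v, false))] ++ (LC (pl l₁) ++ ((RC r ++ LC r) ++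
        [retL (Sum.inl (v, false))]))) := by
    simp [List.append_assoc]
  rw [hW] at h1 h2 ⊢
  have e1 : (Sum.inl u, true) ∈ (RC r ++ LC r : List (Lt V L)) ∨ (Sum.inl u, true) ∈ (LC (pl l₁) : List (Lt V L)) := by
    have := GRD_RC_pl (L := L) l₁ u
    rw [List.mem_append, List.mem_append, List.mem_append, List.mem_append] at h1
    rcases h1 with h | h | h | h | h
    · exact absurd h this
    · simp [topL] at h
    · exact Or.inr h
    · exact Or.inl h
    · simp [retL] at h
  have e2 : (Sum.inl u, false) ∈ (RC r ++ LC r : List (Lt V L)) ∨ (Sum.inl u, false) ∈ (RC (pl l₁) : List (Lt V L)) := by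
    have := GRD_LC_pl (L := L) l₁ u
    rw [List.mem_append, List.mem_append, List.mem_append, List.mem_append] at h2
    rcases h2 with h | h | h | h | h
    · exact Or.inr h
    · simp [topL] at h
    · exact absurd h this
    · exact Or.inl h
    · simp [retL] at h
  rcases e1 with e1 | e1 <;> rcases e2 with e2 | e2
  · refine GRD_mono ?_ (hr u e1 e2)
    simp only [wrd]
    exact (List.sublist_append_left _ _).trans ((List.sublist_append_right _ _).trans
      ((List.sublist_append_right _ _).trans (List.sublist_append_right _ _)))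
  · refine Or.inr ⟨Sum.inl (v, false), Or.inl ?_⟩
    rw [List.map_append, List.map_append, List.map_append, List.map_append]
    have : List.Sublist ([Sum.inl u] ++ ([Sum.inr (Sum.inl (v, false))] ++ (([] : List (V ⊕ Nm V L)) ++
        ([Sum.inl u] ++ [Sum.inr (Sum.inl (v, false))]))))
        (List.map Prod.fst (RC (pl l₁)) ++ (List.map Prod.fst [topL (Sum.inl (v, false))] ++
          (List.map Prod.fst (LC (pl l₁)) ++ (List.map Prod.fst (RC r ++ LC r) ++
            List.map Prod.fst [retL (Sum.inl (v, false))])))) :=
      (GRD_fst e2).append ((List.Sublist.refl _).append ((List.nil_sublist _).append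
        ((GRD_fst e1).append (List.Sublist.refl _))))
    exact this
  · refine Or.inl ?_
    have : List.Sublist ([(Sum.inl u, true)] ++ [(Sum.inl u, false)])
        (LC (pl l₁) ++ ((RC r ++ LC r) ++ [retL (Sum.inl (v, false))]) : List (Lt V L)) :=
      (GRD_s1 e1).append ((GRD_s1 e2).trans (List.sublist_append_left _ _))
    exact this.trans ((List.sublist_append_right _ _).trans (List.sublist_append_right _ _))
  · refine Or.inr ⟨Sum.inl (v, false), Or.inl ?_⟩
    rw [List.map_append, List.map_append, List.map_append, List.map_append]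
    have : List.Sublist ([Sum.inl u] ++ ([Sum.inr (Sum.inl (v, false))] ++ ([Sum.inl u] ++
        (([] : List (V ⊕ Nm V L)) ++ [Sum.inr (Sum.inl (v, false))]))))
        (List.map Prod.fst (RC (pl l₁)) ++ (List.map Prod.fst [topL (Sum.inl (v, false))] ++
          (List.map Prod.fst (LC (pl l₁)) ++ (List.map Prod.fst (RC r ++ LC r) ++
            List.map Prod.fst [retL (Sum.inl (v, false))])))) :=
      (GRD_fst e2).append ((List.Sublist.refl _).append ((GRD_fst e1).append
        ((List.nil_sublist _).append (List.Sublist.refl _))))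
    exact this

private theorem GRD_it {L : ℕ} (v : V) (s : Bool) (r : BT V) (hv : (v, !s) ∉ eps r)
    (hr : Rho (wrd none r : List (Lt V L))) :
    Rho (wrd none (.it v s r) : List (Lt V L)) := by
  intro u h1 h2
  change GRD_C _ u
  cases s
  · simp only [wrd, RC_itL, LC_itL] at h1 h2 ⊢
    rw [List.cons_append, List.mem_cons] at h1 h2
    have e1 : (Sum.inl u, true) ∈ (RC r ++ LC r : List (Lt V L)) := by
      rcases h1 with h | h
      · simp at h
      · exact h
    have e2 : (Sum.inl u, false) ∈ (RC r ++ LC r : List (Lt V L)) := by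
      rcases h2 with h | h
      · have huv : u = v := by
          have := congrArg Prod.fst h
          exact Sum.inl.inj this
        subst huv
        exact absurd (gls_subset_eps r _ ((mem_word_iff r u true).mp e1)) hv
      · exact h
    refine GRD_mono ?_ (hr u e1 e2)
    rw [List.cons_append]
    exact List.sublist_cons_self _ _
  · simp only [wrd, RC_itR, LC_itR] at h1 h2 ⊢
    rw [← List.append_assoc, List.mem_append, List.mem_singleton] at h1 h2
    have e2 : (Sum.inl u, false) ∈ (RC r ++ LC r : List (Lt V L)) := by
      rcases h2 with h | h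
      · exact h
      · simp at h
    have e1 : (Sum.inl u, true) ∈ (RC r ++ LC r : List (Lt V L)) := by
      rcases h1 with h | h
      · exact h
      · have huv : u = v := by
          have := congrArg Prod.fst h
          exact Sum.inl.inj this
        subst huv
        exact absurd (gls_subset_eps r _ ((mem_word_iff r u false).mp e2)) hv
    refine GRD_mono ?_ (hr u e1 e2)
    rw [← List.append_assoc]
    exact List.sublist_append_left _ _

theorem greedy (L : ℕ) (l : List (V × Bool)) (hl : l.Nodup) :
    ∃ b : BT V, okJ b ∧ (eps b).Perm l ∧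
      (∀ (nu : Option (V × Bool) → Option (V × Bool)) (x y : Option (V × Bool)),
        Path nu (pl l) x y → Path nu b x y) ∧
      Rho (wrd none b : List (Lt V L)) := by
  classical
  induction hn : l.length using Nat.strong_induction_on generalizing l with
  | _ n ih =>
    cases l with
    | nil =>
      refine ⟨BT.nil, trivial, List.Perm.refl _, fun nu x y h => h, ?_⟩
      intro v h1 _
      simp [wrd] at h1
    | cons a l' =>
      obtain ⟨v, s⟩ := a
      have hl' : l'.Nodup := (List.nodup_cons.mp hl).2
      by_cases hm : (v, !s) ∈ l'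
      · obtain ⟨l₁, l₂, rfl⟩ := List.append_of_mem hm
        have hl₂ : l₂.Nodup := (List.nodup_cons.mp (List.nodup_append.mp hl').2.1).2
        have hlt : l₂.length < n := by
          rw [← hn]
          simp only [List.length_cons, List.length_append]
          omega
        obtain ⟨b₂, hok, hperm, hpath, hrho⟩ := ih l₂.length hlt l₂ hl₂ rfl
        refine ⟨BT.ch true v s (pl l₁) b₂, ⟨noJ_pl l₁, hok⟩, ?_, ?_, ?_⟩
        · rw [eps, eps_pl]
          refine List.Perm.cons _ ?_
          refine List.Perm.trans ?_ (List.perm_middle).symm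
          exact List.Perm.cons _ (List.Perm.append_left l₁ hperm)
        · intro nu x y h
          simp only [pl, Path] at h
          obtain ⟨h1, h2⟩ := h
          obtain ⟨h3, h4⟩ := GRD_path_pl nu l₁ l₂ (v, !s) _ _ h2
          simp only [Path, if_true]
          exact ⟨h1, hpath nu _ _ h4, h3⟩
        · cases s
          · exact GRD_jl v l₁ b₂ hrho
          · exact GRD_jr v l₁ b₂ hrho
      · have hlt : l'.length < n := by
          rw [← hn]
          simp
        obtain ⟨b', hok, hperm, hpath, hrho⟩ := ih l'.length hlt l' hl' rfl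
        refine ⟨BT.it v s b', hok, ?_, ?_, ?_⟩
        · rw [eps]
          exact List.Perm.cons _ hperm
        · intro nu x y h
          simp only [pl, Path] at h ⊢
          exact ⟨h.1, hpath nu _ _ h.2⟩
        · exact GRD_it v s b' (fun h => hm (hperm.mem_iff.mp h)) hrho

end Pool.Agent.H53.SQ

end S_GRD

section S_REPL

/-!
# Module REPL: replacing a generic item by the birth of a child

PROOF: induction on `b`. For `it v s r` at the top take `b' = ch false s .. ` i.e.
`BT.ch false v s c r`: for `s = false`, `RC b = (inl v, false) :: RC r` becomes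
`ret :: RC c ++ top :: LC c ++ RC r` (that is `blk v false c ++ RC r`), `LC` is unchanged; for
`s = true`, `LC b = LC r ++ [(inl v, true)]` becomes `LC r ++ blk v true c`. For an item deeper in `b`
(in the rest or in a child of a `ch` item) apply the induction hypothesis and put the changed bar back;
`Subst` is compatible with `A ++ _ ++ B`, and in all the formulas for `RC`, `LC` the contours of the
child and of the rest occur exactly once. Note that for a child both `RC` and `LC` of the child
lie in the same contour of `b`. `Path`: `Path nu (it v s r) x y` and the path of the new child give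
`Path nu (ch false v s c r) x y`.
-/

namespace Pool.Agent.H53.SQ

variable {V : Type} {L : ℕ}

/-- the block which replaces the letter of the generic item `(v, s)` -/
def blk (L : ℕ) (v : V) (s : Bool) (c : BT V) : List (Lt V L) :=
  if s then RC c ++ topL (Sum.inl (v, false)) :: (LC c ++ [retL (Sum.inl (v, false))])
  else retL (Sum.inl (v, true)) :: (RC c ++ topL (Sum.inl (v, true)) :: LC c)

def Subst (L : ℕ) (v : V) (s : Bool) (c : BT V) (W W' : List (Lt V L)) : Prop :=
  ∃ A B : List (Lt V L), W = A ++ (Sum.inl v, s) :: B ∧ W' = A ++ (blk L v s c ++ B)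

theorem REPL_ctx {L : ℕ} {v : V} {s : Bool} {c : BT V} {W W' : List (Lt V L)}
    (P Q : List (Lt V L)) (h : Subst L v s c W W') {W₁ W₁' : List (Lt V L)}
    (h1 : W₁ = P ++ (W ++ Q)) (h2 : W₁' = P ++ (W' ++ Q)) : Subst L v s c W₁ W₁' := by
  obtain ⟨A, B, hA, hB⟩ := h
  refine ⟨P ++ A, B ++ Q, ?_, ?_⟩
  · rw [h1, hA]; simp
  · rw [h2, hB]; simp

theorem repl (L : ℕ) (b : BT V) (v : V) (s : Bool) (c : BT V) (hv : (v, s) ∈ gls b) :
    ∃ b' : BT V,
      ((Subst L v s c (RC b) (RC b') ∧ (LC b' : List (Lt V L)) = LC b) ∨
        ((RC b' : List (Lt V L)) = RC b ∧ Subst L v s c (LC b) (LC b'))) ∧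
      (∀ (nu : Option (V × Bool) → Option (V × Bool)) (x y : Option (V × Bool)),
        Path nu b x y → Path nu c (nu (some (v, !s))) (some (v, !s)) → Path nu b' x y) ∧
      (eps b').Perm ((v, !s) :: (eps c ++ eps b)) ∧
      (okJ b → noJ c → okJ b') ∧ (noJ b → noJ c → noJ b') := by
  induction b with
  | nil => simp [gls] at hv
  | it v' s' r ih =>
    simp only [gls, List.mem_cons] at hv
    rcases hv with hv | hv
    · obtain ⟨rfl, rfl⟩ := Prod.mk.inj hv
      refine ⟨BT.ch false v s c r, ?_, ?_, ?_, ?_, ?_⟩
      · cases s with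
        | false =>
          left
          refine ⟨⟨[], RC r, by simp, by simp [blk]⟩, by simp⟩
        | true =>
          right
          refine ⟨by simp, ⟨LC r, [], by simp, by simp [blk]⟩⟩
      · rintro nu x y ⟨h1, h2⟩ h3
        exact ⟨h1, by simpa using h2, by simpa using h3⟩
      · simp only [eps]
        refine (List.Perm.swap _ _ _).trans (List.Perm.cons _ ?_)
        exact (List.perm_middle).symm
      · intro h1 h2
        exact ⟨h2, h1⟩
      · intro h1 h2
        exact ⟨rfl, h2, h1⟩
    · obtain ⟨r', h1, h2, h3, h4, h5⟩ := ih hv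
      refine ⟨BT.it v' s' r', ?_, ?_, ?_, ?_, ?_⟩
      · cases s' with
        | false =>
          rcases h1 with ⟨h1, h1'⟩ | ⟨h1, h1'⟩
          · left
            exact ⟨REPL_ctx [(Sum.inl v', false)] [] h1 (by simp) (by simp), by simp [h1']⟩
          · right
            exact ⟨by simp [h1], REPL_ctx [] [] h1' (by simp) (by simp)⟩
        | true =>
          rcases h1 with ⟨h1, h1'⟩ | ⟨h1, h1'⟩
          · left
            exact ⟨REPL_ctx [] [] h1 (by simp) (by simp), by simp [h1']⟩
          · right
            exact ⟨by simp [h1], REPL_ctx [] [(Sum.inl v', true)] h1' (by simp) (by simp)⟩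
      · rintro nu x y ⟨g1, g2⟩ g3
        exact ⟨g1, h2 nu _ _ g2 g3⟩
      · simp only [eps]
        refine (List.Perm.cons _ h3).trans ?_
        refine (List.Perm.swap _ _ _).trans (List.Perm.cons _ ?_)
        exact (List.perm_middle).symm
      · exact h4
      · exact h5
  | ch j v' s' c' r ihc ihr =>
    simp only [gls, List.mem_append] at hv
    rcases hv with hv | hv
    · obtain ⟨c'', h1, h2, h3, h4, h5⟩ := ihc hv
      refine ⟨BT.ch j v' s' c'' r, ?_, ?_, ?_, ?_, ?_⟩
      · rcases h1 with ⟨h1, h1'⟩ | ⟨h1, h1'⟩
        · cases j <;> cases s'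
          · left
            exact ⟨REPL_ctx [retL (Sum.inl (v', true))]
              (topL (Sum.inl (v', true)) :: (LC c' ++ RC r)) h1 (by simp) (by simp [h1']),
              by simp⟩
          · right
            exact ⟨by simp, REPL_ctx (LC r)
              (topL (Sum.inl (v', false)) :: (LC c' ++ [retL (Sum.inl (v', false))])) h1
              (by simp) (by simp [h1'])⟩
          · right
            exact ⟨by simp, REPL_ctx (LC r)
              (topL (Sum.inl (v', true)) :: LC c') h1 (by simp) (by simp [h1'])⟩
          · left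
            exact ⟨REPL_ctx []
              (topL (Sum.inl (v', false)) :: (LC c' ++ RC r)) h1 (by simp) (by simp [h1']),
              by simp⟩
        · cases j <;> cases s'
          · left
            exact ⟨REPL_ctx (retL (Sum.inl (v', true)) :: (RC c' ++ [topL (Sum.inl (v', true))]))
              (RC r) h1' (by simp) (by simp [h1]), by simp⟩
          · right
            exact ⟨by simp, REPL_ctx (LC r ++ (RC c' ++ [topL (Sum.inl (v', false))]))
              [retL (Sum.inl (v', false))] h1' (by simp) (by simp [h1])⟩
          · right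
            exact ⟨by simp, REPL_ctx (LC r ++ (RC c' ++ [topL (Sum.inl (v', true))]))
              [] h1' (by simp) (by simp [h1])⟩
          · left
            exact ⟨REPL_ctx (RC c' ++ [topL (Sum.inl (v', false))])
              (RC r) h1' (by simp) (by simp [h1]), by simp⟩
      · rintro nu x y ⟨g1, g2, g3⟩ g4
        exact ⟨g1, g2, h2 nu _ _ g3 g4⟩
      · simp only [eps]
        have h6 : (eps c'' ++ eps r).Perm ((v, !s) :: (eps c ++ (eps c' ++ eps r))) := by
          refine (List.Perm.append_right _ h3).trans ?_
          simp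
        refine (List.Perm.cons _ (List.Perm.cons _ h6)).trans ?_
        have h7 : ∀ (a b d : V × Bool) (l m : List (V × Bool)),
            (a :: b :: d :: (l ++ m)).Perm (d :: (l ++ a :: b :: m)) := by
          intro a b d l m
          refine ((List.Perm.swap _ _ _).cons _).trans ((List.Perm.swap _ _ _).trans
            (List.Perm.cons _ ?_))
          refine ((List.perm_middle (a := b) (l₁ := l) (l₂ := m)).symm.cons a).trans ?_
          exact (List.perm_middle).symm
        exact h7 _ _ _ _ _
      · rintro ⟨g1, g2⟩ g3
        exact ⟨h5 g1 g3, g2⟩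
      · rintro ⟨g1, g2, g3⟩ g4
        exact ⟨g1, h5 g2 g4, g3⟩
    · obtain ⟨r', h1, h2, h3, h4, h5⟩ := ihr hv
      refine ⟨BT.ch j v' s' c' r', ?_, ?_, ?_, ?_, ?_⟩
      · rcases h1 with ⟨h1, h1'⟩ | ⟨h1, h1'⟩
        · cases j <;> cases s'
          · left
            exact ⟨REPL_ctx (retL (Sum.inl (v', true)) ::
              (RC c' ++ topL (Sum.inl (v', true)) :: LC c')) [] h1 (by simp) (by simp),
              by simp [h1']⟩
          · left
            exact ⟨REPL_ctx [] [] h1 (by simp) (by simp), by simp [h1']⟩
          · left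
            exact ⟨REPL_ctx [retL (Sum.inl (v', true))] [] h1 (by simp) (by simp),
              by simp [h1']⟩
          · left
            exact ⟨REPL_ctx (RC c' ++ topL (Sum.inl (v', false)) :: LC c') [] h1
              (by simp) (by simp), by simp [h1']⟩
        · cases j <;> cases s'
          · right
            exact ⟨by simp [h1], REPL_ctx [] [] h1' (by simp) (by simp)⟩
          · right
            exact ⟨by simp [h1], REPL_ctx [] (RC c' ++ topL (Sum.inl (v', false)) ::
              (LC c' ++ [retL (Sum.inl (v', false))])) h1' (by simp) (by simp)⟩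
          · right
            exact ⟨by simp [h1], REPL_ctx [] (RC c' ++ topL (Sum.inl (v', true)) ::
              LC c') h1' (by simp) (by simp)⟩
          · right
            exact ⟨by simp [h1], REPL_ctx [] [retL (Sum.inl (v', false))] h1'
              (by simp) (by simp)⟩
      · rintro nu x y ⟨g1, g2, g3⟩ g4
        exact ⟨g1, h2 nu _ _ g2 g4, g3⟩
      · simp only [eps]
        have h6 : (eps c' ++ eps r').Perm ((v, !s) :: (eps c ++ (eps c' ++ eps r))) := by
          refine (List.Perm.append_left _ h3).trans ?_
          refine (List.perm_middle).trans (List.Perm.cons _ ?_)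
          rw [← List.append_assoc, ← List.append_assoc]
          exact List.Perm.append_right _ List.perm_append_comm
        refine (List.Perm.cons _ (List.Perm.cons _ h6)).trans ?_
        have h7 : ∀ (a b d : V × Bool) (l m : List (V × Bool)),
            (a :: b :: d :: (l ++ m)).Perm (d :: (l ++ a :: b :: m)) := by
          intro a b d l m
          refine ((List.Perm.swap _ _ _).cons _).trans ((List.Perm.swap _ _ _).trans
            (List.Perm.cons _ ?_))
          refine ((List.perm_middle (a := b) (l₁ := l) (l₂ := m)).symm.cons a).trans ?_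
          exact (List.perm_middle).symm
        exact h7 _ _ _ _ _
      · rintro ⟨g1, g2⟩ g3
        exact ⟨g1, h4 g2 g3⟩
      · rintro ⟨g1, g2, g3⟩ g4
        exact ⟨g1, g2, h5 g3 g4⟩

end Pool.Agent.H53.SQ

end S_REPL

section S_MRG

/-!
# Module MRG: merging a circle into a tree of bars keeps `Rho`

Let `W = wrd ctx b`. Choose the item: let `PL` be the set of the crossings `v` with `(v, false) ∈ gls b` and
`(v, true) ∈ c`. If `PL` is not empty, choose `v ∈ PL` such that the letter `(inl v, false)` is the
FIRST one in `W` among the letters `(inl u, false)`, `u ∈ PL`; put `s = false`. Otherwise there are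
`v` with `(v, true) ∈ gls b`, `(v, false) ∈ c`; choose the one whose letter `(inl v, true)` is the LAST
one in `W`; put `s = true`. Let `l'` be given by `hcyc` for `w = (v, !s)`: the new child is `pl l'`, and
`b'` is given by `repl` (extended from `RC, LC` to `W`: `wrd ctx b' = A ++ (blk ++ B)` if
`W = A ++ (inl v, s) :: B`; the letter occurs only once in `W` because `eps b` is `Nodup`, so `A, B` are
determined). `eps b'` is a permutation of `(v, !s) :: l' ++ eps b`, a permutation of `c ++ eps b`.
`Rho` for `W' = A ++ (blk ++ B)`: let `u` be a crossing with both letters in `W'`; `u ≠ v` (the block has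
no letter with id `inl v`: `(v, !s) ∉ l'`, `(v, s) ∉ c` since `c` is disjoint from `eps b`; and `A, B` do
not contain `(inl v, s)` again nor `(inl v, !s)`, as `(v, !s) ∉ eps b`).
(a) both letters in `A`, `B`: old `Rho`; the old sublists do not contain the replaced letter (ids
    different from `inl v`), so they are sublists of `A ++ B`, hence of `W'`.
(b) both letters in the block: `(inl u, false) ∈ RC c'`, `(inl u, true) ∈ LC c'` (`c' = pl l'`): the ids
    contain `ret, u, top, u` (`s = false`) or `u, top, u, ret` (`s = true`).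
(c) one letter `(inl u, !t)` in the block (so `(u, !t) ∈ c`), the other one `(inl u, t)` in `A` or `B`
    (so `(u, t) ∈ gls b`).
    `s = false`: if `t = false`, then `u ∈ PL`, so by the choice of `v` the letter `(inl u, false)` is in
    `B`, and `(inl u, true)` is in the block: opening first. If `t = true`: the letter
    `(inl u, false)` is in `RC c'`; if `(inl u, true) ∈ A`: opening first; if it is in `B`: the ids
    contain `ret, u, top, u` with `ret`, `u ∈ RC c'`, `top` in the block and `u ∈ B`.
    `s = true`: `PL` is empty, so `t = true`, and by the choice of `v` the letter `(inl u, true)` is in `A`,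
    `(inl u, false)` in the block: opening first.
-/

namespace Pool.Agent.H53.SQ

variable {V : Type} {L : ℕ}

/-- the generic letters of a word -/
def mrgGl : List (Lt V L) → List (V × Bool)
  | [] => []
  | (Sum.inl v, s) :: l => (v, s) :: mrgGl l
  | (Sum.inr _, _) :: l => mrgGl l

theorem mrgGl_append (A B : List (Lt V L)) : mrgGl (A ++ B) = mrgGl A ++ mrgGl B := by
  induction A with
  | nil => rfl
  | cons a A ih =>
    rcases a with ⟨v | n, s⟩
    · simp [mrgGl, ih]
    · simp [mrgGl, ih]

@[simp] theorem mrgGl_nil : mrgGl ([] : List (Lt V L)) = [] := rfl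

@[simp] theorem mrgGl_inl (v : V) (s : Bool) (l : List (Lt V L)) :
    mrgGl ((Sum.inl v, s) :: l) = (v, s) :: mrgGl l := rfl

@[simp] theorem mrgGl_ret (n : Nm V L) (l : List (Lt V L)) :
    mrgGl (retL n :: l) = mrgGl l := rfl

@[simp] theorem mrgGl_top (n : Nm V L) (l : List (Lt V L)) :
    mrgGl (topL n :: l) = mrgGl l := rfl

theorem mrg_mem (W : List (Lt V L)) (v : V) (s : Bool) :
    (v, s) ∈ mrgGl W ↔ ((Sum.inl v, s) : Lt V L) ∈ W := by
  induction W with
  | nil => simp
  | cons a A ih =>
    rcases a with ⟨u | n, t⟩
    · simp [ih]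
    · simp [mrgGl, ih]

theorem mrg_perm (b : BT V) :
    (mrgGl (RC b : List (Lt V L)) ++ mrgGl (LC b : List (Lt V L))).Perm (gls b) := by
  induction b with
  | nil => simp [gls]
  | it v s r ih =>
    cases s
    · simpa [gls] using ih
    · simp only [RC_itR, LC_itR, mrgGl_append, mrgGl_inl, mrgGl_nil, gls]
      rw [← List.append_assoc]
      refine (List.perm_append_comm).trans ?_
      simpa using ih
  | ch j v s c r ihc ihr =>
    have key : ∀ (R1 R2 R3 R4 : List (V × Bool)), (R1 ++ R2).Perm (gls c) → (R3 ++ R4).Perm (gls r) →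
        (R1 ++ (R2 ++ (R3 ++ R4))).Perm (gls c ++ gls r) := by
      intro R1 R2 R3 R4 h1 h2
      rw [← List.append_assoc]
      exact h1.append h2
    have h := key _ _ _ _ ihc ihr
    cases j <;> cases s
    · simp only [RC_br, LC_br, mrgGl_append, mrgGl_ret, mrgGl_top, gls]
      refine List.Perm.trans ?_ h
      simp only [List.append_assoc]
      exact List.Perm.refl _
    · simp only [RC_bl, LC_bl, mrgGl_append, mrgGl_ret, mrgGl_top, mrgGl_nil, gls, List.append_nil]
      refine List.Perm.trans ?_ h
      have := List.perm_append_comm (l₁ := mrgGl (RC r : List (Lt V L)) ++ mrgGl (LC r : List (Lt V L)))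
        (l₂ := mrgGl (RC c : List (Lt V L)) ++ mrgGl (LC c : List (Lt V L)))
      simpa [List.append_assoc] using this
    · simp only [RC_jl, LC_jl, mrgGl_append, mrgGl_ret, mrgGl_top, gls]
      refine List.Perm.trans ?_ h
      have := List.perm_append_comm (l₁ := mrgGl (RC r : List (Lt V L)) ++ mrgGl (LC r : List (Lt V L)))
        (l₂ := mrgGl (RC c : List (Lt V L)) ++ mrgGl (LC c : List (Lt V L)))
      simpa [List.append_assoc] using this
    · simp only [RC_jr, LC_jr, mrgGl_append, mrgGl_ret, mrgGl_top, mrgGl_nil, gls, List.append_nil]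
      refine List.Perm.trans ?_ h
      simp only [List.append_assoc]
      exact List.Perm.refl _

theorem mrg_wrd_perm (ctx : Option (Nm V L)) (b : BT V) :
    (mrgGl (wrd ctx b)).Perm (gls b) := by
  cases ctx with
  | none => simpa [wrd, mrgGl_append] using mrg_perm (L := L) b
  | some n => simpa [wrd, mrgGl_append] using mrg_perm (L := L) b

theorem mrg_gls_sub (b : BT V) : (gls b).Sublist (eps b) := by
  induction b with
  | nil => simp [gls, eps]
  | it v s r ih => simpa [gls, eps] using ih
  | ch j v s c r ihc ihr =>
    simp only [gls, eps]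
    exact ((ihc.append ihr).cons _).cons _

theorem mrg_gls_pl (l : List (V × Bool)) : gls (pl l) = l := by
  induction l with
  | nil => rfl
  | cons a l ih => rcases a with ⟨v, s⟩; simp [pl, gls, ih]

theorem mrg_eps_pl (l : List (V × Bool)) : eps (pl l) = l := by
  induction l with
  | nil => rfl
  | cons a l ih => rcases a with ⟨v, s⟩; simp [pl, eps, ih]

theorem mrg_noJ_pl (l : List (V × Bool)) : noJ (pl l) := by
  induction l with
  | nil => trivial
  | cons a l ih => rcases a with ⟨v, s⟩; simpa [pl, noJ] using ih

theorem mrg_pl_RC (l : List (V × Bool)) (u : V) (h : (u, false) ∈ l) :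
    ((Sum.inl u, false) : Lt V L) ∈ (RC (pl l) : List (Lt V L)) := by
  induction l with
  | nil => simp at h
  | cons a l ih =>
    rcases a with ⟨v, s⟩
    cases s
    · rcases List.mem_cons.1 h with h | h
      · have : u = v := by simpa using congrArg Prod.fst h
        subst this
        simp [pl]
      · simpa [pl] using Or.inr (ih h)
    · rcases List.mem_cons.1 h with h | h
      · simp at h
      · simpa [pl] using ih h

theorem mrg_pl_LC (l : List (V × Bool)) (u : V) (h : (u, true) ∈ l) :
    ((Sum.inl u, true) : Lt V L) ∈ (LC (pl l) : List (Lt V L)) := by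
  induction l with
  | nil => simp at h
  | cons a l ih =>
    rcases a with ⟨v, s⟩
    cases s
    · rcases List.mem_cons.1 h with h | h
      · simp at h
      · simpa [pl] using ih h
    · rcases List.mem_cons.1 h with h | h
      · have : u = v := by simpa using congrArg Prod.fst h
        subst this
        simp [pl]
      · simpa [pl] using Or.inl (ih h)

theorem mrg_blk_gl (v : V) (s : Bool) (l : List (V × Bool)) :
    (mrgGl (blk L v s (pl l))).Perm l := by
  have h := mrg_perm (L := L) (pl l)
  rw [mrg_gls_pl] at h
  cases s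
  · simpa [blk, mrgGl_append] using h
  · simpa [blk, mrgGl_append] using h

theorem mrg_blk_mem (v : V) (s : Bool) (l : List (V × Bool)) (u : V) (t : Bool) :
    ((Sum.inl u, t) : Lt V L) ∈ blk L v s (pl l) ↔ (u, t) ∈ l := by
  rw [← mrg_mem]
  exact (mrg_blk_gl v s l).mem_iff

theorem mrg_skip {α : Type} (l A B : List α) (a : α) (h : l.Sublist (A ++ a :: B)) (ha : a ∉ l) :
    l.Sublist (A ++ B) := by
  rw [List.sublist_append_iff] at h
  obtain ⟨l1, l2, rfl, h1, h2⟩ := h
  rw [List.sublist_cons_iff] at h2
  rcases h2 with h2 | ⟨r, rfl, h2⟩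
  · exact h1.append h2
  · exact absurd (by simp) ha

theorem mrg_first {α : Type} (P : α → Prop) (W : List α) (h : ∃ a ∈ W, P a) :
    ∃ (A : List α) (a : α) (B : List α), W = A ++ a :: B ∧ P a ∧ ∀ x ∈ A, ¬ P x := by
  induction W with
  | nil => simp at h
  | cons w W ih =>
    by_cases hw : P w
    · exact ⟨[], w, W, rfl, hw, by simp⟩
    · have : ∃ a ∈ W, P a := by
        obtain ⟨a, ha, hp⟩ := h
        rcases List.mem_cons.1 ha with rfl | ha
        · exact absurd hp hw
        · exact ⟨a, ha, hp⟩
      obtain ⟨A, a, B, rfl, hp, hA⟩ := ih this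
      refine ⟨w :: A, a, B, rfl, hp, ?_⟩
      intro x hx
      rcases List.mem_cons.1 hx with rfl | hx
      · exact hw
      · exact hA x hx

theorem mrg_last {α : Type} (P : α → Prop) (W : List α) (h : ∃ a ∈ W, P a) :
    ∃ (A : List α) (a : α) (B : List α), W = A ++ a :: B ∧ P a ∧ ∀ x ∈ B, ¬ P x := by
  obtain ⟨A, a, B, h1, h2, h3⟩ := mrg_first P W.reverse (by simpa using h)
  refine ⟨B.reverse, a, A.reverse, ?_, h2, ?_⟩
  · have := congrArg List.reverse h1
    simpa using this
  · intro x hx
    exact h3 x (by simpa using hx)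

theorem mrg_sub1 {α : Type} {a : α} {A : List α} (h : a ∈ A) : [a].Sublist A :=
  List.singleton_sublist.2 h

/-- the main lemma about `Rho` -/
theorem mrg_rho (v : V) (s : Bool) (l : List (V × Bool)) (A B : List (Lt V L))
    (hR : Rho (A ++ (Sum.inl v, s) :: B))
    (hv : ∀ t, ((Sum.inl v, t) : Lt V L) ∉ A ++ B) (hvl : ∀ t, (v, t) ∉ l)
    (hs0 : s = false → ∀ u, ((Sum.inl u, false) : Lt V L) ∈ A → (u, true) ∉ l)
    (hs1 : s = true → (∀ u, ((Sum.inl u, false) : Lt V L) ∈ A ++ B → (u, true) ∉ l) ∧
      ∀ u, ((Sum.inl u, true) : Lt V L) ∈ B → (u, false) ∉ l) :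
    Rho (A ++ (blk L v s (pl l) ++ B)) := by
  intro u ht hf
  have hmem : ∀ t, ((Sum.inl u, t) : Lt V L) ∈ A ++ (blk L v s (pl l) ++ B) →
      ((Sum.inl u, t) : Lt V L) ∈ A ++ B ∨ (u, t) ∈ l := by
    intro t h
    rcases List.mem_append.1 h with h | h
    · exact Or.inl (List.mem_append_left _ h)
    · rcases List.mem_append.1 h with h | h
      · exact Or.inr ((mrg_blk_mem v s l u t).1 h)
      · exact Or.inl (List.mem_append_right _ h)
  have hAB : (A ++ B).Sublist (A ++ (blk L v s (pl l) ++ B)) :=
    List.Sublist.append (List.Sublist.refl _) (List.sublist_append_right _ _)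
  have hABm := hAB.map Prod.fst
  have ht' := hmem true ht
  have hf' := hmem false hf
  rcases ht' with ht' | ht'
  · rcases hf' with hf' | hf'
    · -- both letters in A, B
      have huv : u ≠ v := by
        rintro rfl
        exact hv true ht'
      have hsubW : (A ++ B).Sublist (A ++ (Sum.inl v, s) :: B) :=
        List.Sublist.append (List.Sublist.refl _) (List.sublist_cons_self _ _)
      rcases hR u (hsubW.subset ht') (hsubW.subset hf') with h | ⟨n, h⟩
      · left
        refine (mrg_skip _ A B _ h ?_).trans hAB
        simp [Ne.symm huv]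
      · right
        refine ⟨n, ?_⟩
        rw [List.map_append, List.map_cons] at h
        rcases h with h | h
        · left
          refine (mrg_skip _ _ _ _ h ?_).trans (by simpa using hABm)
          simp [Ne.symm huv]
        · right
          refine (mrg_skip _ _ _ _ h ?_).trans (by simpa using hABm)
          simp [Ne.symm huv]
    · -- (u, true) in A, B; (u, false) in the block
      cases s with
      | false =>
        rcases List.mem_append.1 ht' with hA | hB
        · left
          have h1 := (mrg_sub1 hA).append (mrg_sub1 ((mrg_blk_mem (L := L) v false l u false).2 hf'))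
          refine h1.trans ?_
          exact List.Sublist.append (List.Sublist.refl _) (List.sublist_append_left _ _)
        · right
          refine ⟨Sum.inl (v, true), Or.inr ?_⟩
          have h1 := mrg_sub1 (mrg_pl_RC (L := L) l u hf')
          have h2 := mrg_sub1 hB
          have h3 : ([retL (Sum.inl (v, true)), (Sum.inl u, false), topL (Sum.inl (v, true)),
              (Sum.inl u, true)] : List (Lt V L)).Sublist
              (A ++ (blk L v false (pl l) ++ B)) := by
            have h4 : ([topL (Sum.inl (v, true))] ++ [(Sum.inl u, true)] : List (Lt V L)).Sublist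
                ((topL (Sum.inl (v, true)) :: LC (pl l)) ++ B) := by
              refine List.Sublist.append ?_ h2
              exact mrg_sub1 (by simp)
            have h5 := (h1.append h4).cons_cons (retL (Sum.inl (v, true)) : Lt V L)
            refine List.Sublist.trans ?_ (List.sublist_append_right A _)
            simpa [blk] using h5
          have := h3.map Prod.fst
          simpa [retL, topL] using this
      | true =>
        rcases List.mem_append.1 ht' with hA | hB
        · left
          have h1 := (mrg_sub1 hA).append (mrg_sub1 ((mrg_blk_mem (L := L) v true l u false).2 hf'))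
          refine h1.trans ?_
          exact List.Sublist.append (List.Sublist.refl _) (List.sublist_append_left _ _)
        · exact absurd hf' ((hs1 rfl).2 u hB)
  · rcases hf' with hf' | hf'
    · -- (u, true) in the block, (u, false) in A, B
      cases s with
      | false =>
        rcases List.mem_append.1 hf' with hA | hB
        · exact absurd ht' (hs0 rfl u hA)
        · left
          have h1 := (mrg_sub1 ((mrg_blk_mem (L := L) v false l u true).2 ht')).append (mrg_sub1 hB)
          exact h1.trans (List.sublist_append_right _ _)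
      | true => exact absurd ht' ((hs1 rfl).1 u hf')
    · -- both in the block
      right
      have h1 := mrg_sub1 (mrg_pl_RC (L := L) l u hf')
      have h2 := mrg_sub1 (mrg_pl_LC (L := L) l u ht')
      cases s with
      | false =>
        refine ⟨Sum.inl (v, true), Or.inr ?_⟩
        have h3 : ([retL (Sum.inl (v, true)), (Sum.inl u, false), topL (Sum.inl (v, true)),
            (Sum.inl u, true)] : List (Lt V L)).Sublist (A ++ (blk L v false (pl l) ++ B)) := by
          have h5 := (h1.append (h2.cons_cons (topL (Sum.inl (v, true)) : Lt V L))).cons_cons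
            (retL (Sum.inl (v, true)) : Lt V L)
          refine List.Sublist.trans ?_ (List.sublist_append_right A _)
          refine List.Sublist.trans ?_ (List.sublist_append_left _ B)
          simpa [blk] using h5
        have := h3.map Prod.fst
        simpa [retL, topL] using this
      | true =>
        refine ⟨Sum.inl (v, false), Or.inl ?_⟩
        have h3 : ([(Sum.inl u, false), topL (Sum.inl (v, false)),
            (Sum.inl u, true), retL (Sum.inl (v, false))] : List (Lt V L)).Sublist
            (A ++ (blk L v true (pl l) ++ B)) := by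
          have h5 := h1.append ((h2.append (List.Sublist.refl
            ([retL (Sum.inl (v, false))] : List (Lt V L)))).cons_cons
            (topL (Sum.inl (v, false)) : Lt V L))
          refine List.Sublist.trans ?_ (List.sublist_append_right A _)
          refine List.Sublist.trans ?_ (List.sublist_append_left _ B)
          simpa [blk] using h5
        have := h3.map Prod.fst
        simpa [retL, topL] using this

/-- the replacement seen in the whole contour word -/
theorem mrg_subst (ctx : Option (Nm V L)) (b b' : BT V) (v : V) (s : Bool) (c : BT V)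
    (h : (Subst L v s c (RC b) (RC b') ∧ (LC b' : List (Lt V L)) = LC b) ∨
        ((RC b' : List (Lt V L)) = RC b ∧ Subst L v s c (LC b) (LC b'))) :
    Subst L v s c (wrd ctx b) (wrd ctx b') := by
  rcases h with ⟨⟨A, B, h1, h2⟩, h3⟩ | ⟨h3, A, B, h1, h2⟩
  · cases ctx with
    | none => exact ⟨A, B ++ LC b, by simp [wrd, h1], by simp [wrd, h2, h3]⟩
    | some n =>
      exact ⟨retL n :: A, B ++ topL n :: LC b, by simp [wrd, h1], by simp [wrd, h2, h3]⟩
  · cases ctx with
    | none => exact ⟨RC b ++ A, B, by simp [wrd, h1], by simp [wrd, h2, h3]⟩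
    | some n =>
      exact ⟨retL n :: (RC b ++ topL n :: A), B, by simp [wrd, h1], by simp [wrd, h2, h3]⟩

/-- the step for a chosen item -/
theorem mrg_go (ctx : Option (Nm V L)) (nu : Option (V × Bool) → Option (V × Bool))
    (b : BT V) (x y : Option (V × Bool)) (c : List (V × Bool)) (hpath : Path nu b x y)
    (hb : (eps b).Nodup) (hR : Rho (wrd ctx b)) (hc : c.Nodup) (hdis : ∀ z ∈ c, z ∉ eps b)
    (hcyc : ∀ w ∈ c, ∃ l' : List (V × Bool), (w :: l').Perm c ∧
      Path nu (pl l') (nu (some w)) (some w))
    (v : V) (s : Bool) (A B : List (Lt V L)) (hW : wrd ctx b = A ++ (Sum.inl v, s) :: B)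
    (hvc : (v, !s) ∈ c)
    (hs0 : s = false → ∀ u, ((Sum.inl u, false) : Lt V L) ∈ A → (u, true) ∉ c)
    (hs1 : s = true → (∀ u, ((Sum.inl u, false) : Lt V L) ∈ A ++ B → (u, true) ∉ c) ∧
      ∀ u, ((Sum.inl u, true) : Lt V L) ∈ B → (u, false) ∉ c) :
    ∃ b' : BT V, Path nu b' x y ∧ (eps b').Perm (c ++ eps b) ∧ Rho (wrd ctx b') ∧
      (okJ b → okJ b') ∧ (noJ b → noJ b') := by
  obtain ⟨l', hl', hpl⟩ := hcyc (v, !s) hvc
  have hperm := mrg_wrd_perm ctx b
  have hnd : (mrgGl (wrd ctx b)).Nodup := (hperm.nodup_iff).2 (hb.sublist (mrg_gls_sub b))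
  have hmem : ∀ u t, ((Sum.inl u, t) : Lt V L) ∈ wrd ctx b → (u, t) ∈ eps b := by
    intro u t h
    exact (mrg_gls_sub b).subset (hperm.mem_iff.1 ((mrg_mem _ u t).2 h))
  have hvg : (v, s) ∈ gls b := by
    refine hperm.mem_iff.1 ((mrg_mem _ v s).2 ?_)
    rw [hW]; simp
  obtain ⟨b', hb1, hb2, hb3, hb4, hb5⟩ := repl L b v s (pl l') hvg
  obtain ⟨A', B', hA', hB'⟩ := mrg_subst ctx b b' v s (pl l') hb1
  have hsub : ∀ t ∈ l', t ∈ c := fun t ht => hl'.mem_iff.1 (List.mem_cons_of_mem _ ht)
  -- uniqueness of the decomposition
  have hnd1 := hnd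
  rw [hW, mrgGl_append, mrgGl_inl] at hnd1
  have hA : (v, s) ∉ mrgGl A := by
    intro h
    exact (List.nodup_append.1 hnd1).2.2 _ h _ (by simp) rfl
  have hB : (v, s) ∉ mrgGl B := (List.nodup_cons.1 (List.nodup_append.1 hnd1).2.1).1
  have huniq : A = A' ∧ B = B' := by
    have h1 : A ++ (Sum.inl v, s) :: B = A' ++ (Sum.inl v, s) :: B' := by rw [← hW, ← hA']
    have := (List.append_cons_inj_of_notMem (a₁ := ((Sum.inl v, s) : Lt V L))
      (fun h => hA ((mrg_mem _ _ _).2 h)) (fun h => hB ((mrg_mem _ _ _).2 h))).1 h1
    exact ⟨this.1, this.2.2⟩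
  obtain ⟨rfl, rfl⟩ := huniq
  have hinAB : ∀ z : Lt V L, z ∈ A ++ B → z ∈ wrd ctx b := by
    intro z hz
    rw [hW]
    rcases List.mem_append.1 hz with h | h
    · exact List.mem_append_left _ h
    · exact List.mem_append_right _ (List.mem_cons_of_mem _ h)
  refine ⟨b', hb2 nu x y hpath hpl, ?_, ?_, fun h => hb4 h (mrg_noJ_pl l'),
    fun h => hb5 h (mrg_noJ_pl l')⟩
  · refine hb3.trans ?_
    rw [mrg_eps_pl, ← List.cons_append]
    exact hl'.append_right _
  · rw [hB']
    refine mrg_rho v s l' A B (by rw [← hW]; exact hR) ?_ ?_ ?_ ?_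
    · intro t ht
      by_cases hts : t = s
      · subst hts
        rcases List.mem_append.1 ht with h | h
        · exact hA ((mrg_mem _ _ _).2 h)
        · exact hB ((mrg_mem _ _ _).2 h)
      · have : t = !s := by cases t <;> cases s <;> simp_all
        subst this
        exact hdis _ hvc (hmem _ _ (hinAB _ ht))
    · intro t ht
      by_cases hts : t = s
      · subst hts
        exact hdis _ (hsub _ ht) ((mrg_gls_sub b).subset hvg)
      · have : t = !s := by cases t <;> cases s <;> simp_all
        subst this
        exact (List.nodup_cons.1 ((hl'.nodup_iff).2 hc)).1 ht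
    · intro h u hu hl
      exact hs0 h u hu (hsub _ hl)
    · intro h
      exact ⟨fun u hu hl => (hs1 h).1 u hu (hsub _ hl), fun u hu hl => (hs1 h).2 u hu (hsub _ hl)⟩

theorem merge_step (ctx : Option (Nm V L)) (nu : Option (V × Bool) → Option (V × Bool))
    (b : BT V) (x y : Option (V × Bool)) (c : List (V × Bool)) (hpath : Path nu b x y)
    (hb : (eps b).Nodup) (hR : Rho (wrd ctx b)) (hc : c.Nodup) (hdis : ∀ z ∈ c, z ∉ eps b)
    (hcyc : ∀ w ∈ c, ∃ l' : List (V × Bool), (w :: l').Perm c ∧
      Path nu (pl l') (nu (some w)) (some w))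
    (hpend : ∃ z ∈ gls b, (z.1, !z.2) ∈ c) :
    ∃ b' : BT V, Path nu b' x y ∧ (eps b').Perm (c ++ eps b) ∧ Rho (wrd ctx b') ∧
      (okJ b → okJ b') ∧ (noJ b → noJ b') := by
  have hperm := mrg_wrd_perm ctx b
  have hgl : ∀ u t, ((Sum.inl u, t) : Lt V L) ∈ wrd ctx b ↔ (u, t) ∈ gls b := by
    intro u t
    rw [← mrg_mem]
    exact hperm.mem_iff
  by_cases hPL : ∃ u, (u, false) ∈ gls b ∧ (u, true) ∈ c
  · obtain ⟨A, a, B, hW, ⟨v, rfl, hv⟩, hA⟩ :=
      mrg_first (fun a : Lt V L => ∃ u, a = (Sum.inl u, false) ∧ (u, true) ∈ c) (wrd ctx b) (by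
        obtain ⟨u, hu1, hu2⟩ := hPL
        exact ⟨_, (hgl u false).2 hu1, u, rfl, hu2⟩)
    refine mrg_go ctx nu b x y c hpath hb hR hc hdis hcyc v false A B hW hv ?_ ?_
    · intro _ u hu hu'
      exact hA _ hu ⟨u, rfl, hu'⟩
    · intro h
      simp at h
  · have hex : ∃ u, (u, true) ∈ gls b ∧ (u, false) ∈ c := by
      obtain ⟨⟨u, t⟩, h1, h2⟩ := hpend
      cases t
      · exact absurd ⟨u, h1, h2⟩ hPL
      · exact ⟨u, h1, h2⟩
    obtain ⟨A, a, B, hW, ⟨v, rfl, hv⟩, hB⟩ :=
      mrg_last (fun a : Lt V L => ∃ u, a = (Sum.inl u, true) ∧ (u, false) ∈ c) (wrd ctx b) (by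
        obtain ⟨u, hu1, hu2⟩ := hex
        exact ⟨_, (hgl u true).2 hu1, u, rfl, hu2⟩)
    refine mrg_go ctx nu b x y c hpath hb hR hc hdis hcyc v true A B hW hv ?_ ?_
    · intro h
      simp at h
    · intro _
      refine ⟨?_, ?_⟩
      · intro u hu hu'
        refine hPL ⟨u, (hgl u false).1 ?_, hu'⟩
        rw [hW]
        rcases List.mem_append.1 hu with h | h
        · exact List.mem_append_left _ h
        · exact List.mem_append_right _ (List.mem_cons_of_mem _ h)
      · intro u hu hu'
        exact hB _ hu ⟨u, rfl, hu'⟩

end Pool.Agent.H53.SQ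

end S_MRG

section S_CMP

/-!
# Module CMP: completing a component

`U` = ends used by earlier components. `clo U b`: the set `U ∪ eps b ∪ {none}` is closed under `nu`.

PROOF of `complete`: induction on the number of elements of `V × Bool` not in `eps b` (a finite type).
If for every `z ∈ eps b` also `(z.1, !z.2) ∈ eps b`, take `b' = b`. Otherwise take such a `z`; then
`z ∈ gls b` (`eps_cases`), and `z' = (z.1, !z.2)` is not in `eps b`, and not in `U` (otherwise
`z ∈ U` by `hU`). Apply `cyc_c` to `z'` and `E = {none} ∪ some '' (U ∪ eps b)`, then `merge_step`. The new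
bar has `eps b' ~ c ++ eps b`, and the hypotheses hold for it (`c` is disjoint from `U`, closed
under `nu`).
`eps_cases`, `path_start`, `path_next`: inductions on `b`.
-/

namespace Pool.Agent.H53.SQ

variable {V : Type} {L : ℕ}

theorem eps_cases (b : BT V) (z : V × Bool) (hz : z ∈ eps b) :
    z ∈ gls b ∨ (z.1, !z.2) ∈ eps b := by
  induction b with
  | nil => simp [eps] at hz
  | it v s r ih =>
    simp only [eps, List.mem_cons] at hz
    rcases hz with rfl | hz
    · left; simp [gls]
    · rcases ih hz with h | h
      · left; simp [gls, h]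
      · right; simp [eps, h]
  | ch j v s c r ihc ihr =>
    simp only [eps, List.mem_cons, List.mem_append] at hz
    rcases hz with rfl | rfl | hz | hz
    · right; simp [eps]
    · right; simp [eps]
    · rcases ihc hz with h | h
      · left; simp [gls, h]
      · right; simp [eps, h]
    · rcases ihr hz with h | h
      · left; simp [gls, h]
      · right; simp [eps, h]

/-- the first end of a nonempty bar -/
theorem path_start (nu : Option (V × Bool) → Option (V × Bool)) (b : BT V)
    (x y : Option (V × Bool)) (h : Path nu b x y) :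
    (b = BT.nil ∧ x = y) ∨ ∃ z ∈ eps b, x = some z := by
  cases b with
  | nil => exact Or.inl ⟨rfl, h⟩
  | it v s r => exact Or.inr ⟨(v, s), by simp [eps], h.1⟩
  | ch j v s c r => exact Or.inr ⟨(v, s), by simp [eps], h.1⟩

/-- a bar is closed under `nu` up to its end -/
theorem path_next (nu : Option (V × Bool) → Option (V × Bool)) (b : BT V)
    (x y : Option (V × Bool)) (h : Path nu b x y) (z : V × Bool) (hz : z ∈ eps b) :
    nu (some z) = y ∨ ∃ z' ∈ eps b, nu (some z) = some z' := by
  induction b generalizing x y with
  | nil => simp [eps] at hz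
  | it v s r ih =>
    obtain ⟨h1, h2⟩ := h
    simp only [eps, List.mem_cons] at hz
    rcases hz with rfl | hz
    · rcases path_start nu r _ _ h2 with ⟨_, h3⟩ | ⟨z', hz', h3⟩
      · exact Or.inl h3
      · exact Or.inr ⟨z', by simp [eps, hz'], h3⟩
    · rcases ih _ _ h2 hz with h3 | ⟨z', hz', h3⟩
      · exact Or.inl h3
      · exact Or.inr ⟨z', by simp [eps, hz'], h3⟩
  | ch j v s c r ihc ihr =>
    obtain ⟨h1, h2, h3⟩ := h
    have hr : nu (some (v, if j then !s else s)) = y ∨
        ∃ z' ∈ eps (BT.ch j v s c r), nu (some (v, if j then !s else s)) = some z' := by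
      rcases path_start nu r _ _ h2 with ⟨_, h4⟩ | ⟨z', hz', h4⟩
      · exact Or.inl h4
      · exact Or.inr ⟨z', by simp [eps, hz'], h4⟩
    have hc : nu (some (v, if j then s else !s)) = y ∨
        ∃ z' ∈ eps (BT.ch j v s c r), nu (some (v, if j then s else !s)) = some z' := by
      rcases path_start nu c _ _ h3 with ⟨_, h4⟩ | ⟨z', hz', h4⟩
      · exact Or.inr ⟨(v, !s), by simp [eps], h4⟩
      · exact Or.inr ⟨z', by simp [eps, hz'], h4⟩
    simp only [eps, List.mem_cons, List.mem_append] at hz
    rcases hz with rfl | rfl | hz | hz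
    · cases j
      · simpa using hr
      · simpa using hc
    · cases j
      · simpa using hc
      · simpa using hr
    · rcases ihc _ _ h3 hz with h4 | ⟨z', hz', h4⟩
      · exact Or.inr ⟨(v, !s), by simp [eps], h4⟩
      · exact Or.inr ⟨z', by simp [eps, hz'], h4⟩
    · rcases ihr _ _ h2 hz with h4 | ⟨z', hz', h4⟩
      · exact Or.inl h4
      · exact Or.inr ⟨z', by simp [eps, hz'], h4⟩

/-- `U ∪ eps b ∪ {none}` is closed under `nu` -/
def Closed (nu : Option (V × Bool) → Option (V × Bool)) (U : Set (V × Bool)) (b : BT V) : Prop :=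
  (nu none = none ∨ ∃ z', (z' ∈ U ∨ z' ∈ eps b) ∧ nu none = some z') ∧
    ∀ z, z ∈ U ∨ z ∈ eps b →
      nu (some z) = none ∨ ∃ z', (z' ∈ U ∨ z' ∈ eps b) ∧ nu (some z) = some z'

theorem CMP_aux [Finite V] (ctx : Option (Nm V L))
    (nu : Option (V × Bool) ≃ Option (V × Bool)) (U : Set (V × Bool))
    (hU : ∀ z ∈ U, (z.1, !z.2) ∈ U) (x y : Option (V × Bool)) (n : ℕ) :
    ∀ (b : BT V), Nat.card (V × Bool) - (eps b).length = n →
    (hpath : Path nu b x y) → (hb : (eps b).Nodup) → (hR : Rho (wrd ctx b)) →
    (hdis : ∀ z ∈ eps b, z ∉ U) → (hcl : Closed nu U b) →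
    ∃ b' : BT V, Path nu b' x y ∧ (eps b').Nodup ∧ Rho (wrd ctx b') ∧ (okJ b → okJ b') ∧
      (noJ b → noJ b') ∧ (∀ z ∈ eps b', z ∉ U) ∧ (∀ z ∈ eps b, z ∈ eps b') ∧
      (∀ z ∈ eps b', (z.1, !z.2) ∈ eps b') ∧ Closed nu U b' := by
  induction n using Nat.strong_induction_on with
  | _ n ih =>
    intro b hn hpath hb hR hdis hcl
    by_cases hall : ∀ z ∈ eps b, (z.1, !z.2) ∈ eps b
    · exact ⟨b, hpath, hb, hR, id, id, hdis, fun z hz => hz, hall, hcl⟩
    · push Not at hall
      obtain ⟨z, hz, hz'⟩ := hall
      have hzg : z ∈ gls b := (eps_cases b z hz).resolve_right hz'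
      have hz'U : (z.1, !z.2) ∉ U := by
        intro h
        have := hU _ h
        simp only [Bool.not_not] at this
        exact hdis z hz this
      let E : Set (Option (V × Bool)) := fun x => x = none ∨ ∃ w, (w ∈ U ∨ w ∈ eps b) ∧ x = some w
      have hE : ∀ x ∈ E, nu x ∈ E := by
        rintro x (rfl | ⟨w, hw, rfl⟩)
        · rcases hcl.1 with h | ⟨w, hw, h⟩
          · exact Or.inl h
          · exact Or.inr ⟨w, hw, h⟩
        · rcases hcl.2 w hw with h | ⟨w', hw', h⟩
          · exact Or.inl h
          · exact Or.inr ⟨w', hw', h⟩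
      have hnE : (none : Option (V × Bool)) ∈ E := Or.inl rfl
      have hzE : some (z.1, !z.2) ∉ E := by
        rintro (h | ⟨w, hw, h⟩)
        · exact absurd h (by simp)
        · rw [← Option.some_inj.mp h] at hw
          rcases hw with hw | hw
          · exact hz'U hw
          · exact hz' hw
      obtain ⟨c, hcnd, hzc, hcE, hcnu, hccyc⟩ := cyc_c nu (z.1, !z.2) E hE hnE hzE
      have hcU : ∀ w ∈ c, w ∉ U := fun w hw h => hcE w hw (Or.inr ⟨w, Or.inl h, rfl⟩)
      have hcb : ∀ w ∈ c, w ∉ eps b := fun w hw h => hcE w hw (Or.inr ⟨w, Or.inr h, rfl⟩)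
      obtain ⟨b', hp', hperm, hR', hok', hno'⟩ := merge_step ctx nu b x y c hpath hb hR hcnd hcb hccyc
        ⟨z, hzg, hzc⟩
      have hmem : ∀ w, w ∈ eps b' ↔ (w ∈ c ∨ w ∈ eps b) := by
        intro w
        rw [hperm.mem_iff, List.mem_append]
      have hnd' : (eps b').Nodup := by
        rw [hperm.nodup_iff, List.nodup_append]
        refine ⟨hcnd, hb, ?_⟩
        rintro w hw w' hw' rfl
        exact hcb w hw hw'
      have hlen : (eps b').length = c.length + (eps b).length := by
        rw [hperm.length_eq, List.length_append]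
      have hcpos : 0 < c.length := List.length_pos_of_mem hzc
      have hle : (eps b').length ≤ Nat.card (V × Bool) := by
        have := Fintype.ofFinite (V × Bool)
        rw [Nat.card_eq_fintype_card]
        exact hnd'.length_le_card
      obtain ⟨b'', q1, q2, q3, q4, q5, q6, q7, q8, q9⟩ := ih (Nat.card (V × Bool) - (eps b').length)
        (by omega) b' rfl hp' hnd' hR' (by
          intro w hw
          rcases (hmem w).mp hw with h | h
          · exact hcU w h
          · exact hdis w h) (by
          refine ⟨?_, ?_⟩
          · rcases hcl.1 with h | ⟨w, hw, h⟩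
            · exact Or.inl h
            · exact Or.inr ⟨w, hw.imp id (fun h' => (hmem w).mpr (Or.inr h')), h⟩
          · have haux : ∀ w, w ∈ U ∨ w ∈ eps b → nu (some w) = none ∨
                ∃ z', (z' ∈ U ∨ z' ∈ eps b') ∧ nu (some w) = some z' := by
              intro w hw
              rcases hcl.2 w hw with h | ⟨w', hw', h⟩
              · exact Or.inl h
              · exact Or.inr ⟨w', hw'.imp id (fun h' => (hmem w').mpr (Or.inr h')), h⟩
            rintro w (hw | hw)
            · exact haux w (Or.inl hw)
            · rcases (hmem w).mp hw with h | h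
              · obtain ⟨w', hw', h'⟩ := hcnu w h
                exact Or.inr ⟨w', Or.inr ((hmem w').mpr (Or.inl hw')), h'⟩
              · exact haux w (Or.inr h))
      exact ⟨b'', q1, q2, q3, q4 ∘ hok', q5 ∘ hno', q6,
        fun w hw => q7 w ((hmem w).mpr (Or.inr hw)), q8, q9⟩

theorem complete [Finite V] (ctx : Option (Nm V L))
    (nu : Option (V × Bool) ≃ Option (V × Bool)) (U : Set (V × Bool))
    (hU : ∀ z ∈ U, (z.1, !z.2) ∈ U) (b : BT V) (x y : Option (V × Bool))
    (hpath : Path nu b x y) (hb : (eps b).Nodup) (hR : Rho (wrd ctx b))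
    (hdis : ∀ z ∈ eps b, z ∉ U) (hcl : Closed nu U b) :
    ∃ b' : BT V, Path nu b' x y ∧ (eps b').Nodup ∧ Rho (wrd ctx b') ∧ (okJ b → okJ b') ∧
      (noJ b → noJ b') ∧ (∀ z ∈ eps b', z ∉ U) ∧ (∀ z ∈ eps b, z ∈ eps b') ∧
      (∀ z ∈ eps b', (z.1, !z.2) ∈ eps b') ∧ Closed nu U b' :=
  CMP_aux ctx nu U hU x y _ b rfl hpath hb hR hdis hcl

end Pool.Agent.H53.SQ

end S_CMP
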