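import Mathlib
import Pool.Agent.H53.SQ.Defs
import Pool.Agent.H53.SQ.G1

/-! Part G6 of the proof for MP_41dcdb_gt: this file joins the modules LABX, LABY, LABZ, LAB. -/

section S_LABX

/-!
# Module LABX: steps of the face labelling: local maxima and crossings

We go DOWN through the drawing. `Inv` for the strands ABOVE the piece gives `Inv` for the strands BELOW
it. A strand with an even piece number points upwards, its left side is the gap `i` and its right side
is the gap `i + 1`; for odd numbers it is the other way round.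

* `inv_cap`: two new strands at the indices `i, i+1` (`i = A.length`), of the same edge, with the piece
  numbers `2j, 2j+1` (`sw = false`) or `2j+1, 2j` (`sw = true`). Let `h` be a label not in `S`. New gaps:
  `g' t = g t` for `t ≤ i`, `g' (i+1) = h`, `g' t = g (t-2)` for `t ≥ i+2` (so `g' (i+2) = g i`). `S' = insert h S`.
  The strand with number `2j` has the strand with number `2j+1` as its partner (`2j < 2j+1`; sides:
  `sw = false`: left `g i`, right `h`, and the strand `2j+1` at `i+1` has `g' (i+2) = g i`, `g' (i+1) = h`;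
  `sw = true`: the even strand at `i+1` has the sides `h, g i`, the odd one at `i` has `g' (i+1) = h`,
  `g' i = g i`). Old partners move with the indices (`t ↦ t` for `t < i`, `t ↦ t + 2` for `t ≥ i`).
  `count`: `q.length` grows by 2, `S.card` by 1. `count0`: the new list is not empty.
* `inv_cross`: above the crossing the strands at `i, i+1` are the starting pieces `(some (v,F), 0)`,
  `(some (v,T), 0)`, below they are `(x, 2a)`, `(y, 2b)` with `nu x = some (v,F)`, `nu y = some (v,T)`.
  `v ∉ c`. Take a new label `h`; `g' (i+1) = h`, other gaps unchanged (the number of strands is the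
  same). New records: `oL (v,F) = g i`, `oR (v,F) = oL (v,T) = g (i+1)`, `oR (v,T) = g (i+2)` (old `g`),
  `iL (v,F) = g i`, `iR (v,F) = iL (v,T) = h`, `iR (v,T) = g (i+2)`; all other records are unchanged (nothing
  with the crossing `v` was recorded before). `S' = insert h S`, `c' = insert v c`.
  `cov`: the old gap label `g (i+1)` is now recorded. `part` for the two new strands: their ends are
  processed. `part` for another strand: its old partner is not one of the two replaced strands, because
  these have even numbers. `start` for the edges `some (v,F)`, `some (v,T)`: by the old `part` for the two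
  replaced strands (a partner found there is at an index other than `i, i+1`, since the strands there
  have even numbers; sides with the old `g` at other indices: the gap `i+1` is a gap of the strands
  `i`, `i+1` only). `count`: both sides grow by 2. `count0`: the list is not empty.
-/

namespace Pool.Agent.H53.SQ

variable {V : Type} [DecidableEq V]

omit [DecidableEq V] in
theorem labx_get (A B : List (Option (V × Bool) × ℕ)) (a b : Option (V × Bool) × ℕ) (i : ℕ) :
    (A ++ a :: b :: B)[i]? = if i < A.length then A[i]? else if i = A.length then some a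
      else if i = A.length + 1 then some b else B[i - A.length - 2]? := by
  split_ifs with h1 h2 h3
  · exact List.getElem?_append_left h1
  · rw [List.getElem?_append_right (by omega), h2]
    simp
  · rw [List.getElem?_append_right (by omega), h3]
    simp
  · rw [List.getElem?_append_right (by omega)]
    obtain ⟨k, hk⟩ : ∃ k, i = A.length + (k + 2) := ⟨i - A.length - 2, by omega⟩
    subst hk
    simp

omit [DecidableEq V] in
theorem labx_get0 (A B : List (Option (V × Bool) × ℕ)) (i : ℕ) :
    (A ++ B)[i]? = if i < A.length then A[i]? else B[i - A.length]? := by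
  split_ifs with h1
  · exact List.getElem?_append_left h1
  · exact List.getElem?_append_right (by omega)

omit [DecidableEq V] in
/-- the entries of the list with two inserted entries -/
theorem labx_split {A B : List (Option (V × Bool) × ℕ)} {a b p : Option (V × Bool) × ℕ} {i : ℕ}
    (h : (A ++ a :: b :: B)[i]? = some p) :
    (i < A.length ∧ (A ++ B)[i]? = some p) ∨ (i = A.length ∧ p = a) ∨
      (i = A.length + 1 ∧ p = b) ∨ ∃ k, i = k + 2 ∧ A.length ≤ k ∧ (A ++ B)[k]? = some p := by
  rw [labx_get] at h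
  split_ifs at h with h1 h2 h3
  · left
    refine ⟨h1, ?_⟩
    rw [labx_get0, if_pos h1]
    exact h
  · right; left
    exact ⟨h2, (Option.some.inj h).symm⟩
  · right; right; left
    exact ⟨h3, (Option.some.inj h).symm⟩
  · right; right; right
    refine ⟨i - 2, by omega, by omega, ?_⟩
    rw [labx_get0, if_neg (by omega), show i - 2 - A.length = i - A.length - 2 by omega]
    exact h

omit [DecidableEq V] in
theorem labx_ins {A B : List (Option (V × Bool) × ℕ)} (a b : Option (V × Bool) × ℕ)
    {p : Option (V × Bool) × ℕ} {i : ℕ} (h : (A ++ B)[i]? = some p) :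
    (A ++ a :: b :: B)[if i < A.length then i else i + 2]? = some p := by
  rw [labx_get0] at h
  rw [labx_get]
  by_cases h1 : i < A.length
  · rw [if_pos h1] at h
    rw [if_pos h1, if_pos h1]
    exact h
  · rw [if_neg h1] at h
    rw [if_neg h1, if_neg (by omega), if_neg (by omega), if_neg (by omega),
      show i + 2 - A.length - 2 = i - A.length by omega]
    exact h

omit [DecidableEq V] in
theorem labx_part {nu : Option (V × Bool) → Option (V × Bool)}
    {q : List (Option (V × Bool) × ℕ)} {c : Finset V} {bo di : Bool} {d : Lbl V}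
    (h : Inv nu q c bo di d) (i : ℕ) (p : Option (V × Bool) × ℕ) (hp : q[i]? = some p)
    (he : p.2 % 2 = 0) :
    (Done c di (nu p.1) ∧ d.g i = d.iL (nu p.1) ∧ d.g (i + 1) = d.iR (nu p.1)) ∨
    ∃ (i' : ℕ) (p' : Option (V × Bool) × ℕ), q[i']? = some p' ∧ p'.1 = p.1 ∧ p'.2 % 2 = 1 ∧
      p.2 < p'.2 ∧ d.g (i' + 1) = d.g i ∧ d.g i' = d.g (i + 1) := by
  obtain ⟨hi, hq⟩ := List.getElem?_eq_some_iff.1 hp
  subst hq
  rcases h.part i hi he with h1 | ⟨i', h', h2, h3, h4, h5, h6⟩
  · exact Or.inl h1
  · exact Or.inr ⟨i', q[i'], List.getElem?_eq_getElem h', h2, h3, h4, h5, h6⟩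

omit [DecidableEq V] in
theorem labx_start {nu : Option (V × Bool) → Option (V × Bool)}
    {q : List (Option (V × Bool) × ℕ)} {c : Finset V} {bo di : Bool} {d : Lbl V}
    (h : Inv nu q c bo di d) (x : Option (V × Bool)) (hx : Done c bo x) :
    (Done c di (nu x) ∧ d.oL x = d.iL (nu x) ∧ d.oR x = d.iR (nu x)) ∨
    ∃ (i' : ℕ) (p' : Option (V × Bool) × ℕ), q[i']? = some p' ∧ p'.1 = x ∧ p'.2 % 2 = 1 ∧
      d.g (i' + 1) = d.oL x ∧ d.g i' = d.oR x := by
  rcases h.start x hx with h1 | ⟨i', h', h2, h3, h5, h6⟩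
  · exact Or.inl h1
  · exact Or.inr ⟨i', q[i'], List.getElem?_eq_getElem h', h2, h3, h5, h6⟩

omit [DecidableEq V] in
theorem labx_part_of {nu : Option (V × Bool) → Option (V × Bool)}
    {q : List (Option (V × Bool) × ℕ)} {c : Finset V} {di : Bool} {d : Lbl V}
    (h : ∀ (i : ℕ) (p : Option (V × Bool) × ℕ), q[i]? = some p → p.2 % 2 = 0 →
      (Done c di (nu p.1) ∧ d.g i = d.iL (nu p.1) ∧ d.g (i + 1) = d.iR (nu p.1)) ∨
      ∃ (i' : ℕ) (p' : Option (V × Bool) × ℕ), q[i']? = some p' ∧ p'.1 = p.1 ∧ p'.2 % 2 = 1 ∧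
        p.2 < p'.2 ∧ d.g (i' + 1) = d.g i ∧ d.g i' = d.g (i + 1)) :
    ∀ (i : ℕ) (h : i < q.length), q[i].2 % 2 = 0 →
    (Done c di (nu q[i].1) ∧ d.g i = d.iL (nu q[i].1) ∧ d.g (i + 1) = d.iR (nu q[i].1)) ∨
    ∃ (i' : ℕ) (h' : i' < q.length), q[i'].1 = q[i].1 ∧ q[i'].2 % 2 = 1 ∧ q[i].2 < q[i'].2 ∧
      d.g (i' + 1) = d.g i ∧ d.g i' = d.g (i + 1) := by
  intro i hi he
  rcases h i q[i] (List.getElem?_eq_getElem hi) he with h1 | ⟨i', p', h1, h2, h3, h4, h5, h6⟩
  · exact Or.inl h1
  · obtain ⟨hi', hq⟩ := List.getElem?_eq_some_iff.1 h1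
    subst hq
    exact Or.inr ⟨i', hi', h2, h3, h4, h5, h6⟩

omit [DecidableEq V] in
theorem labx_start_of {nu : Option (V × Bool) → Option (V × Bool)}
    {q : List (Option (V × Bool) × ℕ)} {c : Finset V} {bo di : Bool} {d : Lbl V}
    (h : ∀ x, Done c bo x →
      (Done c di (nu x) ∧ d.oL x = d.iL (nu x) ∧ d.oR x = d.iR (nu x)) ∨
      ∃ (i' : ℕ) (p' : Option (V × Bool) × ℕ), q[i']? = some p' ∧ p'.1 = x ∧ p'.2 % 2 = 1 ∧
        d.g (i' + 1) = d.oL x ∧ d.g i' = d.oR x) :
    ∀ x, Done c bo x →
    (Done c di (nu x) ∧ d.oL x = d.iL (nu x) ∧ d.oR x = d.iR (nu x)) ∨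
    ∃ (i' : ℕ) (h' : i' < q.length), q[i'].1 = x ∧ q[i'].2 % 2 = 1 ∧
      d.g (i' + 1) = d.oL x ∧ d.g i' = d.oR x := by
  intro x hx
  rcases h x hx with h1 | ⟨i', p', h1, h2, h3, h5, h6⟩
  · exact Or.inl h1
  · obtain ⟨hi', hq⟩ := List.getElem?_eq_some_iff.1 h1
    subst hq
    exact Or.inr ⟨i', hi', h2, h3, h5, h6⟩

theorem inv_cap (nu : Option (V × Bool) → Option (V × Bool)) (A B : List (Option (V × Bool) × ℕ))
    (c : Finset V) (bo di : Bool) (d : Lbl V) (h : Inv nu (A ++ B) c bo di d)
    (x : Option (V × Bool)) (j : ℕ) (sw : Bool) :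
    ∃ d' : Lbl V, Inv nu (A ++ (x, if sw then 2 * j + 1 else 2 * j) ::
      (x, if sw then 2 * j else 2 * j + 1) :: B) c bo di d' := by
  obtain ⟨hh, hhS⟩ := Infinite.exists_notMem_finset d.S
  have hlen : ∀ a b : Option (V × Bool) × ℕ,
      (A ++ a :: b :: B).length = (A ++ B).length + 2 := by
    intro a b
    simp only [List.length_append, List.length_cons]
    omega
  have hAB : (A ++ B).length = A.length + B.length := List.length_append
  set n := A.length with hn
  set g' : ℕ → ℕ := fun t => if t ≤ n then d.g t else if t = n + 1 then hh else d.g (t - 2)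
    with hg'
  have g1 : ∀ t, t ≤ n → g' t = d.g t := fun t ht => if_pos ht
  have g2 : g' (n + 1) = hh := by
    show (if n + 1 ≤ n then d.g (n + 1) else if n + 1 = n + 1 then hh else d.g (n + 1 - 2)) = hh
    rw [if_neg (by omega), if_pos rfl]
  have g3 : ∀ t, n ≤ t → g' (t + 2) = d.g t := by
    intro t ht
    show (if t + 2 ≤ n then d.g (t + 2) else if t + 2 = n + 1 then hh else d.g (t + 2 - 2)) = _
    rw [if_neg (by omega), if_neg (by omega)]
    rfl
  have gσ : ∀ t, g' (if t < n then t else t + 2) = d.g t ∧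
      g' ((if t < n then t else t + 2) + 1) = d.g (t + 1) := by
    intro t
    by_cases ht : t < n
    · rw [if_pos ht]
      exact ⟨g1 t (by omega), g1 (t + 1) (by omega)⟩
    · rw [if_neg ht]
      exact ⟨g3 t (by omega), g3 (t + 1) (by omega)⟩
  refine ⟨⟨g', d.oL, d.oR, d.iL, d.iR, insert hh d.S⟩, ?_⟩
  refine
    { gS := ?_, oS := ?_, iS := ?_, cov := ?_, outer := ?_, feq := h.feq, die := h.die,
      born := h.born, part := ?_, start := ?_, count := ?_, count0 := ?_ }
  · intro i hi
    rw [hlen] at hi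
    show g' i ∈ insert hh d.S
    by_cases h1 : i ≤ n
    · rw [g1 i h1]
      exact Finset.mem_insert_of_mem (h.gS i (by omega))
    · by_cases h2 : i = n + 1
      · rw [h2, g2]
        exact Finset.mem_insert_self _ _
      · obtain ⟨k, hk⟩ : ∃ k, i = k + 2 := ⟨i - 2, by omega⟩
        rw [hk, g3 k (by omega)]
        exact Finset.mem_insert_of_mem (h.gS k (by omega))
  · intro x hx
    exact ⟨Finset.mem_insert_of_mem (h.oS x hx).1, Finset.mem_insert_of_mem (h.oS x hx).2⟩
  · intro x hx
    exact ⟨Finset.mem_insert_of_mem (h.iS x hx).1, Finset.mem_insert_of_mem (h.iS x hx).2⟩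
  · intro a ha
    rcases Finset.mem_insert.1 ha with h1 | h1
    · left
      refine ⟨n + 1, by rw [hlen]; omega, ?_⟩
      rw [h1]
      exact g2.symm
    · rcases h.cov a h1 with ⟨i, hi, h2⟩ | h2
      · left
        by_cases h3 : i ≤ n
        · refine ⟨i, by rw [hlen]; omega, ?_⟩
          rw [h2]
          exact (g1 i h3).symm
        · refine ⟨i + 2, by rw [hlen]; omega, ?_⟩
          rw [h2]
          exact (g3 i (by omega)).symm
      · right
        exact h2
  · show g' 0 = g' _
    rw [hlen, g1 0 (by omega), g3 _ (by omega)]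
    exact h.outer
  · refine labx_part_of (d := ⟨g', d.oL, d.oR, d.iL, d.iR, insert hh d.S⟩) ?_
    intro i p hp he
    have old : ∀ k, (A ++ B)[k]? = some p → i = (if k < n then k else k + 2) →
        (Done c di (nu p.1) ∧ g' i = d.iL (nu p.1) ∧ g' (i + 1) = d.iR (nu p.1)) ∨
        ∃ (i' : ℕ) (p' : Option (V × Bool) × ℕ),
          (A ++ (x, if sw then 2 * j + 1 else 2 * j) ::
            (x, if sw then 2 * j else 2 * j + 1) :: B)[i']? = some p' ∧ p'.1 = p.1 ∧
          p'.2 % 2 = 1 ∧ p.2 < p'.2 ∧ g' (i' + 1) = g' i ∧ g' i' = g' (i + 1) := by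
      intro k hk hik
      rw [hik, (gσ k).1, (gσ k).2]
      rcases labx_part h k p hk he with h1 | ⟨i', p', h1, h2, h3, h4, h5, h6⟩
      · exact Or.inl h1
      · refine Or.inr ⟨if i' < n then i' else i' + 2, p', labx_ins _ _ h1, h2, h3, h4, ?_, ?_⟩
        · rw [(gσ i').2]; exact h5
        · rw [(gσ i').1]; exact h6
    rcases labx_split hp with ⟨h1, h2⟩ | ⟨h1, h2⟩ | ⟨h1, h2⟩ | ⟨k, h1, h2, h3⟩
    · exact old i h2 (if_pos h1).symm
    · right
      cases sw with
      | true => rw [h2] at he; simp only [if_true] at he; omega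
      | false =>
        refine ⟨n + 1, (x, 2 * j + 1), ?_, ?_, ?_, ?_, ?_, ?_⟩
        · rw [labx_get, if_neg (by omega), if_neg (by omega), if_pos rfl]
          rfl
        · rw [h2]
        · show (2 * j + 1) % 2 = 1; omega
        · rw [h2]; show 2 * j < 2 * j + 1; omega
        · show g' (n + 1 + 1) = g' i
          rw [h1, g1 A.length le_rfl]
          exact g3 n le_rfl
        · show g' (n + 1) = g' (i + 1)
          rw [h1]
    · right
      cases sw with
      | false => rw [h2] at he; simp only [Bool.false_eq_true, if_false] at he; omega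
      | true =>
        refine ⟨n, (x, 2 * j + 1), ?_, ?_, ?_, ?_, ?_, ?_⟩
        · rw [labx_get, if_neg (by omega), if_pos rfl]
          rfl
        · rw [h2]
        · show (2 * j + 1) % 2 = 1; omega
        · rw [h2]; show 2 * j < 2 * j + 1; omega
        · show g' (n + 1) = g' i
          rw [h1]
        · show g' n = g' (i + 1)
          rw [h1, g1 n le_rfl]
          exact (g3 n le_rfl).symm
    · exact old k h3 (by rw [if_neg (by omega)]; exact h1)
  · refine labx_start_of (d := ⟨g', d.oL, d.oR, d.iL, d.iR, insert hh d.S⟩) ?_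
    intro z hz
    rcases labx_start h z hz with h1 | ⟨i', p', h1, h2, h3, h5, h6⟩
    · exact Or.inl h1
    · refine Or.inr ⟨if i' < n then i' else i' + 2, p', labx_ins _ _ h1, h2, h3, ?_, ?_⟩
      · show g' _ = d.oL z
        rw [(gσ i').2]; exact h5
      · show g' _ = d.oR z
        rw [(gσ i').1]; exact h6
  · rw [hlen]
    show _ ≤ 2 * (insert hh d.S).card + bo.toNat + di.toNat
    rw [Finset.card_insert_of_notMem hhS]
    have := h.count
    omega
  · intro h0
    exact absurd h0 (by simp)

omit [DecidableEq V] in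
theorem labx_repl {A B : List (Option (V × Bool) × ℕ)} {a b : Option (V × Bool) × ℕ}
    (a' b' : Option (V × Bool) × ℕ) {i : ℕ} (h1 : i ≠ A.length) (h2 : i ≠ A.length + 1) :
    (A ++ a' :: b' :: B)[i]? = (A ++ a :: b :: B)[i]? := by
  rw [labx_get, labx_get, if_neg h1, if_neg h2, if_neg h1, if_neg h2]

theorem inv_cross (nu : Option (V × Bool) → Option (V × Bool)) (A B : List (Option (V × Bool) × ℕ))
    (c : Finset V) (bo di : Bool) (d : Lbl V) (v : V) (hv : v ∉ c)
    (h : Inv nu (A ++ (some (v, false), 0) :: (some (v, true), 0) :: B) c bo di d)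
    (x y : Option (V × Bool)) (a b : ℕ) (hx : nu x = some (v, false))
    (hy : nu y = some (v, true)) :
    ∃ d' : Lbl V, Inv nu (A ++ (x, 2 * a) :: (y, 2 * b) :: B) (insert v c) bo di d' := by
  obtain ⟨hh, hhS⟩ := Infinite.exists_notMem_finset d.S
  set n := A.length with hn
  have hlen : ∀ a b : Option (V × Bool) × ℕ,
      (A ++ a :: b :: B).length = n + B.length + 2 := by
    intro a b
    simp only [List.length_append, List.length_cons]
    omega
  -- processed ends are different from the ends of `v`
  have hne : ∀ (f : Bool) (z : Option (V × Bool)), Done c f z → z ≠ some (v, false) ∧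
      z ≠ some (v, true) := by
    intro f z hz
    constructor
    · rintro rfl; exact hv hz
    · rintro rfl; exact hv hz
  have hmono : ∀ (f : Bool) (z : Option (V × Bool)), Done c f z → Done (insert v c) f z := by
    intro f z hz
    cases z with
    | none => exact hz
    | some z => exact Finset.mem_insert_of_mem hz
  have hcases : ∀ (f : Bool) (z : Option (V × Bool)), Done (insert v c) f z →
      z = some (v, false) ∨ z = some (v, true) ∨ Done c f z := by
    intro f z hz
    rcases z with _ | ⟨w, s⟩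
    · exact Or.inr (Or.inr hz)
    · rcases Finset.mem_insert.1 (show w ∈ insert v c from hz) with h1 | h1
      · subst h1
        cases s
        · exact Or.inl rfl
        · exact Or.inr (Or.inl rfl)
      · exact Or.inr (Or.inr h1)
  have hvF : ∀ f : Bool, Done (insert v c) f (some (v, false)) := fun f =>
    Finset.mem_insert_self v c
  have hvT : ∀ f : Bool, Done (insert v c) f (some (v, true)) := fun f =>
    Finset.mem_insert_self v c
  have hTF : (some (v, true) : Option (V × Bool)) ≠ some (v, false) := by simp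
  obtain ⟨d', hd'⟩ : ∃ d' : Lbl V, d' = ⟨fun t => if t = n + 1 then hh else d.g t,
    fun z => if z = some (v, false) then d.g n else if z = some (v, true) then d.g (n + 1)
      else d.oL z,
    fun z => if z = some (v, false) then d.g (n + 1) else if z = some (v, true) then d.g (n + 2)
      else d.oR z,
    fun z => if z = some (v, false) then d.g n else if z = some (v, true) then hh else d.iL z,
    fun z => if z = some (v, false) then hh else if z = some (v, true) then d.g (n + 2)
      else d.iR z,
    insert hh d.S⟩ := ⟨_, rfl⟩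
  have g1 : d'.g (n + 1) = hh := by rw [hd']; exact if_pos rfl
  have g2 : ∀ t, t ≠ n + 1 → d'.g t = d.g t := by intro t ht; rw [hd']; exact if_neg ht
  have eS : d'.S = insert hh d.S := by rw [hd']
  have oLF : d'.oL (some (v, false)) = d.g n := by rw [hd']; exact if_pos rfl
  have oLT : d'.oL (some (v, true)) = d.g (n + 1) := by
    rw [hd']; exact (if_neg hTF).trans (if_pos rfl)
  have oRF : d'.oR (some (v, false)) = d.g (n + 1) := by rw [hd']; exact if_pos rfl
  have oRT : d'.oR (some (v, true)) = d.g (n + 2) := by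
    rw [hd']; exact (if_neg hTF).trans (if_pos rfl)
  have iLF : d'.iL (some (v, false)) = d.g n := by rw [hd']; exact if_pos rfl
  have iLT : d'.iL (some (v, true)) = hh := by
    rw [hd']; exact (if_neg hTF).trans (if_pos rfl)
  have iRF : d'.iR (some (v, false)) = hh := by rw [hd']; exact if_pos rfl
  have iRT : d'.iR (some (v, true)) = d.g (n + 2) := by
    rw [hd']; exact (if_neg hTF).trans (if_pos rfl)
  have oLo : ∀ (f : Bool) z, Done c f z → d'.oL z = d.oL z := by
    intro f z hz
    rw [hd']; exact (if_neg (hne f z hz).1).trans (if_neg (hne f z hz).2)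
  have oRo : ∀ (f : Bool) z, Done c f z → d'.oR z = d.oR z := by
    intro f z hz
    rw [hd']; exact (if_neg (hne f z hz).1).trans (if_neg (hne f z hz).2)
  have iLo : ∀ (f : Bool) z, Done c f z → d'.iL z = d.iL z := by
    intro f z hz
    rw [hd']; exact (if_neg (hne f z hz).1).trans (if_neg (hne f z hz).2)
  have iRo : ∀ (f : Bool) z, Done c f z → d'.iR z = d.iR z := by
    intro f z hz
    rw [hd']; exact (if_neg (hne f z hz).1).trans (if_neg (hne f z hz).2)
  clear_value n
  clear hd'
  have gmem : ∀ t, t ≤ n + B.length + 2 → d.g t ∈ insert hh d.S := fun t ht =>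
    Finset.mem_insert_of_mem (h.gS t (by rw [hlen]; exact ht))
  have hself : hh ∈ insert hh d.S := Finset.mem_insert_self _ _
  refine ⟨d', ?_⟩
  refine
    { gS := ?_, oS := ?_, iS := ?_, cov := ?_, outer := ?_, feq := ?_, die := ?_,
      born := ?_, part := ?_, start := ?_, count := ?_, count0 := ?_ }
  · intro i hi
    rw [hlen] at hi
    rw [eS]
    by_cases h1 : i = n + 1
    · rw [h1, g1]; exact hself
    · rw [g2 i h1]; exact gmem i hi
  · intro z hz
    rw [eS]
    rcases hcases bo z hz with h1 | h1 | h1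
    · rw [h1, oLF, oRF]
      exact ⟨gmem _ (by omega), gmem _ (by omega)⟩
    · rw [h1, oLT, oRT]
      exact ⟨gmem _ (by omega), gmem _ (by omega)⟩
    · rw [oLo bo z h1, oRo bo z h1]
      exact ⟨Finset.mem_insert_of_mem (h.oS z h1).1, Finset.mem_insert_of_mem (h.oS z h1).2⟩
  · intro z hz
    rw [eS]
    rcases hcases di z hz with h1 | h1 | h1
    · rw [h1, iLF, iRF]
      exact ⟨gmem _ (by omega), hself⟩
    · rw [h1, iLT, iRT]
      exact ⟨hself, gmem _ (by omega)⟩
    · rw [iLo di z h1, iRo di z h1]
      exact ⟨Finset.mem_insert_of_mem (h.iS z h1).1, Finset.mem_insert_of_mem (h.iS z h1).2⟩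
  · intro l hl
    rw [eS] at hl
    rcases Finset.mem_insert.1 hl with h1 | h1
    · left
      exact ⟨n + 1, by rw [hlen]; omega, by rw [g1]; exact h1⟩
    · rcases h.cov l h1 with ⟨i, hi, h2⟩ | h2
      · rw [hlen] at hi
        by_cases h3 : i = n + 1
        · right; left
          refine ⟨some (v, true), hvT bo, Or.inl ?_⟩
          rw [oLT, h2, h3]
        · left
          exact ⟨i, by rw [hlen]; exact hi, by rw [g2 i h3]; exact h2⟩
      · right
        rcases h2 with ⟨z, hz, h3⟩ | ⟨z, hz, h3⟩
        · left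
          refine ⟨z, hmono _ _ hz, ?_⟩
          rw [oLo _ z hz, oRo _ z hz]
          exact h3
        · right
          refine ⟨z, hmono _ _ hz, ?_⟩
          rw [iLo _ z hz, iRo _ z hz]
          exact h3
  · rw [hlen, g2 0 (by omega), g2 _ (by omega)]
    have := h.outer
    rw [hlen] at this
    exact this
  · intro w hw
    rcases Finset.mem_insert.1 hw with h1 | h1
    · subst h1
      exact ⟨by rw [iRF, iLT], by rw [oRF, oLT], by rw [iLF, oLF], by rw [iRT, oRT]⟩
    · have e := h.feq w h1
      have dF : Done c true (some (w, false)) := h1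
      have dT : Done c true (some (w, true)) := h1
      rw [iRo _ _ dF, iLo _ _ dT, oRo _ _ dF, oLo _ _ dT, iLo _ _ dF, oLo _ _ dF, iRo _ _ dT,
        oRo _ _ dT]
      exact e
  · intro hdi
    have dn : Done c di none := hdi
    rw [iLo di none dn, iRo di none dn]
    exact h.die hdi
  · intro hbo
    have dn : Done c bo none := hbo
    rw [oLo bo none dn, oRo bo none dn]
    exact h.born hbo
  · refine labx_part_of ?_
    intro i p hp he
    by_cases h1 : i = n
    · left
      have hp' : p = (x, 2 * a) := by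
        rw [labx_get, ← hn, if_neg (by omega), if_pos h1] at hp
        exact (Option.some.inj hp).symm
      subst hp'
      rw [h1]
      show Done (insert v c) di (nu x) ∧ _ = d'.iL (nu x) ∧ _ = d'.iR (nu x)
      rw [hx, iLF, iRF, g1, g2 n (by omega)]
      exact ⟨hvF di, rfl, rfl⟩
    · by_cases h2 : i = n + 1
      · left
        have hp' : p = (y, 2 * b) := by
          rw [labx_get, ← hn, if_neg (by omega), if_neg (by omega), if_pos h2] at hp
          exact (Option.some.inj hp).symm
        subst hp'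
        rw [h2]
        show Done (insert v c) di (nu y) ∧ _ = d'.iL (nu y) ∧ _ = d'.iR (nu y)
        rw [hy, iLT, iRT, g1, g2 (n + 1 + 1) (by omega)]
        exact ⟨hvT di, rfl, rfl⟩
      · have hp0 : (A ++ (some (v, false), 0) :: (some (v, true), 0) :: B)[i]? = some p := by
          rw [← hp]
          exact labx_repl _ _ (by omega) (by omega)
        rw [g2 i h2, g2 (i + 1) (by omega)]
        rcases labx_part h i p hp0 he with ⟨e1, e2, e3⟩ | ⟨i', p', e1, e2, e3, e4, e5, e6⟩
        · left
          rw [iLo di _ e1, iRo di _ e1]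
          exact ⟨hmono _ _ e1, e2, e3⟩
        · right
          have n1 : i' ≠ n := by
            intro h3
            rw [labx_get, ← hn, if_neg (by omega), if_pos h3] at e1
            have := (Option.some.inj e1)
            rw [← this] at e3
            simp at e3
          have n2 : i' ≠ n + 1 := by
            intro h3
            rw [labx_get, ← hn, if_neg (by omega), if_neg (by omega), if_pos h3] at e1
            have := (Option.some.inj e1)
            rw [← this] at e3
            simp at e3
          refine ⟨i', p', ?_, e2, e3, e4, ?_, ?_⟩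
          · rw [← e1]
            exact labx_repl _ _ (by omega) (by omega)
          · rw [g2 (i' + 1) (by omega)]; exact e5
          · rw [g2 i' n2]; exact e6
  · refine labx_start_of ?_
    intro z hz
    have key : ∀ i, (A ++ (some (v, false), 0) :: (some (v, true), 0) :: B)[i]? = some (z, 0) →
        d'.oL z = d.g i → d'.oR z = d.g (i + 1) →
        (Done (insert v c) di (nu z) ∧ d'.oL z = d'.iL (nu z) ∧ d'.oR z = d'.iR (nu z)) ∨
        ∃ (i' : ℕ) (p' : Option (V × Bool) × ℕ),
          (A ++ (x, 2 * a) :: (y, 2 * b) :: B)[i']? = some p' ∧ p'.1 = z ∧ p'.2 % 2 = 1 ∧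
          d'.g (i' + 1) = d'.oL z ∧ d'.g i' = d'.oR z := by
      intro i hi hL hR
      rw [hL, hR]
      rcases labx_part h i (z, 0) hi rfl with ⟨e1, e2, e3⟩ | ⟨i', p', e1, e2, e3, e4, e5, e6⟩
      · left
        have e1' : Done c di (nu z) := e1
        rw [iLo di _ e1', iRo di _ e1']
        exact ⟨hmono _ _ e1, e2, e3⟩
      · right
        have n1 : i' ≠ n := by
          intro h3
          rw [labx_get, ← hn, if_neg (by omega), if_pos h3] at e1
          have := (Option.some.inj e1)
          rw [← this] at e3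
          simp at e3
        have n2 : i' ≠ n + 1 := by
          intro h3
          rw [labx_get, ← hn, if_neg (by omega), if_neg (by omega), if_pos h3] at e1
          have := (Option.some.inj e1)
          rw [← this] at e3
          simp at e3
        refine ⟨i', p', ?_, e2, e3, ?_, ?_⟩
        · rw [← e1]
          exact labx_repl _ _ (by omega) (by omega)
        · rw [g2 (i' + 1) (by omega)]; exact e5
        · rw [g2 i' n2]; exact e6
    rcases hcases bo z hz with h1 | h1 | h1
    · subst h1
      refine key n ?_ oLF oRF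
      rw [labx_get, ← hn, if_neg (by omega), if_pos rfl]
    · subst h1
      refine key (n + 1) ?_ oLT oRT
      rw [labx_get, ← hn, if_neg (by omega), if_neg (by omega), if_pos rfl]
    · rw [oLo bo z h1, oRo bo z h1]
      rcases labx_start h z h1 with ⟨e1, e2, e3⟩ | ⟨i', p', e1, e2, e3, e5, e6⟩
      · left
        rw [iLo di _ e1, iRo di _ e1]
        exact ⟨hmono _ _ e1, e2, e3⟩
      · right
        have n1 : i' ≠ n := by
          intro h3
          rw [labx_get, ← hn, if_neg (by omega), if_pos h3] at e1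
          have := (Option.some.inj e1)
          rw [← this] at e3
          simp at e3
        have n2 : i' ≠ n + 1 := by
          intro h3
          rw [labx_get, ← hn, if_neg (by omega), if_neg (by omega), if_pos h3] at e1
          have := (Option.some.inj e1)
          rw [← this] at e3
          simp at e3
        refine ⟨i', p', ?_, e2, e3, ?_, ?_⟩
        · rw [← e1]
          exact labx_repl _ _ (by omega) (by omega)
        · rw [g2 (i' + 1) (by omega)]; exact e5
        · rw [g2 i' n2]; exact e6
  · rw [hlen, eS, Finset.card_insert_of_notMem hhS, Finset.card_insert_of_notMem hv]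
    have := h.count
    rw [hlen] at this
    omega
  · intro h0
    exact absurd h0 (by simp)

end Pool.Agent.H53.SQ

end S_LABX

section S_LABY

/-!
# Module LABY: step of the face labelling: local minima

We go DOWN through the drawing. `Inv` for the strands ABOVE the piece gives `Inv` for the strands BELOW
it. A strand with an even piece number points upwards, its left side is the gap `i` and its right side
is the gap `i + 1`; for odd numbers it is the other way round.

* `inv_ident`: identifying labels. Let `φ : ℕ → ℕ`. Composing all labels with `φ` (and `S' = S.image φ`)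
  keeps all the fields except `count`, `count0`, which have to be given.
* `inv_cup`: above there are the strands `(x, 2j+1), (x, 2j+2)` (`sw = false`) or
  `(x, 2j+2), (x, 2j+1)` (`sw = true`) at the indices `i, i+1` (`i = A.length`), below they are absent.
  Let `φ` send `g (i+2)` to `g i` and fix all other labels. New gaps: `g' t = φ (g t)` for `t ≤ i`,
  `g' t = φ (g (t+2))` for `t > i` (and `φ (g (i+2)) = φ (g i)`). All records are composed with `φ`,
  `S' = S.image φ`. After `φ` the sides of the two strands coincide: they are `{g (i+1), g i}`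
  (`sw = false`: the odd strand at `i` has left side `g (i+1)`, right side `g i`; the even one at `i+1`
  has left `g (i+1)`, right `g (i+2)`; `sw = true`: even at `i`: left `g i`, right `g (i+1)`, odd at `i+1`:
  left `g (i+2)`, right `g (i+1)`).
  `part`, `start`: if the old partner of a strand (or start) is the removed odd strand `(x, 2j+1)`, then
  replace it by what `part` gives for the even strand `(x, 2j+2)`: the processed end `nu x`, or an odd
  strand with a number `> 2j+2`, which is therefore not removed; the inequality of the numbers is kept.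
  `cov`: the middle label `g (i+1)` is a side of the even strand, so it is recorded or the label of a gap
  next to a surviving odd strand; `φ` of it is then a label of the same kind.
  `count`: `S.card` decreases by at most one, `q.length` by two. `count0`: if `A ++ B = []`, then
  `g 0 = g 2` by `outer`, so `φ` is the identity on all labels and `S' = S`, and
  `2 * c.card + 2 + 2 ≤ ...` is the old `count`; moreover the even strand has no partner (the other
  strand has a smaller number), so its end is processed and `g 0` is `iL (nu x)` or `iR (nu x)`.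
-/

namespace Pool.Agent.H53.SQ

variable {V : Type} [DecidableEq V]

theorem laby_fwd {α : Type} (A B : List α) (u v : α) (t : ℕ) (ht : t < (A ++ B).length) :
    ∃ (s : ℕ) (hs : s < (A ++ u :: v :: B).length), (A ++ u :: v :: B)[s] = (A ++ B)[t] ∧
      s = if t < A.length then t else t + 2 := by
  by_cases h : t < A.length
  · refine ⟨t, by simp; omega, ?_, by simp [h]⟩
    rw [List.getElem_append_left h, List.getElem_append_left h]
  · rw [List.length_append] at ht
    refine ⟨t + 2, by simp; omega, ?_, by simp [h]⟩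
    rw [List.getElem_append_right (by omega), List.getElem_append_right (by omega)]
    have h1 : t + 2 - A.length = (t - A.length) + 2 := by omega
    simp only [h1, List.getElem_cons_succ]

theorem laby_bwd {α : Type} (A B : List α) (u v : α) (s : ℕ) (hs : s < (A ++ u :: v :: B).length)
    (h1 : s ≠ A.length) (h2 : s ≠ A.length + 1) :
    ∃ (t : ℕ) (ht : t < (A ++ B).length), (A ++ B)[t] = (A ++ u :: v :: B)[s] ∧
      s = if t < A.length then t else t + 2 := by
  rw [List.length_append, List.length_cons, List.length_cons] at hs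
  by_cases h : s < A.length
  · refine ⟨s, by simp; omega, ?_, by simp [h]⟩
    rw [List.getElem_append_left h, List.getElem_append_left h]
  · obtain ⟨t, rfl⟩ : ∃ t, s = t + 2 := ⟨s - 2, by omega⟩
    refine ⟨t, by simp; omega, ?_, by rw [if_neg (by omega)]⟩
    rw [List.getElem_append_right (by omega), List.getElem_append_right (by omega)]
    have h1 : t + 2 - A.length = (t - A.length) + 2 := by omega
    simp only [h1, List.getElem_cons_succ]

/-- the core: `ev`, `od` are the indices of the even and the odd removed strand -/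
theorem laby_core (nu : Option (V × Bool) → Option (V × Bool)) (A B : List (Option (V × Bool) × ℕ))
    (c : Finset V) (bo di : Bool) (d : Lbl V) (x : Option (V × Bool)) (j : ℕ)
    (u v : Option (V × Bool) × ℕ) (h : Inv nu (A ++ u :: v :: B) c bo di d) (ev od : ℕ)
    (hevod : (ev = A.length ∧ od = A.length + 1) ∨ (ev = A.length + 1 ∧ od = A.length))
    (hev : ev < (A ++ u :: v :: B).length) (hod : od < (A ++ u :: v :: B).length)
    (hqe : (A ++ u :: v :: B)[ev] = (x, 2 * j + 2)) (hqo : (A ++ u :: v :: B)[od] = (x, 2 * j + 1)) :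
    ∃ d' : Lbl V, Inv nu (A ++ B) c bo di d' := by
  classical
  set i := A.length with hi
  set φ : ℕ → ℕ := fun a => if a = d.g (i + 2) then d.g i else a with hφ
  have hφ2 : φ (d.g (i + 2)) = φ (d.g i) := by
    simp only [hφ]
    split_ifs <;> simp_all
  set g' : ℕ → ℕ := fun t => if t ≤ i then φ (d.g t) else φ (d.g (t + 2)) with hg'
  have hgap : ∀ t s : ℕ, s = (if t < i then t else t + 2) → g' t = φ (d.g s) ∧ g' (t + 1) = φ (d.g (s + 1)) := by
    intro t s hs
    simp only [hg']
    by_cases h1 : t < i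
    · rw [if_pos h1] at hs
      subst hs
      rw [if_pos h1.le, if_pos (by omega)]
      exact ⟨rfl, rfl⟩
    · rw [if_neg h1] at hs
      subst hs
      rw [if_neg (by omega : ¬ t + 1 ≤ i)]
      refine ⟨?_, by rw [show t + 1 + 2 = t + 2 + 1 by omega]⟩
      by_cases h2 : t ≤ i
      · have h3 : t = i := by omega
        rw [if_pos h2, h3, hφ2]
      · rw [if_neg h2]
  have hlen : (A ++ u :: v :: B).length = (A ++ B).length + 2 := by simp; omega
  have hlenA : i ≤ (A ++ B).length := by simp [hi]
  have hsides : φ (d.g ev) = φ (d.g (od + 1)) ∧ φ (d.g (ev + 1)) = φ (d.g od) := by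
    rcases hevod with ⟨h1, h2⟩ | ⟨h1, h2⟩
    · rw [h1, h2]; exact ⟨hφ2.symm, rfl⟩
    · rw [h1, h2]; exact ⟨rfl, hφ2⟩
  set d' : Lbl V := ⟨g', fun z => φ (d.oL z), fun z => φ (d.oR z), fun z => φ (d.iL z), fun z => φ (d.iR z),
    d.S.image φ⟩ with hd'
  have hpe := h.part ev hev (by rw [hqe]; simp)
  have hnot : ∀ s (hs : s < (A ++ u :: v :: B).length), (A ++ u :: v :: B)[s].2 % 2 = 1 → s ≠ od →
      s ≠ A.length ∧ s ≠ A.length + 1 := by
    intro s hs h1 h2
    have h3 : s ≠ ev := by
      rintro rfl
      rw [hqe] at h1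
      simp at h1
    rw [← hi]
    rcases hevod with ⟨h4, h5⟩ | ⟨h4, h5⟩ <;> omega
  have hkey : (Done c di (nu x) ∧ φ (d.g ev) = d'.iL (nu x) ∧ φ (d.g (ev + 1)) = d'.iR (nu x)) ∨
      ∃ (t : ℕ) (ht : t < (A ++ B).length), (A ++ B)[t].1 = x ∧ (A ++ B)[t].2 % 2 = 1 ∧ 2 * j + 2 < (A ++ B)[t].2 ∧
        d'.g (t + 1) = φ (d.g ev) ∧ d'.g t = φ (d.g (ev + 1)) := by
    rcases hpe with ⟨h1, h2, h3⟩ | ⟨s, hs, h1, h2, h3, h4, h5⟩
    · left
      rw [hqe] at h1 h2 h3
      exact ⟨h1, by rw [h2], by rw [h3]⟩
    · right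
      rw [hqe] at h1 h3
      have hne : s ≠ od := by
        rintro rfl
        rw [hqo] at h3
        simp only at h3
        omega
      obtain ⟨h6, h7⟩ := hnot s hs h2 hne
      obtain ⟨t, ht, h8, h9⟩ := laby_bwd A B u v s hs h6 h7
      obtain ⟨h10, h11⟩ := hgap t s h9
      refine ⟨t, ht, by rw [h8, h1], by rw [h8, h2], by rw [h8]; exact h3, ?_, ?_⟩
      · show g' (t + 1) = _
        rw [h11, h4]
      · show g' t = _
        rw [h10, h5]
  refine ⟨d', ?_⟩
  have hRec : ∀ a, d.Rec c bo di a → d'.Rec c bo di (φ a) := by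
    rintro a (⟨z, hz, h1⟩ | ⟨z, hz, h1⟩)
    · left
      refine ⟨z, hz, ?_⟩
      rcases h1 with rfl | rfl
      · left; rfl
      · right; rfl
    · right
      refine ⟨z, hz, ?_⟩
      rcases h1 with rfl | rfl
      · left; rfl
      · right; rfl
  constructor
  · intro t ht
    show g' t ∈ d.S.image φ
    simp only [hg']
    split_ifs with h1
    · exact Finset.mem_image_of_mem _ (h.gS _ (by omega))
    · exact Finset.mem_image_of_mem _ (h.gS _ (by omega))
  · intro z hz
    exact ⟨Finset.mem_image_of_mem _ (h.oS z hz).1, Finset.mem_image_of_mem _ (h.oS z hz).2⟩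
  · intro z hz
    exact ⟨Finset.mem_image_of_mem _ (h.iS z hz).1, Finset.mem_image_of_mem _ (h.iS z hz).2⟩
  · intro a' ha'
    obtain ⟨a, ha, rfl⟩ := Finset.mem_image.1 ha'
    rcases h.cov a ha with ⟨s, hs, rfl⟩ | h1
    · rcases Nat.lt_trichotomy s (i + 1) with h2 | h2 | h2
      · left
        refine ⟨s, by omega, ?_⟩
        show φ (d.g s) = g' s
        simp only [hg']
        rw [if_pos (by omega)]
      · subst h2
        have h3 : φ (d.g (i + 1)) = φ (d.g ev) ∨ φ (d.g (i + 1)) = φ (d.g (ev + 1)) := by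
          rcases hevod with ⟨h4, h5⟩ | ⟨h4, h5⟩
          · right; rw [h4]
          · left; rw [h4]
        rcases hkey with ⟨h4, h5, h6⟩ | ⟨t, ht, _, _, _, h5, h6⟩
        · right
          right
          refine ⟨nu x, h4, ?_⟩
          rcases h3 with h3 | h3
          · left; rw [h3, h5]
          · right; rw [h3, h6]
        · left
          rcases h3 with h3 | h3
          · exact ⟨t + 1, by omega, by rw [h3, h5]⟩
          · exact ⟨t, by omega, by rw [h3, h6]⟩
      · left
        obtain ⟨t, rfl⟩ : ∃ t, s = t + 2 := ⟨s - 2, by omega⟩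
        refine ⟨t, by omega, ?_⟩
        show φ (d.g (t + 2)) = g' t
        exact (hgap t (t + 2) (by rw [if_neg (by omega)])).1.symm
    · exact Or.inr (hRec a h1)
  · show g' 0 = g' (A ++ B).length
    have h1 := (hgap (A ++ B).length ((A ++ B).length + 2) (by rw [if_neg (by omega)])).1
    rw [h1, ← hlen, ← h.outer]
    simp only [hg']
    rw [if_pos (Nat.zero_le _)]
  · intro z hz
    obtain ⟨h1, h2, h3, h4⟩ := h.feq z hz
    exact ⟨by show φ _ = φ _; rw [h1], by show φ _ = φ _; rw [h2], by show φ _ = φ _; rw [h3],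
      by show φ _ = φ _; rw [h4]⟩
  · intro h1
    show φ _ = φ _
    rw [h.die h1]
  · intro h1
    show φ _ = φ _
    rw [h.born h1]
  · intro t ht hev2
    obtain ⟨s, hs, h1, h2⟩ := laby_fwd A B u v t ht
    obtain ⟨h3, h4⟩ := hgap t s h2
    have h5 := h.part s hs (by rw [h1]; exact hev2)
    show (Done c di (nu (A ++ B)[t].1) ∧ g' t = φ (d.iL (nu (A ++ B)[t].1)) ∧ g' (t + 1) = φ (d.iR (nu (A ++ B)[t].1))) ∨
      ∃ (i' : ℕ) (h' : i' < (A ++ B).length), (A ++ B)[i'].1 = (A ++ B)[t].1 ∧ (A ++ B)[i'].2 % 2 = 1 ∧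
        (A ++ B)[t].2 < (A ++ B)[i'].2 ∧ g' (i' + 1) = g' t ∧ g' i' = g' (t + 1)
    rw [h1] at h5
    rcases h5 with ⟨h6, h7, h8⟩ | ⟨s', hs', h6, h7, h8, h9, h10⟩
    · left
      exact ⟨h6, by rw [h3, h7], by rw [h4, h8]⟩
    · by_cases hso : s' = od
      · subst hso
        rw [hqo] at h6 h8
        simp only at h6 h8
        rcases hkey with ⟨k1, k2, k3⟩ | ⟨t', ht', k1, k2, k3, k4, k5⟩
        · left
          rw [← h6]
          refine ⟨k1, ?_, ?_⟩
          · rw [h3, ← h9, ← hsides.1, k2]
          · rw [h4, ← h10, ← hsides.2, k3]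
        · right
          refine ⟨t', ht', by rw [k1, h6], k2, by omega, ?_, ?_⟩
          · rw [h3, ← h9, ← hsides.1, ← k4]
          · rw [h4, ← h10, ← hsides.2, ← k5]
      · obtain ⟨h11, h12⟩ := hnot s' hs' h7 hso
        obtain ⟨t', ht', k1, k2⟩ := laby_bwd A B u v s' hs' h11 h12
        obtain ⟨k3, k4⟩ := hgap t' s' k2
        right
        refine ⟨t', ht', by rw [k1, h6], by rw [k1, h7], by rw [k1]; exact h8, ?_, ?_⟩
        · rw [k4, h3, h9]
        · rw [k3, h4, h10]
  · intro z hz
    show (Done c di (nu z) ∧ φ (d.oL z) = φ (d.iL (nu z)) ∧ φ (d.oR z) = φ (d.iR (nu z))) ∨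
      ∃ (i' : ℕ) (h' : i' < (A ++ B).length), (A ++ B)[i'].1 = z ∧ (A ++ B)[i'].2 % 2 = 1 ∧
        g' (i' + 1) = φ (d.oL z) ∧ g' i' = φ (d.oR z)
    rcases h.start z hz with ⟨h6, h7, h8⟩ | ⟨s', hs', h6, h7, h9, h10⟩
    · left
      exact ⟨h6, by rw [h7], by rw [h8]⟩
    · by_cases hso : s' = od
      · subst hso
        rw [hqo] at h6
        simp only at h6
        subst h6
        rcases hkey with ⟨k1, k2, k3⟩ | ⟨t', ht', k1, k2, k3, k4, k5⟩
        · left
          refine ⟨k1, ?_, ?_⟩
          · rw [← h9, ← hsides.1, k2]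
          · rw [← h10, ← hsides.2, k3]
        · right
          refine ⟨t', ht', k1, k2, ?_, ?_⟩
          · rw [← h9, ← hsides.1, ← k4]
          · rw [← h10, ← hsides.2, ← k5]
      · obtain ⟨h11, h12⟩ := hnot s' hs' h7 hso
        obtain ⟨t', ht', k1, k2⟩ := laby_bwd A B u v s' hs' h11 h12
        obtain ⟨k3, k4⟩ := hgap t' s' k2
        right
        refine ⟨t', ht', by rw [k1, h6], by rw [k1, h7], ?_, ?_⟩
        · rw [k4, h9]
        · rw [k3, h10]
  · show 2 * c.card + (A ++ B).length + 2 ≤ 2 * (d.S.image φ).card + bo.toNat + di.toNat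
    have h1 := h.count
    have h2 : d.S.erase (d.g (i + 2)) ⊆ d.S.image φ := by
      intro a ha
      rw [Finset.mem_erase] at ha
      exact Finset.mem_image.2 ⟨a, ha.2, by simp only [hφ]; rw [if_neg ha.1]⟩
    have h3 := Finset.card_le_card h2
    have h4 : d.S.card ≤ (d.S.erase (d.g (i + 2))).card + 1 := by
      have := Finset.card_erase_add_one (h.gS (i + 2) (by omega))
      omega
    omega
  · intro hnil _
    have hA : A = [] := (List.append_eq_nil_iff.1 hnil).1
    have hB : B = [] := (List.append_eq_nil_iff.1 hnil).2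
    have hi0 : i = 0 := by rw [hi, hA]; rfl
    have hl0 : (A ++ B).length = 0 := by rw [hnil]; rfl
    have ho := h.outer
    rw [hlen, hl0] at ho
    have hid : ∀ a, φ a = a := by
      intro a
      simp only [hφ]
      rw [hi0, ho]
      split_ifs with h1
      · rw [h1]
      · rfl
    have hS : d.S.image φ = d.S := by
      have : φ = id := funext hid
      rw [this, Finset.image_id]
    constructor
    · show 2 * c.card + 4 ≤ 2 * (d.S.image φ).card + bo.toNat + di.toNat
      have h1 := h.count
      rw [hS]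
      omega
    · rcases hkey with ⟨k1, k2, k3⟩ | ⟨t, ht, _⟩
      · right
        refine ⟨nu x, k1, ?_⟩
        show g' 0 = _ ∨ g' 0 = _
        have h1 : g' 0 = φ (d.g 0) := by
          simp only [hg']
          rw [if_pos (Nat.zero_le _)]
        rcases hevod with ⟨h4, h5⟩ | ⟨h4, h5⟩
        · left
          rw [← k2, h1, h4, hi0]
        · right
          rw [← k3, h1, h4, hi0, ho]
      · omega

theorem inv_cup (nu : Option (V × Bool) → Option (V × Bool)) (A B : List (Option (V × Bool) × ℕ))
    (c : Finset V) (bo di : Bool) (d : Lbl V) (x : Option (V × Bool)) (j : ℕ) (sw : Bool)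
    (h : Inv nu (A ++ (x, if sw then 2 * j + 2 else 2 * j + 1) ::
      (x, if sw then 2 * j + 1 else 2 * j + 2) :: B) c bo di d) :
    ∃ d' : Lbl V, Inv nu (A ++ B) c bo di d' := by
  cases sw with
  | true =>
    refine laby_core nu A B c bo di d x j _ _ h A.length (A.length + 1) (Or.inl ⟨rfl, rfl⟩) (by simp) (by simp) ?_ ?_
    · simp
    · simp
  | false =>
    refine laby_core nu A B c bo di d x j _ _ h (A.length + 1) A.length (Or.inr ⟨rfl, rfl⟩) (by simp) (by simp) ?_ ?_
    · simp
    · simp

end Pool.Agent.H53.SQ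

end S_LABY

section S_LABZ

/-!
# Module LABZ: steps of the face labelling: the two ends of the open strand

We go DOWN through the drawing. `Inv` for the strands ABOVE the piece gives `Inv` for the strands BELOW
it. A strand with an even piece number points upwards, its left side is the gap `i` and its right side
is the gap `i + 1`; for odd numbers it is the other way round.
-/

namespace Pool.Agent.H53.SQ

variable {V : Type} [DecidableEq V]

section Lists

variable {α : Type}

theorem labz_get_lt (A B : List α) (p : α) (t : ℕ) (h : t < A.length)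
    (h1 : t < (A ++ p :: B).length) (h2 : t < (A ++ B).length) :
    (A ++ p :: B)[t] = (A ++ B)[t] := by
  rw [List.getElem_append_left h, List.getElem_append_left h]

theorem labz_get_ge (A B : List α) (p : α) (t : ℕ) (h : A.length ≤ t)
    (h1 : t + 1 < (A ++ p :: B).length) (h2 : t < (A ++ B).length) :
    (A ++ p :: B)[t + 1] = (A ++ B)[t] := by
  rw [List.getElem_append_right (by omega), List.getElem_append_right h]
  have e : t + 1 - A.length = (t - A.length) + 1 := by omega
  simp only [e, List.getElem_cons_succ]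

theorem labz_get_mid (A B : List α) (p : α) (h1 : A.length < (A ++ p :: B).length) :
    (A ++ p :: B)[A.length] = p := by
  rw [List.getElem_append_right le_rfl]
  simp

end Lists

omit [DecidableEq V] in
theorem labz_del (A B : List (Option (V × Bool) × ℕ)) (p : Option (V × Bool) × ℕ)
    (hp : p.2 % 2 ≠ 1) (g g' : ℕ → ℕ) (φ : ℕ → ℕ) (hg1 : ∀ t ≤ A.length, g' t = φ (g t))
    (hg2 : ∀ t, A.length ≤ t → g' t = φ (g (t + 1))) (e : Option (V × Bool)) (Q : ℕ → Prop)
    (a b : ℕ)
    (h : ∃ (i' : ℕ) (h' : i' < (A ++ p :: B).length), (A ++ p :: B)[i'].1 = e ∧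
      (A ++ p :: B)[i'].2 % 2 = 1 ∧ Q (A ++ p :: B)[i'].2 ∧ g (i' + 1) = a ∧ g i' = b) :
    ∃ (i' : ℕ) (h' : i' < (A ++ B).length), (A ++ B)[i'].1 = e ∧
      (A ++ B)[i'].2 % 2 = 1 ∧ Q (A ++ B)[i'].2 ∧ g' (i' + 1) = φ a ∧ g' i' = φ b := by
  obtain ⟨i', h', h1, h2, h3, h4, h5⟩ := h
  have hlen : (A ++ p :: B).length = (A ++ B).length + 1 := by
    simp only [List.length_append, List.length_cons]
    omega
  have hlen2 : (A ++ B).length = A.length + B.length := List.length_append
  rcases lt_trichotomy i' A.length with hlt | heq | hgt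
  · have h6 : i' < (A ++ B).length := by omega
    have h7 := labz_get_lt A B p i' hlt h' h6
    rw [h7] at h1 h2 h3
    refine ⟨i', h6, h1, h2, h3, ?_, ?_⟩
    · rw [hg1 _ hlt, h4]
    · rw [hg1 _ hlt.le, h5]
  · exfalso
    subst heq
    rw [labz_get_mid] at h2
    exact hp h2
  · obtain ⟨k, rfl⟩ : ∃ k, i' = k + 1 := ⟨i' - 1, by omega⟩
    have h6 : k < (A ++ B).length := by omega
    have h7 := labz_get_ge A B p k (by omega) h' h6
    rw [h7] at h1 h2 h3
    refine ⟨k, h6, h1, h2, h3, ?_, ?_⟩
    · rw [hg2 _ (by omega), h4]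
    · rw [hg2 _ (by omega), h5]

omit [DecidableEq V] in
theorem labz_add (A B : List (Option (V × Bool) × ℕ)) (p : Option (V × Bool) × ℕ)
    (g g' : ℕ → ℕ) (hg1 : ∀ t ≤ A.length, g' t = g t)
    (hg2 : ∀ t, A.length ≤ t → g' (t + 1) = g t) (e : Option (V × Bool)) (Q : ℕ → Prop)
    (a b : ℕ)
    (h : ∃ (i' : ℕ) (h' : i' < (A ++ B).length), (A ++ B)[i'].1 = e ∧
      (A ++ B)[i'].2 % 2 = 1 ∧ Q (A ++ B)[i'].2 ∧ g (i' + 1) = a ∧ g i' = b) :
    ∃ (i' : ℕ) (h' : i' < (A ++ p :: B).length), (A ++ p :: B)[i'].1 = e ∧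
      (A ++ p :: B)[i'].2 % 2 = 1 ∧ Q (A ++ p :: B)[i'].2 ∧ g' (i' + 1) = a ∧ g' i' = b := by
  obtain ⟨i', h', h1, h2, h3, h4, h5⟩ := h
  have hlen : (A ++ p :: B).length = (A ++ B).length + 1 := by
    simp only [List.length_append, List.length_cons]
    omega
  rcases lt_or_ge i' A.length with hlt | hge
  · have h6 : i' < (A ++ p :: B).length := by omega
    have h7 := labz_get_lt A B p i' hlt h6 h'
    rw [← h7] at h1 h2 h3
    refine ⟨i', h6, h1, h2, h3, ?_, ?_⟩
    · rw [hg1 _ hlt, h4]
    · rw [hg1 _ hlt.le, h5]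
  · have h6 : i' + 1 < (A ++ p :: B).length := by omega
    have h7 := labz_get_ge A B p i' hge h6 h'
    rw [← h7] at h1 h2 h3
    refine ⟨i' + 1, h6, h1, h2, h3, ?_, ?_⟩
    · rw [hg2 _ (by omega), h4]
    · rw [hg2 _ hge, h5]

omit [DecidableEq V] in
theorem labz_done_false {c : Finset V} {x : Option (V × Bool)} (h : Done c false x) :
    x ≠ none ∧ ∀ f, Done c f x := by
  rcases x with _ | z
  · exact absurd h (by simp [Done])
  · exact ⟨by simp, fun f => h⟩

omit [DecidableEq V] in
theorem labz_done_some {c : Finset V} {z : V × Bool} {f f' : Bool} (h : Done c f (some z)) :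
    Done c f' (some z) := h

omit [DecidableEq V] in
theorem inv_nil (nu : Option (V × Bool) → Option (V × Bool)) :
    ∃ d : Lbl V, Inv nu [] ∅ false false d := by
  have hD : ∀ x : Option (V × Bool), ¬ Done (∅ : Finset V) false x := by
    rintro (_ | z) h
    · simp [Done] at h
    · simp [Done] at h
  refine ⟨⟨fun _ => 0, fun _ => 0, fun _ => 0, fun _ => 0, fun _ => 0, {0}⟩, ?_⟩
  constructor
  · intro i _
    exact Finset.mem_singleton_self _
  · intro x hx
    exact absurd hx (hD x)
  · intro x hx
    exact absurd hx (hD x)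
  · intro a ha
    exact Or.inl ⟨0, le_rfl, Finset.mem_singleton.1 ha⟩
  · rfl
  · intro v hv
    exact absurd hv (Finset.notMem_empty v)
  · intro h
    exact absurd h (by simp)
  · intro h
    exact absurd h (by simp)
  · intro i h
    exact absurd h (by simp)
  · intro x hx
    exact absurd hx (hD x)
  · simp
  · intro _ h
    simp at h

theorem inv_born (nu : Option (V × Bool) → Option (V × Bool)) (A B : List (Option (V × Bool) × ℕ))
    (c : Finset V) (di : Bool) (d : Lbl V) (h : Inv nu (A ++ (none, 0) :: B) c false di d) :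
    ∃ d' : Lbl V, Inv nu (A ++ B) c true di d' := by
  set n := A.length with hn
  set p : Option (V × Bool) × ℕ := (none, 0) with hp
  have hlen : (A ++ p :: B).length = (A ++ B).length + 1 := by
    simp only [List.length_append, List.length_cons]
    omega
  have hlen2 : (A ++ B).length = n + B.length := List.length_append
  let φ : ℕ → ℕ := fun a => if a = d.g (n + 1) then d.g n else a
  have φ1 : φ (d.g (n + 1)) = d.g n := if_pos rfl
  have φ0 : φ (d.g n) = d.g n := by
    change (if d.g n = d.g (n + 1) then d.g n else d.g n) = d.g n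
    split_ifs <;> rfl
  let d' : Lbl V :=
    { g := fun t => if t ≤ n then φ (d.g t) else φ (d.g (t + 1))
      oL := fun x => if x = none then φ (d.g n) else φ (d.oL x)
      oR := fun x => if x = none then φ (d.g n) else φ (d.oR x)
      iL := fun y => φ (d.iL y)
      iR := fun y => φ (d.iR y)
      S := d.S.image φ }
  have hg1 : ∀ t ≤ n, d'.g t = φ (d.g t) := fun t ht => if_pos ht
  have hg2 : ∀ t, n ≤ t → d'.g t = φ (d.g (t + 1)) := by
    intro t ht
    rcases ht.eq_or_lt with rfl | hlt
    · rw [hg1 _ le_rfl, φ0, φ1]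
    · exact if_neg (by omega)
  have hoL : ∀ z, d'.oL (some z) = φ (d.oL (some z)) := fun z => rfl
  have hoR : ∀ z, d'.oR (some z) = φ (d.oR (some z)) := fun z => rfl
  have hoL0 : d'.oL none = φ (d.g n) := rfl
  have hoR0 : d'.oR none = φ (d.g n) := rfl
  have himg : ∀ a ∈ d.S, φ a ∈ d'.S := fun a ha => Finset.mem_image_of_mem _ ha
  have hgS : ∀ t ≤ (A ++ p :: B).length, d.g t ∈ d.S := h.gS
  have hn' : n < (A ++ p :: B).length := by omega
  have hmid : (A ++ p :: B)[n] = p := labz_get_mid A B p hn'
  have hp1 : p.2 % 2 ≠ 1 := by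
    rw [hp]
    simp
  refine ⟨d', ?_⟩
  constructor
  · intro t ht
    rcases le_or_gt t n with h1 | h1
    · rw [hg1 t h1]
      exact himg _ (hgS _ (by omega))
    · rw [hg2 t h1.le]
      exact himg _ (hgS _ (by omega))
  · rintro (_ | z) hx
    · rw [hoL0, hoR0]
      exact ⟨himg _ (hgS _ hn'.le), himg _ (hgS _ hn'.le)⟩
    · rw [hoL, hoR]
      have := h.oS (some z) (labz_done_some hx)
      exact ⟨himg _ this.1, himg _ this.2⟩
  · intro y hy
    have := h.iS y hy
    exact ⟨himg _ this.1, himg _ this.2⟩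
  · intro a ha
    obtain ⟨b, hb, rfl⟩ := Finset.mem_image.1 ha
    rcases h.cov b hb with ⟨t, ht, rfl⟩ | ⟨x, hx, hx'⟩ | ⟨y, hy, hy'⟩
    · left
      rcases le_or_gt t n with h1 | h1
      · exact ⟨t, by omega, (hg1 t h1).symm⟩
      · refine ⟨t - 1, by omega, ?_⟩
        rw [hg2 (t - 1) (by omega)]
        congr 2
        omega
    · right
      left
      obtain ⟨hne, hall⟩ := labz_done_false hx
      obtain ⟨z, rfl⟩ := Option.ne_none_iff_exists'.1 hne
      refine ⟨some z, hall true, ?_⟩
      rw [hoL, hoR]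
      rcases hx' with rfl | rfl
      · exact Or.inl rfl
      · exact Or.inr rfl
    · right
      right
      refine ⟨y, hy, ?_⟩
      rcases hy' with rfl | rfl
      · exact Or.inl rfl
      · exact Or.inr rfl
  · have h1 := h.outer
    rw [hg1 0 (Nat.zero_le _), hg2 _ (by omega), ← hlen, h1]
  · intro v hv
    obtain ⟨h1, h2, h3, h4⟩ := h.feq v hv
    refine ⟨congrArg φ h1, ?_, ?_, ?_⟩
    · rw [hoR, hoL, h2]
    · rw [hoL]
      exact congrArg φ h3
    · rw [hoR]
      exact congrArg φ h4
  · intro hdi
    exact congrArg φ (h.die hdi)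
  · intro _
    rw [hoL0, hoR0]
  · intro t ht hev
    rcases lt_or_ge t n with h1 | h1
    · have e1 := labz_get_lt A B p t h1 (by omega) ht
      rw [← e1] at hev ⊢
      rcases h.part t (by omega) hev with ⟨ha, hb, hc⟩ | hpart
      · left
        refine ⟨ha, ?_, ?_⟩
        · rw [hg1 t h1.le, hb]
        · rw [hg1 (t + 1) h1, hc]
      · right
        have := labz_del A B p hp1 d.g d'.g φ hg1 hg2 _
          (fun k => (A ++ p :: B)[t].2 < k) _ _ hpart
        rw [← hg1 t h1.le, ← hg1 (t + 1) h1] at this
        exact this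
    · have e1 := labz_get_ge A B p t h1 (by omega) ht
      rw [← e1] at hev ⊢
      rcases h.part (t + 1) (by omega) hev with ⟨ha, hb, hc⟩ | hpart
      · left
        refine ⟨ha, ?_, ?_⟩
        · rw [hg2 t h1, hb]
        · rw [hg2 (t + 1) (by omega), hc]
      · right
        have := labz_del A B p hp1 d.g d'.g φ hg1 hg2 _
          (fun k => (A ++ p :: B)[t + 1].2 < k) _ _ hpart
        rw [← hg2 t h1, ← hg2 (t + 1) (by omega)] at this
        exact this
  · rintro (_ | z) hx
    · rw [hoL0, hoR0]
      have hev : (A ++ p :: B)[n].2 % 2 = 0 := by rw [hmid]; rfl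
      rcases h.part n hn' hev with ⟨ha, hb, hc⟩ | hpart
      · left
        rw [hmid] at ha hb hc
        refine ⟨ha, ?_, ?_⟩
        · rw [hb]
        · rw [φ0, ← φ1, hc]
      · right
        rw [hmid] at hpart
        obtain ⟨i', h', k1, k2, -, k4, k5⟩ := labz_del A B p hp1 d.g d'.g φ hg1 hg2 _
          (fun k => p.2 < k) _ _ hpart
        refine ⟨i', h', k1, k2, k4, ?_⟩
        rw [k5, φ1, φ0]
    · rw [hoL, hoR]
      rcases h.start (some z) (labz_done_some hx) with ⟨ha, hb, hc⟩ | hst
      · left
        exact ⟨ha, congrArg φ hb, congrArg φ hc⟩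
      · right
        obtain ⟨i', h', k1, k2, k4, k5⟩ := hst
        obtain ⟨i', h', k1, k2, -, k4, k5⟩ := labz_del A B p hp1 d.g d'.g φ hg1 hg2 _
          (fun _ => True) _ _ ⟨i', h', k1, k2, trivial, k4, k5⟩
        exact ⟨i', h', k1, k2, k4, k5⟩
  · have h1 := h.count
    have h2 : d.S.card ≤ d'.S.card + 1 := by
      have h3 : d.S.erase (d.g (n + 1)) ⊆ d'.S := by
        intro a ha
        have h4 : a ≠ d.g (n + 1) := Finset.ne_of_mem_erase ha
        have h5 : φ a = a := if_neg h4
        rw [← h5]
        exact himg _ (Finset.mem_of_mem_erase ha)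
      have h4 := Finset.card_le_card h3
      have h5 := Finset.pred_card_le_card_erase (s := d.S) (a := d.g (n + 1))
      omega
    rw [hlen] at h1
    simp only [Bool.toNat_false, Bool.toNat_true] at h1 ⊢
    omega
  · intro hq _
    have hA : A = [] := (List.append_eq_nil_iff.1 hq).1
    have hn0 : n = 0 := by rw [hn, hA, List.length_nil]
    have hq0 : (A ++ B).length = 0 := by rw [hq, List.length_nil]
    have h1 := h.outer
    rw [hlen, hq0] at h1
    have hid : ∀ a, φ a = a := by
      intro a
      change (if a = d.g (n + 1) then d.g n else a) = a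
      split_ifs with h2
      · rw [h2, hn0, h1]
      · rfl
    have hS : d'.S = d.S := by
      change d.S.image φ = d.S
      have : φ = id := funext hid
      rw [this, Finset.image_id]
    have h2 := h.count
    rw [hlen, hq0] at h2
    constructor
    · rw [hS]
      simp only [Bool.toNat_false, Bool.toNat_true] at h2 ⊢
      omega
    · left
      refine ⟨none, rfl, Or.inl ?_⟩
      rw [hoL0, hg1 0 (Nat.zero_le _), hn0]

theorem inv_die (nu : Option (V × Bool) → Option (V × Bool)) (A B : List (Option (V × Bool) × ℕ))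
    (c : Finset V) (bo : Bool) (d : Lbl V) (h : Inv nu (A ++ B) c bo false d)
    (x : Option (V × Bool)) (j : ℕ) (hx : nu x = none) :
    ∃ d' : Lbl V, Inv nu (A ++ (x, 2 * j) :: B) c bo true d' := by
  set n := A.length with hn
  set p : Option (V × Bool) × ℕ := (x, 2 * j) with hp
  have hlen : (A ++ p :: B).length = (A ++ B).length + 1 := by
    simp only [List.length_append, List.length_cons]
    omega
  have hlen2 : (A ++ B).length = n + B.length := List.length_append
  let d' : Lbl V :=
    { g := fun t => if t ≤ n then d.g t else d.g (t - 1)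
      oL := d.oL
      oR := d.oR
      iL := fun y => if y = none then d.g n else d.iL y
      iR := fun y => if y = none then d.g n else d.iR y
      S := d.S }
  have hg1 : ∀ t ≤ n, d'.g t = d.g t := fun t ht => if_pos ht
  have hg2 : ∀ t, n ≤ t → d'.g (t + 1) = d.g t := fun t ht => if_neg (by omega)
  have hiL : ∀ z, d'.iL (some z) = d.iL (some z) := fun z => rfl
  have hiR : ∀ z, d'.iR (some z) = d.iR (some z) := fun z => rfl
  have hiL0 : d'.iL none = d.g n := rfl
  have hiR0 : d'.iR none = d.g n := rfl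
  have hn' : n < (A ++ p :: B).length := by omega
  have hmid : (A ++ p :: B)[n] = p := labz_get_mid A B p hn'
  have hnew : ∀ e : Option (V × Bool), Done c false e →
      Done c true e ∧ d'.iL e = d.iL e ∧ d'.iR e = d.iR e := by
    intro e he
    obtain ⟨hne, hall⟩ := labz_done_false he
    obtain ⟨z, rfl⟩ := Option.ne_none_iff_exists'.1 hne
    exact ⟨hall true, hiL z, hiR z⟩
  refine ⟨d', ?_⟩
  constructor
  · intro t ht
    rcases le_or_gt t n with h1 | h1
    · rw [hg1 t h1]
      exact h.gS t (by omega)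
    · obtain ⟨k, rfl⟩ : ∃ k, t = k + 1 := ⟨t - 1, by omega⟩
      rw [hg2 k (by omega)]
      exact h.gS k (by omega)
  · exact h.oS
  · rintro (_ | z) hy
    · rw [hiL0, hiR0]
      exact ⟨h.gS n (by omega), h.gS n (by omega)⟩
    · rw [hiL, hiR]
      exact h.iS (some z) (labz_done_some hy)
  · intro a ha
    rcases h.cov a ha with ⟨t, ht, rfl⟩ | hrec | ⟨y, hy, hy'⟩
    · left
      rcases le_or_gt t n with h1 | h1
      · exact ⟨t, by omega, (hg1 t h1).symm⟩
      · exact ⟨t + 1, by omega, (hg2 t h1.le).symm⟩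
    · right
      left
      exact hrec
    · right
      right
      obtain ⟨h1, h2, h3⟩ := hnew y hy
      refine ⟨y, h1, ?_⟩
      rw [h2, h3]
      exact hy'
  · rw [hlen, hg1 0 (Nat.zero_le _), hg2 _ (by omega)]
    exact h.outer
  · intro v hv
    obtain ⟨h1, h2, h3, h4⟩ := h.feq v hv
    refine ⟨?_, h2, ?_, ?_⟩
    · rw [hiR, hiL, h1]
    · rw [hiL]
      exact h3
    · rw [hiR]
      exact h4
  · intro _
    rw [hiL0, hiR0]
  · exact h.born
  · intro t ht hev
    rcases lt_trichotomy t n with h1 | h1 | h1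
    · have e1 := labz_get_lt A B p t h1 ht (by omega)
      rw [e1] at hev ⊢
      rcases h.part t (by omega) hev with ⟨ha, hb, hc⟩ | hpart
      · left
        obtain ⟨k1, k2, k3⟩ := hnew _ ha
        refine ⟨k1, ?_, ?_⟩
        · rw [hg1 t h1.le, hb, k2]
        · rw [hg1 (t + 1) h1, hc, k3]
      · right
        rw [hg1 t h1.le, hg1 (t + 1) h1]
        exact labz_add A B p d.g d'.g hg1 hg2 _ (fun k => (A ++ B)[t].2 < k) _ _ hpart
    · subst h1
      left
      rw [hmid]
      change Done c true (nu x) ∧ _ = d'.iL (nu x) ∧ _ = d'.iR (nu x)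
      rw [hx, hiL0, hiR0, hg1 n le_rfl, hg2 n le_rfl]
      exact ⟨rfl, rfl, rfl⟩
    · obtain ⟨k, rfl⟩ : ∃ k, t = k + 1 := ⟨t - 1, by omega⟩
      have e1 := labz_get_ge A B p k (by omega) ht (by omega)
      rw [e1] at hev ⊢
      rcases h.part k (by omega) hev with ⟨ha, hb, hc⟩ | hpart
      · left
        obtain ⟨k1, k2, k3⟩ := hnew _ ha
        refine ⟨k1, ?_, ?_⟩
        · rw [hg2 k (by omega), hb, k2]
        · rw [hg2 (k + 1) (by omega), hc, k3]
      · right
        rw [hg2 k (by omega), hg2 (k + 1) (by omega)]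
        exact labz_add A B p d.g d'.g hg1 hg2 _ (fun l => (A ++ B)[k].2 < l) _ _ hpart
  · intro e he
    rcases h.start e he with ⟨ha, hb, hc⟩ | hst
    · left
      obtain ⟨k1, k2, k3⟩ := hnew _ ha
      refine ⟨k1, ?_, ?_⟩
      · rw [k2]
        exact hb
      · rw [k3]
        exact hc
    · right
      obtain ⟨i', h', k1, k2, k4, k5⟩ := hst
      obtain ⟨i', h', k1, k2, -, k4, k5⟩ := labz_add A B p d.g d'.g hg1 hg2 _
        (fun _ => True) _ _ ⟨i', h', k1, k2, trivial, k4, k5⟩
      exact ⟨i', h', k1, k2, k4, k5⟩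
  · have h1 := h.count
    rw [hlen]
    simp only [Bool.toNat_false, Bool.toNat_true] at h1 ⊢
    change _ ≤ 2 * d.S.card + _ + _
    omega
  · intro hq
    exact absurd hq (by simp)

end Pool.Agent.H53.SQ

end S_LABZ

section S_LAB

/-!
# Module LAB: a planar drawing has many faces (Euler's formula), component by component

`Pin P ps x`: the end (or edge) `x` belongs to the chosen part of the diagram: crossings in `P`, and the
open strand if `ps = true`; the part is closed under `nu`.

PROOF. Let `sel st` be the list of the strands of `st` that belong to the part: `(x, j)` for the entries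
`(inl x, j)` with `Pin P ps x` (`List.filterMap`). Claim, by induction on `h : Lab O st e t` with
`t.Nodup`: there is `d` with
`Inv O.nu (sel st) (P.filter (fun v => cross v ∈ t)) (decide (ps = true ∧ born ∈ t))
  (decide (ps = true ∧ die ∈ t)) d`
(classical decidability). `nil`: `inv_nil`. `cap₁, cap₂`: `inv_cap` if the edge is in the part, nothing
otherwise. `cup₁, cup₂`: `inv_cup`. `loop₁, loop₂`: not in the part. `cross`: `x, y` are in the part iff
`v ∈ P` (`hP`), and so are the edges starting at `v`: `inv_cross`; `v` is new by `Nodup`.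
`born`, `die`: `inv_born`, `inv_die` if `ps`, nothing otherwise (for `ps = false` the edge `none`, resp.
the edge `x` with `nu x = none`, is not in the part).
At the end `st = []`, and `Draws` gives: all `v ∈ P` are processed, and `bo = di = ps`. Put
`ℓ = d.iL`, `r = d.iR`; `start` gives `oL x = iL (nu x)`, `oR x = iR (nu x)` for all `x` of the part; so
`feq`, `die`, `born` give the equations. The labels in `S` are `g 0`, which is recorded by `count0`, and
recorded labels (`cov`), i.e. of the form `ℓ x` or `r x` with `Pin P ps x` (for the records `oL x` use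
`nu x` and `hP`). `count0`: `2 * P.card + 4 ≤ 2 * S.card + 2 * ps.toNat`.
-/

namespace Pool.Agent.H53.SQ

variable {V : Type}

def Pin (P : Finset V) (ps : Bool) : Option (V × Bool) → Prop
  | none => ps = true
  | some z => z.1 ∈ P

open Classical in
/-- the strands of the part -/
noncomputable def LAB_sel (P : Finset V) (ps : Bool) {L : ℕ} (st : List (Edge V L × ℕ)) :
    List (Option (V × Bool) × ℕ) :=
  st.filterMap (fun s => match s with
    | (Sum.inl x, j) => if Pin P ps x then some (x, j) else none
    | (Sum.inr _, _) => none)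

theorem LAB_sel_append (P : Finset V) (ps : Bool) {L : ℕ} (A B : List (Edge V L × ℕ)) :
    LAB_sel P ps (A ++ B) = LAB_sel P ps A ++ LAB_sel P ps B := by
  simp [LAB_sel, List.filterMap_append]

theorem LAB_sel_nil (P : Finset V) (ps : Bool) {L : ℕ} :
    LAB_sel P ps ([] : List (Edge V L × ℕ)) = [] := rfl

theorem LAB_sel_pos (P : Finset V) (ps : Bool) {L : ℕ} (x : Option (V × Bool)) (j : ℕ)
    (B : List (Edge V L × ℕ)) (h : Pin P ps x) :
    LAB_sel P ps ((Sum.inl x, j) :: B) = (x, j) :: LAB_sel P ps B := by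
  unfold LAB_sel
  rw [List.filterMap_cons_some]
  simp [h]

theorem LAB_sel_neg (P : Finset V) (ps : Bool) {L : ℕ} (x : Option (V × Bool)) (j : ℕ)
    (B : List (Edge V L × ℕ)) (h : ¬ Pin P ps x) :
    LAB_sel P ps ((Sum.inl x, j) :: B) = LAB_sel P ps B := by
  unfold LAB_sel
  rw [List.filterMap_cons_none]
  simp [h]

theorem LAB_sel_inr (P : Finset V) (ps : Bool) {L : ℕ} (i : Fin L) (j : ℕ)
    (B : List (Edge V L × ℕ)) :
    LAB_sel P ps ((Sum.inr i, j) :: B) = LAB_sel P ps B := by
  unfold LAB_sel
  rw [List.filterMap_cons_none]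
  rfl

open Classical in
/-- processed crossings of the part -/
noncomputable def LAB_c (P : Finset V) {L : ℕ} (t : List (Tok V L)) : Finset V :=
  P.filter (fun v => Tok.cross v ∈ t)

open Classical in
noncomputable def LAB_b (ps : Bool) {L : ℕ} (t : List (Tok V L)) : Bool := decide (ps = true ∧ Tok.born ∈ t)

open Classical in
noncomputable def LAB_d (ps : Bool) {L : ℕ} (t : List (Tok V L)) : Bool := decide (ps = true ∧ Tok.die ∈ t)

theorem LAB_c_cons (P : Finset V) {L : ℕ} (t : List (Tok V L)) (a : Tok V L)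
    (ha : ∀ v, Tok.cross v ≠ a) : LAB_c P (a :: t) = LAB_c P t := by
  classical
  ext u
  simp only [LAB_c, Finset.mem_filter, List.mem_cons]
  constructor
  · rintro ⟨h, h' | h'⟩
    · exact absurd h' (ha u)
    · exact ⟨h, h'⟩
  · rintro ⟨h, h'⟩
    exact ⟨h, Or.inr h'⟩

theorem LAB_main [DecidableEq V] (O : Code V) (P : Finset V) (ps : Bool)
    (hP : ∀ x, Pin P ps (O.nu x) ↔ Pin P ps x) {st : List (Edge V O.loops × ℕ)} {e : List Gen}
    {t : List (Tok V O.loops)} (h : Lab O st e t) (ht : t.Nodup) :
    ∃ d : Lbl V, Inv O.nu (LAB_sel P ps st) (LAB_c P t) (LAB_b ps t) (LAB_d ps t) d := by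
  induction h with
  | nil =>
    have h1 : LAB_c P ([] : List (Tok V O.loops)) = ∅ := by simp [LAB_c]
    have h2 : LAB_b ps ([] : List (Tok V O.loops)) = false := by simp [LAB_b]
    have h3 : LAB_d ps ([] : List (Tok V O.loops)) = false := by simp [LAB_d]
    rw [h1, h2, h3]
    exact inv_nil O.nu
  | cup₁ A B x j e t h ih =>
    obtain ⟨d, hd⟩ := ih (List.nodup_cons.mp ht).2
    have h1 : LAB_c P (Tok.bend x j :: t) = LAB_c P t := LAB_c_cons P t _ (by intro v h; cases h)
    have h2 : LAB_b ps (Tok.bend x j :: t) = LAB_b ps t := by simp [LAB_b]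
    have h3 : LAB_d ps (Tok.bend x j :: t) = LAB_d ps t := by simp [LAB_d]
    rw [h1, h2, h3, LAB_sel_append]
    rw [LAB_sel_append] at hd
    rcases x with x | i
    · by_cases hx : Pin P ps x
      · rw [LAB_sel_pos _ _ _ _ _ hx, LAB_sel_pos _ _ _ _ _ hx] at hd
        exact inv_cup O.nu _ _ _ _ _ d x j true (by simpa using hd)
      · rw [LAB_sel_neg _ _ _ _ _ hx, LAB_sel_neg _ _ _ _ _ hx] at hd
        exact ⟨d, hd⟩
    · rw [LAB_sel_inr, LAB_sel_inr] at hd
      exact ⟨d, hd⟩
  | cup₂ A B x j e t h ih =>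
    obtain ⟨d, hd⟩ := ih (List.nodup_cons.mp ht).2
    have h1 : LAB_c P (Tok.bend x j :: t) = LAB_c P t := LAB_c_cons P t _ (by intro v h; cases h)
    have h2 : LAB_b ps (Tok.bend x j :: t) = LAB_b ps t := by simp [LAB_b]
    have h3 : LAB_d ps (Tok.bend x j :: t) = LAB_d ps t := by simp [LAB_d]
    rw [h1, h2, h3, LAB_sel_append]
    rw [LAB_sel_append] at hd
    rcases x with x | i
    · by_cases hx : Pin P ps x
      · rw [LAB_sel_pos _ _ _ _ _ hx, LAB_sel_pos _ _ _ _ _ hx] at hd
        exact inv_cup O.nu _ _ _ _ _ d x j false (by simpa using hd)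
      · rw [LAB_sel_neg _ _ _ _ _ hx, LAB_sel_neg _ _ _ _ _ hx] at hd
        exact ⟨d, hd⟩
    · rw [LAB_sel_inr, LAB_sel_inr] at hd
      exact ⟨d, hd⟩
  | cap₁ A B x j e t h ih =>
    obtain ⟨d, hd⟩ := ih ht
    rw [LAB_sel_append]
    rw [LAB_sel_append] at hd
    rcases x with x | i
    · by_cases hx : Pin P ps x
      · rw [LAB_sel_pos _ _ _ _ _ hx, LAB_sel_pos _ _ _ _ _ hx]
        have := inv_cap O.nu _ _ _ _ _ d hd x j false
        simpa using this
      · rw [LAB_sel_neg _ _ _ _ _ hx, LAB_sel_neg _ _ _ _ _ hx]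
        exact ⟨d, hd⟩
    · rw [LAB_sel_inr, LAB_sel_inr]
      exact ⟨d, hd⟩
  | cap₂ A B x j e t h ih =>
    obtain ⟨d, hd⟩ := ih ht
    rw [LAB_sel_append]
    rw [LAB_sel_append] at hd
    rcases x with x | i
    · by_cases hx : Pin P ps x
      · rw [LAB_sel_pos _ _ _ _ _ hx, LAB_sel_pos _ _ _ _ _ hx]
        have := inv_cap O.nu _ _ _ _ _ d hd x j true
        simpa using this
      · rw [LAB_sel_neg _ _ _ _ _ hx, LAB_sel_neg _ _ _ _ _ hx]
        exact ⟨d, hd⟩
    · rw [LAB_sel_inr, LAB_sel_inr]
      exact ⟨d, hd⟩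
  | loop₁ A B i j e t h ih =>
    obtain ⟨d, hd⟩ := ih (List.nodup_cons.mp ht).2
    have h1 : LAB_c P (Tok.loop i :: t) = LAB_c P t := LAB_c_cons P t _ (by intro v h; cases h)
    have h2 : LAB_b ps (Tok.loop i :: t) = LAB_b ps t := by simp [LAB_b]
    have h3 : LAB_d ps (Tok.loop i :: t) = LAB_d ps t := by simp [LAB_d]
    rw [h1, h2, h3, LAB_sel_append]
    rw [LAB_sel_append, LAB_sel_inr, LAB_sel_inr] at hd
    exact ⟨d, hd⟩
  | loop₂ A B i j e t h ih =>
    obtain ⟨d, hd⟩ := ih (List.nodup_cons.mp ht).2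
    have h1 : LAB_c P (Tok.loop i :: t) = LAB_c P t := LAB_c_cons P t _ (by intro v h; cases h)
    have h2 : LAB_b ps (Tok.loop i :: t) = LAB_b ps t := by simp [LAB_b]
    have h3 : LAB_d ps (Tok.loop i :: t) = LAB_d ps t := by simp [LAB_d]
    rw [h1, h2, h3, LAB_sel_append]
    rw [LAB_sel_append, LAB_sel_inr, LAB_sel_inr] at hd
    exact ⟨d, hd⟩
  | cross A B v x y i j e t hx hy h ih =>
    obtain ⟨hvt, ht'⟩ := List.nodup_cons.mp ht
    obtain ⟨d, hd⟩ := ih ht'
    have h2 : LAB_b ps (Tok.cross v :: t) = LAB_b ps t := by simp [LAB_b]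
    have h3 : LAB_d ps (Tok.cross v :: t) = LAB_d ps t := by simp [LAB_d]
    have hpx : Pin P ps x ↔ v ∈ P := by rw [← hP x, hx]; rfl
    have hpy : Pin P ps y ↔ v ∈ P := by rw [← hP y, hy]; rfl
    have hpF : ∀ s : Bool, Pin P ps (some (v, s)) ↔ v ∈ P := fun s => Iff.rfl
    rw [h2, h3, LAB_sel_append]
    rw [LAB_sel_append] at hd
    by_cases hv : v ∈ P
    · have h1 : LAB_c P (Tok.cross v :: t) = insert v (LAB_c P t) := by
        ext u
        simp only [LAB_c, Finset.mem_filter, Finset.mem_insert, List.mem_cons, Tok.cross.injEq]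
        constructor
        · rintro ⟨hu, rfl | hu'⟩
          · exact Or.inl rfl
          · exact Or.inr ⟨hu, hu'⟩
        · rintro (rfl | ⟨hu, hu'⟩)
          · exact ⟨hv, Or.inl rfl⟩
          · exact ⟨hu, Or.inr hu'⟩
      have hvc : v ∉ LAB_c P t := by
        simp only [LAB_c, Finset.mem_filter, not_and]
        intro _
        exact hvt
      rw [h1, LAB_sel_pos _ _ _ _ _ (hpx.mpr hv), LAB_sel_pos _ _ _ _ _ (hpy.mpr hv)]
      rw [LAB_sel_pos _ _ _ _ _ ((hpF false).mpr hv), LAB_sel_pos _ _ _ _ _ ((hpF true).mpr hv)] at hd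
      exact inv_cross O.nu _ _ _ _ _ d v hvc hd x y i j hx hy
    · have h1 : LAB_c P (Tok.cross v :: t) = LAB_c P t := by
        ext u
        simp only [LAB_c, Finset.mem_filter, List.mem_cons, Tok.cross.injEq]
        constructor
        · rintro ⟨hu, rfl | hu'⟩
          · exact absurd hu hv
          · exact ⟨hu, hu'⟩
        · rintro ⟨hu, hu'⟩
          exact ⟨hu, Or.inr hu'⟩
      rw [h1, LAB_sel_neg _ _ _ _ _ (fun h => hv (hpx.mp h)), LAB_sel_neg _ _ _ _ _ (fun h => hv (hpy.mp h))]
      rw [LAB_sel_neg _ _ _ _ _ (fun h => hv ((hpF false).mp h)),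
        LAB_sel_neg _ _ _ _ _ (fun h => hv ((hpF true).mp h))] at hd
      exact ⟨d, hd⟩
  | born A B e t h ih =>
    obtain ⟨hvt, ht'⟩ := List.nodup_cons.mp ht
    obtain ⟨d, hd⟩ := ih ht'
    have h1 : LAB_c P (Tok.born :: t) = LAB_c P t := LAB_c_cons P t _ (by intro v h; cases h)
    have h3 : LAB_d ps (Tok.born :: t) = LAB_d ps t := by simp [LAB_d]
    rw [h1, h3, LAB_sel_append]
    rw [LAB_sel_append] at hd
    by_cases hps : ps = true
    · have h2 : LAB_b ps (Tok.born :: t) = true := by simp [LAB_b, hps]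
      have h2' : LAB_b ps t = false := by simp [LAB_b, hvt]
      rw [LAB_sel_pos _ _ _ _ _ (show Pin P ps none from hps), h2'] at hd
      rw [h2]
      exact inv_born O.nu _ _ _ _ d hd
    · have h2 : LAB_b ps (Tok.born :: t) = LAB_b ps t := by simp [LAB_b, hps]
      rw [LAB_sel_neg _ _ _ _ _ (show ¬ Pin P ps none from hps)] at hd
      rw [h2]
      exact ⟨d, hd⟩
  | die A B x j e t hx h ih =>
    obtain ⟨hvt, ht'⟩ := List.nodup_cons.mp ht
    obtain ⟨d, hd⟩ := ih ht'
    have h1 : LAB_c P (Tok.die :: t) = LAB_c P t := LAB_c_cons P t _ (by intro v h; cases h)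
    have h2 : LAB_b ps (Tok.die :: t) = LAB_b ps t := by simp [LAB_b]
    have hpx : Pin P ps x ↔ ps = true := by rw [← hP x, hx]; rfl
    rw [h1, h2, LAB_sel_append]
    rw [LAB_sel_append] at hd
    by_cases hps : ps = true
    · have h3 : LAB_d ps (Tok.die :: t) = true := by simp [LAB_d, hps]
      have h3' : LAB_d ps t = false := by simp [LAB_d, hvt]
      rw [h3'] at hd
      rw [h3, LAB_sel_pos _ _ _ _ _ (hpx.mpr hps)]
      exact inv_die O.nu _ _ _ _ d hd x j hx
    · have h3 : LAB_d ps (Tok.die :: t) = LAB_d ps t := by simp [LAB_d, hps]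
      rw [h3, LAB_sel_neg _ _ _ _ _ (fun h => hps (hpx.mp h))]
      exact ⟨d, hd⟩

theorem faces [Fintype V] [DecidableEq V] (O : Code V) (e : List Gen) (hD : Draws O e)
    (P : Finset V) (ps : Bool) (hP : ∀ x, Pin P ps (O.nu x) ↔ Pin P ps x)
    (hne : ps = true ∨ P.Nonempty) :
    ∃ ℓ r : Option (V × Bool) → ℕ,
      (∀ v ∈ P, r (some (v, false)) = ℓ (some (v, true)) ∧
        r (O.nu (some (v, false))) = ℓ (O.nu (some (v, true))) ∧
        ℓ (some (v, false)) = ℓ (O.nu (some (v, false))) ∧
        r (some (v, true)) = r (O.nu (some (v, true)))) ∧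
      (ps = true → ℓ (O.nu none) = r (O.nu none) ∧ ℓ none = r none) ∧
      ∃ S : Finset ℕ, (∀ a ∈ S, ∃ x, Pin P ps x ∧ (a = ℓ x ∨ a = r x)) ∧
        P.card + (if ps then 1 else 2) ≤ S.card := by
  obtain ⟨t, hLab, hnd, hcr, _, hborn, hdie⟩ := hD
  obtain ⟨d, hd⟩ := LAB_main O P ps hP hLab hnd
  have h1 : LAB_c P t = P := by
    ext u
    simp [LAB_c, hcr]
  have h2 : LAB_b ps t = ps := by
    cases ps <;> simp [LAB_b, hborn]
  have h3 : LAB_d ps t = ps := by
    cases ps <;> simp [LAB_d, hdie]
  rw [h1, h2, h3, LAB_sel_nil] at hd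
  have hDone : ∀ x, Done P ps x ↔ Pin P ps x := by
    intro x
    cases x <;> rfl
  have hstart : ∀ x, Pin P ps x → d.oL x = d.iL (O.nu x) ∧ d.oR x = d.iR (O.nu x) := by
    intro x hx
    rcases hd.start x ((hDone x).mpr hx) with ⟨_, h4, h5⟩ | ⟨i', h', _⟩
    · exact ⟨h4, h5⟩
    · exact absurd h' (by simp)
  have hc0 := hd.count0 rfl (by
    rcases hne with h | h
    · exact Or.inr (Or.inl h)
    · exact Or.inl h)
  refine ⟨d.iL, d.iR, ?_, ?_, d.S, ?_, ?_⟩
  · intro v hv
    obtain ⟨f1, f2, f3, f4⟩ := hd.feq v hv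
    obtain ⟨s1, s2⟩ := hstart (some (v, false)) hv
    obtain ⟨s3, s4⟩ := hstart (some (v, true)) hv
    refine ⟨f1, ?_, ?_, ?_⟩
    · rw [← s2, ← s3, f2]
    · rw [← s1, f3]
    · rw [← s4, f4]
  · intro hps
    obtain ⟨s1, s2⟩ := hstart none hps
    exact ⟨by rw [← s1, ← s2]; exact hd.born hps, hd.die hps⟩
  · have hRec : ∀ a, d.Rec P ps ps a → ∃ x, Pin P ps x ∧ (a = d.iL x ∨ a = d.iR x) := by
      rintro a (⟨x, hx, hax⟩ | ⟨y, hy, hay⟩)
      · obtain ⟨s1, s2⟩ := hstart x ((hDone x).mp hx)
        refine ⟨O.nu x, (hP x).mpr ((hDone x).mp hx), ?_⟩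
        rw [← s1, ← s2]
        exact hax
      · exact ⟨y, (hDone y).mp hy, hay⟩
    intro a ha
    rcases hd.cov a ha with ⟨i, hi, hai⟩ | hr
    · have : i = 0 := by simpa using hi
      rw [this] at hai
      rw [hai]
      exact hRec _ hc0.2
    · exact hRec _ hr
  · have := hc0.1
    cases ps
    · simp at this ⊢
      omega
    · simp at this ⊢
      omega

end Pool.Agent.H53.SQ

end S_LAB
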