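import Mathlib
import Pool.Agent.H53.SQ.Defs
import Pool.Agent.H53.SQ.G1
import Pool.Agent.H53.SQ.G2
import Pool.Agent.H53.SQ.G3
import Pool.Agent.H53.SQ.G4
import Pool.Agent.H53.SQ.G5
import Pool.Agent.H53.SQ.G6

/-! Part G7 of the proof for MP_41dcdb_gt: this file joins the modules CTR, ASMA, ASM, QAL, FIN. -/

section S_CTR

/-!
# Module CTR: the labelled contour

`lct nu ℓ r b` is `ct b` with the labels before and after each letter: the faces met when going around
the bar.

PROOFS: inductions on `b`.
* `lct_ids`: immediate.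
* `lct_chain`: `it v false r'` (`x = some (v, false)`): the letter goes from `r (v,F)` to `r (nu (v,F))`, the
  rest starts there; `LC`: `ℓ (nu (v,F)) = ℓ (v,F)`. `it v true r'`: `RC` starts at `r (nu (v,T)) = r (v,T)`;
  `LC` ends in `ℓ (nu (v,T))`, then the letter to `ℓ (v,T)`.
  For `ch` with the name `g`: `ret : ℓ g → r g`, `top : r g → ℓ g`; the child goes from its start `x'` to `g`:
  `RC c : r x' → r g`, `LC c : ℓ g → ℓ x'`.
  `br` (`g = (v,T)`, `x = (v,F)`, `x' = nu (v,T)`, rest from `nu (v,F)`): `r x = r (v,F) = ℓ (v,T) = ℓ g`, `ret`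
  to `r g = r (v,T) = r (nu (v,T)) = r x'`, `RC c`, `top`, `LC c` to `ℓ x' = ℓ (nu (v,T)) = r (nu (v,F))`,
  `RC` of the rest. `LC`: `ℓ (nu (v,F)) = ℓ (v,F)`.
  `bl` (`g = (v,F)`, `x = (v,T)`, `x' = nu (v,F)`, rest from `nu (v,T)`): `r x = r (nu (v,T))`. `LC`: rest to
  `ℓ (nu (v,T)) = r (nu (v,F)) = r x'`, `RC c`, `top`, `LC c` to `ℓ x' = ℓ (nu (v,F)) = ℓ (v,F) = ℓ g`, `ret` to
  `r g = r (v,F) = ℓ (v,T) = ℓ x`.
  `jl` (`g = (v,T)`, `x = (v,F)`, `x' = nu (v,F)`, rest from `nu (v,T)`): `r x = ℓ g`, `ret` to
  `r g = r (nu (v,T))`. `LC`: rest to `ℓ (nu (v,T)) = r (nu (v,F)) = r x'`, `RC c`, `top`, `LC c` to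
  `ℓ x' = ℓ (v,F) = ℓ x`.
  `jr` (`g = (v,F)`, `x = (v,T)`, `x' = nu (v,T)`, rest from `nu (v,F)`): `r x = r (v,T) = r x'`, `RC c`, `top`,
  `LC c` to `ℓ x' = ℓ (nu (v,T)) = r (nu (v,F))`, rest. `LC`: rest to `ℓ (nu (v,F)) = ℓ (v,F) = ℓ g`, `ret` to
  `r g = r (v,F) = ℓ (v,T) = ℓ x`.
* `lct_labels`: every end `z ∈ eps b` is the start `x` of a (sub)bar, or the name (= end) of a child;
  `r x` is the start of `RC`, `ℓ x` the end of `LC`, `r g, ℓ g` are labels of `top`. For the empty list a
  label is only a start/end label, so the claim is about the labels of the letters together with the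
  four end labels `r x, r y, ℓ y, ℓ x`.
* `lct_perm`: each `ch` contributes `ret` and `top`.
-/

namespace Pool.Agent.H53.SQ

variable {V : Type}

abbrev LLt (V : Type) (L : ℕ) := (V ⊕ Nm V L) × ℕ × ℕ

section
variable (L : ℕ) (nu : Option (V × Bool) → Option (V × Bool)) (ℓ r : Option (V × Bool) → ℕ)

def rL (g : V × Bool) : LLt V L := (Sum.inr (Sum.inl g), ℓ (some g), r (some g))

def tL (g : V × Bool) : LLt V L := (Sum.inr (Sum.inl g), r (some g), ℓ (some g))

/-- the letter of a generic item -/
def gL (z : V × Bool) : LLt V L :=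
  if z.2 then (Sum.inl z.1, ℓ (nu (some z)), ℓ (some z))
  else (Sum.inl z.1, r (some z), r (nu (some z)))

def lct : BT V → List (LLt V L) × List (LLt V L)
  | .nil => ([], [])
  | .it v false q => (gL L nu ℓ r (v, false) :: (lct q).1, (lct q).2)
  | .it v true q => ((lct q).1, (lct q).2 ++ [gL L nu ℓ r (v, true)])
  | .ch false v false c q =>
      (rL L ℓ r (v, true) :: ((lct c).1 ++ tL L ℓ r (v, true) :: ((lct c).2 ++ (lct q).1)),
        (lct q).2)
  | .ch false v true c q =>
      ((lct q).1,
        (lct q).2 ++ ((lct c).1 ++ tL L ℓ r (v, false) :: ((lct c).2 ++ [rL L ℓ r (v, false)])))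
  | .ch true v false c q =>
      (rL L ℓ r (v, true) :: (lct q).1,
        (lct q).2 ++ ((lct c).1 ++ tL L ℓ r (v, true) :: (lct c).2))
  | .ch true v true c q =>
      ((lct c).1 ++ tL L ℓ r (v, false) :: ((lct c).2 ++ (lct q).1),
        (lct q).2 ++ [rL L ℓ r (v, false)])

/-- the face equations at the crossing `v` -/
def Feq (v : V) : Prop :=
  r (some (v, false)) = ℓ (some (v, true)) ∧
    r (nu (some (v, false))) = ℓ (nu (some (v, true))) ∧
    ℓ (some (v, false)) = ℓ (nu (some (v, false))) ∧
    r (some (v, true)) = r (nu (some (v, true)))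

theorem lct_ids (b : BT V) :
    (lct L nu ℓ r b).1.map Prod.fst = (RC b : List (Lt V L)).map Prod.fst ∧
      (lct L nu ℓ r b).2.map Prod.fst = (LC b : List (Lt V L)).map Prod.fst := by
  induction b with
  | nil => simp [lct]
  | it v s q ih =>
    cases s
    · simp [lct, gL, ih]
    · simp [lct, gL, ih]
  | ch j v s c q ihc ihq =>
    cases j <;> cases s
    · simp [lct, rL, tL, retL, topL, ihc, ihq]
    · simp [lct, rL, tL, retL, topL, ihc, ihq]
    · simp [lct, rL, tL, retL, topL, ihc, ihq]
    · simp [lct, rL, tL, retL, topL, ihc, ihq]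

theorem ctr_append {ι : Type} {a b c : ℕ} {A B : List (ι × ℕ × ℕ)} (h1 : Chain a A b)
    (h2 : Chain b B c) : Chain a (A ++ B) c := by
  induction h1 with
  | nil a => simpa using h2
  | cons i a b' c' l h ih => exact Chain.cons i a b' _ _ (ih h2)

theorem ctr_end {ι : Type} {a c : ℕ} {A : List (ι × ℕ × ℕ)} (h : Chain a A c) :
    c = a ∨ c ∈ A.map (·.2.2) := by
  induction h with
  | nil a => exact Or.inl rfl
  | cons i a b c l h ih =>
    right
    rcases ih with ih | ih
    · simp [ih]
    · simp only [List.map_cons, List.mem_cons]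
      exact Or.inr ih

theorem ctr_one {ι : Type} (i : ι) (a b : ℕ) : Chain a [(i, a, b)] b :=
  Chain.cons i a b b [] (Chain.nil b)

theorem lct_chain (b : BT V) (x y : Option (V × Bool)) (h : Path nu b x y)
    (hF : ∀ z ∈ eps b, Feq nu ℓ r z.1) :
    Chain (r x) (lct L nu ℓ r b).1 (r y) ∧ Chain (ℓ y) (lct L nu ℓ r b).2 (ℓ x) := by
  induction b generalizing x y with
  | nil =>
    have h' : x = y := h
    subst h'
    exact ⟨Chain.nil _, Chain.nil _⟩
  | it v s q ih =>
    obtain ⟨rfl, hq⟩ := h
    obtain ⟨h1, h2⟩ := ih _ _ hq (fun z hz => hF z (List.mem_cons_of_mem _ hz))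
    obtain ⟨f1, f2, f3, f4⟩ := hF (v, s) (by simp [eps])
    cases s
    · refine ⟨?_, ?_⟩
      · simpa [lct, gL] using Chain.cons (Sum.inl v) _ _ _ _ h1
      · rw [f3]
        exact h2
    · refine ⟨?_, ?_⟩
      · rw [f4]
        exact h1
      · simpa [lct, gL] using ctr_append h2 (ctr_one (Sum.inl v) _ _)
  | ch j v s c q ihc ihq =>
    obtain ⟨rfl, hq, hc⟩ := h
    obtain ⟨f1, f2, f3, f4⟩ := hF (v, s) (by simp [eps])
    have hFq : ∀ z ∈ eps q, Feq nu ℓ r z.1 := fun z hz => hF z (by simp [eps, hz])
    have hFc : ∀ z ∈ eps c, Feq nu ℓ r z.1 := fun z hz => hF z (by simp [eps, hz])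
    cases j <;> cases s
    · simp only [Bool.false_eq_true, if_false, Bool.not_false] at hq hc
      obtain ⟨q1, q2⟩ := ihq _ _ hq hFq
      obtain ⟨c1, c2⟩ := ihc _ _ hc hFc
      refine ⟨?_, ?_⟩
      · simp only [lct, rL, tL]
        simp only at f1 f2 f3 f4
        rw [f1]
        refine Chain.cons _ _ _ _ _ ?_
        rw [f4]
        rw [← f4] at c1
        rw [f4] at c1
        refine ctr_append c1 ?_
        rw [← f4]
        refine Chain.cons _ _ _ _ _ ?_
        refine ctr_append c2 ?_
        rw [← f2]
        exact q1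
      · simp only [lct]
        rw [f3]
        exact q2
    · simp only [Bool.false_eq_true, if_false, Bool.not_true] at hq hc
      obtain ⟨q1, q2⟩ := ihq _ _ hq hFq
      obtain ⟨c1, c2⟩ := ihc _ _ hc hFc
      refine ⟨?_, ?_⟩
      · simp only [lct]
        rw [f4]
        exact q1
      · simp only [lct, rL, tL]
        refine ctr_append q2 ?_
        rw [← f2]
        refine ctr_append c1 ?_
        refine Chain.cons _ _ _ _ _ ?_
        refine ctr_append c2 ?_
        rw [← f3, ← f1]
        exact ctr_one _ _ _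
    · simp only [if_true, Bool.not_false] at hq hc
      obtain ⟨q1, q2⟩ := ihq _ _ hq hFq
      obtain ⟨c1, c2⟩ := ihc _ _ hc hFc
      refine ⟨?_, ?_⟩
      · simp only [lct, rL]
        rw [f1]
        refine Chain.cons _ _ _ _ _ ?_
        rw [f4]
        exact q1
      · simp only [lct, tL]
        refine ctr_append q2 ?_
        rw [← f2]
        refine ctr_append c1 ?_
        refine Chain.cons _ _ _ _ _ ?_
        rw [f3]
        exact c2
    · simp only [if_true, Bool.not_true] at hq hc
      obtain ⟨q1, q2⟩ := ihq _ _ hq hFq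
      obtain ⟨c1, c2⟩ := ihc _ _ hc hFc
      refine ⟨?_, ?_⟩
      · simp only [lct, tL]
        rw [f4]
        refine ctr_append c1 ?_
        refine Chain.cons _ _ _ _ _ ?_
        refine ctr_append c2 ?_
        rw [← f2]
        exact q1
      · simp only [lct, rL]
        refine ctr_append q2 ?_
        rw [← f3, ← f1]
        exact ctr_one _ _ _

theorem ctr_labels (b : BT V) (x y : Option (V × Bool)) (h : Path nu b x y)
    (hF : ∀ z ∈ eps b, Feq nu ℓ r z.1) (z : V × Bool) (hz : z ∈ eps b) (a : ℕ)
    (ha : a = ℓ (some z) ∨ a = r (some z)) :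
    a ∈ (lct L nu ℓ r b).1.map (·.2.2) ∨ a ∈ (lct L nu ℓ r b).2.map (·.2.2) ∨
      a = r x ∨ a = ℓ y := by
  have hch := lct_chain L nu ℓ r b x y h hF
  have hx : z = z → x = some z → a ∈ (lct L nu ℓ r b).1.map (·.2.2) ∨
      a ∈ (lct L nu ℓ r b).2.map (·.2.2) ∨ a = r x ∨ a = ℓ y := by
    intro _ hxz
    subst hxz
    rcases ha with rfl | rfl
    · rcases ctr_end hch.2 with h1 | h1
      · exact Or.inr (Or.inr (Or.inr h1))
      · exact Or.inr (Or.inl h1)
    · exact Or.inr (Or.inr (Or.inl rfl))
  induction b generalizing x y with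
  | nil => simp [eps] at hz
  | it v s q ih =>
    obtain ⟨rfl, hq⟩ := h
    have hFq : ∀ z ∈ eps q, Feq nu ℓ r z.1 := fun z hz => hF z (List.mem_cons_of_mem _ hz)
    have hq' := lct_chain L nu ℓ r q _ _ hq hFq
    obtain ⟨f1, f2, f3, f4⟩ := hF (v, s) (by simp [eps])
    rcases List.mem_cons.1 hz with rfl | hz
    · exact hx rfl rfl
    · have := ih _ _ hq hFq hz hq' (by
        intro _ he
        rcases ha with rfl | rfl
        · rcases ctr_end hq'.2 with h1 | h1
          · rw [he] at h1
            exact Or.inr (Or.inr (Or.inr h1))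
          · rw [he] at h1
            exact Or.inr (Or.inl h1)
        · exact Or.inr (Or.inr (Or.inl (by rw [he]))))
      cases s
      · rcases this with h1 | h1 | h1 | h1
        · left
          simp only [lct, List.map_cons, List.mem_cons]
          exact Or.inr h1
        · exact Or.inr (Or.inl h1)
        · left
          simp only [lct, List.map_cons, List.mem_cons]
          left
          simpa [gL] using h1
        · exact Or.inr (Or.inr (Or.inr h1))
      · rcases this with h1 | h1 | h1 | h1
        · exact Or.inl h1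
        · right; left
          simp only [lct, List.map_append, List.mem_append]
          exact Or.inl h1
        · right; right; left
          rw [h1]
          exact f4.symm
        · exact Or.inr (Or.inr (Or.inr h1))
  | ch j v s c q ihc ihq =>
    obtain ⟨rfl, hq, hc⟩ := h
    obtain ⟨f1, f2, f3, f4⟩ := hF (v, s) (by simp [eps])
    simp only at f1 f2 f3 f4
    have hFq : ∀ z ∈ eps q, Feq nu ℓ r z.1 := fun z hz => hF z (by simp [eps, hz])
    have hFc : ∀ z ∈ eps c, Feq nu ℓ r z.1 := fun z hz => hF z (by simp [eps, hz])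
    have hq' := lct_chain L nu ℓ r q _ _ hq hFq
    have hc' := lct_chain L nu ℓ r c _ _ hc hFc
    have keyx : ∀ (b : BT V) (x y : Option (V × Bool)),
        (Chain (r x) (lct L nu ℓ r b).1 (r y) ∧ Chain (ℓ y) (lct L nu ℓ r b).2 (ℓ x)) →
        (z = z → x = some z → a ∈ (lct L nu ℓ r b).1.map (·.2.2) ∨
          a ∈ (lct L nu ℓ r b).2.map (·.2.2) ∨ a = r x ∨ a = ℓ y) := by
      intro b x y hb _ he
      rcases ha with rfl | rfl
      · rcases ctr_end hb.2 with h1 | h1
        · rw [he] at h1
          exact Or.inr (Or.inr (Or.inr h1))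
        · rw [he] at h1
          exact Or.inr (Or.inl h1)
      · exact Or.inr (Or.inr (Or.inl (by rw [he])))
    have ihq' := fun hz => ihq _ _ hq hFq hz hq' (keyx _ _ _ hq')
    have ihc' := fun hz => ihc _ _ hc hFc hz hc' (keyx _ _ _ hc')
    have hq2 := ctr_end hq'.2
    have hc2 := ctr_end hc'.2
    have hz' : z = (v, s) ∨ z = (v, !s) ∨ z ∈ eps c ∨ z ∈ eps q := by
      simpa [eps] using hz
    clear hz hq hc hq' hc' ihq ihc keyx hch
    rcases hz' with rfl | rfl | hz | hz
    · exact hx rfl rfl
    · clear ihq' ihc' hx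
      cases j <;> cases s <;>
        simp only [lct, rL, tL, List.map_cons, List.map_append, List.mem_cons, List.mem_append,
          Bool.not_false, Bool.not_true, List.map_nil, List.not_mem_nil, or_false] at ha ⊢ <;>
        rcases ha with ha | ha <;> simp [ha]
    · have h0 := ihc' hz
      clear ihq' ihc' hx hF hFq hFc f1 f3 hc2 hz ha
      cases j <;> cases s <;>
        simp only [lct, rL, tL, List.map_cons, List.map_append, List.mem_cons, List.mem_append,
          Bool.not_false, Bool.not_true, Bool.false_eq_true, if_false, if_true,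
          List.map_nil, List.not_mem_nil, or_false] at h0 hq2 ⊢
      · rcases h0 with h0 | h0 | h0 | h0
        · tauto
        · tauto
        · rw [← f4] at h0; tauto
        · tauto
      · rcases h0 with h0 | h0 | h0 | h0
        · tauto
        · tauto
        · rw [f2] at h0
          rw [← h0] at hq2
          tauto
        · tauto
      · rcases h0 with h0 | h0 | h0 | h0
        · tauto
        · tauto
        · rw [f2] at h0
          rw [← h0] at hq2
          tauto
        · tauto
      · rcases h0 with h0 | h0 | h0 | h0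
        · tauto
        · tauto
        · rw [← f4] at h0; tauto
        · tauto
    · have h0 := ihq' hz
      clear ihq' ihc' hx hF hFq hFc f1 f3 hq2 hz ha
      cases j <;> cases s <;>
        simp only [lct, rL, tL, List.map_cons, List.map_append, List.mem_cons, List.mem_append,
          Bool.not_false, Bool.not_true, Bool.false_eq_true, if_false, if_true,
          List.map_nil, List.not_mem_nil, or_false] at h0 hc2 ⊢
      · rcases h0 with h0 | h0 | h0 | h0
        · tauto
        · tauto
        · rw [f2] at h0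
          rw [← h0] at hc2
          tauto
        · tauto
      · rcases h0 with h0 | h0 | h0 | h0
        · tauto
        · tauto
        · rw [← f4] at h0; tauto
        · tauto
      · rcases h0 with h0 | h0 | h0 | h0
        · tauto
        · tauto
        · rw [← f4] at h0; tauto
        · tauto
      · rcases h0 with h0 | h0 | h0 | h0
        · tauto
        · tauto
        · rw [f2] at h0
          rw [← h0] at hc2
          tauto
        · tauto

theorem lct_labels (b : BT V) (x y : Option (V × Bool)) (h : Path nu b x y)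
    (hF : ∀ z ∈ eps b, Feq nu ℓ r z.1) (z : V × Bool) (hz : z ∈ eps b) (a : ℕ)
    (ha : a = ℓ (some z) ∨ a = r (some z)) :
    a ∈ ((lct L nu ℓ r b).1 ++ (lct L nu ℓ r b).2).map (·.2.2) ∨
      a = r x ∨ a = r y ∨ a = ℓ y ∨ a = ℓ x := by
  have := ctr_labels L nu ℓ r b x y h hF z hz a ha
  rw [List.map_append, List.mem_append]
  tauto

theorem ctr_ms {α : Type} (R T C1 C2 Q1 Q2 F1 F2 G1 G2 W : Multiset α)
    (hc : C1 + C2 = F1 + G1) (hq : Q1 + Q2 = F2 + G2)
    (h : W = R + T + (C1 + C2) + (Q1 + Q2)) : W = R + T + (F1 + F2) + (G1 + G2) := by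
  rw [h, hc, hq]
  abel

theorem lct_perm (b : BT V) :
    ((lct L nu ℓ r b).1 ++ (lct L nu ℓ r b).2).Perm
      ((nms b).flatMap (fun g => [rL L ℓ r g, tL L ℓ r g]) ++ (gls b).map (gL L nu ℓ r)) := by
  induction b with
  | nil => simp [lct, nms, gls]
  | it v s q ih =>
    rw [← Multiset.coe_eq_coe] at ih ⊢
    cases s
    · simp only [lct, nms, gls, List.map_cons, ← Multiset.coe_add, ← Multiset.cons_coe] at ih ⊢
      rw [Multiset.cons_add, ih, Multiset.add_cons]
    · simp only [lct, nms, gls, List.map_cons, ← Multiset.coe_add, ← Multiset.cons_coe] at ih ⊢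
      rw [← add_assoc, ih, Multiset.add_cons, Multiset.coe_nil, Multiset.add_cons, add_zero]
  | ch j v s c q ihc ihq =>
    rw [← Multiset.coe_eq_coe] at ihc ihq ⊢
    cases j <;> cases s <;>
      simp only [lct, nms, gls, List.map_append, List.flatMap_cons,
        List.flatMap_append, ← Multiset.coe_add, ← Multiset.cons_coe, Multiset.coe_nil,
        ← Multiset.singleton_add, Bool.not_false, Bool.not_true, add_zero] at ihc ihq ⊢
    all_goals
      generalize ((lct L nu ℓ r c).1 : Multiset (LLt V L)) = C1 at *
      generalize ((lct L nu ℓ r c).2 : Multiset (LLt V L)) = C2 at *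
      generalize ((lct L nu ℓ r q).1 : Multiset (LLt V L)) = Q1 at *
      generalize ((lct L nu ℓ r q).2 : Multiset (LLt V L)) = Q2 at *
      exact ctr_ms _ _ _ _ _ _ _ _ _ _ _ ihc ihq (by abel)

end

end Pool.Agent.H53.SQ

end S_CTR

section S_ASMA

/-!
# Module ASMA: the letters of a contour word

PROOFS: inductions on `b`. A letter of `RC b ++ LC b` is `(inl v, s)` with `(v, s) ∈ gls b`, or `retL`/`topL` of
`inl g` with `g ∈ nms b`. `word_nodup`: prove together with the fact that the lists `gls b` and `nms b`
have no repetitions if `eps b` has none; e.g. the word is a permutation of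
`(nms b).flatMap (fun g => [retL (inl g), topL (inl g)]) ++ (gls b).map (fun z => (inl z.1, z.2))`
(`word_perm`), and `gls b ++ nms b` is a sublist (up to permutation) of `eps b`.
`names_open`: `br`: `retL` (opening, `sd = true`) is before `topL` in `RC`; `bl`: `topL` (opening since
`sd = false`) is before `retL` in `LC`; `jl`: `retL` (opening) in `RC`, `topL` in `LC`; `jr`: `topL` (opening)
in `RC`, `retL` in `LC`. For the names deeper in the bar: `RC c ++ LC c`, `RC r ++ LC r` are sublists of
`RC b ++ LC b`. `start_not_name`: the start is the arrival end of the first item, the names are the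
other ends `(v, !s)` of `ch` items; all of them are different entries of `eps b`.
-/

namespace Pool.Agent.H53.SQ

variable {V : Type} {L : ℕ}

theorem word_perm (b : BT V) : (RC b ++ LC b : List (Lt V L)).Perm
    ((nms b).flatMap (fun g => [retL (Sum.inl g), topL (Sum.inl g)]) ++
      (gls b).map (fun z => (Sum.inl z.1, z.2))) := by
  rw [← Multiset.coe_eq_coe, ← Multiset.coe_add, ← Multiset.coe_add]
  induction b with
  | nil => rfl
  | it v s r ih =>
    have hR : (((gls (BT.it v s r)).map (fun z => ((Sum.inl z.1, z.2) : Lt V L)) : List (Lt V L)) : Multiset (Lt V L)) =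
        {((Sum.inl v, s) : Lt V L)} + (((gls r).map (fun z => ((Sum.inl z.1, z.2) : Lt V L)) : List (Lt V L)) : Multiset (Lt V L)) := by
      rw [gls, List.map_cons, ← Multiset.cons_coe, Multiset.singleton_add]
    have hN : nms (BT.it v s r) = nms r := rfl
    rw [hR, hN]
    cases s
    · rw [RC_itL, LC_itL, ← Multiset.cons_coe, ← Multiset.singleton_add, add_assoc, ih]
      abel
    · rw [RC_itR, LC_itR, ← Multiset.coe_add, Multiset.coe_singleton, ← add_assoc, ih]
      abel
  | ch j v s c r ihc ihr =>
    have hR : (((gls (BT.ch j v s c r)).map (fun z => ((Sum.inl z.1, z.2) : Lt V L)) : List (Lt V L)) : Multiset (Lt V L)) =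
        (((gls c).map (fun z => ((Sum.inl z.1, z.2) : Lt V L)) : List (Lt V L)) : Multiset (Lt V L)) +
        (((gls r).map (fun z => ((Sum.inl z.1, z.2) : Lt V L)) : List (Lt V L)) : Multiset (Lt V L)) := by
      rw [gls, List.map_append, Multiset.coe_add]
    have hN : (((nms (BT.ch j v s c r)).flatMap (fun g => [(retL (Sum.inl g) : Lt V L), topL (Sum.inl g)]) : List (Lt V L)) : Multiset (Lt V L)) =
        {(retL (Sum.inl (v, !s)) : Lt V L)} + {(topL (Sum.inl (v, !s)) : Lt V L)} +
        (((nms c).flatMap (fun g => [(retL (Sum.inl g) : Lt V L), topL (Sum.inl g)]) : List (Lt V L)) : Multiset (Lt V L)) +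
        (((nms r).flatMap (fun g => [(retL (Sum.inl g) : Lt V L), topL (Sum.inl g)]) : List (Lt V L)) : Multiset (Lt V L)) := by
      rw [nms, List.flatMap_cons, List.flatMap_append, ← Multiset.coe_add, ← Multiset.coe_add,
        ← Multiset.cons_coe, Multiset.coe_singleton, ← Multiset.singleton_add]
      abel
    rw [hR, hN]
    have key : ({(retL (Sum.inl (v, !s)) : Lt V L)} + {(topL (Sum.inl (v, !s)) : Lt V L)} +
        (((nms c).flatMap (fun g => [(retL (Sum.inl g) : Lt V L), topL (Sum.inl g)]) : List (Lt V L)) : Multiset (Lt V L)) +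
        (((nms r).flatMap (fun g => [(retL (Sum.inl g) : Lt V L), topL (Sum.inl g)]) : List (Lt V L)) : Multiset (Lt V L))) +
        ((((gls c).map (fun z => ((Sum.inl z.1, z.2) : Lt V L)) : List (Lt V L)) : Multiset (Lt V L)) +
        (((gls r).map (fun z => ((Sum.inl z.1, z.2) : Lt V L)) : List (Lt V L)) : Multiset (Lt V L))) =
        {(retL (Sum.inl (v, !s)) : Lt V L)} + {(topL (Sum.inl (v, !s)) : Lt V L)} +
        (((RC c : List (Lt V L)) : Multiset (Lt V L)) + ((LC c : List (Lt V L)) : Multiset (Lt V L))) +
        (((RC r : List (Lt V L)) : Multiset (Lt V L)) + ((LC r : List (Lt V L)) : Multiset (Lt V L))) := by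
      rw [ihc, ihr]
      abel
    rw [key]
    cases j <;> cases s
    · rw [RC_br, LC_br]
      simp only [← Multiset.cons_coe, ← Multiset.coe_add, ← Multiset.singleton_add, Bool.not_false]
      abel
    · rw [RC_bl, LC_bl]
      simp only [← Multiset.cons_coe, ← Multiset.coe_add, ← Multiset.singleton_add, Bool.not_true,
        Multiset.coe_nil, add_zero]
      abel
    · rw [RC_jl, LC_jl]
      simp only [← Multiset.cons_coe, ← Multiset.coe_add, ← Multiset.singleton_add, Bool.not_false]
      abel
    · rw [RC_jr, LC_jr]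
      simp only [← Multiset.cons_coe, ← Multiset.coe_add, ← Multiset.singleton_add, Bool.not_true,
        Multiset.coe_nil, add_zero]
      abel

private theorem ASMA_s1 {α : Type*} {a : α} {A : List α} (h : a ∈ A) : List.Sublist [a] A :=
  List.singleton_sublist.mpr h

theorem names_open (b : BT V) (g : V × Bool) (hg : g ∈ nms b) :
    List.Sublist [(Sum.inr (Sum.inl g), true), (Sum.inr (Sum.inl g), false)]
      (RC b ++ LC b : List (Lt V L)) := by
  induction b with
  | nil => simp [nms] at hg
  | it v s r ih =>
    have hg' : g ∈ nms r := hg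
    refine (ih hg').trans ?_
    cases s
    · rw [RC_itL, LC_itL, List.cons_append]
      exact List.sublist_cons_self _ _
    · rw [RC_itR, LC_itR, ← List.append_assoc]
      exact List.sublist_append_left _ _
  | ch j v s c r ihc ihr =>
    rw [nms, List.mem_cons, List.mem_append] at hg
    have hc : List.Sublist (RC c ++ LC c) (RC (BT.ch j v s c r) ++ LC (BT.ch j v s c r) : List (Lt V L)) := by
      cases j <;> cases s
      · rw [RC_br, LC_br, List.cons_append, List.append_assoc]
        refine List.Sublist.cons _ ((List.Sublist.refl _).append ?_)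
        rw [List.cons_append, List.append_assoc]
        exact List.Sublist.cons _ (List.sublist_append_left _ _)
      · rw [RC_bl, LC_bl]
        refine List.Sublist.trans ?_ (List.sublist_append_right _ _)
        refine List.Sublist.trans ?_ (List.sublist_append_right _ _)
        refine (List.Sublist.refl _).append ?_
        exact List.Sublist.cons _ (List.sublist_append_left _ _)
      · rw [RC_jl, LC_jl]
        refine List.Sublist.trans ?_ (List.sublist_append_right _ _)
        refine List.Sublist.trans ?_ (List.sublist_append_right _ _)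
        exact (List.Sublist.refl _).append (List.sublist_cons_self _ _)
      · rw [RC_jr, LC_jr, List.append_assoc]
        refine (List.Sublist.refl _).append ?_
        rw [List.cons_append, List.append_assoc]
        exact List.Sublist.cons _ (List.sublist_append_left _ _)
    have hr : List.Sublist (RC r ++ LC r) (RC (BT.ch j v s c r) ++ LC (BT.ch j v s c r) : List (Lt V L)) := by
      cases j <;> cases s
      · rw [RC_br, LC_br]
        refine List.Sublist.append ?_ (List.Sublist.refl _)
        refine List.Sublist.cons _ ?_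
        refine List.Sublist.trans ?_ (List.sublist_append_right _ _)
        exact List.Sublist.cons _ (List.sublist_append_right _ _)
      · rw [RC_bl, LC_bl]
        exact (List.Sublist.refl _).append (List.sublist_append_left _ _)
      · rw [RC_jl, LC_jl]
        refine List.Sublist.append ?_ (List.sublist_append_left _ _)
        exact List.sublist_cons_self _ _
      · rw [RC_jr, LC_jr]
        refine List.Sublist.append ?_ (List.sublist_append_left _ _)
        refine List.Sublist.trans ?_ (List.sublist_append_right _ _)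
        exact List.Sublist.cons _ (List.sublist_append_right _ _)
    rcases hg with hg | hg | hg
    · subst hg
      cases j <;> cases s
      · rw [RC_br, LC_br, List.cons_append]
        refine List.Sublist.cons_cons (retL (Sum.inl (v, true)) : Lt V L) ?_
        refine ASMA_s1 ?_
        change (topL (Sum.inl (v, true)) : Lt V L) ∈ _
        simp
      · rw [RC_bl, LC_bl]
        refine List.Sublist.trans ?_ (List.sublist_append_right _ _)
        refine List.Sublist.trans ?_ (List.sublist_append_right _ _)
        refine List.Sublist.trans ?_ (List.sublist_append_right _ _)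
        refine List.Sublist.cons_cons (topL (Sum.inl (v, false)) : Lt V L) ?_
        exact List.sublist_append_right (LC c) [(retL (Sum.inl (v, false)) : Lt V L)]
      · rw [RC_jl, LC_jl, List.cons_append]
        refine List.Sublist.cons_cons (retL (Sum.inl (v, true)) : Lt V L) ?_
        refine ASMA_s1 ?_
        change (topL (Sum.inl (v, true)) : Lt V L) ∈ _
        simp
      · rw [RC_jr, LC_jr, List.append_assoc, List.cons_append]
        refine List.Sublist.trans ?_ (List.sublist_append_right _ _)
        refine List.Sublist.cons_cons (topL (Sum.inl (v, false)) : Lt V L) ?_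
        refine ASMA_s1 ?_
        change (retL (Sum.inl (v, false)) : Lt V L) ∈ _
        simp
    · exact (ihc hg).trans hc
    · exact (ihr hg).trans hr

private theorem ASMA_le (b : BT V) :
    ((gls b : List (V × Bool)) : Multiset (V × Bool)) + ((nms b : List (V × Bool)) : Multiset (V × Bool)) ≤
      ((eps b : List (V × Bool)) : Multiset (V × Bool)) := by
  induction b with
  | nil => simp [gls, nms, eps]
  | it v s r ih =>
    rw [gls, nms, eps, ← Multiset.cons_coe, ← Multiset.cons_coe, Multiset.cons_add]
    exact Multiset.cons_le_cons _ ih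
  | ch j v s c r ihc ihr =>
    rw [gls, nms, eps, ← Multiset.cons_coe, ← Multiset.cons_coe, ← Multiset.cons_coe,
      ← Multiset.coe_add, ← Multiset.coe_add, ← Multiset.coe_add, Multiset.add_cons]
    refine le_trans (Multiset.cons_le_cons _ ?_) (Multiset.le_cons_self _ _)
    have : ((gls c : List (V × Bool)) : Multiset (V × Bool)) + ((gls r : List (V × Bool)) : Multiset (V × Bool)) +
        (((nms c : List (V × Bool)) : Multiset (V × Bool)) + ((nms r : List (V × Bool)) : Multiset (V × Bool))) =
        (((gls c : List (V × Bool)) : Multiset (V × Bool)) + ((nms c : List (V × Bool)) : Multiset (V × Bool))) +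
        (((gls r : List (V × Bool)) : Multiset (V × Bool)) + ((nms r : List (V × Bool)) : Multiset (V × Bool))) := by
      abel
    rw [this]
    exact add_le_add ihc ihr

private theorem ASMA_nd (b : BT V) (hb : (eps b).Nodup) : (gls b ++ nms b).Nodup := by
  have h := ASMA_le b
  have h2 : ((eps b : List (V × Bool)) : Multiset (V × Bool)).Nodup := Multiset.coe_nodup.mpr hb
  have h3 := Multiset.nodup_of_le h h2
  rw [Multiset.coe_add] at h3
  exact Multiset.coe_nodup.mp h3

theorem word_nodup (b : BT V) (hb : (eps b).Nodup) : (RC b ++ LC b : List (Lt V L)).Nodup := by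
  rw [(word_perm b).nodup_iff]
  obtain ⟨hg, hn, -⟩ := List.nodup_append.mp (ASMA_nd b hb)
  rw [List.nodup_append]
  refine ⟨?_, ?_, ?_⟩
  · rw [List.nodup_flatMap]
    refine ⟨?_, ?_⟩
    · intro g _
      simp [retL, topL]
    · refine hn.imp ?_
      intro a b hab
      simp only [Function.onFun, List.disjoint_left]
      intro x hx hy
      simp only [List.mem_cons, List.not_mem_nil, or_false, retL, topL] at hx hy
      apply hab
      rcases hx with rfl | rfl <;> rcases hy with h | h <;>
        exact Sum.inl.inj (Sum.inr.inj (congrArg Prod.fst h))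
  · refine hg.map ?_
    intro a b hab
    simp only [Prod.mk.injEq, Sum.inl.injEq] at hab
    exact Prod.ext hab.1 hab.2
  · intro x hx y hy hxy
    subst hxy
    rw [List.mem_flatMap] at hx
    rw [List.mem_map] at hy
    obtain ⟨g, _, hg⟩ := hx
    obtain ⟨z, _, hz⟩ := hy
    simp only [List.mem_cons, List.not_mem_nil, or_false, retL, topL] at hg
    rcases hg with h | h <;> · rw [← hz] at h; simp at h

theorem nms_sublist (b : BT V) : ∀ g ∈ nms b, g ∈ eps b := by
  intro g hg
  have h := Multiset.mem_of_le (ASMA_le b) (a := g)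
  have : g ∈ ((gls b : List (V × Bool)) : Multiset (V × Bool)) + ((nms b : List (V × Bool)) : Multiset (V × Bool)) :=
    Multiset.mem_add.mpr (Or.inr hg)
  exact h this

theorem nms_nodup (b : BT V) (hb : (eps b).Nodup) : (nms b).Nodup :=
  (List.nodup_append.mp (ASMA_nd b hb)).2.1

/-- the first end of a bar is not a name -/
theorem start_not_name (nu : Option (V × Bool) → Option (V × Bool)) (b : BT V) (g : V × Bool)
    (y : Option (V × Bool)) (h : Path nu b (some g) y) (hb : (eps b).Nodup) : g ∉ nms b := by
  cases b with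
  | nil => simp [nms]
  | it v s r =>
    have hg : g = (v, s) := Option.some.inj h.1
    subst hg
    intro hm
    have h1 : (v, s) ∈ eps r := nms_sublist r _ hm
    exact (List.nodup_cons.mp hb).1 h1
  | ch j v s c r =>
    have hg : g = (v, s) := Option.some.inj h.1
    subst hg
    rw [eps, List.nodup_cons, List.mem_cons, List.mem_append] at hb
    rw [nms, List.mem_cons, List.mem_append]
    rintro (h1 | h1 | h1)
    · have := congrArg Prod.snd h1
      cases s <;> simp at this
    · exact hb.1 (Or.inr (Or.inl (nms_sublist c _ h1)))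
    · exact hb.1 (Or.inr (Or.inr (nms_sublist r _ h1)))

end Pool.Agent.H53.SQ

end S_ASMA

section S_ASM

/-!
# Module ASM: the contour word of a complete component is a correct expression

PROOF. Let `ctx' = none` (open strand: `x = nu none`, `y = none`), or `ctx' = some g` (a root circle:
`x = y = some g`, `g.2 = true`). The labelled word `l` is `(lct b).1 ++ (lct b).2` resp.
`rL g :: ((lct b).1 ++ tL g :: (lct b).2)`; its ids are the ids of `W = wrd .. b`. It is a closed walk
by `lct_chain`: from `r (nu none)` to `r none = ℓ none` to `ℓ (nu none) = r (nu none)`, resp. from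
`ℓ g` to `r g` to `r g` to `ℓ g` to `ℓ g`. Let `vs` be the list (or finset) of the crossings with
`(v, false) ∈ gls b`; then also `(v, true) ∈ gls b`: `(v, true) ∈ eps b`, and it is not an end of a `ch`
item, since then `(v, false)` would occur twice in `eps b`. So `gls b` is a permutation of
`vs.flatMap (fun v => [(v, false), (v, true)])`, and with `lct_perm` and `Feq` the list `l` is a
permutation of the doubled list of
`K = (nms b).map (fun g => (inr (inl g), ℓ g, r g)) ++ vs.map (fun v => (inl v, r (v,F), r (nu (v,F))))`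
(and `(inr (inl g), ℓ g, r g)` for the root). `K.map fst` is `Nodup` (`nms b` is a sublist of `eps b`; the
root name is not in `nms b`: it is the first end of `b`, by `Path`, and `eps b` is `Nodup`).
`2 * #crossings = (eps b).length` and each crossing is either in `vs` or the crossing of exactly one
name, so `K.length = #crossings` (`+ 1`). By `lct_labels` and `hS` all elements of `S` are labels of the
walk (the labels `r none = ℓ none` etc. are, too), so `red_of_chain` applies: `Red (W.map fst)`.
Then `chk_of_red`: `W.Nodup` (`word_nodup`: letters of generic items and names; from `eps b` `Nodup`), and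
every id is opened first: for the names `names_open` (induction on `b`), for the root
`retL` (`sd = true`) is the first letter; for a generic crossing by `Rho` and `red_nocross` (each id
occurs at most twice), the second alternative of `Rho` is impossible.
-/

namespace Pool.Agent.H53.SQ

variable {V : Type} {L : ℕ}

theorem asm_chain_append {ι : Type} {a b c : ℕ} {l₁ l₂ : List (ι × ℕ × ℕ)} (h₁ : Chain a l₁ b)
    (h₂ : Chain b l₂ c) : Chain a (l₁ ++ l₂) c := by
  induction h₁ with
  | nil a => simpa using h₂
  | cons i a b c l h ih => exact Chain.cons i a b _ _ (ih h₂)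

theorem asm_chain_last {ι : Type} {a b : ℕ} {l : List (ι × ℕ × ℕ)} (h : Chain a l b) :
    b = a ∨ b ∈ l.map (·.2.2) := by
  induction h with
  | nil a => exact Or.inl rfl
  | cons i a b c l h ih =>
    rcases ih with h1 | h1
    · right; subst h1; simp
    · right; simp only [List.map_cons, List.mem_cons]; exact Or.inr h1

theorem asm_not_inj {z : V × Bool} : ((z.1, !z.2).1, !(z.1, !z.2).2) = z := by
  rcases z with ⟨v, s⟩; simp

theorem asm_gls_flip (b : BT V) (hb : (eps b).Nodup) (z : V × Bool) (hz : z ∈ gls b)
    (h : (z.1, !z.2) ∈ eps b) : (z.1, !z.2) ∈ gls b := by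
  induction b with
  | nil => simp [gls] at hz
  | it v s r ih =>
    simp only [eps, List.nodup_cons] at hb
    simp only [gls, List.mem_cons] at hz ⊢
    simp only [eps, List.mem_cons] at h
    rcases h with h | h
    · exact Or.inl h
    · rcases hz with hz | hz
      · right
        rcases eps_cases r _ h with h1 | h1
        · exact h1
        · rw [asm_not_inj] at h1
          rw [hz] at h1
          exact absurd h1 hb.1
      · exact Or.inr (ih hb.2 hz h)
  | ch j v s c r ihc ihr =>
    simp only [eps, List.nodup_cons, List.mem_cons, List.mem_append, not_or,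
      List.nodup_append] at hb
    obtain ⟨⟨-, hb1, hb2⟩, ⟨hb3, hb4⟩, hbc, hbr, hdis⟩ := hb
    simp only [gls, List.mem_append] at hz ⊢
    simp only [eps, List.mem_cons, List.mem_append] at h
    have key1 : (z.1, !z.2) = (v, s) → z = (v, !s) := by
      intro h1
      rw [← asm_not_inj (z := z), h1]
    have key2 : (z.1, !z.2) = (v, !s) → z = (v, s) := by
      intro h1
      rw [← asm_not_inj (z := z), h1]
      simp
    rcases h with h | h | h | h
    · have h1 := key1 h
      rcases hz with hz | hz
      · exact absurd (h1 ▸ gls_subset_eps c _ hz) hb3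
      · exact absurd (h1 ▸ gls_subset_eps r _ hz) hb4
    · have h1 := key2 h
      rcases hz with hz | hz
      · exact absurd (h1 ▸ gls_subset_eps c _ hz) hb1
      · exact absurd (h1 ▸ gls_subset_eps r _ hz) hb2
    · rcases hz with hz | hz
      · exact Or.inl (ihc hbc hz h)
      · rcases eps_cases c _ h with h1 | h1
        · exact Or.inl h1
        · rw [asm_not_inj] at h1
          exact absurd rfl (hdis _ h1 _ (gls_subset_eps r _ hz))
    · rcases hz with hz | hz
      · rcases eps_cases r _ h with h1 | h1
        · exact Or.inr h1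
        · rw [asm_not_inj] at h1
          exact absurd rfl (hdis _ (gls_subset_eps c _ hz) _ h1)
      · exact Or.inr (ihr hbr hz h)

theorem asm_len (b : BT V) : (eps b).length = 2 * (nms b).length + (gls b).length := by
  induction b with
  | nil => simp [eps, nms, gls]
  | it v s r ih => simp only [eps, nms, gls, List.length_cons, ih]; omega
  | ch j v s c r ihc ihr =>
    simp only [eps, nms, gls, List.length_cons, List.length_append, ihc, ihr]; omega

theorem asm_gls_nodup (b : BT V) (hb : (eps b).Nodup) : (gls b).Nodup := by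
  have h1 : (RC b ++ LC b : List (Lt V 0)).Nodup := word_nodup b hb
  have h2 := (word_perm (L := 0) b).nodup_iff.mp h1
  have h3 := (List.nodup_append.mp h2).2.1
  exact List.Nodup.of_map _ h3

/-- the crossings of the generic chords -/
def asmVs (b : BT V) : List V := ((gls b).filter (fun z => !z.2)).map Prod.fst

theorem asm_mem_vs (b : BT V) (v : V) : v ∈ asmVs b ↔ (v, false) ∈ gls b := by
  unfold asmVs
  simp only [List.mem_map, List.mem_filter]
  constructor
  · rintro ⟨⟨u, s⟩, ⟨h1, h2⟩, h3⟩
    simp at h2 h3
    subst h2; subst h3; exact h1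
  · intro h
    exact ⟨(v, false), ⟨h, by simp⟩, rfl⟩

theorem asm_vs_nodup (b : BT V) (hb : (eps b).Nodup) : (asmVs b).Nodup := by
  unfold asmVs
  refine List.Nodup.map_on ?_ ((asm_gls_nodup b hb).filter _)
  rintro ⟨u, s⟩ hx ⟨u', s'⟩ hy hxy
  simp only [List.mem_filter] at hx hy
  have h1 := hx.2
  have h2 := hy.2
  simp at h1 h2 hxy
  rw [h1, h2, hxy]

theorem asm_gls_perm [DecidableEq V] (b : BT V) (hb : (eps b).Nodup)
    (hcl : ∀ z ∈ eps b, (z.1, !z.2) ∈ eps b) :
    (gls b).Perm ((asmVs b).flatMap (fun v => [(v, false), (v, true)])) := by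
  rw [List.perm_ext_iff_of_nodup (asm_gls_nodup b hb)]
  · rintro ⟨v, s⟩
    simp only [List.mem_flatMap, asm_mem_vs]
    have key : ∀ s', (v, s') ∈ gls b → (v, !s') ∈ gls b := fun s' h =>
      asm_gls_flip b hb (v, s') h (hcl _ (gls_subset_eps b _ h))
    constructor
    · intro h
      refine ⟨v, ?_, ?_⟩
      · cases s
        · exact h
        · exact key true h
      · cases s <;> simp
    · rintro ⟨u, hu, h⟩
      simp only [List.mem_cons, List.not_mem_nil, or_false, Prod.mk.injEq] at h
      rcases h with ⟨h1, h2⟩ | ⟨h1, h2⟩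
      · subst h1; subst h2; exact hu
      · subst h1; subst h2; exact key false hu
  · rw [List.nodup_flatMap]
    refine ⟨fun x _ => by simp, ?_⟩
    refine (asm_vs_nodup b hb).imp ?_
    intro x y hxy
    simp only [Function.onFun, List.disjoint_left, List.mem_cons, List.not_mem_nil, or_false]
    rintro a (h1 | h1) (h2 | h2) <;> rw [h1] at h2 <;>
      simp only [Prod.mk.injEq, and_true, Bool.false_eq_true, Bool.true_eq_false, and_false] at h2 <;>
      exact hxy h2

theorem asm_count [DecidableEq V] (b : BT V) (hb : (eps b).Nodup)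
    (hcl : ∀ z ∈ eps b, (z.1, !z.2) ∈ eps b) :
    (nms b).length + (asmVs b).length = ((eps b).map Prod.fst).toFinset.card := by
  have h1 := asm_len b
  have h2 := (asm_gls_perm b hb hcl).length_eq
  rw [List.length_flatMap] at h2
  simp only [List.length_cons, List.length_nil, List.map_const', List.sum_replicate,
    smul_eq_mul] at h2
  have h3 : (eps b).toFinset = ((eps b).map Prod.fst).toFinset ×ˢ (Finset.univ : Finset Bool) := by
    ext ⟨v, s⟩
    simp only [List.mem_toFinset, Finset.mem_product, Finset.mem_univ, and_true, List.mem_map]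
    constructor
    · intro h
      exact ⟨(v, s), h, rfl⟩
    · rintro ⟨⟨u, t⟩, h4, h5⟩
      simp only at h5
      subst h5
      have h6 := hcl _ h4
      simp only at h6
      cases s <;> cases t <;> simp_all
  have h4 : (eps b).length = 2 * ((eps b).map Prod.fst).toFinset.card := by
    rw [← List.toFinset_card_of_nodup hb, h3, Finset.card_product]
    simp [mul_comm]
  omega

/-- the chords of a bar -/
def asmK (L : ℕ) (nu : Option (V × Bool) → Option (V × Bool)) (ℓ r : Option (V × Bool) → ℕ)
    (b : BT V) : List (LLt V L) :=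
  (nms b).map (fun g => (Sum.inr (Sum.inl g), ℓ (some g), r (some g))) ++
    (asmVs b).map (fun v => (Sum.inl v, r (some (v, false)), r (nu (some (v, false)))))

theorem asmK_length (nu : Option (V × Bool) → Option (V × Bool))
    (ℓ r : Option (V × Bool) → ℕ) (b : BT V) :
    (asmK L nu ℓ r b).length = (nms b).length + (asmVs b).length := by
  simp [asmK]

theorem asmK_fst (nu : Option (V × Bool) → Option (V × Bool))
    (ℓ r : Option (V × Bool) → ℕ) (b : BT V) :
    (asmK L nu ℓ r b).map Prod.fst =
      (nms b).map (fun g => Sum.inr (Sum.inl g)) ++ (asmVs b).map Sum.inl := by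
  simp [asmK, Function.comp_def]

theorem asmK_nodup (nu : Option (V × Bool) → Option (V × Bool))
    (ℓ r : Option (V × Bool) → ℕ) (b : BT V) (hb : (eps b).Nodup) :
    ((asmK L nu ℓ r b).map Prod.fst).Nodup := by
  rw [asmK_fst, List.nodup_append]
  refine ⟨?_, ?_, ?_⟩
  · refine (nms_nodup b hb).map ?_
    intro x y h
    simpa using h
  · exact (asm_vs_nodup b hb).map Sum.inl_injective
  · intro x hx y hy
    simp only [List.mem_map] at hx hy
    obtain ⟨g, -, rfl⟩ := hx
    obtain ⟨v, -, rfl⟩ := hy
    simp

theorem asmK_perm [DecidableEq V] (nu : Option (V × Bool) → Option (V × Bool))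
    (ℓ r : Option (V × Bool) → ℕ) (b : BT V) (hb : (eps b).Nodup)
    (hcl : ∀ z ∈ eps b, (z.1, !z.2) ∈ eps b) (hF : ∀ z ∈ eps b, Feq nu ℓ r z.1) :
    ((lct L nu ℓ r b).1 ++ (lct L nu ℓ r b).2).Perm
      ((asmK L nu ℓ r b).flatMap fun k => [(k.1, k.2.1, k.2.2), (k.1, k.2.2, k.2.1)]) := by
  refine (lct_perm L nu ℓ r b).trans ?_
  unfold asmK
  rw [List.flatMap_append, List.flatMap_map, List.flatMap_map]
  refine List.Perm.append (List.Perm.refl _) ?_
  refine ((asm_gls_perm b hb hcl).map (gL L nu ℓ r)).trans ?_
  rw [List.map_flatMap]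
  apply List.Perm.of_eq
  apply List.flatMap_congr
  intro v hv
  rw [asm_mem_vs] at hv
  obtain ⟨h1, h2, -, -⟩ := hF _ (gls_subset_eps b _ hv)
  simp only at h1 h2
  simp [gL, h1, h2]

theorem asm_count_le {ι : Type} [DecidableEq ι] (W : List (ι × Bool)) (hW : W.Nodup) (i : ι) :
    (W.map Prod.fst).count i ≤ 2 := by
  have h1 : (W.map Prod.fst).count i = (W.filter (fun z => z.1 = i)).length := by
    rw [List.count_eq_length_filter, List.filter_map, List.length_map]
    congr 1
  rw [h1, ← List.toFinset_card_of_nodup (hW.filter _)]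
  calc (W.filter (fun z => z.1 = i)).toFinset.card ≤ ({(i, true), (i, false)} : Finset (ι × Bool)).card := by
        apply Finset.card_le_card
        rintro ⟨j, s⟩ hj
        simp only [List.mem_toFinset, List.mem_filter, decide_eq_true_eq] at hj
        obtain ⟨-, rfl⟩ := hj
        cases s <;> simp
    _ ≤ 2 := Finset.card_le_two

theorem asm_mem_names {b : BT V} {n : Nm V L} {x : Bool}
    (h : (Sum.inr n, x) ∈ (RC b ++ LC b : List (Lt V L))) : ∃ g ∈ nms b, n = Sum.inl g := by
  rw [(word_perm b).mem_iff, List.mem_append] at h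
  rcases h with h | h
  · rw [List.mem_flatMap] at h
    obtain ⟨g, hg, h⟩ := h
    simp only [retL, topL, List.mem_cons, Prod.mk.injEq, Sum.inr.injEq, List.not_mem_nil,
      or_false] at h
    refine ⟨g, hg, ?_⟩
    rcases h with h | h <;> exact h.1
  · simp at h

/-- opening letters come first -/
theorem asm_open [DecidableEq V] (b : BT V) (hb : (eps b).Nodup)
    (hcl : ∀ z ∈ eps b, (z.1, !z.2) ∈ eps b) (W : List (Lt V L)) (hr : Red (W.map Prod.fst))
    (hnd : W.Nodup) (hR : Rho W)
    (hsub : List.Sublist (RC b ++ LC b : List (Lt V L)) W) (v : V) (x : Bool)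
    (h : (Sum.inl v, x) ∈ (RC b ++ LC b : List (Lt V L))) :
    List.Sublist [(Sum.inl v, true), (Sum.inl v, false)] W := by
  rw [mem_word_iff] at h
  have h2 : (v, !x) ∈ gls b := asm_gls_flip b hb (v, x) h (hcl _ (gls_subset_eps b _ h))
  have h3 : ∀ t, (Sum.inl v, t) ∈ W := by
    intro t
    apply hsub.subset
    rw [mem_word_iff]
    cases t <;> cases x <;> assumption
  rcases hR v (h3 true) (h3 false) with h4 | ⟨n, h4 | h4⟩
  · exact h4
  · exact absurd h4 (red_nocross _ hr (asm_count_le W hnd) _ _ (by simp))
  · exact absurd h4 (red_nocross _ hr (asm_count_le W hnd) _ _ (by simp))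

theorem comp_chk_open [DecidableEq V] (nu : Option (V × Bool) → Option (V × Bool))
    (ℓ r : Option (V × Bool) → ℕ) (b : BT V) (hpath : Path nu b (nu none) none)
    (hb : (eps b).Nodup) (hcl : ∀ z ∈ eps b, (z.1, !z.2) ∈ eps b)
    (hR : Rho (wrd none b : List (Lt V L))) (hF : ∀ z ∈ eps b, Feq nu ℓ r z.1)
    (h5 : ℓ (nu none) = r (nu none) ∧ ℓ none = r none) (S : Finset ℕ)
    (hS : ∀ a ∈ S, ∃ x : Option (V × Bool), (x = none ∨ ∃ z ∈ eps b, x = some z) ∧
      (a = ℓ x ∨ a = r x))
    (hcard : ((eps b).map Prod.fst).toFinset.card + 1 ≤ S.card) :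
    chk [] (wrd none b : List (Lt V L)) := by
  have hch := lct_chain L nu ℓ r b (nu none) none hpath hF
  obtain ⟨hc1, hc2⟩ := hch
  obtain ⟨h5a, h5b⟩ := h5
  have hchain : Chain (r (nu none)) ((lct L nu ℓ r b).1 ++ (lct L nu ℓ r b).2) (r (nu none)) := by
    refine asm_chain_append hc1 ?_
    rw [← h5b, ← h5a]
    exact hc2
  have hids : ((lct L nu ℓ r b).1 ++ (lct L nu ℓ r b).2).map Prod.fst =
      (RC b ++ LC b : List (Lt V L)).map Prod.fst := by
    rw [List.map_append, List.map_append, (lct_ids L nu ℓ r b).1, (lct_ids L nu ℓ r b).2]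
  have hlabel : ∀ a ∈ S, a ∈ insert (r (nu none))
      (((lct L nu ℓ r b).1 ++ (lct L nu ℓ r b).2).map (·.2.2)).toFinset := by
    have hnone : r none ∈ insert (r (nu none))
        (((lct L nu ℓ r b).1 ++ (lct L nu ℓ r b).2).map (·.2.2)).toFinset := by
      rw [Finset.mem_insert, List.mem_toFinset, List.map_append, List.mem_append]
      rcases asm_chain_last hc1 with h | h
      · exact Or.inl h
      · exact Or.inr (Or.inl h)
    intro a ha
    obtain ⟨x, hx, hax⟩ := hS a ha
    rcases hx with rfl | ⟨z, hz, rfl⟩
    · rcases hax with rfl | rfl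
      · rw [h5b]; exact hnone
      · exact hnone
    · rcases lct_labels L nu ℓ r b (nu none) none hpath hF z hz a hax with h | h | h | h | h
      · rw [Finset.mem_insert, List.mem_toFinset]
        exact Or.inr h
      · rw [h]; exact Finset.mem_insert_self _ _
      · rw [h]; exact hnone
      · rw [h, h5b]; exact hnone
      · rw [h, h5a]; exact Finset.mem_insert_self _ _
  have hred := red_of_chain (asmK L nu ℓ r b) _ _ (asmK_nodup nu ℓ r b hb)
    (asmK_perm nu ℓ r b hb hcl hF) hchain (by
      rw [asmK_length, asm_count b hb hcl]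
      exact hcard.trans (Finset.card_le_card hlabel))
  rw [hids] at hred
  have hnd : (RC b ++ LC b : List (Lt V L)).Nodup := word_nodup b hb
  refine chk_of_red _ hred hnd ?_
  intro i hi
  rw [List.mem_map] at hi
  obtain ⟨⟨i', x⟩, hx, rfl⟩ := hi
  rcases i' with v | n
  · exact asm_open b hb hcl _ hred hnd hR (List.Sublist.refl _) v x hx
  · obtain ⟨g, hg, rfl⟩ := asm_mem_names hx
    exact names_open b g hg

theorem comp_chk_root [DecidableEq V] (nu : Option (V × Bool) → Option (V × Bool))
    (ℓ r : Option (V × Bool) → ℕ) (b : BT V) (g : V × Bool) (hg : g.2 = true)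
    (hne : b ≠ BT.nil) (hpath : Path nu b (some g) (some g))
    (hb : (eps b).Nodup) (hcl : ∀ z ∈ eps b, (z.1, !z.2) ∈ eps b)
    (hR : Rho (wrd (some (Sum.inl g)) b : List (Lt V L))) (hF : ∀ z ∈ eps b, Feq nu ℓ r z.1)
    (S : Finset ℕ)
    (hS : ∀ a ∈ S, ∃ z ∈ eps b, a = ℓ (some z) ∨ a = r (some z))
    (hcard : ((eps b).map Prod.fst).toFinset.card + 2 ≤ S.card) :
    chk [] (wrd (some (Sum.inl g)) b : List (Lt V L)) := by
  have hch := lct_chain L nu ℓ r b (some g) (some g) hpath hF
  obtain ⟨hc1, hc2⟩ := hch
  have hgn : g ∉ nms b := start_not_name nu b g (some g) hpath hb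
  have hchain : Chain (ℓ (some g))
      (rL L ℓ r g :: ((lct L nu ℓ r b).1 ++ tL L ℓ r g :: (lct L nu ℓ r b).2)) (ℓ (some g)) := by
    refine Chain.cons _ _ _ _ _ (asm_chain_append hc1 ?_)
    exact Chain.cons _ _ _ _ _ hc2
  have hW : (wrd (some (Sum.inl g)) b : List (Lt V L)) =
      (Sum.inr (Sum.inl g), true) :: (RC b ++ (Sum.inr (Sum.inl g), false) :: LC b) := by
    simp [wrd, retL, topL, sd, hg]
  have hids : (rL L ℓ r g :: ((lct L nu ℓ r b).1 ++ tL L ℓ r g :: (lct L nu ℓ r b).2)).map Prod.fst =
      (wrd (some (Sum.inl g)) b : List (Lt V L)).map Prod.fst := by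
    rw [hW]
    simp only [List.map_cons, List.map_append, (lct_ids L nu ℓ r b).1, (lct_ids L nu ℓ r b).2]
    rfl
  have hlabel : ∀ a ∈ S, a ∈ insert (ℓ (some g))
      ((rL L ℓ r g :: ((lct L nu ℓ r b).1 ++ tL L ℓ r g :: (lct L nu ℓ r b).2)).map
        (·.2.2)).toFinset := by
    intro a ha
    obtain ⟨z, hz, hax⟩ := hS a ha
    rw [Finset.mem_insert, List.mem_toFinset]
    simp only [List.map_cons, List.map_append, List.mem_cons, List.mem_append]
    rcases lct_labels L nu ℓ r b (some g) (some g) hpath hF z hz a hax with h | h | h | h | h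
    · rw [List.map_append, List.mem_append] at h
      tauto
    · rw [h]; exact Or.inr (Or.inl rfl)
    · rw [h]; exact Or.inr (Or.inl rfl)
    · exact Or.inl h
    · exact Or.inl h
  have hperm : (rL L ℓ r g :: ((lct L nu ℓ r b).1 ++ tL L ℓ r g :: (lct L nu ℓ r b).2)).Perm
      (((Sum.inr (Sum.inl g), ℓ (some g), r (some g)) :: asmK L nu ℓ r b).flatMap
        fun k => [(k.1, k.2.1, k.2.2), (k.1, k.2.2, k.2.1)]) := by
    rw [List.flatMap_cons]
    change (rL L ℓ r g :: ((lct L nu ℓ r b).1 ++ tL L ℓ r g :: (lct L nu ℓ r b).2)).Perm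
      (rL L ℓ r g :: tL L ℓ r g :: _)
    refine List.Perm.cons _ ?_
    refine List.perm_middle.trans (List.Perm.cons _ ?_)
    exact asmK_perm nu ℓ r b hb hcl hF
  have hKn : ((((Sum.inr (Sum.inl g), ℓ (some g), r (some g)) :: asmK L nu ℓ r b :
      List (LLt V L))).map Prod.fst).Nodup := by
    rw [List.map_cons, List.nodup_cons]
    refine ⟨?_, asmK_nodup nu ℓ r b hb⟩
    rw [asmK_fst, List.mem_append]
    rintro (h | h)
    · simp only [List.mem_map, Sum.inr.injEq, Sum.inl.injEq] at h
      obtain ⟨g', hg', rfl⟩ := h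
      exact hgn hg'
    · simp at h
  have hred := red_of_chain ((Sum.inr (Sum.inl g), ℓ (some g), r (some g)) :: asmK L nu ℓ r b) _ _
    hKn hperm hchain (by
      rw [List.length_cons, asmK_length, asm_count b hb hcl]
      exact hcard.trans (Finset.card_le_card hlabel))
  rw [hids] at hred
  have hnotmem : ∀ x, (Sum.inr (Sum.inl g), x) ∉ (RC b ++ LC b : List (Lt V L)) := by
    intro x hx
    obtain ⟨g', hg', h⟩ := asm_mem_names hx
    simp only [Sum.inl.injEq] at h
    rw [h] at hgn
    exact hgn hg'
  have hnd0 : (RC b ++ LC b : List (Lt V L)).Nodup := word_nodup b hb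
  have hWperm : (wrd (some (Sum.inl g)) b : List (Lt V L)).Perm
      ((Sum.inr (Sum.inl g), true) :: (Sum.inr (Sum.inl g), false) :: (RC b ++ LC b)) := by
    rw [hW]
    exact List.Perm.cons _ List.perm_middle
  have hnd : (wrd (some (Sum.inl g)) b : List (Lt V L)).Nodup := by
    rw [hWperm.nodup_iff, List.nodup_cons, List.nodup_cons]
    refine ⟨?_, hnotmem false, hnd0⟩
    rw [List.mem_cons]
    rintro (h | h)
    · simp at h
    · exact hnotmem true h
  have hsub : List.Sublist (RC b ++ LC b : List (Lt V L)) (wrd (some (Sum.inl g)) b) := by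
    rw [hW]
    refine List.Sublist.cons _ ?_
    exact List.Sublist.append (List.Sublist.refl _) (List.Sublist.cons _ (List.Sublist.refl _))
  refine chk_of_red _ hred hnd ?_
  intro i hi
  rw [List.mem_map] at hi
  obtain ⟨⟨i', x⟩, hx, rfl⟩ := hi
  rw [hWperm.mem_iff, List.mem_cons, List.mem_cons] at hx
  rcases i' with v | n
  · rcases hx with hx | hx | hx
    · simp at hx
    · simp at hx
    · exact asm_open b hb hcl _ hred hnd hR hsub v x hx
  · have hroot : List.Sublist [(Sum.inr (Sum.inl g), true), (Sum.inr (Sum.inl g), false)]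
        (wrd (some (Sum.inl g)) b : List (Lt V L)) := by
      rw [hW]
      refine List.Sublist.cons_cons _ ?_
      rw [List.singleton_sublist]
      simp
    rcases hx with hx | hx | hx
    · simp only [Prod.mk.injEq, Sum.inr.injEq] at hx
      rw [hx.1]; exact hroot
    · simp only [Prod.mk.injEq, Sum.inr.injEq] at hx
      rw [hx.1]; exact hroot
    · obtain ⟨g', hg', rfl⟩ := asm_mem_names hx
      exact (names_open b g' hg').trans hsub

end Pool.Agent.H53.SQ

end S_ASM

section S_QAL

/-!
# Module QAL: every drawn code has a forest of bars with correct contour words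

PROOF. OPEN STRAND: `cyc_s` gives the list `l`, `greedy O.loops l` the bar `b`, `complete none O.nu ∅`
the bar `b₀` (`Closed O.nu ∅ b`: by `path_start` and `path_next` for the path of `b` from `nu none` to
`none`). Let `P` be the finset of the crossings of `eps b₀`, `ps = true`; `Pin P ps (nu x) ↔ Pin P ps x`
because the set `{none} ∪ some '' eps b₀` is closed under `nu` (`Closed`), finite, `nu` is injective, and
`(v, false) ∈ eps b₀ ↔ (v, true) ∈ eps b₀`. Then `faces` and `comp_chk_open`
(`Feq` = first conclusion of `faces`).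
ROOTS: prove by induction on the number of ends not in `U` the statement: for every set (finset) `U` of
ends closed under `z ↦ (z.1, !z.2)` and such that `{none} ∪ some '' U` is closed under `nu`, there is a list
`R` of roots, each with the properties required in `Forest`, such that `R.flatMap (eps ·.2)` is `Nodup`,
disjoint from `U`, and together with `U` contains all ends. If some end is not in `U`, then some
`z = (v, true)` is not in `U`; `cyc_c` for `z` with `E = {none} ∪ some '' U` gives `c` and (for `w = z`) `l'`;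
start with the bar `b = pl (z :: l')`, which has `Path O.nu b (some z) (some z)`, `noJ b`, and `Rho` of
`wrd (some (inl z)) b`: for a crossing `u` with both letters, `(inl u, false) ∈ RC b`,
`(inl u, true) ∈ LC b` (plain bar), the ids contain `ret, u, top, u`. `complete` gives the bar of the
root; `P` = its crossings, `ps = false` (the set `some '' eps` is closed under `nu`: `path_next` with
`y = some z ∈ some '' eps`). `faces`, `comp_chk_root`. Continue with `U ∪ eps`.
-/

namespace Pool.Agent.H53.SQ

variable {V : Type}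

lemma qal_fin {α : Type} [DecidableEq α] (e : α ≃ α) (E : Finset α) (h : ∀ x ∈ E, e x ∈ E) (x : α) :
    e x ∈ E ↔ x ∈ E := by
  have h1 : E.map e.toEmbedding = E := by
    apply Finset.eq_of_subset_of_card_le
    · intro y hy
      rw [Finset.mem_map] at hy
      obtain ⟨z, hz, rfl⟩ := hy
      exact h z hz
    · rw [Finset.card_map]
  constructor
  · intro hx
    rw [← h1, Finset.mem_map] at hx
    obtain ⟨z, hz, hze⟩ := hx
    have : z = x := e.injective hze
    rwa [← this]
  · exact h x

lemma qal_pl_RC (L : ℕ) (l : List (V × Bool)) (a : Lt V L) (h : a ∈ (RC (pl l) : List (Lt V L))) :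
    a.2 = false := by
  induction l with
  | nil => simp [pl] at h
  | cons z l ih =>
    obtain ⟨v, s⟩ := z
    cases s
    · simp only [pl, RC_itL, List.mem_cons] at h
      rcases h with rfl | h
      · rfl
      · exact ih h
    · simp only [pl, RC_itR] at h
      exact ih h

lemma qal_pl_LC (L : ℕ) (l : List (V × Bool)) (a : Lt V L) (h : a ∈ (LC (pl l) : List (Lt V L))) :
    a.2 = true := by
  induction l with
  | nil => simp [pl] at h
  | cons z l ih =>
    obtain ⟨v, s⟩ := z
    cases s
    · simp only [pl, LC_itL] at h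
      exact ih h
    · simp only [pl, LC_itR, List.mem_append, List.mem_singleton] at h
      rcases h with h | rfl
      · exact ih h
      · rfl

lemma qal_rho (L : ℕ) (l : List (V × Bool)) (n : Nm V L) : Rho (wrd (some n) (pl l) : List (Lt V L)) := by
  intro v h1 h2
  right
  refine ⟨n, Or.inr ?_⟩
  unfold wrd at h1 h2 ⊢
  have h3 : (Sum.inl v, false) ∈ (RC (pl l) : List (Lt V L)) := by
    simp only [List.mem_cons, List.mem_append] at h2
    rcases h2 with h | h | h | h
    · exact absurd (congrArg Prod.fst h) (by simp [retL])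
    · exact h
    · exact absurd (congrArg Prod.fst h) (by simp [topL])
    · exact absurd (qal_pl_LC L l _ h) (by simp)
  have h4 : (Sum.inl v, true) ∈ (LC (pl l) : List (Lt V L)) := by
    simp only [List.mem_cons, List.mem_append] at h1
    rcases h1 with h | h | h | h
    · exact absurd (congrArg Prod.fst h) (by simp [retL])
    · exact absurd (qal_pl_RC L l _ h) (by simp)
    · exact absurd (congrArg Prod.fst h) (by simp [topL])
    · exact h
  have h5 : (Sum.inl v : V ⊕ Nm V L) ∈ (RC (pl l) : List (Lt V L)).map Prod.fst :=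
    List.mem_map.mpr ⟨_, h3, rfl⟩
  have h6 : (Sum.inl v : V ⊕ Nm V L) ∈ (LC (pl l) : List (Lt V L)).map Prod.fst :=
    List.mem_map.mpr ⟨_, h4, rfl⟩
  simp only [List.map_cons, List.map_append, retL, topL]
  apply List.Sublist.cons_cons
  apply List.Sublist.append (l₁ := [Sum.inl v]) (List.singleton_sublist.mpr h5)
  apply List.Sublist.cons_cons
  exact List.singleton_sublist.mpr h6

lemma qal_chk_root [Fintype V] [DecidableEq V] (O : Code V) (e : List Gen) (hD : Draws O e) (b : BT V)
    (g : V × Bool) (hg : g.2 = true) (hne : b ≠ BT.nil) (hpath : Path O.nu b (some g) (some g))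
    (hb : (eps b).Nodup) (hcl : ∀ z ∈ eps b, (z.1, !z.2) ∈ eps b)
    (hR : Rho (wrd (some (Sum.inl g)) b : List (Lt V O.loops))) :
    chk [] (wrd (some (Sum.inl g)) b : List (Lt V O.loops)) := by
  have hgm : g ∈ eps b := by
    rcases path_start O.nu b _ _ hpath with h | ⟨z, hz, h⟩
    · exact absurd h.1 hne
    · rw [Option.some.injEq] at h
      rw [h]; exact hz
  set P : Finset V := ((eps b).map Prod.fst).toFinset with hPd
  have hmem : ∀ z : V × Bool, z.1 ∈ P ↔ z ∈ eps b := by
    intro z
    rw [hPd, List.mem_toFinset, List.mem_map]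
    constructor
    · rintro ⟨w, hw, hwz⟩
      obtain ⟨v, s⟩ := z
      obtain ⟨v', s'⟩ := w
      simp only at hwz
      subst hwz
      by_cases hs : s' = s
      · rw [← hs]; exact hw
      · have h1 := hcl _ hw
        have h2 : (!s') = s := by
          cases s' <;> cases s <;> simp_all
        simp only at h1
        rwa [h2] at h1
    · intro h
      exact ⟨z, h, rfl⟩
  have hE : ∀ x, Pin P false x ↔ x ∈ (eps b).toFinset.image some := by
    intro x
    cases x with
    | none => simp [Pin]
    | some z =>
      simp only [Pin, Finset.mem_image, List.mem_toFinset, Option.some.injEq, exists_eq_right]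
      exact hmem z
  have hclE : ∀ x ∈ (eps b).toFinset.image some, O.nu x ∈ (eps b).toFinset.image some := by
    intro x hx
    rw [Finset.mem_image] at hx ⊢
    obtain ⟨z, hz, rfl⟩ := hx
    rw [List.mem_toFinset] at hz
    rcases path_next O.nu b _ _ hpath z hz with h | ⟨z', hz', h⟩
    · exact ⟨g, List.mem_toFinset.mpr hgm, h.symm⟩
    · exact ⟨z', List.mem_toFinset.mpr hz', h.symm⟩
  obtain ⟨ℓ, r, h1, -, S, h3, h4⟩ := faces O e hD P false
    (by
      intro x
      rw [hE, hE]
      exact qal_fin O.nu _ hclE x)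
    (Or.inr ⟨g.1, (hmem g).mpr hgm⟩)
  refine comp_chk_root O.nu ℓ r b g hg hne hpath hb hcl hR ?_ S ?_ ?_
  · intro z hz
    exact h1 z.1 ((hmem z).mpr hz)
  · intro a ha
    obtain ⟨x, hx, hxa⟩ := h3 a ha
    cases x with
    | none => simp [Pin] at hx
    | some z => exact ⟨z, (hmem z).mp hx, hxa⟩
  · simpa using h4

lemma qal_chk_open [Fintype V] [DecidableEq V] (O : Code V) (e : List Gen) (hD : Draws O e) (b : BT V)
    (hpath : Path O.nu b (O.nu none) none)
    (hb : (eps b).Nodup) (hcl : ∀ z ∈ eps b, (z.1, !z.2) ∈ eps b)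
    (hR : Rho (wrd none b : List (Lt V O.loops))) :
    chk [] (wrd none b : List (Lt V O.loops)) := by
  set P : Finset V := ((eps b).map Prod.fst).toFinset with hPd
  have hmem : ∀ z : V × Bool, z.1 ∈ P ↔ z ∈ eps b := by
    intro z
    rw [hPd, List.mem_toFinset, List.mem_map]
    constructor
    · rintro ⟨w, hw, hwz⟩
      obtain ⟨v, s⟩ := z
      obtain ⟨v', s'⟩ := w
      simp only at hwz
      subst hwz
      by_cases hs : s' = s
      · rw [← hs]; exact hw
      · have h1 := hcl _ hw
        have h2 : (!s') = s := by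
          cases s' <;> cases s <;> simp_all
        simp only at h1
        rwa [h2] at h1
    · intro h
      exact ⟨z, h, rfl⟩
  have hE : ∀ x, Pin P true x ↔ x ∈ insert none ((eps b).toFinset.image some) := by
    intro x
    cases x with
    | none => simp [Pin]
    | some z =>
      simp only [Pin, Finset.mem_insert, Finset.mem_image, List.mem_toFinset, Option.some.injEq, exists_eq_right,
        reduceCtorEq, false_or]
      exact hmem z
  have hclE : ∀ x ∈ insert none ((eps b).toFinset.image some), O.nu x ∈ insert none ((eps b).toFinset.image some) := by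
    intro x hx
    rw [Finset.mem_insert, Finset.mem_image] at hx ⊢
    rcases hx with rfl | ⟨z, hz, rfl⟩
    · rcases path_start O.nu b _ _ hpath with h | ⟨z, hz, h⟩
      · exact Or.inl h.2
      · exact Or.inr ⟨z, List.mem_toFinset.mpr hz, h.symm⟩
    · rw [List.mem_toFinset] at hz
      rcases path_next O.nu b _ _ hpath z hz with h | ⟨z', hz', h⟩
      · exact Or.inl h
      · exact Or.inr ⟨z', List.mem_toFinset.mpr hz', h.symm⟩
  obtain ⟨ℓ, r, h1, h2, S, h3, h4⟩ := faces O e hD P true
    (by
      intro x
      rw [hE, hE]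
      exact qal_fin O.nu _ hclE x)
    (Or.inl rfl)
  refine comp_chk_open O.nu ℓ r b hpath hb hcl hR ?_ (h2 rfl) S ?_ ?_
  · intro z hz
    exact h1 z.1 ((hmem z).mpr hz)
  · intro a ha
    obtain ⟨x, hx, hxa⟩ := h3 a ha
    cases x with
    | none => exact ⟨none, Or.inl rfl, hxa⟩
    | some z => exact ⟨some z, Or.inr ⟨z, (hmem z).mp hx, rfl⟩, hxa⟩
  · simpa using h4

lemma qal_roots [Fintype V] [DecidableEq V] (O : Code V) (e : List Gen) (hD : Draws O e) (N : ℕ) :
    ∀ (U : Finset (V × Bool)), (Finset.univ \ U).card ≤ N → (∀ z ∈ U, (z.1, !z.2) ∈ U) →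
      (∀ x : Option (V × Bool), (x = none ∨ ∃ z ∈ U, x = some z) → (O.nu x = none ∨ ∃ z ∈ U, O.nu x = some z)) →
      ∃ R : List ((V × Bool) × BT V), (∀ r ∈ R, Path O.nu r.2 (some r.1) (some r.1)) ∧
        (∀ r ∈ R, noJ r.2) ∧ (∀ r ∈ R, r.2 ≠ BT.nil) ∧ (∀ r ∈ R, r.1.2 = true) ∧
        (∀ r ∈ R, chk [] (wrd (some (Sum.inl r.1)) r.2 : List (Lt V O.loops))) ∧
        (R.flatMap (fun r => eps r.2)).Nodup ∧ (∀ z ∈ R.flatMap (fun r => eps r.2), z ∉ U) ∧
        (∀ z, z ∉ U → z ∈ R.flatMap (fun r => eps r.2)) := by
  induction N with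
  | zero =>
    intro U hc _ _
    refine ⟨[], by simp, by simp, by simp, by simp, by simp, by simp, by simp, ?_⟩
    intro z hz
    have h1 : z ∈ Finset.univ \ U := by simp [hz]
    rw [Finset.card_eq_zero.mp (Nat.le_zero.mp hc)] at h1
    simp at h1
  | succ N ih =>
    intro U hc hU hE
    by_cases hall : ∀ z, z ∈ U
    · exact ⟨[], by simp, by simp, by simp, by simp, by simp, by simp, by simp, fun z hz => absurd (hall z) hz⟩
    push Not at hall
    obtain ⟨z₀, hz₀⟩ := hall
    have hg : (z₀.1, true) ∉ U := by
      intro h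
      apply hz₀
      obtain ⟨v, s⟩ := z₀
      cases s
      · exact hU _ h
      · exact h
    obtain ⟨c, hc1, hc2, hc3, hc4, hc5⟩ := cyc_c O.nu (z₀.1, true) {x | x = none ∨ ∃ z ∈ U, x = some z} hE (Or.inl rfl)
      (by
        rintro (h | ⟨z, hz, h⟩)
        · exact absurd h (by simp)
        · rw [Option.some.injEq] at h
          rw [h] at hg
          exact hg hz)
    obtain ⟨l', hl1, hl2⟩ := hc5 _ hc2
    have heps : eps (pl ((z₀.1, true) :: l')) = (z₀.1, true) :: l' := eps_pl _
    obtain ⟨b, hb1, hb2, hb3, -, hb5, hb6, hb7, hb8, hb9⟩ := complete (some (Sum.inl (z₀.1, true)) : Option (Nm V O.loops))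
      O.nu (U : Set (V × Bool)) hU (pl ((z₀.1, true) :: l')) (some (z₀.1, true)) (some (z₀.1, true))
      ⟨rfl, hl2⟩ (by rw [heps]; exact hl1.nodup_iff.mpr hc1) (qal_rho _ _ _)
      (by
        intro z hz hzU
        rw [heps] at hz
        exact hc3 z (hl1.mem_iff.mp hz) (Or.inr ⟨z, hzU, rfl⟩))
      (by
        rw [Closed]
        constructor
        · rcases hE none (Or.inl rfl) with h | ⟨z, hz, h⟩
          · exact Or.inl h
          · exact Or.inr ⟨z, Or.inl hz, h⟩
        · rintro z (hz | hz)
          · rcases hE (some z) (Or.inr ⟨z, hz, rfl⟩) with h | ⟨z, hz, h⟩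
            · exact Or.inl h
            · exact Or.inr ⟨z, Or.inl hz, h⟩
          · rw [heps] at hz ⊢
            obtain ⟨w', hw', h⟩ := hc4 z (hl1.mem_iff.mp hz)
            exact Or.inr ⟨w', Or.inr (hl1.mem_iff.mpr hw'), h⟩)
    have hgm : (z₀.1, true) ∈ eps b := hb7 _ (by rw [heps]; exact List.mem_cons_self)
    have hne : b ≠ BT.nil := by
      rintro rfl
      simp [eps] at hgm
    have hchk := qal_chk_root O e hD b (z₀.1, true) rfl hne hb1 hb2 hb8 hb3
    have hnoJ : noJ b := hb5 (noJ_pl _)
    obtain ⟨R, r1, r2, r3, r4, r5, r6, r7, r8⟩ := ih (U ∪ (eps b).toFinset)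
      (by
        have h1 : (Finset.univ \ (U ∪ (eps b).toFinset)).card < (Finset.univ \ U).card := by
          apply Finset.card_lt_card
          rw [Finset.ssubset_iff_of_subset]
          · refine ⟨(z₀.1, true), by simp [hg], ?_⟩
            simp [hgm]
          · intro x hx
            simp only [Finset.mem_sdiff, Finset.mem_univ, Finset.mem_union, true_and] at hx ⊢
            tauto
        omega)
      (by
        intro z hz
        rw [Finset.mem_union, List.mem_toFinset] at hz ⊢
        rcases hz with hz | hz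
        · exact Or.inl (hU z hz)
        · exact Or.inr (hb8 z hz))
      (by
        have hm : ∀ z, z ∈ U ∪ (eps b).toFinset ↔ (z ∈ (U : Set (V × Bool)) ∨ z ∈ eps b) := by
          intro z
          rw [Finset.mem_union, List.mem_toFinset]
          rfl
        rintro x (rfl | ⟨z, hz, rfl⟩)
        · rcases hb9.1 with h | ⟨z', hz', h⟩
          · exact Or.inl h
          · exact Or.inr ⟨z', (hm z').mpr hz', h⟩
        · rcases hb9.2 z ((hm z).mp hz) with h | ⟨z', hz', h⟩
          · exact Or.inl h
          · exact Or.inr ⟨z', (hm z').mpr hz', h⟩)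
    refine ⟨((z₀.1, true), b) :: R, ?_, ?_, ?_, ?_, ?_, ?_, ?_, ?_⟩
    · intro r hr
      rcases List.mem_cons.mp hr with rfl | hr
      · exact hb1
      · exact r1 r hr
    · intro r hr
      rcases List.mem_cons.mp hr with rfl | hr
      · exact hnoJ
      · exact r2 r hr
    · intro r hr
      rcases List.mem_cons.mp hr with rfl | hr
      · exact hne
      · exact r3 r hr
    · intro r hr
      rcases List.mem_cons.mp hr with rfl | hr
      · rfl
      · exact r4 r hr
    · intro r hr
      rcases List.mem_cons.mp hr with rfl | hr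
      · exact hchk
      · exact r5 r hr
    · rw [List.flatMap_cons, List.nodup_append]
      refine ⟨hb2, r6, ?_⟩
      intro x hx y hy hxy
      subst hxy
      exact r7 x hy (by simp [hx])
    · intro z hz
      rw [List.flatMap_cons, List.mem_append] at hz
      rcases hz with hz | hz
      · exact hb6 z hz
      · intro hzU
        exact r7 z hz (by simp [hzU])
    · intro z hz
      rw [List.flatMap_cons, List.mem_append]
      by_cases hzb : z ∈ eps b
      · exact Or.inl hzb
      · exact Or.inr (r8 z (by simp [hz, hzb]))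

theorem forest_exists [Fintype V] [DecidableEq V] (O : Code V) (e : List Gen) (hD : Draws O e) :
    ∃ (b₀ : BT V) (R : List ((V × Bool) × BT V)), Forest O b₀ R := by
  obtain ⟨l, hl1, hl2⟩ := cyc_s O.nu
  obtain ⟨b, g1, g2, g3, g4⟩ := greedy O.loops l hl1
  have hpb := g3 O.nu _ _ hl2
  obtain ⟨b₀, hb1, hb2, hb3, hb4, -, -, -, hb8, hb9⟩ := complete (none : Option (Nm V O.loops)) O.nu ∅
    (by simp) b (O.nu none) none hpb (g2.nodup_iff.mpr hl1) g4 (by simp)
    (by
      rw [Closed]
      constructor
      · rcases path_start O.nu b _ _ hpb with h | ⟨z, hz, h⟩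
        · exact Or.inl h.2
        · exact Or.inr ⟨z, Or.inr hz, h⟩
      · rintro z (hz | hz)
        · exact absurd hz (by simp)
        · rcases path_next O.nu b _ _ hpb z hz with h | ⟨z', hz', h⟩
          · exact Or.inl h
          · exact Or.inr ⟨z', Or.inr hz', h⟩)
  have hchk := qal_chk_open O e hD b₀ hb1 hb2 hb8 hb3
  obtain ⟨R, r1, r2, r3, r4, r5, r6, r7, r8⟩ := qal_roots O e hD _ (eps b₀).toFinset le_rfl
    (by
      intro z hz
      rw [List.mem_toFinset] at hz ⊢
      exact hb8 z hz)
    (by
      rintro x (rfl | ⟨z, hz, rfl⟩)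
      · rcases hb9.1 with h | ⟨z', hz', h⟩
        · exact Or.inl h
        · exact Or.inr ⟨z', List.mem_toFinset.mpr (hz'.resolve_left (by simp)), h⟩
      · rcases hb9.2 z (Or.inr (List.mem_toFinset.mp hz)) with h | ⟨z', hz', h⟩
        · exact Or.inl h
        · exact Or.inr ⟨z', List.mem_toFinset.mpr (hz'.resolve_left (by simp)), h⟩)
  refine ⟨b₀, R, ⟨hb1, hb4 g1, hchk, r1, r2, r3, r4, r5, ?_, ?_⟩⟩
  · rw [List.nodup_append]
    refine ⟨hb2, r6, ?_⟩
    intro x hx y hy hxy
    subst hxy
    exact r7 x hy (by simp [hx])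
  · intro z
    rw [List.mem_append]
    by_cases hz : z ∈ eps b₀
    · exact Or.inl hz
    · exact Or.inr (r8 z (by simp [hz]))

end Pool.Agent.H53.SQ

end S_QAL

section S_FIN

/-!
# Module FIN: the final assembly

PROOF. `WSAP w` gives `m, O, e` with `Draws O e`, `Add true [] e w`. `forest_exists`, `mw_of_forest` give
`h : MW O [up none (inl none) 0] F T f`, with `F.Nodup`, and the facts about `T` by `forest_toks` (up to
permutation). `labe_fin` gives `e₁` with `Add true [] e₁ (clo 1 (f ∅))`, `Lab O [] e₁ (born :: T)`, so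
`Draws O e₁`, and `Step.redraw`: `w ~ clo 1 (f ∅)`. `chain` with `C = fun _ => false`, `β = []`, `P = Q = 0`;
`braid_fin`.
-/

namespace Pool.Agent.H53.SQ

theorem sqp_of_wsap (w : List Gen) (hw : WSAP w) : SQP w := by
  obtain ⟨m, O, e, hpos, hD, hA⟩ := hw
  obtain ⟨b₀, R, hF⟩ := forest_exists O e hD
  obtain ⟨F, T, f, h, hFp, hTp⟩ := mw_of_forest hF
  obtain ⟨h1, h2, h3, h4⟩ := forest_toks hF
  obtain ⟨e₁, hA₁, hL₁⟩ := labe_fin hpos h
  have hD₁ : Draws O e₁ := by
    refine ⟨_, hL₁, ?_, ?_, ?_, ?_, ?_⟩
    · exact (List.Perm.nodup_iff (hTp.cons _)).2 h2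
    · intro v; exact List.mem_cons_of_mem _ (hTp.mem_iff.2 (h3 v))
    · intro i; exact List.mem_cons_of_mem _ (hTp.mem_iff.2 (h4 i))
    · exact List.mem_cons_self
    · exact List.mem_cons_of_mem _ (hTp.mem_iff.2 List.mem_cons_self)
  have s1 : Iso w (clo 1 (f (fun _ => false))) :=
    Relation.EqvGen.rel _ _ (Step.redraw m O e e₁ _ _ hD hD₁ hA hA₁)
  obtain ⟨n, P', β', hP', hβ', s2⟩ := chain h (fun _ => false) [] 0 0
    (by intro q hq n hn; simp at hq; subst hq; simp [MI.nm] at hn)
    (fun _ _ => rfl) (hFp.nodup_iff.2 h1) (by simp [smk]) (by simp)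
  have s2' : Iso (clo 1 (f (fun _ => false))) (clo n (wd β')) := s2
  obtain ⟨L, hL, s3⟩ := braid_fin n P' hP' β' hβ'
  exact ⟨n, L, hL, (s1.trans _ _ _ s2').trans _ _ _ s3⟩

end Pool.Agent.H53.SQ

end S_FIN
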