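import Pool.Agent.H53.SQ.Base

/-!
# Module GRD: the greedy bar of the open strand

PROOF: strong induction on `l.length`. `l = []`: `b = nil`. `l = (v, s) :: l'`.
* If `(v, !s) ∈ l'`: `l' = l₁ ++ (v, !s) :: l₂`, let `b₂` be the bar for `l₂`,
  `b = ch true v s (pl l₁) b₂`. `eps (pl l₁) = l₁`, `noJ (pl l₁)`. A path of `pl ((v,s) :: l₁ ++ (v,!s) :: l₂)`
  splits at `(v, !s)`.
  `Rho`: let `u` be a crossing with both letters in the word `W` of `b`. The letters of `W` are the ones of
  `RC (pl l₁)` (only letters `(inl _, false)`), of `LC (pl l₁)` (only letters `(inl _, true)`), of `RC b₂`,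
  `LC b₂`, and `retL n, topL n`, `n = inl (v, !s)`. With `c = pl l₁`:
  `s = false` (`jl`): `W = [ret] RC b₂ LC b₂ RC c [top] LC c`;
  `s = true` (`jr`):  `W = RC c [top] LC c RC b₂ LC b₂ [ret]`.
  (a) both letters in the child: `(inl u, false) ∈ RC c`, `(inl u, true) ∈ LC c`: the ids contain
      `ret, u, top, u` (`jl`) or `u, top, u, ret` (`jr`).
  (b) both letters in `RC b₂ ++ LC b₂`: induction hypothesis (`RC b₂ ++ LC b₂` is a sublist of `W`).
  (c) `(inl u, false) ∈ RC c` and `(inl u, true)` in the word of `b₂`: for `jl` opening first; for `jr` the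
      ids contain `u, top, u, ret`.
  (d) `(inl u, true) ∈ LC c` and `(inl u, false)` in the word of `b₂`: for `jl` the ids contain
      `ret, u, top, u`; for `jr` opening first.
* Otherwise `b = it v s b'` with the bar `b'` for `l'`; the letter of the partner of `v` does not occur in
  the word of `b'` (its generic items are in `eps b'`, a permutation of `l'`), so `Rho` follows from the
  induction hypothesis (`RC b' ++ LC b'` is a sublist).
Useful lemma: `(inl u, t) ∈ RC b ∨ (inl u, t) ∈ LC b ↔ (u, t) ∈ gls b`, and `gls b ⊆ eps b`.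
-/

namespace Pool.Agent.H53.SQ

variable {V : Type}

theorem mem_word_iff {L : ℕ} (b : BT V) (u : V) (t : Bool) :
    ((Sum.inl u, t) ∈ (RC b ++ LC b : List (Lt V L))) ↔ (u, t) ∈ gls b := by
  induction b with
  | nil => simp [gls]
  | it v s r ih =>
    rw [List.mem_append] at ih
    cases s
    · rw [RC_itL, LC_itL, List.mem_append, List.mem_cons, or_assoc, ih, gls, List.mem_cons]
      simp
    · rw [RC_itR, LC_itR, List.mem_append, List.mem_append, List.mem_singleton, ← or_assoc, ih, gls,
        List.mem_cons, or_comm]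
      simp
  | ch j v s c r ihc ihr =>
    rw [List.mem_append] at ihc ihr
    have hg : (u, t) ∈ gls (BT.ch j v s c r) ↔
        ((Sum.inl u, t) ∈ (RC c : List (Lt V L)) ∨ (Sum.inl u, t) ∈ (LC c : List (Lt V L))) ∨
        ((Sum.inl u, t) ∈ (RC r : List (Lt V L)) ∨ (Sum.inl u, t) ∈ (LC r : List (Lt V L))) := by
      rw [ihc, ihr, gls, List.mem_append]
    rw [hg]
    cases j <;> cases s
    · rw [RC_br, LC_br]
      simp only [List.mem_append, List.mem_cons, retL, topL, Prod.mk.injEq, reduceCtorEq, false_and,
        false_or]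
      tauto
    · rw [RC_bl, LC_bl]
      simp only [List.mem_append, List.mem_cons, retL, topL, Prod.mk.injEq, reduceCtorEq, false_and,
        false_or, List.not_mem_nil, or_false]
      tauto
    · rw [RC_jl, LC_jl]
      simp only [List.mem_append, List.mem_cons, retL, topL, Prod.mk.injEq, reduceCtorEq, false_and,
        false_or]
      tauto
    · rw [RC_jr, LC_jr]
      simp only [List.mem_append, List.mem_cons, retL, topL, Prod.mk.injEq, reduceCtorEq, false_and,
        false_or, List.not_mem_nil, or_false]
      tauto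

theorem gls_subset_eps (b : BT V) : ∀ z ∈ gls b, z ∈ eps b := by
  induction b with
  | nil => intro z hz; exact hz
  | it v s r ih =>
    intro z hz
    rw [gls, List.mem_cons] at hz
    rw [eps, List.mem_cons]
    rcases hz with h | h
    · exact Or.inl h
    · exact Or.inr (ih z h)
  | ch j v s c r ihc ihr =>
    intro z hz
    rw [gls, List.mem_append] at hz
    rw [eps, List.mem_cons, List.mem_cons, List.mem_append]
    rcases hz with h | h
    · exact Or.inr (Or.inr (Or.inl (ihc z h)))
    · exact Or.inr (Or.inr (Or.inr (ihr z h)))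

theorem eps_pl (l : List (V × Bool)) : eps (pl l) = l := by
  induction l with
  | nil => rfl
  | cons a l ih =>
    obtain ⟨v, s⟩ := a
    rw [pl, eps, ih]

theorem noJ_pl (l : List (V × Bool)) : noJ (pl l) := by
  induction l with
  | nil => trivial
  | cons a l ih =>
    obtain ⟨v, s⟩ := a
    rw [pl, noJ]
    exact ih

private def GRD_C {L : ℕ} (W : List (Lt V L)) (v : V) : Prop :=
  List.Sublist [(Sum.inl v, true), (Sum.inl v, false)] W ∨
    ∃ n : Nm V L, List.Sublist [Sum.inl v, Sum.inr n, Sum.inl v, Sum.inr n] (W.map Prod.fst) ∨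
      List.Sublist [Sum.inr n, Sum.inl v, Sum.inr n, Sum.inl v] (W.map Prod.fst)

private theorem GRD_mono {L : ℕ} {W W' : List (Lt V L)} (h : List.Sublist W' W) {v : V} (hc : GRD_C W' v) :
    GRD_C W v := by
  rcases hc with h1 | ⟨n, h1 | h1⟩
  · exact Or.inl (h1.trans h)
  · exact Or.inr ⟨n, Or.inl (h1.trans (h.map _))⟩
  · exact Or.inr ⟨n, Or.inr (h1.trans (h.map _))⟩

private theorem GRD_path_pl (nu : Option (V × Bool) → Option (V × Bool)) (l₁ l₂ : List (V × Bool))
    (w : V × Bool) (x y : Option (V × Bool)) (h : Path nu (pl (l₁ ++ w :: l₂)) x y) :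
    Path nu (pl l₁) x (some w) ∧ Path nu (pl l₂) (nu (some w)) y := by
  induction l₁ generalizing x with
  | nil =>
    obtain ⟨v, s⟩ := w
    simp only [List.nil_append, pl, Path] at h ⊢
    exact h
  | cons a l ih =>
    obtain ⟨v, s⟩ := a
    simp only [List.cons_append, pl, Path] at h ⊢
    obtain ⟨h1, h2⟩ := h
    obtain ⟨h3, h4⟩ := ih _ h2
    exact ⟨⟨h1, h3⟩, h4⟩

private theorem GRD_RC_pl {L : ℕ} (l : List (V × Bool)) (u : V) :
    (Sum.inl u, true) ∉ (RC (pl l) : List (Lt V L)) := by
  induction l with
  | nil => simp [pl]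
  | cons a l ih =>
    obtain ⟨v, s⟩ := a
    cases s
    · rw [pl, RC_itL, List.mem_cons]
      simp [ih]
    · rw [pl, RC_itR]
      exact ih

private theorem GRD_LC_pl {L : ℕ} (l : List (V × Bool)) (u : V) :
    (Sum.inl u, false) ∉ (LC (pl l) : List (Lt V L)) := by
  induction l with
  | nil => simp [pl]
  | cons a l ih =>
    obtain ⟨v, s⟩ := a
    cases s
    · rw [pl, LC_itL]
      exact ih
    · rw [pl, LC_itR, List.mem_append]
      simp [ih]

private theorem GRD_s1 {α : Type*} {a : α} {A : List α} (h : a ∈ A) : List.Sublist [a] A :=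
  List.singleton_sublist.mpr h

private theorem GRD_fst {L : ℕ} {a : Lt V L} {A : List (Lt V L)} (h : a ∈ A) :
    List.Sublist [a.1] (A.map Prod.fst) :=
  List.singleton_sublist.mpr (List.mem_map_of_mem h)

private theorem GRD_jl {L : ℕ} (v : V) (l₁ : List (V × Bool)) (r : BT V)
    (hr : Rho (wrd none r : List (Lt V L))) :
    Rho (wrd none (.ch true v false (pl l₁) r) : List (Lt V L)) := by
  intro u h1 h2
  change GRD_C _ u
  simp only [wrd, RC_jl, LC_jl] at h1 h2 ⊢
  have hW : (retL (Sum.inl (v, true)) :: RC r ++ (LC r ++ (RC (pl l₁) ++ topL (Sum.inl (v, true)) :: LC (pl l₁))) :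
      List (Lt V L)) = [retL (Sum.inl (v, true))] ++ ((RC r ++ LC r) ++ (RC (pl l₁) ++
        ([topL (Sum.inl (v, true))] ++ LC (pl l₁)))) := by
    simp [List.append_assoc]
  rw [hW] at h1 h2 ⊢
  have e1 : (Sum.inl u, true) ∈ (RC r ++ LC r : List (Lt V L)) ∨ (Sum.inl u, true) ∈ (LC (pl l₁) : List (Lt V L)) := by
    have := GRD_RC_pl (L := L) l₁ u
    rcases List.mem_append.mp h1 with h | h
    · simp [retL] at h
    rcases List.mem_append.mp h with h | h
    · exact Or.inl h
    rcases List.mem_append.mp h with h | h
    · exact absurd h this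
    rcases List.mem_append.mp h with h | h
    · simp [topL] at h
    · exact Or.inr h
  have e2 : (Sum.inl u, false) ∈ (RC r ++ LC r : List (Lt V L)) ∨ (Sum.inl u, false) ∈ (RC (pl l₁) : List (Lt V L)) := by
    have := GRD_LC_pl (L := L) l₁ u
    rcases List.mem_append.mp h2 with h | h
    · simp [retL] at h
    rcases List.mem_append.mp h with h | h
    · exact Or.inl h
    rcases List.mem_append.mp h with h | h
    · exact Or.inr h
    rcases List.mem_append.mp h with h | h
    · simp [topL] at h
    · exact absurd h this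
  rcases e1 with e1 | e1 <;> rcases e2 with e2 | e2
  · refine GRD_mono ?_ (hr u e1 e2)
    simp only [wrd]
    exact (List.sublist_append_left _ _).trans (List.sublist_append_right _ _)
  · refine Or.inl ?_
    have : List.Sublist ([(Sum.inl u, true)] ++ [(Sum.inl u, false)])
        ((RC r ++ LC r) ++ (RC (pl l₁) ++ ([topL (Sum.inl (v, true))] ++ LC (pl l₁))) : List (Lt V L)) :=
      (GRD_s1 e1).append ((GRD_s1 e2).trans (List.sublist_append_left _ _))
    exact this.trans (List.sublist_append_right _ _)
  · refine Or.inr ⟨Sum.inl (v, true), Or.inr ?_⟩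
    have : List.Sublist ([Sum.inr (Sum.inl (v, true))] ++ ([Sum.inl u] ++ (([] : List (V ⊕ Nm V L)) ++
        ([Sum.inr (Sum.inl (v, true))] ++ [Sum.inl u]))))
        (List.map Prod.fst [retL (Sum.inl (v, true))] ++ (List.map Prod.fst (RC r ++ LC r) ++
          (List.map Prod.fst (RC (pl l₁)) ++ (List.map Prod.fst [topL (Sum.inl (v, true))] ++
            List.map Prod.fst (LC (pl l₁)))))) :=
      (List.Sublist.refl _).append ((GRD_fst e2).append ((List.nil_sublist _).append
        ((List.Sublist.refl _).append (GRD_fst e1))))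
    simp only [List.map_append, List.append_assoc] at this ⊢
    exact this
  · refine Or.inr ⟨Sum.inl (v, true), Or.inr ?_⟩
    have : List.Sublist ([Sum.inr (Sum.inl (v, true))] ++ (([] : List (V ⊕ Nm V L)) ++ ([Sum.inl u] ++
        ([Sum.inr (Sum.inl (v, true))] ++ [Sum.inl u]))))
        (List.map Prod.fst [retL (Sum.inl (v, true))] ++ (List.map Prod.fst (RC r ++ LC r) ++
          (List.map Prod.fst (RC (pl l₁)) ++ (List.map Prod.fst [topL (Sum.inl (v, true))] ++
            List.map Prod.fst (LC (pl l₁)))))) :=
      (List.Sublist.refl _).append ((List.nil_sublist _).append ((GRD_fst e2).append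
        ((List.Sublist.refl _).append (GRD_fst e1))))
    simp only [List.map_append, List.append_assoc] at this ⊢
    exact this

private theorem GRD_jr {L : ℕ} (v : V) (l₁ : List (V × Bool)) (r : BT V)
    (hr : Rho (wrd none r : List (Lt V L))) :
    Rho (wrd none (.ch true v true (pl l₁) r) : List (Lt V L)) := by
  intro u h1 h2
  change GRD_C _ u
  simp only [wrd, RC_jr, LC_jr] at h1 h2 ⊢
  have hW : (RC (pl l₁) ++ topL (Sum.inl (v, false)) :: (LC (pl l₁) ++ RC r) ++ (LC r ++ [retL (Sum.inl (v, false))]) :
      List (Lt V L)) = RC (pl l₁) ++ ([topL (Sum.inl (v, false))] ++ (LC (pl l₁) ++ ((RC r ++ LC r) ++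
        [retL (Sum.inl (v, false))]))) := by
    simp [List.append_assoc]
  rw [hW] at h1 h2 ⊢
  have e1 : (Sum.inl u, true) ∈ (RC r ++ LC r : List (Lt V L)) ∨ (Sum.inl u, true) ∈ (LC (pl l₁) : List (Lt V L)) := by
    have := GRD_RC_pl (L := L) l₁ u
    rw [List.mem_append, List.mem_append, List.mem_append, List.mem_append] at h1
    rcases h1 with h | h | h | h | h
    · exact absurd h this
    · simp [topL] at h
    · exact Or.inr h
    · exact Or.inl h
    · simp [retL] at h
  have e2 : (Sum.inl u, false) ∈ (RC r ++ LC r : List (Lt V L)) ∨ (Sum.inl u, false) ∈ (RC (pl l₁) : List (Lt V L)) := by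
    have := GRD_LC_pl (L := L) l₁ u
    rw [List.mem_append, List.mem_append, List.mem_append, List.mem_append] at h2
    rcases h2 with h | h | h | h | h
    · exact Or.inr h
    · simp [topL] at h
    · exact absurd h this
    · exact Or.inl h
    · simp [retL] at h
  rcases e1 with e1 | e1 <;> rcases e2 with e2 | e2
  · refine GRD_mono ?_ (hr u e1 e2)
    simp only [wrd]
    exact (List.sublist_append_left _ _).trans ((List.sublist_append_right _ _).trans
      ((List.sublist_append_right _ _).trans (List.sublist_append_right _ _)))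
  · refine Or.inr ⟨Sum.inl (v, false), Or.inl ?_⟩
    rw [List.map_append, List.map_append, List.map_append, List.map_append]
    have : List.Sublist ([Sum.inl u] ++ ([Sum.inr (Sum.inl (v, false))] ++ (([] : List (V ⊕ Nm V L)) ++
        ([Sum.inl u] ++ [Sum.inr (Sum.inl (v, false))]))))
        (List.map Prod.fst (RC (pl l₁)) ++ (List.map Prod.fst [topL (Sum.inl (v, false))] ++
          (List.map Prod.fst (LC (pl l₁)) ++ (List.map Prod.fst (RC r ++ LC r) ++
            List.map Prod.fst [retL (Sum.inl (v, false))])))) :=
      (GRD_fst e2).append ((List.Sublist.refl _).append ((List.nil_sublist _).append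
        ((GRD_fst e1).append (List.Sublist.refl _))))
    exact this
  · refine Or.inl ?_
    have : List.Sublist ([(Sum.inl u, true)] ++ [(Sum.inl u, false)])
        (LC (pl l₁) ++ ((RC r ++ LC r) ++ [retL (Sum.inl (v, false))]) : List (Lt V L)) :=
      (GRD_s1 e1).append ((GRD_s1 e2).trans (List.sublist_append_left _ _))
    exact this.trans ((List.sublist_append_right _ _).trans (List.sublist_append_right _ _))
  · refine Or.inr ⟨Sum.inl (v, false), Or.inl ?_⟩
    rw [List.map_append, List.map_append, List.map_append, List.map_append]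
    have : List.Sublist ([Sum.inl u] ++ ([Sum.inr (Sum.inl (v, false))] ++ ([Sum.inl u] ++
        (([] : List (V ⊕ Nm V L)) ++ [Sum.inr (Sum.inl (v, false))]))))
        (List.map Prod.fst (RC (pl l₁)) ++ (List.map Prod.fst [topL (Sum.inl (v, false))] ++
          (List.map Prod.fst (LC (pl l₁)) ++ (List.map Prod.fst (RC r ++ LC r) ++
            List.map Prod.fst [retL (Sum.inl (v, false))])))) :=
      (GRD_fst e2).append ((List.Sublist.refl _).append ((GRD_fst e1).append
        ((List.nil_sublist _).append (List.Sublist.refl _))))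
    exact this

private theorem GRD_it {L : ℕ} (v : V) (s : Bool) (r : BT V) (hv : (v, !s) ∉ eps r)
    (hr : Rho (wrd none r : List (Lt V L))) :
    Rho (wrd none (.it v s r) : List (Lt V L)) := by
  intro u h1 h2
  change GRD_C _ u
  cases s
  · simp only [wrd, RC_itL, LC_itL] at h1 h2 ⊢
    rw [List.cons_append, List.mem_cons] at h1 h2
    have e1 : (Sum.inl u, true) ∈ (RC r ++ LC r : List (Lt V L)) := by
      rcases h1 with h | h
      · simp at h
      · exact h
    have e2 : (Sum.inl u, false) ∈ (RC r ++ LC r : List (Lt V L)) := by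
      rcases h2 with h | h
      · have huv : u = v := by
          have := congrArg Prod.fst h
          exact Sum.inl.inj this
        subst huv
        exact absurd (gls_subset_eps r _ ((mem_word_iff r u true).mp e1)) hv
      · exact h
    refine GRD_mono ?_ (hr u e1 e2)
    rw [List.cons_append]
    exact List.sublist_cons_self _ _
  · simp only [wrd, RC_itR, LC_itR] at h1 h2 ⊢
    rw [← List.append_assoc, List.mem_append, List.mem_singleton] at h1 h2
    have e2 : (Sum.inl u, false) ∈ (RC r ++ LC r : List (Lt V L)) := by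
      rcases h2 with h | h
      · exact h
      · simp at h
    have e1 : (Sum.inl u, true) ∈ (RC r ++ LC r : List (Lt V L)) := by
      rcases h1 with h | h
      · exact h
      · have huv : u = v := by
          have := congrArg Prod.fst h
          exact Sum.inl.inj this
        subst huv
        exact absurd (gls_subset_eps r _ ((mem_word_iff r u false).mp e2)) hv
    refine GRD_mono ?_ (hr u e1 e2)
    rw [← List.append_assoc]
    exact List.sublist_append_left _ _

theorem greedy (L : ℕ) (l : List (V × Bool)) (hl : l.Nodup) :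
    ∃ b : BT V, okJ b ∧ (eps b).Perm l ∧
      (∀ (nu : Option (V × Bool) → Option (V × Bool)) (x y : Option (V × Bool)),
        Path nu (pl l) x y → Path nu b x y) ∧
      Rho (wrd none b : List (Lt V L)) := by
  classical
  induction hn : l.length using Nat.strong_induction_on generalizing l with
  | _ n ih =>
    cases l with
    | nil =>
      refine ⟨BT.nil, trivial, List.Perm.refl _, fun nu x y h => h, ?_⟩
      intro v h1 _
      simp [wrd] at h1
    | cons a l' =>
      obtain ⟨v, s⟩ := a
      have hl' : l'.Nodup := (List.nodup_cons.mp hl).2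
      by_cases hm : (v, !s) ∈ l'
      · obtain ⟨l₁, l₂, rfl⟩ := List.append_of_mem hm
        have hl₂ : l₂.Nodup := (List.nodup_cons.mp (List.nodup_append.mp hl').2.1).2
        have hlt : l₂.length < n := by
          rw [← hn]
          simp only [List.length_cons, List.length_append]
          omega
        obtain ⟨b₂, hok, hperm, hpath, hrho⟩ := ih l₂.length hlt l₂ hl₂ rfl
        refine ⟨BT.ch true v s (pl l₁) b₂, ⟨noJ_pl l₁, hok⟩, ?_, ?_, ?_⟩
        · rw [eps, eps_pl]
          refine List.Perm.cons _ ?_
          refine List.Perm.trans ?_ (List.perm_middle).symm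
          exact List.Perm.cons _ (List.Perm.append_left l₁ hperm)
        · intro nu x y h
          simp only [pl, Path] at h
          obtain ⟨h1, h2⟩ := h
          obtain ⟨h3, h4⟩ := GRD_path_pl nu l₁ l₂ (v, !s) _ _ h2
          simp only [Path, if_true]
          exact ⟨h1, hpath nu _ _ h4, h3⟩
        · cases s
          · exact GRD_jl v l₁ b₂ hrho
          · exact GRD_jr v l₁ b₂ hrho
      · have hlt : l'.length < n := by
          rw [← hn]
          simp
        obtain ⟨b', hok, hperm, hpath, hrho⟩ := ih l'.length hlt l' hl' rfl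
        refine ⟨BT.it v s b', hok, ?_, ?_, ?_⟩
        · rw [eps]
          exact List.Perm.cons _ hperm
        · intro nu x y h
          simp only [pl, Path] at h ⊢
          exact ⟨h.1, hpath nu _ _ h.2⟩
        · exact GRD_it v s b' (fun h => hm (hperm.mem_iff.mp h)) hrho

end Pool.Agent.H53.SQ
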