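import Pool.Agent.H53.SQ.LABD

/-!
# Module LABY: step of the face labelling: local minima

We go DOWN through the drawing. `Inv` for the strands ABOVE the piece gives `Inv` for the strands BELOW
it. A strand with an even piece number points upwards, its left side is the gap `i` and its right side
is the gap `i + 1`; for odd numbers it is the other way round.

* `inv_ident`: identifying labels. Let `φ : ℕ → ℕ`. Composing all labels with `φ` (and `S' = S.image φ`)
  keeps all the fields except `count`, `count0`, which have to be given.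
* `inv_cup`: above there are the strands `(x, 2j+1), (x, 2j+2)` (`sw = false`) or
  `(x, 2j+2), (x, 2j+1)` (`sw = true`) at the indices `i, i+1` (`i = A.length`), below they are absent.
  Let `φ` send `g (i+2)` to `g i` and fix all other labels. New gaps: `g' t = φ (g t)` for `t ≤ i`,
  `g' t = φ (g (t+2))` for `t > i` (and `φ (g (i+2)) = φ (g i)`). All records are composed with `φ`,
  `S' = S.image φ`. After `φ` the sides of the two strands coincide: they are `{g (i+1), g i}`
  (`sw = false`: the odd strand at `i` has left side `g (i+1)`, right side `g i`; the even one at `i+1`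
  has left `g (i+1)`, right `g (i+2)`; `sw = true`: even at `i`: left `g i`, right `g (i+1)`, odd at `i+1`:
  left `g (i+2)`, right `g (i+1)`).
  `part`, `start`: if the old partner of a strand (or start) is the removed odd strand `(x, 2j+1)`, then
  replace it by what `part` gives for the even strand `(x, 2j+2)`: the processed end `nu x`, or an odd
  strand with a number `> 2j+2`, which is therefore not removed; the inequality of the numbers is kept.
  `cov`: the middle label `g (i+1)` is a side of the even strand, so it is recorded or the label of a gap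
  next to a surviving odd strand; `φ` of it is then a label of the same kind.
  `count`: `S.card` decreases by at most one, `q.length` by two. `count0`: if `A ++ B = []`, then
  `g 0 = g 2` by `outer`, so `φ` is the identity on all labels and `S' = S`, and
  `2 * c.card + 2 + 2 ≤ ...` is the old `count`; moreover the even strand has no partner (the other
  strand has a smaller number), so its end is processed and `g 0` is `iL (nu x)` or `iR (nu x)`.
-/

namespace Pool.Agent.H53.SQ

variable {V : Type} [DecidableEq V]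

theorem laby_fwd {α : Type} (A B : List α) (u v : α) (t : ℕ) (ht : t < (A ++ B).length) :
    ∃ (s : ℕ) (hs : s < (A ++ u :: v :: B).length), (A ++ u :: v :: B)[s] = (A ++ B)[t] ∧
      s = if t < A.length then t else t + 2 := by
  by_cases h : t < A.length
  · refine ⟨t, by simp; omega, ?_, by simp [h]⟩
    rw [List.getElem_append_left h, List.getElem_append_left h]
  · rw [List.length_append] at ht
    refine ⟨t + 2, by simp; omega, ?_, by simp [h]⟩
    rw [List.getElem_append_right (by omega), List.getElem_append_right (by omega)]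
    have h1 : t + 2 - A.length = (t - A.length) + 2 := by omega
    simp only [h1, List.getElem_cons_succ]

theorem laby_bwd {α : Type} (A B : List α) (u v : α) (s : ℕ) (hs : s < (A ++ u :: v :: B).length)
    (h1 : s ≠ A.length) (h2 : s ≠ A.length + 1) :
    ∃ (t : ℕ) (ht : t < (A ++ B).length), (A ++ B)[t] = (A ++ u :: v :: B)[s] ∧
      s = if t < A.length then t else t + 2 := by
  rw [List.length_append, List.length_cons, List.length_cons] at hs
  by_cases h : s < A.length
  · refine ⟨s, by simp; omega, ?_, by simp [h]⟩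
    rw [List.getElem_append_left h, List.getElem_append_left h]
  · obtain ⟨t, rfl⟩ : ∃ t, s = t + 2 := ⟨s - 2, by omega⟩
    refine ⟨t, by simp; omega, ?_, by rw [if_neg (by omega)]⟩
    rw [List.getElem_append_right (by omega), List.getElem_append_right (by omega)]
    have h1 : t + 2 - A.length = (t - A.length) + 2 := by omega
    simp only [h1, List.getElem_cons_succ]

/-- the core: `ev`, `od` are the indices of the even and the odd removed strand -/
theorem laby_core (nu : Option (V × Bool) → Option (V × Bool)) (A B : List (Option (V × Bool) × ℕ))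
    (c : Finset V) (bo di : Bool) (d : Lbl V) (x : Option (V × Bool)) (j : ℕ)
    (u v : Option (V × Bool) × ℕ) (h : Inv nu (A ++ u :: v :: B) c bo di d) (ev od : ℕ)
    (hevod : (ev = A.length ∧ od = A.length + 1) ∨ (ev = A.length + 1 ∧ od = A.length))
    (hev : ev < (A ++ u :: v :: B).length) (hod : od < (A ++ u :: v :: B).length)
    (hqe : (A ++ u :: v :: B)[ev] = (x, 2 * j + 2)) (hqo : (A ++ u :: v :: B)[od] = (x, 2 * j + 1)) :
    ∃ d' : Lbl V, Inv nu (A ++ B) c bo di d' := by
  classical
  set i := A.length with hi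
  set φ : ℕ → ℕ := fun a => if a = d.g (i + 2) then d.g i else a with hφ
  have hφ2 : φ (d.g (i + 2)) = φ (d.g i) := by
    simp only [hφ]
    split_ifs <;> simp_all
  set g' : ℕ → ℕ := fun t => if t ≤ i then φ (d.g t) else φ (d.g (t + 2)) with hg'
  have hgap : ∀ t s : ℕ, s = (if t < i then t else t + 2) → g' t = φ (d.g s) ∧ g' (t + 1) = φ (d.g (s + 1)) := by
    intro t s hs
    simp only [hg']
    by_cases h1 : t < i
    · rw [if_pos h1] at hs
      subst hs
      rw [if_pos h1.le, if_pos (by omega)]
      exact ⟨rfl, rfl⟩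
    · rw [if_neg h1] at hs
      subst hs
      rw [if_neg (by omega : ¬ t + 1 ≤ i)]
      refine ⟨?_, by rw [show t + 1 + 2 = t + 2 + 1 by omega]⟩
      by_cases h2 : t ≤ i
      · have h3 : t = i := by omega
        rw [if_pos h2, h3, hφ2]
      · rw [if_neg h2]
  have hlen : (A ++ u :: v :: B).length = (A ++ B).length + 2 := by simp; omega
  have hlenA : i ≤ (A ++ B).length := by simp [hi]
  have hsides : φ (d.g ev) = φ (d.g (od + 1)) ∧ φ (d.g (ev + 1)) = φ (d.g od) := by
    rcases hevod with ⟨h1, h2⟩ | ⟨h1, h2⟩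
    · rw [h1, h2]; exact ⟨hφ2.symm, rfl⟩
    · rw [h1, h2]; exact ⟨rfl, hφ2⟩
  set d' : Lbl V := ⟨g', fun z => φ (d.oL z), fun z => φ (d.oR z), fun z => φ (d.iL z), fun z => φ (d.iR z),
    d.S.image φ⟩ with hd'
  have hpe := h.part ev hev (by rw [hqe]; simp)
  have hnot : ∀ s (hs : s < (A ++ u :: v :: B).length), (A ++ u :: v :: B)[s].2 % 2 = 1 → s ≠ od →
      s ≠ A.length ∧ s ≠ A.length + 1 := by
    intro s hs h1 h2
    have h3 : s ≠ ev := by
      rintro rfl
      rw [hqe] at h1
      simp at h1
    rw [← hi]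
    rcases hevod with ⟨h4, h5⟩ | ⟨h4, h5⟩ <;> omega
  have hkey : (Done c di (nu x) ∧ φ (d.g ev) = d'.iL (nu x) ∧ φ (d.g (ev + 1)) = d'.iR (nu x)) ∨
      ∃ (t : ℕ) (ht : t < (A ++ B).length), (A ++ B)[t].1 = x ∧ (A ++ B)[t].2 % 2 = 1 ∧ 2 * j + 2 < (A ++ B)[t].2 ∧
        d'.g (t + 1) = φ (d.g ev) ∧ d'.g t = φ (d.g (ev + 1)) := by
    rcases hpe with ⟨h1, h2, h3⟩ | ⟨s, hs, h1, h2, h3, h4, h5⟩
    · left
      rw [hqe] at h1 h2 h3
      exact ⟨h1, by rw [h2], by rw [h3]⟩
    · right
      rw [hqe] at h1 h3
      have hne : s ≠ od := by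
        rintro rfl
        rw [hqo] at h3
        simp only at h3
        omega
      obtain ⟨h6, h7⟩ := hnot s hs h2 hne
      obtain ⟨t, ht, h8, h9⟩ := laby_bwd A B u v s hs h6 h7
      obtain ⟨h10, h11⟩ := hgap t s h9
      refine ⟨t, ht, by rw [h8, h1], by rw [h8, h2], by rw [h8]; exact h3, ?_, ?_⟩
      · show g' (t + 1) = _
        rw [h11, h4]
      · show g' t = _
        rw [h10, h5]
  refine ⟨d', ?_⟩
  have hRec : ∀ a, d.Rec c bo di a → d'.Rec c bo di (φ a) := by
    rintro a (⟨z, hz, h1⟩ | ⟨z, hz, h1⟩)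
    · left
      refine ⟨z, hz, ?_⟩
      rcases h1 with rfl | rfl
      · left; rfl
      · right; rfl
    · right
      refine ⟨z, hz, ?_⟩
      rcases h1 with rfl | rfl
      · left; rfl
      · right; rfl
  constructor
  · intro t ht
    show g' t ∈ d.S.image φ
    simp only [hg']
    split_ifs with h1
    · exact Finset.mem_image_of_mem _ (h.gS _ (by omega))
    · exact Finset.mem_image_of_mem _ (h.gS _ (by omega))
  · intro z hz
    exact ⟨Finset.mem_image_of_mem _ (h.oS z hz).1, Finset.mem_image_of_mem _ (h.oS z hz).2⟩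
  · intro z hz
    exact ⟨Finset.mem_image_of_mem _ (h.iS z hz).1, Finset.mem_image_of_mem _ (h.iS z hz).2⟩
  · intro a' ha'
    obtain ⟨a, ha, rfl⟩ := Finset.mem_image.1 ha'
    rcases h.cov a ha with ⟨s, hs, rfl⟩ | h1
    · rcases Nat.lt_trichotomy s (i + 1) with h2 | h2 | h2
      · left
        refine ⟨s, by omega, ?_⟩
        show φ (d.g s) = g' s
        simp only [hg']
        rw [if_pos (by omega)]
      · subst h2
        have h3 : φ (d.g (i + 1)) = φ (d.g ev) ∨ φ (d.g (i + 1)) = φ (d.g (ev + 1)) := by
          rcases hevod with ⟨h4, h5⟩ | ⟨h4, h5⟩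
          · right; rw [h4]
          · left; rw [h4]
        rcases hkey with ⟨h4, h5, h6⟩ | ⟨t, ht, _, _, _, h5, h6⟩
        · right
          right
          refine ⟨nu x, h4, ?_⟩
          rcases h3 with h3 | h3
          · left; rw [h3, h5]
          · right; rw [h3, h6]
        · left
          rcases h3 with h3 | h3
          · exact ⟨t + 1, by omega, by rw [h3, h5]⟩
          · exact ⟨t, by omega, by rw [h3, h6]⟩
      · left
        obtain ⟨t, rfl⟩ : ∃ t, s = t + 2 := ⟨s - 2, by omega⟩
        refine ⟨t, by omega, ?_⟩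
        show φ (d.g (t + 2)) = g' t
        exact (hgap t (t + 2) (by rw [if_neg (by omega)])).1.symm
    · exact Or.inr (hRec a h1)
  · show g' 0 = g' (A ++ B).length
    have h1 := (hgap (A ++ B).length ((A ++ B).length + 2) (by rw [if_neg (by omega)])).1
    rw [h1, ← hlen, ← h.outer]
    simp only [hg']
    rw [if_pos (Nat.zero_le _)]
  · intro z hz
    obtain ⟨h1, h2, h3, h4⟩ := h.feq z hz
    exact ⟨by show φ _ = φ _; rw [h1], by show φ _ = φ _; rw [h2], by show φ _ = φ _; rw [h3],
      by show φ _ = φ _; rw [h4]⟩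
  · intro h1
    show φ _ = φ _
    rw [h.die h1]
  · intro h1
    show φ _ = φ _
    rw [h.born h1]
  · intro t ht hev2
    obtain ⟨s, hs, h1, h2⟩ := laby_fwd A B u v t ht
    obtain ⟨h3, h4⟩ := hgap t s h2
    have h5 := h.part s hs (by rw [h1]; exact hev2)
    show (Done c di (nu (A ++ B)[t].1) ∧ g' t = φ (d.iL (nu (A ++ B)[t].1)) ∧ g' (t + 1) = φ (d.iR (nu (A ++ B)[t].1))) ∨
      ∃ (i' : ℕ) (h' : i' < (A ++ B).length), (A ++ B)[i'].1 = (A ++ B)[t].1 ∧ (A ++ B)[i'].2 % 2 = 1 ∧
        (A ++ B)[t].2 < (A ++ B)[i'].2 ∧ g' (i' + 1) = g' t ∧ g' i' = g' (t + 1)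
    rw [h1] at h5
    rcases h5 with ⟨h6, h7, h8⟩ | ⟨s', hs', h6, h7, h8, h9, h10⟩
    · left
      exact ⟨h6, by rw [h3, h7], by rw [h4, h8]⟩
    · by_cases hso : s' = od
      · subst hso
        rw [hqo] at h6 h8
        simp only at h6 h8
        rcases hkey with ⟨k1, k2, k3⟩ | ⟨t', ht', k1, k2, k3, k4, k5⟩
        · left
          rw [← h6]
          refine ⟨k1, ?_, ?_⟩
          · rw [h3, ← h9, ← hsides.1, k2]
          · rw [h4, ← h10, ← hsides.2, k3]
        · right
          refine ⟨t', ht', by rw [k1, h6], k2, by omega, ?_, ?_⟩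
          · rw [h3, ← h9, ← hsides.1, ← k4]
          · rw [h4, ← h10, ← hsides.2, ← k5]
      · obtain ⟨h11, h12⟩ := hnot s' hs' h7 hso
        obtain ⟨t', ht', k1, k2⟩ := laby_bwd A B u v s' hs' h11 h12
        obtain ⟨k3, k4⟩ := hgap t' s' k2
        right
        refine ⟨t', ht', by rw [k1, h6], by rw [k1, h7], by rw [k1]; exact h8, ?_, ?_⟩
        · rw [k4, h3, h9]
        · rw [k3, h4, h10]
  · intro z hz
    show (Done c di (nu z) ∧ φ (d.oL z) = φ (d.iL (nu z)) ∧ φ (d.oR z) = φ (d.iR (nu z))) ∨
      ∃ (i' : ℕ) (h' : i' < (A ++ B).length), (A ++ B)[i'].1 = z ∧ (A ++ B)[i'].2 % 2 = 1 ∧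
        g' (i' + 1) = φ (d.oL z) ∧ g' i' = φ (d.oR z)
    rcases h.start z hz with ⟨h6, h7, h8⟩ | ⟨s', hs', h6, h7, h9, h10⟩
    · left
      exact ⟨h6, by rw [h7], by rw [h8]⟩
    · by_cases hso : s' = od
      · subst hso
        rw [hqo] at h6
        simp only at h6
        subst h6
        rcases hkey with ⟨k1, k2, k3⟩ | ⟨t', ht', k1, k2, k3, k4, k5⟩
        · left
          refine ⟨k1, ?_, ?_⟩
          · rw [← h9, ← hsides.1, k2]
          · rw [← h10, ← hsides.2, k3]
        · right
          refine ⟨t', ht', k1, k2, ?_, ?_⟩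
          · rw [← h9, ← hsides.1, ← k4]
          · rw [← h10, ← hsides.2, ← k5]
      · obtain ⟨h11, h12⟩ := hnot s' hs' h7 hso
        obtain ⟨t', ht', k1, k2⟩ := laby_bwd A B u v s' hs' h11 h12
        obtain ⟨k3, k4⟩ := hgap t' s' k2
        right
        refine ⟨t', ht', by rw [k1, h6], by rw [k1, h7], ?_, ?_⟩
        · rw [k4, h9]
        · rw [k3, h10]
  · show 2 * c.card + (A ++ B).length + 2 ≤ 2 * (d.S.image φ).card + bo.toNat + di.toNat
    have h1 := h.count
    have h2 : d.S.erase (d.g (i + 2)) ⊆ d.S.image φ := by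
      intro a ha
      rw [Finset.mem_erase] at ha
      exact Finset.mem_image.2 ⟨a, ha.2, by simp only [hφ]; rw [if_neg ha.1]⟩
    have h3 := Finset.card_le_card h2
    have h4 : d.S.card ≤ (d.S.erase (d.g (i + 2))).card + 1 := by
      have := Finset.card_erase_add_one (h.gS (i + 2) (by omega))
      omega
    omega
  · intro hnil _
    have hA : A = [] := (List.append_eq_nil_iff.1 hnil).1
    have hB : B = [] := (List.append_eq_nil_iff.1 hnil).2
    have hi0 : i = 0 := by rw [hi, hA]; rfl
    have hl0 : (A ++ B).length = 0 := by rw [hnil]; rfl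
    have ho := h.outer
    rw [hlen, hl0] at ho
    have hid : ∀ a, φ a = a := by
      intro a
      simp only [hφ]
      rw [hi0, ho]
      split_ifs with h1
      · rw [h1]
      · rfl
    have hS : d.S.image φ = d.S := by
      have : φ = id := funext hid
      rw [this, Finset.image_id]
    constructor
    · show 2 * c.card + 4 ≤ 2 * (d.S.image φ).card + bo.toNat + di.toNat
      have h1 := h.count
      rw [hS]
      omega
    · rcases hkey with ⟨k1, k2, k3⟩ | ⟨t, ht, _⟩
      · right
        refine ⟨nu x, k1, ?_⟩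
        show g' 0 = _ ∨ g' 0 = _
        have h1 : g' 0 = φ (d.g 0) := by
          simp only [hg']
          rw [if_pos (Nat.zero_le _)]
        rcases hevod with ⟨h4, h5⟩ | ⟨h4, h5⟩
        · left
          rw [← k2, h1, h4, hi0]
        · right
          rw [← k3, h1, h4, hi0, ho]
      · omega

theorem inv_cup (nu : Option (V × Bool) → Option (V × Bool)) (A B : List (Option (V × Bool) × ℕ))
    (c : Finset V) (bo di : Bool) (d : Lbl V) (x : Option (V × Bool)) (j : ℕ) (sw : Bool)
    (h : Inv nu (A ++ (x, if sw then 2 * j + 2 else 2 * j + 1) ::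
      (x, if sw then 2 * j + 1 else 2 * j + 2) :: B) c bo di d) :
    ∃ d' : Lbl V, Inv nu (A ++ B) c bo di d' := by
  cases sw with
  | true =>
    refine laby_core nu A B c bo di d x j _ _ h A.length (A.length + 1) (Or.inl ⟨rfl, rfl⟩) (by simp) (by simp) ?_ ?_
    · simp
    · simp
  | false =>
    refine laby_core nu A B c bo di d x j _ _ h (A.length + 1) A.length (Or.inr ⟨rfl, rfl⟩) (by simp) (by simp) ?_ ?_
    · simp
    · simp

end Pool.Agent.H53.SQ
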