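import Pool.Agent.H53.SQ.LABD

/-!
# Module LABZ: steps of the face labelling: the two ends of the open strand

We go DOWN through the drawing. `Inv` for the strands ABOVE the piece gives `Inv` for the strands BELOW
it. A strand with an even piece number points upwards, its left side is the gap `i` and its right side
is the gap `i + 1`; for odd numbers it is the other way round.
-/

namespace Pool.Agent.H53.SQ

variable {V : Type} [DecidableEq V]

section Lists

variable {α : Type}

theorem labz_get_lt (A B : List α) (p : α) (t : ℕ) (h : t < A.length)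
    (h1 : t < (A ++ p :: B).length) (h2 : t < (A ++ B).length) :
    (A ++ p :: B)[t] = (A ++ B)[t] := by
  rw [List.getElem_append_left h, List.getElem_append_left h]

theorem labz_get_ge (A B : List α) (p : α) (t : ℕ) (h : A.length ≤ t)
    (h1 : t + 1 < (A ++ p :: B).length) (h2 : t < (A ++ B).length) :
    (A ++ p :: B)[t + 1] = (A ++ B)[t] := by
  rw [List.getElem_append_right (by omega), List.getElem_append_right h]
  have e : t + 1 - A.length = (t - A.length) + 1 := by omega
  simp only [e, List.getElem_cons_succ]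

theorem labz_get_mid (A B : List α) (p : α) (h1 : A.length < (A ++ p :: B).length) :
    (A ++ p :: B)[A.length] = p := by
  rw [List.getElem_append_right le_rfl]
  simp

end Lists

omit [DecidableEq V] in
theorem labz_del (A B : List (Option (V × Bool) × ℕ)) (p : Option (V × Bool) × ℕ)
    (hp : p.2 % 2 ≠ 1) (g g' : ℕ → ℕ) (φ : ℕ → ℕ) (hg1 : ∀ t ≤ A.length, g' t = φ (g t))
    (hg2 : ∀ t, A.length ≤ t → g' t = φ (g (t + 1))) (e : Option (V × Bool)) (Q : ℕ → Prop)
    (a b : ℕ)
    (h : ∃ (i' : ℕ) (h' : i' < (A ++ p :: B).length), (A ++ p :: B)[i'].1 = e ∧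
      (A ++ p :: B)[i'].2 % 2 = 1 ∧ Q (A ++ p :: B)[i'].2 ∧ g (i' + 1) = a ∧ g i' = b) :
    ∃ (i' : ℕ) (h' : i' < (A ++ B).length), (A ++ B)[i'].1 = e ∧
      (A ++ B)[i'].2 % 2 = 1 ∧ Q (A ++ B)[i'].2 ∧ g' (i' + 1) = φ a ∧ g' i' = φ b := by
  obtain ⟨i', h', h1, h2, h3, h4, h5⟩ := h
  have hlen : (A ++ p :: B).length = (A ++ B).length + 1 := by
    simp only [List.length_append, List.length_cons]
    omega
  have hlen2 : (A ++ B).length = A.length + B.length := List.length_append
  rcases lt_trichotomy i' A.length with hlt | heq | hgt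
  · have h6 : i' < (A ++ B).length := by omega
    have h7 := labz_get_lt A B p i' hlt h' h6
    rw [h7] at h1 h2 h3
    refine ⟨i', h6, h1, h2, h3, ?_, ?_⟩
    · rw [hg1 _ hlt, h4]
    · rw [hg1 _ hlt.le, h5]
  · exfalso
    subst heq
    rw [labz_get_mid] at h2
    exact hp h2
  · obtain ⟨k, rfl⟩ : ∃ k, i' = k + 1 := ⟨i' - 1, by omega⟩
    have h6 : k < (A ++ B).length := by omega
    have h7 := labz_get_ge A B p k (by omega) h' h6
    rw [h7] at h1 h2 h3
    refine ⟨k, h6, h1, h2, h3, ?_, ?_⟩
    · rw [hg2 _ (by omega), h4]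
    · rw [hg2 _ (by omega), h5]

omit [DecidableEq V] in
theorem labz_add (A B : List (Option (V × Bool) × ℕ)) (p : Option (V × Bool) × ℕ)
    (g g' : ℕ → ℕ) (hg1 : ∀ t ≤ A.length, g' t = g t)
    (hg2 : ∀ t, A.length ≤ t → g' (t + 1) = g t) (e : Option (V × Bool)) (Q : ℕ → Prop)
    (a b : ℕ)
    (h : ∃ (i' : ℕ) (h' : i' < (A ++ B).length), (A ++ B)[i'].1 = e ∧
      (A ++ B)[i'].2 % 2 = 1 ∧ Q (A ++ B)[i'].2 ∧ g (i' + 1) = a ∧ g i' = b) :
    ∃ (i' : ℕ) (h' : i' < (A ++ p :: B).length), (A ++ p :: B)[i'].1 = e ∧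
      (A ++ p :: B)[i'].2 % 2 = 1 ∧ Q (A ++ p :: B)[i'].2 ∧ g' (i' + 1) = a ∧ g' i' = b := by
  obtain ⟨i', h', h1, h2, h3, h4, h5⟩ := h
  have hlen : (A ++ p :: B).length = (A ++ B).length + 1 := by
    simp only [List.length_append, List.length_cons]
    omega
  rcases lt_or_ge i' A.length with hlt | hge
  · have h6 : i' < (A ++ p :: B).length := by omega
    have h7 := labz_get_lt A B p i' hlt h6 h'
    rw [← h7] at h1 h2 h3
    refine ⟨i', h6, h1, h2, h3, ?_, ?_⟩
    · rw [hg1 _ hlt, h4]
    · rw [hg1 _ hlt.le, h5]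
  · have h6 : i' + 1 < (A ++ p :: B).length := by omega
    have h7 := labz_get_ge A B p i' hge h6 h'
    rw [← h7] at h1 h2 h3
    refine ⟨i' + 1, h6, h1, h2, h3, ?_, ?_⟩
    · rw [hg2 _ (by omega), h4]
    · rw [hg2 _ hge, h5]

omit [DecidableEq V] in
theorem labz_done_false {c : Finset V} {x : Option (V × Bool)} (h : Done c false x) :
    x ≠ none ∧ ∀ f, Done c f x := by
  rcases x with _ | z
  · exact absurd h (by simp [Done])
  · exact ⟨by simp, fun f => h⟩

omit [DecidableEq V] in
theorem labz_done_some {c : Finset V} {z : V × Bool} {f f' : Bool} (h : Done c f (some z)) :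
    Done c f' (some z) := h

omit [DecidableEq V] in
theorem inv_nil (nu : Option (V × Bool) → Option (V × Bool)) :
    ∃ d : Lbl V, Inv nu [] ∅ false false d := by
  have hD : ∀ x : Option (V × Bool), ¬ Done (∅ : Finset V) false x := by
    rintro (_ | z) h
    · simp [Done] at h
    · simp [Done] at h
  refine ⟨⟨fun _ => 0, fun _ => 0, fun _ => 0, fun _ => 0, fun _ => 0, {0}⟩, ?_⟩
  constructor
  · intro i _
    exact Finset.mem_singleton_self _
  · intro x hx
    exact absurd hx (hD x)
  · intro x hx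
    exact absurd hx (hD x)
  · intro a ha
    exact Or.inl ⟨0, le_rfl, Finset.mem_singleton.1 ha⟩
  · rfl
  · intro v hv
    exact absurd hv (Finset.notMem_empty v)
  · intro h
    exact absurd h (by simp)
  · intro h
    exact absurd h (by simp)
  · intro i h
    exact absurd h (by simp)
  · intro x hx
    exact absurd hx (hD x)
  · simp
  · intro _ h
    simp at h

theorem inv_born (nu : Option (V × Bool) → Option (V × Bool)) (A B : List (Option (V × Bool) × ℕ))
    (c : Finset V) (di : Bool) (d : Lbl V) (h : Inv nu (A ++ (none, 0) :: B) c false di d) :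
    ∃ d' : Lbl V, Inv nu (A ++ B) c true di d' := by
  set n := A.length with hn
  set p : Option (V × Bool) × ℕ := (none, 0) with hp
  have hlen : (A ++ p :: B).length = (A ++ B).length + 1 := by
    simp only [List.length_append, List.length_cons]
    omega
  have hlen2 : (A ++ B).length = n + B.length := List.length_append
  let φ : ℕ → ℕ := fun a => if a = d.g (n + 1) then d.g n else a
  have φ1 : φ (d.g (n + 1)) = d.g n := if_pos rfl
  have φ0 : φ (d.g n) = d.g n := by
    change (if d.g n = d.g (n + 1) then d.g n else d.g n) = d.g n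
    split_ifs <;> rfl
  let d' : Lbl V :=
    { g := fun t => if t ≤ n then φ (d.g t) else φ (d.g (t + 1))
      oL := fun x => if x = none then φ (d.g n) else φ (d.oL x)
      oR := fun x => if x = none then φ (d.g n) else φ (d.oR x)
      iL := fun y => φ (d.iL y)
      iR := fun y => φ (d.iR y)
      S := d.S.image φ }
  have hg1 : ∀ t ≤ n, d'.g t = φ (d.g t) := fun t ht => if_pos ht
  have hg2 : ∀ t, n ≤ t → d'.g t = φ (d.g (t + 1)) := by
    intro t ht
    rcases ht.eq_or_lt with rfl | hlt
    · rw [hg1 _ le_rfl, φ0, φ1]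
    · exact if_neg (by omega)
  have hoL : ∀ z, d'.oL (some z) = φ (d.oL (some z)) := fun z => rfl
  have hoR : ∀ z, d'.oR (some z) = φ (d.oR (some z)) := fun z => rfl
  have hoL0 : d'.oL none = φ (d.g n) := rfl
  have hoR0 : d'.oR none = φ (d.g n) := rfl
  have himg : ∀ a ∈ d.S, φ a ∈ d'.S := fun a ha => Finset.mem_image_of_mem _ ha
  have hgS : ∀ t ≤ (A ++ p :: B).length, d.g t ∈ d.S := h.gS
  have hn' : n < (A ++ p :: B).length := by omega
  have hmid : (A ++ p :: B)[n] = p := labz_get_mid A B p hn'
  have hp1 : p.2 % 2 ≠ 1 := by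
    rw [hp]
    simp
  refine ⟨d', ?_⟩
  constructor
  · intro t ht
    rcases le_or_gt t n with h1 | h1
    · rw [hg1 t h1]
      exact himg _ (hgS _ (by omega))
    · rw [hg2 t h1.le]
      exact himg _ (hgS _ (by omega))
  · rintro (_ | z) hx
    · rw [hoL0, hoR0]
      exact ⟨himg _ (hgS _ hn'.le), himg _ (hgS _ hn'.le)⟩
    · rw [hoL, hoR]
      have := h.oS (some z) (labz_done_some hx)
      exact ⟨himg _ this.1, himg _ this.2⟩
  · intro y hy
    have := h.iS y hy
    exact ⟨himg _ this.1, himg _ this.2⟩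
  · intro a ha
    obtain ⟨b, hb, rfl⟩ := Finset.mem_image.1 ha
    rcases h.cov b hb with ⟨t, ht, rfl⟩ | ⟨x, hx, hx'⟩ | ⟨y, hy, hy'⟩
    · left
      rcases le_or_gt t n with h1 | h1
      · exact ⟨t, by omega, (hg1 t h1).symm⟩
      · refine ⟨t - 1, by omega, ?_⟩
        rw [hg2 (t - 1) (by omega)]
        congr 2
        omega
    · right
      left
      obtain ⟨hne, hall⟩ := labz_done_false hx
      obtain ⟨z, rfl⟩ := Option.ne_none_iff_exists'.1 hne
      refine ⟨some z, hall true, ?_⟩
      rw [hoL, hoR]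
      rcases hx' with rfl | rfl
      · exact Or.inl rfl
      · exact Or.inr rfl
    · right
      right
      refine ⟨y, hy, ?_⟩
      rcases hy' with rfl | rfl
      · exact Or.inl rfl
      · exact Or.inr rfl
  · have h1 := h.outer
    rw [hg1 0 (Nat.zero_le _), hg2 _ (by omega), ← hlen, h1]
  · intro v hv
    obtain ⟨h1, h2, h3, h4⟩ := h.feq v hv
    refine ⟨congrArg φ h1, ?_, ?_, ?_⟩
    · rw [hoR, hoL, h2]
    · rw [hoL]
      exact congrArg φ h3
    · rw [hoR]
      exact congrArg φ h4
  · intro hdi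
    exact congrArg φ (h.die hdi)
  · intro _
    rw [hoL0, hoR0]
  · intro t ht hev
    rcases lt_or_ge t n with h1 | h1
    · have e1 := labz_get_lt A B p t h1 (by omega) ht
      rw [← e1] at hev ⊢
      rcases h.part t (by omega) hev with ⟨ha, hb, hc⟩ | hpart
      · left
        refine ⟨ha, ?_, ?_⟩
        · rw [hg1 t h1.le, hb]
        · rw [hg1 (t + 1) h1, hc]
      · right
        have := labz_del A B p hp1 d.g d'.g φ hg1 hg2 _
          (fun k => (A ++ p :: B)[t].2 < k) _ _ hpart
        rw [← hg1 t h1.le, ← hg1 (t + 1) h1] at this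
        exact this
    · have e1 := labz_get_ge A B p t h1 (by omega) ht
      rw [← e1] at hev ⊢
      rcases h.part (t + 1) (by omega) hev with ⟨ha, hb, hc⟩ | hpart
      · left
        refine ⟨ha, ?_, ?_⟩
        · rw [hg2 t h1, hb]
        · rw [hg2 (t + 1) (by omega), hc]
      · right
        have := labz_del A B p hp1 d.g d'.g φ hg1 hg2 _
          (fun k => (A ++ p :: B)[t + 1].2 < k) _ _ hpart
        rw [← hg2 t h1, ← hg2 (t + 1) (by omega)] at this
        exact this
  · rintro (_ | z) hx
    · rw [hoL0, hoR0]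
      have hev : (A ++ p :: B)[n].2 % 2 = 0 := by rw [hmid]; rfl
      rcases h.part n hn' hev with ⟨ha, hb, hc⟩ | hpart
      · left
        rw [hmid] at ha hb hc
        refine ⟨ha, ?_, ?_⟩
        · rw [hb]
        · rw [φ0, ← φ1, hc]
      · right
        rw [hmid] at hpart
        obtain ⟨i', h', k1, k2, -, k4, k5⟩ := labz_del A B p hp1 d.g d'.g φ hg1 hg2 _
          (fun k => p.2 < k) _ _ hpart
        refine ⟨i', h', k1, k2, k4, ?_⟩
        rw [k5, φ1, φ0]
    · rw [hoL, hoR]
      rcases h.start (some z) (labz_done_some hx) with ⟨ha, hb, hc⟩ | hst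
      · left
        exact ⟨ha, congrArg φ hb, congrArg φ hc⟩
      · right
        obtain ⟨i', h', k1, k2, k4, k5⟩ := hst
        obtain ⟨i', h', k1, k2, -, k4, k5⟩ := labz_del A B p hp1 d.g d'.g φ hg1 hg2 _
          (fun _ => True) _ _ ⟨i', h', k1, k2, trivial, k4, k5⟩
        exact ⟨i', h', k1, k2, k4, k5⟩
  · have h1 := h.count
    have h2 : d.S.card ≤ d'.S.card + 1 := by
      have h3 : d.S.erase (d.g (n + 1)) ⊆ d'.S := by
        intro a ha
        have h4 : a ≠ d.g (n + 1) := Finset.ne_of_mem_erase ha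
        have h5 : φ a = a := if_neg h4
        rw [← h5]
        exact himg _ (Finset.mem_of_mem_erase ha)
      have h4 := Finset.card_le_card h3
      have h5 := Finset.pred_card_le_card_erase (s := d.S) (a := d.g (n + 1))
      omega
    rw [hlen] at h1
    simp only [Bool.toNat_false, Bool.toNat_true] at h1 ⊢
    omega
  · intro hq _
    have hA : A = [] := (List.append_eq_nil_iff.1 hq).1
    have hn0 : n = 0 := by rw [hn, hA, List.length_nil]
    have hq0 : (A ++ B).length = 0 := by rw [hq, List.length_nil]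
    have h1 := h.outer
    rw [hlen, hq0] at h1
    have hid : ∀ a, φ a = a := by
      intro a
      change (if a = d.g (n + 1) then d.g n else a) = a
      split_ifs with h2
      · rw [h2, hn0, h1]
      · rfl
    have hS : d'.S = d.S := by
      change d.S.image φ = d.S
      have : φ = id := funext hid
      rw [this, Finset.image_id]
    have h2 := h.count
    rw [hlen, hq0] at h2
    constructor
    · rw [hS]
      simp only [Bool.toNat_false, Bool.toNat_true] at h2 ⊢
      omega
    · left
      refine ⟨none, rfl, Or.inl ?_⟩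
      rw [hoL0, hg1 0 (Nat.zero_le _), hn0]

theorem inv_die (nu : Option (V × Bool) → Option (V × Bool)) (A B : List (Option (V × Bool) × ℕ))
    (c : Finset V) (bo : Bool) (d : Lbl V) (h : Inv nu (A ++ B) c bo false d)
    (x : Option (V × Bool)) (j : ℕ) (hx : nu x = none) :
    ∃ d' : Lbl V, Inv nu (A ++ (x, 2 * j) :: B) c bo true d' := by
  set n := A.length with hn
  set p : Option (V × Bool) × ℕ := (x, 2 * j) with hp
  have hlen : (A ++ p :: B).length = (A ++ B).length + 1 := by
    simp only [List.length_append, List.length_cons]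
    omega
  have hlen2 : (A ++ B).length = n + B.length := List.length_append
  let d' : Lbl V :=
    { g := fun t => if t ≤ n then d.g t else d.g (t - 1)
      oL := d.oL
      oR := d.oR
      iL := fun y => if y = none then d.g n else d.iL y
      iR := fun y => if y = none then d.g n else d.iR y
      S := d.S }
  have hg1 : ∀ t ≤ n, d'.g t = d.g t := fun t ht => if_pos ht
  have hg2 : ∀ t, n ≤ t → d'.g (t + 1) = d.g t := fun t ht => if_neg (by omega)
  have hiL : ∀ z, d'.iL (some z) = d.iL (some z) := fun z => rfl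
  have hiR : ∀ z, d'.iR (some z) = d.iR (some z) := fun z => rfl
  have hiL0 : d'.iL none = d.g n := rfl
  have hiR0 : d'.iR none = d.g n := rfl
  have hn' : n < (A ++ p :: B).length := by omega
  have hmid : (A ++ p :: B)[n] = p := labz_get_mid A B p hn'
  have hnew : ∀ e : Option (V × Bool), Done c false e →
      Done c true e ∧ d'.iL e = d.iL e ∧ d'.iR e = d.iR e := by
    intro e he
    obtain ⟨hne, hall⟩ := labz_done_false he
    obtain ⟨z, rfl⟩ := Option.ne_none_iff_exists'.1 hne
    exact ⟨hall true, hiL z, hiR z⟩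
  refine ⟨d', ?_⟩
  constructor
  · intro t ht
    rcases le_or_gt t n with h1 | h1
    · rw [hg1 t h1]
      exact h.gS t (by omega)
    · obtain ⟨k, rfl⟩ : ∃ k, t = k + 1 := ⟨t - 1, by omega⟩
      rw [hg2 k (by omega)]
      exact h.gS k (by omega)
  · exact h.oS
  · rintro (_ | z) hy
    · rw [hiL0, hiR0]
      exact ⟨h.gS n (by omega), h.gS n (by omega)⟩
    · rw [hiL, hiR]
      exact h.iS (some z) (labz_done_some hy)
  · intro a ha
    rcases h.cov a ha with ⟨t, ht, rfl⟩ | hrec | ⟨y, hy, hy'⟩
    · left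
      rcases le_or_gt t n with h1 | h1
      · exact ⟨t, by omega, (hg1 t h1).symm⟩
      · exact ⟨t + 1, by omega, (hg2 t h1.le).symm⟩
    · right
      left
      exact hrec
    · right
      right
      obtain ⟨h1, h2, h3⟩ := hnew y hy
      refine ⟨y, h1, ?_⟩
      rw [h2, h3]
      exact hy'
  · rw [hlen, hg1 0 (Nat.zero_le _), hg2 _ (by omega)]
    exact h.outer
  · intro v hv
    obtain ⟨h1, h2, h3, h4⟩ := h.feq v hv
    refine ⟨?_, h2, ?_, ?_⟩
    · rw [hiR, hiL, h1]
    · rw [hiL]
      exact h3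
    · rw [hiR]
      exact h4
  · intro _
    rw [hiL0, hiR0]
  · exact h.born
  · intro t ht hev
    rcases lt_trichotomy t n with h1 | h1 | h1
    · have e1 := labz_get_lt A B p t h1 ht (by omega)
      rw [e1] at hev ⊢
      rcases h.part t (by omega) hev with ⟨ha, hb, hc⟩ | hpart
      · left
        obtain ⟨k1, k2, k3⟩ := hnew _ ha
        refine ⟨k1, ?_, ?_⟩
        · rw [hg1 t h1.le, hb, k2]
        · rw [hg1 (t + 1) h1, hc, k3]
      · right
        rw [hg1 t h1.le, hg1 (t + 1) h1]
        exact labz_add A B p d.g d'.g hg1 hg2 _ (fun k => (A ++ B)[t].2 < k) _ _ hpart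
    · subst h1
      left
      rw [hmid]
      change Done c true (nu x) ∧ _ = d'.iL (nu x) ∧ _ = d'.iR (nu x)
      rw [hx, hiL0, hiR0, hg1 n le_rfl, hg2 n le_rfl]
      exact ⟨rfl, rfl, rfl⟩
    · obtain ⟨k, rfl⟩ : ∃ k, t = k + 1 := ⟨t - 1, by omega⟩
      have e1 := labz_get_ge A B p k (by omega) ht (by omega)
      rw [e1] at hev ⊢
      rcases h.part k (by omega) hev with ⟨ha, hb, hc⟩ | hpart
      · left
        obtain ⟨k1, k2, k3⟩ := hnew _ ha
        refine ⟨k1, ?_, ?_⟩
        · rw [hg2 k (by omega), hb, k2]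
        · rw [hg2 (k + 1) (by omega), hc, k3]
      · right
        rw [hg2 k (by omega), hg2 (k + 1) (by omega)]
        exact labz_add A B p d.g d'.g hg1 hg2 _ (fun l => (A ++ B)[k].2 < l) _ _ hpart
  · intro e he
    rcases h.start e he with ⟨ha, hb, hc⟩ | hst
    · left
      obtain ⟨k1, k2, k3⟩ := hnew _ ha
      refine ⟨k1, ?_, ?_⟩
      · rw [k2]
        exact hb
      · rw [k3]
        exact hc
    · right
      obtain ⟨i', h', k1, k2, k4, k5⟩ := hst
      obtain ⟨i', h', k1, k2, -, k4, k5⟩ := labz_add A B p d.g d'.g hg1 hg2 _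
        (fun _ => True) _ _ ⟨i', h', k1, k2, trivial, k4, k5⟩
      exact ⟨i', h', k1, k2, k4, k5⟩
  · have h1 := h.count
    rw [hlen]
    simp only [Bool.toNat_false, Bool.toNat_true] at h1 ⊢
    change _ ≤ 2 * d.S.card + _ + _
    omega
  · intro hq
    exact absurd hq (by simp)

end Pool.Agent.H53.SQ
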