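import Pool.Agent.H53.SQ.LABX
import Pool.Agent.H53.SQ.LABY
import Pool.Agent.H53.SQ.LABZ

/-!
# Module LAB: a planar drawing has many faces (Euler's formula), component by component

`Pin P ps x`: the end (or edge) `x` belongs to the chosen part of the diagram: crossings in `P`, and the
open strand if `ps = true`; the part is closed under `nu`.

PROOF. Let `sel st` be the list of the strands of `st` that belong to the part: `(x, j)` for the entries
`(inl x, j)` with `Pin P ps x` (`List.filterMap`). Claim, by induction on `h : Lab O st e t` with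
`t.Nodup`: there is `d` with
`Inv O.nu (sel st) (P.filter (fun v => cross v ∈ t)) (decide (ps = true ∧ born ∈ t))
  (decide (ps = true ∧ die ∈ t)) d`
(classical decidability). `nil`: `inv_nil`. `cap₁, cap₂`: `inv_cap` if the edge is in the part, nothing
otherwise. `cup₁, cup₂`: `inv_cup`. `loop₁, loop₂`: not in the part. `cross`: `x, y` are in the part iff
`v ∈ P` (`hP`), and so are the edges starting at `v`: `inv_cross`; `v` is new by `Nodup`.
`born`, `die`: `inv_born`, `inv_die` if `ps`, nothing otherwise (for `ps = false` the edge `none`, resp.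
the edge `x` with `nu x = none`, is not in the part).
At the end `st = []`, and `Draws` gives: all `v ∈ P` are processed, and `bo = di = ps`. Put
`ℓ = d.iL`, `r = d.iR`; `start` gives `oL x = iL (nu x)`, `oR x = iR (nu x)` for all `x` of the part; so
`feq`, `die`, `born` give the equations. The labels in `S` are `g 0`, which is recorded by `count0`, and
recorded labels (`cov`), i.e. of the form `ℓ x` or `r x` with `Pin P ps x` (for the records `oL x` use
`nu x` and `hP`). `count0`: `2 * P.card + 4 ≤ 2 * S.card + 2 * ps.toNat`.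
-/

namespace Pool.Agent.H53.SQ

variable {V : Type}

def Pin (P : Finset V) (ps : Bool) : Option (V × Bool) → Prop
  | none => ps = true
  | some z => z.1 ∈ P

open Classical in
/-- the strands of the part -/
noncomputable def LAB_sel (P : Finset V) (ps : Bool) {L : ℕ} (st : List (Edge V L × ℕ)) :
    List (Option (V × Bool) × ℕ) :=
  st.filterMap (fun s => match s with
    | (Sum.inl x, j) => if Pin P ps x then some (x, j) else none
    | (Sum.inr _, _) => none)

theorem LAB_sel_append (P : Finset V) (ps : Bool) {L : ℕ} (A B : List (Edge V L × ℕ)) :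
    LAB_sel P ps (A ++ B) = LAB_sel P ps A ++ LAB_sel P ps B := by
  simp [LAB_sel, List.filterMap_append]

theorem LAB_sel_nil (P : Finset V) (ps : Bool) {L : ℕ} :
    LAB_sel P ps ([] : List (Edge V L × ℕ)) = [] := rfl

theorem LAB_sel_pos (P : Finset V) (ps : Bool) {L : ℕ} (x : Option (V × Bool)) (j : ℕ)
    (B : List (Edge V L × ℕ)) (h : Pin P ps x) :
    LAB_sel P ps ((Sum.inl x, j) :: B) = (x, j) :: LAB_sel P ps B := by
  unfold LAB_sel
  rw [List.filterMap_cons_some]
  simp [h]

theorem LAB_sel_neg (P : Finset V) (ps : Bool) {L : ℕ} (x : Option (V × Bool)) (j : ℕ)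
    (B : List (Edge V L × ℕ)) (h : ¬ Pin P ps x) :
    LAB_sel P ps ((Sum.inl x, j) :: B) = LAB_sel P ps B := by
  unfold LAB_sel
  rw [List.filterMap_cons_none]
  simp [h]

theorem LAB_sel_inr (P : Finset V) (ps : Bool) {L : ℕ} (i : Fin L) (j : ℕ)
    (B : List (Edge V L × ℕ)) :
    LAB_sel P ps ((Sum.inr i, j) :: B) = LAB_sel P ps B := by
  unfold LAB_sel
  rw [List.filterMap_cons_none]
  rfl

open Classical in
/-- processed crossings of the part -/
noncomputable def LAB_c (P : Finset V) {L : ℕ} (t : List (Tok V L)) : Finset V :=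
  P.filter (fun v => Tok.cross v ∈ t)

open Classical in
noncomputable def LAB_b (ps : Bool) {L : ℕ} (t : List (Tok V L)) : Bool := decide (ps = true ∧ Tok.born ∈ t)

open Classical in
noncomputable def LAB_d (ps : Bool) {L : ℕ} (t : List (Tok V L)) : Bool := decide (ps = true ∧ Tok.die ∈ t)

theorem LAB_c_cons (P : Finset V) {L : ℕ} (t : List (Tok V L)) (a : Tok V L)
    (ha : ∀ v, Tok.cross v ≠ a) : LAB_c P (a :: t) = LAB_c P t := by
  classical
  ext u
  simp only [LAB_c, Finset.mem_filter, List.mem_cons]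
  constructor
  · rintro ⟨h, h' | h'⟩
    · exact absurd h' (ha u)
    · exact ⟨h, h'⟩
  · rintro ⟨h, h'⟩
    exact ⟨h, Or.inr h'⟩

theorem LAB_main [DecidableEq V] (O : Code V) (P : Finset V) (ps : Bool)
    (hP : ∀ x, Pin P ps (O.nu x) ↔ Pin P ps x) {st : List (Edge V O.loops × ℕ)} {e : List Gen}
    {t : List (Tok V O.loops)} (h : Lab O st e t) (ht : t.Nodup) :
    ∃ d : Lbl V, Inv O.nu (LAB_sel P ps st) (LAB_c P t) (LAB_b ps t) (LAB_d ps t) d := by
  induction h with
  | nil =>
    have h1 : LAB_c P ([] : List (Tok V O.loops)) = ∅ := by simp [LAB_c]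
    have h2 : LAB_b ps ([] : List (Tok V O.loops)) = false := by simp [LAB_b]
    have h3 : LAB_d ps ([] : List (Tok V O.loops)) = false := by simp [LAB_d]
    rw [h1, h2, h3]
    exact inv_nil O.nu
  | cup₁ A B x j e t h ih =>
    obtain ⟨d, hd⟩ := ih (List.nodup_cons.mp ht).2
    have h1 : LAB_c P (Tok.bend x j :: t) = LAB_c P t := LAB_c_cons P t _ (by intro v h; cases h)
    have h2 : LAB_b ps (Tok.bend x j :: t) = LAB_b ps t := by simp [LAB_b]
    have h3 : LAB_d ps (Tok.bend x j :: t) = LAB_d ps t := by simp [LAB_d]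
    rw [h1, h2, h3, LAB_sel_append]
    rw [LAB_sel_append] at hd
    rcases x with x | i
    · by_cases hx : Pin P ps x
      · rw [LAB_sel_pos _ _ _ _ _ hx, LAB_sel_pos _ _ _ _ _ hx] at hd
        exact inv_cup O.nu _ _ _ _ _ d x j true (by simpa using hd)
      · rw [LAB_sel_neg _ _ _ _ _ hx, LAB_sel_neg _ _ _ _ _ hx] at hd
        exact ⟨d, hd⟩
    · rw [LAB_sel_inr, LAB_sel_inr] at hd
      exact ⟨d, hd⟩
  | cup₂ A B x j e t h ih =>
    obtain ⟨d, hd⟩ := ih (List.nodup_cons.mp ht).2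
    have h1 : LAB_c P (Tok.bend x j :: t) = LAB_c P t := LAB_c_cons P t _ (by intro v h; cases h)
    have h2 : LAB_b ps (Tok.bend x j :: t) = LAB_b ps t := by simp [LAB_b]
    have h3 : LAB_d ps (Tok.bend x j :: t) = LAB_d ps t := by simp [LAB_d]
    rw [h1, h2, h3, LAB_sel_append]
    rw [LAB_sel_append] at hd
    rcases x with x | i
    · by_cases hx : Pin P ps x
      · rw [LAB_sel_pos _ _ _ _ _ hx, LAB_sel_pos _ _ _ _ _ hx] at hd
        exact inv_cup O.nu _ _ _ _ _ d x j false (by simpa using hd)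
      · rw [LAB_sel_neg _ _ _ _ _ hx, LAB_sel_neg _ _ _ _ _ hx] at hd
        exact ⟨d, hd⟩
    · rw [LAB_sel_inr, LAB_sel_inr] at hd
      exact ⟨d, hd⟩
  | cap₁ A B x j e t h ih =>
    obtain ⟨d, hd⟩ := ih ht
    rw [LAB_sel_append]
    rw [LAB_sel_append] at hd
    rcases x with x | i
    · by_cases hx : Pin P ps x
      · rw [LAB_sel_pos _ _ _ _ _ hx, LAB_sel_pos _ _ _ _ _ hx]
        have := inv_cap O.nu _ _ _ _ _ d hd x j false
        simpa using this
      · rw [LAB_sel_neg _ _ _ _ _ hx, LAB_sel_neg _ _ _ _ _ hx]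
        exact ⟨d, hd⟩
    · rw [LAB_sel_inr, LAB_sel_inr]
      exact ⟨d, hd⟩
  | cap₂ A B x j e t h ih =>
    obtain ⟨d, hd⟩ := ih ht
    rw [LAB_sel_append]
    rw [LAB_sel_append] at hd
    rcases x with x | i
    · by_cases hx : Pin P ps x
      · rw [LAB_sel_pos _ _ _ _ _ hx, LAB_sel_pos _ _ _ _ _ hx]
        have := inv_cap O.nu _ _ _ _ _ d hd x j true
        simpa using this
      · rw [LAB_sel_neg _ _ _ _ _ hx, LAB_sel_neg _ _ _ _ _ hx]
        exact ⟨d, hd⟩
    · rw [LAB_sel_inr, LAB_sel_inr]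
      exact ⟨d, hd⟩
  | loop₁ A B i j e t h ih =>
    obtain ⟨d, hd⟩ := ih (List.nodup_cons.mp ht).2
    have h1 : LAB_c P (Tok.loop i :: t) = LAB_c P t := LAB_c_cons P t _ (by intro v h; cases h)
    have h2 : LAB_b ps (Tok.loop i :: t) = LAB_b ps t := by simp [LAB_b]
    have h3 : LAB_d ps (Tok.loop i :: t) = LAB_d ps t := by simp [LAB_d]
    rw [h1, h2, h3, LAB_sel_append]
    rw [LAB_sel_append, LAB_sel_inr, LAB_sel_inr] at hd
    exact ⟨d, hd⟩
  | loop₂ A B i j e t h ih =>
    obtain ⟨d, hd⟩ := ih (List.nodup_cons.mp ht).2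
    have h1 : LAB_c P (Tok.loop i :: t) = LAB_c P t := LAB_c_cons P t _ (by intro v h; cases h)
    have h2 : LAB_b ps (Tok.loop i :: t) = LAB_b ps t := by simp [LAB_b]
    have h3 : LAB_d ps (Tok.loop i :: t) = LAB_d ps t := by simp [LAB_d]
    rw [h1, h2, h3, LAB_sel_append]
    rw [LAB_sel_append, LAB_sel_inr, LAB_sel_inr] at hd
    exact ⟨d, hd⟩
  | cross A B v x y i j e t hx hy h ih =>
    obtain ⟨hvt, ht'⟩ := List.nodup_cons.mp ht
    obtain ⟨d, hd⟩ := ih ht'
    have h2 : LAB_b ps (Tok.cross v :: t) = LAB_b ps t := by simp [LAB_b]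
    have h3 : LAB_d ps (Tok.cross v :: t) = LAB_d ps t := by simp [LAB_d]
    have hpx : Pin P ps x ↔ v ∈ P := by rw [← hP x, hx]; rfl
    have hpy : Pin P ps y ↔ v ∈ P := by rw [← hP y, hy]; rfl
    have hpF : ∀ s : Bool, Pin P ps (some (v, s)) ↔ v ∈ P := fun s => Iff.rfl
    rw [h2, h3, LAB_sel_append]
    rw [LAB_sel_append] at hd
    by_cases hv : v ∈ P
    · have h1 : LAB_c P (Tok.cross v :: t) = insert v (LAB_c P t) := by
        ext u
        simp only [LAB_c, Finset.mem_filter, Finset.mem_insert, List.mem_cons, Tok.cross.injEq]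
        constructor
        · rintro ⟨hu, rfl | hu'⟩
          · exact Or.inl rfl
          · exact Or.inr ⟨hu, hu'⟩
        · rintro (rfl | ⟨hu, hu'⟩)
          · exact ⟨hv, Or.inl rfl⟩
          · exact ⟨hu, Or.inr hu'⟩
      have hvc : v ∉ LAB_c P t := by
        simp only [LAB_c, Finset.mem_filter, not_and]
        intro _
        exact hvt
      rw [h1, LAB_sel_pos _ _ _ _ _ (hpx.mpr hv), LAB_sel_pos _ _ _ _ _ (hpy.mpr hv)]
      rw [LAB_sel_pos _ _ _ _ _ ((hpF false).mpr hv), LAB_sel_pos _ _ _ _ _ ((hpF true).mpr hv)] at hd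
      exact inv_cross O.nu _ _ _ _ _ d v hvc hd x y i j hx hy
    · have h1 : LAB_c P (Tok.cross v :: t) = LAB_c P t := by
        ext u
        simp only [LAB_c, Finset.mem_filter, List.mem_cons, Tok.cross.injEq]
        constructor
        · rintro ⟨hu, rfl | hu'⟩
          · exact absurd hu hv
          · exact ⟨hu, hu'⟩
        · rintro ⟨hu, hu'⟩
          exact ⟨hu, Or.inr hu'⟩
      rw [h1, LAB_sel_neg _ _ _ _ _ (fun h => hv (hpx.mp h)), LAB_sel_neg _ _ _ _ _ (fun h => hv (hpy.mp h))]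
      rw [LAB_sel_neg _ _ _ _ _ (fun h => hv ((hpF false).mp h)),
        LAB_sel_neg _ _ _ _ _ (fun h => hv ((hpF true).mp h))] at hd
      exact ⟨d, hd⟩
  | born A B e t h ih =>
    obtain ⟨hvt, ht'⟩ := List.nodup_cons.mp ht
    obtain ⟨d, hd⟩ := ih ht'
    have h1 : LAB_c P (Tok.born :: t) = LAB_c P t := LAB_c_cons P t _ (by intro v h; cases h)
    have h3 : LAB_d ps (Tok.born :: t) = LAB_d ps t := by simp [LAB_d]
    rw [h1, h3, LAB_sel_append]
    rw [LAB_sel_append] at hd
    by_cases hps : ps = true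
    · have h2 : LAB_b ps (Tok.born :: t) = true := by simp [LAB_b, hps]
      have h2' : LAB_b ps t = false := by simp [LAB_b, hvt]
      rw [LAB_sel_pos _ _ _ _ _ (show Pin P ps none from hps), h2'] at hd
      rw [h2]
      exact inv_born O.nu _ _ _ _ d hd
    · have h2 : LAB_b ps (Tok.born :: t) = LAB_b ps t := by simp [LAB_b, hps]
      rw [LAB_sel_neg _ _ _ _ _ (show ¬ Pin P ps none from hps)] at hd
      rw [h2]
      exact ⟨d, hd⟩
  | die A B x j e t hx h ih =>
    obtain ⟨hvt, ht'⟩ := List.nodup_cons.mp ht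
    obtain ⟨d, hd⟩ := ih ht'
    have h1 : LAB_c P (Tok.die :: t) = LAB_c P t := LAB_c_cons P t _ (by intro v h; cases h)
    have h2 : LAB_b ps (Tok.die :: t) = LAB_b ps t := by simp [LAB_b]
    have hpx : Pin P ps x ↔ ps = true := by rw [← hP x, hx]; rfl
    rw [h1, h2, LAB_sel_append]
    rw [LAB_sel_append] at hd
    by_cases hps : ps = true
    · have h3 : LAB_d ps (Tok.die :: t) = true := by simp [LAB_d, hps]
      have h3' : LAB_d ps t = false := by simp [LAB_d, hvt]
      rw [h3'] at hd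
      rw [h3, LAB_sel_pos _ _ _ _ _ (hpx.mpr hps)]
      exact inv_die O.nu _ _ _ _ d hd x j hx
    · have h3 : LAB_d ps (Tok.die :: t) = LAB_d ps t := by simp [LAB_d, hps]
      rw [h3, LAB_sel_neg _ _ _ _ _ (fun h => hps (hpx.mp h))]
      exact ⟨d, hd⟩

theorem faces [Fintype V] [DecidableEq V] (O : Code V) (e : List Gen) (hD : Draws O e)
    (P : Finset V) (ps : Bool) (hP : ∀ x, Pin P ps (O.nu x) ↔ Pin P ps x)
    (hne : ps = true ∨ P.Nonempty) :
    ∃ ℓ r : Option (V × Bool) → ℕ,
      (∀ v ∈ P, r (some (v, false)) = ℓ (some (v, true)) ∧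
        r (O.nu (some (v, false))) = ℓ (O.nu (some (v, true))) ∧
        ℓ (some (v, false)) = ℓ (O.nu (some (v, false))) ∧
        r (some (v, true)) = r (O.nu (some (v, true)))) ∧
      (ps = true → ℓ (O.nu none) = r (O.nu none) ∧ ℓ none = r none) ∧
      ∃ S : Finset ℕ, (∀ a ∈ S, ∃ x, Pin P ps x ∧ (a = ℓ x ∨ a = r x)) ∧
        P.card + (if ps then 1 else 2) ≤ S.card := by
  obtain ⟨t, hLab, hnd, hcr, _, hborn, hdie⟩ := hD
  obtain ⟨d, hd⟩ := LAB_main O P ps hP hLab hnd
  have h1 : LAB_c P t = P := by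
    ext u
    simp [LAB_c, hcr]
  have h2 : LAB_b ps t = ps := by
    cases ps <;> simp [LAB_b, hborn]
  have h3 : LAB_d ps t = ps := by
    cases ps <;> simp [LAB_d, hdie]
  rw [h1, h2, h3, LAB_sel_nil] at hd
  have hDone : ∀ x, Done P ps x ↔ Pin P ps x := by
    intro x
    cases x <;> rfl
  have hstart : ∀ x, Pin P ps x → d.oL x = d.iL (O.nu x) ∧ d.oR x = d.iR (O.nu x) := by
    intro x hx
    rcases hd.start x ((hDone x).mpr hx) with ⟨_, h4, h5⟩ | ⟨i', h', _⟩
    · exact ⟨h4, h5⟩
    · exact absurd h' (by simp)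
  have hc0 := hd.count0 rfl (by
    rcases hne with h | h
    · exact Or.inr (Or.inl h)
    · exact Or.inl h)
  refine ⟨d.iL, d.iR, ?_, ?_, d.S, ?_, ?_⟩
  · intro v hv
    obtain ⟨f1, f2, f3, f4⟩ := hd.feq v hv
    obtain ⟨s1, s2⟩ := hstart (some (v, false)) hv
    obtain ⟨s3, s4⟩ := hstart (some (v, true)) hv
    refine ⟨f1, ?_, ?_, ?_⟩
    · rw [← s2, ← s3, f2]
    · rw [← s1, f3]
    · rw [← s4, f4]
  · intro hps
    obtain ⟨s1, s2⟩ := hstart none hps
    exact ⟨by rw [← s1, ← s2]; exact hd.born hps, hd.die hps⟩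
  · have hRec : ∀ a, d.Rec P ps ps a → ∃ x, Pin P ps x ∧ (a = d.iL x ∨ a = d.iR x) := by
      rintro a (⟨x, hx, hax⟩ | ⟨y, hy, hay⟩)
      · obtain ⟨s1, s2⟩ := hstart x ((hDone x).mp hx)
        refine ⟨O.nu x, (hP x).mpr ((hDone x).mp hx), ?_⟩
        rw [← s1, ← s2]
        exact hax
      · exact ⟨y, (hDone y).mp hy, hay⟩
    intro a ha
    rcases hd.cov a ha with ⟨i, hi, hai⟩ | hr
    · have : i = 0 := by simpa using hi
      rw [this] at hai
      rw [hai]
      exact hRec _ hc0.2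
    · exact hRec _ hr
  · have := hc0.1
    cases ps
    · simp at this ⊢
      omega
    · simp at this ⊢
      omega

end Pool.Agent.H53.SQ
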