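import Pool.Agent.H53.SQ.Base

/-!
Definitions for the counting of faces (modules LABX, LABY, LABZ, LAB).
-/

namespace Pool.Agent.H53.SQ

variable {V : Type}

/-- labels of the gaps (`g`), of the sides of the edges near their starts (`oL`, `oR`) and near
their ends (`iL`, `iR`), and the set of the labels in use -/
structure Lbl (V : Type) where
  g : ℕ → ℕ
  oL : Option (V × Bool) → ℕ
  oR : Option (V × Bool) → ℕ
  iL : Option (V × Bool) → ℕ
  iR : Option (V × Bool) → ℕ
  S : Finset ℕ

/-- left side of the strand number `i` with piece number `j` -/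
def Lbl.sL (d : Lbl V) (i j : ℕ) : ℕ := if j % 2 = 0 then d.g i else d.g (i + 1)

def Lbl.sR (d : Lbl V) (i j : ℕ) : ℕ := if j % 2 = 0 then d.g (i + 1) else d.g i

/-- the end `x` has been processed; `c` = processed crossings, `f` = is the end `none` processed? -/
def Done (c : Finset V) (f : Bool) : Option (V × Bool) → Prop
  | none => f = true
  | some z => z.1 ∈ c

/-- recorded labels -/
def Lbl.Rec (d : Lbl V) (c : Finset V) (bo di : Bool) (a : ℕ) : Prop :=
  (∃ x, Done c bo x ∧ (a = d.oL x ∨ a = d.oR x)) ∨ (∃ y, Done c di y ∧ (a = d.iL y ∨ a = d.iR y))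

/-- The invariant. `q` = strands of the part at the current level (edge, piece number), `c` =
processed crossings of the part, `bo`, `di` = are the start and the end of the open strand processed
(and in the part)? -/
structure Inv (nu : Option (V × Bool) → Option (V × Bool)) (q : List (Option (V × Bool) × ℕ))
    (c : Finset V) (bo di : Bool) (d : Lbl V) : Prop where
  gS : ∀ i ≤ q.length, d.g i ∈ d.S
  oS : ∀ x, Done c bo x → d.oL x ∈ d.S ∧ d.oR x ∈ d.S
  iS : ∀ y, Done c di y → d.iL y ∈ d.S ∧ d.iR y ∈ d.S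
  cov : ∀ a ∈ d.S, (∃ i ≤ q.length, a = d.g i) ∨ d.Rec c bo di a
  outer : d.g 0 = d.g q.length
  feq : ∀ v ∈ c, d.iR (some (v, false)) = d.iL (some (v, true)) ∧
    d.oR (some (v, false)) = d.oL (some (v, true)) ∧
    d.iL (some (v, false)) = d.oL (some (v, false)) ∧
    d.iR (some (v, true)) = d.oR (some (v, true))
  die : di = true → d.iL none = d.iR none
  born : bo = true → d.oL none = d.oR none
  part : ∀ (i : ℕ) (h : i < q.length), q[i].2 % 2 = 0 →
    (Done c di (nu q[i].1) ∧ d.g i = d.iL (nu q[i].1) ∧ d.g (i + 1) = d.iR (nu q[i].1)) ∨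
    ∃ (i' : ℕ) (h' : i' < q.length), q[i'].1 = q[i].1 ∧ q[i'].2 % 2 = 1 ∧ q[i].2 < q[i'].2 ∧
      d.g (i' + 1) = d.g i ∧ d.g i' = d.g (i + 1)
  start : ∀ x, Done c bo x →
    (Done c di (nu x) ∧ d.oL x = d.iL (nu x) ∧ d.oR x = d.iR (nu x)) ∨
    ∃ (i' : ℕ) (h' : i' < q.length), q[i'].1 = x ∧ q[i'].2 % 2 = 1 ∧
      d.g (i' + 1) = d.oL x ∧ d.g i' = d.oR x
  count : 2 * c.card + q.length + 2 ≤ 2 * d.S.card + bo.toNat + di.toNat
  count0 : q = [] → (c.Nonempty ∨ bo = true ∨ di = true) →
    2 * c.card + 4 ≤ 2 * d.S.card + bo.toNat + di.toNat ∧ d.Rec c bo di (d.g 0)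

end Pool.Agent.H53.SQ
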