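import Pool.Agent.H53.SQ.LABD

/-!
# Module LABX: steps of the face labelling: local maxima and crossings

We go DOWN through the drawing. `Inv` for the strands ABOVE the piece gives `Inv` for the strands BELOW
it. A strand with an even piece number points upwards, its left side is the gap `i` and its right side
is the gap `i + 1`; for odd numbers it is the other way round.

* `inv_cap`: two new strands at the indices `i, i+1` (`i = A.length`), of the same edge, with the piece
  numbers `2j, 2j+1` (`sw = false`) or `2j+1, 2j` (`sw = true`). Let `h` be a label not in `S`. New gaps: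
  `g' t = g t` for `t ≤ i`, `g' (i+1) = h`, `g' t = g (t-2)` for `t ≥ i+2` (so `g' (i+2) = g i`). `S' = insert h S`.
  The strand with number `2j` has the strand with number `2j+1` as its partner (`2j < 2j+1`; sides:
  `sw = false`: left `g i`, right `h`, and the strand `2j+1` at `i+1` has `g' (i+2) = g i`, `g' (i+1) = h`;
  `sw = true`: the even strand at `i+1` has the sides `h, g i`, the odd one at `i` has `g' (i+1) = h`,
  `g' i = g i`). Old partners move with the indices (`t ↦ t` for `t < i`, `t ↦ t + 2` for `t ≥ i`).
  `count`: `q.length` grows by 2, `S.card` by 1. `count0`: the new list is not empty.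
* `inv_cross`: above the crossing the strands at `i, i+1` are the starting pieces `(some (v,F), 0)`,
  `(some (v,T), 0)`, below they are `(x, 2a)`, `(y, 2b)` with `nu x = some (v,F)`, `nu y = some (v,T)`.
  `v ∉ c`. Take a new label `h`; `g' (i+1) = h`, other gaps unchanged (the number of strands is the
  same). New records: `oL (v,F) = g i`, `oR (v,F) = oL (v,T) = g (i+1)`, `oR (v,T) = g (i+2)` (old `g`),
  `iL (v,F) = g i`, `iR (v,F) = iL (v,T) = h`, `iR (v,T) = g (i+2)`; all other records are unchanged (nothing
  with the crossing `v` was recorded before). `S' = insert h S`, `c' = insert v c`.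
  `cov`: the old gap label `g (i+1)` is now recorded. `part` for the two new strands: their ends are
  processed. `part` for another strand: its old partner is not one of the two replaced strands, because
  these have even numbers. `start` for the edges `some (v,F)`, `some (v,T)`: by the old `part` for the two
  replaced strands (a partner found there is at an index other than `i, i+1`, since the strands there
  have even numbers; sides with the old `g` at other indices: the gap `i+1` is a gap of the strands
  `i`, `i+1` only). `count`: both sides grow by 2. `count0`: the list is not empty.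
-/

namespace Pool.Agent.H53.SQ

variable {V : Type} [DecidableEq V]

omit [DecidableEq V] in
theorem labx_get (A B : List (Option (V × Bool) × ℕ)) (a b : Option (V × Bool) × ℕ) (i : ℕ) :
    (A ++ a :: b :: B)[i]? = if i < A.length then A[i]? else if i = A.length then some a
      else if i = A.length + 1 then some b else B[i - A.length - 2]? := by
  split_ifs with h1 h2 h3
  · exact List.getElem?_append_left h1
  · rw [List.getElem?_append_right (by omega), h2]
    simp
  · rw [List.getElem?_append_right (by omega), h3]
    simp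
  · rw [List.getElem?_append_right (by omega)]
    obtain ⟨k, hk⟩ : ∃ k, i = A.length + (k + 2) := ⟨i - A.length - 2, by omega⟩
    subst hk
    simp

omit [DecidableEq V] in
theorem labx_get0 (A B : List (Option (V × Bool) × ℕ)) (i : ℕ) :
    (A ++ B)[i]? = if i < A.length then A[i]? else B[i - A.length]? := by
  split_ifs with h1
  · exact List.getElem?_append_left h1
  · exact List.getElem?_append_right (by omega)

omit [DecidableEq V] in
/-- the entries of the list with two inserted entries -/
theorem labx_split {A B : List (Option (V × Bool) × ℕ)} {a b p : Option (V × Bool) × ℕ} {i : ℕ}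
    (h : (A ++ a :: b :: B)[i]? = some p) :
    (i < A.length ∧ (A ++ B)[i]? = some p) ∨ (i = A.length ∧ p = a) ∨
      (i = A.length + 1 ∧ p = b) ∨ ∃ k, i = k + 2 ∧ A.length ≤ k ∧ (A ++ B)[k]? = some p := by
  rw [labx_get] at h
  split_ifs at h with h1 h2 h3
  · left
    refine ⟨h1, ?_⟩
    rw [labx_get0, if_pos h1]
    exact h
  · right; left
    exact ⟨h2, (Option.some.inj h).symm⟩
  · right; right; left
    exact ⟨h3, (Option.some.inj h).symm⟩
  · right; right; right
    refine ⟨i - 2, by omega, by omega, ?_⟩
    rw [labx_get0, if_neg (by omega), show i - 2 - A.length = i - A.length - 2 by omega]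
    exact h

omit [DecidableEq V] in
theorem labx_ins {A B : List (Option (V × Bool) × ℕ)} (a b : Option (V × Bool) × ℕ)
    {p : Option (V × Bool) × ℕ} {i : ℕ} (h : (A ++ B)[i]? = some p) :
    (A ++ a :: b :: B)[if i < A.length then i else i + 2]? = some p := by
  rw [labx_get0] at h
  rw [labx_get]
  by_cases h1 : i < A.length
  · rw [if_pos h1] at h
    rw [if_pos h1, if_pos h1]
    exact h
  · rw [if_neg h1] at h
    rw [if_neg h1, if_neg (by omega), if_neg (by omega), if_neg (by omega),
      show i + 2 - A.length - 2 = i - A.length by omega]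
    exact h

omit [DecidableEq V] in
theorem labx_part {nu : Option (V × Bool) → Option (V × Bool)}
    {q : List (Option (V × Bool) × ℕ)} {c : Finset V} {bo di : Bool} {d : Lbl V}
    (h : Inv nu q c bo di d) (i : ℕ) (p : Option (V × Bool) × ℕ) (hp : q[i]? = some p)
    (he : p.2 % 2 = 0) :
    (Done c di (nu p.1) ∧ d.g i = d.iL (nu p.1) ∧ d.g (i + 1) = d.iR (nu p.1)) ∨
    ∃ (i' : ℕ) (p' : Option (V × Bool) × ℕ), q[i']? = some p' ∧ p'.1 = p.1 ∧ p'.2 % 2 = 1 ∧
      p.2 < p'.2 ∧ d.g (i' + 1) = d.g i ∧ d.g i' = d.g (i + 1) := by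
  obtain ⟨hi, hq⟩ := List.getElem?_eq_some_iff.1 hp
  subst hq
  rcases h.part i hi he with h1 | ⟨i', h', h2, h3, h4, h5, h6⟩
  · exact Or.inl h1
  · exact Or.inr ⟨i', q[i'], List.getElem?_eq_getElem h', h2, h3, h4, h5, h6⟩

omit [DecidableEq V] in
theorem labx_start {nu : Option (V × Bool) → Option (V × Bool)}
    {q : List (Option (V × Bool) × ℕ)} {c : Finset V} {bo di : Bool} {d : Lbl V}
    (h : Inv nu q c bo di d) (x : Option (V × Bool)) (hx : Done c bo x) :
    (Done c di (nu x) ∧ d.oL x = d.iL (nu x) ∧ d.oR x = d.iR (nu x)) ∨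
    ∃ (i' : ℕ) (p' : Option (V × Bool) × ℕ), q[i']? = some p' ∧ p'.1 = x ∧ p'.2 % 2 = 1 ∧
      d.g (i' + 1) = d.oL x ∧ d.g i' = d.oR x := by
  rcases h.start x hx with h1 | ⟨i', h', h2, h3, h5, h6⟩
  · exact Or.inl h1
  · exact Or.inr ⟨i', q[i'], List.getElem?_eq_getElem h', h2, h3, h5, h6⟩

omit [DecidableEq V] in
theorem labx_part_of {nu : Option (V × Bool) → Option (V × Bool)}
    {q : List (Option (V × Bool) × ℕ)} {c : Finset V} {di : Bool} {d : Lbl V}
    (h : ∀ (i : ℕ) (p : Option (V × Bool) × ℕ), q[i]? = some p → p.2 % 2 = 0 →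
      (Done c di (nu p.1) ∧ d.g i = d.iL (nu p.1) ∧ d.g (i + 1) = d.iR (nu p.1)) ∨
      ∃ (i' : ℕ) (p' : Option (V × Bool) × ℕ), q[i']? = some p' ∧ p'.1 = p.1 ∧ p'.2 % 2 = 1 ∧
        p.2 < p'.2 ∧ d.g (i' + 1) = d.g i ∧ d.g i' = d.g (i + 1)) :
    ∀ (i : ℕ) (h : i < q.length), q[i].2 % 2 = 0 →
    (Done c di (nu q[i].1) ∧ d.g i = d.iL (nu q[i].1) ∧ d.g (i + 1) = d.iR (nu q[i].1)) ∨
    ∃ (i' : ℕ) (h' : i' < q.length), q[i'].1 = q[i].1 ∧ q[i'].2 % 2 = 1 ∧ q[i].2 < q[i'].2 ∧
      d.g (i' + 1) = d.g i ∧ d.g i' = d.g (i + 1) := by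
  intro i hi he
  rcases h i q[i] (List.getElem?_eq_getElem hi) he with h1 | ⟨i', p', h1, h2, h3, h4, h5, h6⟩
  · exact Or.inl h1
  · obtain ⟨hi', hq⟩ := List.getElem?_eq_some_iff.1 h1
    subst hq
    exact Or.inr ⟨i', hi', h2, h3, h4, h5, h6⟩

omit [DecidableEq V] in
theorem labx_start_of {nu : Option (V × Bool) → Option (V × Bool)}
    {q : List (Option (V × Bool) × ℕ)} {c : Finset V} {bo di : Bool} {d : Lbl V}
    (h : ∀ x, Done c bo x →
      (Done c di (nu x) ∧ d.oL x = d.iL (nu x) ∧ d.oR x = d.iR (nu x)) ∨
      ∃ (i' : ℕ) (p' : Option (V × Bool) × ℕ), q[i']? = some p' ∧ p'.1 = x ∧ p'.2 % 2 = 1 ∧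
        d.g (i' + 1) = d.oL x ∧ d.g i' = d.oR x) :
    ∀ x, Done c bo x →
    (Done c di (nu x) ∧ d.oL x = d.iL (nu x) ∧ d.oR x = d.iR (nu x)) ∨
    ∃ (i' : ℕ) (h' : i' < q.length), q[i'].1 = x ∧ q[i'].2 % 2 = 1 ∧
      d.g (i' + 1) = d.oL x ∧ d.g i' = d.oR x := by
  intro x hx
  rcases h x hx with h1 | ⟨i', p', h1, h2, h3, h5, h6⟩
  · exact Or.inl h1
  · obtain ⟨hi', hq⟩ := List.getElem?_eq_some_iff.1 h1
    subst hq
    exact Or.inr ⟨i', hi', h2, h3, h5, h6⟩

theorem inv_cap (nu : Option (V × Bool) → Option (V × Bool)) (A B : List (Option (V × Bool) × ℕ))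
    (c : Finset V) (bo di : Bool) (d : Lbl V) (h : Inv nu (A ++ B) c bo di d)
    (x : Option (V × Bool)) (j : ℕ) (sw : Bool) :
    ∃ d' : Lbl V, Inv nu (A ++ (x, if sw then 2 * j + 1 else 2 * j) ::
      (x, if sw then 2 * j else 2 * j + 1) :: B) c bo di d' := by
  obtain ⟨hh, hhS⟩ := Infinite.exists_notMem_finset d.S
  have hlen : ∀ a b : Option (V × Bool) × ℕ,
      (A ++ a :: b :: B).length = (A ++ B).length + 2 := by
    intro a b
    simp only [List.length_append, List.length_cons]
    omega
  have hAB : (A ++ B).length = A.length + B.length := List.length_append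
  set n := A.length with hn
  set g' : ℕ → ℕ := fun t => if t ≤ n then d.g t else if t = n + 1 then hh else d.g (t - 2)
    with hg'
  have g1 : ∀ t, t ≤ n → g' t = d.g t := fun t ht => if_pos ht
  have g2 : g' (n + 1) = hh := by
    show (if n + 1 ≤ n then d.g (n + 1) else if n + 1 = n + 1 then hh else d.g (n + 1 - 2)) = hh
    rw [if_neg (by omega), if_pos rfl]
  have g3 : ∀ t, n ≤ t → g' (t + 2) = d.g t := by
    intro t ht
    show (if t + 2 ≤ n then d.g (t + 2) else if t + 2 = n + 1 then hh else d.g (t + 2 - 2)) = _
    rw [if_neg (by omega), if_neg (by omega)]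
    rfl
  have gσ : ∀ t, g' (if t < n then t else t + 2) = d.g t ∧
      g' ((if t < n then t else t + 2) + 1) = d.g (t + 1) := by
    intro t
    by_cases ht : t < n
    · rw [if_pos ht]
      exact ⟨g1 t (by omega), g1 (t + 1) (by omega)⟩
    · rw [if_neg ht]
      exact ⟨g3 t (by omega), g3 (t + 1) (by omega)⟩
  refine ⟨⟨g', d.oL, d.oR, d.iL, d.iR, insert hh d.S⟩, ?_⟩
  refine
    { gS := ?_, oS := ?_, iS := ?_, cov := ?_, outer := ?_, feq := h.feq, die := h.die,
      born := h.born, part := ?_, start := ?_, count := ?_, count0 := ?_ }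
  · intro i hi
    rw [hlen] at hi
    show g' i ∈ insert hh d.S
    by_cases h1 : i ≤ n
    · rw [g1 i h1]
      exact Finset.mem_insert_of_mem (h.gS i (by omega))
    · by_cases h2 : i = n + 1
      · rw [h2, g2]
        exact Finset.mem_insert_self _ _
      · obtain ⟨k, hk⟩ : ∃ k, i = k + 2 := ⟨i - 2, by omega⟩
        rw [hk, g3 k (by omega)]
        exact Finset.mem_insert_of_mem (h.gS k (by omega))
  · intro x hx
    exact ⟨Finset.mem_insert_of_mem (h.oS x hx).1, Finset.mem_insert_of_mem (h.oS x hx).2⟩
  · intro x hx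
    exact ⟨Finset.mem_insert_of_mem (h.iS x hx).1, Finset.mem_insert_of_mem (h.iS x hx).2⟩
  · intro a ha
    rcases Finset.mem_insert.1 ha with h1 | h1
    · left
      refine ⟨n + 1, by rw [hlen]; omega, ?_⟩
      rw [h1]
      exact g2.symm
    · rcases h.cov a h1 with ⟨i, hi, h2⟩ | h2
      · left
        by_cases h3 : i ≤ n
        · refine ⟨i, by rw [hlen]; omega, ?_⟩
          rw [h2]
          exact (g1 i h3).symm
        · refine ⟨i + 2, by rw [hlen]; omega, ?_⟩
          rw [h2]
          exact (g3 i (by omega)).symm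
      · right
        exact h2
  · show g' 0 = g' _
    rw [hlen, g1 0 (by omega), g3 _ (by omega)]
    exact h.outer
  · refine labx_part_of (d := ⟨g', d.oL, d.oR, d.iL, d.iR, insert hh d.S⟩) ?_
    intro i p hp he
    have old : ∀ k, (A ++ B)[k]? = some p → i = (if k < n then k else k + 2) →
        (Done c di (nu p.1) ∧ g' i = d.iL (nu p.1) ∧ g' (i + 1) = d.iR (nu p.1)) ∨
        ∃ (i' : ℕ) (p' : Option (V × Bool) × ℕ),
          (A ++ (x, if sw then 2 * j + 1 else 2 * j) ::
            (x, if sw then 2 * j else 2 * j + 1) :: B)[i']? = some p' ∧ p'.1 = p.1 ∧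
          p'.2 % 2 = 1 ∧ p.2 < p'.2 ∧ g' (i' + 1) = g' i ∧ g' i' = g' (i + 1) := by
      intro k hk hik
      rw [hik, (gσ k).1, (gσ k).2]
      rcases labx_part h k p hk he with h1 | ⟨i', p', h1, h2, h3, h4, h5, h6⟩
      · exact Or.inl h1
      · refine Or.inr ⟨if i' < n then i' else i' + 2, p', labx_ins _ _ h1, h2, h3, h4, ?_, ?_⟩
        · rw [(gσ i').2]; exact h5
        · rw [(gσ i').1]; exact h6
    rcases labx_split hp with ⟨h1, h2⟩ | ⟨h1, h2⟩ | ⟨h1, h2⟩ | ⟨k, h1, h2, h3⟩
    · exact old i h2 (if_pos h1).symm
    · right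
      cases sw with
      | true => rw [h2] at he; simp only [if_true] at he; omega
      | false =>
        refine ⟨n + 1, (x, 2 * j + 1), ?_, ?_, ?_, ?_, ?_, ?_⟩
        · rw [labx_get, if_neg (by omega), if_neg (by omega), if_pos rfl]
          rfl
        · rw [h2]
        · show (2 * j + 1) % 2 = 1; omega
        · rw [h2]; show 2 * j < 2 * j + 1; omega
        · show g' (n + 1 + 1) = g' i
          rw [h1, g1 A.length le_rfl]
          exact g3 n le_rfl
        · show g' (n + 1) = g' (i + 1)
          rw [h1]
    · right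
      cases sw with
      | false => rw [h2] at he; simp only [Bool.false_eq_true, if_false] at he; omega
      | true =>
        refine ⟨n, (x, 2 * j + 1), ?_, ?_, ?_, ?_, ?_, ?_⟩
        · rw [labx_get, if_neg (by omega), if_pos rfl]
          rfl
        · rw [h2]
        · show (2 * j + 1) % 2 = 1; omega
        · rw [h2]; show 2 * j < 2 * j + 1; omega
        · show g' (n + 1) = g' i
          rw [h1]
        · show g' n = g' (i + 1)
          rw [h1, g1 n le_rfl]
          exact (g3 n le_rfl).symm
    · exact old k h3 (by rw [if_neg (by omega)]; exact h1)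
  · refine labx_start_of (d := ⟨g', d.oL, d.oR, d.iL, d.iR, insert hh d.S⟩) ?_
    intro z hz
    rcases labx_start h z hz with h1 | ⟨i', p', h1, h2, h3, h5, h6⟩
    · exact Or.inl h1
    · refine Or.inr ⟨if i' < n then i' else i' + 2, p', labx_ins _ _ h1, h2, h3, ?_, ?_⟩
      · show g' _ = d.oL z
        rw [(gσ i').2]; exact h5
      · show g' _ = d.oR z
        rw [(gσ i').1]; exact h6
  · rw [hlen]
    show _ ≤ 2 * (insert hh d.S).card + bo.toNat + di.toNat
    rw [Finset.card_insert_of_notMem hhS]
    have := h.count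
    omega
  · intro h0
    exact absurd h0 (by simp)

omit [DecidableEq V] in
theorem labx_repl {A B : List (Option (V × Bool) × ℕ)} {a b : Option (V × Bool) × ℕ}
    (a' b' : Option (V × Bool) × ℕ) {i : ℕ} (h1 : i ≠ A.length) (h2 : i ≠ A.length + 1) :
    (A ++ a' :: b' :: B)[i]? = (A ++ a :: b :: B)[i]? := by
  rw [labx_get, labx_get, if_neg h1, if_neg h2, if_neg h1, if_neg h2]

theorem inv_cross (nu : Option (V × Bool) → Option (V × Bool)) (A B : List (Option (V × Bool) × ℕ))
    (c : Finset V) (bo di : Bool) (d : Lbl V) (v : V) (hv : v ∉ c)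
    (h : Inv nu (A ++ (some (v, false), 0) :: (some (v, true), 0) :: B) c bo di d)
    (x y : Option (V × Bool)) (a b : ℕ) (hx : nu x = some (v, false))
    (hy : nu y = some (v, true)) :
    ∃ d' : Lbl V, Inv nu (A ++ (x, 2 * a) :: (y, 2 * b) :: B) (insert v c) bo di d' := by
  obtain ⟨hh, hhS⟩ := Infinite.exists_notMem_finset d.S
  set n := A.length with hn
  have hlen : ∀ a b : Option (V × Bool) × ℕ,
      (A ++ a :: b :: B).length = n + B.length + 2 := by
    intro a b
    simp only [List.length_append, List.length_cons]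
    omega
  -- processed ends are different from the ends of `v`
  have hne : ∀ (f : Bool) (z : Option (V × Bool)), Done c f z → z ≠ some (v, false) ∧
      z ≠ some (v, true) := by
    intro f z hz
    constructor
    · rintro rfl; exact hv hz
    · rintro rfl; exact hv hz
  have hmono : ∀ (f : Bool) (z : Option (V × Bool)), Done c f z → Done (insert v c) f z := by
    intro f z hz
    cases z with
    | none => exact hz
    | some z => exact Finset.mem_insert_of_mem hz
  have hcases : ∀ (f : Bool) (z : Option (V × Bool)), Done (insert v c) f z →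
      z = some (v, false) ∨ z = some (v, true) ∨ Done c f z := by
    intro f z hz
    rcases z with _ | ⟨w, s⟩
    · exact Or.inr (Or.inr hz)
    · rcases Finset.mem_insert.1 (show w ∈ insert v c from hz) with h1 | h1
      · subst h1
        cases s
        · exact Or.inl rfl
        · exact Or.inr (Or.inl rfl)
      · exact Or.inr (Or.inr h1)
  have hvF : ∀ f : Bool, Done (insert v c) f (some (v, false)) := fun f =>
    Finset.mem_insert_self v c
  have hvT : ∀ f : Bool, Done (insert v c) f (some (v, true)) := fun f =>
    Finset.mem_insert_self v c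
  have hTF : (some (v, true) : Option (V × Bool)) ≠ some (v, false) := by simp
  obtain ⟨d', hd'⟩ : ∃ d' : Lbl V, d' = ⟨fun t => if t = n + 1 then hh else d.g t,
    fun z => if z = some (v, false) then d.g n else if z = some (v, true) then d.g (n + 1)
      else d.oL z,
    fun z => if z = some (v, false) then d.g (n + 1) else if z = some (v, true) then d.g (n + 2)
      else d.oR z,
    fun z => if z = some (v, false) then d.g n else if z = some (v, true) then hh else d.iL z,
    fun z => if z = some (v, false) then hh else if z = some (v, true) then d.g (n + 2)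
      else d.iR z,
    insert hh d.S⟩ := ⟨_, rfl⟩
  have g1 : d'.g (n + 1) = hh := by rw [hd']; exact if_pos rfl
  have g2 : ∀ t, t ≠ n + 1 → d'.g t = d.g t := by intro t ht; rw [hd']; exact if_neg ht
  have eS : d'.S = insert hh d.S := by rw [hd']
  have oLF : d'.oL (some (v, false)) = d.g n := by rw [hd']; exact if_pos rfl
  have oLT : d'.oL (some (v, true)) = d.g (n + 1) := by
    rw [hd']; exact (if_neg hTF).trans (if_pos rfl)
  have oRF : d'.oR (some (v, false)) = d.g (n + 1) := by rw [hd']; exact if_pos rfl
  have oRT : d'.oR (some (v, true)) = d.g (n + 2) := by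
    rw [hd']; exact (if_neg hTF).trans (if_pos rfl)
  have iLF : d'.iL (some (v, false)) = d.g n := by rw [hd']; exact if_pos rfl
  have iLT : d'.iL (some (v, true)) = hh := by
    rw [hd']; exact (if_neg hTF).trans (if_pos rfl)
  have iRF : d'.iR (some (v, false)) = hh := by rw [hd']; exact if_pos rfl
  have iRT : d'.iR (some (v, true)) = d.g (n + 2) := by
    rw [hd']; exact (if_neg hTF).trans (if_pos rfl)
  have oLo : ∀ (f : Bool) z, Done c f z → d'.oL z = d.oL z := by
    intro f z hz
    rw [hd']; exact (if_neg (hne f z hz).1).trans (if_neg (hne f z hz).2)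
  have oRo : ∀ (f : Bool) z, Done c f z → d'.oR z = d.oR z := by
    intro f z hz
    rw [hd']; exact (if_neg (hne f z hz).1).trans (if_neg (hne f z hz).2)
  have iLo : ∀ (f : Bool) z, Done c f z → d'.iL z = d.iL z := by
    intro f z hz
    rw [hd']; exact (if_neg (hne f z hz).1).trans (if_neg (hne f z hz).2)
  have iRo : ∀ (f : Bool) z, Done c f z → d'.iR z = d.iR z := by
    intro f z hz
    rw [hd']; exact (if_neg (hne f z hz).1).trans (if_neg (hne f z hz).2)
  clear_value n
  clear hd'
  have gmem : ∀ t, t ≤ n + B.length + 2 → d.g t ∈ insert hh d.S := fun t ht =>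
    Finset.mem_insert_of_mem (h.gS t (by rw [hlen]; exact ht))
  have hself : hh ∈ insert hh d.S := Finset.mem_insert_self _ _
  refine ⟨d', ?_⟩
  refine
    { gS := ?_, oS := ?_, iS := ?_, cov := ?_, outer := ?_, feq := ?_, die := ?_,
      born := ?_, part := ?_, start := ?_, count := ?_, count0 := ?_ }
  · intro i hi
    rw [hlen] at hi
    rw [eS]
    by_cases h1 : i = n + 1
    · rw [h1, g1]; exact hself
    · rw [g2 i h1]; exact gmem i hi
  · intro z hz
    rw [eS]
    rcases hcases bo z hz with h1 | h1 | h1
    · rw [h1, oLF, oRF]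
      exact ⟨gmem _ (by omega), gmem _ (by omega)⟩
    · rw [h1, oLT, oRT]
      exact ⟨gmem _ (by omega), gmem _ (by omega)⟩
    · rw [oLo bo z h1, oRo bo z h1]
      exact ⟨Finset.mem_insert_of_mem (h.oS z h1).1, Finset.mem_insert_of_mem (h.oS z h1).2⟩
  · intro z hz
    rw [eS]
    rcases hcases di z hz with h1 | h1 | h1
    · rw [h1, iLF, iRF]
      exact ⟨gmem _ (by omega), hself⟩
    · rw [h1, iLT, iRT]
      exact ⟨hself, gmem _ (by omega)⟩
    · rw [iLo di z h1, iRo di z h1]
      exact ⟨Finset.mem_insert_of_mem (h.iS z h1).1, Finset.mem_insert_of_mem (h.iS z h1).2⟩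
  · intro l hl
    rw [eS] at hl
    rcases Finset.mem_insert.1 hl with h1 | h1
    · left
      exact ⟨n + 1, by rw [hlen]; omega, by rw [g1]; exact h1⟩
    · rcases h.cov l h1 with ⟨i, hi, h2⟩ | h2
      · rw [hlen] at hi
        by_cases h3 : i = n + 1
        · right; left
          refine ⟨some (v, true), hvT bo, Or.inl ?_⟩
          rw [oLT, h2, h3]
        · left
          exact ⟨i, by rw [hlen]; exact hi, by rw [g2 i h3]; exact h2⟩
      · right
        rcases h2 with ⟨z, hz, h3⟩ | ⟨z, hz, h3⟩
        · left
          refine ⟨z, hmono _ _ hz, ?_⟩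
          rw [oLo _ z hz, oRo _ z hz]
          exact h3
        · right
          refine ⟨z, hmono _ _ hz, ?_⟩
          rw [iLo _ z hz, iRo _ z hz]
          exact h3
  · rw [hlen, g2 0 (by omega), g2 _ (by omega)]
    have := h.outer
    rw [hlen] at this
    exact this
  · intro w hw
    rcases Finset.mem_insert.1 hw with h1 | h1
    · subst h1
      exact ⟨by rw [iRF, iLT], by rw [oRF, oLT], by rw [iLF, oLF], by rw [iRT, oRT]⟩
    · have e := h.feq w h1
      have dF : Done c true (some (w, false)) := h1
      have dT : Done c true (some (w, true)) := h1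
      rw [iRo _ _ dF, iLo _ _ dT, oRo _ _ dF, oLo _ _ dT, iLo _ _ dF, oLo _ _ dF, iRo _ _ dT,
        oRo _ _ dT]
      exact e
  · intro hdi
    have dn : Done c di none := hdi
    rw [iLo di none dn, iRo di none dn]
    exact h.die hdi
  · intro hbo
    have dn : Done c bo none := hbo
    rw [oLo bo none dn, oRo bo none dn]
    exact h.born hbo
  · refine labx_part_of ?_
    intro i p hp he
    by_cases h1 : i = n
    · left
      have hp' : p = (x, 2 * a) := by
        rw [labx_get, ← hn, if_neg (by omega), if_pos h1] at hp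
        exact (Option.some.inj hp).symm
      subst hp'
      rw [h1]
      show Done (insert v c) di (nu x) ∧ _ = d'.iL (nu x) ∧ _ = d'.iR (nu x)
      rw [hx, iLF, iRF, g1, g2 n (by omega)]
      exact ⟨hvF di, rfl, rfl⟩
    · by_cases h2 : i = n + 1
      · left
        have hp' : p = (y, 2 * b) := by
          rw [labx_get, ← hn, if_neg (by omega), if_neg (by omega), if_pos h2] at hp
          exact (Option.some.inj hp).symm
        subst hp'
        rw [h2]
        show Done (insert v c) di (nu y) ∧ _ = d'.iL (nu y) ∧ _ = d'.iR (nu y)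
        rw [hy, iLT, iRT, g1, g2 (n + 1 + 1) (by omega)]
        exact ⟨hvT di, rfl, rfl⟩
      · have hp0 : (A ++ (some (v, false), 0) :: (some (v, true), 0) :: B)[i]? = some p := by
          rw [← hp]
          exact labx_repl _ _ (by omega) (by omega)
        rw [g2 i h2, g2 (i + 1) (by omega)]
        rcases labx_part h i p hp0 he with ⟨e1, e2, e3⟩ | ⟨i', p', e1, e2, e3, e4, e5, e6⟩
        · left
          rw [iLo di _ e1, iRo di _ e1]
          exact ⟨hmono _ _ e1, e2, e3⟩
        · right
          have n1 : i' ≠ n := by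
            intro h3
            rw [labx_get, ← hn, if_neg (by omega), if_pos h3] at e1
            have := (Option.some.inj e1)
            rw [← this] at e3
            simp at e3
          have n2 : i' ≠ n + 1 := by
            intro h3
            rw [labx_get, ← hn, if_neg (by omega), if_neg (by omega), if_pos h3] at e1
            have := (Option.some.inj e1)
            rw [← this] at e3
            simp at e3
          refine ⟨i', p', ?_, e2, e3, e4, ?_, ?_⟩
          · rw [← e1]
            exact labx_repl _ _ (by omega) (by omega)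
          · rw [g2 (i' + 1) (by omega)]; exact e5
          · rw [g2 i' n2]; exact e6
  · refine labx_start_of ?_
    intro z hz
    have key : ∀ i, (A ++ (some (v, false), 0) :: (some (v, true), 0) :: B)[i]? = some (z, 0) →
        d'.oL z = d.g i → d'.oR z = d.g (i + 1) →
        (Done (insert v c) di (nu z) ∧ d'.oL z = d'.iL (nu z) ∧ d'.oR z = d'.iR (nu z)) ∨
        ∃ (i' : ℕ) (p' : Option (V × Bool) × ℕ),
          (A ++ (x, 2 * a) :: (y, 2 * b) :: B)[i']? = some p' ∧ p'.1 = z ∧ p'.2 % 2 = 1 ∧
          d'.g (i' + 1) = d'.oL z ∧ d'.g i' = d'.oR z := by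
      intro i hi hL hR
      rw [hL, hR]
      rcases labx_part h i (z, 0) hi rfl with ⟨e1, e2, e3⟩ | ⟨i', p', e1, e2, e3, e4, e5, e6⟩
      · left
        have e1' : Done c di (nu z) := e1
        rw [iLo di _ e1', iRo di _ e1']
        exact ⟨hmono _ _ e1, e2, e3⟩
      · right
        have n1 : i' ≠ n := by
          intro h3
          rw [labx_get, ← hn, if_neg (by omega), if_pos h3] at e1
          have := (Option.some.inj e1)
          rw [← this] at e3
          simp at e3
        have n2 : i' ≠ n + 1 := by
          intro h3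
          rw [labx_get, ← hn, if_neg (by omega), if_neg (by omega), if_pos h3] at e1
          have := (Option.some.inj e1)
          rw [← this] at e3
          simp at e3
        refine ⟨i', p', ?_, e2, e3, ?_, ?_⟩
        · rw [← e1]
          exact labx_repl _ _ (by omega) (by omega)
        · rw [g2 (i' + 1) (by omega)]; exact e5
        · rw [g2 i' n2]; exact e6
    rcases hcases bo z hz with h1 | h1 | h1
    · subst h1
      refine key n ?_ oLF oRF
      rw [labx_get, ← hn, if_neg (by omega), if_pos rfl]
    · subst h1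
      refine key (n + 1) ?_ oLT oRT
      rw [labx_get, ← hn, if_neg (by omega), if_neg (by omega), if_pos rfl]
    · rw [oLo bo z h1, oRo bo z h1]
      rcases labx_start h z h1 with ⟨e1, e2, e3⟩ | ⟨i', p', e1, e2, e3, e5, e6⟩
      · left
        rw [iLo di _ e1, iRo di _ e1]
        exact ⟨hmono _ _ e1, e2, e3⟩
      · right
        have n1 : i' ≠ n := by
          intro h3
          rw [labx_get, ← hn, if_neg (by omega), if_pos h3] at e1
          have := (Option.some.inj e1)
          rw [← this] at e3
          simp at e3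
        have n2 : i' ≠ n + 1 := by
          intro h3
          rw [labx_get, ← hn, if_neg (by omega), if_neg (by omega), if_pos h3] at e1
          have := (Option.some.inj e1)
          rw [← this] at e3
          simp at e3
        refine ⟨i', p', ?_, e2, e3, ?_, ?_⟩
        · rw [← e1]
          exact labx_repl _ _ (by omega) (by omega)
        · rw [g2 (i' + 1) (by omega)]; exact e5
        · rw [g2 i' n2]; exact e6
  · rw [hlen, eS, Finset.card_insert_of_notMem hhS, Finset.card_insert_of_notMem hv]
    have := h.count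
    rw [hlen] at this
    omega
  · intro h0
    exact absurd h0 (by simp)

end Pool.Agent.H53.SQ
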