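import Pool.Agent.H53.SQ.REPL

/-!
# Module MRG: merging a circle into a tree of bars keeps `Rho`

Let `W = wrd ctx b`. Choose the item: let `PL` be the set of the crossings `v` with `(v, false) ∈ gls b` and
`(v, true) ∈ c`. If `PL` is not empty, choose `v ∈ PL` such that the letter `(inl v, false)` is the
FIRST one in `W` among the letters `(inl u, false)`, `u ∈ PL`; put `s = false`. Otherwise there are
`v` with `(v, true) ∈ gls b`, `(v, false) ∈ c`; choose the one whose letter `(inl v, true)` is the LAST
one in `W`; put `s = true`. Let `l'` be given by `hcyc` for `w = (v, !s)`: the new child is `pl l'`, and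
`b'` is given by `repl` (extended from `RC, LC` to `W`: `wrd ctx b' = A ++ (blk ++ B)` if
`W = A ++ (inl v, s) :: B`; the letter occurs only once in `W` because `eps b` is `Nodup`, so `A, B` are
determined). `eps b'` is a permutation of `(v, !s) :: l' ++ eps b`, a permutation of `c ++ eps b`.
`Rho` for `W' = A ++ (blk ++ B)`: let `u` be a crossing with both letters in `W'`; `u ≠ v` (the block has
no letter with id `inl v`: `(v, !s) ∉ l'`, `(v, s) ∉ c` since `c` is disjoint from `eps b`; and `A, B` do
not contain `(inl v, s)` again nor `(inl v, !s)`, as `(v, !s) ∉ eps b`).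
(a) both letters in `A`, `B`: old `Rho`; the old sublists do not contain the replaced letter (ids
    different from `inl v`), so they are sublists of `A ++ B`, hence of `W'`.
(b) both letters in the block: `(inl u, false) ∈ RC c'`, `(inl u, true) ∈ LC c'` (`c' = pl l'`): the ids
    contain `ret, u, top, u` (`s = false`) or `u, top, u, ret` (`s = true`).
(c) one letter `(inl u, !t)` in the block (so `(u, !t) ∈ c`), the other one `(inl u, t)` in `A` or `B`
    (so `(u, t) ∈ gls b`).
    `s = false`: if `t = false`, then `u ∈ PL`, so by the choice of `v` the letter `(inl u, false)` is in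
    `B`, and `(inl u, true)` is in the block: opening first. If `t = true`: the letter
    `(inl u, false)` is in `RC c'`; if `(inl u, true) ∈ A`: opening first; if it is in `B`: the ids
    contain `ret, u, top, u` with `ret`, `u ∈ RC c'`, `top` in the block and `u ∈ B`.
    `s = true`: `PL` is empty, so `t = true`, and by the choice of `v` the letter `(inl u, true)` is in `A`,
    `(inl u, false)` in the block: opening first.
-/

namespace Pool.Agent.H53.SQ

variable {V : Type} {L : ℕ}

/-- the generic letters of a word -/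
def mrgGl : List (Lt V L) → List (V × Bool)
  | [] => []
  | (Sum.inl v, s) :: l => (v, s) :: mrgGl l
  | (Sum.inr _, _) :: l => mrgGl l

theorem mrgGl_append (A B : List (Lt V L)) : mrgGl (A ++ B) = mrgGl A ++ mrgGl B := by
  induction A with
  | nil => rfl
  | cons a A ih =>
    rcases a with ⟨v | n, s⟩
    · simp [mrgGl, ih]
    · simp [mrgGl, ih]

@[simp] theorem mrgGl_nil : mrgGl ([] : List (Lt V L)) = [] := rfl

@[simp] theorem mrgGl_inl (v : V) (s : Bool) (l : List (Lt V L)) :
    mrgGl ((Sum.inl v, s) :: l) = (v, s) :: mrgGl l := rfl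

@[simp] theorem mrgGl_ret (n : Nm V L) (l : List (Lt V L)) :
    mrgGl (retL n :: l) = mrgGl l := rfl

@[simp] theorem mrgGl_top (n : Nm V L) (l : List (Lt V L)) :
    mrgGl (topL n :: l) = mrgGl l := rfl

theorem mrg_mem (W : List (Lt V L)) (v : V) (s : Bool) :
    (v, s) ∈ mrgGl W ↔ ((Sum.inl v, s) : Lt V L) ∈ W := by
  induction W with
  | nil => simp
  | cons a A ih =>
    rcases a with ⟨u | n, t⟩
    · simp [ih]
    · simp [mrgGl, ih]

theorem mrg_perm (b : BT V) :
    (mrgGl (RC b : List (Lt V L)) ++ mrgGl (LC b : List (Lt V L))).Perm (gls b) := by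
  induction b with
  | nil => simp [gls]
  | it v s r ih =>
    cases s
    · simpa [gls] using ih
    · simp only [RC_itR, LC_itR, mrgGl_append, mrgGl_inl, mrgGl_nil, gls]
      rw [← List.append_assoc]
      refine (List.perm_append_comm).trans ?_
      simpa using ih
  | ch j v s c r ihc ihr =>
    have key : ∀ (R1 R2 R3 R4 : List (V × Bool)), (R1 ++ R2).Perm (gls c) → (R3 ++ R4).Perm (gls r) →
        (R1 ++ (R2 ++ (R3 ++ R4))).Perm (gls c ++ gls r) := by
      intro R1 R2 R3 R4 h1 h2
      rw [← List.append_assoc]
      exact h1.append h2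
    have h := key _ _ _ _ ihc ihr
    cases j <;> cases s
    · simp only [RC_br, LC_br, mrgGl_append, mrgGl_ret, mrgGl_top, gls]
      refine List.Perm.trans ?_ h
      simp only [List.append_assoc]
      exact List.Perm.refl _
    · simp only [RC_bl, LC_bl, mrgGl_append, mrgGl_ret, mrgGl_top, mrgGl_nil, gls, List.append_nil]
      refine List.Perm.trans ?_ h
      have := List.perm_append_comm (l₁ := mrgGl (RC r : List (Lt V L)) ++ mrgGl (LC r : List (Lt V L)))
        (l₂ := mrgGl (RC c : List (Lt V L)) ++ mrgGl (LC c : List (Lt V L)))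
      simpa [List.append_assoc] using this
    · simp only [RC_jl, LC_jl, mrgGl_append, mrgGl_ret, mrgGl_top, gls]
      refine List.Perm.trans ?_ h
      have := List.perm_append_comm (l₁ := mrgGl (RC r : List (Lt V L)) ++ mrgGl (LC r : List (Lt V L)))
        (l₂ := mrgGl (RC c : List (Lt V L)) ++ mrgGl (LC c : List (Lt V L)))
      simpa [List.append_assoc] using this
    · simp only [RC_jr, LC_jr, mrgGl_append, mrgGl_ret, mrgGl_top, mrgGl_nil, gls, List.append_nil]
      refine List.Perm.trans ?_ h
      simp only [List.append_assoc]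
      exact List.Perm.refl _

theorem mrg_wrd_perm (ctx : Option (Nm V L)) (b : BT V) :
    (mrgGl (wrd ctx b)).Perm (gls b) := by
  cases ctx with
  | none => simpa [wrd, mrgGl_append] using mrg_perm (L := L) b
  | some n => simpa [wrd, mrgGl_append] using mrg_perm (L := L) b

theorem mrg_gls_sub (b : BT V) : (gls b).Sublist (eps b) := by
  induction b with
  | nil => simp [gls, eps]
  | it v s r ih => simpa [gls, eps] using ih
  | ch j v s c r ihc ihr =>
    simp only [gls, eps]
    exact ((ihc.append ihr).cons _).cons _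

theorem mrg_gls_pl (l : List (V × Bool)) : gls (pl l) = l := by
  induction l with
  | nil => rfl
  | cons a l ih => rcases a with ⟨v, s⟩; simp [pl, gls, ih]

theorem mrg_eps_pl (l : List (V × Bool)) : eps (pl l) = l := by
  induction l with
  | nil => rfl
  | cons a l ih => rcases a with ⟨v, s⟩; simp [pl, eps, ih]

theorem mrg_noJ_pl (l : List (V × Bool)) : noJ (pl l) := by
  induction l with
  | nil => trivial
  | cons a l ih => rcases a with ⟨v, s⟩; simpa [pl, noJ] using ih

theorem mrg_pl_RC (l : List (V × Bool)) (u : V) (h : (u, false) ∈ l) :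
    ((Sum.inl u, false) : Lt V L) ∈ (RC (pl l) : List (Lt V L)) := by
  induction l with
  | nil => simp at h
  | cons a l ih =>
    rcases a with ⟨v, s⟩
    cases s
    · rcases List.mem_cons.1 h with h | h
      · have : u = v := by simpa using congrArg Prod.fst h
        subst this
        simp [pl]
      · simpa [pl] using Or.inr (ih h)
    · rcases List.mem_cons.1 h with h | h
      · simp at h
      · simpa [pl] using ih h

theorem mrg_pl_LC (l : List (V × Bool)) (u : V) (h : (u, true) ∈ l) :
    ((Sum.inl u, true) : Lt V L) ∈ (LC (pl l) : List (Lt V L)) := by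
  induction l with
  | nil => simp at h
  | cons a l ih =>
    rcases a with ⟨v, s⟩
    cases s
    · rcases List.mem_cons.1 h with h | h
      · simp at h
      · simpa [pl] using ih h
    · rcases List.mem_cons.1 h with h | h
      · have : u = v := by simpa using congrArg Prod.fst h
        subst this
        simp [pl]
      · simpa [pl] using Or.inl (ih h)

theorem mrg_blk_gl (v : V) (s : Bool) (l : List (V × Bool)) :
    (mrgGl (blk L v s (pl l))).Perm l := by
  have h := mrg_perm (L := L) (pl l)
  rw [mrg_gls_pl] at h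
  cases s
  · simpa [blk, mrgGl_append] using h
  · simpa [blk, mrgGl_append] using h

theorem mrg_blk_mem (v : V) (s : Bool) (l : List (V × Bool)) (u : V) (t : Bool) :
    ((Sum.inl u, t) : Lt V L) ∈ blk L v s (pl l) ↔ (u, t) ∈ l := by
  rw [← mrg_mem]
  exact (mrg_blk_gl v s l).mem_iff

theorem mrg_skip {α : Type} (l A B : List α) (a : α) (h : l.Sublist (A ++ a :: B)) (ha : a ∉ l) :
    l.Sublist (A ++ B) := by
  rw [List.sublist_append_iff] at h
  obtain ⟨l1, l2, rfl, h1, h2⟩ := h
  rw [List.sublist_cons_iff] at h2
  rcases h2 with h2 | ⟨r, rfl, h2⟩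
  · exact h1.append h2
  · exact absurd (by simp) ha

theorem mrg_first {α : Type} (P : α → Prop) (W : List α) (h : ∃ a ∈ W, P a) :
    ∃ (A : List α) (a : α) (B : List α), W = A ++ a :: B ∧ P a ∧ ∀ x ∈ A, ¬ P x := by
  induction W with
  | nil => simp at h
  | cons w W ih =>
    by_cases hw : P w
    · exact ⟨[], w, W, rfl, hw, by simp⟩
    · have : ∃ a ∈ W, P a := by
        obtain ⟨a, ha, hp⟩ := h
        rcases List.mem_cons.1 ha with rfl | ha
        · exact absurd hp hw
        · exact ⟨a, ha, hp⟩
      obtain ⟨A, a, B, rfl, hp, hA⟩ := ih this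
      refine ⟨w :: A, a, B, rfl, hp, ?_⟩
      intro x hx
      rcases List.mem_cons.1 hx with rfl | hx
      · exact hw
      · exact hA x hx

theorem mrg_last {α : Type} (P : α → Prop) (W : List α) (h : ∃ a ∈ W, P a) :
    ∃ (A : List α) (a : α) (B : List α), W = A ++ a :: B ∧ P a ∧ ∀ x ∈ B, ¬ P x := by
  obtain ⟨A, a, B, h1, h2, h3⟩ := mrg_first P W.reverse (by simpa using h)
  refine ⟨B.reverse, a, A.reverse, ?_, h2, ?_⟩
  · have := congrArg List.reverse h1
    simpa using this
  · intro x hx
    exact h3 x (by simpa using hx)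

theorem mrg_sub1 {α : Type} {a : α} {A : List α} (h : a ∈ A) : [a].Sublist A :=
  List.singleton_sublist.2 h

/-- the main lemma about `Rho` -/
theorem mrg_rho (v : V) (s : Bool) (l : List (V × Bool)) (A B : List (Lt V L))
    (hR : Rho (A ++ (Sum.inl v, s) :: B))
    (hv : ∀ t, ((Sum.inl v, t) : Lt V L) ∉ A ++ B) (hvl : ∀ t, (v, t) ∉ l)
    (hs0 : s = false → ∀ u, ((Sum.inl u, false) : Lt V L) ∈ A → (u, true) ∉ l)
    (hs1 : s = true → (∀ u, ((Sum.inl u, false) : Lt V L) ∈ A ++ B → (u, true) ∉ l) ∧
      ∀ u, ((Sum.inl u, true) : Lt V L) ∈ B → (u, false) ∉ l) :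
    Rho (A ++ (blk L v s (pl l) ++ B)) := by
  intro u ht hf
  have hmem : ∀ t, ((Sum.inl u, t) : Lt V L) ∈ A ++ (blk L v s (pl l) ++ B) →
      ((Sum.inl u, t) : Lt V L) ∈ A ++ B ∨ (u, t) ∈ l := by
    intro t h
    rcases List.mem_append.1 h with h | h
    · exact Or.inl (List.mem_append_left _ h)
    · rcases List.mem_append.1 h with h | h
      · exact Or.inr ((mrg_blk_mem v s l u t).1 h)
      · exact Or.inl (List.mem_append_right _ h)
  have hAB : (A ++ B).Sublist (A ++ (blk L v s (pl l) ++ B)) :=
    List.Sublist.append (List.Sublist.refl _) (List.sublist_append_right _ _)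
  have hABm := hAB.map Prod.fst
  have ht' := hmem true ht
  have hf' := hmem false hf
  rcases ht' with ht' | ht'
  · rcases hf' with hf' | hf'
    · -- both letters in A, B
      have huv : u ≠ v := by
        rintro rfl
        exact hv true ht'
      have hsubW : (A ++ B).Sublist (A ++ (Sum.inl v, s) :: B) :=
        List.Sublist.append (List.Sublist.refl _) (List.sublist_cons_self _ _)
      rcases hR u (hsubW.subset ht') (hsubW.subset hf') with h | ⟨n, h⟩
      · left
        refine (mrg_skip _ A B _ h ?_).trans hAB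
        simp [Ne.symm huv]
      · right
        refine ⟨n, ?_⟩
        rw [List.map_append, List.map_cons] at h
        rcases h with h | h
        · left
          refine (mrg_skip _ _ _ _ h ?_).trans (by simpa using hABm)
          simp [Ne.symm huv]
        · right
          refine (mrg_skip _ _ _ _ h ?_).trans (by simpa using hABm)
          simp [Ne.symm huv]
    · -- (u, true) in A, B; (u, false) in the block
      cases s with
      | false =>
        rcases List.mem_append.1 ht' with hA | hB
        · left
          have h1 := (mrg_sub1 hA).append (mrg_sub1 ((mrg_blk_mem (L := L) v false l u false).2 hf'))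
          refine h1.trans ?_
          exact List.Sublist.append (List.Sublist.refl _) (List.sublist_append_left _ _)
        · right
          refine ⟨Sum.inl (v, true), Or.inr ?_⟩
          have h1 := mrg_sub1 (mrg_pl_RC (L := L) l u hf')
          have h2 := mrg_sub1 hB
          have h3 : ([retL (Sum.inl (v, true)), (Sum.inl u, false), topL (Sum.inl (v, true)),
              (Sum.inl u, true)] : List (Lt V L)).Sublist
              (A ++ (blk L v false (pl l) ++ B)) := by
            have h4 : ([topL (Sum.inl (v, true))] ++ [(Sum.inl u, true)] : List (Lt V L)).Sublist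
                ((topL (Sum.inl (v, true)) :: LC (pl l)) ++ B) := by
              refine List.Sublist.append ?_ h2
              exact mrg_sub1 (by simp)
            have h5 := (h1.append h4).cons_cons (retL (Sum.inl (v, true)) : Lt V L)
            refine List.Sublist.trans ?_ (List.sublist_append_right A _)
            simpa [blk] using h5
          have := h3.map Prod.fst
          simpa [retL, topL] using this
      | true =>
        rcases List.mem_append.1 ht' with hA | hB
        · left
          have h1 := (mrg_sub1 hA).append (mrg_sub1 ((mrg_blk_mem (L := L) v true l u false).2 hf'))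
          refine h1.trans ?_
          exact List.Sublist.append (List.Sublist.refl _) (List.sublist_append_left _ _)
        · exact absurd hf' ((hs1 rfl).2 u hB)
  · rcases hf' with hf' | hf'
    · -- (u, true) in the block, (u, false) in A, B
      cases s with
      | false =>
        rcases List.mem_append.1 hf' with hA | hB
        · exact absurd ht' (hs0 rfl u hA)
        · left
          have h1 := (mrg_sub1 ((mrg_blk_mem (L := L) v false l u true).2 ht')).append (mrg_sub1 hB)
          exact h1.trans (List.sublist_append_right _ _)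
      | true => exact absurd ht' ((hs1 rfl).1 u hf')
    · -- both in the block
      right
      have h1 := mrg_sub1 (mrg_pl_RC (L := L) l u hf')
      have h2 := mrg_sub1 (mrg_pl_LC (L := L) l u ht')
      cases s with
      | false =>
        refine ⟨Sum.inl (v, true), Or.inr ?_⟩
        have h3 : ([retL (Sum.inl (v, true)), (Sum.inl u, false), topL (Sum.inl (v, true)),
            (Sum.inl u, true)] : List (Lt V L)).Sublist (A ++ (blk L v false (pl l) ++ B)) := by
          have h5 := (h1.append (h2.cons_cons (topL (Sum.inl (v, true)) : Lt V L))).cons_cons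
            (retL (Sum.inl (v, true)) : Lt V L)
          refine List.Sublist.trans ?_ (List.sublist_append_right A _)
          refine List.Sublist.trans ?_ (List.sublist_append_left _ B)
          simpa [blk] using h5
        have := h3.map Prod.fst
        simpa [retL, topL] using this
      | true =>
        refine ⟨Sum.inl (v, false), Or.inl ?_⟩
        have h3 : ([(Sum.inl u, false), topL (Sum.inl (v, false)),
            (Sum.inl u, true), retL (Sum.inl (v, false))] : List (Lt V L)).Sublist
            (A ++ (blk L v true (pl l) ++ B)) := by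
          have h5 := h1.append ((h2.append (List.Sublist.refl
            ([retL (Sum.inl (v, false))] : List (Lt V L)))).cons_cons
            (topL (Sum.inl (v, false)) : Lt V L))
          refine List.Sublist.trans ?_ (List.sublist_append_right A _)
          refine List.Sublist.trans ?_ (List.sublist_append_left _ B)
          simpa [blk] using h5
        have := h3.map Prod.fst
        simpa [retL, topL] using this

/-- the replacement seen in the whole contour word -/
theorem mrg_subst (ctx : Option (Nm V L)) (b b' : BT V) (v : V) (s : Bool) (c : BT V)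
    (h : (Subst L v s c (RC b) (RC b') ∧ (LC b' : List (Lt V L)) = LC b) ∨
        ((RC b' : List (Lt V L)) = RC b ∧ Subst L v s c (LC b) (LC b'))) :
    Subst L v s c (wrd ctx b) (wrd ctx b') := by
  rcases h with ⟨⟨A, B, h1, h2⟩, h3⟩ | ⟨h3, A, B, h1, h2⟩
  · cases ctx with
    | none => exact ⟨A, B ++ LC b, by simp [wrd, h1], by simp [wrd, h2, h3]⟩
    | some n =>
      exact ⟨retL n :: A, B ++ topL n :: LC b, by simp [wrd, h1], by simp [wrd, h2, h3]⟩
  · cases ctx with
    | none => exact ⟨RC b ++ A, B, by simp [wrd, h1], by simp [wrd, h2, h3]⟩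
    | some n =>
      exact ⟨retL n :: (RC b ++ topL n :: A), B, by simp [wrd, h1], by simp [wrd, h2, h3]⟩

/-- the step for a chosen item -/
theorem mrg_go (ctx : Option (Nm V L)) (nu : Option (V × Bool) → Option (V × Bool))
    (b : BT V) (x y : Option (V × Bool)) (c : List (V × Bool)) (hpath : Path nu b x y)
    (hb : (eps b).Nodup) (hR : Rho (wrd ctx b)) (hc : c.Nodup) (hdis : ∀ z ∈ c, z ∉ eps b)
    (hcyc : ∀ w ∈ c, ∃ l' : List (V × Bool), (w :: l').Perm c ∧
      Path nu (pl l') (nu (some w)) (some w))
    (v : V) (s : Bool) (A B : List (Lt V L)) (hW : wrd ctx b = A ++ (Sum.inl v, s) :: B)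
    (hvc : (v, !s) ∈ c)
    (hs0 : s = false → ∀ u, ((Sum.inl u, false) : Lt V L) ∈ A → (u, true) ∉ c)
    (hs1 : s = true → (∀ u, ((Sum.inl u, false) : Lt V L) ∈ A ++ B → (u, true) ∉ c) ∧
      ∀ u, ((Sum.inl u, true) : Lt V L) ∈ B → (u, false) ∉ c) :
    ∃ b' : BT V, Path nu b' x y ∧ (eps b').Perm (c ++ eps b) ∧ Rho (wrd ctx b') ∧
      (okJ b → okJ b') ∧ (noJ b → noJ b') := by
  obtain ⟨l', hl', hpl⟩ := hcyc (v, !s) hvc
  have hperm := mrg_wrd_perm ctx b
  have hnd : (mrgGl (wrd ctx b)).Nodup := (hperm.nodup_iff).2 (hb.sublist (mrg_gls_sub b))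
  have hmem : ∀ u t, ((Sum.inl u, t) : Lt V L) ∈ wrd ctx b → (u, t) ∈ eps b := by
    intro u t h
    exact (mrg_gls_sub b).subset (hperm.mem_iff.1 ((mrg_mem _ u t).2 h))
  have hvg : (v, s) ∈ gls b := by
    refine hperm.mem_iff.1 ((mrg_mem _ v s).2 ?_)
    rw [hW]; simp
  obtain ⟨b', hb1, hb2, hb3, hb4, hb5⟩ := repl L b v s (pl l') hvg
  obtain ⟨A', B', hA', hB'⟩ := mrg_subst ctx b b' v s (pl l') hb1
  have hsub : ∀ t ∈ l', t ∈ c := fun t ht => hl'.mem_iff.1 (List.mem_cons_of_mem _ ht)
  -- uniqueness of the decomposition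
  have hnd1 := hnd
  rw [hW, mrgGl_append, mrgGl_inl] at hnd1
  have hA : (v, s) ∉ mrgGl A := by
    intro h
    exact (List.nodup_append.1 hnd1).2.2 _ h _ (by simp) rfl
  have hB : (v, s) ∉ mrgGl B := (List.nodup_cons.1 (List.nodup_append.1 hnd1).2.1).1
  have huniq : A = A' ∧ B = B' := by
    have h1 : A ++ (Sum.inl v, s) :: B = A' ++ (Sum.inl v, s) :: B' := by rw [← hW, ← hA']
    have := (List.append_cons_inj_of_notMem (a₁ := ((Sum.inl v, s) : Lt V L))
      (fun h => hA ((mrg_mem _ _ _).2 h)) (fun h => hB ((mrg_mem _ _ _).2 h))).1 h1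
    exact ⟨this.1, this.2.2⟩
  obtain ⟨rfl, rfl⟩ := huniq
  have hinAB : ∀ z : Lt V L, z ∈ A ++ B → z ∈ wrd ctx b := by
    intro z hz
    rw [hW]
    rcases List.mem_append.1 hz with h | h
    · exact List.mem_append_left _ h
    · exact List.mem_append_right _ (List.mem_cons_of_mem _ h)
  refine ⟨b', hb2 nu x y hpath hpl, ?_, ?_, fun h => hb4 h (mrg_noJ_pl l'),
    fun h => hb5 h (mrg_noJ_pl l')⟩
  · refine hb3.trans ?_
    rw [mrg_eps_pl, ← List.cons_append]
    exact hl'.append_right _
  · rw [hB']
    refine mrg_rho v s l' A B (by rw [← hW]; exact hR) ?_ ?_ ?_ ?_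
    · intro t ht
      by_cases hts : t = s
      · subst hts
        rcases List.mem_append.1 ht with h | h
        · exact hA ((mrg_mem _ _ _).2 h)
        · exact hB ((mrg_mem _ _ _).2 h)
      · have : t = !s := by cases t <;> cases s <;> simp_all
        subst this
        exact hdis _ hvc (hmem _ _ (hinAB _ ht))
    · intro t ht
      by_cases hts : t = s
      · subst hts
        exact hdis _ (hsub _ ht) ((mrg_gls_sub b).subset hvg)
      · have : t = !s := by cases t <;> cases s <;> simp_all
        subst this
        exact (List.nodup_cons.1 ((hl'.nodup_iff).2 hc)).1 ht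
    · intro h u hu hl
      exact hs0 h u hu (hsub _ hl)
    · intro h
      exact ⟨fun u hu hl => (hs1 h).1 u hu (hsub _ hl), fun u hu hl => (hs1 h).2 u hu (hsub _ hl)⟩

theorem merge_step (ctx : Option (Nm V L)) (nu : Option (V × Bool) → Option (V × Bool))
    (b : BT V) (x y : Option (V × Bool)) (c : List (V × Bool)) (hpath : Path nu b x y)
    (hb : (eps b).Nodup) (hR : Rho (wrd ctx b)) (hc : c.Nodup) (hdis : ∀ z ∈ c, z ∉ eps b)
    (hcyc : ∀ w ∈ c, ∃ l' : List (V × Bool), (w :: l').Perm c ∧
      Path nu (pl l') (nu (some w)) (some w))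
    (hpend : ∃ z ∈ gls b, (z.1, !z.2) ∈ c) :
    ∃ b' : BT V, Path nu b' x y ∧ (eps b').Perm (c ++ eps b) ∧ Rho (wrd ctx b') ∧
      (okJ b → okJ b') ∧ (noJ b → noJ b') := by
  have hperm := mrg_wrd_perm ctx b
  have hgl : ∀ u t, ((Sum.inl u, t) : Lt V L) ∈ wrd ctx b ↔ (u, t) ∈ gls b := by
    intro u t
    rw [← mrg_mem]
    exact hperm.mem_iff
  by_cases hPL : ∃ u, (u, false) ∈ gls b ∧ (u, true) ∈ c
  · obtain ⟨A, a, B, hW, ⟨v, rfl, hv⟩, hA⟩ :=
      mrg_first (fun a : Lt V L => ∃ u, a = (Sum.inl u, false) ∧ (u, true) ∈ c) (wrd ctx b) (by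
        obtain ⟨u, hu1, hu2⟩ := hPL
        exact ⟨_, (hgl u false).2 hu1, u, rfl, hu2⟩)
    refine mrg_go ctx nu b x y c hpath hb hR hc hdis hcyc v false A B hW hv ?_ ?_
    · intro _ u hu hu'
      exact hA _ hu ⟨u, rfl, hu'⟩
    · intro h
      simp at h
  · have hex : ∃ u, (u, true) ∈ gls b ∧ (u, false) ∈ c := by
      obtain ⟨⟨u, t⟩, h1, h2⟩ := hpend
      cases t
      · exact absurd ⟨u, h1, h2⟩ hPL
      · exact ⟨u, h1, h2⟩
    obtain ⟨A, a, B, hW, ⟨v, rfl, hv⟩, hB⟩ :=
      mrg_last (fun a : Lt V L => ∃ u, a = (Sum.inl u, true) ∧ (u, false) ∈ c) (wrd ctx b) (by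
        obtain ⟨u, hu1, hu2⟩ := hex
        exact ⟨_, (hgl u true).2 hu1, u, rfl, hu2⟩)
    refine mrg_go ctx nu b x y c hpath hb hR hc hdis hcyc v true A B hW hv ?_ ?_
    · intro h
      simp at h
    · intro _
      refine ⟨?_, ?_⟩
      · intro u hu hu'
        refine hPL ⟨u, (hgl u false).1 ?_, hu'⟩
        rw [hW]
        rcases List.mem_append.1 hu with h | h
        · exact List.mem_append_left _ h
        · exact List.mem_append_right _ (List.mem_cons_of_mem _ h)
      · intro u hu hu'
        exact hB _ hu ⟨u, rfl, hu'⟩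

end Pool.Agent.H53.SQ
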