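import Pool.Agent.H53.SQ.ASM
import Pool.Agent.H53.SQ.LAB
import Pool.Agent.H53.SQ.FDefs

/-!
# Module QAL: every drawn code has a forest of bars with correct contour words

PROOF. OPEN STRAND: `cyc_s` gives the list `l`, `greedy O.loops l` the bar `b`, `complete none O.nu ∅`
the bar `b₀` (`Closed O.nu ∅ b`: by `path_start` and `path_next` for the path of `b` from `nu none` to
`none`). Let `P` be the finset of the crossings of `eps b₀`, `ps = true`; `Pin P ps (nu x) ↔ Pin P ps x`
because the set `{none} ∪ some '' eps b₀` is closed under `nu` (`Closed`), finite, `nu` is injective, and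
`(v, false) ∈ eps b₀ ↔ (v, true) ∈ eps b₀`. Then `faces` and `comp_chk_open`
(`Feq` = first conclusion of `faces`).
ROOTS: prove by induction on the number of ends not in `U` the statement: for every set (finset) `U` of
ends closed under `z ↦ (z.1, !z.2)` and such that `{none} ∪ some '' U` is closed under `nu`, there is a list
`R` of roots, each with the properties required in `Forest`, such that `R.flatMap (eps ·.2)` is `Nodup`,
disjoint from `U`, and together with `U` contains all ends. If some end is not in `U`, then some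
`z = (v, true)` is not in `U`; `cyc_c` for `z` with `E = {none} ∪ some '' U` gives `c` and (for `w = z`) `l'`;
start with the bar `b = pl (z :: l')`, which has `Path O.nu b (some z) (some z)`, `noJ b`, and `Rho` of
`wrd (some (inl z)) b`: for a crossing `u` with both letters, `(inl u, false) ∈ RC b`,
`(inl u, true) ∈ LC b` (plain bar), the ids contain `ret, u, top, u`. `complete` gives the bar of the
root; `P` = its crossings, `ps = false` (the set `some '' eps` is closed under `nu`: `path_next` with
`y = some z ∈ some '' eps`). `faces`, `comp_chk_root`. Continue with `U ∪ eps`.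
-/

namespace Pool.Agent.H53.SQ

variable {V : Type}

lemma qal_fin {α : Type} [DecidableEq α] (e : α ≃ α) (E : Finset α) (h : ∀ x ∈ E, e x ∈ E) (x : α) :
    e x ∈ E ↔ x ∈ E := by
  have h1 : E.map e.toEmbedding = E := by
    apply Finset.eq_of_subset_of_card_le
    · intro y hy
      rw [Finset.mem_map] at hy
      obtain ⟨z, hz, rfl⟩ := hy
      exact h z hz
    · rw [Finset.card_map]
  constructor
  · intro hx
    rw [← h1, Finset.mem_map] at hx
    obtain ⟨z, hz, hze⟩ := hx
    have : z = x := e.injective hze
    rwa [← this]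
  · exact h x

lemma qal_pl_RC (L : ℕ) (l : List (V × Bool)) (a : Lt V L) (h : a ∈ (RC (pl l) : List (Lt V L))) :
    a.2 = false := by
  induction l with
  | nil => simp [pl] at h
  | cons z l ih =>
    obtain ⟨v, s⟩ := z
    cases s
    · simp only [pl, RC_itL, List.mem_cons] at h
      rcases h with rfl | h
      · rfl
      · exact ih h
    · simp only [pl, RC_itR] at h
      exact ih h

lemma qal_pl_LC (L : ℕ) (l : List (V × Bool)) (a : Lt V L) (h : a ∈ (LC (pl l) : List (Lt V L))) :
    a.2 = true := by
  induction l with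
  | nil => simp [pl] at h
  | cons z l ih =>
    obtain ⟨v, s⟩ := z
    cases s
    · simp only [pl, LC_itL] at h
      exact ih h
    · simp only [pl, LC_itR, List.mem_append, List.mem_singleton] at h
      rcases h with h | rfl
      · exact ih h
      · rfl

lemma qal_rho (L : ℕ) (l : List (V × Bool)) (n : Nm V L) : Rho (wrd (some n) (pl l) : List (Lt V L)) := by
  intro v h1 h2
  right
  refine ⟨n, Or.inr ?_⟩
  unfold wrd at h1 h2 ⊢
  have h3 : (Sum.inl v, false) ∈ (RC (pl l) : List (Lt V L)) := by
    simp only [List.mem_cons, List.mem_append] at h2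
    rcases h2 with h | h | h | h
    · exact absurd (congrArg Prod.fst h) (by simp [retL])
    · exact h
    · exact absurd (congrArg Prod.fst h) (by simp [topL])
    · exact absurd (qal_pl_LC L l _ h) (by simp)
  have h4 : (Sum.inl v, true) ∈ (LC (pl l) : List (Lt V L)) := by
    simp only [List.mem_cons, List.mem_append] at h1
    rcases h1 with h | h | h | h
    · exact absurd (congrArg Prod.fst h) (by simp [retL])
    · exact absurd (qal_pl_RC L l _ h) (by simp)
    · exact absurd (congrArg Prod.fst h) (by simp [topL])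
    · exact h
  have h5 : (Sum.inl v : V ⊕ Nm V L) ∈ (RC (pl l) : List (Lt V L)).map Prod.fst :=
    List.mem_map.mpr ⟨_, h3, rfl⟩
  have h6 : (Sum.inl v : V ⊕ Nm V L) ∈ (LC (pl l) : List (Lt V L)).map Prod.fst :=
    List.mem_map.mpr ⟨_, h4, rfl⟩
  simp only [List.map_cons, List.map_append, retL, topL]
  apply List.Sublist.cons_cons
  apply List.Sublist.append (l₁ := [Sum.inl v]) (List.singleton_sublist.mpr h5)
  apply List.Sublist.cons_cons
  exact List.singleton_sublist.mpr h6

lemma qal_chk_root [Fintype V] [DecidableEq V] (O : Code V) (e : List Gen) (hD : Draws O e) (b : BT V)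
    (g : V × Bool) (hg : g.2 = true) (hne : b ≠ BT.nil) (hpath : Path O.nu b (some g) (some g))
    (hb : (eps b).Nodup) (hcl : ∀ z ∈ eps b, (z.1, !z.2) ∈ eps b)
    (hR : Rho (wrd (some (Sum.inl g)) b : List (Lt V O.loops))) :
    chk [] (wrd (some (Sum.inl g)) b : List (Lt V O.loops)) := by
  have hgm : g ∈ eps b := by
    rcases path_start O.nu b _ _ hpath with h | ⟨z, hz, h⟩
    · exact absurd h.1 hne
    · rw [Option.some.injEq] at h
      rw [h]; exact hz
  set P : Finset V := ((eps b).map Prod.fst).toFinset with hPd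
  have hmem : ∀ z : V × Bool, z.1 ∈ P ↔ z ∈ eps b := by
    intro z
    rw [hPd, List.mem_toFinset, List.mem_map]
    constructor
    · rintro ⟨w, hw, hwz⟩
      obtain ⟨v, s⟩ := z
      obtain ⟨v', s'⟩ := w
      simp only at hwz
      subst hwz
      by_cases hs : s' = s
      · rw [← hs]; exact hw
      · have h1 := hcl _ hw
        have h2 : (!s') = s := by
          cases s' <;> cases s <;> simp_all
        simp only at h1
        rwa [h2] at h1
    · intro h
      exact ⟨z, h, rfl⟩
  have hE : ∀ x, Pin P false x ↔ x ∈ (eps b).toFinset.image some := by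
    intro x
    cases x with
    | none => simp [Pin]
    | some z =>
      simp only [Pin, Finset.mem_image, List.mem_toFinset, Option.some.injEq, exists_eq_right]
      exact hmem z
  have hclE : ∀ x ∈ (eps b).toFinset.image some, O.nu x ∈ (eps b).toFinset.image some := by
    intro x hx
    rw [Finset.mem_image] at hx ⊢
    obtain ⟨z, hz, rfl⟩ := hx
    rw [List.mem_toFinset] at hz
    rcases path_next O.nu b _ _ hpath z hz with h | ⟨z', hz', h⟩
    · exact ⟨g, List.mem_toFinset.mpr hgm, h.symm⟩
    · exact ⟨z', List.mem_toFinset.mpr hz', h.symm⟩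
  obtain ⟨ℓ, r, h1, -, S, h3, h4⟩ := faces O e hD P false
    (by
      intro x
      rw [hE, hE]
      exact qal_fin O.nu _ hclE x)
    (Or.inr ⟨g.1, (hmem g).mpr hgm⟩)
  refine comp_chk_root O.nu ℓ r b g hg hne hpath hb hcl hR ?_ S ?_ ?_
  · intro z hz
    exact h1 z.1 ((hmem z).mpr hz)
  · intro a ha
    obtain ⟨x, hx, hxa⟩ := h3 a ha
    cases x with
    | none => simp [Pin] at hx
    | some z => exact ⟨z, (hmem z).mp hx, hxa⟩
  · simpa using h4

lemma qal_chk_open [Fintype V] [DecidableEq V] (O : Code V) (e : List Gen) (hD : Draws O e) (b : BT V)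
    (hpath : Path O.nu b (O.nu none) none)
    (hb : (eps b).Nodup) (hcl : ∀ z ∈ eps b, (z.1, !z.2) ∈ eps b)
    (hR : Rho (wrd none b : List (Lt V O.loops))) :
    chk [] (wrd none b : List (Lt V O.loops)) := by
  set P : Finset V := ((eps b).map Prod.fst).toFinset with hPd
  have hmem : ∀ z : V × Bool, z.1 ∈ P ↔ z ∈ eps b := by
    intro z
    rw [hPd, List.mem_toFinset, List.mem_map]
    constructor
    · rintro ⟨w, hw, hwz⟩
      obtain ⟨v, s⟩ := z
      obtain ⟨v', s'⟩ := w
      simp only at hwz
      subst hwz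
      by_cases hs : s' = s
      · rw [← hs]; exact hw
      · have h1 := hcl _ hw
        have h2 : (!s') = s := by
          cases s' <;> cases s <;> simp_all
        simp only at h1
        rwa [h2] at h1
    · intro h
      exact ⟨z, h, rfl⟩
  have hE : ∀ x, Pin P true x ↔ x ∈ insert none ((eps b).toFinset.image some) := by
    intro x
    cases x with
    | none => simp [Pin]
    | some z =>
      simp only [Pin, Finset.mem_insert, Finset.mem_image, List.mem_toFinset, Option.some.injEq, exists_eq_right,
        reduceCtorEq, false_or]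
      exact hmem z
  have hclE : ∀ x ∈ insert none ((eps b).toFinset.image some), O.nu x ∈ insert none ((eps b).toFinset.image some) := by
    intro x hx
    rw [Finset.mem_insert, Finset.mem_image] at hx ⊢
    rcases hx with rfl | ⟨z, hz, rfl⟩
    · rcases path_start O.nu b _ _ hpath with h | ⟨z, hz, h⟩
      · exact Or.inl h.2
      · exact Or.inr ⟨z, List.mem_toFinset.mpr hz, h.symm⟩
    · rw [List.mem_toFinset] at hz
      rcases path_next O.nu b _ _ hpath z hz with h | ⟨z', hz', h⟩
      · exact Or.inl h
      · exact Or.inr ⟨z', List.mem_toFinset.mpr hz', h.symm⟩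
  obtain ⟨ℓ, r, h1, h2, S, h3, h4⟩ := faces O e hD P true
    (by
      intro x
      rw [hE, hE]
      exact qal_fin O.nu _ hclE x)
    (Or.inl rfl)
  refine comp_chk_open O.nu ℓ r b hpath hb hcl hR ?_ (h2 rfl) S ?_ ?_
  · intro z hz
    exact h1 z.1 ((hmem z).mpr hz)
  · intro a ha
    obtain ⟨x, hx, hxa⟩ := h3 a ha
    cases x with
    | none => exact ⟨none, Or.inl rfl, hxa⟩
    | some z => exact ⟨some z, Or.inr ⟨z, (hmem z).mp hx, rfl⟩, hxa⟩
  · simpa using h4

lemma qal_roots [Fintype V] [DecidableEq V] (O : Code V) (e : List Gen) (hD : Draws O e) (N : ℕ) :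
    ∀ (U : Finset (V × Bool)), (Finset.univ \ U).card ≤ N → (∀ z ∈ U, (z.1, !z.2) ∈ U) →
      (∀ x : Option (V × Bool), (x = none ∨ ∃ z ∈ U, x = some z) → (O.nu x = none ∨ ∃ z ∈ U, O.nu x = some z)) →
      ∃ R : List ((V × Bool) × BT V), (∀ r ∈ R, Path O.nu r.2 (some r.1) (some r.1)) ∧
        (∀ r ∈ R, noJ r.2) ∧ (∀ r ∈ R, r.2 ≠ BT.nil) ∧ (∀ r ∈ R, r.1.2 = true) ∧
        (∀ r ∈ R, chk [] (wrd (some (Sum.inl r.1)) r.2 : List (Lt V O.loops))) ∧
        (R.flatMap (fun r => eps r.2)).Nodup ∧ (∀ z ∈ R.flatMap (fun r => eps r.2), z ∉ U) ∧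
        (∀ z, z ∉ U → z ∈ R.flatMap (fun r => eps r.2)) := by
  induction N with
  | zero =>
    intro U hc _ _
    refine ⟨[], by simp, by simp, by simp, by simp, by simp, by simp, by simp, ?_⟩
    intro z hz
    have h1 : z ∈ Finset.univ \ U := by simp [hz]
    rw [Finset.card_eq_zero.mp (Nat.le_zero.mp hc)] at h1
    simp at h1
  | succ N ih =>
    intro U hc hU hE
    by_cases hall : ∀ z, z ∈ U
    · exact ⟨[], by simp, by simp, by simp, by simp, by simp, by simp, by simp, fun z hz => absurd (hall z) hz⟩
    push Not at hall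
    obtain ⟨z₀, hz₀⟩ := hall
    have hg : (z₀.1, true) ∉ U := by
      intro h
      apply hz₀
      obtain ⟨v, s⟩ := z₀
      cases s
      · exact hU _ h
      · exact h
    obtain ⟨c, hc1, hc2, hc3, hc4, hc5⟩ := cyc_c O.nu (z₀.1, true) {x | x = none ∨ ∃ z ∈ U, x = some z} hE (Or.inl rfl)
      (by
        rintro (h | ⟨z, hz, h⟩)
        · exact absurd h (by simp)
        · rw [Option.some.injEq] at h
          rw [h] at hg
          exact hg hz)
    obtain ⟨l', hl1, hl2⟩ := hc5 _ hc2
    have heps : eps (pl ((z₀.1, true) :: l')) = (z₀.1, true) :: l' := eps_pl _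
    obtain ⟨b, hb1, hb2, hb3, -, hb5, hb6, hb7, hb8, hb9⟩ := complete (some (Sum.inl (z₀.1, true)) : Option (Nm V O.loops))
      O.nu (U : Set (V × Bool)) hU (pl ((z₀.1, true) :: l')) (some (z₀.1, true)) (some (z₀.1, true))
      ⟨rfl, hl2⟩ (by rw [heps]; exact hl1.nodup_iff.mpr hc1) (qal_rho _ _ _)
      (by
        intro z hz hzU
        rw [heps] at hz
        exact hc3 z (hl1.mem_iff.mp hz) (Or.inr ⟨z, hzU, rfl⟩))
      (by
        rw [Closed]
        constructor
        · rcases hE none (Or.inl rfl) with h | ⟨z, hz, h⟩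
          · exact Or.inl h
          · exact Or.inr ⟨z, Or.inl hz, h⟩
        · rintro z (hz | hz)
          · rcases hE (some z) (Or.inr ⟨z, hz, rfl⟩) with h | ⟨z, hz, h⟩
            · exact Or.inl h
            · exact Or.inr ⟨z, Or.inl hz, h⟩
          · rw [heps] at hz ⊢
            obtain ⟨w', hw', h⟩ := hc4 z (hl1.mem_iff.mp hz)
            exact Or.inr ⟨w', Or.inr (hl1.mem_iff.mpr hw'), h⟩)
    have hgm : (z₀.1, true) ∈ eps b := hb7 _ (by rw [heps]; exact List.mem_cons_self)
    have hne : b ≠ BT.nil := by
      rintro rfl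
      simp [eps] at hgm
    have hchk := qal_chk_root O e hD b (z₀.1, true) rfl hne hb1 hb2 hb8 hb3
    have hnoJ : noJ b := hb5 (noJ_pl _)
    obtain ⟨R, r1, r2, r3, r4, r5, r6, r7, r8⟩ := ih (U ∪ (eps b).toFinset)
      (by
        have h1 : (Finset.univ \ (U ∪ (eps b).toFinset)).card < (Finset.univ \ U).card := by
          apply Finset.card_lt_card
          rw [Finset.ssubset_iff_of_subset]
          · refine ⟨(z₀.1, true), by simp [hg], ?_⟩
            simp [hgm]
          · intro x hx
            simp only [Finset.mem_sdiff, Finset.mem_univ, Finset.mem_union, true_and] at hx ⊢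
            tauto
        omega)
      (by
        intro z hz
        rw [Finset.mem_union, List.mem_toFinset] at hz ⊢
        rcases hz with hz | hz
        · exact Or.inl (hU z hz)
        · exact Or.inr (hb8 z hz))
      (by
        have hm : ∀ z, z ∈ U ∪ (eps b).toFinset ↔ (z ∈ (U : Set (V × Bool)) ∨ z ∈ eps b) := by
          intro z
          rw [Finset.mem_union, List.mem_toFinset]
          rfl
        rintro x (rfl | ⟨z, hz, rfl⟩)
        · rcases hb9.1 with h | ⟨z', hz', h⟩
          · exact Or.inl h
          · exact Or.inr ⟨z', (hm z').mpr hz', h⟩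
        · rcases hb9.2 z ((hm z).mp hz) with h | ⟨z', hz', h⟩
          · exact Or.inl h
          · exact Or.inr ⟨z', (hm z').mpr hz', h⟩)
    refine ⟨((z₀.1, true), b) :: R, ?_, ?_, ?_, ?_, ?_, ?_, ?_, ?_⟩
    · intro r hr
      rcases List.mem_cons.mp hr with rfl | hr
      · exact hb1
      · exact r1 r hr
    · intro r hr
      rcases List.mem_cons.mp hr with rfl | hr
      · exact hnoJ
      · exact r2 r hr
    · intro r hr
      rcases List.mem_cons.mp hr with rfl | hr
      · exact hne
      · exact r3 r hr
    · intro r hr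
      rcases List.mem_cons.mp hr with rfl | hr
      · rfl
      · exact r4 r hr
    · intro r hr
      rcases List.mem_cons.mp hr with rfl | hr
      · exact hchk
      · exact r5 r hr
    · rw [List.flatMap_cons, List.nodup_append]
      refine ⟨hb2, r6, ?_⟩
      intro x hx y hy hxy
      subst hxy
      exact r7 x hy (by simp [hx])
    · intro z hz
      rw [List.flatMap_cons, List.mem_append] at hz
      rcases hz with hz | hz
      · exact hb6 z hz
      · intro hzU
        exact r7 z hz (by simp [hzU])
    · intro z hz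
      rw [List.flatMap_cons, List.mem_append]
      by_cases hzb : z ∈ eps b
      · exact Or.inl hzb
      · exact Or.inr (r8 z (by simp [hz, hzb]))

theorem forest_exists [Fintype V] [DecidableEq V] (O : Code V) (e : List Gen) (hD : Draws O e) :
    ∃ (b₀ : BT V) (R : List ((V × Bool) × BT V)), Forest O b₀ R := by
  obtain ⟨l, hl1, hl2⟩ := cyc_s O.nu
  obtain ⟨b, g1, g2, g3, g4⟩ := greedy O.loops l hl1
  have hpb := g3 O.nu _ _ hl2
  obtain ⟨b₀, hb1, hb2, hb3, hb4, -, -, -, hb8, hb9⟩ := complete (none : Option (Nm V O.loops)) O.nu ∅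
    (by simp) b (O.nu none) none hpb (g2.nodup_iff.mpr hl1) g4 (by simp)
    (by
      rw [Closed]
      constructor
      · rcases path_start O.nu b _ _ hpb with h | ⟨z, hz, h⟩
        · exact Or.inl h.2
        · exact Or.inr ⟨z, Or.inr hz, h⟩
      · rintro z (hz | hz)
        · exact absurd hz (by simp)
        · rcases path_next O.nu b _ _ hpb z hz with h | ⟨z', hz', h⟩
          · exact Or.inl h
          · exact Or.inr ⟨z', Or.inr hz', h⟩)
  have hchk := qal_chk_open O e hD b₀ hb1 hb2 hb8 hb3
  obtain ⟨R, r1, r2, r3, r4, r5, r6, r7, r8⟩ := qal_roots O e hD _ (eps b₀).toFinset le_rfl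
    (by
      intro z hz
      rw [List.mem_toFinset] at hz ⊢
      exact hb8 z hz)
    (by
      rintro x (rfl | ⟨z, hz, rfl⟩)
      · rcases hb9.1 with h | ⟨z', hz', h⟩
        · exact Or.inl h
        · exact Or.inr ⟨z', List.mem_toFinset.mpr (hz'.resolve_left (by simp)), h⟩
      · rcases hb9.2 z (Or.inr (List.mem_toFinset.mp hz)) with h | ⟨z', hz', h⟩
        · exact Or.inl h
        · exact Or.inr ⟨z', List.mem_toFinset.mpr (hz'.resolve_left (by simp)), h⟩)
  refine ⟨b₀, R, ⟨hb1, hb4 g1, hchk, r1, r2, r3, r4, r5, ?_, ?_⟩⟩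
  · rw [List.nodup_append]
    refine ⟨hb2, r6, ?_⟩
    intro x hx y hy hxy
    subst hxy
    exact r7 x hy (by simp [hx])
  · intro z
    rw [List.mem_append]
    by_cases hz : z ∈ eps b₀
    · exact Or.inl hz
    · exact Or.inr (r8 z (by simp [hz]))

end Pool.Agent.H53.SQ
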