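import Pool.Agent.H53.SQ.GRD

/-!
# Module REPL: replacing a generic item by the birth of a child

PROOF: induction on `b`. For `it v s r` at the top take `b' = ch false s .. ` i.e.
`BT.ch false v s c r`: for `s = false`, `RC b = (inl v, false) :: RC r` becomes
`ret :: RC c ++ top :: LC c ++ RC r` (that is `blk v false c ++ RC r`), `LC` is unchanged; for
`s = true`, `LC b = LC r ++ [(inl v, true)]` becomes `LC r ++ blk v true c`. For an item deeper in `b`
(in the rest or in a child of a `ch` item) apply the induction hypothesis and put the changed bar back;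
`Subst` is compatible with `A ++ _ ++ B`, and in all the formulas for `RC`, `LC` the contours of the
child and of the rest occur exactly once. Note that for a child both `RC` and `LC` of the child
lie in the same contour of `b`. `Path`: `Path nu (it v s r) x y` and the path of the new child give
`Path nu (ch false v s c r) x y`.
-/

namespace Pool.Agent.H53.SQ

variable {V : Type} {L : ℕ}

/-- the block which replaces the letter of the generic item `(v, s)` -/
def blk (L : ℕ) (v : V) (s : Bool) (c : BT V) : List (Lt V L) :=
  if s then RC c ++ topL (Sum.inl (v, false)) :: (LC c ++ [retL (Sum.inl (v, false))])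
  else retL (Sum.inl (v, true)) :: (RC c ++ topL (Sum.inl (v, true)) :: LC c)

def Subst (L : ℕ) (v : V) (s : Bool) (c : BT V) (W W' : List (Lt V L)) : Prop :=
  ∃ A B : List (Lt V L), W = A ++ (Sum.inl v, s) :: B ∧ W' = A ++ (blk L v s c ++ B)

theorem REPL_ctx {L : ℕ} {v : V} {s : Bool} {c : BT V} {W W' : List (Lt V L)}
    (P Q : List (Lt V L)) (h : Subst L v s c W W') {W₁ W₁' : List (Lt V L)}
    (h1 : W₁ = P ++ (W ++ Q)) (h2 : W₁' = P ++ (W' ++ Q)) : Subst L v s c W₁ W₁' := by
  obtain ⟨A, B, hA, hB⟩ := h
  refine ⟨P ++ A, B ++ Q, ?_, ?_⟩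
  · rw [h1, hA]; simp
  · rw [h2, hB]; simp

theorem repl (L : ℕ) (b : BT V) (v : V) (s : Bool) (c : BT V) (hv : (v, s) ∈ gls b) :
    ∃ b' : BT V,
      ((Subst L v s c (RC b) (RC b') ∧ (LC b' : List (Lt V L)) = LC b) ∨
        ((RC b' : List (Lt V L)) = RC b ∧ Subst L v s c (LC b) (LC b'))) ∧
      (∀ (nu : Option (V × Bool) → Option (V × Bool)) (x y : Option (V × Bool)),
        Path nu b x y → Path nu c (nu (some (v, !s))) (some (v, !s)) → Path nu b' x y) ∧
      (eps b').Perm ((v, !s) :: (eps c ++ eps b)) ∧
      (okJ b → noJ c → okJ b') ∧ (noJ b → noJ c → noJ b') := by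
  induction b with
  | nil => simp [gls] at hv
  | it v' s' r ih =>
    simp only [gls, List.mem_cons] at hv
    rcases hv with hv | hv
    · obtain ⟨rfl, rfl⟩ := Prod.mk.inj hv
      refine ⟨BT.ch false v s c r, ?_, ?_, ?_, ?_, ?_⟩
      · cases s with
        | false =>
          left
          refine ⟨⟨[], RC r, by simp, by simp [blk]⟩, by simp⟩
        | true =>
          right
          refine ⟨by simp, ⟨LC r, [], by simp, by simp [blk]⟩⟩
      · rintro nu x y ⟨h1, h2⟩ h3
        exact ⟨h1, by simpa using h2, by simpa using h3⟩
      · simp only [eps]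
        refine (List.Perm.swap _ _ _).trans (List.Perm.cons _ ?_)
        exact (List.perm_middle).symm
      · intro h1 h2
        exact ⟨h2, h1⟩
      · intro h1 h2
        exact ⟨rfl, h2, h1⟩
    · obtain ⟨r', h1, h2, h3, h4, h5⟩ := ih hv
      refine ⟨BT.it v' s' r', ?_, ?_, ?_, ?_, ?_⟩
      · cases s' with
        | false =>
          rcases h1 with ⟨h1, h1'⟩ | ⟨h1, h1'⟩
          · left
            exact ⟨REPL_ctx [(Sum.inl v', false)] [] h1 (by simp) (by simp), by simp [h1']⟩
          · right
            exact ⟨by simp [h1], REPL_ctx [] [] h1' (by simp) (by simp)⟩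
        | true =>
          rcases h1 with ⟨h1, h1'⟩ | ⟨h1, h1'⟩
          · left
            exact ⟨REPL_ctx [] [] h1 (by simp) (by simp), by simp [h1']⟩
          · right
            exact ⟨by simp [h1], REPL_ctx [] [(Sum.inl v', true)] h1' (by simp) (by simp)⟩
      · rintro nu x y ⟨g1, g2⟩ g3
        exact ⟨g1, h2 nu _ _ g2 g3⟩
      · simp only [eps]
        refine (List.Perm.cons _ h3).trans ?_
        refine (List.Perm.swap _ _ _).trans (List.Perm.cons _ ?_)
        exact (List.perm_middle).symm
      · exact h4
      · exact h5
  | ch j v' s' c' r ihc ihr =>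
    simp only [gls, List.mem_append] at hv
    rcases hv with hv | hv
    · obtain ⟨c'', h1, h2, h3, h4, h5⟩ := ihc hv
      refine ⟨BT.ch j v' s' c'' r, ?_, ?_, ?_, ?_, ?_⟩
      · rcases h1 with ⟨h1, h1'⟩ | ⟨h1, h1'⟩
        · cases j <;> cases s'
          · left
            exact ⟨REPL_ctx [retL (Sum.inl (v', true))]
              (topL (Sum.inl (v', true)) :: (LC c' ++ RC r)) h1 (by simp) (by simp [h1']),
              by simp⟩
          · right
            exact ⟨by simp, REPL_ctx (LC r)
              (topL (Sum.inl (v', false)) :: (LC c' ++ [retL (Sum.inl (v', false))])) h1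
              (by simp) (by simp [h1'])⟩
          · right
            exact ⟨by simp, REPL_ctx (LC r)
              (topL (Sum.inl (v', true)) :: LC c') h1 (by simp) (by simp [h1'])⟩
          · left
            exact ⟨REPL_ctx []
              (topL (Sum.inl (v', false)) :: (LC c' ++ RC r)) h1 (by simp) (by simp [h1']),
              by simp⟩
        · cases j <;> cases s'
          · left
            exact ⟨REPL_ctx (retL (Sum.inl (v', true)) :: (RC c' ++ [topL (Sum.inl (v', true))]))
              (RC r) h1' (by simp) (by simp [h1]), by simp⟩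
          · right
            exact ⟨by simp, REPL_ctx (LC r ++ (RC c' ++ [topL (Sum.inl (v', false))]))
              [retL (Sum.inl (v', false))] h1' (by simp) (by simp [h1])⟩
          · right
            exact ⟨by simp, REPL_ctx (LC r ++ (RC c' ++ [topL (Sum.inl (v', true))]))
              [] h1' (by simp) (by simp [h1])⟩
          · left
            exact ⟨REPL_ctx (RC c' ++ [topL (Sum.inl (v', false))])
              (RC r) h1' (by simp) (by simp [h1]), by simp⟩
      · rintro nu x y ⟨g1, g2, g3⟩ g4
        exact ⟨g1, g2, h2 nu _ _ g3 g4⟩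
      · simp only [eps]
        have h6 : (eps c'' ++ eps r).Perm ((v, !s) :: (eps c ++ (eps c' ++ eps r))) := by
          refine (List.Perm.append_right _ h3).trans ?_
          simp
        refine (List.Perm.cons _ (List.Perm.cons _ h6)).trans ?_
        have h7 : ∀ (a b d : V × Bool) (l m : List (V × Bool)),
            (a :: b :: d :: (l ++ m)).Perm (d :: (l ++ a :: b :: m)) := by
          intro a b d l m
          refine ((List.Perm.swap _ _ _).cons _).trans ((List.Perm.swap _ _ _).trans
            (List.Perm.cons _ ?_))
          refine ((List.perm_middle (a := b) (l₁ := l) (l₂ := m)).symm.cons a).trans ?_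
          exact (List.perm_middle).symm
        exact h7 _ _ _ _ _
      · rintro ⟨g1, g2⟩ g3
        exact ⟨h5 g1 g3, g2⟩
      · rintro ⟨g1, g2, g3⟩ g4
        exact ⟨g1, h5 g2 g4, g3⟩
    · obtain ⟨r', h1, h2, h3, h4, h5⟩ := ihr hv
      refine ⟨BT.ch j v' s' c' r', ?_, ?_, ?_, ?_, ?_⟩
      · rcases h1 with ⟨h1, h1'⟩ | ⟨h1, h1'⟩
        · cases j <;> cases s'
          · left
            exact ⟨REPL_ctx (retL (Sum.inl (v', true)) ::
              (RC c' ++ topL (Sum.inl (v', true)) :: LC c')) [] h1 (by simp) (by simp),
              by simp [h1']⟩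
          · left
            exact ⟨REPL_ctx [] [] h1 (by simp) (by simp), by simp [h1']⟩
          · left
            exact ⟨REPL_ctx [retL (Sum.inl (v', true))] [] h1 (by simp) (by simp),
              by simp [h1']⟩
          · left
            exact ⟨REPL_ctx (RC c' ++ topL (Sum.inl (v', false)) :: LC c') [] h1
              (by simp) (by simp), by simp [h1']⟩
        · cases j <;> cases s'
          · right
            exact ⟨by simp [h1], REPL_ctx [] [] h1' (by simp) (by simp)⟩
          · right
            exact ⟨by simp [h1], REPL_ctx [] (RC c' ++ topL (Sum.inl (v', false)) ::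
              (LC c' ++ [retL (Sum.inl (v', false))])) h1' (by simp) (by simp)⟩
          · right
            exact ⟨by simp [h1], REPL_ctx [] (RC c' ++ topL (Sum.inl (v', true)) ::
              LC c') h1' (by simp) (by simp)⟩
          · right
            exact ⟨by simp [h1], REPL_ctx [] [retL (Sum.inl (v', false))] h1'
              (by simp) (by simp)⟩
      · rintro nu x y ⟨g1, g2, g3⟩ g4
        exact ⟨g1, h2 nu _ _ g2 g4, g3⟩
      · simp only [eps]
        have h6 : (eps c' ++ eps r').Perm ((v, !s) :: (eps c ++ (eps c' ++ eps r))) := by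
          refine (List.Perm.append_left _ h3).trans ?_
          refine (List.perm_middle).trans (List.Perm.cons _ ?_)
          rw [← List.append_assoc, ← List.append_assoc]
          exact List.Perm.append_right _ List.perm_append_comm
        refine (List.Perm.cons _ (List.Perm.cons _ h6)).trans ?_
        have h7 : ∀ (a b d : V × Bool) (l m : List (V × Bool)),
            (a :: b :: d :: (l ++ m)).Perm (d :: (l ++ a :: b :: m)) := by
          intro a b d l m
          refine ((List.Perm.swap _ _ _).cons _).trans ((List.Perm.swap _ _ _).trans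
            (List.Perm.cons _ ?_))
          refine ((List.perm_middle (a := b) (l₁ := l) (l₂ := m)).symm.cons a).trans ?_
          exact (List.perm_middle).symm
        exact h7 _ _ _ _ _
      · rintro ⟨g1, g2⟩ g3
        exact ⟨g1, h4 g2 g3⟩
      · rintro ⟨g1, g2, g3⟩ g4
        exact ⟨g1, g2, h5 g3 g4⟩

end Pool.Agent.H53.SQ
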